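import Mathlib

/-!
# TW: definitions for Theorem M (no proof needed here)

`ι` = the finite set of indices of the factors of `f`. `pat D i p` = the set of `k ≠ i` with `(D_k / p) = -1`.
`Adm φ z Y` = the tuples `D : ι → ℕ` with `∏ D_i` odd, squarefree, `≤ Y`, all `D_i > z`, such that `φ i p (pat D i p)` for every `i` and every prime `p ∣ D_i`.
`alph φ i p` = the proportion of the subsets `T ⊆ ι \ {i}` with `φ i p T`.
`V = ι × Finset ι`; `cls n i = ∏_S n(i,S)`; `PhiV c n` = the term of the expansion.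
-/

set_option autoImplicit false

namespace Pool.Agent.Helper38.TW

open Finset

variable {ι : Type} [Fintype ι] [DecidableEq ι]

/-- the sign pattern of `D` at the prime `p` (without the index `i`) -/
def pat (D : ι → ℕ) (i : ι) (p : ℕ) : Finset ι :=
  univ.filter (fun k => k ≠ i ∧ jacobiSym (D k) p = -1)

open Classical in
/-- the proportion of the patterns that are allowed at `p` for the index `i` -/
noncomputable def alph (φ : ι → ℕ → Finset ι → Prop) (i : ι) (p : ℕ) : ℝ :=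
  (((univ.erase i).powerset.filter (fun T => φ i p T)).card : ℝ) / 2 ^ (Fintype.card ι - 1)

/-- the admissible tuples -/
def Adm (φ : ι → ℕ → Finset ι → Prop) (z Y : ℕ) : Set (ι → ℕ) :=
  {D | Odd (∏ i, D i) ∧ Squarefree (∏ i, D i) ∧ ∏ i, D i ≤ Y ∧ (∀ i, z < D i) ∧
    ∀ i, ∀ p ∈ (D i).primeFactors, φ i p (pat D i p)}

/-- `c` is the family of Fourier coefficients of `φ` -/
def IsFour (φ : ι → ℕ → Finset ι → Prop) (c : ι → ℕ → Finset ι → ℝ) : Prop :=
  (∀ i p S, i ∈ S → c i p S = 0) ∧ (∀ i p S, |c i p S| ≤ alph φ i p) ∧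
  (∀ i p T, T ⊆ univ.erase i →
    (φ i p T → ∑ S : Finset ι, c i p S * (-1 : ℝ) ^ (S ∩ T).card = 1) ∧
    (¬ φ i p T → ∑ S : Finset ι, c i p S * (-1 : ℝ) ^ (S ∩ T).card = 0))

/-- the product of a class of variables -/
def cls (n : ι × Finset ι → ℕ) (i : ι) : ℕ := ∏ S : Finset ι, n (i, S)

/-- a term of the expansion -/
noncomputable def PhiV (c : ι → ℕ → Finset ι → ℝ) (n : ι × Finset ι → ℕ) : ℝ :=
  (∏ v : ι × Finset ι, ∏ p ∈ (n v).primeFactors, c v.1 p v.2) *
    ∏ v : ι × Finset ι, ∏ w ∈ univ.filter (fun w : ι × Finset ι => w.1 ∈ v.2),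
      (jacobiSym (n w : ℤ) (n v) : ℝ)

end Pool.Agent.Helper38.TW
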