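import Mathlib
import Pool.Agent.Helper38.TW.MDefs

/-!
# TW: factorization data and the local conditions of the descent (definitions)

`f ∈ ℤ[X]` separable over `ℚ`; `b f = c ∏ g_i`, the `g_i` irreducible over `ℚ` and pairwise coprime; `B` is a positive even integer divisible by `b`, `c`, all leading coefficients, with `u g_i + v g_k = B` for `i ≠ k`.
`Cond τ i p T`: `p ∤ B` and there is a root `x` of `g_i` mod `p` such that `τ_k g_k(x)` (`k ≠ i`) is not `0` mod `p` and is a nonresidue exactly for `k ∈ T`.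
`condI τ I E`: the same for a subset `I` of indices, the `E_k`, `k ∉ I`, being fixed.
-/

set_option autoImplicit false

namespace Pool.Agent.Helper38.TW

open Finset Polynomial

/-- factorization data -/
structure FData (f : ℤ[X]) (ι : Type) [Fintype ι] [DecidableEq ι] where
  g : ι → ℤ[X]
  b : ℤ
  c : ℤ
  B : ℕ
  irr : ∀ i, Irreducible ((g i).map (Int.castRingHom ℚ))
  b_ne : b ≠ 0
  c_ne : c ≠ 0
  fac : C b * f = C c * ∏ i, g i
  B_ne : B ≠ 0
  two_dvd : 2 ∣ B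
  b_dvd : b ∣ (B : ℤ)
  c_dvd : c ∣ (B : ℤ)
  lead_dvd : ∀ i, (g i).leadingCoeff ∣ (B : ℤ)
  bez : ∀ i k, i ≠ k → ∃ u v : ℤ[X], u * g i + v * g k = C (B : ℤ)

variable {f : ℤ[X]} {ι : Type} [Fintype ι] [DecidableEq ι]

/-- the local condition at a prime `p ∣ D_i` -/
def Cond (dt : FData f ι) (τ : ι → ℤ) (i : ι) (p : ℕ) (T : Finset ι) : Prop :=
  ¬ p ∣ dt.B ∧ ∃ x : ℤ, (p : ℤ) ∣ (dt.g i).eval x ∧ ∀ k, k ≠ i →
    jacobiSym (τ k * (dt.g k).eval x) p ≠ 0 ∧
    (jacobiSym (τ k * (dt.g k).eval x) p = -1 ↔ k ∈ T)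

/-- the local condition if the `E k`, `k ∉ I`, are fixed -/
def condI (dt : FData f ι) (τ : ι → ℤ) (I : Finset ι) (E : ι → ℕ) (i : {i // i ∈ I}) (p : ℕ)
    (T : Finset {i // i ∈ I}) : Prop :=
  (∀ k, k ∉ I → jacobiSym (E k) p ≠ 0) ∧
    Cond dt τ i.1 p (T.map (Function.Embedding.subtype _) ∪
      univ.filter (fun k => k ∉ I ∧ jacobiSym (E k) p = -1))

/-- the nondegenerate case -/
def NonDeg (dt : FData f ι) (I : Finset ι) (E : ι → ℕ) : Prop :=
  (∃ i ∈ I, (dt.g i).natDegree ≠ 1) ∨ 3 ≤ I.card ∨ ∃ k, k ∉ I ∧ 1 < E k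

end Pool.Agent.Helper38.TW
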