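import Mathlib
import Pool.Agent.Helper38.TW.FDefs

/-!
# TW-F2: the descent

`D` squarefree, `y ≠ 0`, `y² = D f(x)`. Then `D ∣ y²`, `D ∣ y` (squarefree: `Squarefree.dvd_pow_iff_dvd`), `y = D y₁`, `D y₁² = f(x)` (`D ≠ 0`), and `b D y₁² = c ∏ g_i(x)` (`fac` evaluated at `x`), all `g_i(x) ≠ 0`.
For a nonzero integer `v` let `E(v)` = product of the primes `p ∤ B` with `v_p(v)` odd, and `τ(v)` = sign(v) times the product of the primes `p ∣ B` with `v_p(v)` odd. Then `v = τ(v) E(v) u²` with `u ≠ 0` (all `v_p` of `|v|/(|τ| E)` are even), `τ(v) ∣ B`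
(a product of different primes dividing `B`), `E(v)` is squarefree, coprime to `B`, odd.
Put `E_i = E(g_i(x))`, `τ_i = τ(g_i(x))`. For a prime `p ∤ B` at most one `g_i(x)` is divisible by `p` (`bez`). So the `E_i` are pairwise coprime (`∏ E_i` squarefree), and for `p ∤ B`: `v_p(D) ≡ ∑ v_p(g_i(x))` mod 2 (as `p ∤ b c`), i.e. `p ∣ D ↔ p ∣ ∏ E_i`
(`v_p(D) ≤ 1`). Hence `D = t ∏ E_i`, where `t = ± ∏_{p ∣ D, p ∣ B} p` divides `B`.
`cond_of_descent`: let `p ∣ E_i`. `p ∤ B`, `p ∣ g_i(x)`, for `k ≠ i`: `p ∤ g_k(x) = τ_k E_k u_k²` (`bez`), so `τ_k g_k(x) = τ_k² E_k u_k²` is not divisible by `p` and `(τ_k g_k(x) / p) = (E_k/p)`, which is what `Cond` with `T = pat E i p` says (`p` is odd because `2 ∣ B`; `jacobiSym.mul_left`, `jacobiSym.sq_one`).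
`condI_of_cond`: for `I`: `pat E i p` is the union of the image of `pat (E restricted to I) i p` and `{k ∉ I : (E_k/p) = -1}`, and `p ∤ E_k` for `k ≠ i` (`∏ E` squarefree).
-/

set_option autoImplicit false

namespace Pool.Agent.Helper38.TW

open Finset Polynomial

variable {f : ℤ[X]} {ι : Type} [Fintype ι] [DecidableEq ι]

private theorem sqf_part {v : ℤ} (hv : v ≠ 0) {B : ℕ} :
    ∃ (E : ℕ) (τ u : ℤ), u ≠ 0 ∧ v = τ * E * u ^ 2 ∧ τ ∣ (B : ℤ) ∧ Squarefree E ∧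
      Nat.Coprime E B := by
  obtain ⟨a, b, hab, hsq⟩ := Nat.sq_mul_squarefree v.natAbs
  have hvn : v.natAbs ≠ 0 := Int.natAbs_ne_zero.2 hv
  have hb : b ≠ 0 := by
    rintro rfl
    apply hvn
    rw [← hab]
    simp
  obtain ⟨E, hE⟩ := Nat.gcd_dvd_left a B
  refine ⟨E, v.sign * (Nat.gcd a B : ℕ), b, by exact_mod_cast hb, ?_, ?_, ?_, ?_⟩
  · have h1 : (v.natAbs : ℤ) = (b : ℤ) ^ 2 * ((Nat.gcd a B : ℕ) * (E : ℤ)) := by
      rw [← hab]
      push_cast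
      congr 1
      exact_mod_cast hE
    calc v = v.sign * v.natAbs := (Int.sign_mul_natAbs v).symm
      _ = v.sign * (Nat.gcd a B : ℕ) * E * (b : ℤ) ^ 2 := by
        rw [h1]
        ring
  · have h1 : ((Nat.gcd a B : ℕ) : ℤ) ∣ (B : ℤ) := Int.natCast_dvd_natCast.2 (Nat.gcd_dvd_right a B)
    rcases lt_or_gt_of_ne hv with h2 | h2
    · rw [Int.sign_eq_neg_one_of_neg h2, neg_one_mul]
      exact (neg_dvd).2 h1
    · rw [Int.sign_eq_one_of_pos h2, one_mul]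
      exact h1
  · exact hsq.squarefree_of_dvd (Dvd.intro_left _ hE.symm)
  · by_contra hc
    obtain ⟨p, hp, hpE, hpB⟩ := Nat.Prime.not_coprime_iff_dvd.1 hc
    have h1 : p ∣ a := by
      rw [hE]
      exact Dvd.dvd.mul_left hpE _
    have h2 : p ∣ Nat.gcd a B := Nat.dvd_gcd h1 hpB
    refine Nat.squarefree_iff_prime_squarefree.1 hsq p hp ?_
    rw [hE]
    exact mul_dvd_mul h2 hpE

private theorem sqf_dvd {m n : ℕ} (hm : Squarefree m) (h : ∀ p : ℕ, p.Prime → p ∣ m → p ∣ n) :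
    m ∣ n := by
  rw [← Nat.prod_primeFactors_of_squarefree hm]
  exact Finset.prod_primes_dvd n (fun p hp => (Nat.prime_of_mem_primeFactors hp).prime)
    (fun p hp => h p (Nat.prime_of_mem_primeFactors hp) (Nat.dvd_of_mem_primeFactors hp))

private theorem sq_dvd_aux {p : ℕ} (hp : p.Prime) {W A M : ℤ} (hW : W ^ 2 = A * M)
    (hA : ¬ (p : ℤ) ∣ A) (hM : (p : ℤ) ∣ M) : (p : ℤ) ^ 2 ∣ M := by
  have hpi : Prime (p : ℤ) := Nat.prime_iff_prime_int.1 hp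
  have h1 : (p : ℤ) ∣ W ^ 2 := by
    rw [hW]
    exact Dvd.dvd.mul_left hM _
  have h2 : (p : ℤ) ∣ W := hpi.dvd_of_dvd_pow h1
  have h3 : (p : ℤ) ^ 2 ∣ A * M := by
    rw [← hW]
    exact pow_dvd_pow_of_dvd h2 2
  have h4 : IsCoprime ((p : ℤ) ^ 2) A := ((hpi.coprime_iff_not_dvd).2 hA).pow_left
  exact h4.dvd_of_dvd_mul_left h3

private theorem bez_dvd (dt : FData f ι) {i k : ι} (hik : i ≠ k) {x : ℤ} {p : ℕ}
    (h1 : (p : ℤ) ∣ (dt.g i).eval x) (h2 : (p : ℤ) ∣ (dt.g k).eval x) : p ∣ dt.B := by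
  obtain ⟨U, V, hUV⟩ := dt.bez i k hik
  have h3 := congrArg (Polynomial.eval x) hUV
  simp only [eval_add, eval_mul, eval_C] at h3
  have h5 : (p : ℤ) ∣ (dt.B : ℤ) := by
    rw [← h3]
    exact dvd_add (Dvd.dvd.mul_left h1 _) (Dvd.dvd.mul_left h2 _)
  exact Int.natCast_dvd_natCast.1 h5

theorem descent (dt : FData f ι) (D x y : ℤ) (hD : Squarefree D) (hy : y ≠ 0)
    (h : y ^ 2 = D * f.eval x) :
    ∃ (t : ℤ) (E : ι → ℕ) (τ : ι → ℤ), t ∣ (dt.B : ℤ) ∧ (∀ i, τ i ∣ (dt.B : ℤ)) ∧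
      D = t * ((∏ i, E i : ℕ) : ℤ) ∧ Squarefree (∏ i, E i) ∧ Nat.Coprime (∏ i, E i) dt.B ∧
      ∀ i, ∃ u : ℤ, u ≠ 0 ∧ (dt.g i).eval x = τ i * E i * u ^ 2 := by
  have hD0 : D ≠ 0 := hD.ne_zero
  have h1 : D ∣ y := (hD.dvd_pow_iff_dvd two_ne_zero).1 ⟨_, h⟩
  obtain ⟨y1, rfl⟩ := h1
  have hy1 : y1 ≠ 0 := right_ne_zero_of_mul hy
  have hf : D * y1 ^ 2 = f.eval x := by
    apply mul_left_cancel₀ hD0
    rw [← h]
    ring
  have hfac : dt.b * f.eval x = dt.c * ∏ i, (dt.g i).eval x := by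
    have h2 := congrArg (Polynomial.eval x) dt.fac
    simpa only [eval_mul, eval_C, eval_prod] using h2
  have hprod : ∏ i, (dt.g i).eval x ≠ 0 := by
    intro h0
    rw [h0, mul_zero, ← hf] at hfac
    exact mul_ne_zero dt.b_ne (mul_ne_zero hD0 (pow_ne_zero 2 hy1)) hfac
  have hg : ∀ i, (dt.g i).eval x ≠ 0 := fun i => Finset.prod_ne_zero_iff.1 hprod i (mem_univ i)
  choose E τ u hu hgu hτ hEs hEB using fun i => sqf_part (hg i) (B := dt.B)
  have hdvd : ∀ (i : ι) (p : ℕ), p ∣ E i → (p : ℤ) ∣ (dt.g i).eval x := by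
    intro i p hp
    rw [hgu i]
    exact Dvd.dvd.mul_right (Dvd.dvd.mul_left (Int.natCast_dvd_natCast.2 hp) _) _
  have hpair : ∀ i k, i ≠ k → Nat.Coprime (E i) (E k) := by
    intro i k hik
    by_contra hc
    obtain ⟨p, hp, hpi, hpk⟩ := Nat.Prime.not_coprime_iff_dvd.1 hc
    exact Nat.Prime.not_coprime_iff_dvd.2
      ⟨p, hp, hpi, bez_dvd dt hik (hdvd i p hpi) (hdvd k p hpk)⟩ (hEB i)
  have hPs : Squarefree (∏ i, E i) := by
    refine Finset.squarefree_prod_of_pairwise_isCoprime (fun i _ k _ hik => ?_) (fun i _ => hEs i)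
    exact Nat.coprime_iff_isRelPrime.1 (hpair i k hik)
  have hPB : Nat.Coprime (∏ i, E i) dt.B := Nat.Coprime.prod_left fun i _ => hEB i
  have heq : dt.b * (D * y1 ^ 2) =
      dt.c * ((∏ i, τ i) * ((∏ i, E i : ℕ) : ℤ) * (∏ i, u i) ^ 2) := by
    rw [hf, hfac, Finset.prod_congr rfl (fun i _ => hgu i), Finset.prod_mul_distrib,
      Finset.prod_mul_distrib, Finset.prod_pow]
    push_cast
    ring
  generalize hP : (∏ i, E i) = P at hPs hPB heq ⊢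
  have hbc : ∀ p : ℕ, p.Prime → ¬ p ∣ dt.B → ¬ (p : ℤ) ∣ dt.b * dt.c * ∏ i, τ i := by
    intro p hp hpB hcon
    have hpi : Prime (p : ℤ) := Nat.prime_iff_prime_int.1 hp
    apply hpB
    apply Int.natCast_dvd_natCast.1
    rcases hpi.dvd_or_dvd hcon with h2 | h2
    · rcases hpi.dvd_or_dvd h2 with h3 | h3
      · exact h3.trans dt.b_dvd
      · exact h3.trans dt.c_dvd
    · obtain ⟨i, -, hi⟩ := (Prime.dvd_finsetProd_iff hpi _).1 h2
      exact hi.trans (hτ i)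
  obtain ⟨W, hW⟩ : ∃ W : ℤ, W ^ 2 = (dt.b * dt.c * ∏ i, τ i) * (D * P) := by
    have h2 : y1 ^ 2 ∣ (dt.c * (∏ i, τ i) * P * ∏ i, u i) ^ 2 :=
      ⟨(dt.b * dt.c * ∏ i, τ i) * (D * P), by
        linear_combination (-(dt.c * (∏ i, τ i) * P)) * heq⟩
    obtain ⟨W, hW⟩ := (Int.pow_dvd_pow_iff two_ne_zero).1 h2
    refine ⟨W, ?_⟩
    apply mul_left_cancel₀ (pow_ne_zero 2 hy1)
    rw [← mul_pow, ← hW]
    linear_combination (-(dt.c * (∏ i, τ i) * P)) * heq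
  have hPD : P ∣ D.natAbs := by
    refine sqf_dvd hPs fun p hp hpP => ?_
    by_contra hpD
    have hpB : ¬ p ∣ dt.B := fun h2 => Nat.Prime.not_coprime_iff_dvd.2 ⟨p, hp, hpP, h2⟩ hPB
    have h3 := sq_dvd_aux hp hW (hbc p hp hpB)
      (Dvd.dvd.mul_left (Int.natCast_dvd_natCast.2 hpP) D)
    have hpi : Prime (p : ℤ) := Nat.prime_iff_prime_int.1 hp
    have h4 : IsCoprime ((p : ℤ) ^ 2) D :=
      ((hpi.coprime_iff_not_dvd).2 fun h5 => hpD (Int.natCast_dvd.1 h5)).pow_left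
    have h5 : (p : ℤ) ^ 2 ∣ P := h4.dvd_of_dvd_mul_left h3
    refine Nat.squarefree_iff_prime_squarefree.1 hPs p hp ?_
    rw [← sq]
    exact_mod_cast h5
  obtain ⟨t, ht⟩ := Int.natCast_dvd.2 hPD
  have hts : Squarefree t := hD.squarefree_of_dvd (Dvd.intro_left _ ht.symm)
  have htB : t ∣ (dt.B : ℤ) := by
    apply Int.natAbs_dvd.1
    apply Int.natCast_dvd_natCast.2
    refine sqf_dvd (Int.squarefree_natAbs.2 hts) fun p hp hpt => ?_
    by_contra hpB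
    have hpi : Prime (p : ℤ) := Nat.prime_iff_prime_int.1 hp
    have hpt' : (p : ℤ) ∣ t := Int.natCast_dvd.2 hpt
    have hpP : ¬ (p : ℤ) ∣ P := by
      intro h2
      have h3 : (p : ℤ) * p ∣ D := by
        rw [ht]
        exact mul_dvd_mul h2 hpt'
      exact hpi.not_isUnit (hD _ h3)
    have hW' : W ^ 2 = ((dt.b * dt.c * ∏ i, τ i) * (P * P)) * t := by
      rw [hW, ht]
      ring
    have hnd : ¬ (p : ℤ) ∣ (dt.b * dt.c * ∏ i, τ i) * ((P : ℤ) * P) := by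
      intro h2
      rcases hpi.dvd_or_dvd h2 with h3 | h3
      · exact hbc p hp hpB h3
      · rcases hpi.dvd_or_dvd h3 with h4 | h4 <;> exact hpP h4
    have h3 := sq_dvd_aux hp hW' hnd hpt'
    rw [sq] at h3
    exact hpi.not_isUnit (hts _ h3)
  refine ⟨t, E, τ, htB, hτ, ?_, ?_, ?_, fun i => ⟨u i, hu i, hgu i⟩⟩
  · rw [hP, ht, mul_comm]
  · rw [hP]
    exact hPs
  · rw [hP]
    exact hPB

theorem cond_of_descent (dt : FData f ι) (x : ℤ) (E : ι → ℕ) (τ : ι → ℤ)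
    (hτ : ∀ i, τ i ∣ (dt.B : ℤ)) (hsq : Squarefree (∏ i, E i))
    (hcop : Nat.Coprime (∏ i, E i) dt.B)
    (h : ∀ i, ∃ u : ℤ, u ≠ 0 ∧ (dt.g i).eval x = τ i * E i * u ^ 2) :
    ∀ i, ∀ p ∈ (E i).primeFactors, Cond dt τ i p (pat E i p) := by
  intro i p hpi
  have hp := Nat.prime_of_mem_primeFactors hpi
  have hpE := Nat.dvd_of_mem_primeFactors hpi
  have : Fact p.Prime := ⟨hp⟩
  have hpr : Prime (p : ℤ) := Nat.prime_iff_prime_int.1 hp
  have hpB : ¬ p ∣ dt.B := fun h2 => Nat.Prime.not_coprime_iff_dvd.2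
    ⟨p, hp, hpE.trans (Finset.dvd_prod_of_mem E (mem_univ i)), h2⟩ hcop
  obtain ⟨v, -, hv⟩ := h i
  have hgi : (p : ℤ) ∣ (dt.g i).eval x := by
    rw [hv]
    exact Dvd.dvd.mul_right (Dvd.dvd.mul_left (Int.natCast_dvd_natCast.2 hpE) _) _
  have hgcd : ∀ a : ℤ, ¬ (p : ℤ) ∣ a → a.gcd p = 1 := by
    intro a ha
    have h2 := ((hpr.coprime_iff_not_dvd).2 ha).symm
    exact Int.isCoprime_iff_gcd_eq_one.1 h2
  refine ⟨hpB, x, hgi, fun k hk => ?_⟩
  obtain ⟨u, -, hu⟩ := h k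
  have hgk : ¬ (p : ℤ) ∣ (dt.g k).eval x := fun h2 => hpB (bez_dvd dt (Ne.symm hk) hgi h2)
  have hτk : ¬ (p : ℤ) ∣ τ k := fun h2 => hpB (Int.natCast_dvd_natCast.1 (h2.trans (hτ k)))
  have hEk : ¬ (p : ℤ) ∣ (E k : ℤ) := fun h2 => hgk (by
    rw [hu]
    exact Dvd.dvd.mul_right (Dvd.dvd.mul_left h2 _) _)
  have huk : ¬ (p : ℤ) ∣ u := fun h2 => hgk (by
    rw [hu]
    exact Dvd.dvd.mul_left (h2.trans (dvd_pow_self u two_ne_zero)) _)
  have hJ : jacobiSym (τ k * (dt.g k).eval x) p = jacobiSym (E k) p := by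
    have h2 : τ k * (dt.g k).eval x = τ k ^ 2 * E k * u ^ 2 := by
      rw [hu]
      ring
    rw [h2, jacobiSym.mul_left, jacobiSym.mul_left, jacobiSym.sq_one' (hgcd _ hτk),
      jacobiSym.sq_one' (hgcd _ huk), one_mul, mul_one]
  rw [hJ]
  refine ⟨jacobiSym.ne_zero (hgcd _ hEk), ?_⟩
  rw [pat, Finset.mem_filter]
  exact ⟨fun h2 => ⟨mem_univ k, hk, h2⟩, fun h2 => h2.2.2⟩

theorem condI_of_cond (dt : FData f ι) (τ : ι → ℤ) (I : Finset ι) (E : ι → ℕ)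
    (hsq : Squarefree (∏ i, E i)) (h : ∀ i, ∀ p ∈ (E i).primeFactors, Cond dt τ i p (pat E i p)) :
    ∀ i : {i // i ∈ I}, ∀ p ∈ (E i.1).primeFactors,
      condI dt τ I E i p (pat (fun k : {i // i ∈ I} => E k.1) i p) := by
  intro i p hpi
  have hp := Nat.prime_of_mem_primeFactors hpi
  have hpE := Nat.dvd_of_mem_primeFactors hpi
  have : Fact p.Prime := ⟨hp⟩
  have hpr : Prime (p : ℤ) := Nat.prime_iff_prime_int.1 hp
  constructor
  · intro k hk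
    have hki : k ≠ i.1 := by
      rintro rfl
      exact hk i.2
    have h2 : ¬ p ∣ E k := by
      intro h3
      refine Nat.squarefree_iff_prime_squarefree.1 hsq p hp ?_
      have h4 : E i.1 * E k ∣ ∏ j, E j := by
        have h5 := Finset.prod_dvd_prod_of_subset ({i.1, k} : Finset ι) univ E
          (Finset.subset_univ _)
        rwa [Finset.prod_pair (Ne.symm hki)] at h5
      exact (mul_dvd_mul hpE h3).trans h4
    have h3 : ¬ (p : ℤ) ∣ (E k : ℤ) := fun h4 => h2 (Int.natCast_dvd_natCast.1 h4)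
    exact jacobiSym.ne_zero
      (Int.isCoprime_iff_gcd_eq_one.1 ((hpr.coprime_iff_not_dvd).2 h3).symm)
  · have hset : (pat (fun k : {i // i ∈ I} => E k.1) i p).map (Function.Embedding.subtype _) ∪
        univ.filter (fun k => k ∉ I ∧ jacobiSym (E k) p = -1) = pat E i.1 p := by
      ext k
      simp only [pat, Finset.mem_union, Finset.mem_map, Finset.mem_filter, mem_univ, true_and,
        Function.Embedding.subtype_apply]
      constructor
      · rintro (⟨a, ⟨ha1, ha2⟩, rfl⟩ | ⟨h1, h2⟩)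
        · exact ⟨fun h3 => ha1 (Subtype.ext h3), ha2⟩
        · refine ⟨?_, h2⟩
          rintro rfl
          exact h1 i.2
      · rintro ⟨h1, h2⟩
        by_cases hk : k ∈ I
        · exact Or.inl ⟨⟨k, hk⟩, ⟨fun h3 => h1 (congrArg Subtype.val h3), h2⟩, rfl⟩
        · exact Or.inr ⟨hk, h2⟩
    rw [hset]
    exact h i.1 p hpi

end Pool.Agent.Helper38.TW
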