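import Mathlib
import Pool.Agent.Helper38.TW.Descent

/-!
# TW: definitions for the final counting

`TwSet f X` = the squarefree `D`, `|D| ≤ X`, such that `y² = D f(x)` has an integral solution with `y ≠ 0`. `IsDesc` = the data of the descent. `divB` = the divisors of `B` in `ℤ`.
-/

set_option autoImplicit false

namespace Pool.Agent.Helper38.TW

open Finset Polynomial

/-- squarefree twists with a nontrivial integral point -/
def TwSet (f : ℤ[X]) (X : ℕ) : Set ℤ :=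
  {D | Squarefree D ∧ |D| ≤ X ∧ ∃ x y : ℤ, y ≠ 0 ∧ y ^ 2 = D * f.eval x}

variable {f : ℤ[X]} {ι : Type} [Fintype ι] [DecidableEq ι]

/-- the descent data -/
def IsDesc (dt : FData f ι) (D x t : ℤ) (E : ι → ℕ) (τ : ι → ℤ) : Prop :=
  t ∣ (dt.B : ℤ) ∧ (∀ i, τ i ∣ (dt.B : ℤ)) ∧ D = t * ((∏ i, E i : ℕ) : ℤ) ∧
    Squarefree (∏ i, E i) ∧ Nat.Coprime (∏ i, E i) dt.B ∧
    ∀ i, ∃ u : ℤ, u ≠ 0 ∧ (dt.g i).eval x = τ i * E i * u ^ 2

/-- the degenerate twists -/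
def DegSet (dt : FData f ι) : Set ℤ :=
  {D | Squarefree D ∧ ∃ (x y t : ℤ) (E : ι → ℕ) (τ : ι → ℤ) (I : Finset ι), y ≠ 0 ∧
    y ^ 2 = D * f.eval x ∧ IsDesc dt D x t E τ ∧ I.Nonempty ∧ ¬ NonDeg dt I E}

/-- divisors of `B` in `ℤ` -/
noncomputable def divB (dt : FData f ι) : Finset ℤ :=
  (Icc (-(dt.B : ℤ)) dt.B).filter (fun t => t ∣ (dt.B : ℤ))

open Classical in
/-- the small parts `E` for the set `I` of big indices (`E k = 1` for `k ∈ I`) -/
noncomputable def smallE (dt : FData f ι) (I : Finset ι) (z : ℕ) : Finset (ι → ℕ) :=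
  (Fintype.piFinset (fun k => if k ∈ I then ({1} : Finset ℕ) else Icc 1 z)).filter
    (fun E => NonDeg dt I E ∧ ∀ k, k ∉ I → Squarefree (E k) ∧ Nat.Coprime (E k) dt.B)

end Pool.Agent.Helper38.TW
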