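import Mathlib

/-!
# TW-S4: integers that are squares outside `N`, modulo squares; divisors modulo units

`divisors_mod_units`: the ideal `(δ)` has finitely many divisors (unique factorization of ideals; `UniqueFactorizationMonoid.fintypeSubtypeDvd` for `Ideal (𝓞 K)`), choose a generator `μ` for each of them that is principal; if `w ∣ δ` then `(w)` is one of them, so `w = μ ε`.
`sel_finite`: let `A ≠ 0` with `v_P(A)` even for every prime ideal `P` that does not contain `N`. Then `(A) = 𝔞 𝔟²`, where `𝔞` is the product of the primes `P ∋ N` with `v_P(A)` odd: finitely many possibilities for `𝔞` (there are finitely many primes containing `N`: divisors of `(N)`).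
Fix for every ideal class an integral nonzero ideal `𝔠` in it (the class group is finite), and let `𝔠` be the one in the class of `𝔟`: by `ClassGroup.mk0_eq_mk0_iff` there are nonzero `u, v ∈ 𝓞_K` with `(u) 𝔟 = (v) 𝔠`.
So `(u² A) = 𝔞 (v 𝔠)²`, i.e. `(u² A) = (v²) 𝔞 𝔠²`; so the class of `𝔞 𝔠²` is trivial and `𝔞 𝔠²` is principal (`ClassGroup.mk0_eq_one_iff`): choose a generator `g` for each of the finitely many pairs `(𝔞, 𝔠)` with `𝔞 𝔠²` principal. `u² A = v² g ε` with a unit `ε`, and `ε = ε₀ ε₁²` with `ε₀` from a finite set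
(the unit group is finitely generated and abelian, so its quotient by the squares is finite: it is a finitely generated torsion group, `CommGroup.finite_of_fg_torsion`). `κ = g ε₀`, `η = v ε₁/u`.
-/

set_option autoImplicit false

open NumberField

namespace Pool.Agent.Helper38.TW

theorem divisors_mod_units (K : Type) [Field K] [NumberField K] (δ : 𝓞 K) (hδ : δ ≠ 0) :
    ∃ M : Finset (𝓞 K), (∀ μ ∈ M, μ ≠ 0) ∧
      ∀ w : 𝓞 K, w ∣ δ → ∃ μ ∈ M, ∃ ε : (𝓞 K)ˣ, w = μ * ε := by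
  classical
  have hspan : Ideal.span {δ} ≠ (0 : Ideal (𝓞 K)) := by
    simpa [Ideal.zero_eq_bot, Ideal.span_singleton_eq_bot] using hδ
  have hfin : Finite {I : Ideal (𝓞 K) // I ∣ Ideal.span {δ}} :=
    @Finite.of_fintype _ (UniqueFactorizationMonoid.fintypeSubtypeDvd _ hspan)
  have hfin' : ({I : Ideal (𝓞 K) | I ∣ Ideal.span {δ}}).Finite := hfin
  let g : Ideal (𝓞 K) → 𝓞 K := fun I =>
    if h : ∃ x : 𝓞 K, I = Ideal.span {x} then h.choose else 1
  have hg : ∀ w : 𝓞 K, Ideal.span {w} = Ideal.span {g (Ideal.span {w})} := by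
    intro w
    have h : ∃ x : 𝓞 K, Ideal.span {w} = Ideal.span {x} := ⟨w, rfl⟩
    have e : g (Ideal.span {w}) = h.choose := by
      simp only [g]
      exact dif_pos h
    rw [e]
    exact h.choose_spec
  refine ⟨(hfin'.toFinset.image g).filter (fun μ => μ ≠ 0), fun μ hμ => (Finset.mem_filter.mp hμ).2,
    fun w hw => ?_⟩
  have hw0 : w ≠ 0 := by
    rintro rfl
    exact hδ (zero_dvd_iff.mp hw)
  refine ⟨g (Ideal.span {w}), ?_, ?_⟩
  · refine Finset.mem_filter.mpr ⟨Finset.mem_image.mpr ⟨Ideal.span {w}, ?_, rfl⟩, ?_⟩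
    · rw [Set.Finite.mem_toFinset]
      change Ideal.span {w} ∣ Ideal.span {δ}
      rw [Ideal.dvd_iff_le, Ideal.span_singleton_le_span_singleton]
      exact hw
    · intro h0
      have h1 := hg w
      rw [h0] at h1
      simp at h1
      exact hw0 h1
  · have h1 : Associated (g (Ideal.span {w})) w := by
      rw [← Ideal.span_singleton_eq_span_singleton]
      exact (hg w).symm
    obtain ⟨ε, hε⟩ := h1
    exact ⟨ε, hε.symm⟩

/-- The units of a number field modulo squares have finitely many representatives. -/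
private lemma units_mod_squares (K : Type) [Field K] [NumberField K] :
    ∃ E : Finset (𝓞 K)ˣ, ∀ ε : (𝓞 K)ˣ, ∃ ε₀ ∈ E, ∃ ε₁ : (𝓞 K)ˣ, ε = ε₀ * ε₁ ^ 2 := by
  classical
  let H : Subgroup (𝓞 K)ˣ := (powMonoidHom 2 : (𝓞 K)ˣ →* (𝓞 K)ˣ).range
  have hFG : Group.FG (𝓞 K)ˣ := Group.fg_iff_monoid_fg.mpr inferInstance
  have hFG' : Group.FG ((𝓞 K)ˣ ⧸ H) := QuotientGroup.fg H
  have hfin : Finite ((𝓞 K)ˣ ⧸ H) := by
    apply CommGroup.finite_of_fg_isMulTorsion
    intro q
    rw [isOfFinOrder_iff_pow_eq_one]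
    refine ⟨2, by norm_num, ?_⟩
    induction q using QuotientGroup.induction_on with
    | H z =>
      rw [← QuotientGroup.mk_pow, QuotientGroup.eq_one_iff]
      exact ⟨z, rfl⟩
  have := Fintype.ofFinite ((𝓞 K)ˣ ⧸ H)
  refine ⟨Finset.univ.image (fun q : (𝓞 K)ˣ ⧸ H => q.out), fun ε => ?_⟩
  refine ⟨(QuotientGroup.mk ε : (𝓞 K)ˣ ⧸ H).out, Finset.mem_image.mpr ⟨_, Finset.mem_univ _, rfl⟩, ?_⟩
  have h1 : (QuotientGroup.mk ((QuotientGroup.mk ε : (𝓞 K)ˣ ⧸ H).out) : (𝓞 K)ˣ ⧸ H)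
      = QuotientGroup.mk ε := QuotientGroup.out_eq' _
  rw [QuotientGroup.eq] at h1
  obtain ⟨z, hz⟩ := h1
  refine ⟨z, ?_⟩
  have hz' : z ^ 2 = ((QuotientGroup.mk ε : (𝓞 K)ˣ ⧸ H).out)⁻¹ * ε := hz
  rw [hz']
  group

open Classical in
/-- A nonzero ideal whose valuations are even at the primes not containing `N` is `𝔞 𝔟²`. -/
private lemma ideal_split (K : Type) [Field K] [NumberField K] (S : Finset (Ideal (𝓞 K)))
    (J : Ideal (𝓞 K)) (hJ : J ≠ 0)
    (h : ∀ P : Ideal (𝓞 K), P ∈ UniqueFactorizationMonoid.normalizedFactors J → P ∉ S →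
        Even ((UniqueFactorizationMonoid.normalizedFactors J).count P)) :
    ∃ T ∈ S.powerset, ∃ b : Ideal (𝓞 K), J = (∏ P ∈ T, P) * b ^ 2 := by
  set nf := UniqueFactorizationMonoid.normalizedFactors J with hnf
  have hprod : J = nf.prod := by
    have := UniqueFactorizationMonoid.prod_normalizedFactors hJ
    exact (associated_iff_eq.mp this).symm
  refine ⟨nf.toFinset.filter (fun P => ¬ Even (nf.count P)), ?_,
    ∏ P ∈ nf.toFinset, P ^ (nf.count P / 2), ?_⟩
  · rw [Finset.mem_powerset]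
    intro P hP
    rw [Finset.mem_filter, Multiset.mem_toFinset] at hP
    by_contra hS
    exact hP.2 (h P hP.1 hS)
  · conv_lhs => rw [hprod, Finset.prod_multiset_count]
    rw [Finset.prod_filter, ← Finset.prod_pow, ← Finset.prod_mul_distrib]
    refine Finset.prod_congr rfl fun P _ => ?_
    by_cases hE : Even (nf.count P)
    · rw [if_neg (not_not.mpr hE), one_mul, ← pow_mul]
      congr 1
      obtain ⟨k, hk⟩ := hE
      omega
    · rw [if_pos hE, ← pow_mul, ← pow_succ']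
      rw [Nat.not_even_iff] at hE
      congr 1
      omega

open Classical in
theorem sel_finite (K : Type) [Field K] [NumberField K] (N : 𝓞 K) (hN : N ≠ 0) :
    ∃ Q : Finset K, (∀ κ ∈ Q, κ ≠ 0) ∧ ∀ A : 𝓞 K, A ≠ 0 →
      (∀ P : Ideal (𝓞 K), P.IsPrime → P ≠ ⊥ → N ∉ P →
        Even ((UniqueFactorizationMonoid.normalizedFactors (Ideal.span {A})).count P)) →
      ∃ κ ∈ Q, ∃ η : K, (A : K) = κ * η ^ 2 := by
  obtain ⟨E, hE⟩ := units_mod_squares K
  set S : Finset (Ideal (𝓞 K)) :=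
    (UniqueFactorizationMonoid.normalizedFactors (Ideal.span {N})).toFinset with hS
  -- representatives of the ideal classes
  let C : ClassGroup (𝓞 K) → nonZeroDivisors (Ideal (𝓞 K)) := fun c =>
    (ClassGroup.mk0_surjective (R := 𝓞 K) c).choose
  have hC : ∀ c, ClassGroup.mk0 (C c) = c := fun c =>
    (ClassGroup.mk0_surjective (R := 𝓞 K) c).choose_spec
  -- generators
  let g : Ideal (𝓞 K) → 𝓞 K := fun I =>
    if h : ∃ x : 𝓞 K, I = Ideal.span {x} then h.choose else 1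
  have hg : ∀ I : Ideal (𝓞 K), (∃ x : 𝓞 K, I = Ideal.span {x}) → I = Ideal.span {g I} := by
    intro I h
    have e : g I = h.choose := by
      simp only [g]
      exact dif_pos h
    rw [e]
    exact h.choose_spec
  let Q : Finset K :=
    (((S.powerset ×ˢ (Finset.univ : Finset (ClassGroup (𝓞 K)))) ×ˢ E).image
      (fun t => ((g ((∏ P ∈ t.1.1, P) * (C t.1.2 : Ideal (𝓞 K)) ^ 2) : 𝓞 K) : K)
        * (((t.2 : (𝓞 K)ˣ) : 𝓞 K) : K))).filter (fun κ => κ ≠ 0)
  refine ⟨Q, fun κ hκ => (Finset.mem_filter.mp hκ).2, fun A hA hP => ?_⟩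
  have hspan : Ideal.span {A} ≠ (0 : Ideal (𝓞 K)) := by
    simpa [Ideal.zero_eq_bot, Ideal.span_singleton_eq_bot] using hA
  have hspanN : Ideal.span {N} ≠ (0 : Ideal (𝓞 K)) := by
    simpa [Ideal.zero_eq_bot, Ideal.span_singleton_eq_bot] using hN
  obtain ⟨T, hT, b, hb⟩ := ideal_split K S (Ideal.span {A}) hspan (by
    intro P hPm hPS
    have hprime := UniqueFactorizationMonoid.prime_of_normalized_factor P hPm
    have hP0 : P ≠ ⊥ := hprime.ne_zero
    refine hP P (Ideal.isPrime_of_prime hprime) hP0 ?_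
    intro hNP
    apply hPS
    rw [hS, Multiset.mem_toFinset, Ideal.mem_normalizedFactors_iff hspanN]
    exact ⟨Ideal.isPrime_of_prime hprime, (Ideal.span_singleton_le_iff_mem _).mpr hNP⟩)
  have hb0 : b ≠ 0 := by
    rintro rfl
    apply hspan
    rw [hb]
    ring
  let c := ClassGroup.mk0 ⟨b, mem_nonZeroDivisors_of_ne_zero hb0⟩
  have hc : ClassGroup.mk0 ⟨b, mem_nonZeroDivisors_of_ne_zero hb0⟩ = ClassGroup.mk0 (C c) :=
    (hC c).symm
  rw [ClassGroup.mk0_eq_mk0_iff] at hc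
  obtain ⟨u, v, hu, hv, huv⟩ := hc
  simp only at huv
  set a : Ideal (𝓞 K) := ∏ P ∈ T, P with ha
  set I : Ideal (𝓞 K) := a * (C c : Ideal (𝓞 K)) ^ 2 with hI
  have h1 : Ideal.span {u ^ 2 * A} = Ideal.span {v ^ 2} * I := by
    rw [← Ideal.span_singleton_mul_span_singleton, ← Ideal.span_singleton_pow,
      ← Ideal.span_singleton_pow, hb, hI]
    calc Ideal.span {u} ^ 2 * (a * b ^ 2) = a * (Ideal.span {u} * b) ^ 2 := by ring
      _ = a * (Ideal.span {v} * (C c : Ideal (𝓞 K))) ^ 2 := by rw [huv]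
      _ = _ := by ring
  have hv2 : Ideal.span {v ^ 2} ≠ (0 : Ideal (𝓞 K)) := by
    simpa [Ideal.zero_eq_bot, Ideal.span_singleton_eq_bot] using hv
  have h2 : v ^ 2 ∣ u ^ 2 * A := by
    have hle : Ideal.span {u ^ 2 * A} ≤ Ideal.span {v ^ 2} := h1 ▸ Ideal.mul_le_left
    exact Ideal.span_singleton_le_span_singleton.mp hle
  obtain ⟨x, hx⟩ := h2
  have h3 : I = Ideal.span {x} := by
    rw [hx, ← Ideal.span_singleton_mul_span_singleton] at h1
    exact (mul_left_cancel₀ hv2 h1).symm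
  have h4 := hg I ⟨x, h3⟩
  have h5 : Associated (g I) x := by
    rw [← Ideal.span_singleton_eq_span_singleton, ← h4, h3]
  obtain ⟨ε, hε⟩ := h5
  obtain ⟨ε₀, hε₀, ε₁, hε₁⟩ := hE ε
  have hu' : (u : K) ≠ 0 := by exact_mod_cast hu
  have hxA : (u : K) ^ 2 * (A : K) = (v : K) ^ 2 * ((g I : 𝓞 K) : K) * ((ε₀ : 𝓞 K) : K)
      * ((ε₁ : 𝓞 K) : K) ^ 2 := by
    have e1 : u ^ 2 * A = v ^ 2 * (g I * ((ε₀ : 𝓞 K) * (ε₁ : 𝓞 K) ^ 2)) := by
      rw [hx, ← hε, hε₁]
      push_cast
      ring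
    have e2 := congrArg (algebraMap (𝓞 K) K) e1
    simp only [map_mul, map_pow] at e2
    rw [show ((u : K) ^ 2 * (A : K)) = algebraMap (𝓞 K) K u ^ 2 * algebraMap (𝓞 K) K A from rfl, e2]
    ring
  have hκ : (A : K) = (((g I : 𝓞 K) : K) * ((ε₀ : 𝓞 K) : K)) *
      ((v : K) * ((ε₁ : 𝓞 K) : K) / (u : K)) ^ 2 := by
    field_simp
    linear_combination hxA
  refine ⟨((g I : 𝓞 K) : K) * ((ε₀ : 𝓞 K) : K), ?_, _, hκ⟩
  refine Finset.mem_filter.mpr ⟨Finset.mem_image.mpr ⟨((T, c), ε₀), ?_, rfl⟩, ?_⟩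
  · simp only [Finset.mem_product, Finset.mem_univ, and_true]
    exact ⟨hT, hε₀⟩
  · intro h0
    rw [h0, zero_mul] at hκ
    exact hA (by exact_mod_cast hκ)

end Pool.Agent.Helper38.TW
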