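import Mathlib
import Pool.Agent.Helper38.TW.SelFin

/-!
# TW-S6: `a (x - α) = κ η²` with finitely many `κ`

`K` a number field in which `F ∈ ℤ[X]` splits: `F = a ∏_{j} (X - α_j)` in `K[X]`, `j ∈ J` (a finite index type), the `α_j` different, `a ≠ 0`. Let `x, y ∈ ℤ`, `y ≠ 0`, `y² = F(x)`. `A_j = a x - a α_j`, `a α_j ∈ 𝓞_K` (`isIntegral_leadingCoeff_smul` or directly from `a^{d-1} F(X/a)` monic), so
`A_j ∈ 𝓞_K`, and `∏_j A_j = a^d ∏ (x - α_j) = a^{d-1} y²` (`d = card J`), all `A_j ≠ 0`. `N = a ∏_{i ≠ j} (a α_i - a α_j) ∈ 𝓞_K`, nonzero. Let `P` be a prime ideal, `N ∉ P`. Then `a ∉ P`, and at most one `A_j ∈ P` (the difference of two is `a α_i - a α_j`, a divisor of `N`), so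
`v_P(A_j) ∈ {0, ∑_i v_P(A_i)}` and `∑_i v_P(A_i) = v_P(a^{d-1} y²) = 2 v_P(y)`: even. (`v_P(A) = (normalizedFactors (Ideal.span {A})).count P`; `Ideal.span` of a product, `normalizedFactors_mul`, `normalizedFactors_pow`, `count = 0` if `A ∉ P`: a factor `P` of `(A)` contains `A`.)
`sel_finite` for this `N`.
-/

set_option autoImplicit false

open NumberField Polynomial

namespace Pool.Agent.Helper38.TW

open Classical in
private lemma count_zero {K : Type} [Field K] [NumberField K] {P : Ideal (𝓞 K)} {z : 𝓞 K}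
    (h : z ∉ P) :
    (UniqueFactorizationMonoid.normalizedFactors (Ideal.span {z})).count P = 0 := by
  rw [Multiset.count_eq_zero]
  intro hP
  have h1 := UniqueFactorizationMonoid.dvd_of_mem_normalizedFactors hP
  rw [Ideal.dvd_span_singleton] at h1
  exact h h1

open Classical in
private lemma count_mul {K : Type} [Field K] [NumberField K] {P : Ideal (𝓞 K)} {z w : 𝓞 K}
    (hz : z ≠ 0) (hw : w ≠ 0) :
    (UniqueFactorizationMonoid.normalizedFactors (Ideal.span {z * w})).count P =
      (UniqueFactorizationMonoid.normalizedFactors (Ideal.span {z})).count P +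
      (UniqueFactorizationMonoid.normalizedFactors (Ideal.span {w})).count P := by
  rw [← Ideal.span_singleton_mul_span_singleton, UniqueFactorizationMonoid.normalizedFactors_mul,
    Multiset.count_add]
  · rw [Ideal.zero_eq_bot, Ne, Ideal.span_singleton_eq_bot]
    exact hz
  · rw [Ideal.zero_eq_bot, Ne, Ideal.span_singleton_eq_bot]
    exact hw

open Classical in
private lemma count_prod {K : Type} [Field K] [NumberField K] {P : Ideal (𝓞 K)} {J : Type}
    (s : Finset J) (A : J → 𝓞 K) (hA : ∀ i ∈ s, A i ≠ 0) (j : J) (hj : j ∈ s)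
    (h : ∀ i ∈ s, i ≠ j → A i ∉ P) :
    (UniqueFactorizationMonoid.normalizedFactors (Ideal.span {∏ i ∈ s, A i})).count P =
      (UniqueFactorizationMonoid.normalizedFactors (Ideal.span {A j})).count P := by
  have key : ∀ s' : Finset J, (∀ i ∈ s', A i ≠ 0) → (∀ i ∈ s', A i ∉ P) →
      (UniqueFactorizationMonoid.normalizedFactors (Ideal.span {∏ i ∈ s', A i})).count P = 0 := by
    intro s'
    induction s' using Finset.induction_on with
    | empty =>
      intro _ _
      rw [Finset.prod_empty, Ideal.span_singleton_one, ← Ideal.one_eq_top,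
        UniqueFactorizationMonoid.normalizedFactors_one, Multiset.count_zero]
    | insert b s' hb ih =>
      intro h1 h2
      rw [Finset.prod_insert hb, count_mul (h1 b (Finset.mem_insert_self _ _))
        (Finset.prod_ne_zero_iff.2 fun i hi => h1 i (Finset.mem_insert_of_mem hi)),
        count_zero (h2 b (Finset.mem_insert_self _ _)),
        ih (fun i hi => h1 i (Finset.mem_insert_of_mem hi))
          (fun i hi => h2 i (Finset.mem_insert_of_mem hi))]
  rw [← Finset.mul_prod_erase s A hj, count_mul (hA j hj)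
    (Finset.prod_ne_zero_iff.2 fun i hi => hA i (Finset.mem_of_mem_erase hi)),
    key (s.erase j) (fun i hi => hA i (Finset.mem_of_mem_erase hi))
      (fun i hi => h i (Finset.mem_of_mem_erase hi) (Finset.ne_of_mem_erase hi)), add_zero]

open Classical in
private lemma count_pow {K : Type} [Field K] [NumberField K] {P : Ideal (𝓞 K)} {z : 𝓞 K}
    (n : ℕ) :
    (UniqueFactorizationMonoid.normalizedFactors (Ideal.span {z ^ n})).count P =
      n * (UniqueFactorizationMonoid.normalizedFactors (Ideal.span {z})).count P := by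
  rw [← Ideal.span_singleton_pow, UniqueFactorizationMonoid.normalizedFactors_pow,
    Multiset.count_nsmul]

theorem sel_roots (K : Type) [Field K] [NumberField K] (F : ℤ[X]) (J : Type) [Fintype J]
    (α : J → K) (a : ℤ) (ha : a ≠ 0) (hα : Function.Injective α)
    (hF : F.map (Int.castRingHom K) = C (a : K) * ∏ j, (X - C (α j))) :
    ∃ Q : Finset K, (∀ κ ∈ Q, κ ≠ 0) ∧ ∀ x y : ℤ, y ≠ 0 → y ^ 2 = F.eval x →
      ∀ j, ∃ κ ∈ Q, ∃ η : K, (a : K) * ((x : K) - α j) = κ * η ^ 2 := by
  classical
  -- integrality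
  have hlead : F.leadingCoeff = a := by
    have h1 : (F.map (Int.castRingHom K)).leadingCoeff = (a : K) := by
      rw [hF, leadingCoeff_mul, leadingCoeff_C, leadingCoeff_prod]
      simp
    rw [leadingCoeff_map_of_injective (Int.castRingHom K).injective_int] at h1
    have h2 : ((F.leadingCoeff : ℤ) : K) = (a : K) := h1
    exact_mod_cast h2
  have hroot : ∀ j, aeval (α j) F = 0 := by
    intro j
    have h1 : aeval (α j) F = (F.map (Int.castRingHom K)).eval (α j) := by
      rw [eval_map, aeval_def]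
      rfl
    rw [h1, hF, eval_mul, eval_prod, Finset.prod_eq_zero (Finset.mem_univ j), mul_zero]
    simp
  have hint : ∀ j, IsIntegral ℤ ((a : K) * α j) := by
    intro j
    have h1 := isIntegral_leadingCoeff_smul F (α j) (hroot j)
    rw [hlead, zsmul_eq_mul] at h1
    exact h1
  let B : J → 𝓞 K := fun j => ⟨(a : K) * α j, hint j⟩
  have hB : ∀ j, (B j : K) = (a : K) * α j := fun j => rfl
  have haK : (a : K) ≠ 0 := by exact_mod_cast ha
  have haO : (a : 𝓞 K) ≠ 0 := by exact_mod_cast ha
  have hBne : ∀ i k, i ≠ k → B i - B k ≠ 0 := by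
    intro i k hik h0
    apply hik
    apply hα
    have h1 : (B i : K) = B k := by rw [sub_eq_zero.1 h0]
    rw [hB, hB] at h1
    exact mul_left_cancel₀ haK h1
  let N : 𝓞 K := (a : 𝓞 K) * ∏ i, ∏ k ∈ Finset.univ.erase i, (B i - B k)
  have hN : N ≠ 0 := by
    refine mul_ne_zero haO (Finset.prod_ne_zero_iff.2 fun i _ => Finset.prod_ne_zero_iff.2
      fun k hk => hBne i k (Finset.ne_of_mem_erase hk).symm)
  obtain ⟨Q, hQ0, hQ⟩ := sel_finite K N hN
  refine ⟨Q, hQ0, ?_⟩
  intro x y hy hxy j
  let A : J → 𝓞 K := fun i => (a : 𝓞 K) * (x : 𝓞 K) - B i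
  have hA : ∀ i, (A i : K) = (a : K) * ((x : K) - α i) := by
    intro i
    change algebraMap (𝓞 K) K ((a : 𝓞 K) * (x : 𝓞 K) - B i) = _
    rw [map_sub, map_mul, map_intCast, map_intCast]
    change (a : K) * (x : K) - (a : K) * α i = _
    ring
  have hprodK : (a : K) * ∏ i, (A i : K) = (a : K) ^ Fintype.card J * (y : K) ^ 2 := by
    have h1 : ((y : K)) ^ 2 = (a : K) * ∏ i, ((x : K) - α i) := by
      have h2 : ((F.eval x : ℤ) : K) = (F.map (Int.castRingHom K)).eval (x : K) := by
        rw [eval_intCast_map]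
        rfl
      have h3 : (y : K) ^ 2 = ((F.eval x : ℤ) : K) := by
        rw [← hxy]
        push_cast
        rfl
      rw [h3, h2, hF, eval_mul, eval_prod]
      simp
    simp only [hA]
    rw [Finset.prod_mul_distrib, Finset.prod_const, Finset.card_univ, h1]
    ring
  have hprod : (a : 𝓞 K) * ∏ i, A i = (a : 𝓞 K) ^ Fintype.card J * (y : 𝓞 K) ^ 2 := by
    apply NumberField.RingOfIntegers.coe_injective
    rw [map_mul, map_prod, map_mul, map_pow, map_pow]
    simp only [map_intCast]
    exact hprodK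
  have hyO : (y : 𝓞 K) ≠ 0 := by exact_mod_cast hy
  have hAne : ∀ i, A i ≠ 0 := by
    intro i h0
    have h1 : (a : 𝓞 K) * ∏ i, A i = 0 := by
      rw [Finset.prod_eq_zero (Finset.mem_univ i) h0, mul_zero]
    rw [hprod] at h1
    exact mul_ne_zero (pow_ne_zero _ haO) (pow_ne_zero _ hyO) h1
  obtain ⟨κ, hκ, η, hη⟩ := hQ (A j) (hAne j) (by
    intro P hP hPbot hNP
    have haP : (a : 𝓞 K) ∉ P := fun h => hNP (P.mul_mem_right _ h)
    have hBP : ∀ i k, i ≠ k → B i - B k ∉ P := by
      intro i k hik h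
      apply hNP
      have h1 : (B i - B k) ∣ N := by
        refine Dvd.dvd.mul_left ?_ _
        refine (Finset.dvd_prod_of_mem (fun k => B i - B k)
          (Finset.mem_erase.2 ⟨hik.symm, Finset.mem_univ k⟩)).trans ?_
        exact Finset.dvd_prod_of_mem (fun i => ∏ k ∈ Finset.univ.erase i, (B i - B k))
          (Finset.mem_univ i)
      exact P.mem_of_dvd h1 h
    by_cases hAj : A j ∈ P
    · have hAi : ∀ i ∈ (Finset.univ : Finset J), i ≠ j → A i ∉ P := by
        intro i _ hij h
        apply hBP i j hij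
        have h1 : B i - B j = A j - A i := by
          change B i - B j = ((a : 𝓞 K) * (x : 𝓞 K) - B j) - ((a : 𝓞 K) * (x : 𝓞 K) - B i)
          ring
        rw [h1]
        exact P.sub_mem hAj h
      have h1 := count_prod (P := P) Finset.univ A (fun i _ => hAne i) j (Finset.mem_univ j) hAi
      have h2 := count_mul (P := P) haO (Finset.prod_ne_zero_iff.2 fun i _ => hAne i :
        (∏ i, A i) ≠ 0)
      rw [hprod, count_mul (pow_ne_zero _ haO) (pow_ne_zero _ hyO), count_pow, count_pow,
        count_zero haP, h1, mul_zero, zero_add, zero_add] at h2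
      rw [← h2]
      exact even_two_mul _
    · rw [count_zero hAj]
      exact Even.zero)
  refine ⟨κ, hκ, η, ?_⟩
  rw [← hA]
  exact hη

end Pool.Agent.Helper38.TW
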