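import Mathlib
import Pool.Agent.Helper38.TW.SelRoots
import Pool.Agent.Helper32.FM.ClassCard

/-!
# TW-Q1: squares modulo a polynomial

`SqMod P x x'`: `(x - X) (x' - X)` is a square modulo `P` in `ℚ[X]`.
`sqmod_lin`: `g` linear, `g(x) = m u²`, `g(x') = m u'²`.
`sqmod_quad`: `g` irreducible of degree `2`, `g(x) = τ u²`, `u ≠ 0`: the integers `x` with this property fall into finitely many classes such that `SqMod g x x'` inside a class (`sel_roots` in the field `ℚ[X]/(g)`, in which `g` splits).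
`sqmod_mul`, `sqmod_prod`: coprime factors. `crel_of_sqmod`: the relation `CRel` of `FM`.
-/

set_option autoImplicit false

namespace Pool.Agent.Helper38.TW

open Polynomial

/-- `(x - X) (x' - X)` is a square modulo `P` -/
def SqMod (P : ℚ[X]) (x x' : ℤ) : Prop :=
  ∃ q : ℚ[X], P ∣ (C (x : ℚ) - X) * (C (x' : ℚ) - X) - q ^ 2

theorem sqmod_mul {P Q : ℚ[X]} {x x' : ℤ} (h : IsCoprime P Q) (hP : SqMod P x x')
    (hQ : SqMod Q x x') : SqMod (P * Q) x x' := by
  obtain ⟨p, hp⟩ := hP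
  obtain ⟨q, hq⟩ := hQ
  obtain ⟨u, v, huv⟩ := h
  refine ⟨p * (v * Q) + q * (u * P), ?_⟩
  have hc : IsCoprime P Q := ⟨u, v, huv⟩
  refine hc.mul_dvd ?_ ?_
  · have e : (C (x : ℚ) - X) * (C (x' : ℚ) - X) - (p * (v * Q) + q * (u * P)) ^ 2 =
        ((C (x : ℚ) - X) * (C (x' : ℚ) - X) - p ^ 2) +
          P * (u * (p ^ 2 * (1 + v * Q) - 2 * p * (v * Q) * q - q ^ 2 * (u * P))) := by
      have h1 : v * Q = 1 - u * P := by linear_combination huv
      rw [h1]
      ring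
    rw [e]
    exact dvd_add hp (dvd_mul_right _ _)
  · have e : (C (x : ℚ) - X) * (C (x' : ℚ) - X) - (p * (v * Q) + q * (u * P)) ^ 2 =
        ((C (x : ℚ) - X) * (C (x' : ℚ) - X) - q ^ 2) +
          Q * (v * (q ^ 2 * (1 + u * P) - 2 * q * (u * P) * p - p ^ 2 * (v * Q))) := by
      have h1 : u * P = 1 - v * Q := by linear_combination huv
      rw [h1]
      ring
    rw [e]
    exact dvd_add hq (dvd_mul_right _ _)

theorem sqmod_prod {ι : Type} [DecidableEq ι] (s : Finset ι) (P : ι → ℚ[X]) {x x' : ℤ}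
    (hc : ∀ i ∈ s, ∀ k ∈ s, i ≠ k → IsCoprime (P i) (P k)) (h : ∀ i ∈ s, SqMod (P i) x x') :
    SqMod (∏ i ∈ s, P i) x x' := by
  induction s using Finset.induction_on with
  | empty =>
    refine ⟨0, ?_⟩
    rw [Finset.prod_empty]
    exact one_dvd _
  | insert b s hb ih =>
    rw [Finset.prod_insert hb]
    refine sqmod_mul ?_ (h b (Finset.mem_insert_self _ _)) (ih ?_ ?_)
    · refine IsCoprime.prod_right fun i hi => ?_
      refine hc b (Finset.mem_insert_self _ _) i (Finset.mem_insert_of_mem hi) ?_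
      rintro rfl
      exact hb hi
    · exact fun i hi k hk => hc i (Finset.mem_insert_of_mem hi) k (Finset.mem_insert_of_mem hk)
    · exact fun i hi => h i (Finset.mem_insert_of_mem hi)

theorem sqmod_lin {g : ℤ[X]} (hg : g.natDegree = 1) {m x x' u u' : ℤ}
    (hx : g.eval x = m * u ^ 2) (hx' : g.eval x' = m * u' ^ 2) :
    SqMod (g.map (Int.castRingHom ℚ)) x x' := by
  obtain ⟨c, e, hge⟩ : ∃ c e : ℤ, g = C c * X + C e := ⟨g.coeff 1, g.coeff 0,
    eq_X_add_C_of_natDegree_le_one hg.le⟩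
  have hc : c ≠ 0 := by
    rintro rfl
    rw [hge] at hg
    simp at hg
  have hcQ : (c : ℚ) ≠ 0 := by exact_mod_cast hc
  have h1 : (c : ℚ) * x + e = m * u ^ 2 := by
    rw [hge] at hx
    simp only [eval_add, eval_mul, eval_C, eval_X] at hx
    exact_mod_cast hx
  have h2 : (c : ℚ) * x' + e = m * u' ^ 2 := by
    rw [hge] at hx'
    simp only [eval_add, eval_mul, eval_C, eval_X] at hx'
    exact_mod_cast hx'
  refine ⟨C ((m : ℚ) * u * u' / c), ?_⟩
  have h3 : g.map (Int.castRingHom ℚ) = C (c : ℚ) * (X - C (-(e : ℚ) / c)) := by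
    rw [hge]
    simp only [Polynomial.map_add, Polynomial.map_mul, Polynomial.map_C, Polynomial.map_X]
    rw [mul_sub, ← C_mul]
    have h4 : (c : ℚ) * (-(e : ℚ) / c) = -e := by field_simp
    rw [h4, C_neg]
    simp
  rw [h3]
  have hu : IsUnit (C (c : ℚ)) := Polynomial.isUnit_C.mpr (isUnit_iff_ne_zero.mpr hcQ)
  rw [hu.mul_left_dvd, dvd_iff_isRoot, IsRoot.def]
  simp only [eval_sub, eval_mul, eval_C, eval_X, eval_pow]
  have h4 : (x : ℚ) = (m * u ^ 2 - e) / c := by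
    rw [eq_div_iff hcQ]
    linear_combination h1
  have h5 : (x' : ℚ) = (m * u' ^ 2 - e) / c := by
    rw [eq_div_iff hcQ]
    linear_combination h2
  rw [h4, h5]
  field_simp
  ring

private theorem sm_eval {K : Type} [Field K] (φ : ℚ →+* K) {g : ℤ[X]} {a b c : ℤ}
    (hg : g = C a * X ^ 2 + C b * X + C c) (z : K) :
    (g.map (Int.castRingHom ℚ)).eval₂ φ z = (a : K) * z ^ 2 + b * z + c := by
  rw [hg, eval₂_map]
  simp only [eval₂_add, eval₂_mul, eval₂_C, eval₂_X, eval₂_pow]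
  simp

theorem sqmod_quad {g : ℤ[X]} (hg : g.natDegree = 2)
    (hirr : Irreducible (g.map (Int.castRingHom ℚ))) (τ : ℤ) (hτ : τ ≠ 0) :
    ∃ (n : ℕ) (col : ℤ → ℕ), (∀ x, col x < n) ∧ ∀ x x' : ℤ,
      (∃ u : ℤ, u ≠ 0 ∧ g.eval x = τ * u ^ 2) → (∃ u : ℤ, u ≠ 0 ∧ g.eval x' = τ * u ^ 2) →
      col x = col x' → SqMod (g.map (Int.castRingHom ℚ)) x x' := by
  classical
  obtain ⟨p, hp⟩ : ∃ p : ℚ[X], p = g.map (Int.castRingHom ℚ) := ⟨_, rfl⟩
  rw [← hp] at hirr ⊢
  have : Fact (Irreducible p) := ⟨hirr⟩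
  have hp0 : p ≠ 0 := hirr.ne_zero
  have hpdeg : p.natDegree = 2 := by
    rw [hp, natDegree_map_eq_of_injective (Int.castRingHom ℚ).injective_int, hg]
  have : FiniteDimensional ℚ (AdjoinRoot p) := (AdjoinRoot.powerBasis hp0).finite
  have : NumberField (AdjoinRoot p) := NumberField.of_module_finite ℚ (AdjoinRoot p)
  obtain ⟨a, b, c, ha, hgabc⟩ : ∃ a b c : ℤ, a ≠ 0 ∧ g = C a * X ^ 2 + C b * X + C c := by
    refine ⟨g.coeff 2, g.coeff 1, g.coeff 0, ?_, ?_⟩
    · rw [← hg]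
      exact leadingCoeff_ne_zero.2 (by rintro rfl; simp at hg)
    · conv_lhs => rw [g.as_sum_range_C_mul_X_pow, hg]
      simp [Finset.sum_range_succ]
      ring
  obtain ⟨α, hα⟩ : ∃ α : AdjoinRoot p, α = AdjoinRoot.root p := ⟨_, rfl⟩
  have haK : (a : AdjoinRoot p) ≠ 0 := by exact_mod_cast ha
  have hev : ∀ z : AdjoinRoot p, p.eval₂ (AdjoinRoot.of p) z = (a : AdjoinRoot p) * z ^ 2 + b * z + c :=
    fun z => (congrArg (fun r : ℚ[X] => r.eval₂ (AdjoinRoot.of p) z) hp).trans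
      (sm_eval (AdjoinRoot.of p) hgabc z)
  have hroot : (a : AdjoinRoot p) * α ^ 2 + b * α + c = 0 := by
    rw [← hev α, hα]
    exact AdjoinRoot.eval₂_root p
  obtain ⟨β, hβ⟩ : ∃ β : AdjoinRoot p, β = -(b / a) - α := ⟨_, rfl⟩
  have hne : α ≠ β := by
    intro h
    -- `α` would be rational
    have h1 : α = AdjoinRoot.of p (-(b : ℚ) / (2 * a)) := by
      have h2 : (2 : AdjoinRoot p) ≠ 0 := two_ne_zero
      have h3 : (2 : AdjoinRoot p) * a * α = -b := by
        rw [hβ] at h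
        have h4 : (a : AdjoinRoot p) * α = a * (-(b / a) - α) := by rw [← h]
        have h5 : (a : AdjoinRoot p) * (-(b / a) - α) = -b - a * α := by
          field_simp
        rw [h5] at h4
        linear_combination h4
      rw [map_div₀, map_neg, map_mul]
      simp only [map_intCast, map_ofNat]
      rw [eq_div_iff (mul_ne_zero h2 haK)]
      linear_combination h3
    have h2 : p.eval (-(b : ℚ) / (2 * a)) = 0 := by
      have h3 : p.eval₂ (AdjoinRoot.of p) (AdjoinRoot.of p (-(b : ℚ) / (2 * a))) = 0 := by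
        rw [hev, ← h1]
        exact hroot
      rw [eval₂_at_apply] at h3
      exact (map_eq_zero_iff _ (AdjoinRoot.of p).injective).1 h3
    have h3 := Polynomial.degree_eq_one_of_irreducible_of_root hirr h2
    rw [degree_eq_natDegree hp0, hpdeg] at h3
    norm_num at h3
  -- the factorization of `F = τ g`
  obtain ⟨F, hF⟩ : ∃ F : ℤ[X], F = C τ * g := ⟨_, rfl⟩
  have hsplit : F.map (Int.castRingHom (AdjoinRoot p)) =
      C (((τ * a : ℤ)) : AdjoinRoot p) * ∏ j : Bool, (X - C (if j then α else β)) := by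
    rw [Fintype.prod_bool, hF, hgabc]
    simp only [Polynomial.map_add, Polynomial.map_mul, Polynomial.map_C, Polynomial.map_X,
      Polynomial.map_pow, if_true]
    have e1 : (a : AdjoinRoot p) * (α + β) = -b := by
      rw [hβ]
      field_simp
      ring
    have e2 : (a : AdjoinRoot p) * (α * β) = c := by
      rw [hβ]
      have h6 : (a : AdjoinRoot p) * (α * (-(b / a) - α)) = -b * α - a * α ^ 2 := by
        field_simp
      rw [h6]
      linear_combination -hroot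
    have e3 : ((Int.castRingHom (AdjoinRoot p)) a) = (a : AdjoinRoot p) := rfl
    have e4 : ((Int.castRingHom (AdjoinRoot p)) b) = (b : AdjoinRoot p) := rfl
    have e5 : ((Int.castRingHom (AdjoinRoot p)) c) = (c : AdjoinRoot p) := rfl
    have e6 : ((Int.castRingHom (AdjoinRoot p)) τ) = (τ : AdjoinRoot p) := rfl
    rw [e3, e4, e5, e6, ← e2, ← neg_neg (b : AdjoinRoot p), ← e1]
    push_cast
    simp only [C_mul, C_add, C_neg]
    simp
    ring
  obtain ⟨Q, -, hQ⟩ := sel_roots (AdjoinRoot p) F Bool (fun j => if j then α else β) (τ * a)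
    (mul_ne_zero hτ ha) (by
      intro i j hij
      cases i <;> cases j
      · rfl
      · exact absurd hij.symm hne
      · exact absurd hij hne
      · rfl) hsplit
  -- the colour
  have hex : ∀ x : ℤ, ∃ κ : AdjoinRoot p, (∃ u : ℤ, u ≠ 0 ∧ g.eval x = τ * u ^ 2) →
      κ ∈ Q ∧ ∃ η : AdjoinRoot p, ((τ * a : ℤ) : AdjoinRoot p) * ((x : AdjoinRoot p) - α) = κ * η ^ 2 := by
    intro x
    by_cases h : ∃ u : ℤ, u ≠ 0 ∧ g.eval x = τ * u ^ 2
    · obtain ⟨u, hu, hgx⟩ := h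
      obtain ⟨κ, hκ, η, hη⟩ := hQ x (τ * u) (mul_ne_zero hτ hu) (by
        rw [hF, eval_mul, eval_C, hgx]
        ring) true
      exact ⟨κ, fun _ => ⟨hκ, η, hη⟩⟩
    · exact ⟨0, fun h' => absurd h' h⟩
  choose κ hκ using hex
  -- numbering of `Q`
  obtain ⟨num, hnum⟩ : ∃ num : AdjoinRoot p → ℕ, num = fun z =>
      if h : z ∈ Q then (Q.equivFin ⟨z, h⟩ : ℕ) else Q.card := ⟨_, rfl⟩
  refine ⟨Q.card + 1, fun x => num (κ x), fun x => ?_, ?_⟩
  · rw [hnum]
    dsimp only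
    split_ifs with h
    · exact lt_trans (Fin.is_lt _) (Nat.lt_succ_self _)
    · exact Nat.lt_succ_self _
  intro x x' hx hx' hcol
  obtain ⟨h1, η, hη⟩ := hκ x hx
  obtain ⟨h1', η', hη'⟩ := hκ x' hx'
  have hk : κ x = κ x' := by
    rw [hnum] at hcol
    dsimp only at hcol
    rw [dif_pos h1, dif_pos h1'] at hcol
    have h2 := Q.equivFin.injective (Fin.ext hcol)
    exact congrArg Subtype.val h2
  have hτa : ((τ * a : ℤ) : AdjoinRoot p) ≠ 0 := by exact_mod_cast mul_ne_zero hτ ha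
  obtain ⟨q, hq⟩ := AdjoinRoot.mk_surjective (g := p) (κ x * η * η' / ((τ * a : ℤ) : AdjoinRoot p))
  refine ⟨q, ?_⟩
  rw [← AdjoinRoot.mk_eq_zero]
  simp only [map_sub, map_mul, map_pow, hq, AdjoinRoot.mk_X, AdjoinRoot.mk_C]
  rw [← hα]
  have e1 : (AdjoinRoot.of p) (x : ℚ) = (x : AdjoinRoot p) := map_intCast _ _
  have e2 : (AdjoinRoot.of p) (x' : ℚ) = (x' : AdjoinRoot p) := map_intCast _ _
  rw [e1, e2]
  have e3 : ((x : AdjoinRoot p) - α) = κ x * η ^ 2 / ((τ * a : ℤ) : AdjoinRoot p) := by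
    rw [eq_div_iff hτa, ← hη]
    ring
  have e4 : ((x' : AdjoinRoot p) - α) = κ x * η' ^ 2 / ((τ * a : ℤ) : AdjoinRoot p) := by
    rw [eq_div_iff hτa, hk, ← hη']
    ring
  rw [e3, e4]
  field_simp
  ring

open Pool.Agent.Helper32.FM in
theorem crel_of_sqmod {d : ℕ} {P : ℚ[X]} {x x' : ℤ} (h : SqMod P x x') (θ : Fin d → ℂ)
    (hθ : ∀ t, aeval (θ t) P = 0) : CRel θ x x' := by
  obtain ⟨q, r, hr⟩ := h
  refine ⟨q, fun t => ?_⟩
  have h1 := congrArg (aeval (θ t)) hr
  rw [map_mul, hθ t, zero_mul] at h1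
  simp only [map_sub, map_mul, map_pow, aeval_X, aeval_C] at h1
  have e1 : (algebraMap ℚ ℂ) (x : ℚ) = (x : ℂ) := map_intCast _ _
  have e2 : (algebraMap ℚ ℂ) (x' : ℚ) = (x' : ℂ) := map_intCast _ _
  rw [e1, e2] at h1
  linear_combination h1

end Pool.Agent.Helper38.TW
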