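import Mathlib
import Pool.Agent.Helper38.TW.FDefs

/-!
# TW-F1: existence of the factorization data

`F = f.map ℚ` squarefree, nonzero. Over `ℚ`: `F = C a * ∏ h`, `h` running over the multiset `normalizedFactors F` of monic irreducible polynomials, which has no duplicates (`UniqueFactorizationMonoid.squarefree_iff_nodup_normalizedFactors`). Let `ι = Fin n` (or the subtype of the finset).
For every `h` there is a positive integer `d` such that `d h` has integer coefficients (common denominator): `g_i ∈ ℤ[X]` with `(g_i).map = C d_i * h_i`, irreducible over `ℚ`. Then `C b * f = C c * ∏ g_i` for some nonzero integers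
(compare over `ℚ`; `Polynomial.map_injective`). For `i ≠ k`, `h_i`, `h_k` are coprime over `ℚ` (`IsCoprime`, different monic irreducible), clearing denominators: `u g_i + v g_k = C R`, `R ≠ 0` an integer; multiply to make `R ∣ B`.
`B = 2 |b c| ∏ |lead| ∏_{i ≠ k} |R_{ik}|` (any common multiple; if `u g_i + v g_k = C R` and `R ∣ B` multiply by `B / R`).
`sum_deg`: the degrees add up (degree of a product; compare `fac`). `card_lin`: linear factors `a x + b₀` have the different rational roots `-b₀/a` of `f` (different: coprime by `bez`).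
-/

set_option autoImplicit false

namespace Pool.Agent.Helper38.TW

open Finset Polynomial

/-- clearing denominators -/
theorem f1_clear_den (h : ℚ[X]) : ∃ (g : ℤ[X]) (d : ℤ), d ≠ 0 ∧
    g.map (Int.castRingHom ℚ) = C (d : ℚ) * h := by
  obtain ⟨b, hbm, hb⟩ := IsLocalization.integerNormalization_spec (nonZeroDivisors ℤ) h
  refine ⟨IsLocalization.integerNormalization (nonZeroDivisors ℤ) h, b,
    nonZeroDivisors.ne_zero hbm, ?_⟩
  have h1 : (algebraMap ℤ ℚ) = Int.castRingHom ℚ := rfl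
  rw [h1] at hb
  rw [hb]
  ext n
  rw [coeff_smul, coeff_C_mul]
  rw [zsmul_eq_mul]

theorem f1_map_inj : Function.Injective (Polynomial.map (Int.castRingHom ℚ)) :=
  Polynomial.map_injective _ (Int.castRingHom ℚ).injective_int

theorem f1_bez {g k : ℤ[X]}
    (h : IsCoprime (g.map (Int.castRingHom ℚ)) (k.map (Int.castRingHom ℚ))) :
    ∃ (R : ℤ) (u v : ℤ[X]), R ≠ 0 ∧ u * g + v * k = C R := by
  obtain ⟨u0, v0, huv⟩ := h
  obtain ⟨u1, d1, hd1, hu1⟩ := f1_clear_den u0
  obtain ⟨v1, d2, hd2, hv1⟩ := f1_clear_den v0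
  refine ⟨d1 * d2, C d2 * u1, C d1 * v1, mul_ne_zero hd1 hd2, ?_⟩
  apply f1_map_inj
  rw [Polynomial.map_add, Polynomial.map_mul, Polynomial.map_mul, Polynomial.map_mul,
    Polynomial.map_mul, map_C, map_C, map_C, hu1, hv1]
  have h1 : (Int.castRingHom ℚ) d1 = (d1 : ℚ) := rfl
  have h2 : (Int.castRingHom ℚ) d2 = (d2 : ℚ) := rfl
  have h3 : (Int.castRingHom ℚ) (d1 * d2) = (d1 : ℚ) * d2 := by
    rw [map_mul, h1, h2]
  rw [h1, h2, h3, C_mul]
  calc C (d2 : ℚ) * (C (d1 : ℚ) * u0) * map (Int.castRingHom ℚ) g +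
        C (d1 : ℚ) * (C (d2 : ℚ) * v0) * map (Int.castRingHom ℚ) k
      = C (d1 : ℚ) * C (d2 : ℚ) * (u0 * map (Int.castRingHom ℚ) g +
          v0 * map (Int.castRingHom ℚ) k) := by ring
    _ = C (d1 : ℚ) * C (d2 : ℚ) := by rw [huv, mul_one]

theorem exists_fdata (f : ℤ[X]) (hf : Squarefree (f.map (Int.castRingHom ℚ))) :
    ∃ n : ℕ, Nonempty (FData f (Fin n)) := by
  classical
  set F : ℚ[X] := f.map (Int.castRingHom ℚ) with hF
  have hF0 : F ≠ 0 := hf.ne_zero
  set M : Multiset ℚ[X] := UniqueFactorizationMonoid.normalizedFactors F with hM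
  have hnd : M.Nodup := (UniqueFactorizationMonoid.squarefree_iff_nodup_normalizedFactors hF0).1 hf
  set S : Finset ℚ[X] := M.toFinset with hS
  obtain ⟨e⟩ : Nonempty (Fin S.card ≃ S) := ⟨S.equivFin.symm⟩
  refine ⟨S.card, ?_⟩
  have hmem : ∀ i, (e i : ℚ[X]) ∈ M := fun i => Multiset.mem_toFinset.1 (e i).2
  have hirr : ∀ i, Irreducible (e i : ℚ[X]) := fun i =>
    UniqueFactorizationMonoid.irreducible_of_normalized_factor _ (hmem i)
  have hnorm : ∀ i, normalize (e i : ℚ[X]) = e i := fun i =>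
    UniqueFactorizationMonoid.normalize_normalized_factor _ (hmem i)
  have hprodS : M.prod = ∏ i, (e i : ℚ[X]) := by
    have h1 : M.prod = ∏ h ∈ S, h := by
      rw [hS, Finset.prod_multiset_count M]
      refine Finset.prod_congr rfl fun h hh => ?_
      rw [Multiset.count_eq_one_of_mem hnd (Multiset.mem_toFinset.1 hh), pow_one]
    rw [h1, ← Finset.prod_coe_sort S (fun h => h)]
    exact (Fintype.prod_equiv e _ _ fun i => rfl).symm
  obtain ⟨a, ha0, hFa⟩ : ∃ a : ℚ, a ≠ 0 ∧ F = C a * ∏ i, (e i : ℚ[X]) := by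
    obtain ⟨u, hu⟩ := UniqueFactorizationMonoid.prod_normalizedFactors hF0
    obtain ⟨a, ha, hau⟩ := Polynomial.isUnit_iff.1 u.isUnit
    refine ⟨a, ha.ne_zero, ?_⟩
    rw [← hu, ← hau, hprodS, mul_comm]
  choose g d hd hg using fun i => f1_clear_den (e i : ℚ[X])
  have hgirr : ∀ i, Irreducible ((g i).map (Int.castRingHom ℚ)) := by
    intro i
    rw [hg i]
    have hu : IsUnit (C (d i : ℚ)) := Polynomial.isUnit_C.2 (IsUnit.mk0 _ (by exact_mod_cast hd i))
    exact (irreducible_isUnit_mul hu).2 (hirr i)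
  have hcop : ∀ i k, i ≠ k →
      IsCoprime ((g i).map (Int.castRingHom ℚ)) ((g k).map (Int.castRingHom ℚ)) := by
    intro i k hik
    refine (hgirr i).coprime_iff_not_dvd.2 ?_
    intro hdvd
    rw [hg i, hg k] at hdvd
    have hui : IsUnit (C (d i : ℚ)) := Polynomial.isUnit_C.2 (IsUnit.mk0 _ (by exact_mod_cast hd i))
    have huk : IsUnit (C (d k : ℚ)) := Polynomial.isUnit_C.2 (IsUnit.mk0 _ (by exact_mod_cast hd k))
    have h1 : (e i : ℚ[X]) ∣ (e k : ℚ[X]) := by
      have h2 := (hui.mul_left_dvd).1 hdvd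
      exact (huk.dvd_mul_left).1 h2
    have h3 : Associated (e i : ℚ[X]) (e k : ℚ[X]) :=
      (hirr i).associated_of_dvd (hirr k) h1
    have h4 : (e i : ℚ[X]) = e k := by
      rw [← hnorm i, ← hnorm k]
      exact normalize_eq_normalize_iff_associated.2 h3
    exact hik (e.injective (Subtype.ext h4))
  have hbez : ∀ i k, ∃ R : ℤ, R ≠ 0 ∧ (i ≠ k → ∃ u v : ℤ[X], u * g i + v * g k = C R) := by
    intro i k
    by_cases hik : i = k
    · exact ⟨1, one_ne_zero, fun h => absurd hik h⟩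
    · obtain ⟨R, u, v, hR, huv⟩ := f1_bez (hcop i k hik)
      exact ⟨R, hR, fun _ => ⟨u, v, huv⟩⟩
  choose R hR huv using hbez
  have hg0 : ∀ i, g i ≠ 0 := by
    intro i h0
    have := (hgirr i).ne_zero
    rw [h0, Polynomial.map_zero] at this
    exact this rfl
  set b : ℤ := a.den * ∏ i, d i with hb
  set c : ℤ := a.num with hc
  have hb0 : b ≠ 0 := mul_ne_zero (by exact_mod_cast a.den_nz)
    (Finset.prod_ne_zero_iff.2 fun i _ => hd i)
  have hc0 : c ≠ 0 := Rat.num_ne_zero.2 ha0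
  set N : ℤ := 2 * b * c * (∏ i, (g i).leadingCoeff) * ∏ i, ∏ k, R i k with hN
  have hN0 : N ≠ 0 := by
    refine mul_ne_zero (mul_ne_zero (mul_ne_zero (mul_ne_zero two_ne_zero hb0) hc0) ?_) ?_
    · exact Finset.prod_ne_zero_iff.2 fun i _ => leadingCoeff_ne_zero.2 (hg0 i)
    · exact Finset.prod_ne_zero_iff.2 fun i _ => Finset.prod_ne_zero_iff.2 fun k _ => hR i k
  have hdvdN : ∀ {z : ℤ}, z ∣ N → z ∣ ((N.natAbs : ℕ) : ℤ) := fun hz => Int.dvd_natAbs.2 hz
  refine ⟨⟨g, b, c, N.natAbs, hgirr, hb0, hc0, ?_, Int.natAbs_ne_zero.2 hN0, ?_, ?_, ?_, ?_, ?_⟩⟩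
  · apply f1_map_inj
    rw [Polynomial.map_mul, Polynomial.map_mul, map_C, map_C, Polynomial.map_prod]
    have h1 : ∏ i, (g i).map (Int.castRingHom ℚ) = C (∏ i, (d i : ℚ)) * ∏ i, (e i : ℚ[X]) := by
      rw [Finset.prod_congr rfl fun i _ => hg i, Finset.prod_mul_distrib, map_prod]
    have h2 : (Int.castRingHom ℚ) b = (a.den : ℚ) * ∏ i, (d i : ℚ) := by
      rw [hb]
      simp
    have h3 : (Int.castRingHom ℚ) c = (a.num : ℚ) := rfl
    have h4 : (a.den : ℚ) * a = a.num := by
      rw [mul_comm]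
      exact Rat.mul_den_eq_num a
    rw [h1, ← hF, hFa, h2, h3, ← h4, C_mul, C_mul]
    ring
  · have h1 : (2 : ℤ) ∣ N := by
      rw [hN, mul_assoc, mul_assoc, mul_assoc]
      exact dvd_mul_right _ _
    have h2 := hdvdN h1
    exact_mod_cast h2
  · apply hdvdN
    rw [hN]
    exact Dvd.dvd.mul_right (Dvd.dvd.mul_right (Dvd.dvd.mul_right (dvd_mul_left _ _) _) _) _
  · apply hdvdN
    rw [hN]
    exact Dvd.dvd.mul_right (Dvd.dvd.mul_right (dvd_mul_left _ _) _) _
  · intro i
    apply hdvdN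
    rw [hN]
    refine Dvd.dvd.mul_right (Dvd.dvd.mul_left ?_ _) _
    exact Finset.dvd_prod_of_mem _ (Finset.mem_univ i)
  · intro i k hik
    obtain ⟨u, v, h⟩ := huv i k hik
    have h1 : R i k ∣ ((N.natAbs : ℕ) : ℤ) := by
      apply hdvdN
      rw [hN]
      refine Dvd.dvd.mul_left ?_ _
      exact (Finset.dvd_prod_of_mem (fun k => R i k) (Finset.mem_univ k)).trans
        (Finset.dvd_prod_of_mem (fun i => ∏ k, R i k) (Finset.mem_univ i))
    obtain ⟨w, hw⟩ := h1
    refine ⟨C w * u, C w * v, ?_⟩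
    rw [hw, C_mul, ← h]
    ring

variable {f : ℤ[X]} {ι : Type} [Fintype ι] [DecidableEq ι]

theorem FData.f1_g_ne (dt : FData f ι) (i : ι) : dt.g i ≠ 0 := by
  intro h0
  have := (dt.irr i).ne_zero
  rw [h0, Polynomial.map_zero] at this
  exact this rfl

theorem sum_deg (dt : FData f ι) : ∑ i, (dt.g i).natDegree = f.natDegree := by
  have h := congrArg natDegree dt.fac
  rw [natDegree_C_mul dt.b_ne, natDegree_C_mul dt.c_ne,
    natDegree_prod _ _ fun i _ => dt.f1_g_ne i] at h
  exact h.symm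

theorem card_lin (dt : FData f ι) :
    (univ.filter (fun i => (dt.g i).natDegree = 1)).card ≤
      (f.map (Int.castRingHom ℚ)).roots.toFinset.card := by
  classical
  have hf0 : f ≠ 0 := by
    intro h0
    have h2 : C dt.b * f = 0 := by
      rw [mul_eq_zero]
      exact Or.inr h0
    have h := dt.fac.symm.trans h2
    have h1 : C dt.c * ∏ i, dt.g i ≠ 0 := by
      refine mul_ne_zero (C_ne_zero.2 dt.c_ne) ?_
      exact Finset.prod_ne_zero_iff.2 fun i _ => dt.f1_g_ne i
    exact h1 h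
  have hF0 : f.map (Int.castRingHom ℚ) ≠ 0 := by
    intro h
    apply hf0
    apply f1_map_inj
    rw [h, Polynomial.map_zero]
  have hroot : ∀ i, (dt.g i).natDegree = 1 →
      ∃ r : ℚ, ((dt.g i).map (Int.castRingHom ℚ)).IsRoot r := by
    intro i hi
    have h1 : ((dt.g i).map (Int.castRingHom ℚ)).degree = 1 := by
      rw [degree_map_eq_of_injective (Int.castRingHom ℚ).injective_int]
      rw [degree_eq_natDegree (dt.f1_g_ne i), hi]
      rfl
    exact exists_root_of_degree_eq_one h1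
  have hroot' : ∀ i, ∃ r : ℚ, (dt.g i).natDegree = 1 →
      ((dt.g i).map (Int.castRingHom ℚ)).IsRoot r := by
    intro i
    by_cases hi : (dt.g i).natDegree = 1
    · obtain ⟨r, hr⟩ := hroot i hi
      exact ⟨r, fun _ => hr⟩
    · exact ⟨0, fun h => absurd h hi⟩
  choose r hr using hroot'
  refine Finset.card_le_card_of_injOn r ?_ ?_
  · intro i hi
    have hi1 : (dt.g i).natDegree = 1 := by simpa using hi
    rw [Finset.mem_coe, Multiset.mem_toFinset, mem_roots hF0]
    have h := congrArg (fun P : ℤ[X] => (P.map (Int.castRingHom ℚ)).eval (r i)) dt.fac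
    simp only [Polynomial.map_mul, map_C, eval_mul, eval_C, Polynomial.map_prod, eval_prod] at h
    have h1 : ∏ k, ((dt.g k).map (Int.castRingHom ℚ)).eval (r i) = 0 :=
      Finset.prod_eq_zero (Finset.mem_univ i) (hr i hi1)
    rw [h1, mul_zero] at h
    have h2 : (Int.castRingHom ℚ) dt.b ≠ 0 := by
      simpa using dt.b_ne
    exact (mul_eq_zero.1 h).resolve_left h2
  · intro i hi k hk hik
    have hi1 : (dt.g i).natDegree = 1 := by simpa using hi
    have hk1 : (dt.g k).natDegree = 1 := by simpa using hk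
    by_contra hne
    obtain ⟨u, v, huv⟩ := dt.bez i k hne
    have h := congrArg (fun P : ℤ[X] => (P.map (Int.castRingHom ℚ)).eval (r i)) huv
    simp only [Polynomial.map_mul, Polynomial.map_add, map_C, eval_mul, eval_add, eval_C] at h
    have h1 : ((dt.g i).map (Int.castRingHom ℚ)).eval (r i) = 0 := hr i hi1
    have h2 : ((dt.g k).map (Int.castRingHom ℚ)).eval (r i) = 0 := by
      rw [hik]
      exact hr k hk1
    rw [h1, h2, mul_zero, mul_zero, add_zero] at h
    have h3 : (Int.castRingHom ℚ) (dt.B : ℤ) ≠ 0 := by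
      simpa using dt.B_ne
    exact h3 h.symm

end Pool.Agent.Helper38.TW
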