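import Mathlib
import Pool.Agent.Helper38.TW.SqMod
import Pool.Agent.Helper5.FM.Poly

/-!
# TW-Q2: a class of integers modulo squares of `ℚ[X]/(h)`, `h` a separable cubic, is bounded

`class_card` (`d = 3`) for the roots of `h`; the threshold is a constant. Negative integers: `h(-X)`.
-/

set_option autoImplicit false

namespace Pool.Agent.Helper38.TW

open Polynomial Pool.Agent.Helper32.FM Pool.Agent.Helper5.FM

private theorem sqmod_card_pos (h : ℤ[X]) (hdeg : h.natDegree = 3)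
    (hsep : (h.map (Int.castRingHom ℚ)).Separable) :
    ∃ M N : ℕ, ∀ S : Finset ℤ, (∀ x ∈ S, (M : ℤ) ≤ x) →
      (∀ x ∈ S, ∀ x' ∈ S, SqMod (h.map (Int.castRingHom ℚ)) x x') → S.card ≤ N := by
  obtain ⟨K, N, -, hcc⟩ := class_card 3 le_rfl
  obtain ⟨H, hH⟩ : ∃ H : ℕ, ∀ i : Fin (3 + 1), |h.coeff i| ≤ (H : ℤ) := by
    refine ⟨∑ i : Fin (3 + 1), (h.coeff i).natAbs, fun i => ?_⟩
    rw [Int.abs_eq_natAbs]
    exact_mod_cast Finset.single_le_sum (f := fun i : Fin (3 + 1) => (h.coeff i).natAbs)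
      (fun _ _ => Nat.zero_le _) (Finset.mem_univ i)
  obtain ⟨θ, hθ⟩ := roots_of_good hH (good_of_sep (by norm_num) hdeg hsep)
  have hroot : ∀ t, aeval (θ t) (h.map (Int.castRingHom ℚ)) = 0 := by
    intro t
    have h1 := hθ.eval (θ t)
    rw [Finset.prod_eq_zero (Finset.mem_univ t) (sub_self _), mul_zero] at h1
    have h2 : aeval (θ t) (h.map (Int.castRingHom ℚ)) = aeval (θ t) h := by
      rw [aeval_def, aeval_def, eval₂_map]
      congr 1
    rw [h2, aeval_def, eval₂_eq_sum_range, hdeg, Finset.sum_range]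
    simpa using h1
  refine ⟨4 * H + 1 + K * H ^ 5, N, fun S hS hrel => ?_⟩
  refine hcc H _ θ hθ S (fun x hx => ?_) (fun x hx y hy => crel_of_sqmod (hrel x hx y hy) θ hroot)
  have h1 := hS x hx
  push_cast at h1
  have hH0 : (0 : ℤ) ≤ H := Int.natCast_nonneg H
  have hK0 : (0 : ℤ) ≤ K := Int.natCast_nonneg K
  have hKH : (0 : ℤ) ≤ (K : ℤ) * (H : ℤ) ^ 5 := by positivity
  refine ⟨by linarith, by linarith, ?_⟩
  rw [if_pos rfl]
  have h2 : (1 : ℤ) ≤ |h.coeff (Fin.last 3 : Fin (3 + 1))| := Int.one_le_abs hθ.lead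
  have h3 : x ≤ x * |h.coeff (Fin.last 3 : Fin (3 + 1))| := by nlinarith
  have h4 : (1 : ℤ) ≤ x * |h.coeff (Fin.last 3 : Fin (3 + 1))| := by linarith
  calc (K : ℤ) * (H : ℤ) ^ 5 ≤ x * |h.coeff (Fin.last 3 : Fin (3 + 1))| := by linarith
    _ ≤ (x * |h.coeff (Fin.last 3 : Fin (3 + 1))|) ^ 2 := by nlinarith

private theorem sqmod_comp {P : ℚ[X]} {x x' : ℤ} (h : SqMod P x x') :
    SqMod (P.comp (-X)) (-x) (-x') := by
  obtain ⟨q, r, hr⟩ := h
  refine ⟨q.comp (-X), r.comp (-X), ?_⟩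
  have h1 := congrArg (fun p : ℚ[X] => p.comp (-X)) hr
  simp only [sub_comp, mul_comp, pow_comp, C_comp, X_comp] at h1
  rw [← h1]
  push_cast
  rw [C_neg, C_neg]
  ring

theorem sqmod_card (h : ℤ[X]) (hdeg : h.natDegree = 3)
    (hsep : (h.map (Int.castRingHom ℚ)).Separable) :
    ∃ N : ℕ, ∀ S : Finset ℤ,
      (∀ x ∈ S, ∀ x' ∈ S, SqMod (h.map (Int.castRingHom ℚ)) x x') → S.card ≤ N := by
  classical
  obtain ⟨M₁, N₁, h₁⟩ := sqmod_card_pos h hdeg hsep
  have hX : (-X : ℤ[X]).natDegree = 1 := by rw [natDegree_neg, natDegree_X]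
  have hmap : (h.comp (-X)).map (Int.castRingHom ℚ) = (h.map (Int.castRingHom ℚ)).comp (-X) := by
    rw [Polynomial.map_comp]
    simp
  obtain ⟨M₂, N₂, h₂⟩ := sqmod_card_pos (h.comp (-X))
    (by rw [natDegree_comp, hdeg, hX]) (by
      rw [hmap]
      have h1 : IsCoprime (h.map (Int.castRingHom ℚ)) (derivative (h.map (Int.castRingHom ℚ))) := hsep
      have h2 := h1.map (compRingHom (-X : ℚ[X]))
      rw [coe_compRingHom_apply, coe_compRingHom_apply] at h2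
      change IsCoprime _ _
      rw [derivative_comp, derivative_neg, derivative_X, neg_mul, one_mul]
      exact h2.neg_right)
  refine ⟨N₁ + N₂ + (M₁ + M₂ + 1), fun S hS => ?_⟩
  have e1 : (S.filter (fun x => (M₁ : ℤ) ≤ x)).card ≤ N₁ :=
    h₁ _ (fun x hx => (Finset.mem_filter.1 hx).2) fun x hx y hy =>
      hS x (Finset.mem_filter.1 hx).1 y (Finset.mem_filter.1 hy).1
  have e2 : (S.filter (fun x => (M₂ : ℤ) ≤ -x)).card ≤ N₂ := by
    have h3 : (S.filter (fun x => (M₂ : ℤ) ≤ -x)).card =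
        ((S.filter (fun x => (M₂ : ℤ) ≤ -x)).image (fun x => -x)).card :=
      (Finset.card_image_of_injective _ neg_injective).symm
    rw [h3]
    refine h₂ _ (fun x hx => ?_) fun x hx y hy => ?_
    · obtain ⟨z, hz, rfl⟩ := Finset.mem_image.1 hx
      exact (Finset.mem_filter.1 hz).2
    · obtain ⟨z, hz, rfl⟩ := Finset.mem_image.1 hx
      obtain ⟨w, hw, rfl⟩ := Finset.mem_image.1 hy
      rw [hmap]
      exact sqmod_comp (hS z (Finset.mem_filter.1 hz).1 w (Finset.mem_filter.1 hw).1)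
  have e3 : (Finset.Icc (-(M₂ : ℤ)) M₁).card ≤ M₁ + M₂ + 1 := by
    rw [Int.card_Icc]
    omega
  have e4 : S ⊆ S.filter (fun x => (M₁ : ℤ) ≤ x) ∪ S.filter (fun x => (M₂ : ℤ) ≤ -x) ∪
      Finset.Icc (-(M₂ : ℤ)) M₁ := by
    intro x hx
    rw [Finset.mem_union, Finset.mem_union, Finset.mem_filter, Finset.mem_filter, Finset.mem_Icc]
    by_cases h3 : (M₁ : ℤ) ≤ x
    · exact Or.inl (Or.inl ⟨hx, h3⟩)
    · by_cases h4 : (M₂ : ℤ) ≤ -x
      · exact Or.inl (Or.inr ⟨hx, h4⟩)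
      · exact Or.inr ⟨by omega, by omega⟩
  calc S.card ≤ _ := Finset.card_le_card e4
    _ ≤ _ := Finset.card_union_le _ _
    _ ≤ N₁ + N₂ + (M₁ + M₂ + 1) :=
      Nat.add_le_add ((Finset.card_union_le _ _).trans (Nat.add_le_add e1 e2)) e3

end Pool.Agent.Helper38.TW
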