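import Mathlib
import Pool.Agent.Helper38.TW.GDefs

/-!
# TW-H0: the refined nondegenerate case (definitions)

`kap dt i k`: the value of `g_k` at the root of the linear factor `g_i`, up to squares (as in `lin_char`).
`NonDeg3`: `NonDeg`, or `I = {i}` and some `τ_k kap i k`, `k ∉ I`, is not a square.
-/

set_option autoImplicit false

namespace Pool.Agent.Helper38.TW

open Finset Polynomial

variable {f : ℤ[X]} {ι : Type} [Fintype ι] [DecidableEq ι]

/-- the value of `g_k` at the root of the linear factor `g_i`, up to squares -/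
noncomputable def kap (dt : FData f ι) (i k : ι) : ℤ :=
  (scaleRoots (dt.g k) (dt.g i).leadingCoeff).eval (-((dt.g i).coeff 0)) *
    (dt.g i).leadingCoeff ^ (dt.g k).natDegree

/-- the nondegenerate case -/
def NonDeg3 (dt : FData f ι) (τ : ι → ℤ) (I : Finset ι) (E : ι → ℕ) : Prop :=
  NonDeg dt I E ∨ (I.card = 1 ∧ ∃ i ∈ I, ∃ k, k ∉ I ∧ ¬ IsSquare (τ k * kap dt i k))

/-- the degenerate twists -/
def DegSet3 (dt : FData f ι) : Set ℤ :=
  {D | Squarefree D ∧ ∃ (x y t : ℤ) (E : ι → ℕ) (τ : ι → ℤ) (I : Finset ι), y ≠ 0 ∧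
    y ^ 2 = D * f.eval x ∧ IsDesc dt D x t E τ ∧ I.Nonempty ∧ ¬ NonDeg3 dt τ I E}

open Classical in
/-- the small parts `E` for the set `I` of big indices (`E k = 1` for `k ∈ I`) -/
noncomputable def smallE3 (dt : FData f ι) (τ : ι → ℤ) (I : Finset ι) (z : ℕ) : Finset (ι → ℕ) :=
  (Fintype.piFinset (fun k => if k ∈ I then ({1} : Finset ℕ) else Icc 1 z)).filter
    (fun E => NonDeg3 dt τ I E ∧ ∀ k, k ∉ I → Squarefree (E k) ∧ Nat.Coprime (E k) dt.B)

theorem degSet3_sub (dt : FData f ι) : DegSet3 dt ⊆ DegSet dt := by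
  rintro D ⟨hD, x, y, t, E, τ, I, h1, h2, h3, h4, h5⟩
  exact ⟨hD, x, y, t, E, τ, I, h1, h2, h3, h4, fun h => h5 (Or.inl h)⟩

end Pool.Agent.Helper38.TW
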