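import Mathlib
import Pool.Agent.Helper13.TU.Defs
import Pool.Agent.Helper13.TU.TwoLogAux
import Pool.Agent.Helper13.TU.TU7
import Pool.Agent.Helper47.TU.ZeroEst

/-!
# TW-S1: the two-logarithm inequality with a fraction

A copy of `Pool.Agent.Helper13.TU.two_log` (file `Pool/Agent/Helper13/TU/TwoLog.lean`, 440 lines) with ONE change: instead of `β ∈ S` with `φ s₀ β = exp(r l - Λ)` there are `β₁, β₂ ∈ S` with `φ s₀ β₁ = φ s₀ β₂ · exp(r l - Λ)`, `φ s₀ β₂ ≠ 0`, `‖φ s βᵢ‖ ≤ exp W`.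
Changes in the proof (everything else is copied word for word):
* the determinant over `S` has the entries `choose (zn j) i.1 * ((A^x)^{i.2} * (β₁^y)^{i.2} * β₂^{L Y - y i.2})`, `x = (c j).1`, `y = (c j).2 ≤ Y`, `i.2 ≤ L` (so `y * i.2 ≤ L * Y`);
* `hEW`: `‖(A^x)^{i.2} (β₁^y)^{i.2} β₂^{LY - y i.2}‖ ≤ exp(L X E) exp(W y i.2) exp(W (L Y - y i.2)) = exp(L (X E + Y W))`: the same bound, so `hentry`, `hbd`, `H`, `J`, `hJ` do not change;
* at `s₀` the entry is `φ s₀ β₂^{LY}` times the old entry (with `φ s₀ β₂^{y i} exp((r l - Λ) y i) = φ s₀ β₁^{y i}`), so `φ s₀ T = (φ s₀ β₂^{LY})^N · (old determinant) ≠ 0` (`hne`);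
* analytic part: replace `f i w` by `φ s₀ β₂^{LY} * (old f i w)`; `‖φ s₀ β₂^{LY}‖ ≤ exp(L Y W)` and the old bound was `exp(t(16Z+K) + K p + 16 L t Z)`, so the new one is `≤ exp J` because `J` contains the summand `L (X E + Y W)`, which was not used there. `e i j`, `heB`, `hup`, `hdet`, `hfinal`: unchanged.
-/

set_option autoImplicit false

open Polynomial

namespace Pool.Agent.Helper38.TW

open Pool.Agent.Helper13.TU

theorem two_log_frac {S ι : Type*} [CommRing S] (φ : ι → S →+* ℂ) (D : ℕ) (hD : 1 ≤ D)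
    (hLiou : ∀ (T : S) (s₀ : ι) (H : ℝ), 1 ≤ H → (∀ s, ‖φ s T‖ ≤ H) → φ s₀ T ≠ 0 →
      1 ≤ H ^ D * ‖φ s₀ T‖)
    (A β₁ β₂ : S) (s₀ : ι) (p E W r : ℕ) (hp1 : 1 ≤ p)
    (hp : 256 * (8 * D + 9) * (8 * (D + 1) * p) ≤ 2 ^ p) (hE : 1 ≤ E) (hW : 1 ≤ W)
    (hr1 : 4 * r ≤ 2 ^ p * W) (hr2 : 2 ^ p * W ≤ 8 * r)
    (hA : ∀ s, ‖φ s A‖ ≤ Real.exp E) (hβ₁ : ∀ s, ‖φ s β₁‖ ≤ Real.exp W)
    (hβ₂ : ∀ s, ‖φ s β₂‖ ≤ Real.exp W)
    (l Λ : ℂ) (hAl : φ s₀ A = Complex.exp l) (hβ0 : φ s₀ β₂ ≠ 0)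
    (hβl : φ s₀ β₁ = φ s₀ β₂ * Complex.exp (r * l - Λ))
    (hl0 : l ≠ 0) (hl : ‖l‖ ≤ 4 / 2 ^ p) :
    Real.exp (-(3 * ((cD D : ℝ) * p ^ 2 * E * W))) ≤ ‖Λ‖ := by
  by_contra hcon
  push Not at hcon
  obtain ⟨m, hm⟩ : ∃ m : ℕ, m = 8 * D + 9 := ⟨_, rfl⟩
  obtain ⟨L, hLd⟩ : ∃ L : ℕ, L = 8 * (D + 1) * p := ⟨_, rfl⟩
  obtain ⟨Y, hYd⟩ : ∃ Y : ℕ, Y = m * L * E := ⟨_, rfl⟩
  obtain ⟨X, hXd⟩ : ∃ X : ℕ, X = 32 * m * L * W := ⟨_, rfl⟩
  obtain ⟨K, hKd⟩ : ∃ K : ℕ, K = 256 * (D + 1) * m * L * E * W := ⟨_, rfl⟩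
  obtain ⟨N, hNd⟩ : ∃ N : ℕ, N = K * L := ⟨_, rfl⟩
  have hm17 : 17 ≤ m := by omega
  have hL16 : 16 ≤ L := by rw [hLd]; nlinarith
  have hLp : (256 * m) * L ≤ 2 ^ p := by rw [hm, hLd]; exact hp
  have hNcD : (cD D : ℝ) * p ^ 2 * E * W = N := by
    rw [hNd, hKd, hLd, hm, cD]; push_cast; ring
  rw [hNcD] at hcon
  have hY1 : 1 ≤ Y := by rw [hYd]; exact Nat.one_le_iff_ne_zero.2 (by positivity)
  have hK1 : 1 ≤ K := by rw [hKd]; exact Nat.one_le_iff_ne_zero.2 (by positivity)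
  have hN1 : 1 ≤ N := by rw [hNd]; exact Nat.one_le_iff_ne_zero.2 (by positivity)
  -- X ≤ r
  have hXr : X ≤ r := by
    have h1 : 8 * X ≤ 8 * r := by
      calc 8 * X = (256 * m) * L * W := by rw [hXd]; ring
        _ ≤ 2 ^ p * W := Nat.mul_le_mul_right _ hLp
        _ ≤ 8 * r := hr2
    omega
  have hLX : L ≤ X := by
    rw [hXd]
    calc L = 1 * 1 * L * 1 := by ring
      _ ≤ 32 * m * L * W := by gcongr <;> omega
  have hcount : K * L ≤ (X - L) * Y := by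
    have h1 : (256 * (D + 1)) * L * W ≤ X - L := by
      have h2 : (256 * (D + 1)) * L * W + L ≤ X := by
        rw [hXd, hm]
        have h3 : L ≤ L * W := Nat.le_mul_of_pos_right _ hW
        nlinarith
      omega
    calc K * L = ((256 * (D + 1)) * L * W) * Y := by rw [hKd, hYd]; ring
      _ ≤ (X - L) * Y := Nat.mul_le_mul_right _ h1
  have h2p : (0 : ℝ) < 2 ^ p := by positivity
  -- real parameter
  obtain ⟨t, ht⟩ : ∃ t : ℝ, t = 4 / 2 ^ p := ⟨_, rfl⟩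
  rw [← ht] at hl
  have ht0 : 0 < t := by rw [ht]; positivity
  have hLpR : (256 * (m : ℝ)) * L ≤ 2 ^ p := by exact_mod_cast hLp
  have htL : 64 * m * L * t ≤ 1 := by
    rw [ht, mul_div_assoc', div_le_one h2p]; linarith
  have hmR : (17 : ℝ) ≤ m := by exact_mod_cast hm17
  have hLR : (16 : ℝ) ≤ L := by exact_mod_cast hL16
  have hmL : (17 : ℝ) * 16 ≤ m * L := by
    exact mul_le_mul hmR hLR (by norm_num) (by linarith)
  have ht1 : t ≤ 1 / 10000 := by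
    have : 64 * (17 * 16) * t ≤ 64 * (m * L) * t := by gcongr
    have h2 : 64 * (m * L) * t ≤ 1 := by linarith [htL]
    linarith
  have htr : t * r ≤ W := by
    rw [ht, div_mul_eq_mul_div, div_le_iff₀ h2p]
    have : ((4 * r : ℕ) : ℝ) ≤ ((2 ^ p * W : ℕ) : ℝ) := by exact_mod_cast hr1
    push_cast at this
    linarith
  have hltL : ∀ j : ℕ, j ≤ L → ‖(j : ℂ) * l‖ < 1 := by
    intro j hj
    rw [norm_mul, Complex.norm_natCast]
    have h1 : (j : ℝ) ≤ L := by exact_mod_cast hj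
    have h2 : (j : ℝ) * ‖l‖ ≤ L * t := mul_le_mul h1 hl (norm_nonneg _) (by linarith)
    have h3 : (L : ℝ) * t * (64 * 17) ≤ 64 * m * L * t := by
      have : (0:ℝ) ≤ L * t := by positivity
      nlinarith
    nlinarith
  -- distinct powers
  have hdist : ∀ x < L, ∀ x' < L, (Complex.exp l) ^ x = (Complex.exp l) ^ x' → x = x' := by
    have key : ∀ x x' : ℕ, x ≤ x' → x' < L →
        (Complex.exp l) ^ x = (Complex.exp l) ^ x' → x = x' := by
      intro x x' hxx hx' h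
      by_contra hne
      have hlt : x < x' := lt_of_le_of_ne hxx hne
      obtain ⟨j, rfl⟩ := Nat.exists_eq_add_of_lt hlt
      have h1 : Complex.exp (((j + 1 : ℕ) : ℂ) * l) = 1 := by
        have h0 : (Complex.exp l) ^ x ≠ 0 := pow_ne_zero _ (Complex.exp_ne_zero _)
        have h2 : (Complex.exp l) ^ (x + j + 1) = (Complex.exp l) ^ x * (Complex.exp l) ^ (j + 1) := by
          rw [← pow_add]; ring_nf
        rw [h2] at h
        have h3 : (Complex.exp l) ^ (j + 1) = 1 := by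
          have : (Complex.exp l) ^ x * ((Complex.exp l) ^ (j + 1) - 1) = 0 := by
            rw [mul_sub, mul_one, ← h, sub_self]
          rcases mul_eq_zero.1 this with h4 | h4
          · exact absurd h4 h0
          · exact sub_eq_zero.1 h4
        rw [Complex.exp_nat_mul, h3]
      obtain ⟨n, hn⟩ := Complex.exp_eq_one_iff.1 h1
      have h5 := hltL (j + 1) (by omega)
      rw [hn] at h5
      have hn0 : n ≠ 0 := by
        rintro rfl
        simp at hn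
        rcases hn with h6 | h6
        · exact absurd h6 (by exact_mod_cast Nat.succ_ne_zero j)
        · exact hl0 h6
      have h6 : ‖(n : ℂ) * (2 * (Real.pi : ℂ) * Complex.I)‖ = |(n : ℝ)| * (2 * Real.pi) := by
        simp [abs_of_pos Real.pi_pos]
      rw [h6] at h5
      have h7 : (1 : ℝ) ≤ |(n : ℝ)| := by
        have : 1 ≤ |n| := Int.one_le_abs hn0
        exact_mod_cast this
      nlinarith [Real.pi_gt_three]
    intro x hx x' hx' h
    rcases le_total x x' with h1 | h1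
    · exact key x x' h1 hx' h
    · exact (key x' x h1 hx h.symm).symm
  obtain ⟨c, hc⟩ := exists_nonzero_minor (r := r) hK1 (by omega : 0 < L) (Complex.exp l)
    (Complex.exp (r * l - Λ)) (Complex.exp_ne_zero _) (Complex.exp_ne_zero _) hdist hXr hLX hcount
  -- notation
  obtain ⟨zn, hzn⟩ : ∃ zn : Fin K × Fin L → ℕ, ∀ j, zn j = ((c j).1 : ℕ) + r * ((c j).2 : ℕ) :=
    ⟨_, fun _ => rfl⟩
  obtain ⟨Z, hZd⟩ : ∃ Z : ℝ, Z = X + r * Y := ⟨_, rfl⟩
  have hr0 : 1 ≤ r := by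
    by_contra h
    have : r = 0 := by omega
    subst this
    have : 2 ^ p * W ≤ 0 := by simpa using hr2
    have h3 : 0 < 2 ^ p * W := by positivity
    omega
  have hZ0 : 0 < Z := by
    rw [hZd]
    have : (0:ℝ) < r * Y := by
      have h1 : (0:ℝ) < r := by exact_mod_cast hr0
      have h2 : (0:ℝ) < Y := by exact_mod_cast hY1
      positivity
    have h3 : (0:ℝ) ≤ X := by positivity
    linarith
  have hznZ : ∀ j, (zn j : ℝ) ≤ Z := by
    intro j
    rw [hzn, hZd]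
    push_cast
    have h1 : (((c j).1 : ℕ) : ℝ) ≤ X := by exact_mod_cast (c j).1.2.le
    have h2 : (((c j).2 : ℕ) : ℝ) ≤ Y := by exact_mod_cast (c j).2.2.le
    have h3 : (0 : ℝ) ≤ r := by positivity
    nlinarith
  have htZ : t * Z ≤ 2 * (W * Y) := by
    rw [hZd]
    have h1 : (X : ℝ) ≤ r := by exact_mod_cast hXr
    have h2 : (1 : ℝ) ≤ Y := by exact_mod_cast hY1
    have h3 : (1 : ℝ) ≤ W := by exact_mod_cast hW
    have h4 : t * X ≤ W := le_trans (mul_le_mul_of_nonneg_left h1 ht0.le) htr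
    have h5 : t * (r * Y) ≤ W * Y := by
      rw [← mul_assoc]; exact mul_le_mul_of_nonneg_right htr (by linarith)
    have h6 : (W : ℝ) ≤ W * Y := by nlinarith
    rw [mul_add]; linarith
  obtain ⟨J, hJd⟩ : ∃ J : ℝ, J = t * (16 * Z + K) + K * p + 16 * L * t * Z +
      L * (X * E + Y * W) := ⟨_, rfl⟩
  have hKR0 : (0:ℝ) ≤ K := by positivity
  have hLR0 : (0:ℝ) ≤ L := by positivity
  have hJ : ((D : ℝ) + 1) * J ≤ 0.4 * N := by
    have hYW : ((D : ℝ) + 1) * (W * Y) = K / 256 := by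
      rw [hKd, hYd]; push_cast; ring
    have hXE : (X : ℝ) * E = 32 * (W * Y) := by rw [hXd, hYd]; push_cast; ring
    have hDp : ((D : ℝ) + 1) * p = L / 8 := by rw [hLd]; push_cast; ring
    have hN' : (N : ℝ) = K * L := by rw [hNd]; push_cast; ring
    have hDt : ((D : ℝ) + 1) * t ≤ 0.01 := by
      have h1 : (m : ℝ) = 8 * D + 9 := by rw [hm]; push_cast; ring
      have h2 : ((D : ℝ) + 1) * 8 ≤ m := by rw [h1]; linarith
      have h3 : 64 * (((D : ℝ) + 1) * 8) * 16 * t ≤ 64 * m * L * t := by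
        have : 64 * (((D : ℝ) + 1) * 8) * 16 ≤ 64 * m * L := by
          have : ((D : ℝ) + 1) * 8 * 16 ≤ m * L := mul_le_mul h2 hLR (by norm_num) (by linarith)
          linarith
        exact mul_le_mul_of_nonneg_right this ht0.le
      linarith
    have hK16 : (K : ℝ) ≤ N / 16 := by
      rw [hN', le_div_iff₀ (by norm_num)]
      exact mul_le_mul_of_nonneg_left hLR hKR0
    have e1 : ((D : ℝ) + 1) * (t * (16 * Z + K)) ≤ K / 8 + 0.01 * K := by
      have : ((D : ℝ) + 1) * (t * (16 * Z + K)) =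
        16 * (((D : ℝ) + 1) * (t * Z)) + (((D : ℝ) + 1) * t) * K := by ring
      rw [this]
      have h1 : ((D : ℝ) + 1) * (t * Z) ≤ ((D : ℝ) + 1) * (2 * (W * Y)) :=
        mul_le_mul_of_nonneg_left htZ (by positivity)
      have h2 : ((D : ℝ) + 1) * t * K ≤ 0.01 * K := mul_le_mul_of_nonneg_right hDt hKR0
      nlinarith
    have e2 : ((D : ℝ) + 1) * (K * p) = N / 8 := by
      rw [hN']
      calc ((D : ℝ) + 1) * (K * p) = K * (((D : ℝ) + 1) * p) := by ring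
        _ = _ := by rw [hDp]; ring
    have e3 : ((D : ℝ) + 1) * (16 * L * t * Z) ≤ N / 8 := by
      have h1 : ((D : ℝ) + 1) * (16 * L * t * Z) = 16 * L * (((D : ℝ) + 1) * (t * Z)) := by ring
      rw [h1]
      have h2 : ((D : ℝ) + 1) * (t * Z) ≤ ((D : ℝ) + 1) * (2 * (W * Y)) :=
        mul_le_mul_of_nonneg_left htZ (by positivity)
      have h3 : 16 * L * (((D : ℝ) + 1) * (t * Z)) ≤ 16 * L * (((D : ℝ) + 1) * (2 * (W * Y))) :=
        mul_le_mul_of_nonneg_left h2 (by positivity)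
      refine le_trans h3 (le_of_eq ?_)
      rw [hN']
      calc 16 * L * (((D : ℝ) + 1) * (2 * (W * Y))) = 32 * L * (((D : ℝ) + 1) * (W * Y)) := by ring
        _ = _ := by rw [hYW]; ring
    have e4 : ((D : ℝ) + 1) * (L * (X * E + Y * W)) = 33 / 256 * N := by
      rw [hXE, hN']
      calc ((D : ℝ) + 1) * (L * (32 * (W * Y) + Y * W)) =
          33 * L * (((D : ℝ) + 1) * (W * Y)) := by ring
        _ = _ := by rw [hYW]; ring
    have hN0 : (0:ℝ) ≤ N := by positivity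
    calc ((D : ℝ) + 1) * J = ((D : ℝ) + 1) * (t * (16 * Z + K)) + ((D : ℝ) + 1) * (K * p) +
        ((D : ℝ) + 1) * (16 * L * t * Z) + ((D : ℝ) + 1) * (L * (X * E + Y * W)) := by
          rw [hJd]; ring
      _ ≤ 0.4 * N := by
          rw [e2, e4]
          norm_num at e1 e3 ⊢
          linarith
  have htinv : t⁻¹ ^ K ≤ Real.exp (K * p) := by
    have h1 : t⁻¹ ≤ Real.exp p := by
      have h2 : t⁻¹ ≤ 2 ^ p := by
        rw [ht, inv_div]
        have : (0:ℝ) < 2 ^ p := h2p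
        linarith
      have h3 : (2 : ℝ) ^ p ≤ Real.exp p := by
        have : (2 : ℝ) ≤ Real.exp 1 := by have := Real.exp_one_gt_d9; linarith
        calc (2 : ℝ) ^ p ≤ (Real.exp 1) ^ p := pow_le_pow_left₀ (by norm_num) this p
          _ = Real.exp p := by rw [← Real.exp_nat_mul, mul_one]
      exact h2.trans h3
    calc t⁻¹ ^ K ≤ (Real.exp p) ^ K := pow_le_pow_left₀ (by positivity) h1 K
      _ = Real.exp (K * p) := by rw [← Real.exp_nat_mul]
  have htle : t ≤ 1 := by linarith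
  -- the determinant over S
  obtain ⟨T, hT⟩ : ∃ T : S, T = (Matrix.of fun (i j : Fin K × Fin L) =>
        ((Nat.choose (zn j) (i.1 : ℕ) : ℕ) : S) *
          ((A ^ ((c j).1 : ℕ)) ^ (i.2 : ℕ) * (β₁ ^ ((c j).2 : ℕ)) ^ (i.2 : ℕ) *
            β₂ ^ (L * Y - ((c j).2 : ℕ) * (i.2 : ℕ)))).det := ⟨_, rfl⟩
  have hTs : ∀ s, φ s T = (Matrix.of fun (i j : Fin K × Fin L) =>
        ((Nat.choose (zn j) (i.1 : ℕ) : ℕ) : ℂ) *
          (((φ s A) ^ ((c j).1 : ℕ)) ^ (i.2 : ℕ) * ((φ s β₁) ^ ((c j).2 : ℕ)) ^ (i.2 : ℕ) *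
            (φ s β₂) ^ (L * Y - ((c j).2 : ℕ) * (i.2 : ℕ)))).det := by
    intro s
    rw [hT, RingHom.map_det]
    congr 1
    ext i j
    simp [RingHom.mapMatrix_apply, Matrix.map_apply]
  have hcard : Fintype.card (Fin K × Fin L) = N := by
    rw [Fintype.card_prod, Fintype.card_fin, Fintype.card_fin, hNd]
  have hyi : ∀ i j : Fin K × Fin L, ((c j).2 : ℕ) * (i.2 : ℕ) ≤ L * Y := by
    intro i j
    rw [mul_comm L Y]
    exact Nat.mul_le_mul (c j).2.2.le i.2.2.le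
  have hEW : ∀ s, ∀ i j : Fin K × Fin L,
      ‖((φ s A) ^ ((c j).1 : ℕ)) ^ (i.2 : ℕ) * ((φ s β₁) ^ ((c j).2 : ℕ)) ^ (i.2 : ℕ) *
            (φ s β₂) ^ (L * Y - ((c j).2 : ℕ) * (i.2 : ℕ))‖ ≤
        Real.exp (L * (X * E + Y * W)) := by
    intro s i j
    rw [norm_mul, norm_mul, norm_pow, norm_pow, norm_pow, norm_pow, norm_pow]
    have h1 : (‖φ s A‖ ^ ((c j).1 : ℕ)) ^ (i.2 : ℕ) ≤ Real.exp (L * (X * E)) := by
      have h0 : ‖φ s A‖ ^ ((c j).1 : ℕ) ≤ Real.exp (X * E) := by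
        calc ‖φ s A‖ ^ ((c j).1 : ℕ) ≤ (Real.exp E) ^ ((c j).1 : ℕ) :=
              pow_le_pow_left₀ (norm_nonneg _) (hA s) _
          _ ≤ (Real.exp E) ^ X := pow_le_pow_right₀ (Real.one_le_exp (by positivity)) (c j).1.2.le
          _ = Real.exp (X * E) := by rw [← Real.exp_nat_mul]
      calc (‖φ s A‖ ^ ((c j).1 : ℕ)) ^ (i.2 : ℕ)
          ≤ (Real.exp (X * E)) ^ (i.2 : ℕ) := pow_le_pow_left₀ (by positivity) h0 _
        _ ≤ (Real.exp (X * E)) ^ L :=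
            pow_le_pow_right₀ (Real.one_le_exp (by positivity)) i.2.2.le
        _ = _ := by rw [← Real.exp_nat_mul]
    have h2 : (‖φ s β₁‖ ^ ((c j).2 : ℕ)) ^ (i.2 : ℕ) ≤
        (Real.exp W) ^ (((c j).2 : ℕ) * (i.2 : ℕ)) := by
      rw [← pow_mul]
      exact pow_le_pow_left₀ (norm_nonneg _) (hβ₁ s) _
    have h3 : ‖φ s β₂‖ ^ (L * Y - ((c j).2 : ℕ) * (i.2 : ℕ)) ≤
        (Real.exp W) ^ (L * Y - ((c j).2 : ℕ) * (i.2 : ℕ)) :=
      pow_le_pow_left₀ (norm_nonneg _) (hβ₂ s) _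
    calc (‖φ s A‖ ^ ((c j).1 : ℕ)) ^ (i.2 : ℕ) * (‖φ s β₁‖ ^ ((c j).2 : ℕ)) ^ (i.2 : ℕ) *
          ‖φ s β₂‖ ^ (L * Y - ((c j).2 : ℕ) * (i.2 : ℕ))
        ≤ Real.exp (L * (X * E)) * (Real.exp W) ^ (((c j).2 : ℕ) * (i.2 : ℕ)) *
            (Real.exp W) ^ (L * Y - ((c j).2 : ℕ) * (i.2 : ℕ)) :=
          mul_le_mul (mul_le_mul h1 h2 (by positivity) (by positivity)) h3 (by positivity)
            (by positivity)
      _ = Real.exp (L * (X * E)) * (Real.exp W) ^ (L * Y) := by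
          rw [mul_assoc, ← pow_add, Nat.add_sub_cancel' (hyi i j)]
      _ = Real.exp (L * (X * E + Y * W)) := by
          rw [← Real.exp_nat_mul, ← Real.exp_add]
          congr 1
          push_cast
          ring
  have hentry : ∀ s, ∀ i j : Fin K × Fin L,
      ‖((Nat.choose (zn j) (i.1 : ℕ) : ℕ) : ℂ) *
          (((φ s A) ^ ((c j).1 : ℕ)) ^ (i.2 : ℕ) * ((φ s β₁) ^ ((c j).2 : ℕ)) ^ (i.2 : ℕ) *
            (φ s β₂) ^ (L * Y - ((c j).2 : ℕ) * (i.2 : ℕ)))‖ ≤ Real.exp J := by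
    intro s i j
    rw [norm_mul, Complex.norm_natCast]
    have h1 : ((Nat.choose (zn j) (i.1 : ℕ) : ℕ) : ℝ) ≤ Real.exp (t * Z + K * p) := by
      refine le_trans (choose_le_exp (zn j) (i.1 : ℕ) K i.1.2.le t ht0 htle) ?_
      rw [Real.exp_add]
      refine mul_le_mul (Real.exp_le_exp.2 (mul_le_mul_of_nonneg_left (hznZ j) ht0.le)) htinv
        (by positivity) (by positivity)
    calc _ ≤ Real.exp (t * Z + K * p) * Real.exp (L * (X * E + Y * W)) :=
          mul_le_mul h1 (hEW s i j) (norm_nonneg _) (by positivity)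
      _ = Real.exp (t * Z + K * p + L * (X * E + Y * W)) := by rw [← Real.exp_add]
      _ ≤ Real.exp J := by
          apply Real.exp_le_exp.2
          rw [hJd]
          have h2 : 0 ≤ t * K := by positivity
          have h3 : 0 ≤ 16 * L * t * Z := by positivity
          have h4 : 0 ≤ t * Z := by positivity
          linarith
  have hJ0 : 0 ≤ J := by rw [hJd]; positivity
  obtain ⟨H, hH⟩ : ∃ H : ℝ, H = (N.factorial : ℝ) * (Real.exp J) ^ N := ⟨_, rfl⟩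
  have hH1 : 1 ≤ H := by
    rw [hH]
    have h1 : (1 : ℝ) ≤ N.factorial := by exact_mod_cast N.factorial_pos
    have h2 : (1 : ℝ) ≤ (Real.exp J) ^ N := one_le_pow₀ (Real.one_le_exp hJ0)
    nlinarith
  have hbd : ∀ s, ‖φ s T‖ ≤ H := by
    intro s
    rw [hTs s]
    have := Matrix.det_le (abv := IsAbsoluteValue.toAbsoluteValue (norm : ℂ → ℝ)) (x := Real.exp J)
      (A := Matrix.of fun (i j : Fin K × Fin L) =>
        ((Nat.choose (zn j) (i.1 : ℕ) : ℕ) : ℂ) *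
          (((φ s A) ^ ((c j).1 : ℕ)) ^ (i.2 : ℕ) * ((φ s β₁) ^ ((c j).2 : ℕ)) ^ (i.2 : ℕ) *
            (φ s β₂) ^ (L * Y - ((c j).2 : ℕ) * (i.2 : ℕ)))) (fun i j => hentry s i j)
    rw [hcard, nsmul_eq_mul] at this
    rw [hH]
    exact this
  obtain ⟨κ, hκ⟩ : ∃ κ : ℂ, κ = (φ s₀ β₂) ^ (L * Y) := ⟨_, rfl⟩
  have hκ0 : κ ≠ 0 := by
    rw [hκ]
    exact pow_ne_zero _ hβ0
  have hent0 : ∀ i j : Fin K × Fin L,
      ((φ s₀ A) ^ ((c j).1 : ℕ)) ^ (i.2 : ℕ) * ((φ s₀ β₁) ^ ((c j).2 : ℕ)) ^ (i.2 : ℕ) *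
            (φ s₀ β₂) ^ (L * Y - ((c j).2 : ℕ) * (i.2 : ℕ)) =
      κ * ((Complex.exp l) ^ ((c j).1 : ℕ) *
        (Complex.exp (r * l - Λ)) ^ ((c j).2 : ℕ)) ^ (i.2 : ℕ) := by
    intro i j
    rw [hAl, hβl, hκ]
    have h1 : (φ s₀ β₂) ^ (L * Y) = (φ s₀ β₂) ^ (((c j).2 : ℕ) * (i.2 : ℕ)) *
        (φ s₀ β₂) ^ (L * Y - ((c j).2 : ℕ) * (i.2 : ℕ)) := by
      rw [← pow_add, Nat.add_sub_cancel' (hyi i j)]
    rw [h1, mul_pow, mul_pow, mul_pow, ← pow_mul (φ s₀ β₂)]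
    ring
  have hne : φ s₀ T ≠ 0 := by
    have h1 : φ s₀ T = κ ^ Fintype.card (Fin K × Fin L) *
        (Matrix.of fun (i j : Fin K × Fin L) =>
        ((Nat.choose (((c j).1 : ℕ) + r * ((c j).2 : ℕ)) (i.1 : ℕ) : ℕ) : ℂ) *
          ((Complex.exp l) ^ ((c j).1 : ℕ) *
            (Complex.exp (r * l - Λ)) ^ ((c j).2 : ℕ)) ^ (i.2 : ℕ)).det := by
      rw [hTs s₀, ← Matrix.det_smul]
      congr 1
      ext i j
      simp only [Matrix.of_apply, Matrix.smul_apply, smul_eq_mul]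
      rw [hent0, hzn]
      ring
    rw [h1]
    exact mul_ne_zero (pow_ne_zero _ hκ0) hc
  have hlow := hLiou T s₀ H hH1 hbd hne
  -- upper bound
  have hN3 : (N : ℝ) ≤ Real.exp N := by
    have := Real.add_one_le_exp (N : ℝ); linarith
  have hLY : 2 * (L * Y : ℝ) ≤ N := by
    have : 2 * (L * Y) ≤ N := by
      rw [hNd, hKd, hYd]
      have h1 : 1 ≤ (D + 1) * W := Nat.one_le_iff_ne_zero.2 (by positivity)
      calc 2 * (L * (m * L * E)) = 2 * 1 * (m * L * E * L) := by ring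
        _ ≤ 256 * ((D + 1) * W) * (m * L * E * L) := by gcongr; norm_num
        _ = _ := by ring
    exact_mod_cast this
  have hΛ : 2 * (L * Y : ℝ) * ‖Λ‖ ≤ Real.exp (-(2 * (N : ℝ))) := by
    have h1 : 2 * (L * Y : ℝ) * ‖Λ‖ ≤ N * Real.exp (-(3 * (N : ℝ))) :=
      mul_le_mul hLY hcon.le (norm_nonneg _) (by positivity)
    have h2 : (N : ℝ) * Real.exp (-(3 * (N : ℝ))) ≤ Real.exp N * Real.exp (-(3 * (N : ℝ))) :=
      mul_le_mul_of_nonneg_right hN3 (by positivity)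
    refine le_trans h1 (le_trans h2 (le_of_eq ?_))
    rw [← Real.exp_add]; congr 1; ring
  have hexp1 : Real.exp (-(2 * (N : ℝ))) ≤ 1 := by
    rw [Real.exp_le_one_iff]; have : (0:ℝ) ≤ N := by positivity
    linarith
  have hκn : ‖κ‖ ≤ Real.exp (L * (Y * W)) := by
    rw [hκ, norm_pow]
    calc ‖φ s₀ β₂‖ ^ (L * Y) ≤ (Real.exp W) ^ (L * Y) :=
          pow_le_pow_left₀ (norm_nonneg _) (hβ₂ s₀) _
      _ = Real.exp (L * (Y * W)) := by
          rw [← Real.exp_nat_mul]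
          congr 1
          push_cast
          ring
  obtain ⟨f, hf⟩ : ∃ f : Fin K × Fin L → ℂ → ℂ, ∀ i w, f i w =
    κ * ((descPochhammer ℂ (i.1 : ℕ)).eval w / ((i.1 : ℕ).factorial : ℂ) *
      Complex.exp ((i.2 : ℕ) * l * w)) := ⟨_, fun _ _ => rfl⟩
  have hfB : ∀ i w, ‖w‖ ≤ 16 * Z → ‖f i w‖ ≤ Real.exp J := by
    intro i w hw
    rw [hf, norm_mul, norm_mul]
    have h1 := norm_descPochhammer_le w (16 * Z) hw (i.1 : ℕ) K i.1.2.le t ht0 htle
    have h2 : ‖Complex.exp ((i.2 : ℕ) * l * w)‖ ≤ Real.exp (16 * L * t * Z) := by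
      rw [Complex.norm_exp]
      apply Real.exp_le_exp.2
      refine le_trans (Complex.re_le_norm _) ?_
      rw [norm_mul, norm_mul, Complex.norm_natCast]
      have h3 : ((i.2 : ℕ) : ℝ) ≤ L := by exact_mod_cast i.2.2.le
      calc ((i.2 : ℕ) : ℝ) * ‖l‖ * ‖w‖ ≤ L * t * (16 * Z) := by
            refine mul_le_mul (mul_le_mul h3 hl (norm_nonneg _) (by positivity)) hw
              (norm_nonneg _) (by positivity)
        _ = _ := by ring
    calc _ ≤ Real.exp (L * (Y * W)) *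
          ((Real.exp (t * (16 * Z + K)) * t⁻¹ ^ K) * Real.exp (16 * L * t * Z)) :=
          mul_le_mul hκn (mul_le_mul h1 h2 (norm_nonneg _) (by positivity)) (by positivity)
            (by positivity)
      _ ≤ Real.exp (L * (Y * W)) *
          ((Real.exp (t * (16 * Z + K)) * Real.exp (K * p)) * Real.exp (16 * L * t * Z)) := by
          gcongr
      _ = Real.exp (L * (Y * W) + (t * (16 * Z + K) + K * p + 16 * L * t * Z)) := by
          rw [← Real.exp_add, ← Real.exp_add, ← Real.exp_add]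
      _ ≤ Real.exp J := by
          apply Real.exp_le_exp.2
          rw [hJd]
          have h2 : 0 ≤ (L : ℝ) * (X * E) := by positivity
          linarith
  have hfd : ∀ i, Differentiable ℂ (f i) := by
    intro i
    have : f i = fun w => κ * ((descPochhammer ℂ (i.1 : ℕ)).eval w / ((i.1 : ℕ).factorial : ℂ) *
      Complex.exp ((i.2 : ℕ) * l * w)) := by ext w; exact hf i w
    rw [this]
    have h1 : Differentiable ℂ fun w => (descPochhammer ℂ (i.1 : ℕ)).eval w :=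
      (descPochhammer ℂ (i.1 : ℕ)).differentiable
    fun_prop
  obtain ⟨e, he⟩ : ∃ e : Fin K × Fin L → Fin K × Fin L → ℂ, ∀ i j, e i j =
    f i (zn j) * (Complex.exp (-((i.2 : ℕ) * ((c j).2 : ℕ) * Λ)) - 1) := ⟨_, fun _ _ => rfl⟩
  have heB : ∀ i j, ‖e i j‖ ≤ Real.exp J * Real.exp (-(2 * (Fintype.card (Fin K × Fin L) : ℝ))) := by
    intro i j
    rw [he, norm_mul, hcard]
    have h1 : ‖f i (zn j)‖ ≤ Real.exp J := by
      apply hfB
      rw [Complex.norm_natCast]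
      have := hznZ j
      linarith
    have h2 : ‖-(((i.2 : ℕ) : ℂ) * (((c j).2 : ℕ) : ℂ) * Λ)‖ ≤ L * Y * ‖Λ‖ := by
      rw [norm_neg, norm_mul, norm_mul, Complex.norm_natCast, Complex.norm_natCast]
      have h3 : ((i.2 : ℕ) : ℝ) ≤ L := by exact_mod_cast i.2.2.le
      have h4 : (((c j).2 : ℕ) : ℝ) ≤ Y := by exact_mod_cast (c j).2.2.le
      gcongr
    have h5 : ‖Complex.exp (-((i.2 : ℕ) * ((c j).2 : ℕ) * Λ)) - 1‖ ≤
        2 * ‖-(((i.2 : ℕ) : ℂ) * (((c j).2 : ℕ) : ℂ) * Λ)‖ := by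
      apply Complex.norm_exp_sub_one_le
      linarith
    refine mul_le_mul h1 ?_ (norm_nonneg _) (by positivity)
    linarith
  have hup := det_mixed_bound f (fun j => (zn j : ℂ)) e Z (Real.exp J) hZ0 (by positivity)
    (fun j => by rw [Complex.norm_natCast]; exact hznZ j) hfd hfB heB
  have hdet : φ s₀ T = (Matrix.of fun i j => f i (zn j) + e i j).det := by
    rw [hTs s₀]
    congr 1
    ext i j
    simp only [Matrix.of_apply]
    have h1 : f i (zn j) + e i j = f i (zn j) * Complex.exp (-((i.2 : ℕ) * ((c j).2 : ℕ) * Λ)) := by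
      rw [he]; ring
    have h2 : ((Complex.exp l) ^ ((c j).1 : ℕ) *
        (Complex.exp (r * l - Λ)) ^ ((c j).2 : ℕ)) ^ (i.2 : ℕ) =
        Complex.exp ((i.2 : ℕ) * l * (zn j : ℂ)) *
          Complex.exp (-((i.2 : ℕ) * ((c j).2 : ℕ) * Λ)) := by
      rw [← Complex.exp_nat_mul, ← Complex.exp_nat_mul, ← Complex.exp_add, ← Complex.exp_nat_mul,
        ← Complex.exp_add]
      congr 1
      rw [hzn]
      push_cast
      ring
    rw [hent0, h1, hf, descPochhammer_nat, h2]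
    ring
  rw [← hdet, hcard] at hup
  have hNbig : 2 ^ 14 * (D + 1) ^ 2 ≤ N := by
    rw [hNd, hKd]
    have h1 : 8 * (D + 1) ≤ m := by omega
    have h2 : 1 ≤ E * W := Nat.one_le_iff_ne_zero.2 (by positivity)
    have h3 : 16 * 16 ≤ L * L := Nat.mul_le_mul hL16 hL16
    have h4 : (256 * (D + 1)) * (8 * (D + 1)) ≤ (256 * (D + 1)) * m := Nat.mul_le_mul_left _ h1
    have h5 : ((256 * (D + 1)) * (8 * (D + 1))) * (16 * 16) ≤ ((256 * (D + 1)) * m) * (L * L) :=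
      Nat.mul_le_mul h4 h3
    have h6 : (((256 * (D + 1)) * (8 * (D + 1))) * (16 * 16)) * 1 ≤
        (((256 * (D + 1)) * m) * (L * L)) * (E * W) := Nat.mul_le_mul h5 h2
    calc 2 ^ 14 * (D + 1) ^ 2 ≤ 2 ^ 19 * (D + 1) ^ 2 := Nat.mul_le_mul_right _ (by norm_num)
      _ = (((256 * (D + 1)) * (8 * (D + 1))) * (16 * 16)) * 1 := by ring
      _ ≤ _ := h6
      _ = _ := by ring
  have hfinal := two_log_ineq D N hNbig J hJ
  have : H ^ D * ‖φ s₀ T‖ < 1 := by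
    refine lt_of_le_of_lt ?_ hfinal
    rw [hH]
    exact mul_le_mul_of_nonneg_left hup (by positivity)
  linarith


end Pool.Agent.Helper38.TW
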