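import Mathlib
import Pool.Agent.Helper13.TU.Defs
import Pool.Agent.Helper12.TU.UnitApprox
import Pool.Agent.Helper5.TU.Liouville
import Pool.Agent.Helper25.TU.WeakBaker
import Pool.Agent.Helper38.TW.TwoLogFrac

/-!
# TW-S2: a lower bound for `|σ(x) σ(b₁)/σ(b₂) - 1|`, `x` a unit, `b₁, b₂` fixed

Adaptation of `Pool.Agent.Helper13.TU.weak_baker` (file `Pool/Agent/Helper25/TU/WeakBaker.lean`; its auxiliary lemmas `wb_..` may be used) with `y = 1`, `σ₁ = σ₂ = σ`, and a fixed coefficient.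
(0) `exists_prim`: a primitive element of `K/ℚ` (`Field.exists_primitive_element`) times a nonzero integer is integral and still generates; `R` = a natural number `≥ 1` that bounds all its conjugates.
(1) Choose `p ≥ 1` with `256 (8 d² + 9)(8 (d² + 1) p) ≤ 2^p` and `80 cD(d²) p²/2^p ≤ δ` (both hold for large `p`, because `2^p` grows faster). `q = 2^p`, `M = cD(d²) p²`, `C = cellBd d R q`.
(2) Let `c ≥ 0` be a real number with `‖τ b_i‖ ≤ exp c` for all `τ`, `i`, and `|log ‖τ b₁‖ - log ‖τ b₂‖| ≤ c`. `B₁` large: all the conditions (for large `B`) below depend only on `C, q, c, d`.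
(3) `γ = σ(x) σ(b₁)/σ(b₂) ≠ 0`, `≠ 1`. If `‖γ - 1‖ ≥ 1/2` trivial. `v σ = log ‖σ x‖/B`, `v' = 0`; `unit_approx P q _ v v' .. σ σ` gives `k ≤ C`, `η, η'`, `r = ⌊B/k⌋`, `ρ = r/q` as in the model; `wb_size` for `x, η` and for `1, η'`.
(4) `A = η ⊗ η'`, `β₁ = ((x⁻¹ η^r) * b₂) ⊗ η'^r`, `β₂ = b₁ ⊗ 1`; `‖phi β₁‖ ≤ exp(4 ρ + c)`, `‖phi β₂‖ ≤ exp c`. `W = ⌈4 ρ + c⌉`, `4ρ ≤ W ≤ 5ρ` as soon as `ρ ≥ c + 1` (true for `B` large). `a₀ = σ(η) σ(η')`, `l = log a₀`, `Λ = log γ`: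
    `phi σ σ β₁ = σ(b₂) σ(x)⁻¹ a₀^r = σ(b₁) γ⁻¹ a₀^r = phi σ σ β₂ · exp(r l - Λ)`.
(5) `l = 0`: Liouville for `T = β₁ - β₂`: `phi T = σ(b₁)(γ⁻¹ - 1) ≠ 0`, `‖phi_{στ} T‖ ≤ 2 exp W ≤ exp(2W)`: `1 ≤ exp(2 W d²) exp(W) ‖γ⁻¹ - 1‖`, so `‖γ - 1‖ ≥ (1/2) exp(-(2 d² + 1) W)`, and `(2 d² + 1) W ≤ 15 M B/q`.
(6) `l ≠ 0`: `|im l| ≤ 1/q` (`harg`); `re l = (log ‖ση‖ - k v σ) + log ‖ση'‖ + k log ‖σ x‖/B`, `log ‖σ x‖ = re Λ - (log ‖σ b₁‖ - log ‖σ b₂‖)`, `|..| ≤ 3/4 + c`, so the last term is `≤ C (1 + c)/B ≤ 1/q` for `B` large. So `‖l‖ ≤ 4/q`; `two_log_frac` (with `E = 2 k + 1`) gives `‖Λ‖ ≥ exp(-45 M B/q)`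
    and the end of the model proof is unchanged: `‖γ - 1‖ ≥ exp(-80 M B/q) ≥ exp(-δ B)`.
-/

set_option autoImplicit false

open NumberField Polynomial Module IntermediateField Metric
open scoped TensorProduct

namespace Pool.Agent.Helper38.TW

open Pool.Agent.Helper13.TU

private theorem wf_coe_mul {K : Type} [Field K] (a b : 𝓞 K) :
    ((a * b : 𝓞 K) : K) = (a : K) * (b : K) := map_mul (algebraMap (𝓞 K) K) a b

private theorem wbf_core {K : Type} [Field K] [NumberField K] {R : ℕ} (P : Prim K R) (p : ℕ)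
    (hp1 : 1 ≤ p)
    (hp : 256 * (8 * finrank ℚ K ^ 2 + 9) * (8 * (finrank ℚ K ^ 2 + 1) * p) ≤ 2 ^ p)
    (b₁ b₂ : 𝓞 K) (hb₁ : b₁ ≠ 0) (hb₂ : b₂ ≠ 0) (c : ℝ) (hc : 0 ≤ c)
    (hcb₁ : ∀ τ : K →+* ℂ, ‖τ (b₁ : K)‖ ≤ Real.exp c)
    (hcb₂ : ∀ τ : K →+* ℂ, ‖τ (b₂ : K)‖ ≤ Real.exp c)
    (hcd : ∀ τ : K →+* ℂ, |Real.log ‖τ (b₁ : K)‖ - Real.log ‖τ (b₂ : K)‖| ≤ c)
    (x : (𝓞 K)ˣ) (σ₁ : K →+* ℂ) (B : ℝ) (hBc : (B0 (finrank ℚ K) R p : ℝ) * (c + 1) ≤ B)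
    (hx : ∀ σ : K →+* ℂ, |Real.log ‖σ ((x : 𝓞 K) : K)‖| ≤ B)
    (hne : σ₁ ((x : 𝓞 K) : K) * σ₁ (b₁ : K) ≠ σ₁ (b₂ : K)) :
    Real.exp (-(80 * (cD (finrank ℚ K ^ 2) : ℝ) * p ^ 2 / 2 ^ p * B)) ≤
      ‖σ₁ ((x : 𝓞 K) : K) * σ₁ (b₁ : K) / σ₁ (b₂ : K) - 1‖ := by
  classical
  have hB : (B0 (finrank ℚ K) R p : ℝ) ≤ B := by
    refine le_trans ?_ hBc
    have h1 : (0 : ℝ) ≤ (B0 (finrank ℚ K) R p : ℝ) := Nat.cast_nonneg _
    have h2 : (B0 (finrank ℚ K) R p : ℝ) * 1 ≤ (B0 (finrank ℚ K) R p : ℝ) * (c + 1) :=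
      mul_le_mul_of_nonneg_left (by linarith) h1
    linarith
  have hσb₁ : σ₁ (b₁ : K) ≠ 0 := (map_ne_zero σ₁).mpr (fun h => hb₁ (RingOfIntegers.ext h))
  have hσb₂ : σ₁ (b₂ : K) ≠ 0 := (map_ne_zero σ₁).mpr (fun h => hb₂ (RingOfIntegers.ext h))
  obtain ⟨y, hy1⟩ : ∃ y : (𝓞 K)ˣ, y = 1 := ⟨1, rfl⟩
  have hyσ : ∀ σ : K →+* ℂ, σ ((y : 𝓞 K) : K) = 1 := by
    intro σ
    rw [hy1]
    simp
  obtain ⟨σ₂, hσ₂⟩ : ∃ σ₂ : K →+* ℂ, σ₂ = σ₁ := ⟨σ₁, rfl⟩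
  set d := finrank ℚ K with hd
  have hd1 : 1 ≤ d := finrank_pos
  set q : ℕ := 2 ^ p with hqdef
  have hq1 : 1 ≤ q := Nat.one_le_two_pow
  have hq2 : 2 ≤ q := by
    calc 2 = 2 ^ 1 := by norm_num
      _ ≤ 2 ^ p := Nat.pow_le_pow_right (by norm_num) hp1
  have hqr : (0 : ℝ) < q := by exact_mod_cast hq1
  set C := cellBd d R q with hC
  have hB0 : (8 * (C : ℝ) ^ 2 * q) ≤ B := by
    have : (B0 d R p : ℝ) = 8 * (C : ℝ) ^ 2 * q := by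
      simp [B0, hC, hqdef]
    rw [← this]; exact hB
  have hd2 : (1 : ℝ) ≤ (d : ℝ) ^ 2 := by
    have : (1 : ℝ) ≤ d := by exact_mod_cast hd1
    exact one_le_pow₀ this
  have hcD : (d : ℝ) ^ 2 ≤ (cD (d ^ 2) : ℝ) := by
    have : d ^ 2 ≤ cD (d ^ 2) := by
      unfold cD
      nlinarith [Nat.zero_le (d ^ 2), Nat.zero_le ((d ^ 2) ^ 2), Nat.zero_le ((d ^ 2) ^ 3),
        Nat.zero_le ((d ^ 2) ^ 4)]
    exact_mod_cast this
  have hC1 : 1 ≤ C := by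
    rw [hC, Nat.one_le_iff_ne_zero]
    unfold cellBd
    positivity
  have hC1' : (1 : ℝ) ≤ C := by exact_mod_cast hC1
  have hBq8 : 8 * (q : ℝ) ≤ B := by
    have h1 : (1 : ℝ) ≤ (C : ℝ) ^ 2 := one_le_pow₀ hC1'
    have h2 : (1 : ℝ) * q ≤ (C : ℝ) ^ 2 * q := mul_le_mul_of_nonneg_right h1 hqr.le
    linarith
  have hBpos : 0 < B := by linarith
  have hy : ∀ σ : K →+* ℂ, |Real.log ‖σ ((y : 𝓞 K) : K)‖| ≤ B := by
    intro σ
    rw [hyσ, norm_one, Real.log_one, abs_zero]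
    exact hBpos.le
  have hBc8 : (8 * (C : ℝ) ^ 2 * q) * (c + 1) ≤ B := by
    have : (B0 d R p : ℝ) = 8 * (C : ℝ) ^ 2 * q := by
      simp [B0, hC, hqdef]
    rw [← this]; exact hBc
  -- the main exponent
  set M : ℝ := (cD (d ^ 2) : ℝ) * (p : ℝ) ^ 2 with hM
  set Bq : ℝ := B / q with hBq
  have hBq1 : 8 ≤ Bq := by rw [hBq, le_div_iff₀ hqr]; exact hBq8
  have hdM : (d : ℝ) ^ 2 ≤ M := by
    have h1 : (1 : ℝ) ≤ (p : ℝ) ^ 2 := by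
      have : (1 : ℝ) ≤ p := by exact_mod_cast hp1
      exact one_le_pow₀ this
    have h2 : (d : ℝ) ^ 2 * 1 ≤ (cD (d ^ 2) : ℝ) * (p : ℝ) ^ 2 :=
      mul_le_mul hcD h1 zero_le_one (by positivity)
    linarith
  have hM1 : 1 ≤ M := le_trans hd2 hdM
  have hG : 80 * (cD (d ^ 2) : ℝ) * p ^ 2 / 2 ^ p * B = 80 * M * Bq := by
    rw [hM, hBq, hqdef]
    push_cast
    ring
  rw [hG]
  have hMB : 8 ≤ M * Bq := by
    have h1 : 1 * 8 ≤ M * Bq := mul_le_mul hM1 hBq1 (by norm_num) (by linarith)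
    linarith
  set γ : ℂ := σ₁ ((x : 𝓞 K) : K) * σ₁ (b₁ : K) / σ₁ (b₂ : K) with hγ
  have hγ0 : γ ≠ 0 := div_ne_zero (mul_ne_zero (wb_unit_ne x σ₁) hσb₁) hσb₂
  have hexp1 : Real.exp (-1) ≤ 1 / 2 := by
    rw [Real.exp_neg, inv_le_comm₀ (Real.exp_pos 1) (by norm_num)]
    have := Real.exp_one_gt_d9
    norm_num
    linarith
  rcases le_or_gt (1 / 2) ‖γ - 1‖ with hbig | hsmall
  · calc Real.exp (-(80 * M * Bq)) ≤ Real.exp (-1) := Real.exp_le_exp.mpr (by linarith)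
      _ ≤ 1 / 2 := hexp1
      _ ≤ ‖γ - 1‖ := hbig
  set v : (K →+* ℂ) → ℝ := fun σ => Real.log ‖σ ((x : 𝓞 K) : K)‖ / B with hv
  set v' : (K →+* ℂ) → ℝ := fun σ => Real.log ‖σ ((y : 𝓞 K) : K)‖ / B with hv'
  obtain ⟨k, hk1, hkC, η, η', hη, hη', harg⟩ := unit_approx P q hq1 v v'
    (fun σ => by simp only [hv, wb_conj])
    (by simp only [hv]; rw [← Finset.sum_div, wb_sum_log, zero_div])
    (fun σ => by simp only [hv', wb_conj])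
    (by simp only [hv']; rw [← Finset.sum_div, wb_sum_log, zero_div]) σ₁ σ₂
  rw [← hd] at hkC
  have hk1' : (1 : ℝ) ≤ k := by exact_mod_cast hk1
  have hkC' : (k : ℝ) ≤ C := by exact_mod_cast hkC
  have hkpos : (0 : ℝ) < k := by linarith
  have hkkq : (k : ℝ) * q * k ≤ B := by
    have h1 : (k : ℝ) * k ≤ C * C := mul_le_mul hkC' hkC' hkpos.le (by linarith)
    have h2 : (k : ℝ) * k * q ≤ C * C * q := mul_le_mul_of_nonneg_right h1 hqr.le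
    have h3 : 0 ≤ (C : ℝ) * C * q := by positivity
    have h4 : (k : ℝ) * q * k = k * k * q := by ring
    have h5 : 8 * (C : ℝ) ^ 2 * q = 8 * (C * C * q) := by ring
    rw [h4]
    rw [h5] at hB0
    linarith
  set r : ℕ := ⌊B / k⌋₊ with hr
  have hkr : (k : ℝ) * q ≤ r := by
    have h : k * q ≤ r := by
      rw [hr]
      apply Nat.le_floor
      rw [le_div_iff₀ hkpos]
      push_cast
      exact hkkq
    exact_mod_cast h
  have hrk : (r : ℝ) * k ≤ B := by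
    have := (wb_floor B k hBpos.le hk1).1
    rw [← hr] at this
    linarith
  -- the ratio `ρ = r / q`
  set ρ : ℝ := r / q with hρ
  have hρk : (k : ℝ) ≤ ρ := by rw [hρ, le_div_iff₀ hqr]; exact hkr
  have hρB : ρ * k ≤ Bq := by
    rw [hρ, hBq, div_mul_eq_mul_div]
    exact div_le_div_of_nonneg_right hrk hqr.le
  have hρ1 : 1 ≤ ρ := le_trans hk1' hρk
  have hρc : c + 1 ≤ ρ := by
    rw [hρ, le_div_iff₀ hqr]
    have h1 : B / k < r + 1 := Nat.lt_floor_add_one _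
    rw [div_lt_iff₀ hkpos] at h1
    have h2 : (k : ℝ) * (8 * q * (c + 1)) ≤ B := by
      refine le_trans ?_ hBc8
      have h3 : (k : ℝ) ≤ (C : ℝ) ^ 2 := by nlinarith
      have h4 : 0 ≤ 8 * (q : ℝ) * (c + 1) := by positivity
      calc (k : ℝ) * (8 * q * (c + 1)) ≤ (C : ℝ) ^ 2 * (8 * q * (c + 1)) :=
            mul_le_mul_of_nonneg_right h3 h4
        _ = (8 * (C : ℝ) ^ 2 * q) * (c + 1) := by ring
    have h5 : (k : ℝ) * (8 * q * (c + 1)) < k * (r + 1) := by linarith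
    have h6 : 8 * (q : ℝ) * (c + 1) < r + 1 := lt_of_mul_lt_mul_left h5 hkpos.le
    have h7 : 1 ≤ (q : ℝ) * (c + 1) := by
      have : (1 : ℝ) ≤ q := by exact_mod_cast hq1
      nlinarith
    nlinarith
  have hρBq : ρ ≤ Bq := by
    have h1 : ρ * 1 ≤ ρ * k := mul_le_mul_of_nonneg_left hk1' (by linarith)
    linarith
  set W : ℕ := ⌈4 * ρ + c⌉₊ with hW
  have hW0 : 4 * ρ + c ≤ W := Nat.le_ceil _
  have hW1 : 4 * ρ ≤ W := by linarith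
  have hWc : c ≤ W := by linarith
  have hW2 : (W : ℝ) < 4 * ρ + c + 1 := Nat.ceil_lt_add_one (by linarith)
  have hW3 : (W : ℝ) ≤ 5 * ρ := by linarith
  have hW4 : 1 ≤ W := by
    have : (1 : ℝ) ≤ W := by linarith
    exact_mod_cast this
  have hqρ : (q : ℝ) * ρ = r := by rw [hρ]; field_simp
  have hxs : ∀ σ : K →+* ℂ,
      |Real.log ‖σ (((x⁻¹ * η ^ r : (𝓞 K)ˣ) : 𝓞 K) : K)‖| ≤ 2 * ρ := fun σ =>
    wb_size x η σ B q k hq1 hk1 hBpos (hx σ) (hη σ) hkr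
  have hys : ∀ σ : K →+* ℂ,
      |Real.log ‖σ (((y⁻¹ * η' ^ r : (𝓞 K)ˣ) : 𝓞 K) : K)‖| ≤ 2 * ρ := fun σ =>
    wb_size y η' σ B q k hq1 hk1 hBpos (hy σ) (hη' σ) hkr
  have hnorm : ∀ (u : (𝓞 K)ˣ) (σ : K →+* ℂ) (t : ℝ),
      |Real.log ‖σ ((u : 𝓞 K) : K)‖| ≤ t → ‖σ ((u : 𝓞 K) : K)‖ ≤ Real.exp t := by
    intro u σ t h
    rw [← Real.log_le_iff_le_exp (wb_norm_pos u σ)]
    exact (abs_le.mp h).2
  set A : 𝓞 K ⊗[ℤ] 𝓞 K := (η : 𝓞 K) ⊗ₜ (η' : 𝓞 K) with hA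
  set β : 𝓞 K ⊗[ℤ] 𝓞 K :=
    (((x⁻¹ * η ^ r : (𝓞 K)ˣ) : 𝓞 K) * b₂) ⊗ₜ ((y⁻¹ * η' ^ r : (𝓞 K)ˣ) : 𝓞 K) with hβ
  set β₂ : 𝓞 K ⊗[ℤ] 𝓞 K := b₁ ⊗ₜ (1 : 𝓞 K) with hβ₂
  have hβ₂v : ∀ σ τ : K →+* ℂ, phi σ τ β₂ = σ (b₁ : K) := by
    intro σ τ
    rw [hβ₂, phi_tmul]
    simp
  have hβ₂bd : ∀ σ τ : K →+* ℂ, ‖phi σ τ β₂‖ ≤ Real.exp W := by
    intro σ τ
    rw [hβ₂v]
    exact (hcb₁ σ).trans (Real.exp_le_exp.mpr hWc)
  have hβbd : ∀ σ τ : K →+* ℂ, ‖phi σ τ β‖ ≤ Real.exp W := by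
    intro σ τ
    rw [hβ, phi_tmul, norm_mul, wf_coe_mul, map_mul, norm_mul]
    calc _ ≤ (Real.exp (2 * ρ) * Real.exp c) * Real.exp (2 * ρ) :=
          mul_le_mul (mul_le_mul (hnorm _ σ _ (hxs σ)) (hcb₂ σ) (norm_nonneg _)
            (Real.exp_pos _).le) (hnorm _ τ _ (hys τ)) (norm_nonneg _) (by positivity)
      _ = Real.exp (4 * ρ + c) := by rw [← Real.exp_add, ← Real.exp_add]; ring_nf
      _ ≤ Real.exp W := Real.exp_le_exp.mpr hW0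
  have h1q : (1 : ℝ) / q ≤ 1 / 2 := by
    apply one_div_le_one_div_of_le (by norm_num)
    exact_mod_cast hq2
  have hvb : ∀ σ, |v σ| ≤ 1 := fun σ => by
    simp only [hv]
    rw [abs_div, abs_of_pos hBpos, div_le_one hBpos]; exact hx σ
  have hvb' : ∀ σ, |v' σ| ≤ 1 := fun σ => by
    simp only [hv']
    rw [abs_div, abs_of_pos hBpos, div_le_one hBpos]; exact hy σ
  have hηb : ∀ σ : K →+* ℂ, |Real.log ‖σ ((η : 𝓞 K) : K)‖| ≤ k + 1 / 2 := by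
    intro σ
    have h1 : |(k : ℝ) * v σ| ≤ k := by
      rw [abs_mul, abs_of_pos hkpos]
      have := mul_le_mul_of_nonneg_left (hvb σ) hkpos.le
      linarith
    have h2 := hη σ
    have h3 : Real.log ‖σ ((η : 𝓞 K) : K)‖ =
      (Real.log ‖σ ((η : 𝓞 K) : K)‖ - k * v σ) + k * v σ := by ring
    rw [h3]
    refine le_trans (abs_add_le _ _) ?_
    linarith
  have hηb' : ∀ σ : K →+* ℂ, |Real.log ‖σ ((η' : 𝓞 K) : K)‖| ≤ k + 1 / 2 := by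
    intro σ
    have h1 : |(k : ℝ) * v' σ| ≤ k := by
      rw [abs_mul, abs_of_pos hkpos]
      have := mul_le_mul_of_nonneg_left (hvb' σ) hkpos.le
      linarith
    have h2 := hη' σ
    have h3 : Real.log ‖σ ((η' : 𝓞 K) : K)‖ =
      (Real.log ‖σ ((η' : 𝓞 K) : K)‖ - k * v' σ) + k * v' σ := by ring
    rw [h3]
    refine le_trans (abs_add_le _ _) ?_
    linarith
  have hAbd : ∀ σ τ : K →+* ℂ, ‖phi σ τ A‖ ≤ Real.exp ((2 * k + 1 : ℕ) : ℝ) := by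
    intro σ τ
    rw [hA, phi_tmul, norm_mul]
    calc _ ≤ Real.exp (k + 1 / 2) * Real.exp (k + 1 / 2) :=
          mul_le_mul (hnorm _ σ _ (hηb σ)) (hnorm _ τ _ (hηb' τ)) (norm_nonneg _)
            (Real.exp_pos _).le
      _ = Real.exp ((2 * k + 1 : ℕ) : ℝ) := by rw [← Real.exp_add]; push_cast; ring_nf
  -- logarithms
  set Λ : ℂ := Complex.log γ with hΛ
  have hexpΛ : Complex.exp Λ = γ := Complex.exp_log hγ0
  have hΛle : ‖Λ‖ ≤ 3 / 2 * ‖γ - 1‖ := by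
    have := Complex.norm_log_one_add_half_le_self (z := γ - 1) hsmall.le
    rwa [add_sub_cancel] at this
  set a₀ : ℂ := σ₁ ((η : 𝓞 K) : K) * σ₂ ((η' : 𝓞 K) : K) with ha₀
  have ha₀0 : a₀ ≠ 0 := mul_ne_zero (wb_unit_ne η σ₁) (wb_unit_ne η' σ₂)
  set l : ℂ := Complex.log a₀ with hl
  have hexpl : Complex.exp l = a₀ := Complex.exp_log ha₀0
  have hphiA : phi σ₁ σ₂ A = Complex.exp l := by rw [hexpl, hA, phi_tmul]
  have hx0 := wb_unit_ne x σ₁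
  have hphiβ : phi σ₁ σ₂ β = σ₁ (b₁ : K) * (γ⁻¹ * a₀ ^ r) := by
    rw [hβ, phi_tmul, wf_coe_mul, map_mul, wb_map_mul, wb_map_mul, wb_map_inv,
      wb_map_inv, wb_map_pow, wb_map_pow, hγ, ha₀, hyσ, mul_pow]
    field_simp
  have hphiβ' : phi σ₁ σ₂ β = phi σ₁ σ₂ β₂ * Complex.exp (r * l - Λ) := by
    rw [hphiβ, hβ₂v, Complex.exp_sub, hexpΛ, Complex.exp_nat_mul, hexpl]
    ring
  by_cases hl0 : l = 0
  · -- Liouville
    have ha1 : a₀ = 1 := by rw [← hexpl, hl0, Complex.exp_zero]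
    have hβγ : phi σ₁ σ₂ (β - β₂) = σ₁ (b₁ : K) * (γ⁻¹ - 1) := by
      rw [map_sub, hphiβ, hβ₂v, ha1, one_pow, mul_one]
      ring
    have hT : ∀ σ τ : K →+* ℂ, ‖phi σ τ (β - β₂)‖ ≤ Real.exp (2 * W) := by
      intro σ τ
      rw [map_sub]
      have h1 : ‖phi σ τ β - phi σ τ β₂‖ ≤ ‖phi σ τ β‖ + Real.exp W :=
        (norm_sub_le _ _).trans (add_le_add le_rfl (hβ₂bd σ τ))
      have h2 : (2 : ℝ) ≤ Real.exp W := by
        have h3 := Real.add_one_le_exp (W : ℝ)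
        have h4 : (1 : ℝ) ≤ W := by exact_mod_cast hW4
        linarith
      have h5 : Real.exp (2 * W) = Real.exp W * Real.exp W := by rw [← Real.exp_add]; ring_nf
      rw [h5]
      have h6 := hβbd σ τ
      have h7 : Real.exp W * 2 ≤ Real.exp W * Real.exp W :=
        mul_le_mul_of_nonneg_left h2 (Real.exp_pos _).le
      linarith
    have hTne : phi σ₁ σ₂ (β - β₂) ≠ 0 := by
      rw [hβγ]
      refine mul_ne_zero hσb₁ fun h => hne ?_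
      have h1 := sub_eq_zero.mp h
      rw [inv_eq_one, hγ, div_eq_one_iff_eq hσb₂] at h1
      exact h1
    have hL := liouville_tensor (β - β₂) σ₁ σ₂ (Real.exp (2 * W))
      (Real.one_le_exp (by positivity)) hT hTne
    rw [← hd, hβγ, norm_mul] at hL
    have hγh : 1 / 2 ≤ ‖γ‖ := by
      have h1 : ‖(1 : ℂ)‖ ≤ ‖γ‖ + ‖1 - γ‖ := by
        calc ‖(1 : ℂ)‖ = ‖γ + (1 - γ)‖ := by ring_nf
          _ ≤ _ := norm_add_le _ _
      rw [norm_one, norm_sub_rev] at h1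
      linarith
    have hinv : ‖γ⁻¹ - 1‖ ≤ 2 * ‖γ - 1‖ := by
      have h1 : γ⁻¹ - 1 = γ⁻¹ * (1 - γ) := by field_simp
      rw [h1, norm_mul, norm_inv, norm_sub_rev 1 γ]
      have h2 : ‖γ‖⁻¹ ≤ 2 := by
        rw [inv_le_comm₀ (by linarith) (by norm_num)]
        linarith
      exact mul_le_mul_of_nonneg_right h2 (norm_nonneg _)
    rw [← Real.exp_nat_mul] at hL
    have h3 : Real.exp (-(((d ^ 2 : ℕ) : ℝ) * (2 * W) + W)) ≤ 2 * ‖γ - 1‖ := by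
      rw [Real.exp_neg, inv_le_iff_one_le_mul₀ (Real.exp_pos _)]
      have hb1W : ‖σ₁ (b₁ : K)‖ ≤ Real.exp W := (hcb₁ σ₁).trans (Real.exp_le_exp.mpr hWc)
      calc (1 : ℝ) ≤ _ := hL
        _ ≤ Real.exp (((d ^ 2 : ℕ) : ℝ) * (2 * W)) * (Real.exp W * (2 * ‖γ - 1‖)) :=
          mul_le_mul_of_nonneg_left (mul_le_mul hb1W hinv (norm_nonneg _) (Real.exp_pos _).le)
            (Real.exp_pos _).le
        _ = _ := by rw [Real.exp_add]; ring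
    have h4 : ((d ^ 2 : ℕ) : ℝ) * (2 * W) + W ≤ 15 * (M * Bq) := by
      push_cast
      have h5 : (W : ℝ) ≤ 5 * Bq := by linarith
      have h6 : (d : ℝ) ^ 2 * W ≤ M * (5 * Bq) := mul_le_mul hdM h5 (by positivity) (by linarith)
      have h7 : (1 : ℝ) * W ≤ M * (5 * Bq) := mul_le_mul hM1 h5 (by positivity) (by linarith)
      linarith
    calc Real.exp (-(80 * M * Bq)) ≤ Real.exp (-1 + -(((d ^ 2 : ℕ) : ℝ) * (2 * W) + W)) :=
          Real.exp_le_exp.mpr (by linarith)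
      _ = Real.exp (-1) * Real.exp (-(((d ^ 2 : ℕ) : ℝ) * (2 * W) + W)) := Real.exp_add _ _
      _ ≤ 1 / 2 * (2 * ‖γ - 1‖) := mul_le_mul hexp1 h3 (Real.exp_pos _).le (by norm_num)
      _ = ‖γ - 1‖ := by ring
  · -- two logarithms
    have hlnorm : ‖l‖ ≤ 4 / 2 ^ p := by
      have him : |l.im| ≤ 1 / q := by
        rw [hl, Complex.log_im]; exact harg
      have hΛre : Real.log ‖σ₁ ((x : 𝓞 K) : K)‖ =
          Λ.re - (Real.log ‖σ₁ (b₁ : K)‖ - Real.log ‖σ₁ (b₂ : K)‖) := by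
        rw [hΛ, Complex.log_re, hγ, norm_div, norm_mul,
          Real.log_div (mul_ne_zero (wb_norm_pos x σ₁).ne' (norm_ne_zero_iff.mpr hσb₁))
            (norm_ne_zero_iff.mpr hσb₂),
          Real.log_mul (wb_norm_pos x σ₁).ne' (norm_ne_zero_iff.mpr hσb₁)]
        ring
      obtain ⟨lam, hlam⟩ : ∃ lam : ℝ, lam = Λ.re - (Real.log ‖σ₁ (b₁ : K)‖ - Real.log ‖σ₁ (b₂ : K)‖) :=
        ⟨_, rfl⟩
      rw [← hlam] at hΛre
      have hΛ34 : |Λ.re| ≤ 3 / 4 := by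
        refine le_trans (Complex.abs_re_le_norm Λ) ?_
        linarith
      have hre : |l.re| ≤ 3 / q := by
        have e1 : l.re = (Real.log ‖σ₁ ((η : 𝓞 K) : K)‖ - k * v σ₁) +
            (Real.log ‖σ₂ ((η' : 𝓞 K) : K)‖ - k * v' σ₂) + k * (lam / B) := by
          rw [hl, Complex.log_re, ha₀, norm_mul,
            Real.log_mul (wb_norm_pos η σ₁).ne' (wb_norm_pos η' σ₂).ne', ← hΛre]
          simp only [hv, hv', hyσ, norm_one, Real.log_one]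
          ring
        have e0 : |lam| ≤ c + 1 := by
          rw [hlam]
          refine (abs_sub _ _).trans ?_
          have := hcd σ₁
          linarith
        have e2 : |(k : ℝ) * (lam / B)| ≤ 1 / q := by
          rw [abs_mul, abs_div, abs_of_pos hkpos, abs_of_pos hBpos, ← mul_div_assoc,
            div_le_div_iff₀ hBpos hqr]
          have h1 : (k : ℝ) * |lam| ≤ C * (c + 1) :=
            mul_le_mul hkC' e0 (abs_nonneg _) (by linarith)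
          have h2 : (k : ℝ) * |lam| * q ≤ C * (c + 1) * q := mul_le_mul_of_nonneg_right h1 hqr.le
          have h3 : (C : ℝ) * (c + 1) * q ≤ 8 * (C : ℝ) ^ 2 * q * (c + 1) := by
            have h4 : (C : ℝ) ≤ 8 * (C : ℝ) ^ 2 := by nlinarith
            have h5 : 0 ≤ (c + 1) * (q : ℝ) := by positivity
            calc (C : ℝ) * (c + 1) * q = C * ((c + 1) * q) := by ring
              _ ≤ 8 * (C : ℝ) ^ 2 * ((c + 1) * q) := mul_le_mul_of_nonneg_right h4 h5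
              _ = _ := by ring
          linarith
        rw [e1]
        refine le_trans (abs_add_le _ _) ?_
        refine le_trans (add_le_add (abs_add_le _ _) le_rfl) ?_
        have h1 := hη σ₁
        have h2 := hη' σ₂
        have h3 : (3 : ℝ) / q = 1 / q + 1 / q + 1 / q := by ring
        rw [h3]
        linarith
      have h1 := Complex.norm_le_abs_re_add_abs_im l
      have h2 : (4 : ℝ) / 2 ^ p = 3 / q + 1 / q := by
        rw [hqdef]; push_cast; ring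
      rw [h2]
      linarith
    have hrr1 : 4 * r ≤ 2 ^ p * W := by
      have h0 : (q : ℝ) * (4 * ρ) ≤ q * W := mul_le_mul_of_nonneg_left hW1 hqr.le
      have : (4 : ℝ) * r ≤ q * W := by linarith
      exact_mod_cast this
    have hrr2 : 2 ^ p * W ≤ 8 * r := by
      have h0 : (q : ℝ) * W ≤ q * (5 * ρ) := mul_le_mul_of_nonneg_left hW3 hqr.le
      have h1 : 0 ≤ (r : ℝ) := by positivity
      have : (q : ℝ) * W ≤ 8 * r := by linarith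
      exact_mod_cast this
    have key := two_log_frac (S := 𝓞 K ⊗[ℤ] 𝓞 K) (ι := (K →+* ℂ) × (K →+* ℂ))
      (fun s => phi s.1 s.2) (d ^ 2) (Nat.one_le_pow _ _ hd1)
      (fun T s₀ H hH h hne => liouville_tensor T s₀.1 s₀.2 H hH (fun σ τ => h (σ, τ)) hne)
      A β β₂ (σ₁, σ₂) p (2 * k + 1) W r hp1 hp (by omega) hW4 hrr1 hrr2
      (fun s => hAbd s.1 s.2) (fun s => hβbd s.1 s.2) (fun s => hβ₂bd s.1 s.2) l Λ hphiA
      (by rw [hβ₂v]; exact hσb₁) hphiβ' hl0 hlnorm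
    have h4 : 3 * ((cD (d ^ 2) : ℝ) * p ^ 2 * ((2 * k + 1 : ℕ) : ℝ) * W) ≤ 45 * (M * Bq) := by
      rw [← hM]
      push_cast
      have h5 : ((2 : ℝ) * k + 1) * W ≤ 15 * Bq := by
        have h6 : ((2 : ℝ) * k + 1) * W ≤ (3 * k) * (5 * ρ) :=
          mul_le_mul (by linarith) hW3 (by positivity) (by positivity)
        have h8 : (3 * (k : ℝ)) * (5 * ρ) = 15 * (ρ * k) := by ring
        linarith
      have h7 : M * (((2 : ℝ) * k + 1) * W) ≤ M * (15 * Bq) :=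
        mul_le_mul_of_nonneg_left h5 (by linarith)
      linarith
    calc Real.exp (-(80 * M * Bq)) ≤ Real.exp (-1 + -(3 * ((cD (d ^ 2) : ℝ) * p ^ 2 *
            ((2 * k + 1 : ℕ) : ℝ) * W))) := Real.exp_le_exp.mpr (by linarith)
      _ = Real.exp (-1) * Real.exp (-(3 * ((cD (d ^ 2) : ℝ) * p ^ 2 *
            ((2 * k + 1 : ℕ) : ℝ) * W))) := Real.exp_add _ _
      _ ≤ 1 / 2 * ‖Λ‖ := mul_le_mul hexp1 key (Real.exp_pos _).le (by norm_num)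
      _ ≤ 1 / 2 * (3 / 2 * ‖γ - 1‖) := by linarith
      _ ≤ ‖γ - 1‖ := by linarith [norm_nonneg (γ - 1)]


theorem exists_prim (K : Type) [Field K] [NumberField K] : ∃ R : ℕ, Nonempty (Prim K R) := by
  classical
  obtain ⟨α, hα⟩ := Field.exists_primitive_element ℚ K
  obtain ⟨m, hm, hmi⟩ := ((IsFractionRing.isAlgebraic_iff ℤ ℚ K).mpr
    (Algebra.IsAlgebraic.isAlgebraic (R := ℚ) α)).exists_integral_multiple
  obtain ⟨R, hR⟩ : ∃ R : ℕ, R = ⌈∑ σ : K →+* ℂ, ‖σ (m • α)‖⌉₊ + 1 := ⟨_, rfl⟩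
  refine ⟨R, ⟨⟨⟨m • α, hmi⟩, ?_, by omega, ?_⟩⟩⟩
  · change ℚ⟮m • α⟯ = ⊤
    rw [eq_top_iff, ← hα, IntermediateField.adjoin_simple_le_iff]
    have h1 : (m • α : K) ∈ ℚ⟮m • α⟯ := IntermediateField.mem_adjoin_simple_self ℚ _
    have h2 : α = (m : ℚ)⁻¹ • (m • α) := by
      rw [← Int.cast_smul_eq_zsmul ℚ m α, smul_smul, inv_mul_cancel₀ (by exact_mod_cast hm),
        one_smul]
    have h3 : (m : ℚ)⁻¹ • (m • α) ∈ ℚ⟮m • α⟯ := IntermediateField.smul_mem _ h1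
    rwa [← h2] at h3
  · intro σ
    change ‖σ (m • α)‖ ≤ (R : ℝ)
    have h1 : ‖σ (m • α)‖ ≤ ∑ σ : K →+* ℂ, ‖σ (m • α)‖ :=
      Finset.single_le_sum (f := fun σ : K →+* ℂ => ‖σ (m • α)‖) (fun _ _ => norm_nonneg _)
        (Finset.mem_univ σ)
    have h2 := Nat.le_ceil (∑ σ : K →+* ℂ, ‖σ (m • α)‖)
    rw [hR]
    push_cast
    linarith

private theorem exists_p (a b : ℝ) (ha : 0 < a) (n : ℕ) : ∃ p : ℕ, 1 ≤ p ∧ n * p ≤ 2 ^ p ∧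
    b * (p : ℝ) ^ 2 / 2 ^ p ≤ a := by
  have h1 : Filter.Tendsto (fun p : ℕ => (n : ℝ) * ((p : ℝ) ^ 1 / (2 : ℝ) ^ p)) Filter.atTop
      (nhds ((n : ℝ) * 0)) :=
    (tendsto_pow_const_div_const_pow_of_one_lt 1 (by norm_num : (1 : ℝ) < 2)).const_mul _
  have h2 : Filter.Tendsto (fun p : ℕ => b * ((p : ℝ) ^ 2 / (2 : ℝ) ^ p)) Filter.atTop
      (nhds (b * 0)) :=
    (tendsto_pow_const_div_const_pow_of_one_lt 2 (by norm_num : (1 : ℝ) < 2)).const_mul _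
  rw [mul_zero] at h1 h2
  have h3 := h1.eventually (ge_mem_nhds (by norm_num : (0 : ℝ) < 1))
  have h4 := h2.eventually (ge_mem_nhds ha)
  obtain ⟨p, hp1, hp2, hp3⟩ := ((Filter.eventually_ge_atTop 1).and (h3.and h4)).exists
  refine ⟨p, hp1, ?_, ?_⟩
  · have h5 : (n : ℝ) * ((p : ℝ) ^ 1 / (2 : ℝ) ^ p) ≤ 1 := hp2
    rw [pow_one, ← mul_div_assoc, div_le_one (by positivity)] at h5
    exact_mod_cast h5
  · have h5 : b * ((p : ℝ) ^ 2 / (2 : ℝ) ^ p) ≤ a := hp3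
    rwa [← mul_div_assoc] at h5

theorem weak_baker_frac (K : Type) [Field K] [NumberField K] (b₁ b₂ : 𝓞 K) (hb₁ : b₁ ≠ 0)
    (hb₂ : b₂ ≠ 0) (δ : ℝ) (hδ : 0 < δ) :
    ∃ B₁ : ℝ, ∀ (x : (𝓞 K)ˣ) (σ : K →+* ℂ) (B : ℝ), B₁ ≤ B →
      (∀ τ : K →+* ℂ, |Real.log ‖τ ((x : 𝓞 K) : K)‖| ≤ B) →
      σ ((x : 𝓞 K) : K) * σ (b₁ : K) ≠ σ (b₂ : K) →
      Real.exp (-(δ * B)) ≤ ‖σ ((x : 𝓞 K) : K) * σ (b₁ : K) / σ (b₂ : K) - 1‖ := by
  classical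
  obtain ⟨R, ⟨P⟩⟩ := exists_prim K
  obtain ⟨p, hp1, hp2, hp3⟩ := exists_p δ (80 * (cD (finrank ℚ K ^ 2) : ℝ)) hδ
    (256 * (8 * finrank ℚ K ^ 2 + 9) * (8 * (finrank ℚ K ^ 2 + 1)))
  obtain ⟨c, hc⟩ : ∃ c : ℝ, c = ∑ τ : K →+* ℂ,
    (|Real.log ‖τ (b₁ : K)‖| + |Real.log ‖τ (b₂ : K)‖|) := ⟨_, rfl⟩
  have hc1 : ∀ τ : K →+* ℂ, |Real.log ‖τ (b₁ : K)‖| + |Real.log ‖τ (b₂ : K)‖| ≤ c := by
    intro τ
    rw [hc]
    exact Finset.single_le_sum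
      (f := fun τ : K →+* ℂ => |Real.log ‖τ (b₁ : K)‖| + |Real.log ‖τ (b₂ : K)‖|)
      (fun _ _ => by positivity) (Finset.mem_univ τ)
  have hc0 : 0 ≤ c := by
    rw [hc]
    exact Finset.sum_nonneg fun _ _ => by positivity
  have hne : ∀ (b : 𝓞 K), b ≠ 0 → ∀ τ : K →+* ℂ, 0 < ‖τ (b : K)‖ := fun b hb τ =>
    norm_pos_iff.mpr ((map_ne_zero τ).mpr (fun h => hb (RingOfIntegers.ext h)))
  have hle : ∀ (b : 𝓞 K), b ≠ 0 → ∀ τ : K →+* ℂ, |Real.log ‖τ (b : K)‖| ≤ c →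
      ‖τ (b : K)‖ ≤ Real.exp c := by
    intro b hb τ h
    rw [← Real.log_le_iff_le_exp (hne b hb τ)]
    exact (abs_le.mp h).2
  refine ⟨(B0 (finrank ℚ K) R p : ℝ) * (c + 1), fun x σ B hB hx hxb => ?_⟩
  have h1 := wbf_core P p hp1 (by rw [← mul_assoc]; exact hp2) b₁ b₂ hb₁ hb₂ c hc0
    (fun τ => hle b₁ hb₁ τ (by have := hc1 τ; have := abs_nonneg (Real.log ‖τ (b₂ : K)‖); linarith))
    (fun τ => hle b₂ hb₂ τ (by have := hc1 τ; have := abs_nonneg (Real.log ‖τ (b₁ : K)‖); linarith))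
    (fun τ => (abs_sub _ _).trans (hc1 τ)) x σ B hB hx hxb
  refine le_trans (Real.exp_le_exp.mpr ?_) h1
  have h2 : 0 ≤ B := by
    refine le_trans ?_ hB
    have : (0 : ℝ) ≤ (B0 (finrank ℚ K) R p : ℝ) := Nat.cast_nonneg _
    positivity
  have h3 := mul_le_mul_of_nonneg_right hp3 h2
  linarith

end Pool.Agent.Helper38.TW
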