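import Mathlib
import Pool.Agent.Helper38.TW.WeakBakerFrac

/-!
# TW-S3: the unit equation `a x + b y = 1` has finitely many solutions

`a, b ∈ K` nonzero; write `a = b₁/b₂` with `b₁, b₂ ∈ 𝓞_K` nonzero. `d = [K : ℚ]` embeddings `σ : K → ℂ`. Let `(x, y)` be units with `a x + b y = 1`, `B' = max_σ |log ‖σ y‖|`, `B = max_σ |log ‖σ x‖|`. `∑_σ log ‖σ y‖ = 0` (`Pool.Agent.Helper13.TU.wb_sum_log`).
(1) There is `σ` with `log ‖σ y‖ ≤ -B'/d`: if the maximum `B'` is attained by a negative value clear; otherwise some `log ‖τ y‖ = B'` and the other `d - 1` numbers sum to `-B'`, so one is `≤ -B'/(d-1) ≤ -B'/d` (`d ≥ 2` if `B' > 0`).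
(2) for all `τ`: `‖τ a‖ ‖τ x‖ ≤ 1 + ‖τ b‖ ‖τ y‖`, so `log ‖τ x‖ ≤ B' + c` (`c` depends on `a, b` only), and because the sum of the `log ‖τ x‖` is `0`: `B ≤ d (B' + c)`.
(3) for the `σ` of (1): `‖σ x σ b₁/σ b₂ - 1‖ = ‖σ b‖ ‖σ y‖ ≤ c' exp(-B'/d)`, and it is `≠ 0` since `b y ≠ 0`. `weak_baker_frac` with `δ = 1/(2 d²)` and `d (B' + c)` in place of `B` (if `d (B' + c) ≥ B₁`): `exp(-(B' + c)/(2 d)) ≤ c' exp(-B'/d)`, so `B'` is bounded by a constant. Then `B` is bounded too.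
(4) finitely many units have all conjugates bounded (`NumberField.Embeddings.finite_of_norm_le`), and `y` is determined by `x`.
-/

set_option autoImplicit false

open NumberField

namespace Pool.Agent.Helper38.TW

/-- if the numbers `g σ` have sum `0` and `|g σ| ≤ |g τ|` for all `σ`, some `g σ` is at most `-|g τ|/d` -/
private lemma s3_min {ι : Type} [Fintype ι] (g : ι → ℝ) (hg : ∑ i, g i = 0) (t : ι) :
    ∃ i, g i ≤ -(|g t| / Fintype.card ι) := by
  by_contra hcon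
  push Not at hcon
  have hne : Nonempty ι := ⟨t⟩
  have hd : (0 : ℝ) < Fintype.card ι := by exact_mod_cast Fintype.card_pos
  have hd1 : (1 : ℝ) ≤ Fintype.card ι := by exact_mod_cast Fintype.card_pos
  have hB : 0 ≤ |g t| := abs_nonneg _
  have hBd : 0 ≤ |g t| / Fintype.card ι := by positivity
  have hsum : ∑ i, (g i + |g t| / Fintype.card ι) = |g t| := by
    rw [Finset.sum_add_distrib, hg, zero_add, Finset.sum_const, Finset.card_univ, nsmul_eq_mul]
    field_simp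
  have hpos : ∀ i, 0 < g i + |g t| / Fintype.card ι := fun i => by linarith [hcon i]
  have hle : g t + |g t| / Fintype.card ι ≤ |g t| :=
    (Finset.single_le_sum (f := fun i => g i + |g t| / Fintype.card ι)
      (fun i _ => (hpos i).le) (Finset.mem_univ t)).trans (le_of_eq hsum)
  have hdiv : |g t| / Fintype.card ι ≤ |g t| := div_le_self hB hd1
  rcases le_total 0 (g t) with h | h
  · rw [abs_of_nonneg h] at hle hsum hdiv
    have h1 : g t / Fintype.card ι ≤ 0 := by linarith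
    have h2 : g t ≤ 0 := by
      rw [div_le_iff₀ hd, zero_mul] at h1
      exact h1
    have h3 : g t = 0 := le_antisymm h2 h
    have h4 := hpos t
    rw [h3] at h4
    simp at h4
  · have h1 := hcon t
    rw [abs_of_nonpos h] at h1 hdiv
    linarith

theorem unit_eq (K : Type) [Field K] [NumberField K] (a b : K) (ha : a ≠ 0) (hb : b ≠ 0) :
    {x : (𝓞 K)ˣ × (𝓞 K)ˣ | a * ((x.1 : 𝓞 K) : K) + b * ((x.2 : 𝓞 K) : K) = 1}.Finite := by
  classical
  obtain ⟨b₁, b₂, hb₂, hab⟩ := IsFractionRing.div_surjective (A := 𝓞 K) a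
  have hb₂0 : b₂ ≠ 0 := nonZeroDivisors.ne_zero hb₂
  have hb₂K : (b₂ : K) ≠ 0 := by
    intro h
    apply hb₂0
    exact_mod_cast h
  have hb₁0 : b₁ ≠ 0 := by
    rintro rfl
    apply ha
    rw [← hab, map_zero, zero_div]
  obtain ⟨d, hd⟩ : ∃ d : ℝ, d = Fintype.card (K →+* ℂ) := ⟨_, rfl⟩
  have hne : Nonempty (K →+* ℂ) := inferInstance
  have hd1 : 1 ≤ d := by
    rw [hd]
    exact_mod_cast Fintype.card_pos
  have hd0 : 0 < d := by linarith
  obtain ⟨B₁, hB₁⟩ := weak_baker_frac K b₁ b₂ hb₁0 hb₂0 (1 / (2 * d ^ 2)) (by positivity)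
  have hna : ∀ τ : K →+* ℂ, 0 < ‖τ a‖ := fun τ => norm_pos_iff.2 ((map_ne_zero τ).2 ha)
  have hnb : ∀ τ : K →+* ℂ, 0 < ‖τ b‖ := fun τ => norm_pos_iff.2 ((map_ne_zero τ).2 hb)
  obtain ⟨c, hc⟩ : ∃ c : ℝ, c = ∑ τ : K →+* ℂ, |Real.log ((1 + ‖τ b‖) / ‖τ a‖)| := ⟨_, rfl⟩
  have hc0 : 0 ≤ c := by
    rw [hc]
    exact Finset.sum_nonneg fun _ _ => abs_nonneg _
  have hcτ : ∀ τ : K →+* ℂ, Real.log ((1 + ‖τ b‖) / ‖τ a‖) ≤ c := by
    intro τ
    rw [hc]
    exact (le_abs_self _).trans (Finset.single_le_sum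
      (f := fun τ : K →+* ℂ => |Real.log ((1 + ‖τ b‖) / ‖τ a‖)|)
      (fun _ _ => abs_nonneg _) (Finset.mem_univ τ))
  obtain ⟨c₂, hc₂⟩ : ∃ c₂ : ℝ, c₂ = ∑ τ : K →+* ℂ, ‖τ b‖ := ⟨_, rfl⟩
  have hc₂τ : ∀ τ : K →+* ℂ, ‖τ b‖ ≤ c₂ := by
    intro τ
    rw [hc₂]
    exact Finset.single_le_sum (f := fun τ : K →+* ℂ => ‖τ b‖)
      (fun _ _ => norm_nonneg _) (Finset.mem_univ τ)
  have hc₂0 : 0 < c₂ := by
    obtain ⟨τ⟩ := hne
    exact (hnb τ).trans_le (hc₂τ τ)
  obtain ⟨M, hM⟩ : ∃ M : ℝ, M = |B₁| + 2 * d * |Real.log c₂| + c + c := ⟨_, rfl⟩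
  have key : ∀ x y : (𝓞 K)ˣ, a * ((x : 𝓞 K) : K) + b * ((y : 𝓞 K) : K) = 1 →
      ∀ τ : K →+* ℂ, Real.log ‖τ ((x : 𝓞 K) : K)‖ ≤ M := by
    intro x y hxy
    have hx0 : ∀ τ : K →+* ℂ, 0 < ‖τ ((x : 𝓞 K) : K)‖ :=
      Pool.Agent.Helper13.TU.wb_norm_pos x
    have hy0 : ∀ τ : K →+* ℂ, 0 < ‖τ ((y : 𝓞 K) : K)‖ :=
      Pool.Agent.Helper13.TU.wb_norm_pos y
    have hsx := Pool.Agent.Helper13.TU.wb_sum_log x
    have hsy := Pool.Agent.Helper13.TU.wb_sum_log y
    obtain ⟨t, -, ht⟩ := Finset.exists_max_image (Finset.univ : Finset (K →+* ℂ))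
      (fun σ => |Real.log ‖σ ((y : 𝓞 K) : K)‖|) Finset.univ_nonempty
    obtain ⟨B', hB'⟩ : ∃ B' : ℝ, B' = |Real.log ‖t ((y : 𝓞 K) : K)‖| := ⟨_, rfl⟩
    have hB'0 : 0 ≤ B' := by
      rw [hB']
      exact abs_nonneg _
    have hyB : ∀ τ : K →+* ℂ, Real.log ‖τ ((y : 𝓞 K) : K)‖ ≤ B' := by
      intro τ
      rw [hB']
      exact (le_abs_self _).trans (ht τ (Finset.mem_univ τ))
    obtain ⟨σ, hσ⟩ := s3_min (fun σ : K →+* ℂ => Real.log ‖σ ((y : 𝓞 K) : K)‖) hsy t
    rw [← hB', ← hd] at hσ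
    -- the size of `x`
    have hxB : ∀ τ : K →+* ℂ, Real.log ‖τ ((x : 𝓞 K) : K)‖ ≤ B' + c := by
      intro τ
      have h1 : τ a * τ ((x : 𝓞 K) : K) = 1 - τ b * τ ((y : 𝓞 K) : K) := by
        have h2 := congrArg τ hxy
        rw [map_add, map_mul, map_mul, map_one] at h2
        rw [← h2]
        ring
      have h2 : ‖τ a‖ * ‖τ ((x : 𝓞 K) : K)‖ ≤ 1 + ‖τ b‖ * ‖τ ((y : 𝓞 K) : K)‖ := by
        rw [← norm_mul, ← norm_mul, h1]
        refine (norm_sub_le _ _).trans ?_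
        rw [norm_one]
      have h3 : ‖τ ((y : 𝓞 K) : K)‖ ≤ Real.exp B' := by
        rw [← Real.exp_log (hy0 τ)]
        exact Real.exp_le_exp.2 (hyB τ)
      have h4 : 1 ≤ Real.exp B' := Real.one_le_exp hB'0
      have h5 : ‖τ ((x : 𝓞 K) : K)‖ ≤ (1 + ‖τ b‖) / ‖τ a‖ * Real.exp B' := by
        rw [div_mul_eq_mul_div, le_div_iff₀ (hna τ)]
        have h6 := mul_le_mul_of_nonneg_left h3 (norm_nonneg (τ b))
        nlinarith
      have h6 : 0 < (1 + ‖τ b‖) / ‖τ a‖ := div_pos (by linarith [hnb τ]) (hna τ)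
      calc Real.log ‖τ ((x : 𝓞 K) : K)‖ ≤ Real.log ((1 + ‖τ b‖) / ‖τ a‖ * Real.exp B') :=
            Real.log_le_log (hx0 τ) h5
        _ = Real.log ((1 + ‖τ b‖) / ‖τ a‖) + B' := by
            rw [Real.log_mul h6.ne' (Real.exp_pos _).ne', Real.log_exp]
        _ ≤ B' + c := by linarith [hcτ τ]
    have hBc : 0 ≤ B' + c := by linarith
    have hxabs : ∀ τ : K →+* ℂ, |Real.log ‖τ ((x : 𝓞 K) : K)‖| ≤ d * (B' + c) := by
      intro τ
      rw [abs_le]
      constructor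
      · have h1 : ∑ σ : K →+* ℂ, (B' + c - Real.log ‖σ ((x : 𝓞 K) : K)‖) = d * (B' + c) := by
          rw [Finset.sum_sub_distrib, hsx, sub_zero, Finset.sum_const, Finset.card_univ,
            nsmul_eq_mul, ← hd]
        have h2 : B' + c - Real.log ‖τ ((x : 𝓞 K) : K)‖ ≤ d * (B' + c) := by
          rw [← h1]
          exact Finset.single_le_sum
            (f := fun σ : K →+* ℂ => B' + c - Real.log ‖σ ((x : 𝓞 K) : K)‖)
            (fun σ _ => by linarith [hxB σ]) (Finset.mem_univ τ)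
        linarith
      · have h1 := hxB τ
        nlinarith
    -- the bound for `B'`
    have hB'M : B' ≤ |B₁| + 2 * d * |Real.log c₂| + c := by
      have hl0 : 0 ≤ 2 * d * |Real.log c₂| := by positivity
      by_cases hlt : d * (B' + c) < B₁
      · have h1 : B' ≤ d * (B' + c) := by nlinarith
        have h2 := le_abs_self B₁
        linarith
      · push Not at hlt
        have h1 : σ ((x : 𝓞 K) : K) * σ (b₁ : K) / σ (b₂ : K) - 1 =
            -(σ b * σ ((y : 𝓞 K) : K)) := by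
          have h2 := congrArg σ hxy
          rw [map_add, map_mul, map_mul, map_one, ← hab, map_div₀] at h2
          have h3 : σ (algebraMap (𝓞 K) K b₂) ≠ 0 := (map_ne_zero σ).2 hb₂K
          have h4 : σ ((x : 𝓞 K) : K) * σ (b₁ : K) / σ (b₂ : K) =
              σ (algebraMap (𝓞 K) K b₁) / σ (algebraMap (𝓞 K) K b₂) * σ ((x : 𝓞 K) : K) := by
            rw [mul_comm (σ ((x : 𝓞 K) : K)), mul_div_right_comm]
          rw [h4, ← h2]
          ring
        have h2 : σ ((x : 𝓞 K) : K) * σ (b₁ : K) ≠ σ (b₂ : K) := by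
          intro h3
          rw [h3, div_self ((map_ne_zero σ).2 hb₂K), sub_self] at h1
          have h4 : σ b * σ ((y : 𝓞 K) : K) = 0 := by
            have := h1.symm
            rwa [neg_eq_zero] at this
          rcases mul_eq_zero.1 h4 with h5 | h5
          · exact (map_ne_zero σ).2 hb h5
          · exact (norm_pos_iff.1 (hy0 σ)) h5
        have h3 := hB₁ x σ (d * (B' + c)) hlt hxabs h2
        rw [h1, norm_neg, norm_mul] at h3
        have h4 : ‖σ ((y : 𝓞 K) : K)‖ ≤ Real.exp (-(B' / d)) := by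
          rw [← Real.exp_log (hy0 σ)]
          exact Real.exp_le_exp.2 hσ
        have h5 : Real.exp (-(1 / (2 * d ^ 2) * (d * (B' + c)))) ≤
            Real.exp (Real.log c₂ + -(B' / d)) := by
          rw [Real.exp_add, Real.exp_log hc₂0]
          exact h3.trans (mul_le_mul (hc₂τ σ) h4 (norm_nonneg _) hc₂0.le)
        have h6 := Real.exp_le_exp.1 h5
        have h7 : 1 / (2 * d ^ 2) * (d * (B' + c)) = (B' + c) / (2 * d) := by
          field_simp
        rw [h7] at h6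
        have h8 : B' / d = 2 * (B' / (2 * d)) := by
          field_simp
        have h9 : (B' + c) / (2 * d) = B' / (2 * d) + c / (2 * d) := add_div _ _ _
        have h10 : B' / (2 * d) ≤ Real.log c₂ + c / (2 * d) := by linarith
        have h11 : B' ≤ (Real.log c₂ + c / (2 * d)) * (2 * d) :=
          (div_le_iff₀ (by positivity)).1 h10
        have h12 : (Real.log c₂ + c / (2 * d)) * (2 * d) = 2 * d * Real.log c₂ + c := by
          field_simp
        have h13 : 2 * d * Real.log c₂ ≤ 2 * d * |Real.log c₂| :=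
          mul_le_mul_of_nonneg_left (le_abs_self _) (by positivity)
        have h14 := abs_nonneg B₁
        linarith
    intro τ
    have h1 := hxB τ
    rw [hM]
    linarith
  -- finiteness
  have hfin := NumberField.Embeddings.finite_of_norm_le K ℂ (Real.exp M)
  refine Set.Finite.of_finite_image (f := fun x : (𝓞 K)ˣ × (𝓞 K)ˣ => ((x.1 : 𝓞 K) : K))
    (hfin.subset ?_) ?_
  · rintro _ ⟨⟨x, y⟩, hxy, rfl⟩
    refine ⟨RingOfIntegers.isIntegral_coe _, fun φ => ?_⟩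
    have h1 := key x y hxy φ
    have h2 := Pool.Agent.Helper13.TU.wb_norm_pos x φ
    rw [← Real.exp_log h2]
    exact Real.exp_le_exp.2 h1
  · rintro ⟨x, y⟩ hxy ⟨x', y'⟩ hxy' heq
    simp only at heq
    have h1 : a * ((x : 𝓞 K) : K) + b * ((y : 𝓞 K) : K) = 1 := hxy
    have h2 : a * ((x' : 𝓞 K) : K) + b * ((y' : 𝓞 K) : K) = 1 := hxy'
    rw [heq] at h1
    have h3 : b * ((y : 𝓞 K) : K) = b * ((y' : 𝓞 K) : K) := by
      rw [← h2] at h1
      exact add_left_cancel h1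
    have h4 : ((y : 𝓞 K) : K) = ((y' : 𝓞 K) : K) := mul_left_cancel₀ hb h3
    have h5 : x = x' := Units.ext (RingOfIntegers.ext heq)
    have h6 : y = y' := Units.ext (RingOfIntegers.ext h4)
    rw [h5, h6]

end Pool.Agent.Helper38.TW
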