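import Mathlib
import Pool.Agent.Helper38.TW.UnitEq
import Pool.Agent.Helper38.TW.SelFin

/-!
# TW-S5: Siegel's identity

`ξ₁² - ξ₂² = δ₁₂`, `ξ₁² - ξ₃² = δ₁₃` with fixed `δ₁₂, δ₁₃ ≠ 0`, `δ₁₂ ≠ δ₁₃`, in the ring of integers of `L`. CLAIM: finitely many `(ξ₁, ξ₂, ξ₃)`.
`ξ₂² - ξ₃² = δ₁₃ - δ₁₂ =: δ₂₃ ≠ 0`. The six numbers `ξ₁ ± ξ₂ ∣ δ₁₂`, `ξ₁ ± ξ₃ ∣ δ₁₃`, `ξ₂ ± ξ₃ ∣ δ₂₃` are nonzero and by `divisors_mod_units` each is `μ ε` with `μ` in a finite set `M` of nonzero elements and a unit `ε`.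
From `(ξ₁ - ξ₂) + (ξ₂ - ξ₃) = ξ₁ - ξ₃`: `t = (ξ₁ - ξ₂)/(ξ₁ - ξ₃)`, `1 - t = (ξ₂ - ξ₃)/(ξ₁ - ξ₃)`: `t = (μ₁/μ₃) ε₁ ε₃⁻¹`, `1 - t = (μ₂/μ₃) ε₂ ε₃⁻¹`, so `(μ₁/μ₃) x + (μ₂/μ₃) y = 1` with units `x, y`: `unit_eq` for each of the finitely many `(μ₁, μ₂, μ₃)`: `t` is in a finite set.
In the same way (replace `ξ₃` by `-ξ₃`) `s = (ξ₁ - ξ₂)/(ξ₁ + ξ₃)` is in a finite set. Then `(ξ₁ - ξ₂)² = t s (ξ₁² - ξ₃²) = t s δ₁₃` is in a finite set, so `ξ₁ - ξ₂` is, then `ξ₁ + ξ₂ = δ₁₂/(ξ₁ - ξ₂)`, `ξ₁`, `ξ₂`, and `ξ₃² = ξ₁² - δ₁₃`, `ξ₃`.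
-/

set_option autoImplicit false

open NumberField

namespace Pool.Agent.Helper38.TW

private lemma si_sq_finite {L : Type} [Field L] {S : Set L} (hS : S.Finite) :
    {w : L | w ^ 2 ∈ S}.Finite := by
  have h : {w : L | w ^ 2 ∈ S} ⊆ ⋃ c ∈ S, {w : L | w ^ 2 = c} := by
    intro w hw
    simp only [Set.mem_iUnion]
    exact ⟨w ^ 2, hw, rfl⟩
  refine (hS.biUnion fun c _ => ?_).subset h
  by_cases hne : ∃ w0 : L, w0 ^ 2 = c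
  · obtain ⟨w0, hw0⟩ := hne
    refine (Set.toFinite ({w0, -w0} : Set L)).subset ?_
    intro w hw
    change w ^ 2 = c at hw
    rw [← hw0, sq_eq_sq_iff_eq_or_eq_neg] at hw
    exact hw
  · have : {w : L | w ^ 2 = c} = ∅ := by
      ext w
      simp only [Set.mem_ofPred_eq, Set.mem_empty_iff_false, iff_false]
      exact fun hw => hne ⟨w, hw⟩
    rw [this]
    exact Set.finite_empty

private lemma si_cm {L : Type} [Field L] (a b : 𝓞 L) : ((a * b : 𝓞 L) : L) = (a : L) * (b : L) :=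
  map_mul (algebraMap (𝓞 L) L) a b

private lemma si_ca {L : Type} [Field L] (a b : 𝓞 L) : ((a + b : 𝓞 L) : L) = (a : L) + (b : L) :=
  map_add (algebraMap (𝓞 L) L) a b

private lemma si_cs {L : Type} [Field L] (a b : 𝓞 L) : ((a - b : 𝓞 L) : L) = (a : L) - (b : L) :=
  map_sub (algebraMap (𝓞 L) L) a b

private lemma si_cp {L : Type} [Field L] (a : 𝓞 L) (n : ℕ) :
    ((a ^ n : 𝓞 L) : L) = (a : L) ^ n :=
  map_pow (algebraMap (𝓞 L) L) a n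

private lemma si_c1 {L : Type} [Field L] : ((1 : 𝓞 L) : L) = 1 :=
  map_one (algebraMap (𝓞 L) L)

private lemma si_ratio (L : Type) [Field L] [NumberField L] (δa δb δc : 𝓞 L) (ha : δa ≠ 0)
    (hb : δb ≠ 0) (hc : δc ≠ 0) :
    {t : L | ∃ x y z : 𝓞 L, x ∣ δa ∧ y ∣ δb ∧ z ∣ δc ∧ x + y = z ∧ t = (x : L) / (z : L)}.Finite := by
  obtain ⟨Ma, hMa, ha'⟩ := divisors_mod_units L δa ha
  obtain ⟨Mb, hMb, hb'⟩ := divisors_mod_units L δb hb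
  obtain ⟨Mc, hMc, hc'⟩ := divisors_mod_units L δc hc
  have hinj : Function.Injective (algebraMap (𝓞 L) L) := FaithfulSMul.algebraMap_injective (𝓞 L) L
  have h0 : ∀ x : 𝓞 L, x ≠ 0 → (x : L) ≠ 0 := by
    intro x hx h
    exact hx ((map_eq_zero_iff _ hinj).1 h)
  let F : 𝓞 L × 𝓞 L × 𝓞 L → Set L := fun p =>
    (fun u : (𝓞 L)ˣ × (𝓞 L)ˣ => (p.1 : L) / (p.2.2 : L) * ((u.1 : 𝓞 L) : L)) ''
      {u : (𝓞 L)ˣ × (𝓞 L)ˣ | (p.1 : L) / (p.2.2 : L) * ((u.1 : 𝓞 L) : L) +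
        (p.2.1 : L) / (p.2.2 : L) * ((u.2 : 𝓞 L) : L) = 1}
  have hF : (⋃ p ∈ ((Ma ×ˢ Mb ×ˢ Mc : Finset (𝓞 L × 𝓞 L × 𝓞 L)) : Set (𝓞 L × 𝓞 L × 𝓞 L)), F p).Finite := by
    refine Set.Finite.biUnion (Finset.finite_toSet _) ?_
    intro p hp
    rw [Finset.mem_coe, Finset.mem_product, Finset.mem_product] at hp
    refine Set.Finite.image _ (unit_eq L _ _ ?_ ?_)
    · exact div_ne_zero (h0 _ (hMa _ hp.1)) (h0 _ (hMc _ hp.2.2))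
    · exact div_ne_zero (h0 _ (hMb _ hp.2.1)) (h0 _ (hMc _ hp.2.2))
  refine hF.subset ?_
  rintro t ⟨x, y, z, hx, hy, hz, hxyz, rfl⟩
  obtain ⟨μ1, h1, e1, rfl⟩ := ha' x hx
  obtain ⟨μ2, h2, e2, rfl⟩ := hb' y hy
  obtain ⟨μ3, h3, e3, rfl⟩ := hc' z hz
  simp only [Set.mem_iUnion]
  refine ⟨(μ1, μ2, μ3), ?_, (e1 * e3⁻¹, e2 * e3⁻¹), ?_, ?_⟩
  · rw [Finset.mem_coe, Finset.mem_product, Finset.mem_product]
    exact ⟨h1, h2, h3⟩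
  · have hm3 : (μ3 : L) ≠ 0 := h0 _ (hMc _ h3)
    have he3 : (((e3⁻¹ : (𝓞 L)ˣ) : 𝓞 L) : L) * ((e3 : 𝓞 L) : L) = 1 := by
      rw [← si_cm, ← Units.val_mul, inv_mul_cancel, Units.val_one, si_c1]
    have hsum : (μ1 : L) * ((e1 : 𝓞 L) : L) + (μ2 : L) * ((e2 : 𝓞 L) : L) =
        (μ3 : L) * ((e3 : 𝓞 L) : L) := by
      rw [← si_cm, ← si_cm, ← si_cm, ← si_ca, hxyz]
    change (μ1 : L) / (μ3 : L) * (((e1 * e3⁻¹ : (𝓞 L)ˣ) : 𝓞 L) : L) +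
      (μ2 : L) / (μ3 : L) * (((e2 * e3⁻¹ : (𝓞 L)ˣ) : 𝓞 L) : L) = 1
    rw [Units.val_mul, Units.val_mul, si_cm, si_cm]
    field_simp
    linear_combination (((e3⁻¹ : (𝓞 L)ˣ) : 𝓞 L) : L) * hsum + (μ3 : L) * he3
  · have hm3 : (μ3 : L) ≠ 0 := h0 _ (hMc _ h3)
    have he3 : (((e3⁻¹ : (𝓞 L)ˣ) : 𝓞 L) : L) * ((e3 : 𝓞 L) : L) = 1 := by
      rw [← si_cm, ← Units.val_mul, inv_mul_cancel, Units.val_one, si_c1]
    have he : ((e3 : 𝓞 L) : L) ≠ 0 := right_ne_zero_of_mul (by rw [he3]; exact one_ne_zero)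
    change (μ1 : L) / (μ3 : L) * (((e1 * e3⁻¹ : (𝓞 L)ˣ) : 𝓞 L) : L) =
      ((μ1 * (e1 : 𝓞 L) : 𝓞 L) : L) / ((μ3 * (e3 : 𝓞 L) : 𝓞 L) : L)
    rw [Units.val_mul, si_cm, si_cm, si_cm]
    field_simp
    linear_combination (μ1 : L) * he3

theorem siegel_triple (L : Type) [Field L] [NumberField L] (δ₁₂ δ₁₃ : 𝓞 L) (h12 : δ₁₂ ≠ 0)
    (h13 : δ₁₃ ≠ 0) (h23 : δ₁₂ ≠ δ₁₃) :
    {ξ : 𝓞 L × 𝓞 L × 𝓞 L | ξ.1 ^ 2 - ξ.2.1 ^ 2 = δ₁₂ ∧ ξ.1 ^ 2 - ξ.2.2 ^ 2 = δ₁₃}.Finite := by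
  have hinj : Function.Injective (algebraMap (𝓞 L) L) := FaithfulSMul.algebraMap_injective (𝓞 L) L
  have h0 : ∀ x : 𝓞 L, x ≠ 0 → (x : L) ≠ 0 := by
    intro x hx h
    exact hx ((map_eq_zero_iff _ hinj).1 h)
  have h23' : δ₁₃ - δ₁₂ ≠ 0 := sub_ne_zero.2 (Ne.symm h23)
  have hT := si_ratio L δ₁₂ (δ₁₃ - δ₁₂) δ₁₃ h12 h23' h13
  set T := {t : L | ∃ x y z : 𝓞 L, x ∣ δ₁₂ ∧ y ∣ (δ₁₃ - δ₁₂) ∧ z ∣ δ₁₃ ∧ x + y = z ∧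
    t = (x : L) / (z : L)} with hTdef
  have hS : (Set.image2 (fun t s : L => t * s * (δ₁₃ : L)) T T).Finite := Set.Finite.image2 _ hT hT
  have hW := si_sq_finite hS
  set W := {w : L | w ^ 2 ∈ Set.image2 (fun t s : L => t * s * (δ₁₃ : L)) T T} with hWdef
  have hA1 : ((fun w : L => (w + (δ₁₂ : L) / w) / 2) '' W).Finite := hW.image _
  set A1 := (fun w : L => (w + (δ₁₂ : L) / w) / 2) '' W with hA1def
  have hA2 : (Set.image2 (fun a w : L => a - w) A1 W).Finite := Set.Finite.image2 _ hA1 hW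
  set A2 := Set.image2 (fun a w : L => a - w) A1 W with hA2def
  have hA3 := si_sq_finite (hA1.image (fun a : L => a ^ 2 - (δ₁₃ : L)))
  set A3 := {w : L | w ^ 2 ∈ (fun a : L => a ^ 2 - (δ₁₃ : L)) '' A1} with hA3def
  have hP : (A1 ×ˢ (A2 ×ˢ A3)).Finite := hA1.prod (hA2.prod hA3)
  let φ : 𝓞 L × 𝓞 L × 𝓞 L → L × L × L := fun ξ => ((ξ.1 : L), (ξ.2.1 : L), (ξ.2.2 : L))
  have hφ : Function.Injective φ := by
    rintro ⟨a, b, c⟩ ⟨a', b', c'⟩ h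
    have h1 := congrArg Prod.fst h
    have h2 := congrArg (fun q : L × L × L => q.2.1) h
    have h3 := congrArg (fun q : L × L × L => q.2.2) h
    have g1 : a = a' := hinj h1
    have g2 : b = b' := hinj h2
    have g3 : c = c' := hinj h3
    rw [g1, g2, g3]
  refine (hP.preimage hφ.injOn).subset ?_
  rintro ⟨x, y, z⟩ ⟨e1, e2⟩
  change x ^ 2 - y ^ 2 = δ₁₂ at e1
  change x ^ 2 - z ^ 2 = δ₁₃ at e2
  have d1 : x - y ∣ δ₁₂ := ⟨x + y, by rw [← e1]; ring⟩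
  have d2 : y - z ∣ δ₁₃ - δ₁₂ := ⟨y + z, by rw [← e1, ← e2]; ring⟩
  have d2' : y + z ∣ δ₁₃ - δ₁₂ := ⟨y - z, by rw [← e1, ← e2]; ring⟩
  have d3 : x - z ∣ δ₁₃ := ⟨x + z, by rw [← e2]; ring⟩
  have d3' : x + z ∣ δ₁₃ := ⟨x - z, by rw [← e2]; ring⟩
  have n1 : x - y ≠ 0 := fun h => h12 (by rw [h] at d1; exact zero_dvd_iff.1 d1)
  have n3 : x - z ≠ 0 := fun h => h13 (by rw [h] at d3; exact zero_dvd_iff.1 d3)
  have n3' : x + z ≠ 0 := fun h => h13 (by rw [h] at d3'; exact zero_dvd_iff.1 d3')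
  have m1 := h0 _ n1
  have m3 := h0 _ n3
  have m3' := h0 _ n3'
  have E1 : (x : L) ^ 2 - (y : L) ^ 2 = (δ₁₂ : L) := by
    rw [← e1, si_cs, si_cp, si_cp]
  have E2 : (x : L) ^ 2 - (z : L) ^ 2 = (δ₁₃ : L) := by
    rw [← e2, si_cs, si_cp, si_cp]
  rw [si_cs] at m1 m3
  rw [si_ca] at m3'
  have hw : (x : L) - (y : L) ∈ W := by
    refine ⟨((x - y : 𝓞 L) : L) / ((x - z : 𝓞 L) : L), ⟨x - y, y - z, x - z, d1, d2, d3, by ring, rfl⟩,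
      ((x - y : 𝓞 L) : L) / ((x + z : 𝓞 L) : L), ⟨x - y, y + z, x + z, d1, d2', d3', by ring, rfl⟩, ?_⟩
    change ((x - y : 𝓞 L) : L) / ((x - z : 𝓞 L) : L) * (((x - y : 𝓞 L) : L) / ((x + z : 𝓞 L) : L)) *
      (δ₁₃ : L) = ((x : L) - (y : L)) ^ 2
    rw [si_cs, si_cs, si_ca, ← E2]
    field_simp
    ring
  have hx : (x : L) ∈ A1 := by
    refine ⟨(x : L) - (y : L), hw, ?_⟩
    change ((x : L) - (y : L) + (δ₁₂ : L) / ((x : L) - (y : L))) / 2 = (x : L)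
    rw [← E1]
    field_simp
    ring
  refine ⟨hx, ⟨(x : L), hx, (x : L) - (y : L), hw, ?_⟩, ⟨(x : L), hx, ?_⟩⟩
  · change (x : L) - ((x : L) - (y : L)) = (y : L)
    ring
  · change (x : L) ^ 2 - (δ₁₃ : L) = (z : L) ^ 2
    rw [← E2]
    ring

end Pool.Agent.Helper38.TW
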