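import Mathlib
import Pool.Agent.Helper38.TW.SiegelId
import Pool.Agent.Helper38.TW.SelRoots

/-!
# TW-S7: Siegel's theorem for hyperelliptic equations

`F ∈ ℤ[X]` squarefree over `ℚ`, `d = deg F ≥ 3`. `K = F.SplittingField`-like number field (splitting field of `F` over ℚ, as a type in `Type`, e.g. `(F.map ..).SplittingField`, or `IntermediateField.adjoin ℚ (roots)` in `AlgebraicClosure ℚ`); `F = a ∏_{j ∈ Fin d} (X - α_j)` with different `α_j` (separable: squarefree over the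
perfect field `ℚ`). The points with `y = 0` are finite in number (roots of `F`). `sel_roots`: for `y ≠ 0`: `a (x - α_j) = κ_j η_j²`, `j = 0, 1, 2`, `κ_j` in the finite set `Q`. Fix the triple `(κ_0, κ_1, κ_2)`. Let `L ⊇ K` be a number field with `s_j ∈ L`, `s_j² = κ_j` (splitting field over `K` of `∏ (X² - κ_j)`, or in `AlgebraicClosure ℚ`).
`ξ_j = s_j η_j ∈ L`, `ξ_j² = a x - a α_j` is integral, so `ξ_j ∈ 𝓞_L`. `ξ_0² - ξ_1² = a α_1 - a α_0 =: δ₁₂ ≠ 0`, `ξ_0² - ξ_2² = a α_2 - a α_0 =: δ₁₃ ≠ 0`, `δ₁₂ ≠ δ₁₃`. By `siegel_triple` there are finitely many `ξ_0`, so finitely many `a x = ξ_0² + a α_0`, finitely many `x`; and for given `x` at most two `y`.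
-/

set_option autoImplicit false

namespace Pool.Agent.Helper38.TW

open NumberField Polynomial

/-- A number field over which `F` splits with different roots. -/
private theorem h86split (F : ℤ[X]) (hF : Squarefree (F.map (Int.castRingHom ℚ)))
    (hdeg : 3 ≤ F.natDegree) :
    ∃ (K : Type) (_ : Field K) (_ : NumberField K) (J : Type) (_ : Fintype J) (α : J → K),
      Function.Injective α ∧ 3 ≤ Fintype.card J ∧
      F.map (Int.castRingHom K) = C ((F.leadingCoeff : ℤ) : K) * ∏ j, (X - C (α j)) := by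
  classical
  let f : ℚ[X] := F.map (Int.castRingHom ℚ)
  have : NumberField f.SplittingField := NumberField.of_module_finite ℚ f.SplittingField
  have hsep : f.Separable := PerfectField.separable_iff_squarefree.mpr hF
  let g : f.SplittingField[X] := f.map (algebraMap ℚ f.SplittingField)
  have hgs : g.Splits := SplittingField.splits f
  have hgsep : g.Separable := hsep.map
  have hnd : g.roots.Nodup := nodup_roots hgsep
  have hmap : F.map (Int.castRingHom f.SplittingField) = g := by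
    change F.map (Int.castRingHom f.SplittingField) =
      (F.map (Int.castRingHom ℚ)).map (algebraMap ℚ f.SplittingField)
    rw [Polynomial.map_map]
    congr 1
  have hlead : g.leadingCoeff = ((F.leadingCoeff : ℤ) : f.SplittingField) := by
    rw [← hmap, leadingCoeff_map_of_injective]
    · rfl
    · exact (Int.castRingHom f.SplittingField).injective_int
  have hdegg : g.natDegree = F.natDegree := by
    rw [← hmap, natDegree_map_eq_of_injective]
    exact (Int.castRingHom f.SplittingField).injective_int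
  refine ⟨f.SplittingField, inferInstance, this, {x // x ∈ g.roots.toFinset}, inferInstance,
    fun j => j.1, Subtype.val_injective, ?_, ?_⟩
  · rw [Fintype.card_coe, Multiset.toFinset_card_of_nodup hnd, ← hgs.natDegree_eq_card_roots, hdegg]
    exact hdeg
  · rw [hmap]
    conv_lhs => rw [hgs.eq_prod_roots]
    rw [hlead]
    congr 1
    rw [Finset.prod_coe_sort g.roots.toFinset (fun x => X - C x)]
    rw [Finset.prod, Multiset.toFinset_val, hnd.dedup]

/-- A number field with square roots of three given numbers. -/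
private theorem h86sqrt (K : Type) [Field K] [NumberField K] (κ₀ κ₁ κ₂ : K) :
    ∃ (L : Type) (_ : Field L) (_ : NumberField L) (φ : K →+* L) (s₀ s₁ s₂ : L),
      s₀ ^ 2 = φ κ₀ ∧ s₁ ^ 2 = φ κ₁ ∧ s₂ ^ 2 = φ κ₂ := by
  let f : K[X] := (X ^ 2 - C κ₀) * (X ^ 2 - C κ₁) * (X ^ 2 - C κ₂)
  have : FiniteDimensional K f.SplittingField := IsSplittingField.finiteDimensional f.SplittingField f
  have hNF : NumberField f.SplittingField := NumberField.of_module_finite K f.SplittingField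
  have hs : (f.map (algebraMap K f.SplittingField)).Splits := SplittingField.splits f
  have h2 : ∀ c : K, ((X ^ 2 - C c : K[X])) ≠ 0 := fun c => (monic_X_pow_sub_C c two_ne_zero).ne_zero
  have key : ∀ c : K, (X ^ 2 - C c : K[X]) ∣ f → ∃ s : f.SplittingField,
      s ^ 2 = algebraMap K f.SplittingField c := by
    intro c hc
    have hf0 : f ≠ 0 := mul_ne_zero (mul_ne_zero (h2 _) (h2 _)) (h2 _)
    have hsp : ((X ^ 2 - C c : K[X]).map (algebraMap K f.SplittingField)).Splits := by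
      refine Splits.of_dvd hs ?_ (Polynomial.map_dvd _ hc)
      exact (Polynomial.map_ne_zero_iff (algebraMap K f.SplittingField).injective).mpr hf0
    obtain ⟨s, hs⟩ := hsp.exists_eval_eq_zero (by
      rw [degree_map, degree_X_pow_sub_C (by norm_num)]
      norm_num)
    refine ⟨s, ?_⟩
    simpa [sub_eq_zero] using hs
  obtain ⟨s₀, h₀⟩ := key κ₀ ⟨(X ^ 2 - C κ₁) * (X ^ 2 - C κ₂), by simp only [f]; ring⟩
  obtain ⟨s₁, h₁⟩ := key κ₁ ⟨(X ^ 2 - C κ₀) * (X ^ 2 - C κ₂), by simp only [f]; ring⟩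
  obtain ⟨s₂, h₂⟩ := key κ₂ ⟨(X ^ 2 - C κ₀) * (X ^ 2 - C κ₁), by simp only [f]; ring⟩
  exact ⟨f.SplittingField, inferInstance, hNF, algebraMap K f.SplittingField, s₀, s₁, s₂, h₀, h₁, h₂⟩

/-- Finitely many `x` for fixed classes. -/
private theorem h86fix (K : Type) [Field K] [NumberField K] (a : ℤ) (ha : a ≠ 0) (α₀ α₁ α₂ : K)
    (h₀ : IsIntegral ℤ ((a : K) * α₀)) (h₁ : IsIntegral ℤ ((a : K) * α₁))
    (h₂ : IsIntegral ℤ ((a : K) * α₂)) (h01 : α₀ ≠ α₁) (h02 : α₀ ≠ α₂) (h12 : α₁ ≠ α₂)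
    (κ₀ κ₁ κ₂ : K) :
    {x : ℤ | (∃ η : K, (a : K) * ((x : K) - α₀) = κ₀ * η ^ 2) ∧
      (∃ η : K, (a : K) * ((x : K) - α₁) = κ₁ * η ^ 2) ∧
      (∃ η : K, (a : K) * ((x : K) - α₂) = κ₂ * η ^ 2)}.Finite := by
  obtain ⟨L, hL, hNL, φ, s₀, s₁, s₂, hs₀, hs₁, hs₂⟩ := h86sqrt K κ₀ κ₁ κ₂
  have haK : (a : K) ≠ 0 := by exact_mod_cast ha
  have haL : (a : L) ≠ 0 := by exact_mod_cast ha
  have hint : ∀ z : K, IsIntegral ℤ z → IsIntegral ℤ (φ z) := fun z hz =>
    hz.map φ.toIntAlgHom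
  let β : (z : K) → IsIntegral ℤ z → 𝓞 L := fun z hz => ⟨φ z, hint z hz⟩
  have hβ : ∀ (z : K) (hz : IsIntegral ℤ z), ((β z hz : 𝓞 L) : L) = φ z := fun z hz => rfl
  set b₀ := β _ h₀ with hb₀
  set b₁ := β _ h₁ with hb₁
  set b₂ := β _ h₂ with hb₂
  have hinj : Function.Injective ((↑) : 𝓞 L → L) := NumberField.RingOfIntegers.coe_injective
  have hne : ∀ (u v : K) (hu : IsIntegral ℤ ((a : K) * u)) (hv : IsIntegral ℤ ((a : K) * v)),
      u ≠ v → β _ hu ≠ β _ hv := by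
    intro u v hu hv huv h
    have h' := congrArg ((↑) : 𝓞 L → L) h
    rw [hβ _ hu, hβ _ hv] at h'
    exact huv (mul_left_cancel₀ haK (φ.injective h'))
  have hfin := siegel_triple L (b₁ - b₀) (b₂ - b₀)
    (sub_ne_zero.mpr (hne _ _ h₁ h₀ h01.symm)) (sub_ne_zero.mpr (hne _ _ h₂ h₀ h02.symm))
    (fun h => hne _ _ h₁ h₂ h12 (sub_left_injective h))
  -- the finite set of values `a x`
  have himg : ((fun ξ : 𝓞 L × 𝓞 L × 𝓞 L => ((ξ.1 : L)) ^ 2 + φ ((a : K) * α₀)) ''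
    {ξ : 𝓞 L × 𝓞 L × 𝓞 L | ξ.1 ^ 2 - ξ.2.1 ^ 2 = b₁ - b₀ ∧ ξ.1 ^ 2 - ξ.2.2 ^ 2 = b₂ - b₀}).Finite :=
    hfin.image _
  refine (himg.preimage (f := fun x : ℤ => (a : L) * (x : L)) ?_).subset ?_
  · intro x _ y _ hxy
    have := mul_left_cancel₀ haL hxy
    exact_mod_cast this
  · rintro x ⟨⟨η₀, e₀⟩, ⟨η₁, e₁⟩, ⟨η₂, e₂⟩⟩
    have hxi : ∀ (α κ η : K) (s : L), IsIntegral ℤ ((a : K) * α) → s ^ 2 = φ κ →
        (a : K) * ((x : K) - α) = κ * η ^ 2 →
        (s * φ η) ^ 2 = (a : L) * (x : L) - φ ((a : K) * α) ∧ IsIntegral ℤ (s * φ η) := by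
      intro α κ η s hα hs e
      have h1 : (s * φ η) ^ 2 = (a : L) * (x : L) - φ ((a : K) * α) := by
        have := congrArg φ e
        rw [map_mul, map_mul, map_sub, map_pow, map_intCast, map_intCast, ← hs] at this
        rw [map_mul, map_intCast, mul_pow]
        linear_combination -this
      refine ⟨h1, IsIntegral.of_pow (n := 2) (by norm_num) ?_⟩
      rw [h1]
      have hi1 : IsIntegral ℤ ((a : L) * (x : L)) := by
        have := isIntegral_algebraMap (R := ℤ) (A := L) (x := a * x)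
        simpa using this
      exact hi1.sub (hint _ hα)
    obtain ⟨q₀, i₀⟩ := hxi _ _ _ s₀ h₀ hs₀ e₀
    obtain ⟨q₁, i₁⟩ := hxi _ _ _ s₁ h₁ hs₁ e₁
    obtain ⟨q₂, i₂⟩ := hxi _ _ _ s₂ h₂ hs₂ e₂
    refine ⟨⟨⟨s₀ * φ η₀, i₀⟩, ⟨s₁ * φ η₁, i₁⟩, ⟨s₂ * φ η₂, i₂⟩⟩, ⟨?_, ?_⟩, ?_⟩
    · apply hinj
      change (s₀ * φ η₀) ^ 2 - (s₁ * φ η₁) ^ 2 = φ ((a : K) * α₁) - φ ((a : K) * α₀)
      rw [q₀, q₁]
      ring
    · apply hinj
      change (s₀ * φ η₀) ^ 2 - (s₂ * φ η₂) ^ 2 = φ ((a : K) * α₂) - φ ((a : K) * α₀)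
      rw [q₀, q₂]
      ring
    · change (s₀ * φ η₀) ^ 2 + φ ((a : K) * α₀) = (a : L) * (x : L)
      rw [q₀]
      ring

theorem siegel (F : ℤ[X]) (hF : Squarefree (F.map (Int.castRingHom ℚ))) (hdeg : 3 ≤ F.natDegree) :
    {P : ℤ × ℤ | P.2 ^ 2 = F.eval P.1}.Finite := by
  classical
  have hF0 : F ≠ 0 := by
    rintro rfl
    simp at hdeg
  have ha : F.leadingCoeff ≠ 0 := leadingCoeff_ne_zero.mpr hF0
  obtain ⟨K, iK, iN, J, iJ, α, hα, hcard, hmap⟩ := h86split F hF hdeg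
  obtain ⟨Q, hQ0, hQ⟩ := sel_roots K F J α F.leadingCoeff ha hα hmap
  -- three indices
  obtain ⟨j₀, j₁, j₂, h01, h02, h12⟩ : ∃ j₀ j₁ j₂ : J, j₀ ≠ j₁ ∧ j₀ ≠ j₂ ∧ j₁ ≠ j₂ := by
    have h2 : 2 < Fintype.card J := hcard
    exact Fintype.two_lt_card_iff.mp h2
  have hroot : ∀ j, IsIntegral ℤ (((F.leadingCoeff : ℤ) : K) * α j) := by
    intro j
    have h := isIntegral_leadingCoeff_smul F (α j) (by
      have h1 : (F.map (Int.castRingHom K)).eval (α j) = 0 := by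
        rw [hmap, eval_mul, eval_prod]
        rw [Finset.prod_eq_zero (Finset.mem_univ j) (by simp), mul_zero]
      rw [eval_map] at h1
      rw [aeval_def]
      exact h1)
    rwa [zsmul_eq_mul] at h
  -- the finite set of `x`
  have hX : {x : ℤ | ∃ y : ℤ, y ^ 2 = F.eval x}.Finite := by
    have hfin : ((↑F.roots.toFinset : Set ℤ) ∪ ⋃ κ ∈ (↑(Q ×ˢ Q ×ˢ Q) : Set (K × K × K)),
        {x : ℤ | (∃ η : K, ((F.leadingCoeff : ℤ) : K) * ((x : K) - α j₀) = κ.1 * η ^ 2) ∧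
          (∃ η : K, ((F.leadingCoeff : ℤ) : K) * ((x : K) - α j₁) = κ.2.1 * η ^ 2) ∧
          (∃ η : K, ((F.leadingCoeff : ℤ) : K) * ((x : K) - α j₂) = κ.2.2 * η ^ 2)}).Finite := by
      refine (Finset.finite_toSet _).union ((Finset.finite_toSet _).biUnion ?_)
      intro κ _
      exact h86fix K F.leadingCoeff ha (α j₀) (α j₁) (α j₂) (hroot j₀) (hroot j₁) (hroot j₂)
        (hα.ne h01) (hα.ne h02) (hα.ne h12) κ.1 κ.2.1 κ.2.2
    refine hfin.subset ?_
    rintro x ⟨y, hy⟩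
    by_cases hy0 : y = 0
    · left
      rw [Finset.mem_coe, Multiset.mem_toFinset, mem_roots hF0, IsRoot.def, ← hy, hy0]
      norm_num
    · right
      obtain ⟨κ₀, hκ₀, η₀, e₀⟩ := hQ x y hy0 hy j₀
      obtain ⟨κ₁, hκ₁, η₁, e₁⟩ := hQ x y hy0 hy j₁
      obtain ⟨κ₂, hκ₂, η₂, e₂⟩ := hQ x y hy0 hy j₂
      rw [Set.mem_iUnion₂]
      refine ⟨(κ₀, κ₁, κ₂), ?_, ⟨η₀, e₀⟩, ⟨η₁, e₁⟩, ⟨η₂, e₂⟩⟩
      rw [Finset.mem_coe, Finset.mem_product, Finset.mem_product]
      exact ⟨hκ₀, hκ₁, hκ₂⟩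
  refine (hX.biUnion (t := fun x => (fun y => (x, y)) '' (Set.Icc (-|F.eval x|) |F.eval x|))
    (fun x _ => (Set.finite_Icc _ _).image _)).subset ?_
  rintro ⟨x, y⟩ hxy
  change y ^ 2 = F.eval x at hxy
  rw [Set.mem_iUnion₂]
  refine ⟨x, ⟨y, hxy⟩, y, ?_, rfl⟩
  rw [← hxy, abs_of_nonneg (sq_nonneg y), Set.mem_Icc]
  constructor
  · nlinarith [sq_nonneg y, sq_nonneg (y + 1), Int.le_self_sq (-y), neg_sq y]
  · exact Int.le_self_sq y

end Pool.Agent.Helper38.TW
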