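import Mathlib
import Pool.Agent.Helper38.TW.GDefs

/-!
# TW-G2: splitting the count

`D ∈ TwSet f X \ DegSet dt`: `descent` gives `t, E, τ`, `IsDesc`. `I = {i : z < E i}`. `∏ E ≤ |D| ≤ X` (`|t| ≥ 1`).
* `I = ∅`: all `E i ≤ z`: for given `t`, at most `(z+1)^{card ι}` values of `D = t ∏ E`.
* `I ≠ ∅`: `NonDeg dt I E` since `D ∉ DegSet`. Let `E' k = E k` for `k ∉ I` and `1` for `k ∈ I`: `E' ∈ smallE dt I z`, and `NonDeg dt I E'`, `condI dt τ I E' = condI dt τ I E` (these depend only on the values outside `I`; `1 < E' k ↔ 1 < E k` for `k ∉ I`).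
  The restriction of `E` to `I` is in `Adm (condI dt τ I E') z (X / ∏ E')`: the product over `I` times `∏ E'` is `∏ E ≤ X` (so `≤ X / ∏ E'`, `Nat.le_div_iff_mul_le`), it is odd (coprime to the even number `B`) and squarefree, all `E i > z`, and the local conditions are
  `cond_of_descent` + `condI_of_cond`. `D = t · ∏ E' · ∏_{i ∈ I} E i` is determined by `t`, `E'` and the restriction.
So `TwSet f X \ DegSet dt` is covered by finitely many images of the sets `Adm`; `Set.ncard_image_le`, `Set.ncard_iUnion_le`-type bounds (`Adm` is finite: `adm_finite` in `Expand.lean`; or `Finset.card_biUnion_le` after `toFinset`).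
-/

set_option autoImplicit false

namespace Pool.Agent.Helper38.TW

open Finset Polynomial

variable {f : ℤ[X]} {ι : Type} [Fintype ι] [DecidableEq ι]

private theorem mem_divB (dt : FData f ι) {t : ℤ} (h : t ∣ (dt.B : ℤ)) : t ∈ divB dt := by
  have hB : (0 : ℤ) < dt.B := by
    have := dt.B_ne
    omega
  have h1 : |t| ≤ (dt.B : ℤ) := by
    have := Int.le_of_dvd hB ((abs_dvd t _).2 h)
    exact this
  rw [divB, Finset.mem_filter, Finset.mem_Icc]
  exact ⟨abs_le.1 h1, h⟩

private theorem adm_fin {κ : Type} [Fintype κ] [DecidableEq κ] (φ : κ → ℕ → Finset κ → Prop)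
    (z Y : ℕ) : (Adm φ z Y).Finite := by
  refine Set.Finite.subset (Finset.finite_toSet (Fintype.piFinset (fun _ : κ => range (Y + 1)))) ?_
  intro D hD
  rw [Finset.mem_coe, Fintype.mem_piFinset]
  intro i
  rw [Finset.mem_range, Nat.lt_succ_iff]
  exact le_trans (Nat.le_of_dvd (Nat.pos_of_ne_zero hD.2.1.ne_zero)
    (Finset.dvd_prod_of_mem _ (Finset.mem_univ i))) hD.2.2.1

private theorem condI_congr (dt : FData f ι) (τ : ι → ℤ) (I : Finset ι) (E E' : ι → ℕ)
    (h : ∀ k, k ∉ I → E' k = E k) : condI dt τ I E' = condI dt τ I E := by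
  funext i p T
  have h1 : (∀ k, k ∉ I → jacobiSym (E' k) p ≠ 0) = (∀ k, k ∉ I → jacobiSym (E k) p ≠ 0) := by
    apply propext
    constructor
    · intro h2 k hk
      have := h2 k hk
      rwa [h k hk] at this
    · intro h2 k hk
      rw [h k hk]
      exact h2 k hk
  have h2 : univ.filter (fun k => k ∉ I ∧ jacobiSym (E' k) p = -1) =
      univ.filter (fun k => k ∉ I ∧ jacobiSym (E k) p = -1) := by
    ext k
    simp only [Finset.mem_filter, mem_univ, true_and]
    constructor
    · rintro ⟨h3, h4⟩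
      rw [h k h3] at h4
      exact ⟨h3, h4⟩
    · rintro ⟨h3, h4⟩
      rw [← h k h3] at h4
      exact ⟨h3, h4⟩
  unfold condI
  rw [h1, h2]

open Classical in
/-- the covering set -/
private noncomputable def cov (dt : FData f ι) (X z : ℕ) (t : ℤ) (τ : ι → ℤ) : Finset ℤ :=
  (Fintype.piFinset (fun _ : ι => range (z + 1))).image (fun E => t * ((∏ i, E i : ℕ) : ℤ)) ∪
    ((univ : Finset (Finset ι)).filter (fun I => I.Nonempty)).biUnion (fun I =>
      (smallE dt I z).biUnion (fun E =>
        (adm_fin (condI dt τ I E) z (X / ∏ k, E k)).toFinset.image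
          (fun e => t * (((∏ k, E k) * ∏ i, e i : ℕ) : ℤ))))

open Classical in
private theorem card_cov (dt : FData f ι) (X z : ℕ) (t : ℤ) (τ : ι → ℤ) :
    ((cov dt X z t τ).card : ℝ) ≤ ((z : ℝ) + 1) ^ (Fintype.card ι) +
          ∑ I ∈ (univ : Finset (Finset ι)).filter (fun I => I.Nonempty),
            ∑ E ∈ smallE dt I z, ((Adm (condI dt τ I E) z (X / ∏ k, E k)).ncard : ℝ) := by
  have h1 : (cov dt X z t τ).card ≤ (z + 1) ^ (Fintype.card ι) +
          ∑ I ∈ (univ : Finset (Finset ι)).filter (fun I => I.Nonempty),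
            ∑ E ∈ smallE dt I z, (Adm (condI dt τ I E) z (X / ∏ k, E k)).ncard := by
    refine (Finset.card_union_le _ _).trans (Nat.add_le_add ?_ ?_)
    · refine Finset.card_image_le.trans ?_
      rw [Fintype.card_piFinset]
      simp
    · refine Finset.card_biUnion_le.trans (Finset.sum_le_sum fun I _ => ?_)
      refine Finset.card_biUnion_le.trans (Finset.sum_le_sum fun E _ => ?_)
      refine Finset.card_image_le.trans ?_
      rw [Set.ncard_eq_toFinset_card _ (adm_fin (condI dt τ I E) z (X / ∏ k, E k))]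
  have h2 := (Nat.cast_le (α := ℝ)).2 h1
  push_cast at h2
  exact h2

open Classical in
private theorem mem_cov (dt : FData f ι) (X z : ℕ) (D : ℤ) (hD : D ∈ TwSet f X \ DegSet dt) :
    ∃ t ∈ divB dt, ∃ τ ∈ Fintype.piFinset (fun _ : ι => divB dt), D ∈ cov dt X z t τ := by
  obtain ⟨⟨hsq, hX, x, y, hy, h⟩, hdeg⟩ := hD
  obtain ⟨t, E, τ, ht, hτ, hDt, hE, hEB, hg⟩ := descent dt D x y hsq hy h
  refine ⟨t, mem_divB dt ht, τ, ?_, ?_⟩
  · rw [Fintype.mem_piFinset]
    exact fun i => mem_divB dt (hτ i)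
  have hEi : ∀ i, E i ≠ 0 := fun i =>
    Finset.prod_ne_zero_iff.1 hE.ne_zero i (mem_univ i)
  rw [cov, Finset.mem_union]
  by_cases hI : (univ.filter (fun i => z < E i)).Nonempty
  · right
    generalize hIdef : univ.filter (fun i => z < E i) = I at hI
    have hmem : ∀ i, i ∈ I ↔ z < E i := by
      intro i
      rw [← hIdef, Finset.mem_filter]
      simp
    have hnd : NonDeg dt I E := by
      by_contra hc
      exact hdeg ⟨hsq, x, y, t, E, τ, I, hy, h, ⟨ht, hτ, hDt, hE, hEB, hg⟩, hI, hc⟩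
    let E' : ι → ℕ := fun k => if k ∈ I then 1 else E k
    have hE'1 : ∀ k, k ∈ I → E' k = 1 := fun k hk => if_pos hk
    have hE'2 : ∀ k, k ∉ I → E' k = E k := fun k hk => if_neg hk
    have hprod : ∏ k, E k = (∏ k, E' k) * ∏ i : {i // i ∈ I}, E i.1 := by
      have h1 : ∏ i : {i // i ∈ I}, E i.1 = ∏ i ∈ I, E i := Finset.prod_coe_sort I E
      have h2 : ∏ i ∈ I, E i = ∏ k, (if k ∈ I then E k else 1) := by
        rw [Finset.prod_ite_mem, Finset.univ_inter]
      rw [h1, h2, ← Finset.prod_mul_distrib]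
      refine Finset.prod_congr rfl fun k _ => ?_
      by_cases hk : k ∈ I
      · rw [if_pos hk, hE'1 k hk, one_mul]
      · rw [if_neg hk, hE'2 k hk, mul_one]
    rw [Finset.mem_biUnion]
    refine ⟨I, Finset.mem_filter.2 ⟨mem_univ I, hI⟩, ?_⟩
    rw [Finset.mem_biUnion]
    refine ⟨E', ?_, ?_⟩
    · rw [smallE, Finset.mem_filter, Fintype.mem_piFinset]
      refine ⟨fun k => ?_, ?_, fun k hk => ?_⟩
      · by_cases hk : k ∈ I
        · rw [if_pos hk, hE'1 k hk]
          exact Finset.mem_singleton_self 1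
        · rw [if_neg hk, hE'2 k hk, Finset.mem_Icc]
          exact ⟨Nat.pos_of_ne_zero (hEi k), not_lt.1 fun h2 => hk ((hmem k).2 h2)⟩
      · rcases hnd with h1 | h1 | ⟨k, hk, h1⟩
        · exact Or.inl h1
        · exact Or.inr (Or.inl h1)
        · refine Or.inr (Or.inr ⟨k, hk, ?_⟩)
          rw [hE'2 k hk]
          exact h1
      · rw [hE'2 k hk]
        exact ⟨hE.squarefree_of_dvd (Finset.dvd_prod_of_mem E (mem_univ k)),
          Nat.Coprime.coprime_dvd_left (Finset.dvd_prod_of_mem E (mem_univ k)) hEB⟩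
    · rw [Finset.mem_image]
      refine ⟨fun i => E i.1, ?_, ?_⟩
      · rw [Set.Finite.mem_toFinset, condI_congr dt τ I E E' hE'2]
        have hdvd : (∏ i : {i // i ∈ I}, E i.1) ∣ ∏ k, E k := by
          rw [hprod]
          exact Dvd.intro_left _ rfl
        have hodd : Odd (∏ k, E k) := by
          rw [← Nat.not_even_iff_odd]
          intro h2
          have h3 : 2 ∣ Nat.gcd (∏ k, E k) dt.B := Nat.dvd_gcd h2.two_dvd dt.two_dvd
          rw [hEB] at h3
          omega
        refine ⟨hodd.of_dvd_nat hdvd, hE.squarefree_of_dvd hdvd, ?_, fun i => (hmem i.1).1 i.2,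
          condI_of_cond dt τ I E hE (cond_of_descent dt x E τ hτ hE hEB hg)⟩
        have hE'pos : 0 < ∏ k, E' k := by
          refine Nat.pos_of_ne_zero fun h2 => hE.ne_zero ?_
          rw [hprod, h2, zero_mul]
        rw [Nat.le_div_iff_mul_le hE'pos, mul_comm, ← hprod]
        have ht1 : 1 ≤ |t| := by
          have ht0 : t ≠ 0 := by
            rintro rfl
            rw [zero_mul] at hDt
            exact hsq.ne_zero hDt
          exact Int.one_le_abs ht0
        have h2 : ((∏ k, E k : ℕ) : ℤ) ≤ |D| := by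
          rw [hDt, abs_mul, Nat.abs_cast]
          have h3 : (0 : ℤ) ≤ ((∏ k, E k : ℕ) : ℤ) := Int.natCast_nonneg _
          nlinarith
        exact_mod_cast h2.trans hX
      · rw [hDt, hprod]
  · left
    rw [Finset.mem_image]
    refine ⟨E, ?_, hDt.symm⟩
    rw [Fintype.mem_piFinset]
    intro i
    rw [Finset.mem_range, Nat.lt_succ_iff]
    by_contra h2
    exact hI ⟨i, Finset.mem_filter.2 ⟨mem_univ i, not_le.1 h2⟩⟩

open Classical in
theorem count_split (dt : FData f ι) (X z : ℕ) :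
    ((TwSet f X \ DegSet dt).ncard : ℝ) ≤
      ∑ _t ∈ divB dt, ∑ τ ∈ Fintype.piFinset (fun _ : ι => divB dt),
        (((z : ℝ) + 1) ^ (Fintype.card ι) +
          ∑ I ∈ (univ : Finset (Finset ι)).filter (fun I => I.Nonempty),
            ∑ E ∈ smallE dt I z, ((Adm (condI dt τ I E) z (X / ∏ k, E k)).ncard : ℝ)) := by
  have h1 : (TwSet f X \ DegSet dt) ⊆ (((divB dt).biUnion fun t =>
      (Fintype.piFinset (fun _ : ι => divB dt)).biUnion fun τ => cov dt X z t τ : Finset ℤ) :
      Set ℤ) := by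
    intro D hD
    obtain ⟨t, ht, τ, hτ, h2⟩ := mem_cov dt X z D hD
    rw [Finset.mem_coe, Finset.mem_biUnion]
    exact ⟨t, ht, Finset.mem_biUnion.2 ⟨τ, hτ, h2⟩⟩
  have h2 := Set.ncard_le_ncard h1 (Finset.finite_toSet _)
  rw [Set.ncard_coe_finset] at h2
  have h3 : (TwSet f X \ DegSet dt).ncard ≤ ∑ t ∈ divB dt,
      ∑ τ ∈ Fintype.piFinset (fun _ : ι => divB dt), (cov dt X z t τ).card :=
    h2.trans (Finset.card_biUnion_le.trans (Finset.sum_le_sum fun t _ => Finset.card_biUnion_le))
  have h4 := (Nat.cast_le (α := ℝ)).2 h3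
  push_cast at h4
  exact h4.trans (Finset.sum_le_sum fun t _ => Finset.sum_le_sum fun τ _ => card_cov dt X z t τ)

end Pool.Agent.Helper38.TW
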