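import Mathlib

/-!
# TW-C5a: an unlinked set of indices has one element in every class

`U` is a set of pairs `(i, S)` with `i ∉ S`; every `i` occurs; for `v, u ∈ U`: `u.1 ∈ v.2 ↔ v.1 ∈ u.2`. Then `U = {(i, s i)}` for a map `s`.
Proof: let `(i,S), (i,S') ∈ U`. For `k ≠ i` choose `(k,T) ∈ U`: `k ∈ S ↔ i ∈ T ↔ k ∈ S'`. And `i ∉ S`, `i ∉ S'`. So `S = S'`.
-/

set_option autoImplicit false

namespace Pool.Agent.Helper38.TW

open Finset

theorem unlinked_comb {ι : Type} [Fintype ι] [DecidableEq ι] (U : Finset (ι × Finset ι))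
    (hgood : ∀ v ∈ U, v.1 ∉ v.2) (hcl : ∀ i, ∃ S, (i, S) ∈ U)
    (hun : ∀ v ∈ U, ∀ u ∈ U, (u.1 ∈ v.2 ↔ v.1 ∈ u.2)) :
    ∃ s : ι → Finset ι, ∀ v, v ∈ U ↔ v.2 = s v.1 := by
  choose s hs using hcl
  refine ⟨s, fun v => ⟨fun hv => ?_, fun h => ?_⟩⟩
  · ext k
    by_cases hk : k = v.1
    · subst hk
      exact iff_of_false (hgood v hv) (hgood (v.1, s v.1) (hs v.1))
    · exact (hun v hv (k, s k) (hs k)).trans (hun (v.1, s v.1) (hs v.1) (k, s k) (hs k)).symm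
  · have h1 := hs v.1
    rw [← h] at h1
    exact h1

end Pool.Agent.Helper38.TW
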