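import Mathlib
import Pool.Agent.Helper38.TW.MDefs

/-!
# TW-C2: products of sums over primes are sums over factorizations

`N` squarefree, `σ` a finite type. `∏_{p ∣ N} ∑_{s : σ} g s p = ∑_{e : σ → ℕ, ∏ e = N} ∏_s ∏_{p ∣ e s} g s p`.
Proof: `Finset.prod_univ_sum`-type expansion (`Finset.prod_sum`): the left hand side is `∑_{a : primeFactors N → σ} ∏_p g (a p) p`; the factorizations `e` of the squarefree number `N` correspond bijectively to the maps `a`
(`e s = ∏_{p : a p = s} p`; conversely `a p` = the unique `s` with `p ∣ e s`). Alternatively: induction on the number of prime factors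
(`Nat.recOnMul`-like or `Nat.recOnPosPrimePosCoprime`; `N = p N'`, a factorization of `N` is a factorization of `N'` and a choice of the `s` that gets `p`), or induction over a `Finset ℕ` of primes with `N = ∏ p ∈ P, p`.
-/

set_option autoImplicit false

namespace Pool.Agent.Helper38.TW

open Finset

theorem prod_sum_factor {σ : Type} [Fintype σ] [DecidableEq σ] (N : ℕ) (hN : Squarefree N)
    (g : σ → ℕ → ℝ) :
    ∏ p ∈ N.primeFactors, ∑ s : σ, g s p =
      ∑ e ∈ (Fintype.piFinset (fun _ : σ => N.divisors)).filter (fun e => ∏ s, e s = N),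
        ∏ s, ∏ p ∈ (e s).primeFactors, g s p := by
  classical
  have h1 : ∏ p ∈ N.primeFactors, ∑ s : σ, g s p =
      ∑ a : (N.primeFactors → σ), ∏ p : N.primeFactors, g (a p) p := by
    rw [← Finset.prod_coe_sort, Finset.prod_univ_sum, Fintype.piFinset_univ]
  rw [h1]
  let S : (N.primeFactors → σ) → σ → Finset ℕ := fun a s =>
    (univ.filter (fun p : N.primeFactors => a p = s)).map (Function.Embedding.subtype _)
  have hS : ∀ (a : N.primeFactors → σ) (s : σ), ∀ p ∈ S a s, p.Prime := by
    intro a s p hp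
    obtain ⟨q, _, hq⟩ := Finset.mem_map.1 hp
    rw [← hq]
    exact Nat.prime_of_mem_primeFactors q.2
  have hmem : ∀ (a : N.primeFactors → σ) (s : σ) (p : N.primeFactors),
      (p : ℕ) ∈ S a s ↔ a p = s := by
    intro a s p
    change (p : ℕ) ∈ (univ.filter (fun p : N.primeFactors => a p = s)).map
      (Function.Embedding.subtype _) ↔ _
    constructor
    · intro h
      obtain ⟨q, hq, hqp⟩ := Finset.mem_map.1 h
      have h2 : q = p := Subtype.ext hqp
      rw [← h2]
      exact (Finset.mem_filter.1 hq).2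
    · intro h
      exact Finset.mem_map.2 ⟨p, Finset.mem_filter.2 ⟨Finset.mem_univ _, h⟩, rfl⟩
  have hpf : ∀ (a : N.primeFactors → σ) (s : σ), (∏ p ∈ S a s, p).primeFactors = S a s :=
    fun a s => Nat.primeFactors_prod (hS a s)
  have hprod : ∀ a : N.primeFactors → σ, ∏ s, ∏ p ∈ S a s, p = N := by
    intro a
    have h2 : ∏ s, ∏ p ∈ S a s, p = ∏ p : N.primeFactors, (p : ℕ) := by
      rw [← Finset.prod_fiberwise (Finset.univ : Finset N.primeFactors) a]
      refine Finset.prod_congr rfl fun s _ => ?_
      change ∏ p ∈ (univ.filter (fun p : N.primeFactors => a p = s)).map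
        (Function.Embedding.subtype _), p = _
      rw [Finset.prod_map]
      rfl
    rw [h2, Finset.prod_coe_sort N.primeFactors (fun p => p)]
    exact Nat.prod_primeFactors_of_squarefree hN
  have hN0 : N ≠ 0 := hN.ne_zero
  refine Finset.sum_bij (fun a _ => fun s => ∏ p ∈ S a s, p) ?_ ?_ ?_ ?_
  · intro a _
    rw [Finset.mem_filter, Fintype.mem_piFinset]
    refine ⟨fun s => ?_, hprod a⟩
    rw [Nat.mem_divisors]
    refine ⟨?_, hN0⟩
    conv_rhs => rw [← hprod a]
    exact Finset.dvd_prod_of_mem (fun s => ∏ p ∈ S a s, p) (Finset.mem_univ s)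
  · intro a _ b _ hab
    funext p
    have h2 : S a (b p) = S b (b p) := by
      rw [← hpf a, ← hpf b]
      exact congrArg Nat.primeFactors (congrFun hab (b p))
    exact (hmem a (b p) p).1 (h2 ▸ (hmem b (b p) p).2 rfl)
  · intro e he
    rw [Finset.mem_filter, Fintype.mem_piFinset] at he
    obtain ⟨he1, he2⟩ := he
    have h2 : ∀ p : N.primeFactors, ∃ s, (p : ℕ) ∣ e s := by
      intro p
      have h3 : (p : ℕ) ∣ ∏ s, e s := by
        rw [he2]
        exact Nat.dvd_of_mem_primeFactors p.2
      obtain ⟨s, _, hs⟩ := (Nat.prime_of_mem_primeFactors p.2).prime.exists_mem_finset_dvd h3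
      exact ⟨s, hs⟩
    choose a ha using h2
    refine ⟨a, Finset.mem_univ _, ?_⟩
    funext s
    have hsq : Squarefree (e s) := hN.squarefree_of_dvd (Nat.dvd_of_mem_divisors (he1 s))
    have h3 : S a s = (e s).primeFactors := by
      ext p
      constructor
      · intro hp
        obtain ⟨q, hq, hqp⟩ := Finset.mem_map.1 hp
        have h4 : a q = s := (Finset.mem_filter.1 hq).2
        have h5 : (q : ℕ) = p := hqp
        rw [← h5, Nat.mem_primeFactors]
        exact ⟨Nat.prime_of_mem_primeFactors q.2, h4 ▸ ha q, hsq.ne_zero⟩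
      · intro hp
        have hpN : p ∈ N.primeFactors := Nat.primeFactors_mono
          (Nat.dvd_of_mem_divisors (he1 s)) hN0 hp
        refine (hmem a s ⟨p, hpN⟩).2 ?_
        by_contra hne
        have h4 : p ∣ e (a ⟨p, hpN⟩) := ha ⟨p, hpN⟩
        have h5 : p ∣ e s := Nat.dvd_of_mem_primeFactors hp
        have h6 : e s * e (a ⟨p, hpN⟩) ∣ N := by
          have h7 : e s * e (a ⟨p, hpN⟩) = ∏ x ∈ ({s, a ⟨p, hpN⟩} : Finset σ), e x :=
            (Finset.prod_pair (Ne.symm hne)).symm
          have h8 : e s * e (a ⟨p, hpN⟩) ∣ ∏ x, e x := by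
            rw [h7]
            exact Finset.prod_dvd_prod_of_subset _ _ _ (Finset.subset_univ _)
          exact h8.trans (dvd_of_eq he2)
        have h8 : p * p ∣ N := (mul_dvd_mul h5 h4).trans h6
        have h9 := hN p h8
        exact (Nat.prime_of_mem_primeFactors hp).one_lt.ne' (Nat.isUnit_iff.1 h9)
    change ∏ p ∈ S a s, p = e s
    rw [h3]
    exact Nat.prod_primeFactors_of_squarefree hsq
  · intro a _
    change _ = ∏ s, ∏ p ∈ (∏ p ∈ S a s, p).primeFactors, g s p
    rw [← Finset.prod_fiberwise (Finset.univ : Finset N.primeFactors) a]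
    refine Finset.prod_congr rfl fun s _ => ?_
    rw [hpf a s]
    change _ = ∏ p ∈ (univ.filter (fun p : N.primeFactors => a p = s)).map
      (Function.Embedding.subtype _), g s p
    rw [Finset.prod_map]
    refine Finset.prod_congr rfl fun p hp => ?_
    rw [(Finset.mem_filter.1 hp).2]
    rfl

end Pool.Agent.Helper38.TW
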