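import Mathlib
import Pool.Agent.Helper38.TW.MDefs
import Pool.Agent.Helper38.TW.Factor

/-!
# TW-C3: the expansion of the number of admissible tuples

Let `c` be the Fourier coefficients of `φ`. For a tuple `D : ι → ℕ` with `∏ D_i` odd and squarefree let `δ(D) = 1` if `φ i p (pat D i p)` for all `i`, `p ∣ D_i` and `0` otherwise. Then (for `p ∣ D_i`, `k ≠ i`: `p ∤ D_k`, so `(D_k/p) = ±1` and
`∏_{k ∈ S} (D_k / p) = (-1)^{|S ∩ pat D i p|}` for `S ∌ i`; for `S ∋ i` the coefficient is `0`)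
`δ(D) = ∏_i ∏_{p ∣ D_i} ∑_S c i p S ∏_{k ∈ S} (D_k/p)`. By `prod_sum_factor` (for each `i`, `σ = Finset ι`, `N = D_i`)
`= ∏_i ∑_{e : ∏_S e_S = D_i} ∏_S ∏_{p ∣ e_S} (c i p S ∏_{k ∈ S} (D_k/p))`, and `∏_{p ∣ e_S} (D_k/p) = (D_k/e_S)` (`e_S` squarefree: `jacobiSym` is the product over the prime factors; `jacobiSym.mul_right`, `Nat.prod_primeFactors_of_squarefree`).
Exchanging (`Finset.prod_univ_sum`) gives a sum over `n : ι × Finset ι → ℕ` with `cls n i = D_i` for all `i`, of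
`∏_{(i,S)} (∏_{p ∣ n(i,S)} c i p S) ∏_{(i,S)} ∏_{k ∈ S} (D_k/n(i,S))`, and `(D_k/n_v) = ∏_T (n_{(k,T)}/n_v)` (`jacobiSym.mul_left`): this is `PhiV c n`.
(For `S ∋ i` and `n(i,S) > 1` the coefficient product is `0`; for `n(i,S) = 1` all symbols are `1`; the formula for `PhiV` is the same.)
Summing over `D` (`∏ D ≤ Y`, `D_i > z`): every `n` with `∏_v n_v` odd squarefree `≤ Y` and `z < cls n i` for all `i` occurs for exactly one `D`, namely `D_i = cls n i` (`∏_i cls n i = ∏_v n_v`, `Fintype.prod_prod_type`).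
`Adm φ z Y` is finite (every `D_i ≤ Y`).
`δ_eq` is the formula for one `D`, `count_eq` the sum.
-/

set_option autoImplicit false

namespace Pool.Agent.Helper38.TW

open Finset

variable {ι : Type} [Fintype ι] [DecidableEq ι]

private lemma jac_prod_left {σ : Type} (s : Finset σ) (f : σ → ℕ) (b : ℕ) :
    jacobiSym ((∏ x ∈ s, f x : ℕ) : ℤ) b = ∏ x ∈ s, jacobiSym (f x : ℤ) b := by
  classical
  induction s using Finset.induction_on with
  | empty => simp [jacobiSym.one_left]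
  | insert a s ha ih =>
    rw [Finset.prod_insert ha, Finset.prod_insert ha, Nat.cast_mul, jacobiSym.mul_left, ih]

private lemma jac_prod_right (a : ℤ) (s : Finset ℕ) (hs : ∀ p ∈ s, p ≠ 0) :
    jacobiSym a (∏ p ∈ s, p) = ∏ p ∈ s, jacobiSym a p := by
  classical
  induction s using Finset.induction_on with
  | empty => simp [jacobiSym.one_right]
  | insert q s hq ih =>
    have h1 : q ≠ 0 := hs q (Finset.mem_insert_self q s)
    have h2 : ∀ p ∈ s, p ≠ 0 := fun p hp => hs p (Finset.mem_insert_of_mem hp)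
    have h3 : (∏ p ∈ s, p) ≠ 0 := Finset.prod_ne_zero_iff.mpr h2
    rw [Finset.prod_insert hq, Finset.prod_insert hq, jacobiSym.mul_right' a h1 h3, ih h2]

private lemma jac_sqf (a : ℤ) (n : ℕ) (hn : Squarefree n) :
    ∏ p ∈ n.primeFactors, jacobiSym a p = jacobiSym a n := by
  have h := jac_prod_right a n.primeFactors (fun p hp => (Nat.prime_of_mem_primeFactors hp).ne_zero)
  rw [Nat.prod_primeFactors_of_squarefree hn] at h
  exact h.symm

/-- a single Fourier term -/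
private lemma four_term (φ : ι → ℕ → Finset ι → Prop) (c : ι → ℕ → Finset ι → ℝ)
    (hc : IsFour φ c) (D : ι → ℕ) (hodd : Odd (∏ i, D i)) (hsq : Squarefree (∏ i, D i))
    (i : ι) (p : ℕ) (hp : p ∈ (D i).primeFactors) (S : Finset ι) :
    c i p S * ∏ k ∈ S, (jacobiSym (D k : ℤ) p : ℝ) =
      c i p S * (-1 : ℝ) ^ (S ∩ pat D i p).card := by
  by_cases hi : i ∈ S
  · rw [hc.1 i p S hi, zero_mul, zero_mul]
  congr 1
  have hpp : p.Prime := Nat.prime_of_mem_primeFactors hp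
  have hpd : p ∣ D i := Nat.dvd_of_mem_primeFactors hp
  have hcop : ∀ k, k ≠ i → (D k : ℤ).gcd p = 1 := by
    intro k hk
    have h1 : D i * D k ∣ ∏ i, D i := by
      have h2 : ∏ j ∈ ({i, k} : Finset ι), D j ∣ ∏ j, D j :=
        Finset.prod_dvd_prod_of_subset _ _ _ (Finset.subset_univ _)
      rwa [Finset.prod_pair (Ne.symm hk)] at h2
    have h3 : Nat.Coprime (D i) (D k) := Nat.coprime_of_squarefree_mul (hsq.squarefree_of_dvd h1)
    have h4 : Nat.Coprime (D k) p := (Nat.Coprime.coprime_dvd_left hpd h3).symm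
    simpa [Int.gcd_natCast_natCast] using h4
  have h5 : ∀ k ∈ S, (jacobiSym (D k : ℤ) p : ℝ) = if k ∈ pat D i p then (-1 : ℝ) else 1 := by
    intro k hk
    have hki : k ≠ i := fun h => hi (h ▸ hk)
    by_cases hkp : k ∈ pat D i p
    · rw [if_pos hkp]
      have := (Finset.mem_filter.mp hkp).2.2
      rw [this]; norm_num
    · rw [if_neg hkp]
      have h6 : jacobiSym (D k : ℤ) p ≠ -1 := by
        intro h
        exact hkp (Finset.mem_filter.mpr ⟨Finset.mem_univ _, hki, h⟩)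
      rcases jacobiSym.eq_one_or_neg_one (hcop k hki) with h7 | h7
      · rw [h7]; norm_num
      · exact absurd h7 h6
  rw [Finset.prod_congr rfl h5, Finset.prod_ite, Finset.prod_const, Finset.prod_const_one, mul_one,
    Finset.filter_mem_eq_inter]

open Classical in
private lemma delta_prod (φ : ι → ℕ → Finset ι → Prop) (c : ι → ℕ → Finset ι → ℝ)
    (hc : IsFour φ c) (D : ι → ℕ) (hodd : Odd (∏ i, D i)) (hsq : Squarefree (∏ i, D i)) :
    (if (∀ i, ∀ p ∈ (D i).primeFactors, φ i p (pat D i p)) then (1 : ℝ) else 0) =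
      ∏ i, ∏ p ∈ (D i).primeFactors, ∑ S : Finset ι,
        (c i p S * ∏ k ∈ S, (jacobiSym (D k : ℤ) p : ℝ)) := by
  have hpat : ∀ i p, pat D i p ⊆ univ.erase i := by
    intro i p k hk
    exact Finset.mem_erase.mpr ⟨(Finset.mem_filter.mp hk).2.1, Finset.mem_univ _⟩
  have hfac : ∀ i, ∀ p ∈ (D i).primeFactors, ∑ S : Finset ι,
      (c i p S * ∏ k ∈ S, (jacobiSym (D k : ℤ) p : ℝ)) =
      if φ i p (pat D i p) then (1 : ℝ) else 0 := by
    intro i p hp
    rw [Finset.sum_congr rfl (fun S _ => four_term φ c hc D hodd hsq i p hp S)]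
    by_cases h : φ i p (pat D i p)
    · rw [if_pos h]; exact (hc.2.2 i p _ (hpat i p)).1 h
    · rw [if_neg h]; exact (hc.2.2 i p _ (hpat i p)).2 h
  rw [Finset.prod_congr rfl (fun i _ => Finset.prod_congr rfl (hfac i))]
  by_cases h : ∀ i, ∀ p ∈ (D i).primeFactors, φ i p (pat D i p)
  · rw [if_pos h]
    symm
    refine Finset.prod_eq_one (fun i _ => Finset.prod_eq_one (fun p hp => ?_))
    rw [if_pos (h i p hp)]
  · rw [if_neg h]
    push Not at h
    obtain ⟨i, p, hp, hn⟩ := h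
    symm
    refine Finset.prod_eq_zero (Finset.mem_univ i) (Finset.prod_eq_zero hp ?_)
    rw [if_neg hn]

open Classical in
theorem delta_eq (φ : ι → ℕ → Finset ι → Prop) (c : ι → ℕ → Finset ι → ℝ) (hc : IsFour φ c)
    (D : ι → ℕ) (hodd : Odd (∏ i, D i)) (hsq : Squarefree (∏ i, D i)) :
    (if (∀ i, ∀ p ∈ (D i).primeFactors, φ i p (pat D i p)) then (1 : ℝ) else 0) =
      ∑ n ∈ (Fintype.piFinset (fun v : ι × Finset ι => (D v.1).divisors)).filter
        (fun n => ∀ i, cls n i = D i), PhiV c n := by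
  have hsqi : ∀ i, Squarefree (D i) := fun i =>
    hsq.squarefree_of_dvd (Finset.dvd_prod_of_mem _ (Finset.mem_univ i))
  rw [delta_prod φ c hc D hodd hsq]
  have h1 : ∀ i, ∏ p ∈ (D i).primeFactors, ∑ S : Finset ι,
        (c i p S * ∏ k ∈ S, (jacobiSym (D k : ℤ) p : ℝ)) =
      ∑ e ∈ (Fintype.piFinset (fun _ : Finset ι => (D i).divisors)).filter
        (fun e => ∏ S, e S = D i),
        ∏ S, ∏ p ∈ (e S).primeFactors, (c i p S * ∏ k ∈ S, (jacobiSym (D k : ℤ) p : ℝ)) := by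
    intro i
    exact prod_sum_factor (D i) (hsqi i)
      (fun S p => c i p S * ∏ k ∈ S, (jacobiSym (D k : ℤ) p : ℝ))
  rw [Finset.prod_congr rfl (fun i _ => h1 i), Finset.prod_univ_sum]
  refine Finset.sum_bij' (fun x _ => fun v : ι × Finset ι => x v.1 v.2)
    (fun n _ => fun i S => n (i, S)) ?_ ?_ ?_ ?_ ?_
  · intro x hx
    rw [Fintype.mem_piFinset] at hx
    rw [Finset.mem_filter, Fintype.mem_piFinset]
    refine ⟨fun v => ?_, fun i => ?_⟩
    · have := (Finset.mem_filter.mp (hx v.1)).1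
      rw [Fintype.mem_piFinset] at this
      exact this v.2
    · exact (Finset.mem_filter.mp (hx i)).2
  · intro n hn
    rw [Finset.mem_filter, Fintype.mem_piFinset] at hn
    rw [Fintype.mem_piFinset]
    intro i
    rw [Finset.mem_filter, Fintype.mem_piFinset]
    exact ⟨fun S => hn.1 (i, S), hn.2 i⟩
  · intro x hx; rfl
  · intro n hn; rfl
  · intro x hx
    rw [Fintype.mem_piFinset] at hx
    have hsqv : ∀ i S, Squarefree (x i S) := by
      intro i S
      have h2 := (Finset.mem_filter.mp (hx i)).1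
      rw [Fintype.mem_piFinset] at h2
      exact (hsqi i).squarefree_of_dvd (Nat.dvd_of_mem_divisors (h2 S))
    have hcls : ∀ i, ∏ S, x i S = D i := fun i => (Finset.mem_filter.mp (hx i)).2
    unfold PhiV
    rw [Fintype.prod_prod_type, Fintype.prod_prod_type, ← Finset.prod_mul_distrib]
    refine Finset.prod_congr rfl (fun i _ => ?_)
    rw [← Finset.prod_mul_distrib]
    refine Finset.prod_congr rfl (fun S _ => ?_)
    rw [Finset.prod_mul_distrib]
    congr 1
    rw [Finset.prod_comm]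
    have h3 : ∀ k ∈ S, ∏ p ∈ (x i S).primeFactors, (jacobiSym (D k : ℤ) p : ℝ) =
        ∏ T : Finset ι, (jacobiSym (x k T : ℤ) (x i S) : ℝ) := by
      intro k _
      have h4 := jac_sqf (D k : ℤ) (x i S) (hsqv i S)
      have h5 := jac_prod_left (Finset.univ : Finset (Finset ι)) (fun T => x k T) (x i S)
      rw [hcls k] at h5
      rw [h5] at h4
      exact_mod_cast congrArg (fun z : ℤ => (z : ℝ)) h4
    rw [Finset.prod_congr rfl h3, ← Finset.prod_product']
    refine Finset.prod_congr ?_ (fun _ _ => rfl)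
    ext w
    simp

private lemma adm_sub (φ : ι → ℕ → Finset ι → Prop) (z Y : ℕ) (D : ι → ℕ)
    (hodd : Odd (∏ i, D i)) (hY : ∏ i, D i ≤ Y) : ∀ i, 1 ≤ D i ∧ D i ≤ Y := by
  intro i
  have h0 : (∏ i, D i) ≠ 0 := by
    intro h
    rw [h] at hodd
    exact absurd hodd (by decide)
  have h1 : D i ≠ 0 := Finset.prod_ne_zero_iff.mp h0 i (Finset.mem_univ i)
  refine ⟨Nat.one_le_iff_ne_zero.mpr h1, ?_⟩
  exact le_trans (Nat.le_of_dvd (Nat.pos_of_ne_zero h0)
    (Finset.dvd_prod_of_mem _ (Finset.mem_univ i))) hY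

theorem adm_finite (φ : ι → ℕ → Finset ι → Prop) (z Y : ℕ) : (Adm φ z Y).Finite := by
  refine Set.Finite.subset (Finset.finite_toSet (Fintype.piFinset (fun _ : ι => Icc 1 Y))) ?_
  intro D hD
  rw [Finset.mem_coe, Fintype.mem_piFinset]
  intro i
  exact Finset.mem_Icc.mpr (adm_sub φ z Y D hD.1 hD.2.2.1 i)

theorem count_eq (φ : ι → ℕ → Finset ι → Prop) (c : ι → ℕ → Finset ι → ℝ) (hc : IsFour φ c)
    (z Y : ℕ) :
    ((Adm φ z Y).ncard : ℝ) =
      ∑ n ∈ (Fintype.piFinset (fun _ : ι × Finset ι => Icc 1 Y)).filter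
        (fun n => Odd (∏ v, n v) ∧ Squarefree (∏ v, n v) ∧ ∏ v, n v ≤ Y ∧ ∀ i, z < cls n i),
        PhiV c n := by
  classical
  set A : Finset (ι × Finset ι → ℕ) :=
    (Fintype.piFinset (fun _ : ι × Finset ι => Icc 1 Y)).filter
        (fun n => Odd (∏ v, n v) ∧ Squarefree (∏ v, n v) ∧ ∏ v, n v ≤ Y ∧ ∀ i, z < cls n i)
    with hA
  set B : Finset (ι → ℕ) := (Fintype.piFinset (fun _ : ι => Icc 1 Y)).filter
    (fun D => Odd (∏ i, D i) ∧ Squarefree (∏ i, D i) ∧ ∏ i, D i ≤ Y ∧ ∀ i, z < D i) with hB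
  have hclsprod : ∀ n : ι × Finset ι → ℕ, ∏ i, cls n i = ∏ v, n v := by
    intro n
    rw [Fintype.prod_prod_type]
    rfl
  have hAdm : Adm φ z Y =
      ↑(B.filter (fun D => ∀ i, ∀ p ∈ (D i).primeFactors, φ i p (pat D i p))) := by
    ext D
    rw [Finset.mem_coe, Finset.mem_filter, hB, Finset.mem_filter, Fintype.mem_piFinset]
    constructor
    · intro h
      exact ⟨⟨fun i => Finset.mem_Icc.mpr (adm_sub φ z Y D h.1 h.2.2.1 i),
        h.1, h.2.1, h.2.2.1, h.2.2.2.1⟩, h.2.2.2.2⟩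
    · intro h
      exact ⟨h.1.2.1, h.1.2.2.1, h.1.2.2.2.1, h.1.2.2.2.2, h.2⟩
  rw [hAdm, Set.ncard_coe_finset, Finset.card_filter, Nat.cast_sum]
  have hmaps : ∀ n ∈ A, cls n ∈ B := by
    intro n hn
    rw [hA, Finset.mem_filter] at hn
    obtain ⟨-, h1, h2, h3, h4⟩ := hn
    rw [hB, Finset.mem_filter, Fintype.mem_piFinset]
    rw [← hclsprod n] at h1 h2 h3
    exact ⟨fun i => Finset.mem_Icc.mpr (adm_sub φ z Y (cls n) h1 h3 i), h1, h2, h3, h4⟩
  rw [← Finset.sum_fiberwise_of_maps_to hmaps (fun n => PhiV c n)]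
  refine Finset.sum_congr rfl (fun D hD => ?_)
  rw [hB, Finset.mem_filter, Fintype.mem_piFinset] at hD
  obtain ⟨hD0, hD1, hD2, hD3, hD4⟩ := hD
  push_cast
  rw [delta_eq φ c hc D hD1 hD2]
  refine Finset.sum_congr ?_ (fun _ _ => rfl)
  ext n
  rw [Finset.mem_filter, Finset.mem_filter, hA, Finset.mem_filter, Fintype.mem_piFinset,
    Fintype.mem_piFinset]
  constructor
  · rintro ⟨h1, h2⟩
    have h3 : cls n = D := funext h2
    have h4 : ∏ v, n v = ∏ i, D i := by rw [← hclsprod n, h3]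
    refine ⟨⟨fun v => ?_, ?_, ?_, ?_, ?_⟩, h3⟩
    · have h5 := h1 v
      have h6 := Finset.mem_Icc.mp (hD0 v.1)
      exact Finset.mem_Icc.mpr ⟨Nat.pos_of_mem_divisors h5,
        le_trans (Nat.divisor_le h5) h6.2⟩
    · rw [h4]; exact hD1
    · rw [h4]; exact hD2
    · rw [h4]; exact hD3
    · intro i; rw [h3]; exact hD4 i
  · rintro ⟨⟨h1, h2, h3, h4, h5⟩, h6⟩
    refine ⟨fun v => ?_, fun i => congrFun h6 i⟩
    rw [Nat.mem_divisors]
    refine ⟨?_, ?_⟩
    · rw [← h6]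
      unfold cls
      exact Finset.dvd_prod_of_mem (fun S => n (v.1, S)) (Finset.mem_univ v.2)
    · have := (Finset.mem_Icc.mp (hD0 v.1)).1
      omega

end Pool.Agent.Helper38.TW
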