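import Mathlib

/-!
# TW-O1: pairs of Jacobi symbols have bounded partial sums

Let `b ≠ b'` be odd and squarefree. Put `h(t) = (t/b) (t/b')`, `q = b b'`. `h` has period `q`, and `∑_{t mod q} h(t) = 0`, so `|∑_{t ≤ T} h(t)| ≤ q` (the partial sum is
a sum over `< q` consecutive `t`, each term is at most `1` in absolute value).
Sum over a period: as `b ≠ b'` are squarefree there is a prime `p` that divides exactly one of them, say `p ∣ b`, `p ∤ b'` (the statement is symmetric). Choose `s` with
`s ≡ (a nonresidue) mod p` and `s ≡ 1 mod (b/p) b'` (CRT: `p` does not divide `(b/p) b'` because `b` is squarefree). Then `(s/b) = -1`, `(s/b') = 1`, `h(s t) = - h(t)`, and `t ↦ s t` permutes the residues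
mod `q` (`s` is a unit mod `q`), so the sum `Σ` over a period satisfies `Σ = -Σ`.
Mathlib: `jacobiSym.mod_left`, `jacobiSym.mul_left`, `jacobiSym.mul_right`, `legendreSym`, `ZMod.exists_sq_ne..` / `quadraticChar_exists_neg_one` (existence of a nonresidue), `Nat.chineseRemainder`.
It may be convenient to work with a function on `ZMod q`.
-/

set_option autoImplicit false

namespace Pool.Agent.Helper38.TW

private theorem jac_mod_nat (t q b : ℕ) (h : b ∣ q) :
    jacobiSym ((t % q : ℕ) : ℤ) b = jacobiSym (t : ℤ) b := by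
  apply jacobiSym.mod_left'
  have : (t % q) % b = t % b := Nat.mod_mod_of_dvd t h
  exact_mod_cast this

private theorem exists_nonres (p : ℕ) (hp : p.Prime) (hodd : Odd p) :
    ∃ a : ℕ, jacobiSym (a : ℤ) p = -1 := by
  haveI : Fact p.Prime := ⟨hp⟩
  have h2 : ringChar (ZMod p) ≠ 2 := by
    rw [ZMod.ringChar_zmod_n]
    rintro rfl
    exact absurd hodd (by decide)
  obtain ⟨a, ha⟩ := quadraticChar_exists_neg_one h2
  refine ⟨a.val, ?_⟩
  rw [← jacobiSym.legendreSym.to_jacobiSym, legendreSym]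
  have : (((a.val : ℕ) : ℤ) : ZMod p) = a := by
    simp
  rw [this, ha]

private theorem period_sum_aux (b b' : ℕ) (hb : Squarefree b) (hb' : Squarefree b') (hbo : Odd b)
    (p : ℕ) (hp : p.Prime) (hpb : p ∣ b) (hpb' : ¬ p ∣ b') :
    ∑ t ∈ Finset.range (b * b'), jacobiSym (t : ℤ) b * jacobiSym (t : ℤ) b' = 0 := by
  obtain ⟨c, rfl⟩ := hpb
  have hpo : Odd p := by
    rcases Nat.odd_mul.1 hbo with ⟨h, -⟩
    exact h
  have hc0 : c ≠ 0 := by
    rintro rfl
    simp at hb
  have hp0 : p ≠ 0 := hp.ne_zero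
  have hb'0 : b' ≠ 0 := hb'.ne_zero
  have hpc : Nat.Coprime p c := by
    exact (Nat.squarefree_mul_iff.1 hb).1
  have hpb'' : Nat.Coprime p b' := (Nat.Prime.coprime_iff_not_dvd hp).2 hpb'
  have hcop : Nat.Coprime p (c * b') := Nat.Coprime.mul_right hpc hpb''
  obtain ⟨a, ha⟩ := exists_nonres p hp hpo
  obtain ⟨s, hs1, hs2⟩ := Nat.chineseRemainder hcop a 1
  have hJp : jacobiSym (s : ℤ) p = -1 := by
    rw [← ha]
    apply jacobiSym.mod_left'
    exact_mod_cast hs1
  have hJc : jacobiSym (s : ℤ) c = 1 := by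
    rw [← jacobiSym.one_left c]
    apply jacobiSym.mod_left'
    have : s ≡ 1 [MOD c] := Nat.ModEq.of_mul_right b' hs2
    exact_mod_cast this
  have hJb' : jacobiSym (s : ℤ) b' = 1 := by
    rw [← jacobiSym.one_left b']
    apply jacobiSym.mod_left'
    have : s ≡ 1 [MOD b'] := Nat.ModEq.of_mul_left c hs2
    exact_mod_cast this
  have hJb : jacobiSym (s : ℤ) (p * c) = -1 := by
    rw [jacobiSym.mul_right' _ hp0 hc0, hJp, hJc]
    norm_num
  have hcs : Nat.Coprime s (p * c * b') := by
    apply Nat.Coprime.mul_right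
    · by_contra hcon
      have : jacobiSym (s : ℤ) (p * c) = 0 := by
        rw [jacobiSym.eq_zero_iff]
        refine ⟨mul_ne_zero hp0 hc0, ?_⟩
        rw [Int.gcd_natCast_natCast]
        exact hcon
      rw [hJb] at this
      norm_num at this
    · by_contra hcon
      have : jacobiSym (s : ℤ) b' = 0 := by
        rw [jacobiSym.eq_zero_iff]
        refine ⟨hb'0, ?_⟩
        rw [Int.gcd_natCast_natCast]
        exact hcon
      rw [hJb'] at this
      norm_num at this
  set q := p * c * b' with hq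
  have hq0 : q ≠ 0 := by
    rw [hq]
    exact mul_ne_zero (mul_ne_zero hp0 hc0) hb'0
  haveI : NeZero q := ⟨hq0⟩
  let F : ZMod q → ℤ := fun x => jacobiSym ((x.val : ℕ) : ℤ) (p * c) * jacobiSym ((x.val : ℕ) : ℤ) b'
  have hF : ∀ t : ℕ, F (t : ZMod q) = jacobiSym (t : ℤ) (p * c) * jacobiSym (t : ℤ) b' := by
    intro t
    simp only [F]
    rw [ZMod.val_natCast, jac_mod_nat t q (p * c) (Dvd.intro _ rfl),
      jac_mod_nat t q b' (Dvd.intro_left _ rfl)]
  have hsum : ∑ t ∈ Finset.range q, jacobiSym (t : ℤ) (p * c) * jacobiSym (t : ℤ) b'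
      = ∑ x : ZMod q, F x := by
    refine Finset.sum_nbij' (fun t : ℕ => (t : ZMod q)) (fun x => x.val) ?_ ?_ ?_ ?_ ?_
    · intro t _
      exact Finset.mem_univ _
    · intro x _
      exact Finset.mem_range.2 (ZMod.val_lt x)
    · intro t ht
      exact ZMod.val_cast_of_lt (Finset.mem_range.1 ht)
    · intro x _
      exact ZMod.natCast_zmod_val x
    · intro t _
      exact (hF t).symm
  rw [hsum]
  let u : (ZMod q)ˣ := ZMod.unitOfCoprime s hcs
  have hmul : ∀ x : ZMod q, F ((u : ZMod q) * x) = - F x := by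
    intro x
    have h1 : (u : ZMod q) * x = ((s * x.val : ℕ) : ZMod q) := by
      rw [Nat.cast_mul, ZMod.natCast_zmod_val]
      rfl
    rw [h1, hF]
    have h2 : ((s * x.val : ℕ) : ℤ) = (s : ℤ) * (x.val : ℤ) := by push_cast; ring
    rw [h2, jacobiSym.mul_left, jacobiSym.mul_left, hJb, hJb']
    simp only [F]
    ring
  have h3 : ∑ x : ZMod q, F x = ∑ x : ZMod q, F ((u : ZMod q) * x) := by
    exact (Equiv.sum_comp (Units.mulLeft u) F).symm
  have h4 : ∑ x : ZMod q, F ((u : ZMod q) * x) = - ∑ x : ZMod q, F x := by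
    rw [← Finset.sum_neg_distrib]
    exact Finset.sum_congr rfl (fun x _ => hmul x)
  rw [h4] at h3
  linarith

private theorem period_sum (b b' : ℕ) (hb : Squarefree b) (hb' : Squarefree b') (hbo : Odd b)
    (hbo' : Odd b') (hne : b ≠ b') :
    ∑ t ∈ Finset.range (b * b'), jacobiSym (t : ℤ) b * jacobiSym (t : ℤ) b' = 0 := by
  have h : ¬ ∀ p : ℕ, p.Prime → (p ∣ b ↔ p ∣ b') := by
    intro h
    exact hne ((Nat.Squarefree.ext_iff hb hb').2 h)
  push Not at h
  obtain ⟨p, hp, h | h⟩ := h
  · exact period_sum_aux b b' hb hb' hbo p hp h.1 h.2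
  · have := period_sum_aux b' b hb' hb hbo' p hp h.2 h.1
    rw [mul_comm b b']
    rw [← this]
    exact Finset.sum_congr rfl (fun t _ => mul_comm _ _)

theorem jacobi_pair_sum (b b' : ℕ) (hb : Squarefree b) (hb' : Squarefree b') (hbo : Odd b)
    (hbo' : Odd b') (hne : b ≠ b') (T : ℕ) :
    |∑ t ∈ Finset.Icc 1 T, jacobiSym (t : ℤ) b * jacobiSym (t : ℤ) b'| ≤ (b : ℤ) * b' := by
  have hb0 : b ≠ 0 := hb.ne_zero
  have hb'0 : b' ≠ 0 := hb'.ne_zero
  set q := b * b' with hq
  have hq0 : q ≠ 0 := mul_ne_zero hb0 hb'0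
  set h : ℕ → ℤ := fun t => jacobiSym (t : ℤ) b * jacobiSym (t : ℤ) b' with hh
  have hper : ∀ t, h (q + t) = h t := by
    intro t
    simp only [hh]
    congr 1
    · apply jacobiSym.mod_left'
      have : (q + t) % b = t % b := by
        rw [hq, Nat.mul_add_mod]
      exact_mod_cast this
    · apply jacobiSym.mod_left'
      have : (q + t) % b' = t % b' := by
        rw [hq, mul_comm b b', Nat.mul_add_mod]
      exact_mod_cast this
  have hS : ∑ t ∈ Finset.range q, h t = 0 := period_sum b b' hb hb' hbo hbo' hne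
  have habs1 : ∀ (t : ℤ) (b : ℕ), |jacobiSym t b| ≤ 1 := by
    intro t b
    rcases jacobiSym.trichotomy t b with h | h | h <;> rw [h] <;> norm_num
  have habs : ∀ t, |h t| ≤ 1 := by
    intro t
    simp only [hh, abs_mul]
    exact mul_le_one₀ (habs1 _ _) (abs_nonneg _) (habs1 _ _)
  have hbound : ∀ n : ℕ, |∑ t ∈ Finset.range n, h t| ≤ (q : ℤ) := by
    intro n
    induction n using Nat.strong_induction_on with
    | _ n ih =>
      by_cases hn : n ≤ q
      · calc |∑ t ∈ Finset.range n, h t| ≤ ∑ t ∈ Finset.range n, |h t| :=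
              Finset.abs_sum_le_sum_abs _ _
          _ ≤ ∑ t ∈ Finset.range n, (1 : ℤ) := Finset.sum_le_sum (fun t _ => habs t)
          _ = n := by simp
          _ ≤ q := by exact_mod_cast hn
      · push Not at hn
        obtain ⟨m, rfl⟩ : ∃ m, n = q + m := ⟨n - q, by omega⟩
        rw [Finset.sum_range_add, hS, zero_add]
        have : ∑ x ∈ Finset.range m, h (q + x) = ∑ x ∈ Finset.range m, h x :=
          Finset.sum_congr rfl (fun x _ => hper x)
        rw [this]
        exact ih m (by omega)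
  have h0 : h 0 = 0 := by
    simp only [hh]
    by_cases hb1 : b = 1
    · have : 1 < b' := by
        rcases Nat.lt_or_ge 1 b' with h | h
        · exact h
        · exfalso
          apply hne
          omega
      rw [Nat.cast_zero, jacobiSym.zero_left this, mul_zero]
    · have : 1 < b := by omega
      rw [Nat.cast_zero, jacobiSym.zero_left this, zero_mul]
  have hfin : ∑ t ∈ Finset.Icc 1 T, h t = ∑ t ∈ Finset.range (T + 1), h t := by
    rw [Finset.sum_range_succ', h0, add_zero]
    rw [Finset.range_eq_Ico, Finset.sum_Ico_add' (fun x => h x) 0 T 1]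
    rfl
  have := hbound (T + 1)
  rw [← hfin] at this
  rw [hq] at this
  push_cast at this
  exact this

end Pool.Agent.Helper38.TW
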