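import Mathlib
import Pool.Agent.Helper10.DivBound
import Pool.Agent.Helper38.TW.CharSum

/-!
# TW-O2: fourth moment

For `b` in `B = {N < b ≤ N', b odd squarefree}` let `A_b = ∑_{M < a ≤ M'} α_a (a/b)`. Then
`A_b^4 = ∑_{a1,a2,a3,a4} α.. (a1 a2 a3 a4 / b) = ∑_{t ≤ 16 M^4} r(t) (t/b)`, `r(t) = ∑_{a1 a2 a3 a4 = t} α_{a1} .. α_{a4}`, `|r(t)| ≤ #{(a1,a2,a3) : a_i ∣ t} ≤ τ(t)^3` (`a_i ≥ 1`).
Cauchy-Schwarz over `1 ≤ t ≤ T := 16 M^4`:
`∑_{b ∈ B} A_b^4 = ∑_t r(t) (∑_{b ∈ B} (t/b)) ≤ (∑_{t ≤ T} τ(t)^6)^{1/2} (∑_{t ≤ T} (∑_{b ∈ B} (t/b))^2)^{1/2}`.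
* `∑_{t ≤ T} τ(t)^6 ≤ T ∑_{t ≤ T} τ(t)^6/t ≤ T (1 + log T)^64` (`Pool.Agent.Helper10.hsum_le` with `j = 6`, `Pool.Agent.Helper10.tau`).
* `∑_{t ≤ T} (∑_b (t/b))^2 = ∑_{b,b'} ∑_{t ≤ T} (t/b)(t/b')`: the diagonal gives at most `N T` (`#B ≤ N' - N ≤ N`), for `b ≠ b'` use `jacobi_pair_sum`: at most `b b' ≤ 4 N^2`, at most `N^2` pairs:
  total `≤ 16 M^4 N + 4 N^4 ≤ 20 M^4 N` (as `N ≤ M`, `1 ≤ N`; if `N = 0` then `N' = 0` and everything is `0`).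
So `∑ ≤ (16 M^4)^{1/2} (1 + log T)^32 (20 M^4 N)^{1/2} = √320 M^4 √N (1 + log T)^32`, `√320 < 18`.
-/

set_option autoImplicit false

namespace Pool.Agent.Helper38.TW

open Finset Pool.Agent.Helper10

private noncomputable def J (t b : ℕ) : ℝ := (jacobiSym (t : ℤ) b : ℝ)

private theorem J_mul (s t b : ℕ) : J (s * t) b = J s b * J t b := by
  unfold J
  rw [Nat.cast_mul, jacobiSym.mul_left, Int.cast_mul]

private theorem abs_J_le (t b : ℕ) : |J t b| ≤ 1 := by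
  unfold J
  rcases jacobiSym.trichotomy (t : ℤ) b with h | h | h <;> rw [h] <;> norm_num

private theorem J_sq_le (t b : ℕ) : J t b * J t b ≤ 1 := by
  have h := abs_J_le t b
  rw [← abs_mul_abs_self]
  nlinarith [abs_nonneg (J t b)]

private theorem pair_sum (b b' : ℕ) (hb : Squarefree b) (hb' : Squarefree b') (hbo : Odd b)
    (hbo' : Odd b') (hne : b ≠ b') (T : ℕ) :
    ∑ t ∈ Icc 1 T, J t b * J t b' ≤ (b : ℝ) * b' := by
  have h := (le_abs_self _).trans (jacobi_pair_sum b b' hb hb' hbo hbo' hne T)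
  have h2 : ((∑ t ∈ Icc 1 T, jacobiSym (t : ℤ) b * jacobiSym (t : ℤ) b' : ℤ) : ℝ) ≤
      (((b : ℤ) * b' : ℤ) : ℝ) := by exact_mod_cast h
  push_cast at h2
  exact h2

private noncomputable def rr (Q : Finset ((ℕ × ℕ) × (ℕ × ℕ))) (α : ℕ → ℝ) (t : ℕ) : ℝ :=
  ∑ x ∈ Q.filter (fun x => x.1.1 * x.1.2 * (x.2.1 * x.2.2) = t),
    α x.1.1 * α x.1.2 * (α x.2.1 * α x.2.2)

private theorem abs_rr_le (Q : Finset ((ℕ × ℕ) × (ℕ × ℕ))) (α : ℕ → ℝ) (hα : ∀ a, |α a| ≤ 1)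
    (t : ℕ) (ht : 1 ≤ t) : |rr Q α t| ≤ (tau t : ℝ) ^ 3 := by
  classical
  unfold rr
  refine (Finset.abs_sum_le_sum_abs _ _).trans ?_
  have h1 : ∀ x ∈ Q.filter (fun x => x.1.1 * x.1.2 * (x.2.1 * x.2.2) = t),
      |α x.1.1 * α x.1.2 * (α x.2.1 * α x.2.2)| ≤ 1 := by
    intro x _
    rw [abs_mul, abs_mul, abs_mul]
    have h2 : |α x.1.1| * |α x.1.2| ≤ 1 :=
      mul_le_one₀ (hα _) (abs_nonneg _) (hα _)
    have h3 : |α x.2.1| * |α x.2.2| ≤ 1 :=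
      mul_le_one₀ (hα _) (abs_nonneg _) (hα _)
    exact mul_le_one₀ h2 (mul_nonneg (abs_nonneg _) (abs_nonneg _)) h3
  refine (Finset.sum_le_card_nsmul _ _ _ h1).trans ?_
  rw [nsmul_eq_mul, mul_one]
  have h4 : (Q.filter (fun x => x.1.1 * x.1.2 * (x.2.1 * x.2.2) = t)).card ≤
      ((t.divisors ×ˢ t.divisors) ×ˢ t.divisors).card := by
    refine Finset.card_le_card_of_injOn (fun x => (x.1, x.2.1)) ?_ ?_
    · intro x hx
      rw [Finset.mem_coe, Finset.mem_filter] at hx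
      have hx2 := hx.2
      rw [Finset.mem_coe, Finset.mem_product, Finset.mem_product, Nat.mem_divisors,
        Nat.mem_divisors, Nat.mem_divisors]
      have ht0 : t ≠ 0 := by omega
      refine ⟨⟨⟨?_, ht0⟩, ⟨?_, ht0⟩⟩, ⟨?_, ht0⟩⟩
      · exact ⟨x.1.2 * (x.2.1 * x.2.2), by rw [← hx2]; ring⟩
      · exact ⟨x.1.1 * (x.2.1 * x.2.2), by rw [← hx2]; ring⟩
      · exact ⟨x.1.1 * x.1.2 * x.2.2, by rw [← hx2]; ring⟩
    · intro x hx y hy hxy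
      rw [Finset.mem_coe, Finset.mem_filter] at hx hy
      have hx2 := hx.2
      have hy2 := hy.2
      simp only [Prod.mk.injEq] at hxy
      obtain ⟨e1, e2⟩ := hxy
      rcases x with ⟨x1, x2, x3⟩
      rcases y with ⟨y1, y2, y3⟩
      simp only at e1 e2 hx2 hy2
      subst e1
      subst e2
      have h5 : x1.1 * x1.2 * x2 * x3 = x1.1 * x1.2 * x2 * y3 := by
        rw [mul_assoc (x1.1 * x1.2) x2 x3, mul_assoc (x1.1 * x1.2) x2 y3, hx2, hy2]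
      have h6 : 0 < x1.1 * x1.2 * x2 := by
        rcases Nat.eq_zero_or_pos (x1.1 * x1.2 * x2) with h0 | h0
        · rw [← mul_assoc, h0, zero_mul] at hx2
          omega
        · exact h0
      have h7 := Nat.eq_of_mul_eq_mul_left h6 h5
      rw [h7]
  rw [Finset.card_product, Finset.card_product] at h4
  unfold tau
  calc (((Q.filter (fun x => x.1.1 * x.1.2 * (x.2.1 * x.2.2) = t)).card : ℕ) : ℝ)
      ≤ ((t.divisors.card * t.divisors.card * t.divisors.card : ℕ) : ℝ) := by exact_mod_cast h4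
    _ = (t.divisors.card : ℝ) ^ 3 := by push_cast; ring

private theorem sum_sq_le (N N' M T : ℕ) (hM : 1 ≤ M) (hN' : N' ≤ 2 * N) (hNM : N ≤ M)
    (hT : T = 16 * M ^ 4) :
    ∑ t ∈ Icc 1 T, (∑ b ∈ (Ioc N N').filter (fun b => Odd b ∧ Squarefree b), J t b) ^ 2 ≤
      20 * (M : ℝ) ^ 4 * N := by
  classical
  set B := (Ioc N N').filter (fun b => Odd b ∧ Squarefree b) with hB
  have h1 : ∑ t ∈ Icc 1 T, (∑ b ∈ B, J t b) ^ 2 =
      ∑ b ∈ B, ∑ b' ∈ B, ∑ t ∈ Icc 1 T, J t b * J t b' := by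
    have h2 : ∀ t, (∑ b ∈ B, J t b) ^ 2 = ∑ b ∈ B, ∑ b' ∈ B, J t b * J t b' := by
      intro t
      rw [sq, Finset.sum_mul_sum]
    simp_rw [h2]
    rw [Finset.sum_comm]
    refine Finset.sum_congr rfl fun b _ => ?_
    rw [Finset.sum_comm]
  rw [h1]
  have hBN : ∀ b ∈ B, b ≤ 2 * N := by
    intro b hb
    rw [hB, Finset.mem_filter, Finset.mem_Ioc] at hb
    omega
  have hBc : (B.card : ℝ) ≤ N := by
    have h2 : B.card ≤ (Ioc N N').card := Finset.card_filter_le _ _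
    rw [Nat.card_Ioc] at h2
    have h3 : B.card ≤ N := by omega
    exact_mod_cast h3
  have h3 : ∀ b ∈ B, ∑ b' ∈ B, ∑ t ∈ Icc 1 T, J t b * J t b' ≤ T + N * (4 * (N : ℝ) ^ 2) := by
    intro b hb
    have hb' := hb
    rw [hB, Finset.mem_filter] at hb'
    rw [← Finset.add_sum_erase B _ hb]
    refine add_le_add ?_ ?_
    · calc ∑ t ∈ Icc 1 T, J t b * J t b ≤ ∑ _t ∈ Icc 1 T, (1 : ℝ) :=
            Finset.sum_le_sum fun t _ => J_sq_le t b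
        _ = T := by simp
    · have h4 : ∀ b' ∈ B.erase b, ∑ t ∈ Icc 1 T, J t b * J t b' ≤ 4 * (N : ℝ) ^ 2 := by
        intro b' hbb
        rw [Finset.mem_erase] at hbb
        have hb'' := hbb.2
        rw [hB, Finset.mem_filter] at hb''
        refine (pair_sum b b' hb'.2.2 hb''.2.2 hb'.2.1 hb''.2.1 (Ne.symm hbb.1) T).trans ?_
        have h5 : (b : ℝ) ≤ 2 * N := by exact_mod_cast hBN b hb
        have h6 : (b' : ℝ) ≤ 2 * N := by exact_mod_cast hBN b' hbb.2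
        calc (b : ℝ) * b' ≤ (2 * N) * (2 * N) :=
              mul_le_mul h5 h6 (Nat.cast_nonneg _) (by positivity)
          _ = 4 * (N : ℝ) ^ 2 := by ring
      refine (Finset.sum_le_card_nsmul _ _ _ h4).trans ?_
      rw [nsmul_eq_mul]
      refine mul_le_mul_of_nonneg_right ?_ (by positivity)
      have h7 : ((B.erase b).card : ℝ) ≤ B.card := by
        exact_mod_cast Finset.card_le_card (Finset.erase_subset b B)
      exact h7.trans hBc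
  refine (Finset.sum_le_card_nsmul _ _ _ h3).trans ?_
  rw [nsmul_eq_mul]
  have hMR : (1 : ℝ) ≤ M := by exact_mod_cast hM
  have hNR : (N : ℝ) ≤ M := by exact_mod_cast hNM
  have hN0 : (0 : ℝ) ≤ N := Nat.cast_nonneg N
  have h8 : (N : ℝ) ^ 3 ≤ (M : ℝ) ^ 4 := by
    calc (N : ℝ) ^ 3 ≤ (M : ℝ) ^ 3 := pow_le_pow_left₀ hN0 hNR 3
      _ ≤ (M : ℝ) ^ 4 := pow_le_pow_right₀ hMR (by norm_num)
  have h9 : (T : ℝ) = 16 * (M : ℝ) ^ 4 := by
    rw [hT]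
    push_cast
    ring
  calc (B.card : ℝ) * (T + N * (4 * (N : ℝ) ^ 2)) ≤ N * (T + N * (4 * (N : ℝ) ^ 2)) :=
        mul_le_mul_of_nonneg_right hBc (by positivity)
    _ = N * (16 * (M : ℝ) ^ 4 + 4 * (N : ℝ) ^ 3) := by rw [h9]; ring
    _ ≤ N * (16 * (M : ℝ) ^ 4 + 4 * (M : ℝ) ^ 4) :=
        mul_le_mul_of_nonneg_left (by linarith) hN0
    _ = 20 * (M : ℝ) ^ 4 * N := by ring

theorem fourth_moment (M M' N N' : ℕ) (hM : 1 ≤ M) (hM' : M' ≤ 2 * M) (hN' : N' ≤ 2 * N)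
    (hNM : N ≤ M) (α : ℕ → ℝ) (hα : ∀ a, |α a| ≤ 1) :
    ∑ b ∈ (Ioc N N').filter (fun b => Odd b ∧ Squarefree b),
      (∑ a ∈ Ioc M M', α a * (jacobiSym (a : ℤ) b : ℝ)) ^ 4 ≤
      18 * (M : ℝ) ^ 4 * Real.sqrt N * (1 + Real.log (16 * (M : ℝ) ^ 4)) ^ 32 := by
  classical
  set T : ℕ := 16 * M ^ 4 with hT
  set I := Ioc M M' with hI
  set B := (Ioc N N').filter (fun b => Odd b ∧ Squarefree b) with hB
  set Q := (I ×ˢ I) ×ˢ (I ×ˢ I) with hQ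
  have hTR : (T : ℝ) = 16 * (M : ℝ) ^ 4 := by
    rw [hT]
    push_cast
    ring
  have hT1 : 1 ≤ T := by
    rw [hT]
    have : 1 ≤ M ^ 4 := Nat.one_le_pow _ _ hM
    omega
  have hA4 : ∀ b, (∑ a ∈ I, α a * (jacobiSym (a : ℤ) b : ℝ)) ^ 4 =
      ∑ x ∈ Q, α x.1.1 * α x.1.2 * (α x.2.1 * α x.2.2) *
        J (x.1.1 * x.1.2 * (x.2.1 * x.2.2)) b := by
    intro b
    have h1 : (∑ a ∈ I, α a * (jacobiSym (a : ℤ) b : ℝ)) ^ 4 =
        ((∑ a ∈ I, α a * J a b) * (∑ a ∈ I, α a * J a b)) *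
          ((∑ a ∈ I, α a * J a b) * (∑ a ∈ I, α a * J a b)) := by
      unfold J
      ring
    rw [h1, Finset.sum_mul_sum, ← Finset.sum_product', Finset.sum_mul_sum,
      ← Finset.sum_product']
    refine Finset.sum_congr rfl fun x _ => ?_
    rw [J_mul, J_mul, J_mul]
    ring
  have hmaps : ∀ x ∈ Q, x.1.1 * x.1.2 * (x.2.1 * x.2.2) ∈ Icc 1 T := by
    intro x hx
    rw [hQ, Finset.mem_product, Finset.mem_product, Finset.mem_product, hI, Finset.mem_Ioc,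
      Finset.mem_Ioc, Finset.mem_Ioc, Finset.mem_Ioc] at hx
    obtain ⟨⟨⟨a1, a2⟩, ⟨a3, a4⟩⟩, ⟨a5, a6⟩, ⟨a7, a8⟩⟩ := hx
    rw [Finset.mem_Icc]
    constructor
    · have b1 : 0 < x.1.1 := by omega
      have b2 : 0 < x.1.2 := by omega
      have b3 : 0 < x.2.1 := by omega
      have b4 : 0 < x.2.2 := by omega
      exact Nat.mul_pos (Nat.mul_pos b1 b2) (Nat.mul_pos b3 b4)
    · calc x.1.1 * x.1.2 * (x.2.1 * x.2.2) ≤ (2 * M) * (2 * M) * ((2 * M) * (2 * M)) :=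
            Nat.mul_le_mul (Nat.mul_le_mul (by omega) (by omega))
              (Nat.mul_le_mul (by omega) (by omega))
        _ = T := by rw [hT]; ring
  have hmain : ∑ b ∈ B, (∑ a ∈ I, α a * (jacobiSym (a : ℤ) b : ℝ)) ^ 4 =
      ∑ t ∈ Icc 1 T, rr Q α t * ∑ b ∈ B, J t b := by
    rw [Finset.sum_congr rfl fun b _ => hA4 b, Finset.sum_comm,
      ← Finset.sum_fiberwise_of_maps_to hmaps]
    refine Finset.sum_congr rfl fun t _ => ?_
    unfold rr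
    rw [Finset.sum_mul]
    refine Finset.sum_congr rfl fun x hx => ?_
    rw [Finset.mul_sum]
    refine Finset.sum_congr rfl fun b _ => ?_
    rw [(Finset.mem_filter.1 hx).2]
  rw [hmain]
  have hcs := Finset.sum_mul_sq_le_sq_mul_sq (Icc 1 T) (rr Q α) (fun t => ∑ b ∈ B, J t b)
  have hr : ∑ t ∈ Icc 1 T, rr Q α t ^ 2 ≤ T * (1 + Real.log T) ^ 64 := by
    have h1 : ∀ t ∈ Icc 1 T, rr Q α t ^ 2 ≤ T * ((tau t : ℝ) ^ 6 / t) := by
      intro t ht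
      rw [Finset.mem_Icc] at ht
      have h2 := abs_rr_le Q α hα t ht.1
      have h3 : rr Q α t ^ 2 ≤ ((tau t : ℝ) ^ 3) ^ 2 := by
        rw [← sq_abs]
        exact pow_le_pow_left₀ (abs_nonneg _) h2 2
      have ht0 : (0 : ℝ) < t := by exact_mod_cast ht.1
      have htT : (t : ℝ) ≤ T := by exact_mod_cast ht.2
      refine h3.trans ?_
      rw [← pow_mul, mul_div_assoc', le_div_iff₀ ht0, mul_comm]
      exact mul_le_mul_of_nonneg_right htT (by positivity)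
    refine (Finset.sum_le_sum h1).trans ?_
    rw [← Finset.mul_sum]
    refine mul_le_mul_of_nonneg_left ?_ (Nat.cast_nonneg _)
    have h4 := hsum_le 6 T hT1
    unfold hsum at h4
    norm_num at h4
    exact h4
  have hS := sum_sq_le N N' M T hM hN' hNM hT
  have hlog : 0 ≤ Real.log (T : ℝ) := Real.log_natCast_nonneg T
  have hfin : (∑ t ∈ Icc 1 T, rr Q α t * ∑ b ∈ B, J t b) ^ 2 ≤
      (18 * (M : ℝ) ^ 4 * Real.sqrt N * (1 + Real.log T) ^ 32) ^ 2 := by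
    refine hcs.trans ?_
    have h1 : (∑ t ∈ Icc 1 T, rr Q α t ^ 2) * (∑ t ∈ Icc 1 T, (∑ b ∈ B, J t b) ^ 2) ≤
        (T * (1 + Real.log T) ^ 64) * (20 * (M : ℝ) ^ 4 * N) :=
      mul_le_mul hr hS (Finset.sum_nonneg fun _ _ => sq_nonneg _) (by positivity)
    refine h1.trans ?_
    have h2 : (18 * (M : ℝ) ^ 4 * Real.sqrt N * (1 + Real.log T) ^ 32) ^ 2 =
        324 * (M : ℝ) ^ 8 * N * (1 + Real.log T) ^ 64 := by
      have h3 : Real.sqrt N ^ 2 = N := Real.sq_sqrt (Nat.cast_nonneg N)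
      calc (18 * (M : ℝ) ^ 4 * Real.sqrt N * (1 + Real.log T) ^ 32) ^ 2 =
          324 * (M : ℝ) ^ 8 * Real.sqrt N ^ 2 * (1 + Real.log T) ^ 64 := by ring
        _ = _ := by rw [h3]
    rw [h2, hTR]
    have h4 : (16 * (M : ℝ) ^ 4 * (1 + Real.log (16 * (M : ℝ) ^ 4)) ^ 64) *
        (20 * (M : ℝ) ^ 4 * N) =
        320 * ((M : ℝ) ^ 8 * N * (1 + Real.log (16 * (M : ℝ) ^ 4)) ^ 64) := by ring
    have h5 : 324 * (M : ℝ) ^ 8 * N * (1 + Real.log (16 * (M : ℝ) ^ 4)) ^ 64 =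
        324 * ((M : ℝ) ^ 8 * N * (1 + Real.log (16 * (M : ℝ) ^ 4)) ^ 64) := by ring
    rw [h4, h5]
    refine mul_le_mul_of_nonneg_right (by norm_num) ?_
    rw [← hTR]
    positivity
  have h6 := abs_le_of_sq_le_sq hfin (by positivity)
  rw [hTR] at h6
  exact (le_abs_self _).trans h6

end Pool.Agent.Helper38.TW
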