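import Mathlib
import Pool.Agent.Helper38.TW.FourthMoment

/-!
# TW-O3: a block `M < a ≤ M'`, `N < b ≤ N'` with `N ≤ M`

`S = ∑_b β_b A_b`, `A_b = ∑_a α_a (a/b)`; `β_b ≠ 0` only for `b` odd squarefree. By Cauchy-Schwarz twice (or Hölder, `inner_le_Lp_mul_Lq`):
`|S| ≤ ∑_b |A_b| ≤ (#B)^{3/4} (∑_b A_b^4)^{1/4}`, `#B ≤ N`, and `fourth_moment`:
`|S|^4 ≤ N^3 · 18 M^4 √N L^32`, `L = 1 + log (16 M^4)`, hence `|S| ≤ 18^{1/4} M N^{7/8} L^8 ≤ 3 M N^{7/8} L^8`.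
(If `N = 0`: the sum is empty.) Convenient: prove `S^4 ≤ (3 M N^{7/8} L^8)^4` and use `pow_le_pow_left` / `abs_le_of_sq_le`.
-/

set_option autoImplicit false

namespace Pool.Agent.Helper38.TW

open Finset

theorem block_ge (M M' N N' : ℕ) (hM : 1 ≤ M) (hM' : M' ≤ 2 * M) (hN' : N' ≤ 2 * N)
    (hNM : N ≤ M) (α β : ℕ → ℝ) (hα : ∀ a, |α a| ≤ 1) (hβ : ∀ b, |β b| ≤ 1)
    (hβ0 : ∀ b, β b ≠ 0 → Odd b ∧ Squarefree b) :
    |∑ a ∈ Ioc M M', ∑ b ∈ Ioc N N', α a * β b * (jacobiSym (a : ℤ) b : ℝ)| ≤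
      3 * (M : ℝ) * (N : ℝ) ^ (7 / 8 : ℝ) * (1 + Real.log (16 * (M : ℝ) ^ 4)) ^ 8 := by
  classical
  set L : ℝ := 1 + Real.log (16 * (M : ℝ) ^ 4) with hL
  set B : Finset ℕ := (Ioc N N').filter (fun b => Odd b ∧ Squarefree b) with hB
  set A : ℕ → ℝ := fun b => ∑ a ∈ Ioc M M', α a * (jacobiSym (a : ℤ) b : ℝ) with hA
  have hM1 : (1 : ℝ) ≤ M := by exact_mod_cast hM
  have hL0 : 0 ≤ L := by
    have h1 : (1 : ℝ) ≤ 16 * (M : ℝ) ^ 4 := by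
      have : (1 : ℝ) ≤ (M : ℝ) ^ 4 := one_le_pow₀ hM1
      linarith
    have := Real.log_nonneg h1
    rw [hL]
    linarith
  have hN0 : (0 : ℝ) ≤ N := Nat.cast_nonneg N
  -- the sum as a sum over `B`
  have hswap : ∑ a ∈ Ioc M M', ∑ b ∈ Ioc N N', α a * β b * (jacobiSym (a : ℤ) b : ℝ) =
      ∑ b ∈ Ioc N N', β b * A b := by
    rw [Finset.sum_comm]
    apply Finset.sum_congr rfl
    intro b _
    rw [hA, Finset.mul_sum]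
    apply Finset.sum_congr rfl
    intro a _
    ring
  have hle : |∑ b ∈ Ioc N N', β b * A b| ≤ ∑ b ∈ B, |A b| := by
    refine (Finset.abs_sum_le_sum_abs _ _).trans ?_
    rw [hB, Finset.sum_filter]
    apply Finset.sum_le_sum
    intro b _
    rw [abs_mul]
    by_cases hb : β b = 0
    · rw [hb, abs_zero, zero_mul]
      split_ifs
      · exact abs_nonneg _
      · exact le_rfl
    · rw [if_pos (hβ0 b hb)]
      calc |β b| * |A b| ≤ 1 * |A b| := mul_le_mul_of_nonneg_right (hβ b) (abs_nonneg _)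
        _ = |A b| := one_mul _
  have hcard : (B.card : ℝ) ≤ N := by
    have h1 : B.card ≤ N := by
      refine (Finset.card_filter_le _ _).trans ?_
      rw [Nat.card_Ioc]
      omega
    exact_mod_cast h1
  have hs1 : (∑ b ∈ B, |A b|) ^ 2 ≤ N * ∑ b ∈ B, (A b) ^ 2 := by
    calc (∑ b ∈ B, |A b|) ^ 2 ≤ (B.card : ℝ) * ∑ b ∈ B, |A b| ^ 2 := sq_sum_le_card_mul_sum_sq
      _ = (B.card : ℝ) * ∑ b ∈ B, (A b) ^ 2 := by simp_rw [sq_abs]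
      _ ≤ N * ∑ b ∈ B, (A b) ^ 2 :=
        mul_le_mul_of_nonneg_right hcard (Finset.sum_nonneg fun b _ => sq_nonneg _)
  have hs2 : (∑ b ∈ B, (A b) ^ 2) ^ 2 ≤ N * ∑ b ∈ B, (A b) ^ 4 := by
    calc (∑ b ∈ B, (A b) ^ 2) ^ 2 ≤ (B.card : ℝ) * ∑ b ∈ B, ((A b) ^ 2) ^ 2 :=
          sq_sum_le_card_mul_sum_sq
      _ = (B.card : ℝ) * ∑ b ∈ B, (A b) ^ 4 := by
          congr 1
          apply Finset.sum_congr rfl
          intro b _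
          ring
      _ ≤ N * ∑ b ∈ B, (A b) ^ 4 :=
        mul_le_mul_of_nonneg_right hcard (Finset.sum_nonneg fun b _ => by positivity)
  have hfm : ∑ b ∈ B, (A b) ^ 4 ≤ 18 * (M : ℝ) ^ 4 * Real.sqrt N * L ^ 32 :=
    fourth_moment M M' N N' hM hM' hN' hNM α hα
  have hs4 : (∑ b ∈ B, |A b|) ^ 4 ≤
      (N : ℝ) ^ 3 * (18 * (M : ℝ) ^ 4 * Real.sqrt N * L ^ 32) := by
    calc (∑ b ∈ B, |A b|) ^ 4 = ((∑ b ∈ B, |A b|) ^ 2) ^ 2 := by ring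
      _ ≤ (N * ∑ b ∈ B, (A b) ^ 2) ^ 2 := pow_le_pow_left₀ (sq_nonneg _) hs1 2
      _ = (N : ℝ) ^ 2 * (∑ b ∈ B, (A b) ^ 2) ^ 2 := by ring
      _ ≤ (N : ℝ) ^ 2 * (N * ∑ b ∈ B, (A b) ^ 4) :=
        mul_le_mul_of_nonneg_left hs2 (by positivity)
      _ = (N : ℝ) ^ 3 * ∑ b ∈ B, (A b) ^ 4 := by ring
      _ ≤ (N : ℝ) ^ 3 * (18 * (M : ℝ) ^ 4 * Real.sqrt N * L ^ 32) :=
        mul_le_mul_of_nonneg_left hfm (by positivity)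
  have hrp : ((N : ℝ) ^ (7 / 8 : ℝ)) ^ 4 = (N : ℝ) ^ 3 * Real.sqrt N := by
    rw [← Real.rpow_natCast ((N : ℝ) ^ (7 / 8 : ℝ)) 4, ← Real.rpow_mul hN0, Real.sqrt_eq_rpow,
      ← Real.rpow_natCast (N : ℝ) 3, ← Real.rpow_add_of_nonneg hN0 (by norm_num) (by norm_num)]
    congr 1
    norm_num
  have hfin : (∑ b ∈ B, |A b|) ^ 4 ≤
      (3 * (M : ℝ) * (N : ℝ) ^ (7 / 8 : ℝ) * L ^ 8) ^ 4 := by
    refine hs4.trans ?_
    have h1 : (3 * (M : ℝ) * (N : ℝ) ^ (7 / 8 : ℝ) * L ^ 8) ^ 4 =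
        81 * (M : ℝ) ^ 4 * ((N : ℝ) ^ (7 / 8 : ℝ)) ^ 4 * L ^ 32 := by ring
    rw [h1, hrp]
    have h2 : 0 ≤ (N : ℝ) ^ 3 * ((M : ℝ) ^ 4 * Real.sqrt N * L ^ 32) := by positivity
    nlinarith [h2]
  rw [hswap]
  refine hle.trans ?_
  exact le_of_pow_le_pow_left₀ (by norm_num) (by positivity) hfin

end Pool.Agent.Helper38.TW
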