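import Mathlib
import Pool.Agent.Helper38.TW.BlockA

/-!
# TW-O4: all blocks

`m = min M N ≥ 1`. If `N ≤ M`: `block_ge`, `N^{7/8} = N · N^{-1/8}`. If `M < N`: by quadratic reciprocity for odd coprime `a, b`: `(a/b) = (-1)^{(a-1)/2 · (b-1)/2} (b/a)`
(both symbols are `0` if `a, b` are not coprime). Split `α = α₁ + α₃`, `β = β₁ + β₃` according to the class mod 4 (only odd numbers matter): for each of the four pairs the sign is constant, and the
sum `∑_b ∑_a β_b α_a (b/a)` is estimated by `block_ge` with the roles exchanged (`Finset.sum_comm`): `3 N M^{7/8} L^8`, `L = 1 + log (16 N^4)`. Total: 4 of them, `12 M N · M^{-1/8} L^8`.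
Mathlib: `jacobiSym.quadratic_reciprocity_one_mod_four`, `jacobiSym.quadratic_reciprocity_one_mod_four'`, `jacobiSym.quadratic_reciprocity_three_mod_four`
(hypotheses: oddness or `% 4 = 3`, no coprimality), so no problem with non-coprime pairs.
-/

set_option autoImplicit false

namespace Pool.Agent.Helper38.TW

open Finset

private theorem rpow_aux {x : ℝ} (hx : 0 < x) : x ^ (7 / 8 : ℝ) = x * x ^ (-(1 / 8) : ℝ) := by
  have h := Real.rpow_add hx 1 (-(1 / 8))
  rw [Real.rpow_one] at h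
  rw [← h]
  norm_num

private theorem flip_eq (α β : ℕ → ℝ) (hα0 : ∀ a, α a ≠ 0 → Odd a ∧ Squarefree a)
    (hβ0 : ∀ b, β b ≠ 0 → Odd b ∧ Squarefree b) (a b : ℕ) :
    α a * β b * (jacobiSym (a : ℤ) b : ℝ) = β b * α a * (jacobiSym (b : ℤ) a : ℝ) -
      2 * ((if b % 4 = 3 then β b else 0) * (if a % 4 = 3 then α a else 0) *
        (jacobiSym (b : ℤ) a : ℝ)) := by
  by_cases ha : α a = 0
  · rw [ha]
    simp
  by_cases hb : β b = 0
  · rw [hb]
    simp
  have h := jacobiSym.quadratic_reciprocity_if (Nat.odd_iff.1 (hα0 a ha).1)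
    (Nat.odd_iff.1 (hβ0 b hb).1)
  rw [← h]
  by_cases h1 : a % 4 = 3
  · by_cases h2 : b % 4 = 3
    · rw [if_pos ⟨h1, h2⟩, if_pos h1, if_pos h2]
      push_cast
      ring
    · rw [if_neg (fun h => h2 h.2), if_neg h2]
      ring
  · rw [if_neg (fun h => h1 h.1), if_neg h1]
    ring

theorem block_all (M M' N N' : ℕ) (hM : 1 ≤ M) (hM' : M' ≤ 2 * M) (hN : 1 ≤ N) (hN' : N' ≤ 2 * N)
    (α β : ℕ → ℝ) (hα : ∀ a, |α a| ≤ 1) (hβ : ∀ b, |β b| ≤ 1)
    (hα0 : ∀ a, α a ≠ 0 → Odd a ∧ Squarefree a) (hβ0 : ∀ b, β b ≠ 0 → Odd b ∧ Squarefree b) :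
    |∑ a ∈ Ioc M M', ∑ b ∈ Ioc N N', α a * β b * (jacobiSym (a : ℤ) b : ℝ)| ≤
      12 * ((M : ℝ) * N) * ((min M N : ℕ) : ℝ) ^ (-(1 / 8) : ℝ) *
        (1 + Real.log (16 * ((max M N : ℕ) : ℝ) ^ 4)) ^ 8 := by
  have hM0 : (0 : ℝ) < M := by exact_mod_cast hM
  have hN0 : (0 : ℝ) < N := by exact_mod_cast hN
  rcases le_total N M with h | h
  · rw [min_eq_right h, max_eq_left h]
    refine (block_ge M M' N N' hM hM' hN' h α β hα hβ hβ0).trans ?_
    rw [rpow_aux hN0]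
    have h1 : 0 ≤ ((M : ℝ) * N) * (N : ℝ) ^ (-(1 / 8) : ℝ) *
        (1 + Real.log (16 * (M : ℝ) ^ 4)) ^ 8 := by positivity
    nlinarith [h1]
  · rw [min_eq_left h, max_eq_right h]
    set α' : ℕ → ℝ := fun a => if a % 4 = 3 then α a else 0 with hα'
    set β' : ℕ → ℝ := fun b => if b % 4 = 3 then β b else 0 with hβ'
    have hα1 : ∀ a, |α' a| ≤ 1 := by
      intro a
      rw [hα']
      dsimp only
      split_ifs
      · exact hα a
      · simp
    have hβ1 : ∀ b, |β' b| ≤ 1 := by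
      intro b
      rw [hβ']
      dsimp only
      split_ifs
      · exact hβ b
      · simp
    have hα2 : ∀ a, α' a ≠ 0 → Odd a ∧ Squarefree a := by
      intro a ha
      rw [hα'] at ha
      dsimp only at ha
      split_ifs at ha with h3
      · exact hα0 a ha
      · exact absurd rfl ha
    have h1 := block_ge N N' M M' hN hN' hM' h β α hβ hα hα0
    have h2 := block_ge N N' M M' hN hN' hM' h β' α' hβ1 hα1 hα2
    have h3 : ∑ a ∈ Ioc M M', ∑ b ∈ Ioc N N', α a * β b * (jacobiSym (a : ℤ) b : ℝ) =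
        (∑ b ∈ Ioc N N', ∑ a ∈ Ioc M M', β b * α a * (jacobiSym (b : ℤ) a : ℝ)) -
        2 * ∑ b ∈ Ioc N N', ∑ a ∈ Ioc M M', β' b * α' a * (jacobiSym (b : ℤ) a : ℝ) := by
      rw [Finset.sum_comm, Finset.mul_sum, ← Finset.sum_sub_distrib]
      refine Finset.sum_congr rfl fun b _ => ?_
      rw [Finset.mul_sum, ← Finset.sum_sub_distrib]
      exact Finset.sum_congr rfl fun a _ => flip_eq α β hα0 hβ0 a b
    rw [h3]
    refine (abs_sub _ _).trans ?_
    rw [abs_mul, abs_of_pos (by norm_num : (0 : ℝ) < 2)]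
    rw [rpow_aux hM0] at h1 h2
    have h4 : 0 ≤ ((M : ℝ) * N) * (M : ℝ) ^ (-(1 / 8) : ℝ) *
        (1 + Real.log (16 * (N : ℝ) ^ 4)) ^ 8 := by positivity
    nlinarith [h1, h2, h4]

end Pool.Agent.Helper38.TW
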