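import Mathlib
import Pool.Agent.Helper10.DivBound
import Pool.Agent.Helper38.TW.BlockB

/-!
# TW-O5: the double oscillation lemma under the hyperbola

`α, β` bounded by `1`, supported on odd squarefree numbers `> w`, `w ≥ 3`. CLAIM: `|∑_{ab ≤ Y} α_a β_b (a/b)| ≤ C Y (1 + log Y)^10 w^{-1/64}`.
If `Y < w^2` the sum is `0`. Let `Y ≥ w^2 ≥ 9`, `Q = ⌈w^{1/32}⌉ + 1 ≥ 2` (so `Q ≤ 3 w^{1/32}`, `Q ≤ Y`), `λ = 1 + 1/Q ≤ 3/2`, `x_j = w λ^j` (`j ≥ 0`), `J` = the least `j` with `x_j ≥ Y`; as `log λ ≥ 1/(2Q)`,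
`J ≤ 2 Q log Y + 1`. Put `m_j = ⌊x_j⌋₊`: `3 ≤ m_j` and `m_{j+1} ≤ λ x_j ≤ (3/2)(m_j + 1) ≤ 2 m_j`. The intervals `(m_j, m_{j+1}]`, `j < J`, cover `(w, Y]` (integers `a` with `x_j < a ≤ x_{j+1}`).
For a pair of blocks `(j, k)`:
* if `x_{j+1} x_{k+1} ≤ Y` the whole block is inside and `block_all` bounds its sum by `12 x_j x_k w'^{-1/8} (1 + log (16 Y^4))^8 ≤ C Y w^{-1/8} (1 + log Y)^8`
  (`min m_j m_k ≥ w - 1 ≥ w/2`-ish: `m_j ≥ ⌊w⌋`; if you take `w` a natural number then `m_j ≥ w` exactly; `m_j ≤ Y`). There are `≤ J^2 ≤ (2 Q log Y + 1)^2` such pairs: total `≤ C Y w^{-1/8} Q^2 (1+log Y)^10 ≤ C Y w^{-1/16} (1+log Y)^10`;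
* if `x_j x_k ≥ Y` no `(a, b)` in the block has `ab ≤ Y`;
* otherwise every `(a,b)` of the block with `ab ≤ Y` has `Y/λ^2 < ab ≤ Y`. The number of all such pairs `(a, b)` (over all blocks, the blocks are disjoint) is `≤ ∑_{Y/λ^2 < t ≤ Y} τ(t)`, by Cauchy-Schwarz
  `≤ (2Y/Q + 1)^{1/2} (∑_{t ≤ Y} τ(t)^2)^{1/2} ≤ (3Y/Q)^{1/2} (Y (1+log Y)^4)^{1/2} ≤ 2 Y Q^{-1/2} (1 + log Y)^2` (`Pool.Agent.Helper10.hsum_le` with `j = 2`), and `Q^{-1/2} ≤ w^{-1/64}`.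
The exact constant does not matter.
-/

set_option autoImplicit false

namespace Pool.Agent.Helper38.TW

open Finset

/-- block endpoints -/
private def mseq (w Q : ℕ) : ℕ → ℕ
  | 0 => w
  | j + 1 => mseq w Q j + mseq w Q j / Q + 1

private lemma mseq_succ (w Q j : ℕ) : mseq w Q (j + 1) = mseq w Q j + mseq w Q j / Q + 1 := rfl

private lemma mseq_ge (w Q j : ℕ) : w ≤ mseq w Q j := by
  induction j with
  | zero => exact le_rfl
  | succ j ih => exact ih.trans ((Nat.le_add_right _ _).trans (Nat.le_add_right _ 1))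

private lemma mseq_le_succ (w Q j : ℕ) : mseq w Q j ≤ mseq w Q (j + 1) :=
  (Nat.le_add_right _ _).trans (Nat.le_add_right _ 1)

private lemma mseq_two (w Q j : ℕ) (hw : 3 ≤ w) (hQ : 2 ≤ Q) : mseq w Q (j + 1) ≤ 2 * mseq w Q j := by
  have h1 := mseq_ge w Q j
  have h2 : mseq w Q j / Q ≤ mseq w Q j / 2 := Nat.div_le_div_left hQ (by norm_num)
  rw [mseq_succ]
  omega

private lemma mseq_ratio (w Q j : ℕ) (hQ : 2 ≤ Q) (hQw : Q ≤ 2 * w) :
    (mseq w Q (j + 1) : ℝ) ≤ (1 + 3 / Q) * mseq w Q j := by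
  have hQ0 : (0 : ℝ) < Q := by exact_mod_cast (by omega : 0 < Q)
  have h1 : (w : ℝ) ≤ mseq w Q j := by exact_mod_cast mseq_ge w Q j
  have h2 : ((mseq w Q j / Q : ℕ) : ℝ) ≤ mseq w Q j / Q := Nat.cast_div_le
  have h3 : (Q : ℝ) ≤ 2 * w := by exact_mod_cast hQw
  have h4 : (1 : ℝ) ≤ 2 * (mseq w Q j : ℝ) / Q := by
    rw [le_div_iff₀ hQ0]
    linarith
  rw [mseq_succ]
  push_cast
  have h5 : (1 + 3 / (Q : ℝ)) * mseq w Q j = mseq w Q j + mseq w Q j / Q + 2 * (mseq w Q j : ℝ) / Q := by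
    field_simp
    ring
  rw [h5]
  linarith

private lemma mseq_pow (w Q j : ℕ) (hw : 1 ≤ w) (hQ : 2 ≤ Q) :
    (1 + 1 / (Q : ℝ)) ^ j ≤ (mseq w Q j : ℝ) := by
  have hQ0 : (0 : ℝ) < Q := by exact_mod_cast (by omega : 0 < Q)
  induction j with
  | zero =>
    simp only [pow_zero]
    exact_mod_cast hw
  | succ j ih =>
    rw [mseq_succ, pow_succ]
    push_cast
    have h1 : (mseq w Q j : ℝ) / Q < ((mseq w Q j / Q : ℕ) : ℝ) + 1 := by
      have := Nat.lt_floor_add_one ((mseq w Q j : ℝ) / Q)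
      rwa [Nat.floor_div_natCast, Nat.floor_natCast] at this
    have h2 : (1 + 1 / (Q : ℝ)) ^ j * (1 + 1 / (Q : ℝ)) ≤ mseq w Q j * (1 + 1 / (Q : ℝ)) :=
      mul_le_mul_of_nonneg_right ih (by positivity)
    have h3 : (mseq w Q j : ℝ) * (1 + 1 / (Q : ℝ)) = mseq w Q j + mseq w Q j / Q := by
      field_simp
    linarith

private lemma mseq_big (w Q n : ℕ) (hw : 1 ≤ w) (hQ : 2 ≤ Q) : 2 ^ n ≤ mseq w Q (Q * n) := by
  have hQ0 : (0 : ℝ) < Q := by exact_mod_cast (by omega : 0 < Q)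
  have h1 := mseq_pow w Q (Q * n) hw hQ
  have h2 : (2 : ℝ) ≤ (1 + 1 / (Q : ℝ)) ^ Q := by
    have := one_add_mul_le_pow (a := 1 / (Q : ℝ)) (by have : (0 : ℝ) < 1 / Q := by positivity
                                                      linarith) Q
    have h3 : (Q : ℝ) * (1 / Q) = 1 := by field_simp
    rw [h3] at this
    linarith
  have h3 : (2 : ℝ) ^ n ≤ (1 + 1 / (Q : ℝ)) ^ (Q * n) := by
    rw [pow_mul]
    exact pow_le_pow_left₀ (by norm_num) h2 n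
  exact_mod_cast h3.trans h1

private lemma sum_blocks (w Q J : ℕ) (g : ℕ → ℝ) :
    ∑ a ∈ Ioc w (mseq w Q J), g a = ∑ j ∈ range J, ∑ a ∈ Ioc (mseq w Q j) (mseq w Q (j + 1)), g a := by
  induction J with
  | zero => simp [mseq]
  | succ J ih =>
    rw [sum_range_succ, ← ih, Finset.sum_Ioc_consecutive g (mseq_ge w Q J) (mseq_le_succ w Q J)]

private lemma count_le (W V Y : ℕ) (r : ℝ) :
    ∑ a ∈ Ioc W V, ∑ b ∈ Ioc W V, (if a * b ≤ Y ∧ r < ((a * b : ℕ) : ℝ) then (1 : ℝ) else 0) ≤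
      ∑ t ∈ (Icc 1 Y).filter (fun t : ℕ => r < (t : ℝ)), (Helper10.tau t : ℝ) := by
  classical
  rw [← Finset.sum_product' (f := fun a b => (if a * b ≤ Y ∧ r < ((a * b : ℕ) : ℝ) then (1 : ℝ) else 0))]
  rw [Finset.sum_ite, Finset.sum_const_zero, add_zero, Finset.sum_const, nsmul_eq_mul, mul_one]
  set P := (Ioc W V ×ˢ Ioc W V).filter (fun x : ℕ × ℕ => x.1 * x.2 ≤ Y ∧ r < ((x.1 * x.2 : ℕ) : ℝ)) with hP
  set F := (Icc 1 Y).filter (fun t : ℕ => r < (t : ℝ)) with hF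
  have hmap : ∀ x ∈ P, x.1 * x.2 ∈ F := by
    intro x hx
    rw [hP, mem_filter, mem_product, mem_Ioc, mem_Ioc] at hx
    obtain ⟨⟨⟨h1, h2⟩, ⟨h3, h4⟩⟩, h5, h6⟩ := hx
    rw [hF, mem_filter, mem_Icc]
    refine ⟨⟨?_, h5⟩, h6⟩
    exact Nat.mul_pos (by omega) (by omega)
  have h1 := Finset.card_eq_sum_card_fiberwise hmap
  rw [h1]
  push_cast
  apply Finset.sum_le_sum
  intro t ht
  have ht0 : t ≠ 0 := by
    rw [hF, mem_filter, mem_Icc] at ht
    omega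
  unfold Helper10.tau
  norm_cast
  apply Finset.card_le_card_of_injOn (fun x => x.1)
  · intro x hx
    rw [Finset.mem_coe, mem_filter] at hx
    rw [Finset.mem_coe, Nat.mem_divisors]
    exact ⟨⟨x.2, hx.2.symm⟩, ht0⟩
  · intro x hx y hy hxy
    rw [Finset.mem_coe, mem_filter] at hx hy
    have e1 : x.1 = y.1 := hxy
    have e2 : x.1 * x.2 = y.1 * y.2 := hx.2.trans hy.2.symm
    have e3 : 0 < x.1 := by
      rcases Nat.eq_zero_or_pos x.1 with h | h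
      · exfalso
        apply ht0
        rw [← hx.2, h, zero_mul]
      · exact h
    rw [← e1] at e2
    exact Prod.ext e1 (Nat.eq_of_mul_eq_mul_left e3 e2)

private lemma tau_sum_le (Y : ℕ) (hY : 1 ≤ Y) (F : Finset ℕ) (hF : F ⊆ Icc 1 Y) :
    ∑ t ∈ F, (Helper10.tau t : ℝ) ≤ Real.sqrt F.card * (Real.sqrt Y * (1 + Real.log Y) ^ 2) := by
  have hlog : 0 ≤ Real.log Y := Real.log_nonneg (by exact_mod_cast hY)
  have h1 : (∑ t ∈ F, (Helper10.tau t : ℝ)) ^ 2 ≤ F.card * ∑ t ∈ F, (Helper10.tau t : ℝ) ^ 2 :=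
    sq_sum_le_card_mul_sum_sq
  have h2 : ∑ t ∈ F, (Helper10.tau t : ℝ) ^ 2 ≤ ∑ t ∈ Icc 1 Y, (Helper10.tau t : ℝ) ^ 2 :=
    Finset.sum_le_sum_of_subset_of_nonneg hF (fun _ _ _ => by positivity)
  have h3 : ∑ t ∈ Icc 1 Y, (Helper10.tau t : ℝ) ^ 2 ≤ Y * Helper10.hsum 2 Y := by
    unfold Helper10.hsum
    rw [Finset.mul_sum]
    apply Finset.sum_le_sum
    intro t ht
    rw [mem_Icc] at ht
    have ht0 : (0 : ℝ) < t := by exact_mod_cast ht.1
    have ht1 : (t : ℝ) ≤ Y := by exact_mod_cast ht.2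
    rw [mul_div_assoc', le_div_iff₀ ht0]
    have : (0 : ℝ) ≤ (Helper10.tau t : ℝ) ^ 2 := by positivity
    nlinarith
  have h4 := Helper10.hsum_le 2 Y hY
  norm_num at h4
  have h5 : (∑ t ∈ F, (Helper10.tau t : ℝ)) ^ 2 ≤ F.card * (Y * (1 + Real.log Y) ^ 4) := by
    refine h1.trans (mul_le_mul_of_nonneg_left ?_ (by positivity))
    refine h2.trans (h3.trans (mul_le_mul_of_nonneg_left h4 (by positivity)))
  apply le_of_sq_le_sq _ (by positivity)
  refine h5.trans_eq ?_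
  rw [mul_pow, mul_pow, Real.sq_sqrt (by positivity), Real.sq_sqrt (by positivity)]
  ring

private lemma sum_blocks2 (w Q J : ℕ) (h : ℕ → ℕ → ℝ) :
    ∑ a ∈ Ioc w (mseq w Q J), ∑ b ∈ Ioc w (mseq w Q J), h a b =
      ∑ j ∈ range J, ∑ k ∈ range J, ∑ a ∈ Ioc (mseq w Q j) (mseq w Q (j + 1)),
        ∑ b ∈ Ioc (mseq w Q k) (mseq w Q (k + 1)), h a b := by
  rw [sum_blocks w Q J (fun a => ∑ b ∈ Ioc w (mseq w Q J), h a b)]
  apply Finset.sum_congr rfl
  intro j _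
  rw [Finset.sum_comm]
  rw [sum_blocks w Q J (fun b => ∑ a ∈ Ioc (mseq w Q j) (mseq w Q (j + 1)), h a b)]
  apply Finset.sum_congr rfl
  intro k _
  rw [Finset.sum_comm]

private lemma card_le (Y : ℕ) (r : ℝ) (hr : 0 ≤ r) (hrY : r ≤ Y) :
    (((Icc 1 Y).filter (fun t : ℕ => r < (t : ℝ))).card : ℝ) ≤ Y - r + 1 := by
  have hsub : (Icc 1 Y).filter (fun t : ℕ => r < (t : ℝ)) ⊆ Ioc ⌊r⌋₊ Y := by
    intro t ht
    rw [mem_filter, mem_Icc] at ht
    rw [mem_Ioc]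
    exact ⟨(Nat.floor_lt hr).2 ht.2, ht.1.2⟩
  have h1 := Finset.card_le_card hsub
  rw [Nat.card_Ioc] at h1
  have h2 : ⌊r⌋₊ ≤ Y := Nat.floor_le_of_le hrY
  have h3 := Nat.lt_floor_add_one r
  have h4 : (((Icc 1 Y).filter (fun t : ℕ => r < (t : ℝ))).card : ℝ) ≤ ((Y - ⌊r⌋₊ : ℕ) : ℝ) := by
    exact_mod_cast h1
  rw [Nat.cast_sub h2] at h4
  linarith

private lemma log_bound (Y X : ℕ) (hX : 1 ≤ X) (hXY : X ≤ Y) :
    0 ≤ 1 + Real.log (16 * (X : ℝ) ^ 4) ∧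
    1 + Real.log (16 * (X : ℝ) ^ 4) ≤ 4 * (1 + Real.log Y) := by
  have hX0 : (1 : ℝ) ≤ X := by exact_mod_cast hX
  have hXY' : (X : ℝ) ≤ Y := by exact_mod_cast hXY
  have h1 : Real.log (16 * (X : ℝ) ^ 4) = Real.log 16 + 4 * Real.log X := by
    rw [Real.log_mul (by norm_num) (by positivity), Real.log_pow]
    norm_num
  have h2 : Real.log 16 = 4 * Real.log 2 := by
    rw [show (16 : ℝ) = 2 ^ 4 by norm_num, Real.log_pow]
    norm_num
  have h3 := Real.log_two_lt_d9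
  have h3' := Real.log_two_gt_d9
  have h4 : 0 ≤ Real.log X := Real.log_nonneg hX0
  have h5 : Real.log X ≤ Real.log Y := Real.log_le_log (by linarith) hXY'
  rw [h1, h2]
  constructor <;> linarith

theorem oscillation : ∃ C : ℝ, 0 < C ∧ ∀ (w Y : ℕ) (α β : ℕ → ℝ), 3 ≤ w → 1 ≤ Y →
    (∀ a, |α a| ≤ 1) → (∀ b, |β b| ≤ 1) →
    (∀ a, α a ≠ 0 → w < a ∧ Odd a ∧ Squarefree a) →
    (∀ b, β b ≠ 0 → w < b ∧ Odd b ∧ Squarefree b) →
    |∑ x ∈ (Icc 1 Y ×ˢ Icc 1 Y).filter (fun x => x.1 * x.2 ≤ Y),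
        α x.1 * β x.2 * (jacobiSym (x.1 : ℤ) x.2 : ℝ)| ≤
      C * Y * (1 + Real.log Y) ^ 10 * (w : ℝ) ^ (-(1 / 64) : ℝ) := by
  refine ⟨16 * (12 * 4 ^ 8) + 3, by norm_num, ?_⟩
  intro w Y α β hw hY hα hβ hα0 hβ0
  have hY1 : (1 : ℝ) ≤ Y := by exact_mod_cast hY
  have hw1 : (1 : ℝ) ≤ w := by exact_mod_cast (by omega : 1 ≤ w)
  have hw0 : (0 : ℝ) < w := by linarith
  have hlog : 0 ≤ Real.log Y := Real.log_nonneg hY1
  set f : ℕ → ℕ → ℝ := fun a b => α a * β b * (jacobiSym (a : ℤ) b : ℝ) with hf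
  have hf0 : ∀ a b, (¬ (w < a ∧ w < b)) → f a b = 0 := by
    intro a b hab
    simp only [hf]
    by_cases h1 : α a = 0
    · rw [h1]; ring
    · by_cases h2 : β b = 0
      · rw [h2]; ring
      · exact absurd ⟨(hα0 a h1).1, (hβ0 b h2).1⟩ hab
  have hf1 : ∀ a b, |f a b| ≤ 1 := by
    intro a b
    simp only [hf]
    rw [abs_mul, abs_mul]
    have h3 : |(jacobiSym (a : ℤ) b : ℝ)| ≤ 1 := by
      rcases jacobiSym.trichotomy (a : ℤ) b with h | h | h <;> rw [h] <;> norm_num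
    exact mul_le_one₀ (mul_le_one₀ (hα a) (abs_nonneg _) (hβ b)) (abs_nonneg _) h3
  have hsumf : ∑ x ∈ (Icc 1 Y ×ˢ Icc 1 Y).filter (fun x => x.1 * x.2 ≤ Y),
        α x.1 * β x.2 * (jacobiSym (x.1 : ℤ) x.2 : ℝ) =
      ∑ x ∈ (Icc 1 Y ×ˢ Icc 1 Y).filter (fun x => x.1 * x.2 ≤ Y), f x.1 x.2 := rfl
  rw [hsumf]
  by_cases hYw : Y ≤ w
  · rw [Finset.sum_eq_zero, abs_zero]
    · positivity
    · intro x hx
      rw [mem_filter, mem_product, mem_Icc, mem_Icc] at hx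
      apply hf0
      omega
  push Not at hYw
  have hwY : (w : ℝ) < Y := by exact_mod_cast hYw
  -- the parameter `Q`
  set w1 : ℝ := (w : ℝ) ^ (1 / 32 : ℝ) with hw1def
  have hw11 : 1 ≤ w1 := Real.one_le_rpow hw1 (by norm_num)
  have hw1w : w1 ≤ w := by
    have := Real.rpow_le_rpow_of_exponent_le hw1 (show (1 / 32 : ℝ) ≤ 1 by norm_num)
    rwa [Real.rpow_one] at this
  set Q : ℕ := ⌊w1⌋₊ + 1 with hQdef
  have hfl : 1 ≤ ⌊w1⌋₊ := (Nat.one_le_floor_iff w1).2 hw11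
  have hQ2 : 2 ≤ Q := by omega
  have hQlow : w1 ≤ Q := by
    have := Nat.lt_floor_add_one w1
    rw [hQdef]
    push_cast
    linarith
  have hQup : (Q : ℝ) ≤ 2 * w1 := by
    have := Nat.floor_le (show 0 ≤ w1 by linarith)
    rw [hQdef]
    push_cast
    linarith
  have hQw' : (Q : ℝ) ≤ 2 * w := by linarith
  have hQw : Q ≤ 2 * w := by exact_mod_cast hQw'
  have hQ0 : (0 : ℝ) < Q := by linarith
  -- the number of blocks
  set J : ℕ := Q * (Nat.log 2 Y + 1) with hJdef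
  have hV : Y ≤ mseq w Q J :=
    (Nat.lt_pow_succ_log_self (by norm_num : 1 < 2) Y).le.trans
      (mseq_big w Q (Nat.log 2 Y + 1) (by omega) hQ2)
  have hJ : (J : ℝ) ≤ 4 * w1 * (1 + Real.log Y) := by
    have h1 : (Nat.log 2 Y : ℝ) ≤ Real.logb 2 Y := by
      exact_mod_cast Real.natLog_le_logb Y 2
    have h2 : Real.logb 2 Y ≤ 2 * Real.log Y := by
      unfold Real.logb
      rw [div_le_iff₀ (Real.log_pos (by norm_num))]
      have := Real.log_two_gt_d9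
      nlinarith
    rw [hJdef]
    push_cast
    have h3 : ((Nat.log 2 Y : ℝ) + 1) ≤ 2 * (1 + Real.log Y) := by linarith
    calc (Q : ℝ) * ((Nat.log 2 Y : ℝ) + 1) ≤ (2 * w1) * (2 * (1 + Real.log Y)) :=
          mul_le_mul hQup h3 (by positivity) (by positivity)
      _ = 4 * w1 * (1 + Real.log Y) := by ring
  -- reindex
  have hre : ∑ x ∈ (Icc 1 Y ×ˢ Icc 1 Y).filter (fun x => x.1 * x.2 ≤ Y), f x.1 x.2 =
      ∑ a ∈ Ioc w (mseq w Q J), ∑ b ∈ Ioc w (mseq w Q J), (if a * b ≤ Y then f a b else 0) := by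
    rw [← Finset.sum_product' (f := fun a b => (if a * b ≤ Y then f a b else 0)),
      ← Finset.sum_filter]
    apply Finset.sum_congr_of_eq_on_inter
    · intro x hx hx2
      rw [mem_filter, mem_product, mem_Icc, mem_Icc] at hx
      rw [mem_filter, mem_product, mem_Ioc, mem_Ioc] at hx2
      apply hf0
      rintro ⟨h1, h2⟩
      apply hx2
      exact ⟨⟨⟨h1, by omega⟩, ⟨h2, by omega⟩⟩, hx.2⟩
    · intro x hx hx2
      exfalso
      rw [mem_filter, mem_product, mem_Ioc, mem_Ioc] at hx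
      apply hx2
      rw [mem_filter, mem_product, mem_Icc, mem_Icc]
      obtain ⟨⟨⟨h1, h2⟩, ⟨h3, h4⟩⟩, h5⟩ := hx
      have h6 : x.1 ≤ x.1 * x.2 := Nat.le_mul_of_pos_right _ (by omega)
      have h7 : x.2 ≤ x.1 * x.2 := Nat.le_mul_of_pos_left _ (by omega)
      exact ⟨⟨⟨by omega, by omega⟩, ⟨by omega, by omega⟩⟩, h5⟩
    · intro x _ _
      rfl
  rw [hre, sum_blocks2]
  -- the block bound
  set u : ℝ := 3 / Q with hu
  have hu0 : 0 < u := by positivity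
  set r : ℝ := Y / (1 + u) ^ 2 with hr
  set B : ℝ := 12 * Y * (w : ℝ) ^ (-(1 / 8) : ℝ) * (4 * (1 + Real.log Y)) ^ 8 with hB
  have hB0 : 0 ≤ B := by positivity
  have hblock : ∀ j k, |∑ a ∈ Ioc (mseq w Q j) (mseq w Q (j + 1)),
        ∑ b ∈ Ioc (mseq w Q k) (mseq w Q (k + 1)), (if a * b ≤ Y then f a b else 0)| ≤
      B + ∑ a ∈ Ioc (mseq w Q j) (mseq w Q (j + 1)),
        ∑ b ∈ Ioc (mseq w Q k) (mseq w Q (k + 1)),
          (if a * b ≤ Y ∧ r < ((a * b : ℕ) : ℝ) then (1 : ℝ) else 0) := by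
    intro j k
    have hj := mseq_ge w Q j
    have hk := mseq_ge w Q k
    have hj2 := mseq_two w Q j hw hQ2
    have hk2 := mseq_two w Q k hw hQ2
    have hj3 := mseq_le_succ w Q j
    have hk3 := mseq_le_succ w Q k
    have hU0 : 0 ≤ ∑ a ∈ Ioc (mseq w Q j) (mseq w Q (j + 1)),
        ∑ b ∈ Ioc (mseq w Q k) (mseq w Q (k + 1)),
          (if a * b ≤ Y ∧ r < ((a * b : ℕ) : ℝ) then (1 : ℝ) else 0) := by
      apply Finset.sum_nonneg
      intro a _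
      apply Finset.sum_nonneg
      intro b _
      split_ifs <;> norm_num
    by_cases hcase : mseq w Q (j + 1) * mseq w Q (k + 1) ≤ Y
    · have hT : ∑ a ∈ Ioc (mseq w Q j) (mseq w Q (j + 1)),
          ∑ b ∈ Ioc (mseq w Q k) (mseq w Q (k + 1)), (if a * b ≤ Y then f a b else 0) =
          ∑ a ∈ Ioc (mseq w Q j) (mseq w Q (j + 1)),
            ∑ b ∈ Ioc (mseq w Q k) (mseq w Q (k + 1)), f a b := by
        apply Finset.sum_congr rfl
        intro a ha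
        apply Finset.sum_congr rfl
        intro b hb
        rw [mem_Ioc] at ha hb
        rw [if_pos ((Nat.mul_le_mul ha.2 hb.2).trans hcase)]
      rw [hT]
      have hb := block_all (mseq w Q j) (mseq w Q (j + 1)) (mseq w Q k) (mseq w Q (k + 1))
        (by omega) hj2 (by omega) hk2 α β hα hβ (fun a ha => (hα0 a ha).2)
        (fun b hb => (hβ0 b hb).2)
      have hmm : mseq w Q j * mseq w Q k ≤ Y := (Nat.mul_le_mul hj3 hk3).trans hcase
      have hmj : mseq w Q j ≤ Y :=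
        (Nat.le_mul_of_pos_right _ (by omega)).trans hmm
      have hmk : mseq w Q k ≤ Y :=
        (Nat.le_mul_of_pos_left _ (by omega)).trans hmm
      obtain ⟨hl1, hl2⟩ := log_bound Y (max (mseq w Q j) (mseq w Q k))
        (le_max_of_le_left (by omega)) (max_le hmj hmk)
      have hmin : ((min (mseq w Q j) (mseq w Q k) : ℕ) : ℝ) ^ (-(1 / 8) : ℝ) ≤
          (w : ℝ) ^ (-(1 / 8) : ℝ) := by
        refine Real.rpow_le_rpow_of_nonpos hw0 ?_ (by norm_num)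
        exact_mod_cast le_min hj hk
      have hmm' : (mseq w Q j : ℝ) * (mseq w Q k : ℝ) ≤ Y := by exact_mod_cast hmm
      refine (hb.trans ?_).trans (le_add_of_nonneg_right hU0)
      rw [hB]
      apply mul_le_mul _ (pow_le_pow_left₀ hl1 hl2 8) (by positivity) (by positivity)
      apply mul_le_mul _ hmin (by positivity) (by positivity)
      linarith
    · push Not at hcase
      have hcase' : (Y : ℝ) < (mseq w Q (j + 1) : ℝ) * (mseq w Q (k + 1) : ℝ) := by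
        exact_mod_cast hcase
      have hrj := mseq_ratio w Q j hQ2 hQw
      have hrk := mseq_ratio w Q k hQ2 hQw
      have hprod : (mseq w Q (j + 1) : ℝ) * (mseq w Q (k + 1) : ℝ) ≤
          (1 + u) ^ 2 * ((mseq w Q j : ℝ) * (mseq w Q k : ℝ)) := by
        calc (mseq w Q (j + 1) : ℝ) * (mseq w Q (k + 1) : ℝ)
            ≤ ((1 + 3 / Q) * mseq w Q j) * ((1 + 3 / Q) * mseq w Q k) :=
              mul_le_mul hrj hrk (by positivity) (by positivity)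
          _ = (1 + u) ^ 2 * ((mseq w Q j : ℝ) * (mseq w Q k : ℝ)) := by rw [hu]; ring
      refine le_trans ?_ (le_add_of_nonneg_left hB0)
      refine (Finset.abs_sum_le_sum_abs _ _).trans (Finset.sum_le_sum ?_)
      intro a ha
      refine (Finset.abs_sum_le_sum_abs _ _).trans (Finset.sum_le_sum ?_)
      intro b hb
      rw [mem_Ioc] at ha hb
      by_cases hab : a * b ≤ Y
      · have hlt : r < ((a * b : ℕ) : ℝ) := by
          rw [hr, div_lt_iff₀ (by positivity)]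
          have h1 : (mseq w Q j : ℝ) * (mseq w Q k : ℝ) ≤ ((a * b : ℕ) : ℝ) := by
            exact_mod_cast Nat.mul_le_mul ha.1.le hb.1.le
          have h2 : (1 + u) ^ 2 * ((mseq w Q j : ℝ) * (mseq w Q k : ℝ)) ≤
              (1 + u) ^ 2 * ((a * b : ℕ) : ℝ) := mul_le_mul_of_nonneg_left h1 (by positivity)
          linarith
        rw [if_pos hab, if_pos ⟨hab, hlt⟩]
        exact hf1 a b
      · rw [if_neg hab, if_neg (fun h => hab h.1), abs_zero]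
  have htot : |∑ j ∈ range J, ∑ k ∈ range J, ∑ a ∈ Ioc (mseq w Q j) (mseq w Q (j + 1)),
        ∑ b ∈ Ioc (mseq w Q k) (mseq w Q (k + 1)), (if a * b ≤ Y then f a b else 0)| ≤
      (J : ℝ) ^ 2 * B + ∑ a ∈ Ioc w (mseq w Q J), ∑ b ∈ Ioc w (mseq w Q J),
          (if a * b ≤ Y ∧ r < ((a * b : ℕ) : ℝ) then (1 : ℝ) else 0) := by
    rw [sum_blocks2]
    refine (Finset.abs_sum_le_sum_abs _ _).trans ?_
    refine (Finset.sum_le_sum (fun j _ => Finset.abs_sum_le_sum_abs _ _)).trans ?_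
    refine (Finset.sum_le_sum (fun j _ => Finset.sum_le_sum (fun k _ => hblock j k))).trans ?_
    simp only [Finset.sum_add_distrib]
    simp only [Finset.sum_const, Finset.card_range, nsmul_eq_mul]
    apply le_of_eq
    ring
  refine htot.trans ?_
  -- the boundary count
  have hcount := count_le w (mseq w Q J) Y r
  have hrY : r ≤ Y := by
    rw [hr]
    apply div_le_self (by positivity)
    nlinarith
  have hr0 : 0 ≤ r := by positivity
  have hcard := card_le Y r hr0 hrY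
  set F := (Icc 1 Y).filter (fun t : ℕ => r < (t : ℝ)) with hF
  have htau := tau_sum_le Y hY F (Finset.filter_subset _ _)
  have hcard2 : (F.card : ℝ) ≤ 8 * Y / Q := by
    have h1 : (Y : ℝ) * (1 - 2 * u) ≤ r := by
      rw [hr, le_div_iff₀ (by positivity)]
      have : (1 - 2 * u) * (1 + u) ^ 2 ≤ 1 := by
        have : 0 ≤ u ^ 3 := by positivity
        nlinarith [sq_nonneg u]
      nlinarith
    have h2 : (1 : ℝ) ≤ 2 * Y / Q := by
      rw [le_div_iff₀ hQ0]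
      linarith
    have h3 : (Y : ℝ) * (2 * u) = 6 * Y / Q := by
      rw [hu]; ring
    have h4 : 8 * (Y : ℝ) / Q = 6 * Y / Q + 2 * Y / Q := by ring
    rw [h4]
    linarith
  have hsq : Real.sqrt F.card * Real.sqrt Y ≤ 3 * Y * (w : ℝ) ^ (-(1 / 64) : ℝ) := by
    rw [← Real.sqrt_mul (by positivity)]
    apply Real.sqrt_le_iff.2
    refine ⟨by positivity, ?_⟩
    have h1 : ((w : ℝ) ^ (-(1 / 64) : ℝ)) ^ 2 = w1⁻¹ := by
      rw [hw1def, ← Real.rpow_natCast, ← Real.rpow_mul hw0.le, ← Real.rpow_neg hw0.le]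
      norm_num
    have h2 : (F.card : ℝ) ≤ 8 * Y * w1⁻¹ := by
      refine hcard2.trans ?_
      rw [div_eq_mul_inv]
      apply mul_le_mul_of_nonneg_left _ (by positivity)
      exact inv_anti₀ (by linarith) hQlow
    calc (F.card : ℝ) * Y ≤ (8 * Y * w1⁻¹) * Y := mul_le_mul_of_nonneg_right h2 (by positivity)
      _ ≤ 9 * Y ^ 2 * w1⁻¹ := by
          have : 0 ≤ (Y : ℝ) ^ 2 * w1⁻¹ := by positivity
          nlinarith
      _ = (3 * Y * (w : ℝ) ^ (-(1 / 64) : ℝ)) ^ 2 := by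
          rw [mul_pow, h1]; ring
  have hpow : (1 + Real.log Y) ^ 2 ≤ (1 + Real.log Y) ^ 10 :=
    pow_le_pow_right₀ (by linarith) (by norm_num)
  have hpart2 : ∑ a ∈ Ioc w (mseq w Q J), ∑ b ∈ Ioc w (mseq w Q J),
          (if a * b ≤ Y ∧ r < ((a * b : ℕ) : ℝ) then (1 : ℝ) else 0) ≤
      3 * Y * (1 + Real.log Y) ^ 10 * (w : ℝ) ^ (-(1 / 64) : ℝ) := by
    refine hcount.trans (htau.trans ?_)
    calc Real.sqrt F.card * (Real.sqrt Y * (1 + Real.log Y) ^ 2)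
        = (Real.sqrt F.card * Real.sqrt Y) * (1 + Real.log Y) ^ 2 := by ring
      _ ≤ (3 * Y * (w : ℝ) ^ (-(1 / 64) : ℝ)) * (1 + Real.log Y) ^ 10 :=
          mul_le_mul hsq hpow (by positivity) (by positivity)
      _ = _ := by ring
  have hpart1 : (J : ℝ) ^ 2 * B ≤
      (16 * (12 * 4 ^ 8)) * Y * (1 + Real.log Y) ^ 10 * (w : ℝ) ^ (-(1 / 64) : ℝ) := by
    have h1 : (J : ℝ) ^ 2 ≤ (4 * w1 * (1 + Real.log Y)) ^ 2 :=
      pow_le_pow_left₀ (by positivity) hJ 2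
    have h2 : w1 ^ 2 * (w : ℝ) ^ (-(1 / 8) : ℝ) ≤ (w : ℝ) ^ (-(1 / 64) : ℝ) := by
      rw [hw1def, ← Real.rpow_natCast, ← Real.rpow_mul hw0.le, ← Real.rpow_add hw0]
      apply Real.rpow_le_rpow_of_exponent_le hw1
      norm_num
    calc (J : ℝ) ^ 2 * B ≤ (4 * w1 * (1 + Real.log Y)) ^ 2 * B :=
          mul_le_mul_of_nonneg_right h1 hB0
      _ = (16 * (12 * 4 ^ 8)) * Y * (1 + Real.log Y) ^ 10 * (w1 ^ 2 * (w : ℝ) ^ (-(1 / 8) : ℝ)) := by
          rw [hB]; ring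
      _ ≤ _ := mul_le_mul_of_nonneg_left h2 (by positivity)
  calc (J : ℝ) ^ 2 * B + ∑ a ∈ Ioc w (mseq w Q J), ∑ b ∈ Ioc w (mseq w Q J),
          (if a * b ≤ Y ∧ r < ((a * b : ℕ) : ℝ) then (1 : ℝ) else 0)
      ≤ (16 * (12 * 4 ^ 8)) * Y * (1 + Real.log Y) ^ 10 * (w : ℝ) ^ (-(1 / 64) : ℝ) +
        3 * Y * (1 + Real.log Y) ^ 10 * (w : ℝ) ^ (-(1 / 64) : ℝ) := add_le_add hpart1 hpart2
    _ = _ := by ring

end Pool.Agent.Helper38.TW
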