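import Mathlib
import Pool.Agent.Helper38.TW.Hyper

/-!
# TW-C4: a linked pair of variables gives cancellation

`V` a finite type, `E : V → V → Prop` a relation, `v ≠ u` in `V` LINKED: exactly one of `E v u`, `E u v` holds. `g v n` are numbers of absolute value `≤ 1`. `P : (V → ℕ) → Prop` is a condition which is SEPARABLE at `(v, u)`:
if all coordinates except `v`, `u` are fixed, `P` is the conjunction of a condition on `n_v` and a condition on `n_u`. All variables are `≤ Y`, the product is odd squarefree `≤ Y`, and `n_v, n_u > w`. CLAIM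
`|∑_n ∏_x g_x(n_x) ∏_{(x,y) : E x y} (n_y / n_x)| ≤ C Y (1 + log Y)^{10 + |V|} w^{-1/64}`, `C` the constant of `oscillation`.
Proof: fix the other coordinates `m` (put `m_v = m_u = 1`), `r = ∏ m ≤ Y` odd squarefree. With `a = n_v`, `b = n_u` the inner sum is (a constant of absolute value `≤ 1`) times `∑_{ab ≤ Y/r} α_a β_b (a/b)` if `E u v` (then not `E v u`)
[if `E v u`: the same with `(b/a)`, i.e. with the roles of `a` and `b` exchanged], where
`α_a = g_v(a) · ∏_{x ≠ v,u, E x v} (a / m_x) · ∏_{x ≠ v,u, E v x} (m_x / a) · (a/a if E v v)` if `w < a`, `a` odd, squarefree, coprime to `r`, `a ≤ Y`, and the `a`-part of `P` holds, `0` otherwise; `β_b` in the same way. `|α|, |β| ≤ 1`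
(`jacobiSym` has absolute value `≤ 1`). The product `r a b` is odd and squarefree iff `r`, `a`, `b` are odd, squarefree and pairwise coprime; if `a`, `b` are NOT coprime then `(a/b) = 0` (`jacobiSym.eq_zero_iff_not_coprime`, `b ≠ 0`), so the coprimality of `a` and `b` may be dropped.
`ab r ≤ Y ↔ ab ≤ Y / r` (natural division), `Y / r ≥ 1`. By `oscillation` (`3 ≤ w`) the inner sum is `≤ C (Y/r) (1 + log Y)^10 w^{-1/64}`. Sum over `m`: `∑_m 1/∏ m ≤ (∑_{n ≤ Y} 1/n)^{|V| - 2} ≤ (1 + log Y)^{|V|}` (`harmonic_le_one_add_log`).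
Formally: `Finset.sum_fiberwise` along `n ↦ update (update n v 1) u 1`, and a bijection of the fibre with pairs `(a, b)`.
-/

set_option autoImplicit false

namespace Pool.Agent.Helper38.TW

open Finset

/-- All variables except `v` and `u`. -/
private def lw {V : Type} [Fintype V] [DecidableEq V] (v u : V) : Finset V := (univ.erase v).erase u

private theorem linked_split {M : Type} [CommMonoid M] {V : Type} [Fintype V] [DecidableEq V]
    {v u : V} (huv : v ≠ u) (h : V → M) : ∏ x, h x = h v * h u * ∏ x ∈ lw v u, h x := by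
  rw [← Finset.mul_prod_erase univ h (mem_univ v),
    ← Finset.mul_prod_erase (univ.erase v) h (mem_erase.2 ⟨huv.symm, mem_univ u⟩), mul_assoc]
  rfl

private theorem linked_jac (a : ℤ) (b : ℕ) : |(jacobiSym a b : ℝ)| ≤ 1 := by
  rcases jacobiSym.trichotomy a b with h | h | h <;> simp [h]

private theorem linked_mul {x y : ℝ} (hx : |x| ≤ 1) (hy : |y| ≤ 1) : |x * y| ≤ 1 := by
  rw [abs_mul]
  exact mul_le_one₀ hx (abs_nonneg y) hy

private theorem linked_prod {ι : Type} (s : Finset ι) (f : ι → ℝ) (h : ∀ x ∈ s, |f x| ≤ 1) :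
    |∏ x ∈ s, f x| ≤ 1 := by
  rw [Finset.abs_prod]
  exact Finset.prod_le_one (fun _ _ => abs_nonneg _) h

open Classical in
/-- the summand -/
private noncomputable def lT {V : Type} [Fintype V] (E : V → V → Prop) (g : V → ℕ → ℝ)
    (n : V → ℕ) : ℝ :=
  (∏ x, g x (n x)) * ∏ x, ∏ y ∈ univ.filter (fun y => E x y), (jacobiSym (n y : ℤ) (n x) : ℝ)

/-- the condition -/
private def lC {V : Type} [Fintype V] (P : (V → ℕ) → Prop) (v u : V) (w Y : ℕ)
    (n : V → ℕ) : Prop :=
  Odd (∏ x, n x) ∧ Squarefree (∏ x, n x) ∧ ∏ x, n x ≤ Y ∧ w < n v ∧ w < n u ∧ P n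

open Classical in
/-- the factor which contains the variable `z` -/
private noncomputable def lL {V : Type} [Fintype V] [DecidableEq V] (E : V → V → Prop)
    (g : V → ℕ → ℝ) (v u : V) (m : V → ℕ) (z : V) (c : ℕ) : ℝ :=
  g z c * (if E z z then (jacobiSym (c : ℤ) c : ℝ) else 1) *
    (∏ y ∈ lw v u, if E z y then (jacobiSym (m y : ℤ) c : ℝ) else 1) *
    (∏ x ∈ lw v u, if E x z then (jacobiSym (c : ℤ) (m x) : ℝ) else 1)

open Classical in
/-- the constant factor -/
private noncomputable def lK {V : Type} [Fintype V] [DecidableEq V] (E : V → V → Prop)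
    (g : V → ℕ → ℝ) (v u : V) (m : V → ℕ) : ℝ :=
  (∏ x ∈ lw v u, g x (m x)) *
    ∏ x ∈ lw v u, ∏ y ∈ lw v u, if E x y then (jacobiSym (m y : ℤ) (m x) : ℝ) else 1

private theorem lL_abs {V : Type} [Fintype V] [DecidableEq V] (E : V → V → Prop)
    (g : V → ℕ → ℝ) (hg : ∀ x n, |g x n| ≤ 1) (v u : V) (m : V → ℕ) (z : V) (c : ℕ) :
    |lL E g v u m z c| ≤ 1 := by
  unfold lL
  refine linked_mul (linked_mul (linked_mul (hg z c) ?_) (linked_prod _ _ fun y _ => ?_))
    (linked_prod _ _ fun y _ => ?_) <;>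
  · split_ifs
    · exact linked_jac _ _
    · simp

private theorem lK_abs {V : Type} [Fintype V] [DecidableEq V] (E : V → V → Prop)
    (g : V → ℕ → ℝ) (hg : ∀ x n, |g x n| ≤ 1) (v u : V) (m : V → ℕ) :
    |lK E g v u m| ≤ 1 := by
  unfold lK
  refine linked_mul (linked_prod _ _ fun y _ => hg _ _)
    (linked_prod _ _ fun x _ => linked_prod _ _ fun y _ => ?_)
  split_ifs
  · exact linked_jac _ _
  · simp

private theorem upd_v {V : Type} [DecidableEq V] {v u : V} (huv : v ≠ u) (m : V → ℕ) (a b : ℕ) :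
    Function.update (Function.update m v a) u b v = a := by
  rw [Function.update_of_ne huv, Function.update_self]

private theorem upd_w {V : Type} [Fintype V] [DecidableEq V] {v u : V} (m : V → ℕ) (a b : ℕ)
    {x : V} (hx : x ∈ lw v u) : Function.update (Function.update m v a) u b x = m x := by
  rw [lw, mem_erase, mem_erase] at hx
  rw [Function.update_of_ne hx.1, Function.update_of_ne hx.2.1]

private theorem lT_eq {V : Type} [Fintype V] [DecidableEq V] (E : V → V → Prop)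
    (g : V → ℕ → ℝ) {v u : V} (huv : v ≠ u) (hE : E u v) (hE' : ¬ E v u) (m : V → ℕ) (a b : ℕ) :
    lT E g (Function.update (Function.update m v a) u b) =
      lK E g v u m * (lL E g v u m v a * lL E g v u m u b * (jacobiSym (a : ℤ) b : ℝ)) := by
  classical
  set n := Function.update (Function.update m v a) u b with hn
  have hv : n v = a := upd_v huv m a b
  have hu : n u = b := Function.update_self _ _ _
  have hW : ∀ x ∈ lw v u, n x = m x := fun x hx => upd_w m a b hx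
  have h1 : ∏ x, g x (n x) = g v a * g u b * ∏ x ∈ lw v u, g x (m x) := by
    rw [linked_split huv, hv, hu]
    congr 1
    exact prod_congr rfl fun x hx => by rw [hW x hx]
  have h2 : ∀ x, ∏ y ∈ univ.filter (fun y => E x y), (jacobiSym (n y : ℤ) (n x) : ℝ) =
      (if E x v then (jacobiSym (a : ℤ) (n x) : ℝ) else 1) *
        (if E x u then (jacobiSym (b : ℤ) (n x) : ℝ) else 1) *
        ∏ y ∈ lw v u, (if E x y then (jacobiSym (m y : ℤ) (n x) : ℝ) else 1) := by
    intro x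
    rw [prod_filter, linked_split huv, hv, hu]
    congr 1
    exact prod_congr rfl fun y hy => by rw [hW y hy]
  have h3 : ∏ x, ∏ y ∈ univ.filter (fun y => E x y), (jacobiSym (n y : ℤ) (n x) : ℝ) =
      ((if E v v then (jacobiSym (a : ℤ) a : ℝ) else 1) *
        (∏ y ∈ lw v u, (if E v y then (jacobiSym (m y : ℤ) a : ℝ) else 1))) *
      ((jacobiSym (a : ℤ) b : ℝ) * (if E u u then (jacobiSym (b : ℤ) b : ℝ) else 1) *
        (∏ y ∈ lw v u, (if E u y then (jacobiSym (m y : ℤ) b : ℝ) else 1))) *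
      ((∏ x ∈ lw v u, (if E x v then (jacobiSym (a : ℤ) (m x) : ℝ) else 1)) *
        (∏ x ∈ lw v u, (if E x u then (jacobiSym (b : ℤ) (m x) : ℝ) else 1)) *
        ∏ x ∈ lw v u, ∏ y ∈ lw v u,
          (if E x y then (jacobiSym (m y : ℤ) (m x) : ℝ) else 1)) := by
    rw [linked_split huv, h2, h2, hv, hu, if_neg hE', if_pos hE, mul_one]
    congr 1
    rw [← prod_mul_distrib, ← prod_mul_distrib]
    refine prod_congr rfl fun x hx => ?_
    rw [h2, hW x hx]
  rw [lT, h1]
  rw [h3, lK, lL, lL]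
  ring

private theorem linked_reindex {V : Type} [Fintype V] [DecidableEq V] {v u : V} (huv : v ≠ u)
    {Y : ℕ} (hY : 1 ≤ Y) (f : (V → ℕ) → ℝ) :
    ∑ n ∈ Fintype.piFinset (fun _ : V => Icc 1 Y), f n =
      ∑ m ∈ (Fintype.piFinset (fun _ : V => Icc 1 Y)).filter (fun m => m v = 1 ∧ m u = 1),
        ∑ p ∈ Icc 1 Y ×ˢ Icc 1 Y,
          f (Function.update (Function.update m v p.1) u p.2) := by
  rw [← Finset.sum_product']
  have hup : ∀ (m : V → ℕ) (a b : ℕ), (∀ x, m x ∈ Icc 1 Y) → a ∈ Icc 1 Y → b ∈ Icc 1 Y →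
      ∀ x, Function.update (Function.update m v a) u b x ∈ Icc 1 Y := by
    intro m a b hm ha hb x
    by_cases hxu : x = u
    · subst hxu
      rwa [Function.update_self]
    · rw [Function.update_of_ne hxu]
      by_cases hxv : x = v
      · subst hxv
        rwa [Function.update_self]
      · rw [Function.update_of_ne hxv]
        exact hm x
  have h1Y : 1 ∈ Icc 1 Y := mem_Icc.2 ⟨le_rfl, hY⟩
  refine Finset.sum_nbij' (fun n => (Function.update (Function.update n v 1) u 1, (n v, n u)))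
    (fun x => Function.update (Function.update x.1 v x.2.1) u x.2.2) ?_ ?_ ?_ ?_ ?_
  · intro n hn
    rw [Fintype.mem_piFinset] at hn
    simp only [mem_product, mem_filter, Fintype.mem_piFinset]
    exact ⟨⟨hup n 1 1 hn h1Y h1Y, upd_v huv n 1 1, Function.update_self _ _ _⟩, hn v, hn u⟩
  · intro x hx
    simp only [mem_product, mem_filter, Fintype.mem_piFinset] at hx
    rw [Fintype.mem_piFinset]
    exact hup x.1 x.2.1 x.2.2 hx.1.1 hx.2.1 hx.2.2
  · intro n _
    funext x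
    by_cases hxu : x = u
    · subst hxu
      simp
    · by_cases hxv : x = v
      · subst hxv
        simp [Function.update_of_ne hxu]
      · simp [Function.update_of_ne hxu, Function.update_of_ne hxv]
  · intro x hx
    simp only [mem_product, mem_filter, Fintype.mem_piFinset] at hx
    obtain ⟨⟨-, hv, hu⟩, -⟩ := hx
    refine Prod.ext ?_ (Prod.ext ?_ ?_)
    · funext y
      by_cases hyu : y = u
      · subst hyu
        simp [hu]
      · by_cases hyv : y = v
        · subst hyv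
          simp [Function.update_of_ne hyu, hv]
        · simp [Function.update_of_ne hyu, Function.update_of_ne hyv]
    · exact upd_v huv _ _ _
    · exact Function.update_self _ _ _
  · intro n _
    congr 1
    funext x
    by_cases hxu : x = u
    · subst hxu
      simp
    · by_cases hxv : x = v
      · subst hxv
        simp [Function.update_of_ne hxu]
      · simp [Function.update_of_ne hxu, Function.update_of_ne hxv]

open Classical in
private theorem linked_inner {C : ℝ} (hC : 0 < C)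
    (hosc : ∀ (w Y : ℕ) (α β : ℕ → ℝ), 3 ≤ w → 1 ≤ Y →
      (∀ a, |α a| ≤ 1) → (∀ b, |β b| ≤ 1) →
      (∀ a, α a ≠ 0 → w < a ∧ Odd a ∧ Squarefree a) →
      (∀ b, β b ≠ 0 → w < b ∧ Odd b ∧ Squarefree b) →
      |∑ x ∈ (Icc 1 Y ×ˢ Icc 1 Y).filter (fun x => x.1 * x.2 ≤ Y),
          α x.1 * β x.2 * (jacobiSym (x.1 : ℤ) x.2 : ℝ)| ≤
        C * Y * (1 + Real.log Y) ^ 10 * (w : ℝ) ^ (-(1 / 64) : ℝ))
    {V : Type} [Fintype V] [DecidableEq V] (E : V → V → Prop)
    (g : V → ℕ → ℝ) (P : (V → ℕ) → Prop) (v u : V) (w Y : ℕ) (huv : v ≠ u) (hw : 3 ≤ w)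
    (hY : 1 ≤ Y) (hE : E u v) (hE' : ¬ E v u) (hg : ∀ x n, |g x n| ≤ 1)
    (hP : ∀ n : V → ℕ, ∃ P1 P2 : ℕ → Prop, ∀ a b : ℕ,
      P (Function.update (Function.update n v a) u b) ↔ (P1 a ∧ P2 b))
    (m : V → ℕ) (hm : ∀ x, 1 ≤ m x) (hmv : m v = 1) (hmu : m u = 1) :
    |∑ p ∈ Icc 1 Y ×ˢ Icc 1 Y,
        (if lC P v u w Y (Function.update (Function.update m v p.1) u p.2) then
          lT E g (Function.update (Function.update m v p.1) u p.2) else 0)| ≤
      C * (Y * ∏ x, ((m x : ℝ))⁻¹) * (1 + Real.log Y) ^ 10 * (w : ℝ) ^ (-(1 / 64) : ℝ) := by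
  obtain ⟨P1, P2, hP12⟩ := hP m
  set r : ℕ := ∏ x, m x with hr
  have hr0 : 0 < r := Finset.prod_pos fun x _ => hm x
  have hprod : ∀ a b : ℕ, ∏ x, Function.update (Function.update m v a) u b x = a * b * r := by
    intro a b
    rw [hr, linked_split huv, linked_split huv m, upd_v huv, Function.update_self, hmv, hmu,
      one_mul, one_mul]
    congr 1
    exact prod_congr rfl fun x hx => upd_w m a b hx
  let α : ℕ → ℝ := fun a => if w < a ∧ Odd a ∧ Squarefree a ∧ a.Coprime r ∧ P1 a then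
    lL E g v u m v a else 0
  let β : ℕ → ℝ := fun b => if w < b ∧ Odd b ∧ Squarefree b ∧ b.Coprime r ∧ P2 b then
    lL E g v u m u b else 0
  let K : ℝ := if Odd r ∧ Squarefree r then lK E g v u m else 0
  have hKabs : |K| ≤ 1 := by
    show |if Odd r ∧ Squarefree r then lK E g v u m else 0| ≤ 1
    split_ifs
    · exact lK_abs E g hg v u m
    · simp
  have hcond : ∀ a b : ℕ, lC P v u w Y (Function.update (Function.update m v a) u b) ↔
      ((w < a ∧ Odd a ∧ Squarefree a ∧ a.Coprime r ∧ P1 a) ∧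
        (w < b ∧ Odd b ∧ Squarefree b ∧ b.Coprime r ∧ P2 b) ∧ (Odd r ∧ Squarefree r) ∧
        a.Coprime b ∧ a * b ≤ Y / r) := by
    intro a b
    unfold lC
    rw [hprod, upd_v huv, Function.update_self, hP12, Nat.squarefree_mul_iff,
      Nat.squarefree_mul_iff, Nat.coprime_mul_iff_left, Nat.odd_mul, Nat.odd_mul,
      Nat.le_div_iff_mul_le hr0]
    tauto
  have hterm : ∀ p ∈ Icc 1 Y ×ˢ Icc 1 Y,
      (if lC P v u w Y (Function.update (Function.update m v p.1) u p.2) then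
          lT E g (Function.update (Function.update m v p.1) u p.2) else 0) =
      if p.1 * p.2 ≤ Y / r then
        K * (α p.1 * β p.2 * (jacobiSym (p.1 : ℤ) p.2 : ℝ)) else 0 := by
    rintro ⟨a, b⟩ hp
    simp only [mem_product, mem_Icc] at hp
    simp only
    rw [lT_eq E g huv hE hE']
    by_cases hab : a * b ≤ Y / r
    · rw [if_pos hab]
      by_cases hcop : a.Coprime b
      · by_cases h1 : w < a ∧ Odd a ∧ Squarefree a ∧ a.Coprime r ∧ P1 a
        · by_cases h2 : w < b ∧ Odd b ∧ Squarefree b ∧ b.Coprime r ∧ P2 b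
          · by_cases h3 : Odd r ∧ Squarefree r
            · rw [if_pos ((hcond a b).2 ⟨h1, h2, h3, hcop, hab⟩)]
              show _ = (if Odd r ∧ Squarefree r then lK E g v u m else 0) *
                ((if w < a ∧ Odd a ∧ Squarefree a ∧ a.Coprime r ∧ P1 a then
                  lL E g v u m v a else 0) *
                (if w < b ∧ Odd b ∧ Squarefree b ∧ b.Coprime r ∧ P2 b then
                  lL E g v u m u b else 0) * _)
              rw [if_pos h1, if_pos h2, if_pos h3]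
            · rw [if_neg fun h => h3 ((hcond a b).1 h).2.2.1]
              have : K = 0 := if_neg h3
              rw [this, zero_mul]
          · rw [if_neg fun h => h2 ((hcond a b).1 h).2.1]
            have : β b = 0 := if_neg h2
            rw [this, mul_zero, zero_mul, mul_zero]
        · rw [if_neg fun h => h1 ((hcond a b).1 h).1]
          have : α a = 0 := if_neg h1
          rw [this, zero_mul, zero_mul, mul_zero]
      · rw [if_neg fun h => hcop ((hcond a b).1 h).2.2.2.1]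
        have hb : NeZero b := ⟨by omega⟩
        have : jacobiSym (a : ℤ) b = 0 := by
          rw [jacobiSym.eq_zero_iff_not_coprime]
          intro h
          exact hcop (by simpa using h)
        rw [this, Int.cast_zero, mul_zero, mul_zero]
    · rw [if_neg hab, if_neg fun h => hab ((hcond a b).1 h).2.2.2.2]
  rw [Finset.sum_congr rfl hterm, ← Finset.sum_filter, ← Finset.mul_sum]
  have hset : (Icc 1 Y ×ˢ Icc 1 Y).filter (fun p : ℕ × ℕ => p.1 * p.2 ≤ Y / r) =
      (Icc 1 (Y / r) ×ˢ Icc 1 (Y / r)).filter (fun p : ℕ × ℕ => p.1 * p.2 ≤ Y / r) := by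
    ext ⟨a, b⟩
    simp only [mem_filter, mem_product, mem_Icc]
    have hYr : Y / r ≤ Y := Nat.div_le_self Y r
    constructor
    · rintro ⟨⟨⟨h1, h2⟩, h3, h4⟩, h5⟩
      exact ⟨⟨⟨h1, (Nat.le_mul_of_pos_right a h3).trans h5⟩, h3,
        (Nat.le_mul_of_pos_left b h1).trans h5⟩, h5⟩
    · rintro ⟨⟨⟨h1, h2⟩, h3, h4⟩, h5⟩
      exact ⟨⟨⟨h1, h2.trans hYr⟩, h3, h4.trans hYr⟩, h5⟩
  rw [hset]
  have hlog : 0 ≤ Real.log Y := Real.log_nonneg (by exact_mod_cast hY)
  have hinv : ∏ x, ((m x : ℝ))⁻¹ = (r : ℝ)⁻¹ := by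
    rw [Finset.prod_inv_distrib, hr, Nat.cast_prod]
  rw [hinv, ← div_eq_mul_inv]
  have hw0 : (0 : ℝ) ≤ (w : ℝ) ^ (-(1 / 64) : ℝ) := Real.rpow_nonneg (Nat.cast_nonneg w) _
  have hbound : 0 ≤ C * ((Y : ℝ) / r) * (1 + Real.log Y) ^ 10 * (w : ℝ) ^ (-(1 / 64) : ℝ) := by
    positivity
  rcases Nat.eq_zero_or_pos (Y / r) with h0 | h0
  · rw [h0]
    simpa using hbound
  have hα : ∀ a, |α a| ≤ 1 := by
    intro a
    show |if _ then _ else _| ≤ (1 : ℝ)
    split_ifs
    · exact lL_abs E g hg v u m v a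
    · simp
  have hβ : ∀ b, |β b| ≤ 1 := by
    intro b
    show |if _ then _ else _| ≤ (1 : ℝ)
    split_ifs
    · exact lL_abs E g hg v u m u b
    · simp
  have hα0 : ∀ a, α a ≠ 0 → w < a ∧ Odd a ∧ Squarefree a := by
    intro a ha
    by_contra hcon
    apply ha
    exact if_neg fun h => hcon ⟨h.1, h.2.1, h.2.2.1⟩
  have hβ0 : ∀ b, β b ≠ 0 → w < b ∧ Odd b ∧ Squarefree b := by
    intro b hb
    by_contra hcon
    apply hb
    exact if_neg fun h => hcon ⟨h.1, h.2.1, h.2.2.1⟩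
  have hmain := hosc w (Y / r) α β hw h0 hα hβ hα0 hβ0
  rw [abs_mul]
  refine (mul_le_mul hKabs hmain (abs_nonneg _) zero_le_one).trans ?_
  rw [one_mul]
  have h1 : ((Y / r : ℕ) : ℝ) ≤ (Y : ℝ) / r := Nat.cast_div_le
  have h2 : Real.log ((Y / r : ℕ) : ℝ) ≤ Real.log Y := by
    apply Real.log_le_log
    · exact_mod_cast h0
    · exact_mod_cast Nat.div_le_self Y r
  have h3 : 0 ≤ Real.log ((Y / r : ℕ) : ℝ) := Real.log_nonneg (by exact_mod_cast h0)
  gcongr

open Classical in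
private theorem linked_aux {C : ℝ} (hC : 0 < C)
    (hosc : ∀ (w Y : ℕ) (α β : ℕ → ℝ), 3 ≤ w → 1 ≤ Y →
      (∀ a, |α a| ≤ 1) → (∀ b, |β b| ≤ 1) →
      (∀ a, α a ≠ 0 → w < a ∧ Odd a ∧ Squarefree a) →
      (∀ b, β b ≠ 0 → w < b ∧ Odd b ∧ Squarefree b) →
      |∑ x ∈ (Icc 1 Y ×ˢ Icc 1 Y).filter (fun x => x.1 * x.2 ≤ Y),
          α x.1 * β x.2 * (jacobiSym (x.1 : ℤ) x.2 : ℝ)| ≤
        C * Y * (1 + Real.log Y) ^ 10 * (w : ℝ) ^ (-(1 / 64) : ℝ))
    {V : Type} [Fintype V] [DecidableEq V] (E : V → V → Prop)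
    (g : V → ℕ → ℝ) (P : (V → ℕ) → Prop) (v u : V) (w Y : ℕ) (huv : v ≠ u) (hw : 3 ≤ w)
    (hY : 1 ≤ Y) (hE : E u v) (hE' : ¬ E v u) (hg : ∀ x n, |g x n| ≤ 1)
    (hP : ∀ n : V → ℕ, ∃ P1 P2 : ℕ → Prop, ∀ a b : ℕ,
      P (Function.update (Function.update n v a) u b) ↔ (P1 a ∧ P2 b)) :
    |∑ n ∈ Fintype.piFinset (fun _ : V => Icc 1 Y), (if lC P v u w Y n then lT E g n else 0)| ≤
      C * Y * (1 + Real.log Y) ^ (10 + Fintype.card V) * (w : ℝ) ^ (-(1 / 64) : ℝ) := by
  rw [linked_reindex huv hY]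
  refine (Finset.abs_sum_le_sum_abs _ _).trans ?_
  have hlog : 0 ≤ Real.log Y := Real.log_nonneg (by exact_mod_cast hY)
  have hw0 : (0 : ℝ) ≤ (w : ℝ) ^ (-(1 / 64) : ℝ) := Real.rpow_nonneg (Nat.cast_nonneg w) _
  have h1 : ∀ m ∈ (Fintype.piFinset (fun _ : V => Icc 1 Y)).filter (fun m => m v = 1 ∧ m u = 1),
      |∑ p ∈ Icc 1 Y ×ˢ Icc 1 Y,
        (if lC P v u w Y (Function.update (Function.update m v p.1) u p.2) then
          lT E g (Function.update (Function.update m v p.1) u p.2) else 0)| ≤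
      (C * Y * (1 + Real.log Y) ^ 10 * (w : ℝ) ^ (-(1 / 64) : ℝ)) * ∏ x, ((m x : ℝ))⁻¹ := by
    intro m hm
    rw [mem_filter, Fintype.mem_piFinset] at hm
    refine (linked_inner hC hosc E g P v u w Y huv hw hY hE hE' hg hP m
      (fun x => (mem_Icc.1 (hm.1 x)).1) hm.2.1 hm.2.2).trans (le_of_eq ?_)
    ring
  refine (Finset.sum_le_sum h1).trans ?_
  rw [← Finset.mul_sum]
  have h2 : ∑ m ∈ (Fintype.piFinset (fun _ : V => Icc 1 Y)).filter
      (fun m => m v = 1 ∧ m u = 1), ∏ x, ((m x : ℝ))⁻¹ ≤ (1 + Real.log Y) ^ Fintype.card V := by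
    refine (Finset.sum_le_sum_of_subset_of_nonneg (Finset.filter_subset _ _)
      fun m _ _ => Finset.prod_nonneg fun x _ => inv_nonneg.2 (Nat.cast_nonneg _)).trans ?_
    have h3 := Finset.prod_univ_sum (fun _ : V => Icc 1 Y) (fun (_ : V) (j : ℕ) => ((j : ℝ))⁻¹)
    rw [← h3, Finset.prod_const, Finset.card_univ]
    have h4 : ∑ j ∈ Icc 1 Y, ((j : ℝ))⁻¹ = ((harmonic Y : ℚ) : ℝ) := by
      rw [harmonic_eq_sum_Icc]
      push_cast
      rfl
    rw [h4]
    have h5 := harmonic_le_one_add_log Y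
    have h6 : (0 : ℝ) ≤ ((harmonic Y : ℚ) : ℝ) := by
      rw [← h4]
      exact Finset.sum_nonneg fun j _ => inv_nonneg.2 (Nat.cast_nonneg _)
    gcongr
  refine (mul_le_mul_of_nonneg_left h2 (by positivity)).trans (le_of_eq ?_)
  rw [pow_add]
  ring

open Classical in
theorem linked_bound : ∃ C : ℝ, 0 < C ∧ ∀ (V : Type) [Fintype V] [DecidableEq V] (E : V → V → Prop)
    (g : V → ℕ → ℝ) (P : (V → ℕ) → Prop) (v u : V) (w Y : ℕ), v ≠ u → 3 ≤ w → 1 ≤ Y →
    ((E v u ∧ ¬ E u v) ∨ (E u v ∧ ¬ E v u)) → (∀ x n, |g x n| ≤ 1) →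
    (∀ n : V → ℕ, ∃ P1 P2 : ℕ → Prop, ∀ a b : ℕ,
      P (Function.update (Function.update n v a) u b) ↔ (P1 a ∧ P2 b)) →
    |∑ n ∈ (Fintype.piFinset (fun _ : V => Icc 1 Y)).filter
        (fun n => Odd (∏ x, n x) ∧ Squarefree (∏ x, n x) ∧ ∏ x, n x ≤ Y ∧ w < n v ∧ w < n u ∧ P n),
        (∏ x, g x (n x)) * ∏ x, ∏ y ∈ univ.filter (fun y => E x y),
          (jacobiSym (n y : ℤ) (n x) : ℝ)| ≤
      C * Y * (1 + Real.log Y) ^ (10 + Fintype.card V) * (w : ℝ) ^ (-(1 / 64) : ℝ) := by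
  obtain ⟨C, hC, hosc⟩ := oscillation
  refine ⟨C, hC, ?_⟩
  intro V _ _ E g P v u w Y huv hw hY hE hg hP
  rw [Finset.sum_filter]
  rcases hE with ⟨hE, hE'⟩ | ⟨hE, hE'⟩
  · have h := linked_aux hC hosc E g P u v w Y huv.symm hw hY hE hE' hg (by
      intro n
      obtain ⟨P1, P2, h12⟩ := hP n
      refine ⟨P2, P1, fun a b => ?_⟩
      rw [Function.update_comm huv.symm, h12, and_comm])
    refine le_trans (le_of_eq ?_) h
    congr 1
    refine Finset.sum_congr rfl fun n _ => ?_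
    by_cases hc : lC P u v w Y n
    · rw [if_pos hc, if_pos ⟨hc.1, hc.2.1, hc.2.2.1, hc.2.2.2.2.1, hc.2.2.2.1, hc.2.2.2.2.2⟩]
      rfl
    · rw [if_neg hc, if_neg fun hc' => hc
        ⟨hc'.1, hc'.2.1, hc'.2.2.1, hc'.2.2.2.2.1, hc'.2.2.2.1, hc'.2.2.2.2.2⟩]
  · have h := linked_aux hC hosc E g P v u w Y huv hw hY hE hE' hg hP
    refine le_trans (le_of_eq ?_) h
    congr 1
    refine Finset.sum_congr rfl fun n _ => ?_
    by_cases hc : lC P v u w Y n
    · rw [if_pos hc, if_pos ⟨hc.1, hc.2.1, hc.2.2.1, hc.2.2.2.1, hc.2.2.2.2.1, hc.2.2.2.2.2⟩]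
      rfl
    · rw [if_neg hc, if_neg fun hc' => hc
        ⟨hc'.1, hc'.2.1, hc'.2.2.1, hc'.2.2.2.1, hc'.2.2.2.2.1, hc'.2.2.2.2.2⟩]

end Pool.Agent.Helper38.TW
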