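import Mathlib
import Pool.Agent.Helper38.TW.MDefs

/-!
# TW-C1: Fourier coefficients on the group of subsets

`c i p S = 2^{-(m-1)} ∑_{T ⊆ ι \ {i}, φ i p T} (-1)^{|S ∩ T|}` if `i ∉ S`, and `0` if `i ∈ S` (`m = card ι ≥ 1` because `i : ι` exists, `card (univ.erase i) = m - 1`).
`|c i p S| ≤ 2^{-(m-1)} #{T ⊆ ι \ {i} : φ i p T} = alph φ i p`, and `0 ≤ alph ≤ 1` (`card (powerset) = 2^{m-1}`).
For `T ⊆ s := ι \ {i}`: `∑_{S ⊆ s} (-1)^{|S ∩ T'|} (-1)^{|S ∩ T|} = 2^{|s|}` if `T' = T` and `0` otherwise: `(-1)^{|S ∩ T|} (-1)^{|S ∩ T'|} = ∏_{k ∈ S} (ε_T(k) ε_{T'}(k))`, `ε_T(k) = -1` for `k ∈ T`, `1` otherwise, and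
`∑_{S ⊆ s} ∏_{k ∈ S} a_k = ∏_{k ∈ s} (1 + a_k)` (`Finset.prod_one_add` / `Finset.prod_add_one`), which is `0` if some `a_k = -1` i.e. if `T ≠ T'`, and `2^{|s|}` if all `a_k = 1`.
(The sum over all `S : Finset ι` reduces to `S ⊆ s`, i.e. `i ∉ S`, because `c i p S = 0` for `i ∈ S`.)
-/

set_option autoImplicit false

namespace Pool.Agent.Helper38.TW

open Finset

variable {ι : Type} [Fintype ι] [DecidableEq ι]

theorem alph_bounds (φ : ι → ℕ → Finset ι → Prop) (i : ι) (p : ℕ) :
    0 ≤ alph φ i p ∧ alph φ i p ≤ 1 := by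
  classical
  constructor
  · unfold alph
    positivity
  · unfold alph
    rw [div_le_one (by positivity)]
    have h : (((univ.erase i).powerset.filter (fun T => φ i p T)).card)
        ≤ 2 ^ (Fintype.card ι - 1) := by
      refine (card_filter_le _ _).trans ?_
      rw [card_powerset, card_erase_of_mem (mem_univ i), card_univ]
    exact_mod_cast h

omit [Fintype ι] in
private lemma c1_sign (S T : Finset ι) :
    (-1 : ℝ) ^ (S ∩ T).card = ∏ k ∈ S, (if k ∈ T then (-1 : ℝ) else 1) := by
  rw [← prod_const, ← filter_mem_eq_inter, prod_filter]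

private lemma c1_orth (s T T' : Finset ι) (hT : T ⊆ s) (hT' : T' ⊆ s) :
    ∑ S ∈ s.powerset, (-1 : ℝ) ^ (S ∩ T').card * (-1 : ℝ) ^ (S ∩ T).card =
      if T' = T then (2 : ℝ) ^ s.card else 0 := by
  have h1 : ∀ S ∈ s.powerset, (-1 : ℝ) ^ (S ∩ T').card * (-1 : ℝ) ^ (S ∩ T).card =
      ∏ k ∈ S, ((if k ∈ T' then (-1 : ℝ) else 1) * (if k ∈ T then (-1 : ℝ) else 1)) := by
    intro S _
    rw [c1_sign, c1_sign, prod_mul_distrib]
  rw [sum_congr rfl h1, ← prod_one_add]
  by_cases h : T' = T
  · rw [if_pos h, h, ← prod_const]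
    refine prod_congr rfl fun k _ => ?_
    by_cases hk : k ∈ T
    · rw [if_pos hk]; norm_num
    · rw [if_neg hk]; norm_num
  · rw [if_neg h]
    have : ∃ k, ¬ (k ∈ T' ↔ k ∈ T) := by
      by_contra hcon
      push Not at hcon
      exact h (Finset.ext hcon)
    obtain ⟨k, hk⟩ := this
    have hks : k ∈ s := by
      by_cases h1 : k ∈ T
      · exact hT h1
      · by_cases h2 : k ∈ T'
        · exact hT' h2
        · exact absurd (by simp [h1, h2]) hk
    refine prod_eq_zero hks ?_
    by_cases h1 : k ∈ T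
    · by_cases h2 : k ∈ T'
      · exact absurd (by simp [h1, h2]) hk
      · rw [if_pos h1, if_neg h2]; norm_num
    · by_cases h2 : k ∈ T'
      · rw [if_neg h1, if_pos h2]; norm_num
      · exact absurd (by simp [h1, h2]) hk

theorem exists_four (φ : ι → ℕ → Finset ι → Prop) : ∃ c, IsFour φ c := by
  classical
  refine ⟨fun i p S => if i ∈ S then 0 else
    (∑ T ∈ (univ.erase i).powerset.filter (fun T => φ i p T), (-1 : ℝ) ^ (S ∩ T).card) /
      2 ^ (Fintype.card ι - 1), ?_, ?_, ?_⟩
  · intro i p S hS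
    simp [hS]
  · intro i p S
    by_cases hS : i ∈ S
    · simp only [hS, if_true, abs_zero]
      exact (alph_bounds φ i p).1
    · simp only [hS, if_false]
      unfold alph
      rw [abs_div, abs_of_pos (show (0 : ℝ) < 2 ^ (Fintype.card ι - 1) by positivity)]
      refine div_le_div_of_nonneg_right ?_ (by positivity)
      refine (abs_sum_le_sum_abs _ _).trans ?_
      simp only [abs_pow, abs_neg, abs_one, one_pow, sum_const, nsmul_eq_mul, mul_one]
      exact le_of_eq (by congr!)
  · intro i p T hT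
    have key : ∑ S : Finset ι, (if i ∈ S then (0 : ℝ) else
        (∑ T ∈ (univ.erase i).powerset.filter (fun T => φ i p T), (-1 : ℝ) ^ (S ∩ T).card) /
          2 ^ (Fintype.card ι - 1)) * (-1 : ℝ) ^ (S ∩ T).card = if φ i p T then 1 else 0 := by
      have h1 : ∑ S : Finset ι, (if i ∈ S then (0 : ℝ) else
        (∑ T ∈ (univ.erase i).powerset.filter (fun T => φ i p T), (-1 : ℝ) ^ (S ∩ T).card) /
          2 ^ (Fintype.card ι - 1)) * (-1 : ℝ) ^ (S ∩ T).card =
          ∑ S ∈ (univ.erase i).powerset, (∑ T' ∈ (univ.erase i).powerset.filter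
            (fun T => φ i p T), (-1 : ℝ) ^ (S ∩ T').card * (-1 : ℝ) ^ (S ∩ T).card) /
          2 ^ (Fintype.card ι - 1) := by
        rw [← sum_subset (subset_univ (univ.erase i).powerset)]
        · refine sum_congr rfl fun S hS => ?_
          have hi : i ∉ S := by
            intro hi
            have := (mem_powerset.1 hS) hi
            simp at this
          rw [if_neg hi, div_mul_eq_mul_div, sum_mul]
        · intro S _ hS
          have hi : i ∈ S := by
            by_contra hi
            apply hS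
            rw [mem_powerset]
            intro x hx
            rw [mem_erase]
            exact ⟨fun h => hi (h ▸ hx), mem_univ _⟩
          rw [if_pos hi, zero_mul]
      rw [h1, ← sum_div, sum_comm]
      have h2 : ∀ T' ∈ (univ.erase i).powerset.filter (fun T => φ i p T),
          ∑ S ∈ (univ.erase i).powerset, (-1 : ℝ) ^ (S ∩ T').card * (-1 : ℝ) ^ (S ∩ T).card =
            if T' = T then (2 : ℝ) ^ (univ.erase i).card else 0 := by
        intro T' hT'
        exact c1_orth _ _ _ hT (mem_powerset.1 (mem_filter.1 hT').1)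
      rw [sum_congr rfl h2, sum_ite_eq']
      have h3 : (univ.erase i : Finset ι).card = Fintype.card ι - 1 := by
        rw [card_erase_of_mem (mem_univ i), card_univ]
      rw [h3]
      by_cases hφ : φ i p T
      · rw [if_pos hφ, if_pos (mem_filter.2 ⟨mem_powerset.2 hT, hφ⟩)]
        field_simp
      · rw [if_neg hφ, if_neg (fun h => hφ (mem_filter.1 h).2), zero_div]
    constructor
    · intro h
      rw [if_pos h] at key
      exact key
    · intro h
      rw [if_neg h] at key
      exact key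

end Pool.Agent.Helper38.TW
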