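import Mathlib
import Pool.Agent.Helper10.P5.Mert

/-!
# TW-V: upper bound for sums of nonnegative multiplicative functions over squarefree numbers

`G(n) = ∏_{p ∣ n} G(p)` for squarefree `n`, `0 ≤ G(p) ≤ K`. CLAIM: `∑_{n ≤ Y, sqfree} G(n) ≤ C (Y/log Y) exp(∑_{p ≤ Y} G(p)/p)`.
Proof: (1) `∑_{n ≤ Y} G(n)/n ≤ ∏_{p ≤ Y} (1 + G(p)/p) ≤ exp(∑_{p ≤ Y} G(p)/p) =: E` (expand the product over subsets of the primes `≤ Y`: `Finset.prod_one_add`, squarefree `n ≤ Y` correspond injectively to subsets).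
(2) `∑ G(n) log n = ∑_n G(n) ∑_{p ∣ n} log p = ∑_{(m,p), mp ≤ Y, mp sqfree} G(m) G(p) log p ≤ K ∑_{m ≤ Y} G(m) θ(Y/m) ≤ K log 4 · Y ∑ G(m)/m ≤ 2 K Y E`
(`θ(x) = ∑_{p ≤ x} log p ≤ x log 4`: `Chebyshev.theta_le_log4_mul_x` or `primorial_le_4_pow`).
(3) `∑ G(n) log(Y/n) ≤ ∑ G(n) Y/n ≤ Y E` (`log t ≤ t`).
Adding: `log Y · ∑ G(n) ≤ (2K + 1) Y E`.
-/

set_option autoImplicit false

namespace Pool.Agent.Helper38.TW

open Finset Pool.Agent.Helper10.P5

private theorem sum_div_le (G : ℕ → ℝ) (hG : ∀ p, 0 ≤ G p) (Y : ℕ) :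
    ∑ n ∈ (Icc 1 Y).filter Squarefree, (∏ p ∈ n.primeFactors, G p) / n ≤
      Real.exp (∑ p ∈ PL Y, G p / p) := by
  classical
  have h1 : ∏ p ∈ PL Y, (1 + G p / p) ≤ Real.exp (∑ p ∈ PL Y, G p / p) := by
    rw [Real.exp_sum]
    refine Finset.prod_le_prod (fun p _ => ?_) (fun p _ => ?_)
    · have : 0 ≤ G p / p := div_nonneg (hG p) (Nat.cast_nonneg p)
      linarith
    · have := Real.add_one_le_exp (G p / p)
      linarith
  refine le_trans ?_ h1
  rw [Finset.prod_one_add]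
  have h2 : ∀ n ∈ (Icc 1 Y).filter Squarefree, (∏ p ∈ n.primeFactors, G p) / n =
      ∏ p ∈ n.primeFactors, (G p / p) := by
    intro n hn
    rw [Finset.prod_div_distrib]
    congr 1
    rw [← Nat.cast_prod, Nat.prod_primeFactors_of_squarefree (Finset.mem_filter.1 hn).2]
  rw [Finset.sum_congr rfl h2]
  have hinj : Set.InjOn Nat.primeFactors ((Icc 1 Y).filter Squarefree : Set ℕ) := by
    intro a ha b hb hab
    rw [Finset.mem_coe, Finset.mem_filter] at ha hb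
    rw [← Nat.prod_primeFactors_of_squarefree ha.2, ← Nat.prod_primeFactors_of_squarefree hb.2,
      hab]
  rw [← Finset.sum_image (g := Nat.primeFactors) (f := fun T => ∏ p ∈ T, (G p / p)) hinj]
  refine Finset.sum_le_sum_of_subset_of_nonneg ?_ ?_
  · intro T hT
    obtain ⟨n, hn, rfl⟩ := Finset.mem_image.1 hT
    rw [Finset.mem_filter, Finset.mem_Icc] at hn
    rw [Finset.mem_powerset]
    intro p hp
    rw [mem_PL]
    exact ⟨(Nat.le_of_dvd hn.1.1 (Nat.dvd_of_mem_primeFactors hp)).trans hn.1.2,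
      Nat.prime_of_mem_primeFactors hp⟩
  · intro T _ _
    exact Finset.prod_nonneg fun p _ => div_nonneg (hG p) (Nat.cast_nonneg p)

private theorem theta_PL (n : ℕ) : ∑ p ∈ PL n, Real.log p ≤ 2 * n := by
  have h1 := Chebyshev.theta_le_log4_mul_x (x := (n : ℝ)) (Nat.cast_nonneg n)
  have h2 : ∑ p ∈ PL n, Real.log p = Chebyshev.theta (n : ℝ) := by
    unfold Chebyshev.theta PL
    rw [Nat.floor_natCast]
    rfl
  rw [h2]
  refine h1.trans (mul_le_mul_of_nonneg_right ?_ (Nat.cast_nonneg n))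
  have h3 : Real.log 4 = 2 * Real.log 2 := by
    rw [show (4 : ℝ) = 2 ^ 2 by norm_num, Real.log_pow]
    norm_num
  have h4 := Real.log_two_lt_d9
  rw [h3]
  linarith

private theorem sum_log_le (K : ℝ) (hK : 0 ≤ K) (G : ℕ → ℝ) (hG : ∀ p, 0 ≤ G p ∧ G p ≤ K)
    (Y : ℕ) : ∑ n ∈ (Icc 1 Y).filter Squarefree, (∏ p ∈ n.primeFactors, G p) * Real.log n ≤
      2 * K * Y * ∑ n ∈ (Icc 1 Y).filter Squarefree, (∏ p ∈ n.primeFactors, G p) / n := by
  classical
  set S := (Icc 1 Y).filter Squarefree with hS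
  have hGm : ∀ n : ℕ, 0 ≤ ∏ p ∈ n.primeFactors, G p := fun n =>
    Finset.prod_nonneg fun p _ => (hG p).1
  have h1 : ∀ n ∈ S, (∏ p ∈ n.primeFactors, G p) * Real.log n =
      ∑ p ∈ n.primeFactors, (∏ q ∈ n.primeFactors, G q) * Real.log p := by
    intro n hn
    rw [hS, Finset.mem_filter] at hn
    rw [← Finset.mul_sum]
    congr 1
    rw [← Real.log_prod]
    · congr 1
      rw [← Nat.cast_prod, Nat.prod_primeFactors_of_squarefree hn.2]
    · intro p hp
      exact_mod_cast (Nat.prime_of_mem_primeFactors hp).ne_zero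
  rw [Finset.sum_congr rfl h1, Finset.sum_sigma']
  set φ : (Σ _ : ℕ, ℕ) → (Σ _ : ℕ, ℕ) := fun x => ⟨x.1 / x.2, x.2⟩ with hφ
  set H : (Σ _ : ℕ, ℕ) → ℝ := fun y => (∏ q ∈ y.1.primeFactors, G q) * K * Real.log y.2 with hH
  have hkey : ∀ x ∈ S.sigma (fun n => n.primeFactors), ∃ m, x.1 = m * x.2 ∧ m = x.1 / x.2 ∧
      m ∈ S ∧ x.2 ∈ PL (Y / m) ∧
      (∏ q ∈ x.1.primeFactors, G q) = (∏ q ∈ m.primeFactors, G q) * G x.2 := by
    rintro ⟨n, p⟩ hx
    rw [Finset.mem_sigma] at hx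
    obtain ⟨hn, hp⟩ := hx
    rw [hS, Finset.mem_filter, Finset.mem_Icc] at hn
    have hpp := Nat.prime_of_mem_primeFactors hp
    obtain ⟨m, hm⟩ := Nat.dvd_of_mem_primeFactors hp
    simp only at hm
    have hm' : n = m * p := by rw [hm, mul_comm]
    have hm0 : m ≠ 0 := by
      rintro rfl
      rw [zero_mul] at hm'
      have h7 : 1 ≤ n := hn.1.1
      omega
    have hsq : Squarefree (p * m) := hm ▸ hn.2
    have hcop : Nat.Coprime p m := Nat.coprime_of_squarefree_mul hsq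
    have hmY : m * p ≤ Y := hm' ▸ hn.1.2
    refine ⟨m, hm', ?_, ?_, ?_, ?_⟩
    · simp only
      rw [hm', Nat.mul_div_cancel _ hpp.pos]
    · rw [hS, Finset.mem_filter, Finset.mem_Icc]
      refine ⟨⟨Nat.pos_of_ne_zero hm0, ?_⟩, hsq.of_mul_right⟩
      exact (Nat.le_mul_of_pos_right m hpp.pos).trans hmY
    · rw [mem_PL]
      refine ⟨?_, hpp⟩
      rw [Nat.le_div_iff_mul_le (Nat.pos_of_ne_zero hm0), mul_comm]
      exact hmY
    · simp only
      rw [hm, Nat.primeFactors_mul hpp.ne_zero hm0, hpp.primeFactors,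
        Finset.prod_union, Finset.prod_singleton, mul_comm]
      rw [Finset.disjoint_singleton_left]
      intro h
      exact hpp.one_lt.ne' (hcop.eq_one_of_dvd (Nat.dvd_of_mem_primeFactors h))
  have h2 : ∀ x ∈ S.sigma (fun n => n.primeFactors),
      (∏ q ∈ x.1.primeFactors, G q) * Real.log x.2 ≤ H (φ x) := by
    intro x hx
    obtain ⟨m, _, hm2, _, hm4, hm5⟩ := hkey x hx
    rw [hm5]
    simp only [hH, hφ]
    rw [← hm2]
    rw [mem_PL] at hm4
    refine mul_le_mul_of_nonneg_right ?_ (Real.log_natCast_nonneg _)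
    exact mul_le_mul_of_nonneg_left (hG _).2 (hGm m)
  refine (Finset.sum_le_sum h2).trans ?_
  have hinj : Set.InjOn φ (S.sigma (fun n => n.primeFactors) : Set (Σ _ : ℕ, ℕ)) := by
    intro x hx y hy hxy
    obtain ⟨m, hm1, hm2, _⟩ := hkey x hx
    obtain ⟨m', hm1', hm2', _⟩ := hkey y hy
    simp only [hφ, Sigma.mk.injEq, heq_eq_eq] at hxy
    obtain ⟨h3, h4⟩ := hxy
    rw [← hm2, ← hm2'] at h3
    rcases x with ⟨x1, x2⟩
    rcases y with ⟨y1, y2⟩
    simp only at hm1 hm1' h4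
    rw [hm1, hm1', h3, h4]
  rw [← Finset.sum_image (g := φ) (f := H) hinj]
  have hsub : (S.sigma (fun n => n.primeFactors)).image φ ⊆ S.sigma (fun m => PL (Y / m)) := by
    intro y hy
    obtain ⟨x, hx, rfl⟩ := Finset.mem_image.1 hy
    obtain ⟨m, _, hm2, hm3, hm4, _⟩ := hkey x hx
    rw [Finset.mem_sigma]
    simp only [hφ]
    rw [← hm2]
    exact ⟨hm3, hm4⟩
  refine (Finset.sum_le_sum_of_subset_of_nonneg hsub ?_).trans ?_
  · intro y _ _
    exact mul_nonneg (mul_nonneg (hGm _) hK) (Real.log_natCast_nonneg _)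
  · rw [Finset.sum_sigma, Finset.mul_sum]
    refine Finset.sum_le_sum fun m hm => ?_
    rw [hS, Finset.mem_filter, Finset.mem_Icc] at hm
    simp only [hH]
    rw [← Finset.mul_sum]
    have hm0 : (0 : ℝ) < m := by exact_mod_cast hm.1.1
    have h5 : ∑ p ∈ PL (Y / m), Real.log p ≤ 2 * (Y / m) := by
      refine (theta_PL _).trans ?_
      have : ((Y / m : ℕ) : ℝ) ≤ Y / m := Nat.cast_div_le
      linarith
    calc (∏ q ∈ m.primeFactors, G q) * K * ∑ p ∈ PL (Y / m), Real.log p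
        ≤ (∏ q ∈ m.primeFactors, G q) * K * (2 * (Y / m)) :=
          mul_le_mul_of_nonneg_left h5 (mul_nonneg (hGm m) hK)
      _ = 2 * K * Y * ((∏ p ∈ m.primeFactors, G p) / m) := by ring

theorem mean_value (K : ℝ) (hK : 0 ≤ K) : ∃ C : ℝ, 0 < C ∧ ∀ (G : ℕ → ℝ),
    (∀ p, 0 ≤ G p ∧ G p ≤ K) → ∀ Y : ℕ, 2 ≤ Y →
    ∑ n ∈ (Icc 1 Y).filter Squarefree, ∏ p ∈ n.primeFactors, G p ≤
      C * (Y / Real.log Y) * Real.exp (∑ p ∈ PL Y, G p / p) := by
  refine ⟨2 * K + 1, by positivity, ?_⟩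
  intro G hG Y hY
  have hYR : (2 : ℝ) ≤ Y := by exact_mod_cast hY
  have hY0 : (0 : ℝ) < Y := by linarith
  have hlog : 0 < Real.log Y := Real.log_pos (by linarith)
  have hGm : ∀ n : ℕ, 0 ≤ ∏ p ∈ n.primeFactors, G p := fun n =>
    Finset.prod_nonneg fun p _ => (hG p).1
  have h1 := sum_div_le G (fun p => (hG p).1) Y
  have h2 := sum_log_le K hK G hG Y
  have h3 : ∑ n ∈ (Icc 1 Y).filter Squarefree,
      (∏ p ∈ n.primeFactors, G p) * (Real.log Y - Real.log n) ≤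
      Y * ∑ n ∈ (Icc 1 Y).filter Squarefree, (∏ p ∈ n.primeFactors, G p) / n := by
    rw [Finset.mul_sum]
    refine Finset.sum_le_sum fun n hn => ?_
    rw [Finset.mem_filter, Finset.mem_Icc] at hn
    have hn0 : (0 : ℝ) < n := by exact_mod_cast hn.1.1
    rw [← Real.log_div hY0.ne' hn0.ne']
    have h4 : Real.log (Y / n) ≤ Y / n := by
      have := Real.log_le_sub_one_of_pos (div_pos hY0 hn0)
      linarith
    calc (∏ p ∈ n.primeFactors, G p) * Real.log (Y / n)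
        ≤ (∏ p ∈ n.primeFactors, G p) * (Y / n) := mul_le_mul_of_nonneg_left h4 (hGm n)
      _ = Y * ((∏ p ∈ n.primeFactors, G p) / n) := by ring
  have h5 : Real.log Y * ∑ n ∈ (Icc 1 Y).filter Squarefree, ∏ p ∈ n.primeFactors, G p =
      ∑ n ∈ (Icc 1 Y).filter Squarefree, (∏ p ∈ n.primeFactors, G p) * Real.log n +
      ∑ n ∈ (Icc 1 Y).filter Squarefree,
        (∏ p ∈ n.primeFactors, G p) * (Real.log Y - Real.log n) := by
    rw [← Finset.sum_add_distrib, Finset.mul_sum]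
    refine Finset.sum_congr rfl fun n _ => ?_
    ring
  have h6 : Real.log Y * ∑ n ∈ (Icc 1 Y).filter Squarefree, ∏ p ∈ n.primeFactors, G p ≤
      (2 * K + 1) * Y * Real.exp (∑ p ∈ PL Y, G p / p) := by
    rw [h5]
    have h7 : (2 * K + 1) * Y * ∑ n ∈ (Icc 1 Y).filter Squarefree,
        (∏ p ∈ n.primeFactors, G p) / n ≤
        (2 * K + 1) * Y * Real.exp (∑ p ∈ PL Y, G p / p) :=
      mul_le_mul_of_nonneg_left h1 (by positivity)
    linarith
  have h8 : (2 * K + 1) * (Y / Real.log Y) * Real.exp (∑ p ∈ PL Y, G p / p) =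
      ((2 * K + 1) * Y * Real.exp (∑ p ∈ PL Y, G p / p)) / Real.log Y := by
    ring
  rw [h8, le_div_iff₀ hlog, mul_comm]
  exact h6

end Pool.Agent.Helper38.TW
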