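import Mathlib
import Pool.Agent.Helper38.TW.MDefs
import Pool.Agent.Helper38.TW.Fourier
import Pool.Agent.Helper38.TW.Factor
import Pool.Agent.Helper38.TW.MeanValue

/-!
# TW-C5: the terms where only the variables `(i, s i)` may be large

`V = ι × Finset ι`. Absolute values: every Jacobi symbol is at most `1`, every `|c i p S| ≤ alph φ i p ≤ 1` (`IsFour`, `alph_bounds`), so `|PhiV c n| ≤ ∏_i ∏_{p ∣ n(i, s i)} alph φ i p`.
Let `m` be the vector of the other coordinates (`≤ w` each), `r = ∏ m ≤ w^|V|`, `r² ≤ Y`. For fixed `m` the sum over the `n(i, s i) =: e i` with `∏ e` squarefree, `≤ Y / r` is at most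
`∑_{N ≤ Y/r squarefree} ∑_{e : ∏ e = N} ∏_i ∏_{p ∣ e i} alph φ i p = ∑_{N ≤ Y/r squarefree} ∏_{p ∣ N} G p` (`prod_sum_factor` with `σ = ι`), `G p = ∑_i alph φ i p ∈ [0, card ι]`.
`mean_value` (`K = card ι`): `≤ C' (Y/r) / log (Y/r) · exp(∑_{p ≤ Y} G p / p)`, with the natural number `N' = Y / r ≥ 2` (`r = 1` or `Y / r ≥ r ≥ 2`) and `log N' ≥ (1/4) log Y` (`N' ≥ Y/(2r) ≥ √Y/2 ≥ Y^{1/4}` if `Y ≥ 16`; `N' ≥ 2` if `Y < 16`).
Sum over `m`: `∑ 1/r ≤ (∑_{n ≤ w} 1/n)^{|V|} ≤ (1 + log w)^{|V|}`.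
-/

set_option autoImplicit false

namespace Pool.Agent.Helper38.TW

open Finset Pool.Agent.Helper10.P5

private lemma c5_phi {ι : Type} [Fintype ι] [DecidableEq ι] (φ : ι → ℕ → Finset ι → Prop)
    (c : ι → ℕ → Finset ι → ℝ) (hc : IsFour φ c) (s : ι → Finset ι) (n : ι × Finset ι → ℕ) :
    |PhiV c n| ≤ ∏ i, ∏ p ∈ (n (i, s i)).primeFactors, alph φ i p := by
  unfold PhiV
  rw [abs_mul]
  have h1 : |∏ v : ι × Finset ι, ∏ w ∈ univ.filter (fun w : ι × Finset ι => w.1 ∈ v.2),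
      (jacobiSym (n w : ℤ) (n v) : ℝ)| ≤ 1 := by
    rw [Finset.abs_prod]
    refine Finset.prod_le_one (fun _ _ => abs_nonneg _) (fun v _ => ?_)
    rw [Finset.abs_prod]
    refine Finset.prod_le_one (fun _ _ => abs_nonneg _) (fun u _ => ?_)
    rcases jacobiSym.trichotomy (n u : ℤ) (n v) with h | h | h <;> rw [h] <;> norm_num
  have h0 : 0 ≤ ∏ i, ∏ p ∈ (n (i, s i)).primeFactors, alph φ i p :=
    prod_nonneg fun i _ => prod_nonneg fun p _ => (alph_bounds φ i p).1
  have h2 : |∏ v : ι × Finset ι, ∏ p ∈ (n v).primeFactors, c v.1 p v.2| ≤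
      ∏ i, ∏ p ∈ (n (i, s i)).primeFactors, alph φ i p := by
    rw [Finset.abs_prod]
    have h3 : ∏ i, ∏ p ∈ (n (i, s i)).primeFactors, alph φ i p =
        ∏ v : ι × Finset ι,
          if v.2 = s v.1 then ∏ p ∈ (n v).primeFactors, alph φ v.1 p else 1 := by
      rw [Fintype.prod_prod_type]
      refine Finset.prod_congr rfl fun i _ => ?_
      rw [Finset.prod_ite_eq' univ (s i) (fun S => ∏ p ∈ (n (i, S)).primeFactors, alph φ i p),
        if_pos (mem_univ _)]
    rw [h3]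
    refine Finset.prod_le_prod (fun _ _ => abs_nonneg _) (fun v _ => ?_)
    rw [Finset.abs_prod]
    by_cases h : v.2 = s v.1
    · rw [if_pos h]
      exact Finset.prod_le_prod (fun _ _ => abs_nonneg _) (fun p _ => hc.2.1 _ _ _)
    · rw [if_neg h]
      exact Finset.prod_le_one (fun _ _ => abs_nonneg _)
        (fun p _ => (hc.2.1 _ _ _).trans (alph_bounds φ _ _).2)
  calc _ ≤ (∏ i, ∏ p ∈ (n (i, s i)).primeFactors, alph φ i p) * 1 :=
        mul_le_mul h2 h1 (abs_nonneg _) h0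
    _ = _ := mul_one _

private lemma c5_e {ι : Type} [Fintype ι] [DecidableEq ι] (φ : ι → ℕ → Finset ι → Prop)
    (Y X : ℕ) :
    ∑ e ∈ (Fintype.piFinset (fun _ : ι => Icc 1 Y)).filter
        (fun e => Squarefree (∏ i, e i) ∧ ∏ i, e i ≤ X),
        ∏ i, ∏ p ∈ (e i).primeFactors, alph φ i p ≤
      ∑ N ∈ (Icc 1 X).filter Squarefree, ∏ p ∈ N.primeFactors, ∑ i, alph φ i p := by
  classical
  have hmaps : ∀ e ∈ (Fintype.piFinset (fun _ : ι => Icc 1 Y)).filter
        (fun e => Squarefree (∏ i, e i) ∧ ∏ i, e i ≤ X),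
        ∏ i, e i ∈ (Icc 1 X).filter Squarefree := by
    intro e he
    rw [mem_filter] at he
    rw [mem_filter, mem_Icc]
    exact ⟨⟨Nat.pos_of_ne_zero he.2.1.ne_zero, he.2.2⟩, he.2.1⟩
  rw [← Finset.sum_fiberwise_of_maps_to hmaps]
  refine Finset.sum_le_sum fun N hN => ?_
  rw [prod_sum_factor N (mem_filter.1 hN).2 (fun i p => alph φ i p)]
  refine Finset.sum_le_sum_of_subset_of_nonneg ?_ ?_
  · intro e he
    have he2 : ∏ i, e i = N := (mem_filter.1 he).2
    rw [mem_filter, Fintype.mem_piFinset]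
    refine ⟨fun i => ?_, he2⟩
    rw [Nat.mem_divisors]
    refine ⟨?_, (mem_filter.1 hN).2.ne_zero⟩
    rw [← he2]
    exact dvd_prod_of_mem _ (mem_univ i)
  · intro e _ _
    exact prod_nonneg fun i _ => prod_nonneg fun p _ => (alph_bounds φ i p).1

private lemma c5_m (V : Type) [Fintype V] [DecidableEq V] (w : ℕ) :
    ∑ m ∈ Fintype.piFinset (fun _ : V => Icc 1 w), 1 / ((∏ v, m v : ℕ) : ℝ) ≤
      (1 + Real.log w) ^ Fintype.card V := by
  have h1 : ∀ m ∈ Fintype.piFinset (fun _ : V => Icc 1 w),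
      1 / ((∏ v, m v : ℕ) : ℝ) = ∏ v, ((m v : ℝ))⁻¹ := by
    intro m _
    rw [Nat.cast_prod, one_div, ← Finset.prod_inv_distrib]
  rw [sum_congr rfl h1, ← Finset.prod_univ_sum (fun _ : V => Icc 1 w) (fun _ n => ((n : ℝ))⁻¹),
    prod_const, card_univ]
  have h2 := harmonic_le_one_add_log w
  rw [harmonic_eq_sum_Icc] at h2
  push_cast at h2
  refine pow_le_pow_left₀ (sum_nonneg fun n _ => by positivity) h2 _

theorem unlinked_bound (ι : Type) [Fintype ι] [DecidableEq ι] : ∃ C : ℝ, 0 < C ∧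
    ∀ (φ : ι → ℕ → Finset ι → Prop) (c : ι → ℕ → Finset ι → ℝ) (s : ι → Finset ι) (w Y : ℕ),
    IsFour φ c → 1 ≤ w → 2 ≤ Y → w ^ (2 * Fintype.card (ι × Finset ι)) ≤ Y →
    ∑ n ∈ (Fintype.piFinset (fun _ : ι × Finset ι => Icc 1 Y)).filter
        (fun n => Squarefree (∏ v, n v) ∧ ∏ v, n v ≤ Y ∧ ∀ v, v.2 ≠ s v.1 → n v ≤ w),
        |PhiV c n| ≤
      C * (Y / Real.log Y) * (1 + Real.log w) ^ (Fintype.card (ι × Finset ι)) *
        Real.exp (∑ p ∈ PL Y, (∑ i, alph φ i p) / p) := by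
  classical
  obtain ⟨C0, hC0, hmv⟩ := mean_value (Fintype.card ι : ℝ) (Nat.cast_nonneg _)
  refine ⟨4 * C0, by positivity, ?_⟩
  intro φ c s w Y hc hw hY hwY
  have hYR : (2 : ℝ) ≤ Y := by exact_mod_cast hY
  have hlogY : 0 < Real.log Y := Real.log_pos (by linarith)
  have hG : ∀ p, 0 ≤ ∑ i, alph φ i p ∧ ∑ i, alph φ i p ≤ (Fintype.card ι : ℝ) := by
    intro p
    refine ⟨sum_nonneg fun i _ => (alph_bounds φ i p).1, ?_⟩
    calc ∑ i, alph φ i p ≤ ∑ _i : ι, (1 : ℝ) := sum_le_sum fun i _ => (alph_bounds φ i p).2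
      _ = _ := by simp
  -- the two parts of a vector
  let M : (ι × Finset ι → ℕ) → (ι × Finset ι → ℕ) := fun n v => if v.2 = s v.1 then 1 else n v
  let E : (ι × Finset ι → ℕ) → (ι → ℕ) := fun n i => n (i, s i)
  let F : (ι → ℕ) → ℝ := fun e => ∏ i, ∏ p ∈ (e i).primeFactors, alph φ i p
  have hF0 : ∀ e, 0 ≤ F e := fun e =>
    prod_nonneg fun i _ => prod_nonneg fun p _ => (alph_bounds φ i p).1
  have hprod : ∀ n : ι × Finset ι → ℕ, ∏ v, n v = (∏ v, M n v) * ∏ i, E n i := by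
    intro n
    have h1 : ∏ i, E n i = ∏ v : ι × Finset ι, if v.2 = s v.1 then n v else 1 := by
      rw [Fintype.prod_prod_type]
      refine Finset.prod_congr rfl fun i _ => ?_
      rw [Finset.prod_ite_eq' univ (s i) (fun S => n (i, S)), if_pos (mem_univ _)]
    rw [h1, ← prod_mul_distrib]
    refine prod_congr rfl fun v _ => ?_
    by_cases h : v.2 = s v.1
    · simp only [M, h, if_true, one_mul]
    · simp only [M, h, if_false, mul_one]
  -- bound for one vector `m`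
  have hone : ∀ m ∈ Fintype.piFinset (fun _ : ι × Finset ι => Icc 1 w),
      ∑ e ∈ (Fintype.piFinset (fun _ : ι => Icc 1 Y)).filter
        (fun e => Squarefree (∏ i, e i) ∧ ∏ i, e i ≤ Y / ∏ v, m v), F e ≤
      (4 * C0 * (Y / Real.log Y) * Real.exp (∑ p ∈ PL Y, (∑ i, alph φ i p) / p)) *
        (1 / ((∏ v, m v : ℕ) : ℝ)) := by
    intro m hm
    rw [Fintype.mem_piFinset] at hm
    obtain ⟨r, hr⟩ : ∃ r, r = ∏ v, m v := ⟨_, rfl⟩
    obtain ⟨X, hX⟩ : ∃ X, X = Y / r := ⟨_, rfl⟩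
    rw [← hr, ← hX]
    refine (c5_e φ Y X).trans ?_
    have hr1 : 1 ≤ r := by
      rw [hr]
      exact Nat.succ_le_of_lt (prod_pos fun v _ => (mem_Icc.1 (hm v)).1)
    have hrw : r ≤ w ^ Fintype.card (ι × Finset ι) := by
      rw [hr]
      calc ∏ v, m v ≤ ∏ _v : ι × Finset ι, w :=
            Finset.prod_le_prod' fun v _ => (mem_Icc.1 (hm v)).2
        _ = _ := by rw [prod_const, card_univ]
    have hrr : r * r ≤ Y := by
      calc r * r ≤ w ^ Fintype.card (ι × Finset ι) * w ^ Fintype.card (ι × Finset ι) :=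
            Nat.mul_le_mul hrw hrw
        _ = w ^ (2 * Fintype.card (ι × Finset ι)) := by rw [← pow_add]; congr 1; ring
        _ ≤ Y := hwY
    have hrX : r ≤ X := by
      rw [hX, Nat.le_div_iff_mul_le (by omega)]
      exact hrr
    have hX2 : 2 ≤ X := by
      by_cases h : r = 1
      · rw [hX, h, Nat.div_one]
        exact hY
      · omega
    have hYX : Y ≤ X ^ 4 := by
      have h1 : Y < (X + 1) * r := by
        rw [hX]
        exact (Nat.div_lt_iff_lt_mul (by omega)).1 (Nat.lt_succ_self _)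
      calc Y ≤ (X + 1) * r := h1.le
        _ ≤ (X + X) * X := Nat.mul_le_mul (by omega) hrX
        _ = 2 * (X * X) := by ring
        _ ≤ (X * X) * (X * X) := Nat.mul_le_mul (by nlinarith) le_rfl
        _ = X ^ 4 := by ring
    have hXR : (2 : ℝ) ≤ X := by exact_mod_cast hX2
    have hlogX : 0 < Real.log X := Real.log_pos (by linarith)
    have hlog : Real.log Y ≤ 4 * Real.log X := by
      have h1 : (Y : ℝ) ≤ (X : ℝ) ^ 4 := by exact_mod_cast hYX
      have h2 := Real.log_le_log (by linarith) h1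
      rw [Real.log_pow] at h2
      push_cast at h2
      exact h2
    have h3 := hmv (fun p => ∑ i, alph φ i p) hG X hX2
    refine h3.trans ?_
    have hrR : (0 : ℝ) < r := by exact_mod_cast hr1
    have h4 : (X : ℝ) ≤ Y / r := by
      rw [hX]
      exact Nat.cast_div_le
    have h5 : (X : ℝ) / Real.log X ≤ 4 * (Y / Real.log Y) * (1 / r) := by
      have h6 : (1 : ℝ) / Real.log X ≤ 4 / Real.log Y := by
        rw [div_le_div_iff₀ hlogX hlogY]
        linarith
      calc (X : ℝ) / Real.log X = X * (1 / Real.log X) := by ring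
        _ ≤ (Y / r) * (4 / Real.log Y) :=
            mul_le_mul h4 h6 (by positivity) (by positivity)
        _ = _ := by ring
    have h7 : ∑ p ∈ PL X, (∑ i, alph φ i p) / p ≤ ∑ p ∈ PL Y, (∑ i, alph φ i p) / p := by
      refine sum_le_sum_of_subset_of_nonneg ?_ ?_
      · intro p hp
        rw [mem_PL] at hp ⊢
        refine ⟨hp.1.trans ?_, hp.2⟩
        rw [hX]
        exact Nat.div_le_self _ _
      · intro p _ _
        exact div_nonneg (hG p).1 (Nat.cast_nonneg p)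
    have h8 := Real.exp_le_exp.2 h7
    calc C0 * (X / Real.log X) * Real.exp (∑ p ∈ PL X, (∑ i, alph φ i p) / p)
        ≤ C0 * (4 * (Y / Real.log Y) * (1 / r)) *
            Real.exp (∑ p ∈ PL Y, (∑ i, alph φ i p) / p) := by
          refine mul_le_mul (mul_le_mul_of_nonneg_left h5 hC0.le) h8 (Real.exp_pos _).le ?_
          positivity
      _ = _ := by ring
  -- the injection
  have hstep : ∑ n ∈ (Fintype.piFinset (fun _ : ι × Finset ι => Icc 1 Y)).filter
        (fun n => Squarefree (∏ v, n v) ∧ ∏ v, n v ≤ Y ∧ ∀ v, v.2 ≠ s v.1 → n v ≤ w),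
        |PhiV c n| ≤
      ∑ m ∈ Fintype.piFinset (fun _ : ι × Finset ι => Icc 1 w),
        ∑ e ∈ (Fintype.piFinset (fun _ : ι => Icc 1 Y)).filter
          (fun e => Squarefree (∏ i, e i) ∧ ∏ i, e i ≤ Y / ∏ v, m v), F e := by
    rw [Finset.sum_sigma']
    have h1 : ∀ n ∈ (Fintype.piFinset (fun _ : ι × Finset ι => Icc 1 Y)).filter
        (fun n => Squarefree (∏ v, n v) ∧ ∏ v, n v ≤ Y ∧ ∀ v, v.2 ≠ s v.1 → n v ≤ w),
        |PhiV c n| ≤ (fun x : (Σ _ : (ι × Finset ι → ℕ), (ι → ℕ)) => F x.2)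
          ((fun n => (⟨M n, E n⟩ : (Σ _ : (ι × Finset ι → ℕ), (ι → ℕ)))) n) := by
      intro n _
      exact c5_phi φ c hc s n
    refine (Finset.sum_le_sum h1).trans ?_
    have hinj : Set.InjOn (fun n => (⟨M n, E n⟩ : (Σ _ : (ι × Finset ι → ℕ), (ι → ℕ))))
        (((Fintype.piFinset (fun _ : ι × Finset ι => Icc 1 Y)).filter
        (fun n => Squarefree (∏ v, n v) ∧ ∏ v, n v ≤ Y ∧ ∀ v, v.2 ≠ s v.1 → n v ≤ w) :
          Finset (ι × Finset ι → ℕ)) : Set (ι × Finset ι → ℕ)) := by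
      intro a _ b _ hab
      simp only [Sigma.mk.injEq, heq_eq_eq] at hab
      obtain ⟨h2, h3⟩ := hab
      funext v
      by_cases h : v.2 = s v.1
      · have h4 := congrFun h3 v.1
        simp only [E] at h4
        rw [← h] at h4
        exact h4
      · have h4 := congrFun h2 v
        simp only [M, h, if_false] at h4
        exact h4
    rw [← Finset.sum_image (g := fun n => (⟨M n, E n⟩ : (Σ _ : (ι × Finset ι → ℕ), (ι → ℕ))))
      (f := fun x : (Σ _ : (ι × Finset ι → ℕ), (ι → ℕ)) => F x.2) hinj]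
    refine Finset.sum_le_sum_of_subset_of_nonneg ?_ ?_
    · intro x hx
      obtain ⟨n, hn, rfl⟩ := Finset.mem_image.1 hx
      rw [mem_filter, Fintype.mem_piFinset] at hn
      obtain ⟨hn1, hn2, hn3, hn4⟩ := hn
      rw [Finset.mem_sigma]
      refine ⟨?_, ?_⟩
      · change M n ∈ _
        rw [Fintype.mem_piFinset]
        intro v
        rw [mem_Icc]
        by_cases h : v.2 = s v.1
        · simp only [M, h, if_true]
          exact ⟨le_rfl, hw⟩
        · simp only [M, h, if_false]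
          exact ⟨(mem_Icc.1 (hn1 v)).1, hn4 v h⟩
      · change E n ∈ (Fintype.piFinset (fun _ : ι => Icc 1 Y)).filter
          (fun e => Squarefree (∏ i, e i) ∧ ∏ i, e i ≤ Y / ∏ v, M n v)
        rw [mem_filter, Fintype.mem_piFinset]
        rw [hprod n] at hn2 hn3
        refine ⟨fun i => hn1 (i, s i), hn2.of_mul_right, ?_⟩
        rw [Nat.le_div_iff_mul_le, mul_comm]
        · exact hn3
        · exact Nat.pos_of_ne_zero (hn2.of_mul_left).ne_zero
    · intro x _ _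
      exact hF0 _
  refine hstep.trans ((Finset.sum_le_sum hone).trans ?_)
  rw [← Finset.mul_sum]
  have h9 := c5_m (ι × Finset ι) w
  calc (4 * C0 * (Y / Real.log Y) * Real.exp (∑ p ∈ PL Y, (∑ i, alph φ i p) / p)) *
        ∑ m ∈ Fintype.piFinset (fun _ : ι × Finset ι => Icc 1 w), 1 / ((∏ v, m v : ℕ) : ℝ)
      ≤ (4 * C0 * (Y / Real.log Y) * Real.exp (∑ p ∈ PL Y, (∑ i, alph φ i p) / p)) *
        (1 + Real.log w) ^ Fintype.card (ι × Finset ι) :=
        mul_le_mul_of_nonneg_left h9 (by positivity)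
    _ = _ := by ring

end Pool.Agent.Helper38.TW
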