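import Mathlib
import Pool.Agent.Helper38.TW.Comb
import Pool.Agent.Helper38.TW.Unlinked
import Pool.Agent.Helper38.TW.Linked
import Pool.Agent.Helper38.TW.Expand

/-!
# TW-C6: THEOREM M

Assembly. `V = ι × Finset ι`, `Q = 2^(card ι) = card (Finset ι)`, `w = ⌊z^{1/Q}⌋` (e.g. `w = Nat.nthRoot`, or the largest `w` with `w^Q ≤ z`: `Nat.findGreatest`), so `w^Q ≤ z < (w+1)^Q ≤ (2w)^Q`, `w ≥ 3` as `z ≥ A ≥ 3^Q`, and
`w^{-1/64} ≤ (z^{1/Q}/2)^{-1/64} ≤ 2 z^{-1/(64 Q)}`.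
`c` = Fourier coefficients (`exists_four`), `count_eq`: the count is `∑_n PhiV c n`. For `n` in the sum put `U(n) = {v : w < n_v}`. Since `cls n i = ∏_S n(i,S) > z ≥ w^Q`, every `i` has an `S` with `(i,S) ∈ U(n)`. Split the sum according to `U = U(n)` (`2^|V|` sets):
* `U` contains a `v = (i,S)` with `i ∈ S`: `n_v > 1` has a prime factor and `c i p S = 0`: `PhiV c n = 0`.
* `U` has a linked pair, i.e. `v, u ∈ U` with exactly one of `u.1 ∈ v.2`, `v.1 ∈ u.2` (then `v ≠ u`, and `v.1 ≠ u.1` because `v.1 ∉ v.2`, `u.1 ∉ u.2`): `linked_bound` with `E x y = (y.1 ∈ x.2)`, `g x n = ∏_{p ∣ n} c x.1 p x.2` (absolute value `≤ 1`),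
  `P n = (∀ x, x ∈ U ↔ w < n x) ∧ ∀ i, z < cls n i`, which is separable at `(v, u)` because `v.1 ≠ u.1` (`cls` at `v.1` depends on `n_v` only, at `u.1` on `n_u` only). Contribution `≤ C Y (1 + log Y)^{10+|V|} w^{-1/64}`.
* otherwise `unlinked_comb` gives `s` with `U = {(i, s i)}`, and the absolute value of the contribution is at most the sum in `unlinked_bound` (`n_v ≤ w` for `v ∉ U`): `w^{2|V|} = (w^Q)^{2 card ι} ≤ z^{2 card ι} ≤ z^A ≤ Y` if `A ≥ 2 card ι`; `1 + log w ≤ 1 + log z`.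
(If `ι` is empty the set of admissible tuples has one element; the claim holds too: `Y / log Y ≥ 1`. In this case `Adm` has at most one element and `C ≥ 1` is enough.) Take `A` = a large natural number (`≥ 3^Q`, `≥ 2 card ι`, `≥ |V| + 10`), `c = 1/(64 Q)`.
-/

set_option autoImplicit false

namespace Pool.Agent.Helper38.TW

open Finset Pool.Agent.Helper10.P5

/-- The integer `w = ⌊z^{1/Q}⌋`. -/
lemma exists_root (Q z : ℕ) (hQ : 1 ≤ Q) (hz : 3 ^ Q ≤ z) :
    ∃ w : ℕ, 3 ≤ w ∧ w ^ Q ≤ z ∧ z < (w + 1) ^ Q := by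
  have h3z : 3 ≤ z := by
    calc 3 = 3 ^ 1 := (pow_one 3).symm
      _ ≤ 3 ^ Q := Nat.pow_le_pow_right (by norm_num) hQ
      _ ≤ z := hz
  refine ⟨Nat.findGreatest (fun w => w ^ Q ≤ z) z, ?_, ?_, ?_⟩
  · exact Nat.le_findGreatest h3z hz
  · exact Nat.findGreatest_spec (P := fun w => w ^ Q ≤ z) h3z hz
  · by_cases h : Nat.findGreatest (fun w => w ^ Q ≤ z) z + 1 ≤ z
    · have h1 := Nat.findGreatest_is_greatest (P := fun w => w ^ Q ≤ z) (n := z)
        (k := Nat.findGreatest (fun w => w ^ Q ≤ z) z + 1) (Nat.lt_succ_self _) h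
      exact not_le.1 h1
    · calc z < Nat.findGreatest (fun w => w ^ Q ≤ z) z + 1 := not_le.1 h
        _ = (Nat.findGreatest (fun w => w ^ Q ≤ z) z + 1) ^ 1 := (pow_one _).symm
        _ ≤ _ := Nat.pow_le_pow_right (Nat.succ_pos _) hQ

lemma root_rpow {Q z w : ℕ} (hQ : 1 ≤ Q) (hw : 3 ≤ w) (hz : z < (w + 1) ^ Q) (hz1 : 1 ≤ z) :
    (w : ℝ) ^ (-(1 / 64) : ℝ) ≤ 2 * (z : ℝ) ^ (-(1 / (64 * (Q : ℝ))) : ℝ) := by
  have hw' : (3 : ℝ) ≤ w := by exact_mod_cast hw
  have hz' : (1 : ℝ) ≤ z := by exact_mod_cast hz1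
  have hQ' : (1 : ℝ) ≤ Q := by exact_mod_cast hQ
  have h1 : (z : ℝ) ≤ (2 * (w : ℝ)) ^ (Q : ℝ) := by
    have h2 : (z : ℝ) ≤ ((w : ℝ) + 1) ^ Q := by exact_mod_cast hz.le
    rw [Real.rpow_natCast]
    exact h2.trans (pow_le_pow_left₀ (by positivity) (by linarith) Q)
  have h2 : (z : ℝ) ^ (1 / (64 * (Q : ℝ))) ≤ (2 * (w : ℝ)) ^ (1 / 64 : ℝ) := by
    calc (z : ℝ) ^ (1 / (64 * (Q : ℝ))) ≤ ((2 * (w : ℝ)) ^ (Q : ℝ)) ^ (1 / (64 * (Q : ℝ))) :=
          Real.rpow_le_rpow (by positivity) h1 (by positivity)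
      _ = (2 * (w : ℝ)) ^ (1 / 64 : ℝ) := by
          rw [← Real.rpow_mul (by positivity)]
          congr 1
          field_simp
  have h3 : (2 * (w : ℝ)) ^ (1 / 64 : ℝ) ≤ 2 * (w : ℝ) ^ (1 / 64 : ℝ) := by
    rw [Real.mul_rpow (by norm_num) (by positivity)]
    refine mul_le_mul_of_nonneg_right ?_ (by positivity)
    calc (2 : ℝ) ^ (1 / 64 : ℝ) ≤ 2 ^ (1 : ℝ) :=
          Real.rpow_le_rpow_of_exponent_le (by norm_num) (by norm_num)
      _ = 2 := Real.rpow_one 2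
  have h4 := h2.trans h3
  rw [Real.rpow_neg (by positivity), Real.rpow_neg (by positivity)]
  have h5 : 0 < (z : ℝ) ^ (1 / (64 * (Q : ℝ))) := Real.rpow_pos_of_pos (by linarith) _
  have h6 : 0 < (w : ℝ) ^ (1 / 64 : ℝ) := Real.rpow_pos_of_pos (by linarith) _
  rw [inv_eq_one_div, inv_eq_one_div, mul_one_div, div_le_div_iff₀ h6 h5]
  linarith

section terms

variable {ι : Type} [Fintype ι] [DecidableEq ι]

/-- The index set of the expansion. -/
def SetS (ι : Type) [Fintype ι] [DecidableEq ι] (z Y : ℕ) : Finset (ι × Finset ι → ℕ) :=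
  (Fintype.piFinset (fun _ : ι × Finset ι => Icc 1 Y)).filter
    (fun n => Odd (∏ v, n v) ∧ Squarefree (∏ v, n v) ∧ ∏ v, n v ≤ Y ∧ ∀ i, z < cls n i)

/-- The large variables. -/
def Ubig (w : ℕ) (n : ι × Finset ι → ℕ) : Finset (ι × Finset ι) := univ.filter (fun v => w < n v)

lemma mem_Ubig {w : ℕ} {n : ι × Finset ι → ℕ} {v : ι × Finset ι} :
    v ∈ Ubig w n ↔ w < n v := by
  unfold Ubig
  simp

lemma PhiV_zero {φ : ι → ℕ → Finset ι → Prop} {c : ι → ℕ → Finset ι → ℝ} (hc : IsFour φ c)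
    {n : ι × Finset ι → ℕ} {v : ι × Finset ι} (hv : v.1 ∈ v.2) (hn : 1 < n v) :
    PhiV c n = 0 := by
  unfold PhiV
  obtain ⟨p, hp⟩ := (Nat.nonempty_primeFactors (n := n v)).2 hn
  rw [Finset.prod_eq_zero (Finset.mem_univ v), zero_mul]
  exact Finset.prod_eq_zero hp (hc.1 _ _ _ hv)

lemma abs_c_le {φ : ι → ℕ → Finset ι → Prop} {c : ι → ℕ → Finset ι → ℝ} (hc : IsFour φ c)
    (x : ι × Finset ι) (n : ℕ) : |∏ p ∈ n.primeFactors, c x.1 p x.2| ≤ 1 := by
  rw [Finset.abs_prod]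
  exact Finset.prod_le_one (fun _ _ => abs_nonneg _)
    fun p _ => (hc.2.1 _ _ _).trans (alph_bounds φ _ _).2

lemma exists_big {z w : ℕ} (hw : w ^ Fintype.card (Finset ι) ≤ z) {n : ι × Finset ι → ℕ}
    {i : ι} (h : z < cls n i) : ∃ S, w < n (i, S) := by
  by_contra hcon
  push Not at hcon
  unfold cls at h
  have h1 : ∏ S : Finset ι, n (i, S) ≤ ∏ _S : Finset ι, w := Finset.prod_le_prod' fun S _ => hcon S
  rw [Finset.prod_const, Finset.card_univ] at h1
  omega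

end terms

open Classical in
/-- The contribution of the tuples with given set of large variables. -/
lemma fiber_bound (ι : Type) [Fintype ι] [DecidableEq ι] {C₁ C₂ : ℝ}
    (hC₁ : 0 < C₁) (hC₂ : 0 < C₂)
    (h₁ : ∀ (φ : ι → ℕ → Finset ι → Prop) (c : ι → ℕ → Finset ι → ℝ) (s : ι → Finset ι)
      (w Y : ℕ), IsFour φ c → 1 ≤ w → 2 ≤ Y → w ^ (2 * Fintype.card (ι × Finset ι)) ≤ Y →
      ∑ n ∈ (Fintype.piFinset (fun _ : ι × Finset ι => Icc 1 Y)).filter
        (fun n => Squarefree (∏ v, n v) ∧ ∏ v, n v ≤ Y ∧ ∀ v, v.2 ≠ s v.1 → n v ≤ w),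
        |PhiV c n| ≤
      C₁ * (Y / Real.log Y) * (1 + Real.log w) ^ (Fintype.card (ι × Finset ι)) *
        Real.exp (∑ p ∈ PL Y, (∑ i, alph φ i p) / p))
    (h₂ : ∀ (V : Type) [Fintype V] [DecidableEq V] (E : V → V → Prop)
      (g : V → ℕ → ℝ) (P : (V → ℕ) → Prop) (v u : V) (w Y : ℕ), v ≠ u → 3 ≤ w → 1 ≤ Y →
      ((E v u ∧ ¬ E u v) ∨ (E u v ∧ ¬ E v u)) → (∀ x n, |g x n| ≤ 1) →
      (∀ n : V → ℕ, ∃ P1 P2 : ℕ → Prop, ∀ a b : ℕ,
        P (Function.update (Function.update n v a) u b) ↔ (P1 a ∧ P2 b)) →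
      |∑ n ∈ (Fintype.piFinset (fun _ : V => Icc 1 Y)).filter
        (fun n => Odd (∏ x, n x) ∧ Squarefree (∏ x, n x) ∧ ∏ x, n x ≤ Y ∧ w < n v ∧ w < n u ∧
          P n),
        (∏ x, g x (n x)) * ∏ x, ∏ y ∈ univ.filter (fun y => E x y),
          (jacobiSym (n y : ℤ) (n x) : ℝ)| ≤
      C₂ * Y * (1 + Real.log Y) ^ (10 + Fintype.card V) * (w : ℝ) ^ (-(1 / 64) : ℝ))
    {φ : ι → ℕ → Finset ι → Prop} {c : ι → ℕ → Finset ι → ℝ} (hc : IsFour φ c) {z Y w : ℕ}
    (hw3 : 3 ≤ w) (hwz : w ^ Fintype.card (Finset ι) ≤ z) (hY : 3 ≤ Y)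
    (hwY : w ^ (2 * Fintype.card (ι × Finset ι)) ≤ Y) (U : Finset (ι × Finset ι)) :
    |∑ n ∈ (SetS ι z Y).filter (fun n => Ubig w n = U), PhiV c n| ≤
      C₁ * (Y / Real.log Y) * (1 + Real.log w) ^ (Fintype.card (ι × Finset ι)) *
        Real.exp (∑ p ∈ PL Y, (∑ i, alph φ i p) / p) +
      C₂ * Y * (1 + Real.log Y) ^ (10 + Fintype.card (ι × Finset ι)) *
        (w : ℝ) ^ (-(1 / 64) : ℝ) := by
  have hYr : (3 : ℝ) ≤ Y := by exact_mod_cast hY
  have hlogY : 0 < Real.log Y := Real.log_pos (by linarith)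
  have hwr : (3 : ℝ) ≤ w := by exact_mod_cast hw3
  have hlogw : 0 < Real.log w := Real.log_pos (by linarith)
  have hT1 : 0 ≤ C₁ * (Y / Real.log Y) * (1 + Real.log w) ^ (Fintype.card (ι × Finset ι)) *
      Real.exp (∑ p ∈ PL Y, (∑ i, alph φ i p) / p) := by positivity
  have hT2 : 0 ≤ C₂ * Y * (1 + Real.log Y) ^ (10 + Fintype.card (ι × Finset ι)) *
      (w : ℝ) ^ (-(1 / 64) : ℝ) := by positivity
  by_cases ha : ∃ v ∈ U, v.1 ∈ v.2
  · obtain ⟨v, hvU, hv⟩ := ha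
    have h0 : ∑ n ∈ (SetS ι z Y).filter (fun n => Ubig w n = U), PhiV c n = 0 := by
      refine Finset.sum_eq_zero fun n hn => ?_
      have h1 : v ∈ Ubig w n := (Finset.mem_filter.1 hn).2 ▸ hvU
      rw [mem_Ubig] at h1
      exact PhiV_zero hc hv (by omega)
    rw [h0, abs_zero]
    linarith
  push Not at ha
  by_cases hb : ∃ v ∈ U, ∃ u ∈ U, ¬ (u.1 ∈ v.2 ↔ v.1 ∈ u.2)
  · obtain ⟨v, hvU, u, huU, hvu⟩ := hb
    have hv1 := ha v hvU
    have hu1 := ha u huU
    have hne1 : v.1 ≠ u.1 := by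
      intro h
      apply hvu
      rw [← h] at hu1 ⊢
      exact iff_of_false hv1 hu1
    have hne : v ≠ u := fun h => hne1 (congrArg Prod.fst h)
    have hlink : ((fun x y : ι × Finset ι => y.1 ∈ x.2) v u ∧
        ¬ (fun x y : ι × Finset ι => y.1 ∈ x.2) u v) ∨
        ((fun x y : ι × Finset ι => y.1 ∈ x.2) u v ∧
        ¬ (fun x y : ι × Finset ι => y.1 ∈ x.2) v u) := by
      simp only
      tauto
    have hsep : ∀ n : ι × Finset ι → ℕ, ∃ P1 P2 : ℕ → Prop, ∀ a b : ℕ,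
        (fun n : ι × Finset ι → ℕ => (∀ x, x ∈ U ↔ w < n x) ∧ ∀ i, z < cls n i)
          (Function.update (Function.update n v a) u b) ↔ (P1 a ∧ P2 b) := by
      intro n
      refine ⟨fun a => (∀ x, x ≠ u → (x ∈ U ↔ w < Function.update n v a x)) ∧
        ∀ i, i ≠ u.1 → z < cls (Function.update n v a) i,
        fun b => (u ∈ U ↔ w < b) ∧ z < cls (Function.update n u b) u.1, fun a b => ?_⟩
      have e1 : ∀ x, x ≠ u → Function.update (Function.update n v a) u b x =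
          Function.update n v a x := fun x hx => Function.update_of_ne hx _ _
      have e2 : Function.update (Function.update n v a) u b u = b := Function.update_self _ _ _
      have e3 : ∀ i, i ≠ u.1 → cls (Function.update (Function.update n v a) u b) i =
          cls (Function.update n v a) i := by
        intro i hi
        unfold cls
        refine Finset.prod_congr rfl fun S _ => ?_
        exact e1 _ fun h => hi (congrArg Prod.fst h)
      have e4 : cls (Function.update (Function.update n v a) u b) u.1 =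
          cls (Function.update n u b) u.1 := by
        unfold cls
        refine Finset.prod_congr rfl fun S _ => ?_
        by_cases h : ((u.1, S) : ι × Finset ι) = u
        · rw [h, Function.update_self, Function.update_self]
        · rw [Function.update_of_ne h, Function.update_of_ne h, Function.update_of_ne]
          intro h'
          exact hne1 (congrArg Prod.fst h').symm
      constructor
      · rintro ⟨h5, h6⟩
        refine ⟨⟨fun x hx => ?_, fun i hi => ?_⟩, ?_, ?_⟩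
        · rw [← e1 x hx]
          exact h5 x
        · rw [← e3 i hi]
          exact h6 i
        · have := h5 u
          rwa [e2] at this
        · rw [← e4]
          exact h6 u.1
      · rintro ⟨⟨h5, h6⟩, h7, h8⟩
        refine ⟨fun x => ?_, fun i => ?_⟩
        · by_cases hx : x = u
          · rw [hx, e2]
            exact h7
          · rw [e1 x hx]
            exact h5 x hx
        · by_cases hi : i = u.1
          · rw [hi, e4]
            exact h8
          · rw [e3 i hi]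
            exact h6 i hi
    have h3 := h₂ (ι × Finset ι) (fun x y => y.1 ∈ x.2)
      (fun x n => ∏ p ∈ n.primeFactors, c x.1 p x.2)
      (fun n => (∀ x, x ∈ U ↔ w < n x) ∧ ∀ i, z < cls n i) v u w Y hne hw3 (by omega) hlink
      (abs_c_le hc) hsep
    have hset : (SetS ι z Y).filter (fun n => Ubig w n = U) =
        (Fintype.piFinset (fun _ : ι × Finset ι => Icc 1 Y)).filter
        (fun n => Odd (∏ x, n x) ∧ Squarefree (∏ x, n x) ∧ ∏ x, n x ≤ Y ∧ w < n v ∧ w < n u ∧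
          ((∀ x, x ∈ U ↔ w < n x) ∧ ∀ i, z < cls n i)) := by
      ext n
      unfold SetS
      rw [Finset.mem_filter, Finset.mem_filter, Finset.mem_filter]
      constructor
      · rintro ⟨⟨hn, h4, h5, h6, h7⟩, h8⟩
        have h9 : ∀ x, x ∈ U ↔ w < n x := fun x => by rw [← h8, mem_Ubig]
        exact ⟨hn, h4, h5, h6, (h9 v).1 hvU, (h9 u).1 huU, h9, h7⟩
      · rintro ⟨hn, h4, h5, h6, -, -, h9, h7⟩
        refine ⟨⟨hn, h4, h5, h6, h7⟩, ?_⟩
        ext x
        rw [mem_Ubig, h9]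
    rw [hset]
    refine le_trans (le_of_eq ?_) (h3.trans (by linarith))
    congr 1
    refine Finset.sum_congr ?_ fun n _ => ?_
    · ext n
      simp only [Finset.mem_filter]
    · unfold PhiV
      congr 1
      refine Finset.prod_congr rfl fun x _ => ?_
      refine Finset.prod_congr ?_ fun y _ => rfl
      ext y
      simp only [Finset.mem_filter]
  push Not at hb
  by_cases hemp : ((SetS ι z Y).filter (fun n => Ubig w n = U)).Nonempty
  · obtain ⟨n₀, hn₀⟩ := hemp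
    have hcl : ∀ i, ∃ S, (i, S) ∈ U := by
      intro i
      have h1 := Finset.mem_filter.1 hn₀
      have h2 := (Finset.mem_filter.1 h1.1).2.2.2.2 i
      obtain ⟨S, hS⟩ := exists_big hwz h2
      refine ⟨S, ?_⟩
      rw [← h1.2, mem_Ubig]
      exact hS
    obtain ⟨s, hs⟩ := unlinked_comb U ha hcl hb
    have h3 := h₁ φ c s w Y hc (by omega) (by omega) hwY
    refine le_trans ?_ (h3.trans (by linarith))
    refine (Finset.abs_sum_le_sum_abs _ _).trans ?_
    refine Finset.sum_le_sum_of_subset_of_nonneg ?_ fun _ _ _ => abs_nonneg _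
    intro n hn
    have h4 := Finset.mem_filter.1 hn
    have h5 := Finset.mem_filter.1 h4.1
    rw [Finset.mem_filter]
    refine ⟨h5.1, h5.2.2.1, h5.2.2.2.1, fun v hv => ?_⟩
    by_contra hlt
    push Not at hlt
    have h6 : v ∈ U := by
      rw [← h4.2, mem_Ubig]
      exact hlt
    exact hv ((hs v).1 h6)
  · rw [Finset.not_nonempty_iff_eq_empty] at hemp
    rw [hemp, Finset.sum_empty, abs_zero]
    linarith

theorem theoremM (ι : Type) [Fintype ι] [DecidableEq ι] : ∃ (A : ℕ) (C c : ℝ), 0 < C ∧ 0 < c ∧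
    ∀ (φ : ι → ℕ → Finset ι → Prop) (z Y : ℕ), A ≤ z → z ^ A ≤ Y →
    ((Adm φ z Y).ncard : ℝ) ≤
      C * (Y / Real.log Y) * (1 + Real.log z) ^ A *
        Real.exp (∑ p ∈ PL Y, (∑ i, alph φ i p) / p) +
      C * Y * (1 + Real.log Y) ^ A * (z : ℝ) ^ (-c) := by
  classical
  obtain ⟨C₁, hC₁, h₁⟩ := unlinked_bound ι
  obtain ⟨C₂, hC₂, h₂⟩ := linked_bound
  set Q : ℕ := Fintype.card (Finset ι) with hQdef
  set M : ℕ := Fintype.card (ι × Finset ι) with hMdef
  have hQ1 : 1 ≤ Q := Fintype.card_pos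
  have hQ1' : (1 : ℝ) ≤ Q := by exact_mod_cast hQ1
  set A : ℕ := 3 ^ Q + 2 * Fintype.card ι + M + 10 with hA
  have h3Q : 1 ≤ 3 ^ Q := Nat.one_le_pow _ _ (by norm_num)
  set Nn : ℝ := (Fintype.card (Finset (ι × Finset ι)) : ℝ) with hNn
  have hNn1 : (1 : ℝ) ≤ Nn := by
    rw [hNn]
    exact_mod_cast (Fintype.card_pos : 0 < Fintype.card (Finset (ι × Finset ι)))
  refine ⟨A, Nn * (C₁ + 2 * C₂), 1 / (64 * (Q : ℝ)), by positivity, by positivity, ?_⟩
  intro φ z Y hAz hzY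
  obtain ⟨c, hc⟩ := exists_four φ
  have hz3 : 3 ^ Q ≤ z := by omega
  obtain ⟨w, hw3, hwz, hzw⟩ := exists_root Q z hQ1 hz3
  have hz10 : 10 ≤ z := by omega
  have hYz : z ≤ Y := by
    calc z = z ^ 1 := (pow_one z).symm
      _ ≤ z ^ A := Nat.pow_le_pow_right (by omega) (by omega)
      _ ≤ Y := hzY
  have hwY : w ^ (2 * M) ≤ Y := by
    have hM : M = Fintype.card ι * Q := by
      rw [hMdef, hQdef, Fintype.card_prod]
    calc w ^ (2 * M) = (w ^ Q) ^ (2 * Fintype.card ι) := by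
          rw [← pow_mul, hM]
          congr 1
          ring
      _ ≤ z ^ (2 * Fintype.card ι) := Nat.pow_le_pow_left hwz _
      _ ≤ z ^ A := Nat.pow_le_pow_right (by omega) (by omega)
      _ ≤ Y := hzY
  have hYr : (10 : ℝ) ≤ Y := by exact_mod_cast hz10.trans hYz
  have hzr : (10 : ℝ) ≤ z := by exact_mod_cast hz10
  have hwr : (3 : ℝ) ≤ w := by exact_mod_cast hw3
  have hlogY : 0 < Real.log Y := Real.log_pos (by linarith)
  have hlogz : 0 < Real.log z := Real.log_pos (by linarith)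
  have hlogw : 0 < Real.log w := Real.log_pos (by linarith)
  have hwz' : (w : ℝ) ≤ z := by
    have : w ≤ z := by
      calc w = w ^ 1 := (pow_one w).symm
        _ ≤ w ^ Q := Nat.pow_le_pow_right (by omega) hQ1
        _ ≤ z := hwz
    exact_mod_cast this
  set Ex : ℝ := Real.exp (∑ p ∈ PL Y, (∑ i, alph φ i p) / p) with hEx
  have hEx0 : 0 < Ex := Real.exp_pos _
  set T₁ : ℝ := C₁ * (Y / Real.log Y) * (1 + Real.log w) ^ M * Ex with hT1
  set T₂ : ℝ := C₂ * Y * (1 + Real.log Y) ^ (10 + M) * (w : ℝ) ^ (-(1 / 64) : ℝ) with hT2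
  -- the sum
  have hcount : ((Adm φ z Y).ncard : ℝ) ≤ Nn * (T₁ + T₂) := by
    have h3 := count_eq φ c hc z Y
    rw [h3]
    have h4 : ∑ n ∈ (Fintype.piFinset (fun _ : ι × Finset ι => Icc 1 Y)).filter
        (fun n => Odd (∏ v, n v) ∧ Squarefree (∏ v, n v) ∧ ∏ v, n v ≤ Y ∧ ∀ i, z < cls n i),
        PhiV c n = ∑ n ∈ SetS ι z Y, PhiV c n := by
      unfold SetS
      refine Finset.sum_congr ?_ fun _ _ => rfl
      ext n
      simp only [Finset.mem_filter]
    rw [h4, ← Finset.sum_fiberwise (SetS ι z Y) (Ubig w)]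
    refine (le_abs_self _).trans ((Finset.abs_sum_le_sum_abs _ _).trans ?_)
    calc ∑ U : Finset (ι × Finset ι), |∑ n ∈ (SetS ι z Y).filter (fun n => Ubig w n = U), PhiV c n|
        ≤ ∑ _U : Finset (ι × Finset ι), (T₁ + T₂) := by
          refine Finset.sum_le_sum fun U _ => ?_
          exact fiber_bound ι hC₁ hC₂ h₁ h₂ hc hw3 hwz (by omega) hwY U
      _ = Nn * (T₁ + T₂) := by
          rw [Finset.sum_const, Finset.card_univ, nsmul_eq_mul]
  -- the bounds
  have hb1 : T₁ ≤ C₁ * (Y / Real.log Y) * (1 + Real.log z) ^ A * Ex := by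
    rw [hT1]
    refine mul_le_mul_of_nonneg_right (mul_le_mul_of_nonneg_left ?_ (by positivity)) hEx0.le
    calc (1 + Real.log w) ^ M ≤ (1 + Real.log z) ^ M :=
          pow_le_pow_left₀ (by positivity) (by linarith [Real.log_le_log (by linarith) hwz']) M
      _ ≤ (1 + Real.log z) ^ A := pow_le_pow_right₀ (by linarith) (by omega)
  have hb2 : T₂ ≤ 2 * C₂ * Y * (1 + Real.log Y) ^ A *
      (z : ℝ) ^ (-(1 / (64 * (Q : ℝ))) : ℝ) := by
    have h5 := root_rpow hQ1 hw3 hzw (by omega)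
    have h6 : (1 + Real.log Y) ^ (10 + M) ≤ (1 + Real.log Y) ^ A :=
      pow_le_pow_right₀ (by linarith) (by omega)
    calc T₂ ≤ C₂ * Y * (1 + Real.log Y) ^ A *
          (2 * (z : ℝ) ^ (-(1 / (64 * (Q : ℝ))) : ℝ)) := by
          rw [hT2]
          exact mul_le_mul (mul_le_mul_of_nonneg_left h6 (by positivity)) h5 (by positivity)
            (by positivity)
      _ = _ := by ring
  have hZ : 0 ≤ (z : ℝ) ^ (-(1 / (64 * (Q : ℝ))) : ℝ) := by positivity
  have hP1 : 0 ≤ (Y / Real.log Y) * (1 + Real.log z) ^ A * Ex := by positivity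
  have hP2 : 0 ≤ Y * (1 + Real.log Y) ^ A * (z : ℝ) ^ (-(1 / (64 * (Q : ℝ))) : ℝ) := by positivity
  have hNC1 : 0 ≤ Nn * C₁ := by positivity
  have hNC2 : 0 ≤ Nn * (2 * C₂) := by positivity
  calc ((Adm φ z Y).ncard : ℝ) ≤ Nn * (T₁ + T₂) := hcount
    _ ≤ Nn * (C₁ * (Y / Real.log Y) * (1 + Real.log z) ^ A * Ex +
        2 * C₂ * Y * (1 + Real.log Y) ^ A * (z : ℝ) ^ (-(1 / (64 * (Q : ℝ))) : ℝ)) :=
        mul_le_mul_of_nonneg_left (add_le_add hb1 hb2) (by positivity)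
    _ = (Nn * C₁) * ((Y / Real.log Y) * (1 + Real.log z) ^ A * Ex) +
        (Nn * (2 * C₂)) * (Y * (1 + Real.log Y) ^ A *
          (z : ℝ) ^ (-(1 / (64 * (Q : ℝ))) : ℝ)) := by ring
    _ ≤ (Nn * (C₁ + 2 * C₂)) * ((Y / Real.log Y) * (1 + Real.log z) ^ A * Ex) +
        (Nn * (C₁ + 2 * C₂)) * (Y * (1 + Real.log Y) ^ A *
          (z : ℝ) ^ (-(1 / (64 * (Q : ℝ))) : ℝ)) := by
        refine add_le_add (mul_le_mul_of_nonneg_right ?_ hP1)
          (mul_le_mul_of_nonneg_right ?_ hP2) <;> nlinarith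
    _ = _ := by ring

end Pool.Agent.Helper38.TW
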