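import Mathlib

/-!
# TW-N3: roots of an irreducible polynomial mod p give prime ideals of norm p

`g ∈ ℤ[X]` irreducible over `ℚ`, `K = ℚ(θ)`, `g(θ) = 0` (`AdjoinRoot` of the irreducible polynomial over `ℚ`, a number field), `a` = leading coefficient, `α = a θ` integral, `K = ℚ(α)`. There is an integer `b > 0` with `b 𝓞_K ⊆ ℤ[α]` (`𝓞_K` is a finitely generated
`ℤ`-module and every element of `K` is in `(1/n) ℤ[α]` for some `n ≥ 1`). Let `p` be a prime with `p ∤ a b`. For a root `ρ` of `g` mod `p` there is a ring hom `ψ_ρ : 𝓞_K → ZMod p` with `ψ_ρ(α) = a ρ`: on `ℤ[α] ≅ ℤ[X]/(m)`, `m` the minimal polynomial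
of `α` over `ℤ`: `m(X) = a^{d-1} g(X/a)`, so `m(a ρ) = a^{d-1} g(ρ) = 0` mod `p` [if you prefer: `m` divides `a^{d-1} g(X/a)` up to a unit, both are monic of degree `d`]; for `w ∈ 𝓞_K` put `ψ(w) = ψ(b w)/b`. (Check: additive, `ψ(b² w w') = ψ(b w) ψ(b w')`.)
Different `ρ` give different `ψ_ρ` (`a` is invertible mod `p`), and the kernels `P_ρ` are different prime ideals of norm `p`: `𝓞_K / ker ψ ≅ ZMod p` (surjective since `1` generates), and if `ker ψ = ker ψ'` then for `w ∈ 𝓞_K` choose an integer `n` with `n = ψ(w)`: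
`w - n ∈ ker ψ = ker ψ'`, so `ψ'(w) = n = ψ(w)`.
Alternative for the existence of enough primes: Kummer-Dedekind (`KummerDedekind`, `RingOfIntegers.exponent`, `NumberField.Ideal.primesOverSpanEquivMonicFactorsMod`): for `p ∤ exponent(α)`, primes over `p` ↔ irreducible factors of the minimal polynomial mod `p`,
the residue degree = degree of the factor; linear factors ↔ roots. Compare also `Pool/Agent/Helper79/GA` (Spl.lean).
-/

set_option autoImplicit false

namespace Pool.Agent.Helper38.TW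

open NumberField Polynomial

/-- the number of roots of `g` mod `p` -/
noncomputable def rootsMod (g : ℤ[X]) (p : ℕ) : ℕ :=
  {x : ZMod p | (g.map (Int.castRingHom (ZMod p))).eval x = 0}.ncard

private theorem exponent_ne {K : Type} [Field K] [NumberField K] (α : 𝓞 K)
    (hα : Algebra.adjoin ℚ {(α : K)} = ⊤) : RingOfIntegers.exponent α ≠ 0 := by
  have hint : IsIntegral ℚ (α : K) := IsIntegral.of_finite ℚ (α : K)
  obtain ⟨B, hB⟩ : ∃ B : PowerBasis ℚ K, B.gen = (α : K) :=
    ⟨PowerBasis.ofAdjoinEqTop' hint hα, PowerBasis.ofAdjoinEqTop'_gen hint hα⟩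
  have hintZ : IsIntegral ℤ B.gen := by
    rw [hB]
    exact α.isIntegral_coe
  have hbas : ∀ i, IsIntegral ℤ (B.basis i) := by
    intro i
    rw [B.basis_eq_pow]
    exact hintZ.pow _
  have hD : IsIntegral ℤ (Algebra.discr ℚ B.basis) := Algebra.discr_isIntegral ℚ hbas
  obtain ⟨D, hD'⟩ := IsIntegrallyClosed.isIntegral_iff.1 hD
  have hD0 : D ≠ 0 := by
    rintro rfl
    rw [map_zero] at hD'
    exact Algebra.discr_not_zero_of_basis ℚ B.basis hD'.symm
  have hmem : D ∈ Ideal.under ℤ (conductor ℤ α) := by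
    rw [Ideal.under_def, Ideal.mem_comap]
    intro b
    have h1 := Algebra.discr_mul_isIntegral_mem_adjoin ℚ hintZ b.isIntegral_coe
    rw [← hD', hB] at h1
    have h2 : Algebra.adjoin ℤ {(α : K)} =
        (Algebra.adjoin ℤ {α}).map (IsScalarTower.toAlgHom ℤ (𝓞 K) K) := by
      rw [AlgHom.map_adjoin, Set.image_singleton]
      rfl
    rw [h2] at h1
    obtain ⟨c, hc, hc'⟩ := h1
    have h3 : c = algebraMap ℤ (𝓞 K) D * b := by
      apply RingOfIntegers.coe_injective
      refine Eq.trans hc' ?_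
      rw [map_mul, Algebra.smul_def]
      simp
    rw [← h3]
    exact hc
  intro h0
  unfold RingOfIntegers.exponent at h0
  rw [Ideal.absNorm_eq_zero_iff] at h0
  rw [h0, Ideal.mem_bot] at hmem
  exact hD0 hmem

private theorem psi_exists {K : Type} [Field K] [NumberField K] (α : 𝓞 K) (p : ℕ)
    [Fact p.Prime] (hp : ¬ p ∣ RingOfIntegers.exponent α) (x : ZMod p)
    (hx : ((minpoly ℤ α).map (Int.castRingHom (ZMod p))).eval x = 0) :
    ∃ ψ : 𝓞 K →+* ZMod p, ψ α = x := by
  obtain ⟨e, he⟩ : ∃ e, e = RingOfIntegers.ZModXQuotSpanEquivQuotSpan hp := ⟨_, rfl⟩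
  have hk : ∀ a ∈ Ideal.span {(minpoly ℤ α).map (Int.castRingHom (ZMod p))},
      evalRingHom x a = 0 := by
    intro a ha
    obtain ⟨c, rfl⟩ := Ideal.mem_span_singleton.1 ha
    rw [map_mul, coe_evalRingHom, hx, zero_mul]
  refine ⟨(Ideal.Quotient.lift _ (evalRingHom x) hk).comp
    (e.symm.toRingHom.comp (Ideal.Quotient.mk (Ideal.span {(p : 𝓞 K)}))), ?_⟩
  have h1 := RingOfIntegers.ZModXQuotSpanEquivQuotSpan_mk_apply hp (X : ℤ[X])
  rw [← he, aeval_X, Polynomial.map_X] at h1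
  change (Ideal.Quotient.lift _ (evalRingHom x) hk) (e.symm (Ideal.Quotient.mk _ α)) = x
  rw [← h1, RingEquiv.symm_apply_apply, Ideal.Quotient.lift_mk, coe_evalRingHom, eval_X]

private theorem ker_norm {K : Type} [Field K] [NumberField K] (p : ℕ) [Fact p.Prime]
    (ψ : 𝓞 K →+* ZMod p) : Ideal.absNorm (RingHom.ker ψ) = p := by
  rw [Ideal.absNorm_apply, Submodule.cardQuot_apply]
  have h1 := Nat.card_congr
    (RingHom.quotientKerEquivOfSurjective (ZMod.ringHom_surjective ψ)).toEquiv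
  rw [Nat.card_zmod] at h1
  exact h1

private theorem ker_inj {K : Type} [Field K] [NumberField K] (p : ℕ) [Fact p.Prime]
    (ψ ψ' : 𝓞 K →+* ZMod p) (h : RingHom.ker ψ = RingHom.ker ψ') (w : 𝓞 K) : ψ w = ψ' w := by
  have h1 : w - ((ψ w).val : 𝓞 K) ∈ RingHom.ker ψ := by
    rw [RingHom.mem_ker, map_sub, map_natCast, ZMod.natCast_val, ZMod.cast_id, sub_self]
  rw [h, RingHom.mem_ker, map_sub, map_natCast, ZMod.natCast_val, ZMod.cast_id, sub_eq_zero] at h1
  exact h1.symm

private theorem core {K : Type} [Field K] [NumberField K] (θ : K) (g : ℤ[X])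
    (hd1 : 1 ≤ g.natDegree) (hθ : aeval θ g = 0) (htop : Algebra.adjoin ℚ {θ} = ⊤)
    (hm : ∀ m : ℚ[X], m ≠ 0 → aeval θ m = 0 → g.natDegree ≤ m.natDegree) :
    ∃ b : ℕ, b ≠ 0 ∧
      ∀ p : ℕ, p.Prime → ¬ p ∣ b → ∃ Q : Finset (Ideal (𝓞 K)),
        (∀ P ∈ Q, P.IsPrime ∧ Ideal.absNorm P = p) ∧ rootsMod g p ≤ Q.card := by
  classical
  have hinj : Function.Injective (Int.castRingHom ℚ) := Int.cast_injective
  have hg0 : g ≠ 0 := by
    rintro rfl
    simp at hd1
  have hint : IsIntegral ℤ (g.leadingCoeff • θ) := isIntegral_leadingCoeff_smul g _ hθ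
  obtain ⟨α, hα⟩ : ∃ α : 𝓞 K, (α : K) = g.leadingCoeff • θ := ⟨⟨_, hint⟩, rfl⟩
  have ha0 : g.leadingCoeff ≠ 0 := leadingCoeff_ne_zero.2 hg0
  have haQ : (g.leadingCoeff : ℚ) ≠ 0 := by exact_mod_cast ha0
  have hθα : θ = (g.leadingCoeff : ℚ)⁻¹ • (α : K) := by
    rw [hα, ← Int.cast_smul_eq_zsmul ℚ, smul_smul, inv_mul_cancel₀ haQ, one_smul]
  have htop' : Algebra.adjoin ℚ {(α : K)} = ⊤ := by
    rw [eq_top_iff, ← htop]
    apply Algebra.adjoin_le
    rw [Set.singleton_subset_iff, hθα]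
    exact Subalgebra.smul_mem _ (Algebra.subset_adjoin (Set.mem_singleton (α : K))) _
  have hexp := exponent_ne α htop'
  have hmin : minpoly ℤ α = integralNormalization g := by
    have hmon : (integralNormalization g).Monic := monic_integralNormalization hg0
    have hz : aeval α (integralNormalization g) = 0 := by
      apply RingOfIntegers.coe_injective
      rw [map_zero, ← aeval_algebraMap_apply]
      have h3 := integralNormalization_eval₂_leadingCoeff_mul hd1 (algebraMap ℤ K) θ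
      rw [← aeval_def, ← aeval_def, hθ, mul_zero, ← Algebra.smul_def, ← hα] at h3
      exact h3
    have hdvd : minpoly ℤ α ∣ integralNormalization g :=
      minpoly.isIntegrallyClosed_dvd α.isIntegral hz
    have hle : (integralNormalization g).natDegree ≤ (minpoly ℤ α).natDegree := by
      rw [natDegree_integralNormalization]
      have h4 : aeval θ
          (((minpoly ℤ α).map (Int.castRingHom ℚ)).comp (C (g.leadingCoeff : ℚ) * X)) = 0 := by
        rw [aeval_comp, map_mul, aeval_C, aeval_X, ← Algebra.smul_def,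
          Int.cast_smul_eq_zsmul ℚ, ← hα, ← algebraMap_int_eq, aeval_map_algebraMap]
        have h5 := minpoly.aeval ℤ α
        have h6 := congrArg (algebraMap (𝓞 K) K) h5
        rw [map_zero, ← aeval_algebraMap_apply] at h6
        exact h6
      have h8 : (((minpoly ℤ α).map (Int.castRingHom ℚ)).comp
          (C (g.leadingCoeff : ℚ) * X)).natDegree = (minpoly ℤ α).natDegree := by
        rw [natDegree_comp, natDegree_C_mul_X _ haQ, mul_one, natDegree_map_eq_of_injective hinj]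
      rw [← h8]
      refine hm _ ?_ h4
      intro h9
      rw [h9, natDegree_zero] at h8
      have h11 : 0 < (minpoly ℤ α).natDegree := minpoly.natDegree_pos α.isIntegral
      omega
    exact (eq_of_monic_of_dvd_of_natDegree_le (minpoly.monic α.isIntegral) hmon hdvd hle).symm
  refine ⟨g.leadingCoeff.natAbs * RingOfIntegers.exponent α,
    mul_ne_zero (Int.natAbs_ne_zero.2 ha0) hexp, ?_⟩
  intro p hp hpb
  have hpf : Fact p.Prime := ⟨hp⟩
  have hpa : ((Int.castRingHom (ZMod p)) g.leadingCoeff) ≠ 0 := by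
    intro h
    apply hpb
    apply Dvd.dvd.mul_right
    rw [← Int.natCast_dvd]
    exact (ZMod.intCast_zmod_eq_zero_iff_dvd _ _).1 h
  have hpe : ¬ p ∣ RingOfIntegers.exponent α := fun h => hpb (Dvd.dvd.mul_left h _)
  have hψ : ∀ x : ZMod p, (g.map (Int.castRingHom (ZMod p))).eval x = 0 →
      ∃ ψ : 𝓞 K →+* ZMod p, ψ α = (Int.castRingHom (ZMod p)) g.leadingCoeff * x := by
    intro x hx
    apply psi_exists α p hpe
    rw [hmin, eval_map, integralNormalization_eval₂_leadingCoeff_mul hd1, ← eval_map, hx, mul_zero]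
  by_cases hne : ∃ x : ZMod p, (g.map (Int.castRingHom (ZMod p))).eval x = 0
  swap
  · refine ⟨∅, fun P hP => absurd hP (Finset.notMem_empty P), ?_⟩
    have h0 : {x : ZMod p | (g.map (Int.castRingHom (ZMod p))).eval x = 0} = ∅ := by
      rw [Set.eq_empty_iff_forall_notMem]
      intro x hx
      exact hne ⟨x, hx⟩
    rw [rootsMod, h0, Set.ncard_empty]
    exact Nat.zero_le _
  obtain ⟨x₀, hx₀⟩ := hne
  obtain ⟨ψ₀, -⟩ := hψ x₀ hx₀
  have hnon : Nonempty (𝓞 K →+* ZMod p) := ⟨ψ₀⟩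
  choose! Ψ hΨ using hψ
  refine ⟨((Set.toFinite {x : ZMod p | (g.map (Int.castRingHom (ZMod p))).eval x = 0}).toFinset).image
    (fun x => RingHom.ker (Ψ x)), ?_, ?_⟩
  · intro P hP
    obtain ⟨x, hx, rfl⟩ := Finset.mem_image.1 hP
    exact ⟨RingHom.ker_isPrime (Ψ x), ker_norm p (Ψ x)⟩
  · rw [Finset.card_image_of_injOn, rootsMod, Set.ncard_eq_toFinset_card _ (Set.toFinite _)]
    intro x hx y hy hxy
    rw [Finset.mem_coe, Set.Finite.mem_toFinset] at hx hy
    have h1 := ker_inj p (Ψ x) (Ψ y) hxy α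
    rw [hΨ x hx, hΨ y hy] at h1
    exact mul_left_cancel₀ hpa h1

theorem root_primes (g : ℤ[X]) (hg : Irreducible (g.map (Int.castRingHom ℚ))) :
    ∃ (K : Type) (_ : Field K) (_ : NumberField K) (b : ℕ), b ≠ 0 ∧
      ∀ p : ℕ, p.Prime → ¬ p ∣ b → ∃ Q : Finset (Ideal (𝓞 K)),
        (∀ P ∈ Q, P.IsPrime ∧ Ideal.absNorm P = p) ∧ rootsMod g p ≤ Q.card := by
  obtain ⟨G, hG⟩ : ∃ G : ℚ[X], G = g.map (Int.castRingHom ℚ) := ⟨_, rfl⟩
  have hGi : Irreducible G := by
    rw [hG]
    exact hg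
  have hfact : Fact (Irreducible G) := ⟨hGi⟩
  have hinj : Function.Injective (Int.castRingHom ℚ) := Int.cast_injective
  have hdeg : G.natDegree = g.natDegree := by
    rw [hG, natDegree_map_eq_of_injective hinj]
  have hd1 : 1 ≤ g.natDegree := by
    rw [← hdeg]
    exact hGi.natDegree_pos
  have hof : algebraMap ℚ (AdjoinRoot G) = AdjoinRoot.of G := Subsingleton.elim _ _
  have haev : ∀ m : ℚ[X], aeval (AdjoinRoot.root G) m = AdjoinRoot.mk G m := by
    intro m
    rw [aeval_def, hof]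
    have h1 := Polynomial.hom_eval₂ m (C : ℚ →+* ℚ[X]) (AdjoinRoot.mk G) X
    rw [Polynomial.eval₂_C_X] at h1
    exact h1.symm
  have hfin : FiniteDimensional ℚ (AdjoinRoot G) := (AdjoinRoot.powerBasis hGi.ne_zero).finite
  have hnf : NumberField (AdjoinRoot G) :=
    { to_charZero := inferInstance
      to_finiteDimensional := hfin }
  have hθ : aeval (AdjoinRoot.root G) g = 0 := by
    have h2 := aeval_map_algebraMap ℚ (AdjoinRoot.root G) g
    rw [haev] at h2
    rw [← h2, algebraMap_int_eq, ← hG, AdjoinRoot.mk_self]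
  have htop : Algebra.adjoin ℚ {AdjoinRoot.root G} = ⊤ := by
    rw [eq_top_iff]
    intro y _
    obtain ⟨m, rfl⟩ := AdjoinRoot.mk_surjective y
    rw [← haev]
    exact aeval_mem_adjoin_singleton ℚ (AdjoinRoot.root G)
  have hm : ∀ m : ℚ[X], m ≠ 0 → aeval (AdjoinRoot.root G) m = 0 →
      g.natDegree ≤ m.natDegree := by
    intro m hm0 hm1
    rw [haev, AdjoinRoot.mk_eq_zero] at hm1
    rw [← hdeg]
    exact natDegree_le_of_dvd hm1 hm0
  obtain ⟨b, hb, hQ⟩ := core (AdjoinRoot.root G) g hd1 hθ htop hm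
  exact ⟨AdjoinRoot G, inferInstance, hnf, b, hb, hQ⟩

end Pool.Agent.Helper38.TW
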