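import Mathlib
import Pool.Agent.Helper38.TW.FDefs
import Pool.Agent.Helper38.TW.RootHom
import Pool.Agent.Helper38.TW.Fourier

/-!
# TW-F3: bounds for the local densities

`m = card I`, `s = 2^{m-1}`, `alph = #{T ⊆ I \ {i} : condI .. T} / s`. Let `p` be a prime.
(1) `alph_le_roots`: `T` is determined by a root `x mod p` of `g_i`: `k ∈ T ↔ (τ_k g_k(x)/p) = -1` for `k ∈ I \ {i}` (`i ∉ T`), and this depends only on `x mod p`. So `#T's ≤ rootsMod (g_i) p`.
(2) `alph_le_split`: if for every `x` with `p ∣ g_i(x)` and every `k ≠ i` the symbol `(τ_k g_k(x)/p)` is not `-1`, then `T = ∅` is the only possibility: `alph ≤ 1/s`.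
(3) `alph_le_char`: `k₀ ∉ I` and `κ` such that `(g_{k₀}(x)/p) = (κ/p)` for all `x` with `p ∣ g_i(x)`, and the pattern in `I` is also determined: if `g_i` is linear there is exactly one root mod `p` (`p ∤ B`, the leading coefficient divides `B`), so at most one `T`: `alph ≤ 1/s`; and if
`condI` holds for some `T`, then `k₀ ∈ {k ∉ I : (E_k/p) = -1} ↔ (τ_{k₀} g_{k₀}(x)/p) = -1`, both symbols are `≠ 0`, so they are equal and `(τ_{k₀} κ E_{k₀} / p) = 1`. So `alph = 0` unless this holds.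
-/

set_option autoImplicit false

namespace Pool.Agent.Helper38.TW

open Finset Polynomial

variable {f : ℤ[X]} {ι : Type} [Fintype ι] [DecidableEq ι]

omit [Fintype ι] [DecidableEq ι] in
private lemma jac_congr (t : ℤ) (g : ℤ[X]) (p : ℕ) (x y : ℤ)
    (h : (x : ZMod p) = (y : ZMod p)) :
    jacobiSym (t * g.eval x) p = jacobiSym (t * g.eval y) p := by
  apply jacobiSym.mod_left'
  have h1 : x ≡ y [ZMOD p] := (ZMod.intCast_eq_intCast_iff x y p).1 h
  have h2 : (p : ℤ) ∣ y - x := h1.dvd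
  have h3 : (p : ℤ) ∣ g.eval y - g.eval x := h2.trans (g.sub_dvd_eval_sub y x)
  have h4 : g.eval x ≡ g.eval y [ZMOD p] := (Int.modEq_iff_dvd).2 h3
  exact (h4.mul_left t)

open Classical in
/-- the pattern of a root -/
private noncomputable def patOf (dt : FData f ι) (τ : ι → ℤ) (I : Finset ι)
    (i : {i // i ∈ I}) (p : ℕ) (x : ℤ) : Finset {i // i ∈ I} :=
  univ.filter (fun k => k ≠ i ∧ jacobiSym (τ k.1 * (dt.g k.1).eval x) p = -1)

private lemma condI_spec (dt : FData f ι) (τ : ι → ℤ) (I : Finset ι) (E : ι → ℕ)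
    (i : {i // i ∈ I}) (p : ℕ) (T : Finset {i // i ∈ I}) (hT : T ⊆ univ.erase i)
    (h : condI dt τ I E i p T) :
    ¬ p ∣ dt.B ∧ ∃ x : ℤ, (p : ℤ) ∣ (dt.g i.1).eval x ∧ T = patOf dt τ I i p x ∧
      ∀ k, k ∉ I → jacobiSym (τ k * (dt.g k).eval x) p ≠ 0 ∧ jacobiSym (E k) p ≠ 0 ∧
        (jacobiSym (τ k * (dt.g k).eval x) p = -1 ↔ jacobiSym (E k) p = -1) := by
  obtain ⟨hE, hB, x, hx, hk⟩ := h
  refine ⟨hB, x, hx, ?_, ?_⟩
  · ext k
    simp only [patOf, mem_filter, mem_univ, true_and]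
    constructor
    · intro hkT
      have hki : k ≠ i := (mem_erase.1 (hT hkT)).1
      refine ⟨hki, ?_⟩
      refine ((hk k.1 (fun h => hki (Subtype.ext h))).2).2 ?_
      refine mem_union_left _ ?_
      rw [mem_map]
      exact ⟨k, hkT, rfl⟩
    · rintro ⟨hki, hj⟩
      have h1 := ((hk k.1 (fun h => hki (Subtype.ext h))).2).1 hj
      rw [mem_union] at h1
      rcases h1 with h1 | h1
      · rw [mem_map] at h1
        obtain ⟨k', hk', he⟩ := h1
        have : k' = k := Subtype.ext he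
        exact this ▸ hk'
      · exact absurd k.2 (mem_filter.1 h1).2.1
  · intro k hkI
    have hki : k ≠ i.1 := fun h => hkI (h ▸ i.2)
    refine ⟨(hk k hki).1, hE k hkI, (hk k hki).2.trans ?_⟩
    rw [mem_union]
    constructor
    · rintro (h1 | h1)
      · rw [mem_map] at h1
        obtain ⟨k', hk', he⟩ := h1
        exact absurd (he ▸ k'.2) hkI
      · exact (mem_filter.1 h1).2.2
    · intro h1
      exact Or.inr (mem_filter.2 ⟨mem_univ _, hkI, h1⟩)

theorem alph_le_roots (dt : FData f ι) (τ : ι → ℤ) (I : Finset ι) (E : ι → ℕ)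
    (i : {i // i ∈ I}) (p : ℕ) (hp : p.Prime) :
    alph (condI dt τ I E) i p ≤ (rootsMod (dt.g i.1) p : ℝ) / 2 ^ (I.card - 1) := by
  classical
  haveI : Fact p.Prime := ⟨hp⟩
  unfold alph
  rw [Fintype.card_coe]
  refine div_le_div_of_nonneg_right ?_ (by positivity)
  norm_cast
  have key : ((((univ.erase i).powerset.filter (fun T => condI dt τ I E i p T)) :
      Finset (Finset {i // i ∈ I})) : Set (Finset {i // i ∈ I})) ⊆
      (fun r : ZMod p => patOf dt τ I i p (r.val : ℤ)) ''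
        {x : ZMod p | ((dt.g i.1).map (Int.castRingHom (ZMod p))).eval x = 0} := by
    intro T hT
    rw [mem_coe, mem_filter, mem_powerset] at hT
    obtain ⟨hB, x, hx, hTx, -⟩ := condI_spec dt τ I E i p T hT.1 hT.2
    refine ⟨(x : ZMod p), ?_, ?_⟩
    · show ((dt.g i.1).map (Int.castRingHom (ZMod p))).eval (x : ZMod p) = 0
      rw [Polynomial.eval_map, show ((x : ZMod p)) = Int.castRingHom (ZMod p) x from rfl,
        Polynomial.eval₂_at_apply]
      exact (ZMod.intCast_zmod_eq_zero_iff_dvd _ p).2 hx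
    · rw [hTx]
      ext k
      simp only [patOf, mem_filter, mem_univ, true_and]
      rw [jac_congr (τ k.1) (dt.g k.1) p (((x : ZMod p).val : ℕ) : ℤ) x (by simp)]
  have h1 := Set.ncard_le_ncard key (Set.toFinite _)
  rw [Set.ncard_coe_finset] at h1
  refine le_trans (le_of_eq ?_) (h1.trans (Set.ncard_image_le (Set.toFinite _)))
  congr!

private lemma alph_le_one_div (dt : FData f ι) (τ : ι → ℤ) (I : Finset ι) (E : ι → ℕ)
    (i : {i // i ∈ I}) (p : ℕ)
    (h : ∀ T T' : Finset {i // i ∈ I}, T ⊆ univ.erase i → T' ⊆ univ.erase i →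
      condI dt τ I E i p T → condI dt τ I E i p T' → T = T') :
    alph (condI dt τ I E) i p ≤ 1 / 2 ^ (I.card - 1) := by
  classical
  unfold alph
  rw [Fintype.card_coe]
  refine div_le_div_of_nonneg_right ?_ (by positivity)
  have : (((univ.erase i).powerset.filter (fun T => condI dt τ I E i p T))).card ≤ 1 := by
    rw [card_le_one]
    intro T hT T' hT'
    rw [mem_filter, mem_powerset] at hT hT'
    exact h T T' hT.1 hT'.1 hT.2 hT'.2
  refine le_trans (le_of_eq ?_) (Nat.cast_le_one.2 this)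
  congr!

theorem alph_le_split (dt : FData f ι) (τ : ι → ℤ) (I : Finset ι) (E : ι → ℕ)
    (i : {i // i ∈ I}) (p : ℕ) (hp : p.Prime)
    (h : ∀ x : ℤ, (p : ℤ) ∣ (dt.g i.1).eval x → ∀ k, k ≠ i.1 →
      jacobiSym (τ k * (dt.g k).eval x) p ≠ -1) :
    alph (condI dt τ I E) i p ≤ 1 / 2 ^ (I.card - 1) := by
  classical
  apply alph_le_one_div
  have h0 : ∀ T : Finset {i // i ∈ I}, T ⊆ univ.erase i → condI dt τ I E i p T → T = ∅ := by
    intro T hT hc
    obtain ⟨-, x, hx, hTx, -⟩ := condI_spec dt τ I E i p T hT hc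
    rw [hTx]
    unfold patOf
    rw [filter_eq_empty_iff]
    rintro k - ⟨hki, hj⟩
    exact h x hx k.1 (fun h => hki (Subtype.ext h)) hj
  intro T T' hT hT' hc hc'
  rw [h0 T hT hc, h0 T' hT' hc']

theorem alph_le_char (dt : FData f ι) (τ : ι → ℤ) (I : Finset ι) (E : ι → ℕ)
    (i : {i // i ∈ I}) (p : ℕ) (hp : p.Prime) (hlin : (dt.g i.1).natDegree = 1) (k₀ : ι)
    (hk₀ : k₀ ∉ I) (κ : ℤ)
    (hκ : ¬ p ∣ dt.B → ∀ x : ℤ, (p : ℤ) ∣ (dt.g i.1).eval x →
      jacobiSym ((dt.g k₀).eval x) p = jacobiSym κ p) :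
    alph (condI dt τ I E) i p ≤
      (if jacobiSym (τ k₀ * κ * E k₀) p = 1 then 1 else 0) / 2 ^ (I.card - 1) := by
  classical
  haveI : Fact p.Prime := ⟨hp⟩
  by_cases hex : ∃ T : Finset {i // i ∈ I}, T ⊆ univ.erase i ∧ condI dt τ I E i p T
  · obtain ⟨T, hT, hc⟩ := hex
    obtain ⟨hB, x, hx, hTx, hout⟩ := condI_spec dt τ I E i p T hT hc
    have h1 : jacobiSym (τ k₀ * κ * E k₀) p = 1 := by
      obtain ⟨ha, hb, hab⟩ := hout k₀ hk₀
      have h2 : jacobiSym (τ k₀ * κ * E k₀) p =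
          jacobiSym (τ k₀ * (dt.g k₀).eval x) p * jacobiSym (E k₀) p := by
        rw [jacobiSym.mul_left, jacobiSym.mul_left, jacobiSym.mul_left, hκ hB x hx]
      rw [h2]
      rcases jacobiSym.trichotomy (τ k₀ * (dt.g k₀).eval x) p with h3 | h3 | h3
      · exact absurd h3 ha
      · rcases jacobiSym.trichotomy (E k₀ : ℤ) p with h4 | h4 | h4
        · exact absurd h4 hb
        · rw [h3, h4]; norm_num
        · have := hab.2 h4
          rw [h3] at this
          norm_num at this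
      · rw [h3, hab.1 h3]; norm_num
    rw [if_pos h1]
    apply alph_le_one_div
    intro T T' hT hT' hc hc'
    obtain ⟨-, x, hx, hTx, -⟩ := condI_spec dt τ I E i p T hT hc
    obtain ⟨-, y, hy, hTy, -⟩ := condI_spec dt τ I E i p T' hT' hc'
    have hlead : ¬ (p : ℤ) ∣ (dt.g i.1).leadingCoeff := fun h =>
      hB (Int.natCast_dvd_natCast.1 (h.trans (dt.lead_dvd i.1)))
    have hxy : (x : ZMod p) = (y : ZMod p) := by
      have hg : (dt.g i.1) = C ((dt.g i.1).coeff 1) * X + C ((dt.g i.1).coeff 0) :=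
        eq_X_add_C_of_natDegree_le_one hlin.le
      have hlc : (dt.g i.1).leadingCoeff = (dt.g i.1).coeff 1 := by
        rw [leadingCoeff, hlin]
      have e : ∀ z : ℤ, (dt.g i.1).eval z = (dt.g i.1).coeff 1 * z + (dt.g i.1).coeff 0 := by
        intro z
        conv_lhs => rw [hg]
        simp
      have h5 : (p : ℤ) ∣ (dt.g i.1).coeff 1 * (x - y) := by
        have := dvd_sub hx hy
        rw [e x, e y] at this
        have h6 : (dt.g i.1).coeff 1 * (x - y) = (dt.g i.1).coeff 1 * x + (dt.g i.1).coeff 0 -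
          ((dt.g i.1).coeff 1 * y + (dt.g i.1).coeff 0) := by ring
        rw [h6]
        exact this
      rcases (Nat.prime_iff_prime_int.1 hp).dvd_or_dvd h5 with h6 | h6
      · exact absurd (hlc ▸ h6) hlead
      · have := (ZMod.intCast_zmod_eq_zero_iff_dvd (x - y) p).2 h6
        push_cast at this
        exact sub_eq_zero.1 this
    rw [hTx, hTy]
    ext k
    simp only [patOf, mem_filter, mem_univ, true_and]
    rw [jac_congr (τ k.1) (dt.g k.1) p x y hxy]
  · have h0 : alph (condI dt τ I E) i p = 0 := by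
      unfold alph
      rw [div_eq_zero_iff]
      left
      rw [Nat.cast_eq_zero, card_eq_zero, filter_eq_empty_iff]
      intro T hT hc
      exact hex ⟨T, mem_powerset.1 hT, hc⟩
    rw [h0]
    split_ifs <;> positivity

end Pool.Agent.Helper38.TW
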