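import Mathlib
import Pool.Agent.Helper79.GA.IdC
import Pool.Agent.Helper10.P5.Mert

/-!
# TW-N2: prime ideals and the number of ideals

`A(x) = idc F x` (`Pool.Agent.Helper79.GA.IdC`), `A(x)/x → κ > 0`.
(1) `idc_eps`: for `ε ∈ (0,1)`: `(1-ε) κ y ≤ A(y) ≤ (1+ε) κ y` for `y ≥ y₀`. Copy of `mer_idc_bounds` in `Pool/Agent/Helper79/GA/Mer.lean` (there it is private with `ε = 1/10`).
(2) `idc_le`: `A(y) ≤ C y` for all `y ≥ 1` (for `y < y₀`: `A` is monotone, `A(y) ≤ A(y₀) ≤ A(y₀) y`).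
(3) `primes_upper`: Let `Q p` be, for each prime `p`, a finite set of prime ideals of norm `p`. Then for every `ε > 0`: `∑_{p ≤ x} #(Q p) log p/p ≤ (1+ε) log x + C` for all `x ≥ 1`.
    Proof: `ideal_count` for `⋃_{p ≤ x/y₀} Q p` gives (with `ε'` small, `(1+ε')/(1-ε') ≤ 1+ε`) `∑_{p ≤ x/y₀} #(Q p) log p (1-ε') κ x/p ≤ (1+ε') κ x log x`, so the sum over `p ≤ t` is `≤ (1+ε) log (y₀ t)+..` for all `t` (put `x = y₀ t` as a real number).
    (The sets `Q p` for different `p` are disjoint because the norms are different.)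
-/

set_option autoImplicit false

namespace Pool.Agent.Helper38.TW

open Finset Pool.Agent.Helper10.P5 Pool.Agent.Helper79.GA NumberField

theorem idc_eps (F : Type) [Field F] [NumberField F] : ∃ κ : ℝ, 0 < κ ∧ ∀ ε : ℝ, 0 < ε → ε < 1 →
    ∃ y₀ : ℝ, 1 ≤ y₀ ∧ ∀ y : ℝ, y₀ ≤ y →
      (1 - ε) * κ * y ≤ idc F y ∧ (idc F y : ℝ) ≤ (1 + ε) * κ * y := by
  have h1 := NumberField.Ideal.tendsto_norm_le_div_atTop₀ F
  rw [← NumberField.dedekindZeta_residue_def] at h1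
  have hκ := NumberField.dedekindZeta_residue_pos F
  set κ := NumberField.dedekindZeta_residue F with hκdef
  refine ⟨κ, hκ, fun ε hε _ => ?_⟩
  have hεκ : 0 < ε * κ := mul_pos hε hκ
  have h2 : ∀ᶠ s : ℝ in Filter.atTop, (1 - ε) * κ < (idc F s : ℝ) / s := by
    refine h1.eventually (lt_mem_nhds ?_)
    linarith
  have h3 : ∀ᶠ s : ℝ in Filter.atTop, (idc F s : ℝ) / s < (1 + ε) * κ := by
    refine h1.eventually (gt_mem_nhds ?_)
    linarith
  obtain ⟨y₁, hy₁⟩ := Filter.eventually_atTop.1 (h2.and h3)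
  refine ⟨max y₁ 1, le_max_right _ _, fun y hy => ?_⟩
  have hy1 : y₁ ≤ y := (le_max_left _ _).trans hy
  have hy0 : (0 : ℝ) < y := lt_of_lt_of_le one_pos ((le_max_right _ _).trans hy)
  obtain ⟨ha, hb⟩ := hy₁ y hy1
  constructor
  · exact ((lt_div_iff₀ hy0).1 ha).le
  · exact ((div_lt_iff₀ hy0).1 hb).le

theorem idc_le (F : Type) [Field F] [NumberField F] : ∃ C : ℝ, 0 < C ∧ ∀ y : ℝ, 1 ≤ y →
    (idc F y : ℝ) ≤ C * y := by
  obtain ⟨κ, hκ, h⟩ := idc_eps F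
  obtain ⟨y₀, hy₀, hy⟩ := h (1 / 2) (by norm_num) (by norm_num)
  refine ⟨(1 + 1 / 2) * κ + idc F y₀, by positivity, fun y hy1 => ?_⟩
  have hA : (0 : ℝ) ≤ idc F y₀ := Nat.cast_nonneg _
  rcases le_total y₀ y with h1 | h1
  · have h2 := (hy y h1).2
    have h3 : (0 : ℝ) ≤ (idc F y₀ : ℝ) * y := mul_nonneg hA (by linarith)
    linarith
  · have h2 : (idc F y : ℝ) ≤ idc F y₀ := by
      rw [idC_card, idC_card, Nat.cast_le]
      refine Finset.card_le_card fun I hI => ?_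
      rw [Set.Finite.mem_toFinset] at hI ⊢
      exact ⟨hI.1, hI.2.trans h1⟩
    have h3 : (idc F y₀ : ℝ) ≤ (idc F y₀ : ℝ) * y := le_mul_of_one_le_right hA hy1
    have h4 : 0 ≤ (1 + 1 / 2) * κ * y := by positivity
    linarith

theorem primes_upper (F : Type) [Field F] [NumberField F] (Q : ℕ → Finset (Ideal (𝓞 F)))
    (hQ : ∀ p, p.Prime → ∀ P ∈ Q p, P.IsPrime ∧ Ideal.absNorm P = p) (ε : ℝ) (hε : 0 < ε) :
    ∃ C : ℝ, ∀ x : ℕ, 1 ≤ x →
      ∑ p ∈ PL x, ((Q p).card : ℝ) * (Real.log p / p) ≤ (1 + ε) * Real.log x + C := by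
  classical
  obtain ⟨κ, hκ, h⟩ := idc_eps F
  set δ : ℝ := min ε 1 / 4 with hδ
  have hm0 : 0 < min ε 1 := lt_min hε one_pos
  have hm1 : min ε 1 ≤ ε := min_le_left _ _
  have hm2 : min ε 1 ≤ 1 := min_le_right _ _
  have hδ0 : 0 < δ := by linarith
  have hδ1 : δ ≤ 1 / 4 := by linarith
  have hδε : δ ≤ ε / 4 := by linarith
  obtain ⟨y₀, hy₀, hidc⟩ := h δ hδ0 (by linarith)
  have hy₀' : (0 : ℝ) < y₀ := lt_of_lt_of_le one_pos hy₀
  have hly₀ : 0 ≤ Real.log y₀ := Real.log_nonneg hy₀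
  refine ⟨(1 + ε) * Real.log y₀, fun x hx => ?_⟩
  have hx1 : (1 : ℝ) ≤ x := by exact_mod_cast hx
  have hx0 : (0 : ℝ) < x := by linarith
  have hlx : 0 ≤ Real.log x := Real.log_nonneg hx1
  set X : ℝ := y₀ * x with hX
  have hX0 : 0 < X := mul_pos hy₀' hx0
  have hX1 : 1 ≤ X := one_le_mul_of_one_le_of_one_le hy₀ hx1
  have hXy : y₀ ≤ X := le_mul_of_one_le_right hy₀'.le hx1
  have hlX : Real.log X = Real.log y₀ + Real.log x := Real.log_mul hy₀'.ne' hx0.ne'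
  have hPL : ∀ p ∈ PL x, p ≤ x ∧ p.Prime := fun p hp => (mem_PL x p).1 hp
  set T : Finset (Ideal (𝓞 F)) := (PL x).biUnion Q with hT
  have hTprime : ∀ P ∈ T, P.IsPrime ∧ P ≠ ⊥ := by
    intro P hPT
    rw [hT, Finset.mem_biUnion] at hPT
    obtain ⟨p, hp, hPm⟩ := hPT
    obtain ⟨h1, h2⟩ := hQ p (hPL p hp).2 P hPm
    refine ⟨h1, ?_⟩
    rintro rfl
    rw [Ideal.absNorm_bot] at h2
    exact (hPL p hp).2.ne_zero h2.symm
  have hcount := ideal_count T hTprime hX1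
  have hdisj : ((PL x : Finset ℕ) : Set ℕ).PairwiseDisjoint Q := by
    intro p hp q hq hpq
    rw [Function.onFun, Finset.disjoint_left]
    intro P hPp hPq
    have h1 := (hQ p (hPL p hp).2 P hPp).2
    have h2 := (hQ q (hPL q hq).2 P hPq).2
    exact hpq (h1.symm.trans h2)
  have hsum : ∑ P ∈ T, Real.log (Ideal.absNorm P) * idc F (X / Ideal.absNorm P) =
      ∑ p ∈ PL x, ((Q p).card : ℝ) * (Real.log p * idc F (X / p)) := by
    rw [hT, Finset.sum_biUnion hdisj]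
    refine Finset.sum_congr rfl fun p hp => ?_
    rw [Finset.sum_congr rfl (g := fun _ => Real.log p * idc F (X / p)) (fun P hP => by
      rw [(hQ p (hPL p hp).2 P hP).2]), Finset.sum_const, nsmul_eq_mul]
  rw [hsum] at hcount
  have hlow : (1 - δ) * κ * X * ∑ p ∈ PL x, ((Q p).card : ℝ) * (Real.log p / p) ≤
      ∑ p ∈ PL x, ((Q p).card : ℝ) * (Real.log p * idc F (X / p)) := by
    rw [Finset.mul_sum]
    refine Finset.sum_le_sum fun p hp => ?_
    obtain ⟨hpx, hpp⟩ := hPL p hp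
    have hp0 : (0 : ℝ) < p := by exact_mod_cast hpp.pos
    have hp1 : (1 : ℝ) ≤ p := by exact_mod_cast hpp.one_lt.le
    have hpx' : (p : ℝ) ≤ x := by exact_mod_cast hpx
    have hxp : y₀ ≤ X / p := by
      rw [le_div_iff₀ hp0]
      exact mul_le_mul_of_nonneg_left hpx' hy₀'.le
    have h1 := (hidc (X / p) hxp).1
    have hlog : 0 ≤ Real.log p := Real.log_nonneg hp1
    have h2 := mul_le_mul_of_nonneg_left (mul_le_mul_of_nonneg_left h1 hlog)
      (Nat.cast_nonneg (α := ℝ) (Q p).card)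
    have h3 : (1 - δ) * κ * X * (((Q p).card : ℝ) * (Real.log p / p)) =
        ((Q p).card : ℝ) * (Real.log p * ((1 - δ) * κ * (X / p))) := by
      ring
    rw [h3]
    exact h2
  have hlogX : 0 ≤ Real.log X := Real.log_nonneg hX1
  have hup : (idc F X : ℝ) * Real.log X ≤ (1 + δ) * κ * X * Real.log X :=
    mul_le_mul_of_nonneg_right (hidc X hXy).2 hlogX
  set W : ℝ := ∑ p ∈ PL x, ((Q p).card : ℝ) * (Real.log p / p) with hW
  have hfin : κ * X * ((1 - δ) * W) ≤ κ * X * ((1 + δ) * Real.log X) := by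
    have h1 : κ * X * ((1 - δ) * W) = (1 - δ) * κ * X * W := by ring
    have h2 : κ * X * ((1 + δ) * Real.log X) = (1 + δ) * κ * X * Real.log X := by ring
    rw [h1, h2]
    exact hlow.trans (hcount.trans hup)
  have hfin' := le_of_mul_le_mul_left hfin (mul_pos hκ hX0)
  have hδ2 : 0 < 1 - δ := by linarith
  have h5 : 1 + δ ≤ (1 - δ) * (1 + ε) := by nlinarith
  have h6 : (1 + δ) * Real.log X ≤ (1 - δ) * ((1 + ε) * Real.log X) := by
    rw [← mul_assoc]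
    exact mul_le_mul_of_nonneg_right h5 hlogX
  have h7 := le_of_mul_le_mul_left (hfin'.trans h6) hδ2
  rw [hlX] at h7
  linarith

end Pool.Agent.Helper38.TW
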