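import Mathlib
import Pool.Agent.Helper10.P5.Mert

/-!
# TW-N1: partial summation for sums over primes

`W(n) = ∑_{p ≤ n} a_p log p/p`. As `1/log p = 1/log x + ∑_{p ≤ n < x} (1/log n - 1/log(n+1))`: `∑_{p ≤ x} a_p/p = W(x)/log x + ∑_{2 ≤ n < x} W(n) (1/log n - 1/log(n+1))`.
Upper bound: insert `W(n) ≤ K log n + C` (`K, C ≥ 0` w.l.o.g.; if `K < 0` the hypothesis is still fine but take care: state is for `K ≥ 0`): `C ∑ (1/log n - 1/log(n+1)) ≤ C/log 2` telescopes, and
`log n (1/log n - 1/log(n+1)) = (log(n+1) - log n)/log(n+1) ≤ log log(n+1) - log log n` (`log u - log v ≥ (u - v)/u`), telescopes to `log log x - log log 2`.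
Lower bound: `W(n) ≥ K log n - C`, and `log log(n+1) - log log n ≤ (log(n+1) - log n)/log n`, so `(log(n+1) - log n)/log(n+1) ≥ log log(n+1) - log log n - (log(n+1) - log n)(1/log n - 1/log(n+1))`, the last term is
`≤ 1/log n - 1/log(n+1)` in absolute value (`log(n+1) - log n ≤ 1`).
-/

set_option autoImplicit false

namespace Pool.Agent.Helper38.TW

open Finset Pool.Agent.Helper10.P5

private lemma PL_two : PL 2 = {2} := by
  ext p
  rw [mem_PL, Finset.mem_singleton]
  constructor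
  · rintro ⟨h1, h2⟩
    have := h2.two_le
    omega
  · rintro rfl
    exact ⟨le_rfl, Nat.prime_two⟩

private lemma PL_succ (f : ℕ → ℝ) (n : ℕ) :
    ∑ p ∈ PL (n + 1), f p = ∑ p ∈ PL n, f p + if (n + 1).Prime then f (n + 1) else 0 := by
  by_cases hp : (n + 1).Prime
  · have h : PL (n + 1) = insert (n + 1) (PL n) := by
      ext p
      rw [Finset.mem_insert, mem_PL, mem_PL]
      constructor
      · rintro ⟨h1, h2⟩
        by_cases h3 : p = n + 1
        · exact Or.inl h3
        · exact Or.inr ⟨by omega, h2⟩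
      · rintro (h1 | ⟨h1, h2⟩)
        · rw [h1]; exact ⟨le_rfl, hp⟩
        · exact ⟨by omega, h2⟩
    have hn : n + 1 ∉ PL n := by
      rw [mem_PL]
      rintro ⟨h1, _⟩
      omega
    rw [h, Finset.sum_insert hn, if_pos hp]
    ring
  · have h : PL (n + 1) = PL n := by
      ext p
      rw [mem_PL, mem_PL]
      constructor
      · rintro ⟨h1, h2⟩
        have h3 : p ≠ n + 1 := fun h => hp (h ▸ h2)
        exact ⟨by omega, h2⟩
      · rintro ⟨h1, h2⟩
        exact ⟨by omega, h2⟩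
    rw [h, if_neg hp, add_zero]

/-- the remainder of the partial summation -/
private noncomputable def RR (a : ℕ → ℝ) (x : ℕ) : ℝ :=
  ∑ p ∈ PL x, a p / p - (∑ p ∈ PL x, a p * (Real.log p / p)) / Real.log x

private lemma RR_two (a : ℕ → ℝ) : RR a 2 = 0 := by
  unfold RR
  have h2 : Real.log 2 ≠ 0 := (Real.log_pos (by norm_num)).ne'
  rw [PL_two, Finset.sum_singleton, Finset.sum_singleton]
  push_cast
  field_simp
  ring

private lemma RR_succ (a : ℕ → ℝ) (x : ℕ) (hx : 2 ≤ x) :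
    RR a (x + 1) = RR a x + (∑ p ∈ PL x, a p * (Real.log p / p)) *
      (1 / Real.log x - 1 / Real.log ((x + 1 : ℕ) : ℝ)) := by
  have hx1 : (1 : ℝ) < x := by exact_mod_cast (by omega : 1 < x)
  have hx2 : (1 : ℝ) < ((x + 1 : ℕ) : ℝ) := by exact_mod_cast (by omega : 1 < x + 1)
  have h1 : Real.log x ≠ 0 := (Real.log_pos hx1).ne'
  have h2 : Real.log ((x + 1 : ℕ) : ℝ) ≠ 0 := (Real.log_pos hx2).ne'
  have h3 : ((x + 1 : ℕ) : ℝ) ≠ 0 := by linarith
  unfold RR
  rw [PL_succ (fun p => a p / p), PL_succ (fun p => a p * (Real.log p / p))]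
  set W := ∑ p ∈ PL x, a p * (Real.log p / p)
  by_cases hp : (x + 1).Prime
  · rw [if_pos hp, if_pos hp]
    field_simp
    ring
  · rw [if_neg hp, if_neg hp]
    field_simp
    ring

private lemma step_bounds (x : ℕ) (hx : 2 ≤ x) :
    0 ≤ 1 / Real.log x - 1 / Real.log ((x + 1 : ℕ) : ℝ) ∧
    Real.log x * (1 / Real.log x - 1 / Real.log ((x + 1 : ℕ) : ℝ)) ≤
      Real.log (Real.log ((x + 1 : ℕ) : ℝ)) - Real.log (Real.log x) ∧
    Real.log (Real.log ((x + 1 : ℕ) : ℝ)) - Real.log (Real.log x) ≤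
      Real.log x * (1 / Real.log x - 1 / Real.log ((x + 1 : ℕ) : ℝ)) +
      (1 / Real.log x - 1 / Real.log ((x + 1 : ℕ) : ℝ)) := by
  have hx1 : (1 : ℝ) < x := by exact_mod_cast (by omega : 1 < x)
  have hx2 : (x : ℝ) < ((x + 1 : ℕ) : ℝ) := by exact_mod_cast (by omega : x < x + 1)
  have hx0 : (0 : ℝ) < x := by linarith
  have hy0 : (0 : ℝ) < ((x + 1 : ℕ) : ℝ) := by linarith
  set u := Real.log x with hu
  set v := Real.log ((x + 1 : ℕ) : ℝ) with hv
  have hu0 : 0 < u := Real.log_pos hx1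
  have huv : u < v := Real.log_lt_log hx0 hx2
  have hv0 : 0 < v := by linarith
  have hvu : v - u ≤ 1 := by
    have h1 : v - u = Real.log (((x + 1 : ℕ) : ℝ) / x) := by
      rw [Real.log_div hy0.ne' hx0.ne']
    rw [h1]
    have h2 := Real.log_le_sub_one_of_pos (show (0 : ℝ) < ((x + 1 : ℕ) : ℝ) / x by positivity)
    have h3 : ((x + 1 : ℕ) : ℝ) / x - 1 = 1 / x := by
      push_cast
      field_simp
      ring
    rw [h3] at h2
    have h4 : 1 / (x : ℝ) ≤ 1 := by
      rw [div_le_one hx0]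
      exact hx1.le
    linarith
  have hw : 0 ≤ 1 / u - 1 / v := by
    have := one_div_le_one_div_of_le hu0 huv.le
    linarith
  refine ⟨hw, ?_, ?_⟩
  · have h1 := Real.one_sub_inv_le_log_of_pos (show (0 : ℝ) < v / u by positivity)
    rw [Real.log_div hv0.ne' hu0.ne'] at h1
    have h2 : u * (1 / u - 1 / v) = 1 - (v / u)⁻¹ := by
      field_simp
    rw [h2]
    exact h1
  · have h1 := Real.log_le_sub_one_of_pos (show (0 : ℝ) < v / u by positivity)
    rw [Real.log_div hv0.ne' hu0.ne'] at h1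
    have h2 : v / u - 1 = u * (1 / u - 1 / v) + (v - u) * (1 / u - 1 / v) := by
      field_simp
      ring
    have h3 : (v - u) * (1 / u - 1 / v) ≤ 1 * (1 / u - 1 / v) :=
      mul_le_mul_of_nonneg_right hvu hw
    linarith

private lemma RR_upper (a : ℕ → ℝ) (K C : ℝ) (hK : 0 ≤ K)
    (h : ∀ x : ℕ, 1 ≤ x → ∑ p ∈ PL x, a p * (Real.log p / p) ≤ K * Real.log x + C)
    (x : ℕ) (hx : 2 ≤ x) :
    RR a x ≤ K * (Real.log (Real.log x) - Real.log (Real.log 2)) +
      C * (1 / Real.log 2 - 1 / Real.log x) := by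
  induction x, hx using Nat.le_induction with
  | base =>
    rw [RR_two]
    push_cast
    simp
  | succ x hx ih =>
    rw [RR_succ a x hx]
    obtain ⟨hw, h1, -⟩ := step_bounds x hx
    have h2 := mul_le_mul_of_nonneg_right (h x (by omega)) hw
    have h3 := mul_le_mul_of_nonneg_left h1 hK
    linarith

private lemma RR_lower (a : ℕ → ℝ) (K C : ℝ) (hK : 0 ≤ K)
    (h : ∀ x : ℕ, 1 ≤ x → K * Real.log x - C ≤ ∑ p ∈ PL x, a p * (Real.log p / p))
    (x : ℕ) (hx : 2 ≤ x) :
    K * (Real.log (Real.log x) - Real.log (Real.log 2)) -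
      (K + C) * (1 / Real.log 2 - 1 / Real.log x) ≤ RR a x := by
  induction x, hx using Nat.le_induction with
  | base =>
    rw [RR_two]
    push_cast
    simp
  | succ x hx ih =>
    rw [RR_succ a x hx]
    obtain ⟨hw, -, h1⟩ := step_bounds x hx
    have h2 := mul_le_mul_of_nonneg_right (h x (by omega)) hw
    have h3 := mul_le_mul_of_nonneg_left h1 hK
    linarith

theorem part_upper (a : ℕ → ℝ) (K C : ℝ) (hK : 0 ≤ K)
    (h : ∀ x : ℕ, 1 ≤ x → ∑ p ∈ PL x, a p * (Real.log p / p) ≤ K * Real.log x + C) :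
    ∃ C' : ℝ, ∀ x : ℕ, 3 ≤ x → ∑ p ∈ PL x, a p / p ≤ K * Real.log (Real.log x) + C' := by
  refine ⟨K * (1 - Real.log (Real.log 2)) + C * (1 / Real.log 2), fun x hx => ?_⟩
  have hx1 : (1 : ℝ) < x := by exact_mod_cast (by omega : 1 < x)
  have hl : 0 < Real.log x := Real.log_pos hx1
  have h1 := RR_upper a K C hK h x (by omega)
  unfold RR at h1
  have h2 : (∑ p ∈ PL x, a p * (Real.log p / p)) / Real.log x ≤ K + C * (1 / Real.log x) := by
    rw [div_le_iff₀ hl]
    have h3 := h x (by omega)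
    have h4 : (K + C * (1 / Real.log x)) * Real.log x = K * Real.log x + C := by
      field_simp
    rw [h4]
    exact h3
  linarith

theorem part_lower (a : ℕ → ℝ) (K C : ℝ) (hK : 0 ≤ K)
    (h : ∀ x : ℕ, 1 ≤ x → K * Real.log x - C ≤ ∑ p ∈ PL x, a p * (Real.log p / p)) :
    ∃ C' : ℝ, ∀ x : ℕ, 3 ≤ x → K * Real.log (Real.log x) - C' ≤ ∑ p ∈ PL x, a p / p := by
  refine ⟨K * Real.log (Real.log 2) + (K + C) * (1 / Real.log 2), fun x hx => ?_⟩
  have hx1 : (1 : ℝ) < x := by exact_mod_cast (by omega : 1 < x)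
  have hl : 0 < Real.log x := Real.log_pos hx1
  have h1 := RR_lower a K C hK h x (by omega)
  unfold RR at h1
  have h2 : K - C * (1 / Real.log x) ≤ (∑ p ∈ PL x, a p * (Real.log p / p)) / Real.log x := by
    rw [le_div_iff₀ hl]
    have h3 := h x (by omega)
    have h4 : (K - C * (1 / Real.log x)) * Real.log x = K * Real.log x - C := by
      field_simp
    rw [h4]
    exact h3
  have h5 : 0 ≤ K * (1 / Real.log x) := by positivity
  linarith

end Pool.Agent.Helper38.TW
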