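import Mathlib
import Pool.Agent.Helper38.TW.PartSum
import Pool.Agent.Helper38.TW.IdBounds

/-!
# TW-N5: many primes have a prime ideal of degree one

`L` number field of degree `n`, `A(x) = idc L x`. `x` large.
(1) `∑_{N(I) ≤ x} log N(I) ≥ c₁ x log x` for `x ≥ x₀` (`c₁ > 0`): by `idc_eps` (`ε = 1/10`), at least `A(x) - A(x/4) ≥ (9/10 - 11/40) κ x ≥ κ x/2` ideals have norm `> x/4`, each contributes `≥ log(x/4) ≥ (1/2) log x`.
(2) `log N(I) = ∑_{P^k ∣ I, k ≥ 1} log N(P)` (sum over pairs `(P,k)`, `P` prime), so `∑_{N(I) ≤ x} log N(I) = ∑_{(P,k) : N(P)^k ≤ x} log N(P) A(x/N(P)^k) ≤ C x ∑_{(P,k) : N(P)^k ≤ x} log N(P)/N(P)^k` (`idc_le`). (Only `≤` is needed.)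
(3) the terms with `N(P)^k` not a prime number: there are at most `n` primes `P` over each rational prime `p`, `N(P) = p^f`, the sum over `k` with `f k ≥ 2` of `log N(P)/N(P)^k` is `≤ n · C (log p)/p^2` (`n` times..), so all of them together are `≤ C'` (independent of `x`).
(4) so `n ∑_{p ≤ x, some P has norm p} log p/p ≥ c₂ log x - C''` for all `x ≥ 1`; `part_lower` with `a p = 1` or `0`.
(5) a prime ideal `P` of norm `p` gives a ring hom `𝓞_L → 𝓞_L/P ≅ ZMod p` (a ring with `p` elements, `p` prime, is isomorphic to `ZMod p`: `ZMod.ringEquivOfPrime`).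
-/

set_option autoImplicit false

namespace Pool.Agent.Helper38.TW

open Finset Pool.Agent.Helper10.P5 Pool.Agent.Helper79.GA NumberField

/-- a rational prime in `P` -/
private theorem d1_under {L : Type} [Field L] [NumberField L] (P : Ideal (𝓞 L)) (hP : P.IsPrime)
    (h0 : P ≠ ⊥) : ∃ p f : ℕ, p.Prime ∧ (p : 𝓞 L) ∈ P ∧ Ideal.absNorm P = p ^ f ∧ 1 ≤ f := by
  have hN : Ideal.absNorm P ≠ 0 := fun h => h0 (Ideal.absNorm_eq_zero_iff.1 h)
  have hmem : ((Ideal.absNorm P : ℕ) : 𝓞 L) ∈ P := Ideal.absNorm_mem P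
  have h1 : ∃ p : ℕ, p.Prime ∧ (p : 𝓞 L) ∈ P := by
    have key : ∀ n : ℕ, n ≠ 0 → (n : 𝓞 L) ∈ P → ∃ p : ℕ, p.Prime ∧ (p : 𝓞 L) ∈ P := by
      intro n
      induction n using Nat.recOnPrimePow with
      | zero => intro h; exact absurd rfl h
      | one =>
        intro _ h
        rw [Nat.cast_one] at h
        exact absurd ((Ideal.eq_top_iff_one P).2 h) hP.ne_top
      | prime_pow_mul a p n hp hpa hn ih =>
        intro _ h
        rw [Nat.cast_mul, Nat.cast_pow] at h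
        rcases hP.mem_or_mem h with h | h
        · exact ⟨p, hp, hP.mem_of_pow_mem _ h⟩
        · refine ih ?_ h
          rintro rfl
          simp_all
    exact key _ hN hmem
  obtain ⟨p, hp, hpP⟩ := h1
  have hle : Ideal.span {(p : 𝓞 L)} ≤ P := (Ideal.span_singleton_le_iff_mem _).2 hpP
  have hd := Ideal.absNorm_dvd_absNorm_of_le hle
  have hn : Ideal.absNorm (Ideal.span {(p : 𝓞 L)}) = p ^ Module.finrank ℤ (𝓞 L) := by
    rw [Ideal.absNorm_span_singleton]
    have h2 : ((p : ℕ) : 𝓞 L) = algebraMap ℤ (𝓞 L) (p : ℤ) := by simp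
    rw [h2, Algebra.norm_algebraMap, Int.natAbs_pow, Int.natAbs_natCast]
  rw [hn] at hd
  obtain ⟨f, _, hf⟩ := (Nat.dvd_prime_pow hp).1 hd
  refine ⟨p, f, hp, hpP, hf, ?_⟩
  rcases Nat.eq_zero_or_pos f with h | h
  · exfalso
    rw [h, pow_zero] at hf
    exact hP.ne_top (Ideal.absNorm_eq_one_iff.1 hf)
  · exact h

/-- at most `n` primes over `p` -/
private theorem d1_card {L : Type} [Field L] [NumberField L] (p : ℕ) (hp : p.Prime)
    (Q : Finset (Ideal (𝓞 L))) (hQ : ∀ P ∈ Q, P.IsPrime ∧ P ≠ ⊥ ∧ (p : 𝓞 L) ∈ P) :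
    Q.card ≤ Module.finrank ℤ (𝓞 L) := by
  classical
  have h2 : ∏ P ∈ Q, P ∣ Ideal.span {(p : 𝓞 L)} := by
    refine Finset.prod_dvd_of_coprime (s := fun P : Ideal (𝓞 L) => P) ?_ ?_
    · intro P hP P' hP' hne
      rw [Finset.mem_coe] at hP hP'
      have hm : P.IsMaximal := (hQ P hP).1.isMaximal (hQ P hP).2.1
      have hm' : P'.IsMaximal := (hQ P' hP').1.isMaximal (hQ P' hP').2.1
      exact Ideal.isCoprime_iff_sup_eq.2 (Ideal.IsMaximal.coprime_of_ne hm hm' hne)
    · intro P hP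
      rw [Ideal.dvd_span_singleton]
      exact (hQ P hP).2.2
  have hn : Ideal.absNorm (Ideal.span {(p : 𝓞 L)}) = p ^ Module.finrank ℤ (𝓞 L) := by
    rw [Ideal.absNorm_span_singleton]
    have h2 : ((p : ℕ) : 𝓞 L) = algebraMap ℤ (𝓞 L) (p : ℤ) := by simp
    rw [h2, Algebra.norm_algebraMap, Int.natAbs_pow, Int.natAbs_natCast]
  have h3 : ∏ P ∈ Q, Ideal.absNorm P ≤ p ^ Module.finrank ℤ (𝓞 L) := by
    rw [← map_prod, ← hn]
    refine Nat.le_of_dvd ?_ (map_dvd Ideal.absNorm h2)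
    rw [hn]
    exact pow_pos hp.pos _
  have h4 : p ^ Q.card ≤ ∏ P ∈ Q, Ideal.absNorm P := by
    refine Finset.pow_card_le_prod _ _ _ fun P hP => ?_
    obtain ⟨q, f, hq, hqP, hf, hf1⟩ := d1_under P (hQ P hP).1 (hQ P hP).2.1
    have hpq : q = p := by
      by_contra hne
      have hc : Nat.Coprime p q := (Nat.coprime_primes hp hq).2 (fun h => hne h.symm)
      have h5 : (1 : 𝓞 L) ∈ P := by
        have h6 : IsCoprime (p : ℤ) (q : ℤ) := Nat.isCoprime_iff_coprime.2 hc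
        obtain ⟨a, b, hab⟩ := h6
        have h7 : (1 : 𝓞 L) = (a : 𝓞 L) * (p : 𝓞 L) + (b : 𝓞 L) * (q : 𝓞 L) := by
          exact_mod_cast hab.symm
        rw [h7]
        exact P.add_mem (P.mul_mem_left _ (hQ P hP).2.2) (P.mul_mem_left _ hqP)
      exact (hQ P hP).1.ne_top ((Ideal.eq_top_iff_one P).2 h5)
    rw [hf, hpq]
    calc p = p ^ 1 := (pow_one p).symm
      _ ≤ p ^ f := Nat.pow_le_pow_right hp.pos hf1
  exact (Nat.pow_le_pow_iff_right hp.one_lt).1 (h4.trans h3)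

/-- a degree one prime gives a homomorphism to `ZMod p` -/
private theorem d1_hom {L : Type} [Field L] [NumberField L] (P : Ideal (𝓞 L))
    (hp : (Ideal.absNorm P).Prime) : Nonempty (𝓞 L →+* ZMod (Ideal.absNorm P)) := by
  have hc : Nat.card (𝓞 L ⧸ P) = Ideal.absNorm P := by
    rw [Ideal.absNorm_apply, Submodule.cardQuot_apply]
  haveI : Finite (𝓞 L ⧸ P) := by
    apply Nat.finite_of_card_ne_zero
    rw [hc]
    exact hp.ne_zero
  haveI := Fintype.ofFinite (𝓞 L ⧸ P)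
  have h1 : Fintype.card (𝓞 L ⧸ P) = Ideal.absNorm P := by
    rw [← Nat.card_eq_fintype_card, hc]
  exact ⟨(ZMod.ringEquivOfPrime (𝓞 L ⧸ P) hp h1).symm.toRingHom.comp (Ideal.Quotient.mk P)⟩


/-- `log N(I)` is at most the sum over the prime powers dividing `I` -/
private theorem d1_fac {L : Type} [Field L] [NumberField L] (x : ℝ) (I : Ideal (𝓞 L))
    (hI0 : I ≠ 0) (hI : (Ideal.absNorm I : ℝ) ≤ x) (Pr : Finset (Ideal (𝓞 L)))
    (hPr : ∀ P : Ideal (𝓞 L), P.IsPrime → P ≠ 0 → (Ideal.absNorm P : ℝ) ≤ x → P ∈ Pr) (K : ℕ)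
    (hK : x ≤ K) [∀ (P : Ideal (𝓞 L)) (k : ℕ), Decidable (P ^ k ∣ I)] :
    Real.log (Ideal.absNorm I) ≤
      ∑ P ∈ Pr, ∑ k ∈ Icc 1 K, if P ^ k ∣ I then Real.log (Ideal.absNorm P) else 0 := by
  classical
  have hpos : ∀ J : Ideal (𝓞 L), J ≠ 0 → 1 ≤ Ideal.absNorm J := fun J hJ =>
    Nat.one_le_iff_ne_zero.2 fun h => hJ (Ideal.absNorm_eq_zero_iff.1 h)
  set F := (UniqueFactorizationMonoid.normalizedFactors I).toFinset with hF
  set c : Ideal (𝓞 L) → ℕ := fun P =>
    (UniqueFactorizationMonoid.normalizedFactors I).count P with hc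
  have hprod : I = ∏ P ∈ F, P ^ c P := by
    have h1 := Ideal.prod_normalizedFactors_eq_self (I := I) hI0
    rw [Finset.prod_multiset_count] at h1
    exact h1.symm
  have hFp : ∀ P ∈ F, P.IsPrime ∧ P ≠ 0 ∧ P ^ c P ∣ I ∧ 1 ≤ c P := by
    intro P hP
    rw [hF, Multiset.mem_toFinset] at hP
    have hpr := UniqueFactorizationMonoid.prime_of_normalized_factor P hP
    refine ⟨Ideal.isPrime_of_prime hpr, hpr.ne_zero, ?_, Multiset.one_le_count_iff_mem.2 hP⟩
    have h2 : P ^ c P ∣ ∏ P ∈ F, P ^ c P :=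
      Finset.dvd_prod_of_mem (fun P => P ^ c P) (by rw [hF, Multiset.mem_toFinset]; exact hP)
    rwa [← hprod] at h2
  have hle : ∀ J : Ideal (𝓞 L), J ∣ I → Ideal.absNorm J ≤ Ideal.absNorm I := fun J hJ =>
    Nat.le_of_dvd (hpos I hI0) (map_dvd Ideal.absNorm hJ)
  have hN2 : ∀ P ∈ F, 2 ≤ Ideal.absNorm P := by
    intro P hP
    have h1 := hpos P (hFp P hP).2.1
    have h2 : Ideal.absNorm P ≠ 1 := fun h =>
      (hFp P hP).1.ne_top (Ideal.absNorm_eq_one_iff.1 h)
    omega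
  have hcK : ∀ P ∈ F, c P ≤ K := by
    intro P hP
    have h1 := hle _ (hFp P hP).2.2.1
    rw [map_pow] at h1
    have h2 : c P < 2 ^ c P := Nat.lt_two_pow_self
    have h3 : 2 ^ c P ≤ Ideal.absNorm P ^ c P := Nat.pow_le_pow_left (hN2 P hP) _
    have h4 : (Ideal.absNorm I : ℝ) ≤ K := hI.trans hK
    have h5 : Ideal.absNorm I ≤ K := by exact_mod_cast h4
    omega
  have hFPr : F ⊆ Pr := by
    intro P hP
    refine hPr P (hFp P hP).1 (hFp P hP).2.1 (le_trans ?_ hI)
    have h1 : P ∣ I := (dvd_pow_self P (by have := (hFp P hP).2.2.2; omega)).trans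
      (hFp P hP).2.2.1
    exact_mod_cast hle P h1
  have hlog : Real.log (Ideal.absNorm I) = ∑ P ∈ F, (c P : ℝ) * Real.log (Ideal.absNorm P) := by
    conv_lhs => rw [hprod]
    rw [map_prod, Nat.cast_prod, Real.log_prod]
    · refine Finset.sum_congr rfl fun P _ => ?_
      rw [map_pow, Nat.cast_pow, Real.log_pow]
    · intro P hP
      rw [map_pow, Nat.cast_pow]
      have := hN2 P hP
      have h1 : (Ideal.absNorm P : ℝ) ≠ 0 := by
        have : Ideal.absNorm P ≠ 0 := by omega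
        exact_mod_cast this
      exact pow_ne_zero _ h1
  rw [hlog]
  have hnn : ∀ P : Ideal (𝓞 L), 0 ≤ Real.log (Ideal.absNorm P) := fun P =>
    Real.log_natCast_nonneg _
  calc ∑ P ∈ F, (c P : ℝ) * Real.log (Ideal.absNorm P)
      ≤ ∑ P ∈ F, ∑ k ∈ Icc 1 K, if P ^ k ∣ I then Real.log (Ideal.absNorm P) else 0 := by
        refine Finset.sum_le_sum fun P hP => ?_
        rw [← Finset.sum_filter, Finset.sum_const, nsmul_eq_mul]
        refine mul_le_mul_of_nonneg_right ?_ (hnn P)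
        rw [Nat.cast_le]
        have h1 : Icc 1 (c P) ⊆ (Icc 1 K).filter (fun k => P ^ k ∣ I) := by
          intro k hk
          rw [Finset.mem_Icc] at hk
          rw [Finset.mem_filter, Finset.mem_Icc]
          exact ⟨⟨hk.1, hk.2.trans (hcK P hP)⟩,
            (pow_dvd_pow P hk.2).trans (hFp P hP).2.2.1⟩
        have h2 := Finset.card_le_card h1
        rwa [Nat.card_Icc, Nat.add_sub_cancel] at h2
    _ ≤ ∑ P ∈ Pr, ∑ k ∈ Icc 1 K, if P ^ k ∣ I then Real.log (Ideal.absNorm P) else 0 := by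
        refine Finset.sum_le_sum_of_subset_of_nonneg hFPr fun P _ _ => ?_
        refine Finset.sum_nonneg fun k _ => ?_
        split_ifs
        · exact hnn P
        · exact le_rfl

/-- the number of ideals divisible by `J` -/
private theorem d1_div {L : Type} [Field L] [NumberField L] (C : ℝ)
    (hC : ∀ y : ℝ, 1 ≤ y → (idc L y : ℝ) ≤ C * y) (hC0 : 0 ≤ C) (x : ℝ) (hx : 0 ≤ x)
    (J : Ideal (𝓞 L)) (hJ : J ≠ 0) [∀ I : Ideal (𝓞 L), Decidable (J ∣ I)] :
    (((idC_fin L x).toFinset.filter (fun I => J ∣ I)).card : ℝ) ≤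
      C * (x / Ideal.absNorm J) := by
  classical
  have hpos : ∀ J : Ideal (𝓞 L), J ≠ 0 → 1 ≤ Ideal.absNorm J := fun J hJ =>
    Nat.one_le_iff_ne_zero.2 fun h => hJ (Ideal.absNorm_eq_zero_iff.1 h)
  have hJ1 : (1 : ℝ) ≤ Ideal.absNorm J := by exact_mod_cast hpos J hJ
  rcases le_or_gt (Ideal.absNorm J : ℝ) x with h | h
  · have h1 : 1 ≤ x / Ideal.absNorm J := by
      rw [le_div_iff₀ (by linarith)]
      linarith
    refine le_trans ?_ (hC _ h1)
    rw [idC_card, Nat.cast_le]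
    refine Finset.card_le_card_of_surjOn (fun I => J * I) ?_
    intro I hI
    rw [Finset.mem_coe, Finset.mem_filter, Set.Finite.mem_toFinset] at hI
    obtain ⟨⟨hI0, hIx⟩, ⟨I', rfl⟩⟩ := hI
    refine ⟨I', ?_, rfl⟩
    rw [Finset.mem_coe, Set.Finite.mem_toFinset]
    refine ⟨right_ne_zero_of_mul hI0, ?_⟩
    rw [le_div_iff₀ (by linarith)]
    rw [map_mul, Nat.cast_mul] at hIx
    linarith
  · have h1 : (idC_fin L x).toFinset.filter (fun I => J ∣ I) = ∅ := by
      rw [Finset.filter_eq_empty_iff]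
      intro I hI hJI
      rw [Set.Finite.mem_toFinset] at hI
      have h2 : Ideal.absNorm J ≤ Ideal.absNorm I :=
        Nat.le_of_dvd (hpos I hI.1) (map_dvd Ideal.absNorm hJI)
      have h3 : (Ideal.absNorm J : ℝ) ≤ Ideal.absNorm I := by exact_mod_cast h2
      linarith [hI.2]
    rw [h1, Finset.card_empty, Nat.cast_zero]
    positivity

/-- the geometric sum -/
private theorem d1_geo (N : ℝ) (hN : 2 ≤ N) (K : ℕ) :
    ∑ k ∈ Icc 1 K, 1 / N ^ k ≤ 1 / N + 2 / N ^ 2 := by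
  have h0 : 0 < N := by linarith
  have key : ∀ K : ℕ, ∑ k ∈ Icc 1 K, 1 / N ^ k = (1 - 1 / N ^ K) / (N - 1) := by
    intro K
    induction K with
    | zero => simp
    | succ K ih =>
      rw [Finset.sum_Icc_succ_top (by omega), ih]
      have h1 : N - 1 ≠ 0 := by linarith
      field_simp
      ring
  rw [key K]
  have h1 : (1 - 1 / N ^ K) / (N - 1) ≤ 1 / (N - 1) := by
    apply div_le_div_of_nonneg_right _ (by linarith)
    have : 0 ≤ 1 / N ^ K := by positivity
    linarith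
  refine h1.trans ?_
  rw [div_add_div _ _ (ne_of_gt h0) (by positivity), div_le_div_iff₀ (by linarith) (by positivity)]
  nlinarith [sq_nonneg N, mul_pos h0 h0]


/-- the sum of `log p/p^2` is bounded -/
private theorem d1_sq : ∃ D : ℝ, 0 ≤ D ∧ ∀ x : ℕ, ∑ p ∈ PL x, Real.log p / (p : ℝ) ^ 2 ≤ D := by
  have hs : Summable (fun n : ℕ => 2 * (1 / (n : ℝ) ^ (3 / 2 : ℝ))) :=
    (Real.summable_one_div_nat_rpow.mpr (by norm_num)).mul_left 2
  refine ⟨∑' n : ℕ, 2 * (1 / (n : ℝ) ^ (3 / 2 : ℝ)), tsum_nonneg fun n => by positivity,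
    fun x => ?_⟩
  refine le_trans (Finset.sum_le_sum fun p hp => ?_)
    (hs.sum_le_tsum (PL x) fun n _ => by positivity)
  rw [mem_PL] at hp
  have hp0 : (0 : ℝ) < p := by exact_mod_cast hp.2.pos
  have h1 : Real.log p ≤ 2 * (p : ℝ) ^ (1 / 2 : ℝ) := by
    have h2 := Real.log_le_rpow_div hp0.le (ε := 1 / 2) (by norm_num)
    linarith
  have h3 : 2 * (1 / (p : ℝ) ^ (3 / 2 : ℝ)) = 2 * (p : ℝ) ^ (1 / 2 : ℝ) / (p : ℝ) ^ 2 := by
    have h4 : (p : ℝ) ^ 2 = (p : ℝ) ^ (1 / 2 : ℝ) * (p : ℝ) ^ (3 / 2 : ℝ) := by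
      rw [← Real.rpow_add hp0, ← Real.rpow_natCast]
      norm_num
    rw [h4]
    have h5 : (p : ℝ) ^ (1 / 2 : ℝ) ≠ 0 := by positivity
    have h6 : (p : ℝ) ^ (3 / 2 : ℝ) ≠ 0 := by positivity
    field_simp
  rw [h3]
  exact div_le_div_of_nonneg_right h1 (by positivity)

/-- the term of a prime ideal of norm `p^f` -/
private theorem d1_term (p f : ℕ) (hp : p.Prime) (hf : 1 ≤ f) :
    Real.log ((p : ℝ) ^ f) * (1 / (p : ℝ) ^ f + 2 / ((p : ℝ) ^ f) ^ 2) ≤
      (if f = 1 then Real.log p / p else 0) + 4 * (Real.log p / (p : ℝ) ^ 2) := by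
  have hp0 : (0 : ℝ) < p := by exact_mod_cast hp.pos
  have hp2 : (2 : ℝ) ≤ p := by exact_mod_cast hp.two_le
  have hl : 0 ≤ Real.log p := Real.log_natCast_nonneg _
  rw [Real.log_pow]
  have h2 : (f : ℝ) * Real.log p * (2 / ((p : ℝ) ^ f) ^ 2) ≤ 2 * (Real.log p / (p : ℝ) ^ 2) := by
    have h3 : (f : ℝ) * (p : ℝ) ^ 2 ≤ ((p : ℝ) ^ f) ^ 2 := by
      obtain ⟨g, rfl⟩ := Nat.exists_eq_add_of_le hf
      have h4 : ((1 + g : ℕ) : ℝ) ≤ (2 : ℝ) ^ g := by
        have : 1 + g ≤ 2 ^ g := by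
          have := Nat.lt_two_pow_self (n := g)
          omega
        exact_mod_cast this
      have h5 : (2 : ℝ) ^ g ≤ (p : ℝ) ^ g := pow_le_pow_left₀ (by norm_num) hp2 g
      have h6 : (1 : ℝ) ≤ (p : ℝ) ^ g := one_le_pow₀ (by linarith)
      have h7 : ((p : ℝ) ^ (1 + g)) ^ 2 = (p : ℝ) ^ g * (p : ℝ) ^ g * (p : ℝ) ^ 2 := by
        ring
      rw [h7]
      refine mul_le_mul_of_nonneg_right ?_ (by positivity)
      nlinarith
    have h8 : (f : ℝ) * Real.log p * (2 / ((p : ℝ) ^ f) ^ 2) =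
        2 * (f * Real.log p) / ((p : ℝ) ^ f) ^ 2 := by ring
    have h9 : 2 * (Real.log p / (p : ℝ) ^ 2) = 2 * Real.log p / (p : ℝ) ^ 2 := by ring
    rw [h8, h9, div_le_div_iff₀ (by positivity) (by positivity)]
    nlinarith
  rw [mul_add]
  split_ifs with h
  · subst h
    have h10 : ((1 : ℕ) : ℝ) * Real.log p * (1 / (p : ℝ) ^ 1) = Real.log p / p := by
      rw [pow_one, Nat.cast_one]
      ring
    rw [h10]
    have : 0 ≤ Real.log p / (p : ℝ) ^ 2 := by positivity
    linarith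
  · have h11 : (f : ℝ) * Real.log p * (1 / (p : ℝ) ^ f) ≤ 2 * (Real.log p / (p : ℝ) ^ 2) := by
      have hf2 : 2 ≤ f := by omega
      obtain ⟨g, rfl⟩ := Nat.exists_eq_add_of_le hf2
      have h4 : ((2 + g : ℕ) : ℝ) ≤ 2 * (2 : ℝ) ^ g := by
        have : 2 + g ≤ 2 * 2 ^ g := by
          have := Nat.lt_two_pow_self (n := g)
          omega
        exact_mod_cast this
      have h5 : (2 : ℝ) ^ g ≤ (p : ℝ) ^ g := pow_le_pow_left₀ (by norm_num) hp2 g
      have h8 : ((2 + g : ℕ) : ℝ) * Real.log p * (1 / (p : ℝ) ^ (2 + g)) =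
          ((2 + g : ℕ) : ℝ) * Real.log p / ((p : ℝ) ^ (2 + g)) := by ring
      have h9 : 2 * (Real.log p / (p : ℝ) ^ 2) = 2 * Real.log p / (p : ℝ) ^ 2 := by ring
      rw [h8, h9, div_le_div_iff₀ (by positivity) (by positivity), pow_add]
      have h12 : ((2 + g : ℕ) : ℝ) ≤ 2 * (p : ℝ) ^ g := by linarith
      have h13 : 0 ≤ Real.log p * (p : ℝ) ^ 2 := by positivity
      nlinarith
    linarith

open Classical in
/-- the upper bound -/
private theorem d1_upper (L : Type) [Field L] [NumberField L] (C : ℝ) (hC0 : 0 < C)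
    (hC : ∀ y : ℝ, 1 ≤ y → (idc L y : ℝ) ≤ C * y) (D : ℝ)
    (hD : ∀ x : ℕ, ∑ p ∈ PL x, Real.log p / (p : ℝ) ^ 2 ≤ D) (x : ℕ) (hx : 1 ≤ x) :
    ∑ I ∈ (idC_fin L x).toFinset, Real.log (Ideal.absNorm I) ≤
      C * x * (Module.finrank ℤ (𝓞 L) * (∑ p ∈ (PL x).filter
        (fun p => Nonempty (𝓞 L →+* ZMod p)), Real.log p / p + 4 * D)) := by
  have hpos : ∀ J : Ideal (𝓞 L), J ≠ 0 → 1 ≤ Ideal.absNorm J := fun J hJ =>
    Nat.one_le_iff_ne_zero.2 fun h => hJ (Ideal.absNorm_eq_zero_iff.1 h)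
  set S := (idC_fin L x).toFinset with hS
  set Pr := S.filter (fun P => P.IsPrime) with hPr
  have hSm : ∀ I, I ∈ S ↔ I ≠ 0 ∧ (Ideal.absNorm I : ℝ) ≤ x := by
    intro I
    rw [hS, Set.Finite.mem_toFinset]
    rfl
  have hPrm : ∀ P ∈ Pr, P.IsPrime ∧ P ≠ 0 ∧ (Ideal.absNorm P : ℝ) ≤ x := by
    intro P hP
    rw [hPr, Finset.mem_filter, hSm] at hP
    exact ⟨hP.2, hP.1.1, hP.1.2⟩
  have hnn : ∀ P : Ideal (𝓞 L), 0 ≤ Real.log (Ideal.absNorm P) := fun P =>
    Real.log_natCast_nonneg _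
  have hx0 : (0 : ℝ) ≤ x := Nat.cast_nonneg _
  have h1 : ∑ I ∈ S, Real.log (Ideal.absNorm I) ≤
      ∑ P ∈ Pr, C * x * (Real.log (Ideal.absNorm P) *
        (1 / (Ideal.absNorm P : ℝ) + 2 / (Ideal.absNorm P : ℝ) ^ 2)) := by
    calc ∑ I ∈ S, Real.log (Ideal.absNorm I)
        ≤ ∑ I ∈ S, ∑ P ∈ Pr, ∑ k ∈ Icc 1 x,
            if P ^ k ∣ I then Real.log (Ideal.absNorm P) else 0 := by
          refine Finset.sum_le_sum fun I hI => ?_
          rw [hSm] at hI
          refine d1_fac (x : ℝ) I hI.1 hI.2 Pr ?_ x le_rfl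
          intro P hP hP0 hPx
          rw [hPr, Finset.mem_filter, hSm]
          exact ⟨⟨hP0, hPx⟩, hP⟩
      _ = ∑ P ∈ Pr, ∑ k ∈ Icc 1 x, ((S.filter (fun I => P ^ k ∣ I)).card : ℝ) *
            Real.log (Ideal.absNorm P) := by
          rw [Finset.sum_comm]
          refine Finset.sum_congr rfl fun P _ => ?_
          rw [Finset.sum_comm]
          refine Finset.sum_congr rfl fun k _ => ?_
          rw [← Finset.sum_filter, Finset.sum_const, nsmul_eq_mul]
      _ ≤ ∑ P ∈ Pr, ∑ k ∈ Icc 1 x, C * x * Real.log (Ideal.absNorm P) *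
            (1 / (Ideal.absNorm P : ℝ) ^ k) := by
          refine Finset.sum_le_sum fun P hP => Finset.sum_le_sum fun k _ => ?_
          have h2 := d1_div C hC hC0.le (x : ℝ) hx0 (P ^ k) (pow_ne_zero _ (hPrm P hP).2.1)
          rw [map_pow, Nat.cast_pow] at h2
          have h3 := mul_le_mul_of_nonneg_right h2 (hnn P)
          refine h3.trans (le_of_eq ?_)
          ring
      _ ≤ _ := by
          refine Finset.sum_le_sum fun P hP => ?_
          rw [← Finset.mul_sum]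
          have h4 : (2 : ℝ) ≤ Ideal.absNorm P := by
            have h5 := hpos P (hPrm P hP).2.1
            have h6 : Ideal.absNorm P ≠ 1 := fun h =>
              (hPrm P hP).1.ne_top (Ideal.absNorm_eq_one_iff.1 h)
            have : 2 ≤ Ideal.absNorm P := by omega
            exact_mod_cast this
          have h7 := d1_geo (Ideal.absNorm P : ℝ) h4 x
          have h8 : 0 ≤ C * x * Real.log (Ideal.absNorm P) :=
            mul_nonneg (mul_nonneg hC0.le hx0) (hnn P)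
          have h9 := mul_le_mul_of_nonneg_left h7 h8
          refine h9.trans (le_of_eq ?_)
          ring
  rw [← Finset.mul_sum] at h1
  refine h1.trans (mul_le_mul_of_nonneg_left ?_ (mul_nonneg hC0.le hx0))
  -- the prime below
  have hund : ∀ P : Ideal (𝓞 L), ∃ p f : ℕ, P ∈ Pr → (p.Prime ∧ (p : 𝓞 L) ∈ P ∧
      Ideal.absNorm P = p ^ f ∧ 1 ≤ f) := by
    intro P
    by_cases hP : P ∈ Pr
    · obtain ⟨p, f, h⟩ := d1_under P (hPrm P hP).1 (hPrm P hP).2.1
      exact ⟨p, f, fun _ => h⟩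
    · exact ⟨0, 0, fun h => absurd h hP⟩
  choose π φ hπ using hund
  set G := (PL x).filter (fun p => Nonempty (𝓞 L →+* ZMod p)) with hG
  set h : ℕ → ℝ := fun p => (if p ∈ G then Real.log p / p else 0) +
    4 * (Real.log p / (p : ℝ) ^ 2) with hh
  have hh0 : ∀ p, 0 ≤ h p := by
    intro p
    rw [hh]
    have h2 : 0 ≤ Real.log (p : ℝ) := Real.log_natCast_nonneg _
    have h3 : (0 : ℝ) ≤ if p ∈ G then Real.log p / p else 0 := by
      split_ifs <;> positivity
    have h4 : 0 ≤ 4 * (Real.log p / (p : ℝ) ^ 2) := by positivity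
    exact add_nonneg h3 h4
  have hπx : ∀ P ∈ Pr, π P ∈ PL x := by
    intro P hP
    obtain ⟨hp, _, hN, hf⟩ := hπ P hP
    rw [mem_PL]
    refine ⟨?_, hp⟩
    have h2 : π P ≤ π P ^ φ P := by
      calc π P = π P ^ 1 := (pow_one _).symm
        _ ≤ π P ^ φ P := Nat.pow_le_pow_right hp.pos hf
    have h3 : (Ideal.absNorm P : ℝ) ≤ x := (hPrm P hP).2.2
    have h4 : Ideal.absNorm P ≤ x := by exact_mod_cast h3
    rw [hN] at h4
    exact h2.trans h4
  calc ∑ P ∈ Pr, Real.log (Ideal.absNorm P) *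
        (1 / (Ideal.absNorm P : ℝ) + 2 / (Ideal.absNorm P : ℝ) ^ 2)
      ≤ ∑ P ∈ Pr, h (π P) := by
        refine Finset.sum_le_sum fun P hP => ?_
        obtain ⟨hp, hpP, hN, hf⟩ := hπ P hP
        have h2 := d1_term (π P) (φ P) hp hf
        rw [hN, Nat.cast_pow]
        refine h2.trans ?_
        show _ ≤ (if π P ∈ G then Real.log (π P : ℝ) / (π P : ℝ) else 0) +
          4 * (Real.log (π P : ℝ) / (π P : ℝ) ^ 2)
        refine add_le_add ?_ (le_refl (4 * (Real.log (π P : ℝ) / (π P : ℝ) ^ 2)))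
        by_cases hφ : φ P = 1
        · have h3 : π P ∈ G := by
            rw [hG, Finset.mem_filter]
            refine ⟨hπx P hP, ?_⟩
            rw [hφ, pow_one] at hN
            have h4 := d1_hom P (by rw [hN]; exact hp)
            rw [hN] at h4
            exact h4
          rw [if_pos hφ, if_pos h3]
        · rw [if_neg hφ]
          have h5 : 0 ≤ Real.log (π P : ℝ) := Real.log_natCast_nonneg _
          split_ifs <;> positivity
    _ = ∑ p ∈ PL x, ∑ P ∈ Pr.filter (fun P => π P = p), h (π P) := by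
        rw [Finset.sum_fiberwise_of_maps_to hπx]
    _ ≤ ∑ p ∈ PL x, (Module.finrank ℤ (𝓞 L) : ℝ) * h p := by
        refine Finset.sum_le_sum fun p hp => ?_
        rw [mem_PL] at hp
        have h2 : ∑ P ∈ Pr.filter (fun P => π P = p), h (π P) =
            ((Pr.filter (fun P => π P = p)).card : ℝ) * h p := by
          rw [← nsmul_eq_mul, ← Finset.sum_const]
          refine Finset.sum_congr rfl fun P hP => ?_
          rw [Finset.mem_filter] at hP
          rw [hP.2]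
        rw [h2]
        refine mul_le_mul_of_nonneg_right ?_ (hh0 p)
        rw [Nat.cast_le]
        refine d1_card p hp.2 _ fun P hP => ?_
        rw [Finset.mem_filter] at hP
        refine ⟨(hPrm P hP.1).1, (hPrm P hP.1).2.1, ?_⟩
        have h3 := (hπ P hP.1).2.1
        rwa [hP.2] at h3
    _ = (Module.finrank ℤ (𝓞 L) : ℝ) * (∑ p ∈ G, Real.log p / p +
          4 * ∑ p ∈ PL x, Real.log p / (p : ℝ) ^ 2) := by
        have hfil : (PL x).filter (fun p => p ∈ G) = G := by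
          ext p
          simp only [Finset.mem_filter, hG]
          tauto
        rw [← Finset.mul_sum, hh, Finset.sum_add_distrib, ← Finset.mul_sum,
          ← Finset.sum_filter, hfil]
    _ ≤ _ := by
        refine mul_le_mul_of_nonneg_left ?_ (Nat.cast_nonneg _)
        linarith [hD x]


/-- the lower bound -/
private theorem d1_lower (L : Type) [Field L] [NumberField L] (κ : ℝ) (hκ : 0 < κ) (y₀ : ℝ)
    (hy₀ : ∀ y : ℝ, y₀ ≤ y → (1 - 1 / 10) * κ * y ≤ idc L y ∧
      (idc L y : ℝ) ≤ (1 + 1 / 10) * κ * y) (x : ℝ) (hx : 4 * y₀ ≤ x) (hx16 : 16 ≤ x) :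
    3 / 10 * κ * x * Real.log x ≤
      ∑ I ∈ (idC_fin L x).toFinset, Real.log (Ideal.absNorm I) := by
  classical
  set S := (idC_fin L x).toFinset with hS
  set S' := (idC_fin L (x / 4)).toFinset with hS'
  have hx0 : 0 < x := by linarith
  have hsub : S' ⊆ S := by
    intro I hI
    rw [hS', Set.Finite.mem_toFinset] at hI
    rw [hS, Set.Finite.mem_toFinset]
    exact ⟨hI.1, hI.2.trans (by linarith)⟩
  have h1 := (hy₀ x (by linarith)).1
  have h2 := (hy₀ (x / 4) (by linarith)).2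
  rw [idC_card] at h1 h2
  have h3 : ((S \ S').card : ℝ) = (S.card : ℝ) - S'.card := by
    have := Finset.card_sdiff_add_card_eq_card hsub
    have h4 : ((S \ S').card : ℝ) + S'.card = S.card := by exact_mod_cast this
    linarith
  have h5 : 6 / 10 * κ * x ≤ ((S \ S').card : ℝ) := by
    rw [h3]
    have h6 : 0 < κ * x := mul_pos hκ hx0
    nlinarith
  have hlog4 : 1 / 2 * Real.log x ≤ Real.log (x / 4) := by
    rw [Real.log_div hx0.ne' (by norm_num)]
    have h7 : Real.log 16 ≤ Real.log x := Real.log_le_log (by norm_num) hx16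
    have h8 : Real.log 16 = 2 * Real.log 4 := by
      rw [show (16 : ℝ) = 4 ^ 2 by norm_num, Real.log_pow]
      norm_num
    linarith
  have hlx : 0 ≤ Real.log x := Real.log_nonneg (by linarith)
  calc 3 / 10 * κ * x * Real.log x = 6 / 10 * κ * x * (1 / 2 * Real.log x) := by ring
    _ ≤ ((S \ S').card : ℝ) * (1 / 2 * Real.log x) :=
        mul_le_mul_of_nonneg_right h5 (by linarith)
    _ = ∑ I ∈ S \ S', (1 / 2 * Real.log x) := by
        rw [Finset.sum_const, nsmul_eq_mul]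
    _ ≤ ∑ I ∈ S \ S', Real.log (Ideal.absNorm I) := by
        refine Finset.sum_le_sum fun I hI => ?_
        rw [Finset.mem_sdiff, hS, hS', Set.Finite.mem_toFinset, Set.Finite.mem_toFinset] at hI
        have h9 : x / 4 < Ideal.absNorm I := by
          by_contra hcon
          exact hI.2 ⟨hI.1.1, not_lt.1 hcon⟩
        exact hlog4.trans (Real.log_le_log (by linarith) h9.le)
    _ ≤ ∑ I ∈ S, Real.log (Ideal.absNorm I) :=
        Finset.sum_le_sum_of_subset_of_nonneg Finset.sdiff_subset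
          fun I _ _ => Real.log_natCast_nonneg _

open Classical in
theorem deg_one_lower (L : Type) [Field L] [NumberField L] : ∃ δ C : ℝ, 0 < δ ∧
    ∀ x : ℕ, 3 ≤ x → δ * Real.log (Real.log x) - C ≤
      ∑ p ∈ (PL x).filter (fun p => Nonempty (𝓞 L →+* ZMod p)), (1 : ℝ) / p := by
  obtain ⟨κ, hκ, heps⟩ := idc_eps L
  obtain ⟨y₀, hy1, hy₀⟩ := heps (1 / 10) (by norm_num) (by norm_num)
  obtain ⟨C, hC0, hC⟩ := idc_le L
  obtain ⟨D, hD0, hD⟩ := d1_sq
  set n : ℝ := ((Module.finrank ℤ (𝓞 L) : ℕ) : ℝ) with hn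
  have hn0 : 0 < n := by
    rw [hn, Nat.cast_pos]
    exact Module.finrank_pos
  set K : ℝ := 3 / 10 * κ / (C * n) with hK
  have hK0 : 0 < K := by positivity
  set X : ℝ := max (4 * y₀) 16 with hX
  have hX16 : 16 ≤ X := le_max_right _ _
  set C₂ : ℝ := 4 * D + K * Real.log X with hC₂
  have hlX : 0 ≤ Real.log X := Real.log_nonneg (by linarith)
  set a : ℕ → ℝ := fun p => if Nonempty (𝓞 L →+* ZMod p) then 1 else 0 with ha
  have hsum : ∀ (x : ℕ) (w : ℕ → ℝ), ∑ p ∈ PL x, a p * w p =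
      ∑ p ∈ (PL x).filter (fun p => Nonempty (𝓞 L →+* ZMod p)), w p := by
    intro x w
    rw [Finset.sum_filter]
    refine Finset.sum_congr rfl fun p _ => ?_
    rw [ha]
    dsimp only
    split_ifs
    · rw [one_mul]
    · rw [zero_mul]
  have hmain : ∀ x : ℕ, 1 ≤ x → K * Real.log x - C₂ ≤ ∑ p ∈ PL x, a p * (Real.log p / p) := by
    intro x hx
    have hx0 : (0 : ℝ) < x := by exact_mod_cast (by omega : 0 < x)
    rw [hsum]
    have hnn : 0 ≤ ∑ p ∈ (PL x).filter (fun p => Nonempty (𝓞 L →+* ZMod p)),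
        Real.log p / p :=
      Finset.sum_nonneg fun p _ => div_nonneg (Real.log_natCast_nonneg _) (Nat.cast_nonneg _)
    rcases le_or_gt X x with h | h
    · have h1 := d1_lower L κ hκ y₀ hy₀ (x : ℝ) ((le_max_left _ _).trans h) (hX16.trans h)
      have h2 := d1_upper L C hC0 hC D hD x hx
      have h3 := h1.trans h2
      rw [← hn] at h3
      set T := ∑ p ∈ (PL x).filter (fun p => Nonempty (𝓞 L →+* ZMod p)), Real.log p / p with hT
      have h4 : (C * n * x) * (K * Real.log x) ≤ (C * n * x) * (T + 4 * D) := by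
        have h5 : (C * n * x) * (K * Real.log x) = 3 / 10 * κ * x * Real.log x := by
          rw [hK]
          field_simp
        rw [h5]
        refine h3.trans (le_of_eq ?_)
        ring
      have h6 := le_of_mul_le_mul_left h4 (by positivity)
      have h7 : 0 ≤ K * Real.log X := mul_nonneg hK0.le hlX
      linarith
    · have h1 : Real.log x ≤ Real.log X := Real.log_le_log hx0 h.le
      have h2 : K * Real.log x ≤ K * Real.log X := mul_le_mul_of_nonneg_left h1 hK0.le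
      linarith
  obtain ⟨C', hC'⟩ := part_lower a K C₂ hK0.le hmain
  refine ⟨K, C', hK0, fun x hx => ?_⟩
  refine (hC' x hx).trans (le_of_eq ?_)
  have h1 : ∑ p ∈ PL x, a p / p = ∑ p ∈ PL x, a p * (1 / (p : ℝ)) :=
    Finset.sum_congr rfl fun p _ => by ring
  rw [h1, hsum]

end Pool.Agent.Helper38.TW
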