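import Mathlib
import Pool.Agent.Helper38.TW.FDefs
import Pool.Agent.Helper38.TW.RootHom

/-!
# TW-F5: the field L

Let `S ⊆ ℚ̄` (`AlgebraicClosure ℚ`) be the finite set of all roots `θ` of all `g_i` and all `s` with `s² = τ_k g_k(θ)`, `θ` a root of some `g_i`, `k` arbitrary. `L = ℚ(S)` (`IntermediateField.adjoin ℚ S`, finite-dimensional because `S` is finite and its elements are algebraic), a number field. (Any number field
in which all `g_i` split and all `τ_k g_k(θ)` are squares does.)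
Let `b₁ ∈ ℕ` be divisible by `B` and by nonzero integers `R_i` with `u g_i + v g_i' = R_i` (`g_i` irreducible over `ℚ`, hence separable, `u, v ∈ ℤ[X]`, clear denominators). Let `p ∤ b₁` be a prime and `ψ : 𝓞_L → ZMod p` a ring hom. Let `a` be the leading coefficient of `g_i` (`a ∣ B`), `θ_1, .., θ_d ∈ L` its roots;
`a θ_j ∈ 𝓞_L` (integral; e.g. `IsIntegral` of leadingCoeff times a root: `isIntegral_leadingCoeff_smul`), `ρ_j = ψ(a θ_j)/a`. From `a^{d-1} g_i(X) = ∏ (a X - a θ_j)` in `𝓞_L[X]` (true in `L[X]`; injectivity), applying `ψ`: `a^{d-1} g_i(X) = ∏ (a X - a ρ_j)` in `ZMod p[X]`: `g_i` splits mod `p` with roots `ρ_j`;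
it is separable mod `p` (`R_i` is a unit mod `p`) and has degree `d` mod `p`, so it has exactly `d` roots: `rootsMod (g_i) p = natDegree (g_i)`.
Let `p ∣ g_i(x)`, so `x ≡ ρ_j` for some `j`; `k ≠ i` (any `k`), `e = natDegree g_k`: `w = a^e s ∈ L`, `s² = τ_k g_k(θ_j)`, satisfies `w² = a^{2e} τ_k g_k(θ_j) = τ_k a^e ∑_l (g_k)_l a^{e-l} (a θ_j)^l ∈ 𝓞_L`, so `w ∈ 𝓞_L` (integral), and `ψ(w)² = τ_k a^e ∑_l (g_k)_l a^{e-l} (a ρ_j)^l = a^{2e} τ_k g_k(ρ_j)` in `ZMod p`.
So `τ_k g_k(x)` is a square mod `p` (`a` invertible), hence its Legendre symbol is not `-1` (`jacobiSym` at a prime is `legendreSym`: `jacobiSym.legendreSym.to_jacobiSym`).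
-/

set_option autoImplicit false

namespace Pool.Agent.Helper38.TW

open Finset Polynomial NumberField

variable {f : ℤ[X]} {ι : Type} [Fintype ι] [DecidableEq ι]

section core

private theorem bezout (g : ℤ[X]) (hg : Irreducible (g.map (Int.castRingHom ℚ))) :
    ∃ (R : ℤ) (u v : ℤ[X]), R ≠ 0 ∧ u * g + v * derivative g = C R := by
  have hinj : Function.Injective (Int.castRingHom ℚ) := Int.cast_injective
  obtain ⟨a, b, hab⟩ := hg.separable
  obtain ⟨m, hm0, hm⟩ := IsLocalization.integerNormalization_spec (nonZeroDivisors ℤ) a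
  obtain ⟨n, hn0, hn⟩ := IsLocalization.integerNormalization_spec (nonZeroDivisors ℤ) b
  rw [algebraMap_int_eq] at hm hn
  refine ⟨m * n, C n * IsLocalization.integerNormalization (nonZeroDivisors ℤ) a,
    C m * IsLocalization.integerNormalization (nonZeroDivisors ℤ) b,
    mul_ne_zero (nonZeroDivisors.ne_zero hm0) (nonZeroDivisors.ne_zero hn0), ?_⟩
  apply Polynomial.map_injective _ hinj
  rw [Polynomial.map_add, Polynomial.map_mul, Polynomial.map_mul, Polynomial.map_mul,
    Polynomial.map_mul, hm, hn, ← derivative_map, map_C, map_C, map_C]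
  have e1 : m • a = C ((Int.castRingHom ℚ) m) * a := by
    rw [← Int.cast_smul_eq_zsmul ℚ, Polynomial.smul_eq_C_mul]
    rfl
  have e2 : n • b = C ((Int.castRingHom ℚ) n) * b := by
    rw [← Int.cast_smul_eq_zsmul ℚ, Polynomial.smul_eq_C_mul]
    rfl
  rw [e1, e2, map_mul, C_mul]
  linear_combination (C ((Int.castRingHom ℚ) m) * C ((Int.castRingHom ℚ) n)) * hab

variable {L : Type} [Field L] [NumberField L]

private theorem prod_exists (g : ℤ[X]) (hsp : (g.map (algebraMap ℤ L)).Splits) :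
    ∃ (A : L → 𝓞 L), (∀ θ : L, aeval θ g = 0 →
      algebraMap (𝓞 L) L (A θ) = (g.leadingCoeff : L) * θ) ∧
      C ((Int.castRingHom (𝓞 L)) g.leadingCoeff) *
        (((g.map (algebraMap ℤ L)).roots.map (fun θ =>
          C ((Int.castRingHom (𝓞 L)) g.leadingCoeff) * X - C (A θ))).prod) =
      C ((Int.castRingHom (𝓞 L)) g.leadingCoeff) ^ (g.map (algebraMap ℤ L)).roots.card *
        g.map (Int.castRingHom (𝓞 L)) := by
  classical
  have hex : ∀ θ : L, aeval θ g = 0 →
      ∃ α : 𝓞 L, algebraMap (𝓞 L) L α = (g.leadingCoeff : L) * θ := by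
    intro θ hθ
    have h := isIntegral_leadingCoeff_smul g θ hθ
    rw [zsmul_eq_mul] at h
    exact ⟨⟨_, h⟩, rfl⟩
  choose! A hA using hex
  refine ⟨A, hA, ?_⟩
  by_cases hg0 : g = 0
  · subst hg0
    simp
  have hmap0 : g.map (algebraMap ℤ L) ≠ 0 := by
    rw [Ne, Polynomial.map_eq_zero_iff (FaithfulSMul.algebraMap_injective ℤ L)]
    exact hg0
  apply Polynomial.map_injective (algebraMap (𝓞 L) L) (RingOfIntegers.coe_injective)
  have hcast : (algebraMap (𝓞 L) L).comp (Int.castRingHom (𝓞 L)) = algebraMap ℤ L :=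
    RingHom.ext_int _ _
  have hlc : algebraMap (𝓞 L) L ((Int.castRingHom (𝓞 L)) g.leadingCoeff) =
      (g.leadingCoeff : L) := by simp
  rw [Polynomial.map_mul, Polynomial.map_mul, Polynomial.map_pow, map_C, Polynomial.map_map,
    hcast, hlc, Polynomial.map_multiset_prod, Multiset.map_map]
  have h1 : (g.map (algebraMap ℤ L)).roots.map
      (Polynomial.map (algebraMap (𝓞 L) L) ∘ fun θ =>
        C ((Int.castRingHom (𝓞 L)) g.leadingCoeff) * X - C (A θ)) =
      (g.map (algebraMap ℤ L)).roots.map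
        (fun θ => C (g.leadingCoeff : L) * (X - C θ)) := by
    apply Multiset.map_congr rfl
    intro θ hθ
    have hθ' : aeval θ g = 0 := by
      rw [mem_roots hmap0, IsRoot.def, eval_map_algebraMap] at hθ
      exact hθ
    rw [Function.comp_apply, Polynomial.map_sub, Polynomial.map_mul, map_C, map_X,
      map_C, hlc, hA θ hθ', C_mul]
    ring
  rw [h1, Multiset.prod_map_mul, Multiset.map_const', Multiset.prod_replicate]
  have h3 := hsp.eq_prod_roots
  have h2 : (g.map (algebraMap ℤ L)).leadingCoeff = (g.leadingCoeff : L) := by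
    rw [leadingCoeff_map_of_injective (FaithfulSMul.algebraMap_injective ℤ L)]
    simp
  rw [h2] at h3
  linear_combination (-(C (g.leadingCoeff : L) ^ (g.map (algebraMap ℤ L)).roots.card)) * h3

private theorem local_part (g : ℤ[X]) (hsp : (g.map (algebraMap ℤ L)).Splits)
    (R : ℤ) (u v : ℤ[X]) (huv : u * g + v * derivative g = C R) (p : ℕ) (hp : p.Prime)
    (hpR : ¬ (p : ℤ) ∣ R) (hpa : ¬ (p : ℤ) ∣ g.leadingCoeff) (ψ : 𝓞 L →+* ZMod p) :
    rootsMod g p = g.natDegree ∧
    ∀ x : ℤ, (p : ℤ) ∣ g.eval x → ∃ (θ : L) (α : 𝓞 L), aeval θ g = 0 ∧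
      algebraMap (𝓞 L) L α = (g.leadingCoeff : L) * θ ∧ ψ α = (g.leadingCoeff : ZMod p) * x := by
  classical
  have hpf : Fact p.Prime := ⟨hp⟩
  obtain ⟨A, hA, hP⟩ := prod_exists (L := L) g hsp
  have hg0 : g ≠ 0 := by
    rintro rfl
    simp at hpa
  have hmap0 : g.map (algebraMap ℤ L) ≠ 0 := by
    rw [Ne, Polynomial.map_eq_zero_iff (FaithfulSMul.algebraMap_injective ℤ L)]
    exact hg0
  have ha : (g.leadingCoeff : ZMod p) ≠ 0 := by
    rw [Ne, ZMod.intCast_zmod_eq_zero_iff_dvd]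
    exact hpa
  have hR : (R : ZMod p) ≠ 0 := by
    rw [Ne, ZMod.intCast_zmod_eq_zero_iff_dvd]
    exact hpR
  have hcast : ψ.comp (Int.castRingHom (𝓞 L)) = Int.castRingHom (ZMod p) := RingHom.ext_int _ _
  have hlc : ψ ((Int.castRingHom (𝓞 L)) g.leadingCoeff) = (g.leadingCoeff : ZMod p) := by simp
  have hP2 := congrArg (Polynomial.map ψ) hP
  rw [Polynomial.map_mul, Polynomial.map_mul, Polynomial.map_pow, map_C, Polynomial.map_map,
      hcast, hlc, Polynomial.map_multiset_prod, Multiset.map_map] at hP2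
  set G := g.map (Int.castRingHom (ZMod p)) with hG
  have hlead : G.leadingCoeff = (g.leadingCoeff : ZMod p) := by
    rw [hG, leadingCoeff_map_of_leadingCoeff_ne_zero _ (by simpa using ha)]
    simp
  have hdeg : G.natDegree = g.natDegree := by
    rw [hG, natDegree_map_of_leadingCoeff_ne_zero _ (by simpa using ha)]
  have hG0 : G ≠ 0 := by
    intro h
    rw [h, leadingCoeff_zero] at hlead
    exact ha hlead.symm
  have hsplit : G.Splits := by
    have h1 : (C (g.leadingCoeff : ZMod p) ^ (g.map (algebraMap ℤ L)).roots.card * G).Splits := by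
      rw [← hP2]
      apply Splits.mul (Splits.C _)
      apply Splits.multisetProd
      intro f hf
      obtain ⟨θ, -, rfl⟩ := Multiset.mem_map.1 hf
      rw [Function.comp_apply, Polynomial.map_sub, Polynomial.map_mul, map_C, map_X, map_C]
      apply Splits.of_natDegree_le_one
      compute_degree
    exact h1.of_dvd (mul_ne_zero (pow_ne_zero _ (C_ne_zero.2 ha)) hG0) (Dvd.intro_left _ rfl)
  have hsep : G.Separable := by
    have h1 := congrArg (Polynomial.map (Int.castRingHom (ZMod p))) huv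
    rw [Polynomial.map_add, Polynomial.map_mul, Polynomial.map_mul, ← derivative_map, map_C,
      ← hG] at h1
    refine ⟨C (R : ZMod p)⁻¹ * u.map (Int.castRingHom (ZMod p)),
      C (R : ZMod p)⁻¹ * v.map (Int.castRingHom (ZMod p)), ?_⟩
    have h2 : C (R : ZMod p)⁻¹ * C ((Int.castRingHom (ZMod p)) R) = 1 := by
      rw [← C_mul, eq_intCast, inv_mul_cancel₀ hR, C_1]
    rw [← h2, ← h1]
    ring
  refine ⟨?_, ?_⟩
  · have h1 : {x : ZMod p | (g.map (Int.castRingHom (ZMod p))).eval x = 0} =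
        (G.roots.toFinset : Set (ZMod p)) := by
      ext x
      rw [Set.mem_ofPred_eq, Finset.mem_coe, Multiset.mem_toFinset, mem_roots hG0, IsRoot.def]
    rw [rootsMod, h1, Set.ncard_coe_finset, Multiset.toFinset_card_of_nodup (nodup_roots hsep),
      ← hsplit.natDegree_eq_card_roots, hdeg]
  · intro x hx
    have hx0 : G.eval (x : ZMod p) = 0 := by
      rw [hG, eval_intCast_map, eq_intCast, ZMod.intCast_zmod_eq_zero_iff_dvd]
      exact hx
    have h1 := congrArg (Polynomial.eval (x : ZMod p)) hP2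
    rw [eval_mul, eval_mul, hx0, mul_zero, eval_C, mul_eq_zero, or_iff_right ha,
      eval_multiset_prod, Multiset.map_map, Multiset.prod_eq_zero_iff, Multiset.mem_map] at h1
    obtain ⟨θ, hθ, h2⟩ := h1
    have hθ' : aeval θ g = 0 := by
      rw [mem_roots hmap0, IsRoot.def, eval_map_algebraMap] at hθ
      exact hθ
    refine ⟨θ, A θ, hθ', hA θ hθ', ?_⟩
    simp only [Function.comp_apply, Polynomial.map_sub, Polynomial.map_mul, map_C, map_X,
      eval_sub, eval_mul, eval_C, eval_X, hlc] at h2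
    rw [sub_eq_zero] at h2
    exact h2.symm

omit [NumberField L] in
private theorem square_part (g g' : ℤ[X]) (t : ℤ) (p : ℕ) (hp : p.Prime)
    (hpa : ¬ (p : ℤ) ∣ g.leadingCoeff) (ψ : 𝓞 L →+* ZMod p) (x : ℤ) (θ : L) (α : 𝓞 L)
    (hα : algebraMap (𝓞 L) L α = (g.leadingCoeff : L) * θ) (hψ : ψ α = (g.leadingCoeff : ZMod p) * x)
    (s : L) (hs : s ^ 2 = (t : L) * aeval θ g') :
    jacobiSym (t * g'.eval x) p ≠ -1 := by
  have hpf : Fact p.Prime := ⟨hp⟩
  have ha : (g.leadingCoeff : ZMod p) ≠ 0 := by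
    rw [Ne, ZMod.intCast_zmod_eq_zero_iff_dvd]
    exact hpa
  set a := g.leadingCoeff with haa
  set e := g'.natDegree with he
  -- the integral element
  have hw2 : ((a : L) ^ e * s) ^ 2 =
      algebraMap (𝓞 L) L ((t : 𝓞 L) * (a : 𝓞 L) ^ e * aeval α (scaleRoots g' a)) := by
    have h1 : algebraMap (𝓞 L) L (aeval α (scaleRoots g' a)) = (a : L) ^ e * aeval θ g' := by
      have h2 := scaleRoots_eval₂_mul (p := g') (algebraMap ℤ L) θ a
      rw [← aeval_def, ← aeval_def, eq_intCast, ← hα] at h2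
      rw [← h2]
      exact (aeval_algebraMap_apply L α _).symm
    rw [map_mul, map_mul, map_pow, map_intCast, map_intCast, h1, mul_pow, hs]
    ring
  have hwi : IsIntegral ℤ ((a : L) ^ e * s) := by
    apply IsIntegral.of_pow (n := 2) (by norm_num)
    rw [hw2]
    exact RingOfIntegers.isIntegral_coe _
  obtain ⟨w, hw⟩ : ∃ w : 𝓞 L, algebraMap (𝓞 L) L w = (a : L) ^ e * s := ⟨⟨_, hwi⟩, rfl⟩
  have hw3 : w ^ 2 = (t : 𝓞 L) * (a : 𝓞 L) ^ e * aeval α (scaleRoots g' a) := by
    apply RingOfIntegers.coe_injective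
    rw [map_pow]
    exact (congrArg (· ^ 2) hw).trans hw2
  have h4 := congrArg ψ hw3
  have h5 : ψ (aeval α (scaleRoots g' a)) = (a : ZMod p) ^ e * ((g'.eval x : ℤ) : ZMod p) := by
    have h6 := scaleRoots_eval₂_mul (p := g') (Int.castRingHom (ZMod p)) (x : ZMod p) a
    rw [eq_intCast, ← hψ] at h6
    have h7 : eval₂ (Int.castRingHom (ZMod p)) (x : ZMod p) g' = ((g'.eval x : ℤ) : ZMod p) := by
      rw [← eval_map, eval_intCast_map, eq_intCast]
      simp
    rw [h7] at h6
    rw [← h6, aeval_def, hom_eval₂]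
    congr 1
    exact RingHom.ext_int _ _
  rw [map_pow, map_mul, map_mul, map_pow, map_intCast, map_intCast, h5] at h4
  intro hj
  rw [← jacobiSym.legendreSym.to_jacobiSym, legendreSym.eq_neg_one_iff] at hj
  apply hj
  refine ⟨ψ w / (a : ZMod p) ^ e, ?_⟩
  have hae : (a : ZMod p) ^ e ≠ 0 := pow_ne_zero _ ha
  push_cast
  field_simp
  rw [h4]
  ring

end core

private theorem map_aeval_int {A B : Type} [CommRing A] [CommRing B] (φ : A →+* B) (θ : A)
    (g : ℤ[X]) : φ (aeval θ g) = aeval (φ θ) g := by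
  rw [aeval_def, aeval_def, hom_eval₂]
  congr 1
  exact RingHom.ext_int _ _

private theorem splitting_aux {W : Type} [Field W] [Algebra ℚ W] [IsAlgClosed W] [CharZero W]
    (hW : ∀ x : W, IsIntegral ℚ x) (g : ι → ℤ[X]) (hg0 : ∀ i, g i ≠ 0) (τ : ι → ℤ) :
    ∃ (L : Type) (_ : Field L) (_ : NumberField L),
      (∀ i, ((g i).map (algebraMap ℤ L)).Splits) ∧
      ∀ i (θ : L), aeval θ (g i) = 0 → ∀ k, ∃ s : L,
        s ^ 2 = (τ k : L) * aeval θ (g k) := by
  classical
  obtain ⟨T, hTd⟩ : ∃ T : Set W, T = ⋃ i, {θ | aeval θ (g i) = 0} := ⟨_, rfl⟩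
  have hT : T.Finite := by
    rw [hTd]
    apply Set.finite_iUnion
    intro i
    apply ((g i).map (algebraMap ℤ W)).roots.toFinset.finite_toSet.subset
    intro θ hθ
    have h0 : (g i).map (algebraMap ℤ W) ≠ 0 := by
      rw [Ne, Polynomial.map_eq_zero_iff (FaithfulSMul.algebraMap_injective ℤ W)]
      exact hg0 i
    rw [Finset.mem_coe, Multiset.mem_toFinset, mem_roots h0, IsRoot.def, eval_map_algebraMap]
    exact hθ
  obtain ⟨S, hSd⟩ : ∃ S : Set W,
      S = T ∪ ⋃ k, ⋃ θ ∈ T, {s | s ^ 2 = (τ k : W) * aeval θ (g k)} := ⟨_, rfl⟩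
  have hS : S.Finite := by
    rw [hSd]
    apply hT.union
    apply Set.finite_iUnion
    intro k
    apply hT.biUnion
    intro θ _
    apply (X ^ 2 - C ((τ k : W) * aeval θ (g k)) : W[X]).roots.toFinset.finite_toSet.subset
    intro s hs
    have h0 : (X ^ 2 - C ((τ k : W) * aeval θ (g k)) : W[X]) ≠ 0 :=
      X_pow_sub_C_ne_zero (by norm_num) _
    rw [Finset.mem_coe, Multiset.mem_toFinset, mem_roots h0, IsRoot.def, eval_sub, eval_pow,
      eval_X, eval_C, sub_eq_zero]
    exact hs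
  have hSf : Finite S := hS
  obtain ⟨F, hFd⟩ : ∃ F : IntermediateField ℚ W, F = IntermediateField.adjoin ℚ S := ⟨_, rfl⟩
  have hfin : FiniteDimensional ℚ F := by
    rw [hFd]
    exact IntermediateField.finiteDimensional_adjoin (fun x _ => hW x)
  have hSF : ∀ x ∈ S, x ∈ F := fun x hx => by
    rw [hFd]
    exact IntermediateField.subset_adjoin ℚ S hx
  have hnf : NumberField F :=
    { to_charZero := inferInstance
      to_finiteDimensional := by
        convert hfin
        exact Subsingleton.elim _ _ }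
  refine ⟨F, inferInstance, hnf, ?_, ?_⟩
  · intro i
    have h1 : (((g i).map (algebraMap ℤ ℚ)).map
        (@algebraMap ℚ F _ _ (IntermediateField.algebra' F))).Splits := by
      apply IntermediateField.splits_of_splits (IsAlgClosed.splits _)
      intro x hx
      apply hSF
      rw [hSd]
      left
      rw [hTd]
      refine Set.mem_iUnion.2 ⟨i, ?_⟩
      have h2 := (mem_rootSet.1 hx).2
      rwa [aeval_map_algebraMap] at h2
    rw [Polynomial.map_map] at h1
    convert h1 using 2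
    exact RingHom.ext_int _ _
  · intro i θ hθ k
    have hcoe : ∀ g : ℤ[X], aeval (algebraMap F W θ) g = algebraMap F W (aeval θ g) :=
      fun g => (map_aeval_int (algebraMap F W) θ g).symm
    have hT1 : algebraMap F W θ ∈ T := by
      rw [hTd]
      refine Set.mem_iUnion.2 ⟨i, ?_⟩
      change aeval (algebraMap F W θ) (g i) = 0
      rw [← map_zero (algebraMap F W), ← hθ]
      exact (map_aeval_int (algebraMap F W) θ (g i)).symm
    obtain ⟨s, hs⟩ := IsAlgClosed.exists_pow_nat_eq ((τ k : W) * aeval (algebraMap F W θ) (g k))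
      (show 0 < 2 by norm_num)
    have hsS : s ∈ S := by
      rw [hSd]
      right
      refine Set.mem_iUnion.2 ⟨k, Set.mem_iUnion₂.2 ⟨_, hT1, hs⟩⟩
    refine ⟨⟨s, hSF s hsS⟩, ?_⟩
    apply FaithfulSMul.algebraMap_injective F W
    rw [map_pow, map_mul, map_intCast, map_aeval_int (algebraMap F W) θ (g k)]
    exact hs

private theorem splitting_field (dt : FData f ι) (τ : ι → ℤ) :
    ∃ (L : Type) (_ : Field L) (_ : NumberField L),
      (∀ i, ((dt.g i).map (algebraMap ℤ L)).Splits) ∧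
      ∀ i (θ : L), aeval θ (dt.g i) = 0 → ∀ k, ∃ s : L,
        s ^ 2 = (τ k : L) * aeval θ (dt.g k) := by
  refine splitting_aux (W := AlgebraicClosure ℚ) ?_ dt.g ?_ τ
  · intro x
    have h1 : IsAlgebraic ℚ x := (AlgebraicClosure.isAlgebraic ℚ).isAlgebraic x
    convert h1.isIntegral
  intro i h
  have h1 := dt.irr i
  rw [h, Polynomial.map_zero] at h1
  exact h1.ne_zero rfl

theorem field_L (dt : FData f ι) (τ : ι → ℤ) :
    ∃ (L : Type) (_ : Field L) (_ : NumberField L) (b₁ : ℕ), b₁ ≠ 0 ∧ dt.B ∣ b₁ ∧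
      ∀ p : ℕ, p.Prime → ¬ p ∣ b₁ → Nonempty (𝓞 L →+* ZMod p) →
        ∀ i, rootsMod (dt.g i) p = (dt.g i).natDegree ∧
          ∀ x : ℤ, (p : ℤ) ∣ (dt.g i).eval x → ∀ k, k ≠ i →
            jacobiSym (τ k * (dt.g k).eval x) p ≠ -1 := by
  obtain ⟨L, i1, i2, hsp, hsq⟩ := splitting_field dt τ
  choose R u v hR huv using fun i => bezout (dt.g i) (dt.irr i)
  refine ⟨L, i1, i2, dt.B * ∏ i, (R i).natAbs, ?_, Dvd.intro _ rfl, ?_⟩
  · exact mul_ne_zero dt.B_ne (Finset.prod_ne_zero_iff.2 fun i _ => Int.natAbs_ne_zero.2 (hR i))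
  intro p hp hpb hψ i
  obtain ⟨ψ⟩ := hψ
  have hpR : ¬ (p : ℤ) ∣ R i := by
    intro h
    apply hpb
    apply Dvd.dvd.mul_left
    exact (Int.natCast_dvd.1 h).trans (Finset.dvd_prod_of_mem _ (Finset.mem_univ i))
  have hpa : ¬ (p : ℤ) ∣ (dt.g i).leadingCoeff := by
    intro h
    apply hpb
    apply Dvd.dvd.mul_right
    exact Int.natCast_dvd_natCast.1 (h.trans (dt.lead_dvd i))
  obtain ⟨h1, h2⟩ := local_part (dt.g i) (hsp i) (R i) (u i) (v i) (huv i) p hp hpR hpa ψ
  refine ⟨h1, ?_⟩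
  intro x hx k _
  obtain ⟨θ, α, hθ, hα, hψα⟩ := h2 x hx
  obtain ⟨s, hs⟩ := hsq i θ hθ k
  exact square_part (dt.g i) (dt.g k) (τ k) p hp hpa ψ x θ α hα hψα s hs

end Pool.Agent.Helper38.TW
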