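import Mathlib

/-!
# TW-D1: the character `n ↦ (κ q / n)` on odd numbers has bounded partial sums

`chi t n = (t / n)` (Jacobi symbol) for odd `n`, `0` for even `n`. For `t = κ q`, `κ ≠ 0`, `q > 1` odd squarefree and coprime to `κ`: `|∑_{n ≤ N} chi t n| ≤ 4 |κ| q =: Q`.
(1) `chi t` is completely multiplicative with values in `{0, 1, -1}` (`jacobiSym.mul_right`, `Nat.odd_mul`).
(2) period `Q = 4 |t|`: `jacobiSym.mod_right` (`J(a | b) = J(a | b % (4 * a.natAbs))` for odd `b`), and oddness is preserved (`Q` is even).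
(3) there is an odd `s` with `(t/s) = -1`: let `p` be a prime factor of `q`, `q = p q₁`; `p` is odd and coprime to `8 κ q₁`. By CRT choose `s ≡ 1 mod 8 |κ| q₁` and `s ≡` a nonresidue mod `p`. Then `(κ q₁ / s) = (κ q₁ / 1) = 1` by
    `jacobiSym.mod_right` (`s ≡ 1 mod 4 |κ q₁|`), and `(p/s) = (s/p) = -1` by reciprocity (`s ≡ 1 mod 4`: `jacobiSym.quadratic_reciprocity_one_mod_four`), so `(t/s) = -1`.
(4) `s` is coprime to `Q` (as `(t/s) ≠ 0` and `s` odd), so `n ↦ s n` permutes the residues mod `Q`, hence the sum over a full period is `Σ = ∑ chi(s n) = -Σ`, `Σ = 0`.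
(5) `∑_{n ≤ N}` = full periods + fewer than `Q` terms of absolute value `≤ 1`.
-/

set_option autoImplicit false

namespace Pool.Agent.Helper38.TW

open Finset

/-- the character `n ↦ (t / n)` on odd numbers -/
def chi (t : ℤ) (n : ℕ) : ℤ := if Odd n then jacobiSym t n else 0

theorem chi_mul (t : ℤ) (m n : ℕ) : chi t (m * n) = chi t m * chi t n := by
  unfold chi
  by_cases hm : Odd m
  · by_cases hn : Odd n
    · rw [if_pos (Nat.odd_mul.mpr ⟨hm, hn⟩), if_pos hm, if_pos hn]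
      have : NeZero m := ⟨hm.pos.ne'⟩
      have : NeZero n := ⟨hn.pos.ne'⟩
      exact jacobiSym.mul_right t m n
    · rw [if_neg (fun h => hn (Nat.odd_mul.mp h).2), if_neg hn, mul_zero]
  · rw [if_neg (fun h => hm (Nat.odd_mul.mp h).1), if_neg hm, zero_mul]

theorem chi_one (t : ℤ) : chi t 1 = 1 := by
  unfold chi
  rw [if_pos odd_one, jacobiSym.one_right]

theorem chi_val (t : ℤ) (n : ℕ) : chi t n = 0 ∨ chi t n = 1 ∨ chi t n = -1 := by
  unfold chi
  split_ifs
  · exact jacobiSym.trichotomy t n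
  · exact Or.inl rfl

private theorem chi_abs_le (t : ℤ) (n : ℕ) : |chi t n| ≤ 1 := by
  rcases chi_val t n with h | h | h <;> rw [h] <;> norm_num

private theorem chi_mod (t : ℤ) (n : ℕ) : chi t (n % (4 * t.natAbs)) = chi t n := by
  unfold chi
  have h2 : (2 : ℕ) ∣ 4 * t.natAbs := ⟨2 * t.natAbs, by ring⟩
  have hiff : Odd (n % (4 * t.natAbs)) ↔ Odd n := by
    rw [Nat.odd_iff, Nat.odd_iff, Nat.mod_mod_of_dvd _ h2]
  by_cases hn : Odd n
  · rw [if_pos hn, if_pos (hiff.mpr hn)]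
    exact (jacobiSym.mod_right t hn).symm
  · rw [if_neg hn, if_neg (fun h => hn (hiff.mp h))]

private theorem exists_s (κ : ℤ) (q : ℕ) (hκ : κ ≠ 0) (hq : 1 < q) (hodd : Odd q) (hsq : Squarefree q)
    (hcop : IsCoprime κ (q : ℤ)) : ∃ s : ℕ, Odd s ∧ jacobiSym (κ * q) s = -1 := by
  obtain ⟨p, hp, hpq⟩ := Nat.exists_prime_and_dvd (ne_of_gt hq)
  obtain ⟨q₁, rfl⟩ := hpq
  have hpodd : Odd p := (Nat.odd_mul.mp hodd).1
  have hp2 : p ≠ 2 := by
    rintro rfl
    exact (by decide : ¬ Odd 2) hpodd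
  have hq1 : ¬ p ∣ q₁ := by
    rintro ⟨r, rfl⟩
    have := hsq p ⟨r, by ring⟩
    exact hp.one_lt.ne' (Nat.isUnit_iff.mp this)
  have hq1pos : q₁ ≠ 0 := by
    rintro rfl
    simp at hq
  have hkp : ¬ p ∣ κ.natAbs := by
    intro h
    have h1 : (p : ℤ) ∣ κ := Int.natCast_dvd.mpr h
    have h2 : (p : ℤ) ∣ ((p * q₁ : ℕ) : ℤ) := by
      exact_mod_cast Dvd.intro q₁ rfl
    have h3 := hcop.isUnit_of_dvd' h1 h2
    rw [Int.isUnit_iff_natAbs_eq] at h3
    exact hp.one_lt.ne' (by simpa using h3)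
  have hcp : Nat.Coprime (8 * (κ.natAbs * q₁)) p := by
    apply Nat.Coprime.symm
    rw [Nat.Prime.coprime_iff_not_dvd hp]
    intro h
    rcases hp.dvd_mul.mp h with h | h
    · have h8 : (8 : ℕ) = 2 ^ 3 := by norm_num
      rw [h8] at h
      have := hp.dvd_of_dvd_pow h
      exact hp2 ((Nat.prime_dvd_prime_iff_eq hp Nat.prime_two).mp this)
    · rcases hp.dvd_mul.mp h with h | h
      · exact hkp h
      · exact hq1 h
  have : Fact p.Prime := ⟨hp⟩
  obtain ⟨a, ha⟩ := FiniteField.exists_nonsquare (F := ZMod p) (by rw [ZMod.ringChar_zmod_n]; exact hp2)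
  obtain ⟨s, hs1, hs2⟩ := Nat.chineseRemainder hcp 1 a.val
  have hs8 : s % 8 = 1 := by
    have := (hs1.of_dvd (Dvd.intro _ rfl : 8 ∣ 8 * (κ.natAbs * q₁)))
    simpa [Nat.ModEq] using this
  have hs4 : s % 4 = 1 := by omega
  have hsodd : Odd s := by
    rw [Nat.odd_iff]
    omega
  refine ⟨s, hsodd, ?_⟩
  have e1 : (κ * ((p * q₁ : ℕ) : ℤ)) = (κ * q₁) * (p : ℤ) := by
    push_cast
    ring
  rw [e1, jacobiSym.mul_left]
  have hna : (κ * (q₁ : ℤ)).natAbs = κ.natAbs * q₁ := by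
    rw [Int.natAbs_mul, Int.natAbs_natCast]
  have h1 : jacobiSym (κ * q₁) s = 1 := by
    rw [jacobiSym.mod_right _ hsodd, hna]
    have hM : 0 < κ.natAbs * q₁ := Nat.mul_pos (Int.natAbs_pos.mpr hκ) (Nat.pos_of_ne_zero hq1pos)
    have h4 : s % (4 * (κ.natAbs * q₁)) = 1 := by
      have h5 := hs1.of_dvd (⟨2, by ring⟩ : 4 * (κ.natAbs * q₁) ∣ 8 * (κ.natAbs * q₁))
      have h6 : s % (4 * (κ.natAbs * q₁)) = 1 % (4 * (κ.natAbs * q₁)) := h5
      rw [h6]
      exact Nat.mod_eq_of_lt (by omega)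
    rw [h4, jacobiSym.one_right]
  have h2 : jacobiSym (p : ℤ) s = -1 := by
    rw [← jacobiSym.quadratic_reciprocity_one_mod_four hs4 hpodd]
    rw [← jacobiSym.legendreSym.to_jacobiSym, legendreSym.eq_neg_one_iff]
    have hsa : ((s : ℤ) : ZMod p) = a := by
      have h7 : ((s : ℕ) : ZMod p) = ((a.val : ℕ) : ZMod p) := (ZMod.natCast_eq_natCast_iff _ _ _).mpr hs2
      rw [ZMod.natCast_val, ZMod.cast_id] at h7
      exact_mod_cast h7
    rw [hsa]
    exact ha
  rw [h1, h2, one_mul]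

private theorem sum_period (t : ℤ) (ht : t ≠ 0) (s : ℕ) (hsodd : Odd s) (hs : jacobiSym t s = -1) :
    ∑ n ∈ range (4 * t.natAbs), chi t n = 0 := by
  set Q := 4 * t.natAbs with hQ
  have hQpos : 0 < Q := by
    have := Int.natAbs_pos.mpr ht
    omega
  have : NeZero Q := ⟨hQpos.ne'⟩
  have : NeZero s := ⟨hsodd.pos.ne'⟩
  have hcop : Nat.Coprime s Q := by
    have h1 : Int.gcd t s = 1 := by
      by_contra hne
      have := (jacobiSym.eq_zero_iff_not_coprime (a := t) (b := s)).mpr hne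
      rw [this] at hs
      norm_num at hs
    have h2 : Nat.Coprime s t.natAbs := by
      have h3 : Nat.gcd t.natAbs s = 1 := by simpa [Int.gcd] using h1
      exact Nat.Coprime.symm h3
    have h3 : Nat.Coprime s 4 := by
      have h4 : (4 : ℕ) = 2 ^ 2 := by norm_num
      rw [h4]
      exact Nat.Coprime.pow_right 2 (Nat.coprime_two_right.mpr hsodd)
    exact Nat.Coprime.mul_right h3 h2
  have hchis : chi t s = -1 := by
    unfold chi
    rw [if_pos hsodd, hs]
  have key : ∑ n ∈ range Q, chi t n = ∑ n ∈ range Q, chi t (s * n % Q) := by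
    symm
    apply Finset.sum_nbij (fun n => s * n % Q)
    · intro n _
      exact Finset.mem_range.mpr (Nat.mod_lt _ hQpos)
    · intro a ha b hb hab
      have ha' := Finset.mem_range.mp (Finset.mem_coe.mp ha)
      have hb' := Finset.mem_range.mp (Finset.mem_coe.mp hb)
      have h1 : s * a ≡ s * b [MOD Q] := hab
      have h2 : a ≡ b [MOD Q] := Nat.ModEq.cancel_left_of_coprime hcop.symm h1
      exact Nat.ModEq.eq_of_lt_of_lt h2 ha' hb'
    · intro b hb
      have hb' := Finset.mem_range.mp (Finset.mem_coe.mp hb)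
      have hinj : Set.InjOn (fun n => s * n % Q) (range Q : Set ℕ) := by
        intro a ha b hb hab
        have ha' := Finset.mem_range.mp (Finset.mem_coe.mp ha)
        have hb' := Finset.mem_range.mp (Finset.mem_coe.mp hb)
        have h1 : s * a ≡ s * b [MOD Q] := hab
        have h2 : a ≡ b [MOD Q] := Nat.ModEq.cancel_left_of_coprime hcop.symm h1
        exact Nat.ModEq.eq_of_lt_of_lt h2 ha' hb'
      have hmaps : Set.MapsTo (fun n => s * n % Q) (range Q : Set ℕ) (range Q : Set ℕ) := by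
        intro n _
        exact Finset.mem_coe.mpr (Finset.mem_range.mpr (Nat.mod_lt _ hQpos))
      exact Finset.surjOn_of_injOn_of_card_le _ hmaps hinj le_rfl hb
    · intro n _
      rfl
  have key2 : ∑ n ∈ range Q, chi t (s * n % Q) = - ∑ n ∈ range Q, chi t n := by
    rw [← Finset.sum_neg_distrib]
    apply Finset.sum_congr rfl
    intro n _
    rw [hQ, chi_mod, chi_mul, hchis]
    ring
  have := key.trans key2
  linarith

theorem chi_sum_le (κ : ℤ) (q : ℕ) (hκ : κ ≠ 0) (hq : 1 < q) (hodd : Odd q) (hsq : Squarefree q)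
    (hcop : IsCoprime κ (q : ℤ)) (N : ℕ) :
    |∑ n ∈ Icc 1 N, chi (κ * q) n| ≤ 4 * |κ| * q := by
  obtain ⟨s, hsodd, hs⟩ := exists_s κ q hκ hq hodd hsq hcop
  have hq0 : (q : ℤ) ≠ 0 := by
    have : q ≠ 0 := by omega
    exact_mod_cast this
  have ht : κ * (q : ℤ) ≠ 0 := mul_ne_zero hκ hq0
  generalize hT : κ * (q : ℤ) = t at *
  have hper := sum_period t ht s hsodd hs
  set Q := 4 * t.natAbs with hQ
  have hQpos : 0 < Q := by
    have := Int.natAbs_pos.mpr ht
    omega
  have hQval : (Q : ℤ) = 4 * |κ| * q := by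
    rw [hQ]
    push_cast
    rw [← hT, abs_mul, abs_of_nonneg (Int.natCast_nonneg q)]
    ring
  have hstep : ∀ m : ℕ, ∑ n ∈ range (m + Q), chi t n = ∑ n ∈ range m, chi t n := by
    intro m
    induction m with
    | zero => simpa using hper
    | succ m ih =>
      rw [show m + 1 + Q = (m + Q) + 1 by ring, Finset.sum_range_succ, Finset.sum_range_succ, ih]
      congr 1
      rw [← chi_mod t (m + Q), ← chi_mod t m, ← hQ, Nat.add_mod_right]
  have hmul : ∀ k r : ℕ, ∑ n ∈ range (r + Q * k), chi t n = ∑ n ∈ range r, chi t n := by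
    intro k r
    induction k with
    | zero => simp
    | succ k ih =>
      rw [show r + Q * (k + 1) = (r + Q * k) + Q by ring, hstep, ih]
  have e0 : ∑ n ∈ Icc 1 N, chi t n = ∑ n ∈ range (N + 1), chi t n := by
    rw [Finset.sum_range_succ', Finset.range_eq_Ico, Finset.sum_Ico_add' (fun n => chi t n) 0 N 1]
    have : chi t 0 = 0 := by
      unfold chi
      rw [if_neg (by decide)]
    rw [this, add_zero]
    rfl
  have e1 : ∑ n ∈ range (N + 1), chi t n = ∑ n ∈ range ((N + 1) % Q), chi t n := by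
    have := hmul ((N + 1) / Q) ((N + 1) % Q)
    rw [Nat.mod_add_div] at this
    exact this
  rw [e0, e1]
  calc |∑ n ∈ range ((N + 1) % Q), chi t n| ≤ ∑ n ∈ range ((N + 1) % Q), |chi t n| := Finset.abs_sum_le_sum_abs _ _
    _ ≤ ∑ n ∈ range ((N + 1) % Q), (1 : ℤ) := Finset.sum_le_sum (fun n _ => chi_abs_le t n)
    _ = (((N + 1) % Q : ℕ) : ℤ) := by simp
    _ ≤ (Q : ℤ) := by exact_mod_cast (Nat.mod_lt _ hQpos).le
    _ = 4 * |κ| * q := hQval

end Pool.Agent.Helper38.TW
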