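import Mathlib
import Pool.Agent.Helper10.P5.Mert

/-!
# TW-D2: primes with `χ(p) = 1` for a real character with bounded partial sums

`a : ℕ → ℤ` completely multiplicative, values in `{0, 1, -1}`, `|∑_{n ≤ N} a n| ≤ Q` for all `N` (`Q ≥ 2`).
(1) `abel_char`: `σ ≥ 1`: `|∑_{n ≤ T} a n n^{-σ}| ≤ 3 + log Q`. The terms `n ≤ Q` give at most `∑_{n ≤ Q} 1/n ≤ 1 + log Q`; by Abel summation the terms `Q < n ≤ T` give at most `2Q (Q+1)^{-σ} ≤ 2`
    (the partial sums over `(Q, N]` are at most `2 Q` in absolute value; `n^{-σ}` is decreasing and `≥ 0`; `Finset.sum_Ioc_by_parts`, `Finset.sum_range_by_parts`, or induction).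
(2) `conv_upper`: `σ > 1`: `∑_{n ≤ N} (∑_{d ∣ n} a d) n^{-σ} = ∑_{k ≤ N} k^{-σ} ∑_{b ≤ N/k} a b b^{-σ} ≤ (1 + 1/(σ-1)) (3 + log Q)` (`∑_{k ≤ N} k^{-σ} ≤ 1 + 1/(σ-1)`: compare with the integral, `k^{-σ} ≤ ((k-1)^{1-σ} - k^{1-σ})/(σ-1)` for `k ≥ 2`).
(3) `euler_lower`: for a finite set `P` of primes with `a p = 1` there is `N` (`N = ∏_{p ∈ P} p`) with `∏_{p ∈ P} (1 + 2 p^{-σ}) ≤ ∑_{n ≤ N} (∑_{d ∣ n} a d) n^{-σ}`: `∑_{d ∣ n} a d ≥ 0` for all `n ≥ 1`
    (it is multiplicative in `n`: `Nat.Coprime.sum_divisors_mul`-like or by `ArithmeticFunction`; at a prime power `p^k` it is `∑_{j ≤ k} a(p)^j ≥ 0` because `a p ∈ {0, 1, -1}`), and for `n = ∏_{p ∈ S} p`, `S ⊆ P`, it is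
    `2^{|S|}` (all divisors `d` have `a d = 1`, `Nat.Coprime.card_divisors_mul` / `Nat.divisors` of a product of distinct primes); expand the product over `S ⊆ P` (`Finset.prod_one_add`, injectivity of `S ↦ ∏ S`).
(4) `dir_bound`: `σ = 1 + 1/log x`, `P = {p ≤ x : a p = 1}`: `∏_P (1 + 2 p^{-σ}) ≤ (1 + log x) (3 + log Q)`. Logarithms: `log(1+u) ≥ u - u²/2` (`u ≥ 0`), so `2 ∑_P p^{-σ} ≤ log(1 + log x) + log(3 + log Q) + 2 ∑_p p^{-2}`, and
    `p^{-σ} = p^{-1} exp(-log p/log x) ≥ p^{-1} - log p/(p log x)`, `∑_{p ≤ x} log p/p ≤ log x + C` (Mertens; from `Pool.Agent.Helper10.P5.mertens_interval` with `a = 1`, see that file; or Chebyshev), `log(1 + log x) ≤ 1 + log log x` for `x ≥ 3`.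
-/

set_option autoImplicit false

namespace Pool.Agent.Helper38.TW

open Finset Pool.Agent.Helper10.P5

lemma icc_eq_ioc (N : ℕ) : Icc 1 N = Ioc 0 N := by
  ext n
  rw [Finset.mem_Icc, Finset.mem_Ioc]
  omega

lemma rpow_neg_antitone {σ : ℝ} (hσ : 0 ≤ σ) {m n : ℕ} (hm : 1 ≤ m) (hmn : m ≤ n) :
    (n : ℝ) ^ (-σ) ≤ (m : ℝ) ^ (-σ) := by
  apply Real.rpow_le_rpow_of_nonpos
  · exact_mod_cast hm
  · exact_mod_cast hmn
  · linarith

lemma rpow_neg_le_inv {σ : ℝ} (hσ : 1 ≤ σ) {n : ℕ} (hn : 1 ≤ n) :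
    (n : ℝ) ^ (-σ) ≤ 1 / (n : ℝ) := by
  have h1 : (1 : ℝ) / (n : ℝ) = (n : ℝ) ^ (-1 : ℝ) := by
    rw [Real.rpow_neg_one, one_div]
  rw [h1]
  apply Real.rpow_le_rpow_of_exponent_le
  · exact_mod_cast hn
  · linarith

lemma harm_le (Q : ℕ) (hQ : 1 ≤ Q) : ∑ n ∈ Icc 1 Q, 1 / (n : ℝ) ≤ 1 + Real.log Q := by
  have h := harmonic_le_one_add_log Q
  have h2 : ((harmonic Q : ℚ) : ℝ) = ∑ n ∈ Icc 1 Q, 1 / (n : ℝ) := by
    rw [harmonic_eq_sum_Icc]
    push_cast
    apply Finset.sum_congr rfl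
    intro n _
    rw [one_div]
  rw [← h2]
  exact h

lemma abel_small (a : ℕ → ℤ) (Q : ℕ) (hQ : 1 ≤ Q) (hval : ∀ n, |a n| ≤ 1)
    (σ : ℝ) (hσ : 1 ≤ σ) (T : ℕ) (hT : T ≤ Q) :
    |∑ n ∈ Icc 1 T, (a n : ℝ) * (n : ℝ) ^ (-σ)| ≤ 1 + Real.log Q := by
  refine (Finset.abs_sum_le_sum_abs _ _).trans ?_
  refine le_trans ?_ (harm_le Q hQ)
  refine le_trans ?_ (Finset.sum_le_sum_of_subset_of_nonneg (Finset.Icc_subset_Icc_right hT)
    (fun i _ _ => by positivity))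
  apply Finset.sum_le_sum
  intro n hn
  rw [Finset.mem_Icc] at hn
  rw [abs_mul]
  have h1 : |(a n : ℝ)| ≤ 1 := by
    have := hval n
    exact_mod_cast this
  have h2 : |(n : ℝ) ^ (-σ)| ≤ 1 / (n : ℝ) := by
    rw [abs_of_nonneg (by positivity)]
    exact rpow_neg_le_inv hσ hn.1
  calc |(a n : ℝ)| * |(n : ℝ) ^ (-σ)| ≤ 1 * (1 / (n : ℝ)) :=
        mul_le_mul h1 h2 (abs_nonneg _) zero_le_one
    _ = 1 / (n : ℝ) := one_mul _

theorem abel_char (a : ℕ → ℤ) (Q : ℕ) (hQ : 2 ≤ Q) (hval : ∀ n, |a n| ≤ 1)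
    (hsum : ∀ N, |∑ n ∈ Icc 1 N, a n| ≤ Q) (σ : ℝ) (hσ : 1 ≤ σ) (T : ℕ) :
    |∑ n ∈ Icc 1 T, (a n : ℝ) * (n : ℝ) ^ (-σ)| ≤ 3 + Real.log Q := by
  rcases le_total T Q with hTQ | hTQ
  · have := abel_small a Q (by omega) hval σ hσ T hTQ
    linarith
  · set f : ℕ → ℝ := fun n => (n : ℝ) ^ (-σ) with hf
    set B : ℕ → ℝ := fun T => ((∑ n ∈ Icc 1 T, a n : ℤ) : ℝ) - ((∑ n ∈ Icc 1 Q, a n : ℤ) : ℝ)
      with hB
    have hBle : ∀ T, |B T| ≤ 2 * Q := by
      intro T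
      have h1 : |((∑ n ∈ Icc 1 T, a n : ℤ) : ℝ)| ≤ Q := by exact_mod_cast hsum T
      have h2 : |((∑ n ∈ Icc 1 Q, a n : ℤ) : ℝ)| ≤ Q := by exact_mod_cast hsum Q
      calc |B T| ≤ |((∑ n ∈ Icc 1 T, a n : ℤ) : ℝ)| + |((∑ n ∈ Icc 1 Q, a n : ℤ) : ℝ)| :=
            abs_sub _ _
        _ ≤ 2 * Q := by linarith
    have hmono : ∀ n, 1 ≤ n → f (n + 1) ≤ f n := by
      intro n hn
      exact rpow_neg_antitone (by linarith) hn (Nat.le_succ n)
    have key : ∀ T, Q ≤ T → |∑ n ∈ Ioc Q T, (a n : ℝ) * f n - B T * f (T + 1)| ≤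
        2 * Q * (f (Q + 1) - f (T + 1)) := by
      intro T hT
      induction T, hT using Nat.le_induction with
      | base =>
        have : B Q = 0 := by rw [hB]; simp
        rw [this]
        simp
      | succ T hT ih =>
        have e1 : ∑ n ∈ Ioc Q (T + 1), (a n : ℝ) * f n =
            ∑ n ∈ Ioc Q T, (a n : ℝ) * f n + (a (T + 1) : ℝ) * f (T + 1) := by
          exact Finset.sum_Ioc_succ_top hT _
        have e2 : B (T + 1) = B T + a (T + 1) := by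
          rw [hB]
          show ((∑ n ∈ Icc 1 (T + 1), a n : ℤ) : ℝ) - ((∑ n ∈ Icc 1 Q, a n : ℤ) : ℝ) = _
          rw [Finset.sum_Icc_succ_top (by omega)]
          push_cast
          ring
        have e3 : ∑ n ∈ Ioc Q (T + 1), (a n : ℝ) * f n - B (T + 1) * f (T + 1 + 1) =
            (∑ n ∈ Ioc Q T, (a n : ℝ) * f n - B T * f (T + 1)) +
              B (T + 1) * (f (T + 1) - f (T + 1 + 1)) := by
          rw [e1, e2]
          ring
        rw [e3]
        have e4 : |B (T + 1) * (f (T + 1) - f (T + 1 + 1))| ≤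
            2 * Q * (f (T + 1) - f (T + 1 + 1)) := by
          rw [abs_mul, abs_of_nonneg (sub_nonneg.mpr (hmono (T + 1) (by omega)))]
          exact mul_le_mul_of_nonneg_right (hBle _) (sub_nonneg.mpr (hmono (T + 1) (by omega)))
        calc _ ≤ |∑ n ∈ Ioc Q T, (a n : ℝ) * f n - B T * f (T + 1)| +
              |B (T + 1) * (f (T + 1) - f (T + 1 + 1))| := abs_add_le _ _
          _ ≤ 2 * Q * (f (Q + 1) - f (T + 1)) + 2 * Q * (f (T + 1) - f (T + 1 + 1)) :=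
            add_le_add ih e4
          _ = _ := by ring
    have hfT : 0 ≤ f (T + 1) := by positivity
    have h2 : |∑ n ∈ Ioc Q T, (a n : ℝ) * f n| ≤ 2 := by
      have h3 := key T hTQ
      have h4 : |B T * f (T + 1)| ≤ 2 * Q * f (T + 1) := by
        rw [abs_mul, abs_of_nonneg hfT]
        exact mul_le_mul_of_nonneg_right (hBle T) hfT
      have h5 : |∑ n ∈ Ioc Q T, (a n : ℝ) * f n| ≤ 2 * Q * f (Q + 1) := by
        have h6 : ∑ n ∈ Ioc Q T, (a n : ℝ) * f n =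
            (∑ n ∈ Ioc Q T, (a n : ℝ) * f n - B T * f (T + 1)) + B T * f (T + 1) := by ring
        rw [h6]
        refine (abs_add_le _ _).trans ?_
        linarith
      refine h5.trans ?_
      have h7 : f (Q + 1) ≤ 1 / ((Q + 1 : ℕ) : ℝ) := rpow_neg_le_inv hσ (by omega)
      have hQ0 : (0 : ℝ) < Q := by exact_mod_cast (by omega : 0 < Q)
      calc 2 * (Q : ℝ) * f (Q + 1) ≤ 2 * Q * (1 / ((Q + 1 : ℕ) : ℝ)) :=
            mul_le_mul_of_nonneg_left h7 (by positivity)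
        _ ≤ 2 := by
            push_cast
            rw [mul_one_div, div_le_iff₀ (by positivity)]
            linarith
    have h8 : ∑ n ∈ Icc 1 T, (a n : ℝ) * (n : ℝ) ^ (-σ) =
        ∑ n ∈ Icc 1 Q, (a n : ℝ) * (n : ℝ) ^ (-σ) + ∑ n ∈ Ioc Q T, (a n : ℝ) * f n := by
      rw [icc_eq_ioc, icc_eq_ioc, ← Finset.Ioc_union_Ioc_eq_Ioc (Nat.zero_le Q) hTQ,
        Finset.sum_union]
      rw [Finset.disjoint_left]
      intro x hx hx'
      rw [Finset.mem_Ioc] at hx hx'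
      omega
    rw [h8]
    have h9 := abel_small a Q (by omega) hval σ hσ Q le_rfl
    calc _ ≤ |∑ n ∈ Icc 1 Q, (a n : ℝ) * (n : ℝ) ^ (-σ)| + |∑ n ∈ Ioc Q T, (a n : ℝ) * f n| :=
          abs_add_le _ _
      _ ≤ 3 + Real.log Q := by linarith

lemma sum_rpow_le (σ : ℝ) (hσ : 1 < σ) (N : ℕ) :
    ∑ k ∈ Icc 1 N, (k : ℝ) ^ (-σ) ≤ 1 + 1 / (σ - 1) := by
  have hs : 0 < σ - 1 := by linarith
  rcases Nat.eq_zero_or_pos N with rfl | hN
  · simp
    positivity
  have key : ∑ k ∈ Icc 1 N, (k : ℝ) ^ (-σ) ≤ 1 + (1 - (N : ℝ) ^ (-(σ - 1))) / (σ - 1) := by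
    induction N, hN using Nat.le_induction with
    | base => simp
    | succ N hN ih =>
      rw [Finset.sum_Icc_succ_top (by omega)]
      have hN0 : (0 : ℝ) < N := by exact_mod_cast hN
      have hN1 : (0 : ℝ) < N + 1 := by linarith
      have e1 : ((N : ℝ) + 1) ^ (-(σ - 1)) * (1 + (σ - 1) / (N + 1)) ≤ (N : ℝ) ^ (-(σ - 1)) := by
        have e2 : (N : ℝ) ^ (-(σ - 1)) =
            ((N : ℝ) + 1) ^ (-(σ - 1)) * (((N : ℝ) + 1) / N) ^ (σ - 1) := by
          rw [Real.div_rpow hN1.le hN0.le, Real.rpow_neg hN1.le, Real.rpow_neg hN0.le]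
          have h1 : ((N : ℝ) + 1) ^ (σ - 1) ≠ 0 := (Real.rpow_pos_of_pos hN1 _).ne'
          have h2 : (N : ℝ) ^ (σ - 1) ≠ 0 := (Real.rpow_pos_of_pos hN0 _).ne'
          field_simp
        rw [e2]
        apply mul_le_mul_of_nonneg_left _ (by positivity)
        have e3 : 1 / ((N : ℝ) + 1) ≤ Real.log (((N : ℝ) + 1) / N) := by
          have := Real.one_sub_inv_le_log_of_pos (show 0 < ((N : ℝ) + 1) / N by positivity)
          refine le_trans (le_of_eq ?_) this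
          rw [inv_div]
          field_simp
          ring
        calc 1 + (σ - 1) / ((N : ℝ) + 1) = (σ - 1) * (1 / ((N : ℝ) + 1)) + 1 := by ring
          _ ≤ (σ - 1) * Real.log (((N : ℝ) + 1) / N) + 1 := by
              have := mul_le_mul_of_nonneg_left e3 hs.le
              linarith
          _ ≤ Real.exp ((σ - 1) * Real.log (((N : ℝ) + 1) / N)) := Real.add_one_le_exp _
          _ = (((N : ℝ) + 1) / N) ^ (σ - 1) := by
              rw [Real.rpow_def_of_pos (by positivity), mul_comm]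
      have e4 : ((N : ℝ) + 1) ^ (-σ) = ((N : ℝ) + 1) ^ (-(σ - 1)) * (1 / (N + 1)) := by
        rw [show -σ = -(σ - 1) - 1 by ring, Real.rpow_sub_one hN1.ne', mul_one_div]
      push_cast
      have e5 : ((N : ℝ) + 1) ^ (-σ) ≤
          ((N : ℝ) ^ (-(σ - 1)) - ((N : ℝ) + 1) ^ (-(σ - 1))) / (σ - 1) := by
        rw [e4, le_div_iff₀ hs]
        have : ((N : ℝ) + 1) ^ (-(σ - 1)) * (1 + (σ - 1) / (N + 1)) =
            ((N : ℝ) + 1) ^ (-(σ - 1)) + ((N : ℝ) + 1) ^ (-(σ - 1)) * (1 / (N + 1)) * (σ - 1) := by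
          ring
        linarith
      calc _ ≤ 1 + (1 - (N : ℝ) ^ (-(σ - 1))) / (σ - 1) +
            ((N : ℝ) ^ (-(σ - 1)) - ((N : ℝ) + 1) ^ (-(σ - 1))) / (σ - 1) := add_le_add ih e5
        _ = _ := by ring
  refine key.trans ?_
  have h1 : 0 ≤ (N : ℝ) ^ (-(σ - 1)) := by positivity
  have h2 : (1 - (N : ℝ) ^ (-(σ - 1))) / (σ - 1) ≤ 1 / (σ - 1) := by
    apply div_le_div_of_nonneg_right _ hs.le
    linarith
  linarith

theorem conv_upper (a : ℕ → ℤ) (Q : ℕ) (hQ : 2 ≤ Q) (hval : ∀ n, |a n| ≤ 1)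
    (hsum : ∀ N, |∑ n ∈ Icc 1 N, a n| ≤ Q) (σ : ℝ) (hσ : 1 < σ) (N : ℕ) :
    ∑ n ∈ Icc 1 N, ((∑ d ∈ n.divisors, a d : ℤ) : ℝ) * (n : ℝ) ^ (-σ) ≤
      (1 + 1 / (σ - 1)) * (3 + Real.log Q) := by
  set f : ArithmeticFunction ℝ := ⟨fun n => if n = 0 then 0 else (n : ℝ) ^ (-σ), by simp⟩ with hf
  set g : ArithmeticFunction ℝ := ⟨fun n => if n = 0 then 0 else (a n : ℝ) * (n : ℝ) ^ (-σ),
    by simp⟩ with hg
  have hfa : ∀ n, n ≠ 0 → f n = (n : ℝ) ^ (-σ) := fun n hn => if_neg hn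
  have hga : ∀ n, n ≠ 0 → g n = (a n : ℝ) * (n : ℝ) ^ (-σ) := fun n hn => if_neg hn
  have h1 : ∀ n ∈ Ioc 0 N, ((∑ d ∈ n.divisors, a d : ℤ) : ℝ) * (n : ℝ) ^ (-σ) = (f * g) n := by
    intro n hn
    rw [Finset.mem_Ioc] at hn
    have hd : ∑ d ∈ n.divisors, a d = ∑ x ∈ n.divisorsAntidiagonal, a x.2 :=
      (Nat.sum_divisorsAntidiagonal' (fun _ y => a y)).symm
    rw [ArithmeticFunction.mul_apply, hd]
    push_cast
    rw [Finset.sum_mul]
    apply Finset.sum_congr rfl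
    rintro ⟨x, y⟩ hxy
    rw [Nat.mem_divisorsAntidiagonal] at hxy
    have hx : x ≠ 0 := by
      rintro rfl
      simp at hxy
      omega
    have hy : y ≠ 0 := by
      rintro rfl
      simp at hxy
      omega
    show (a y : ℝ) * (n : ℝ) ^ (-σ) = f x * g y
    rw [hfa x hx, hga y hy, ← hxy.1]
    push_cast
    rw [Real.mul_rpow (Nat.cast_nonneg x) (Nat.cast_nonneg y)]
    ring
  rw [icc_eq_ioc, Finset.sum_congr rfl h1, ArithmeticFunction.sum_Ioc_mul_eq_sum_sum]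
  have hL : 0 ≤ 3 + Real.log Q := by
    have : 0 ≤ Real.log Q := Real.log_natCast_nonneg Q
    linarith
  calc ∑ n ∈ Ioc 0 N, f n * ∑ m ∈ Ioc 0 (N / n), g m
      ≤ ∑ n ∈ Ioc 0 N, (n : ℝ) ^ (-σ) * (3 + Real.log Q) := by
        apply Finset.sum_le_sum
        intro n hn
        rw [Finset.mem_Ioc] at hn
        rw [hfa n (by omega)]
        apply mul_le_mul_of_nonneg_left _ (by positivity)
        have h2 : ∑ m ∈ Ioc 0 (N / n), g m = ∑ m ∈ Icc 1 (N / n), (a m : ℝ) * (m : ℝ) ^ (-σ) := by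
          rw [icc_eq_ioc]
          apply Finset.sum_congr rfl
          intro m hm
          rw [Finset.mem_Ioc] at hm
          exact hga m (by omega)
        rw [h2]
        exact (le_abs_self _).trans (abel_char a Q hQ hval hsum σ hσ.le _)
    _ = (∑ n ∈ Icc 1 N, (n : ℝ) ^ (-σ)) * (3 + Real.log Q) := by
        rw [icc_eq_ioc, Finset.sum_mul]
    _ ≤ (1 + 1 / (σ - 1)) * (3 + Real.log Q) :=
        mul_le_mul_of_nonneg_right (sum_rpow_le σ hσ N) hL


lemma divsum_mul (a : ℕ → ℤ) (hmul : ∀ m n, a (m * n) = a m * a n) (h1 : a 1 = 1)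
    {m n : ℕ} (hmn : m.Coprime n) :
    ∑ d ∈ (m * n).divisors, a d = (∑ d ∈ m.divisors, a d) * ∑ d ∈ n.divisors, a d := by
  set A : ArithmeticFunction ℤ := ⟨fun n => if n = 0 then 0 else a n, by simp⟩ with hA
  have hAa : ∀ n, n ≠ 0 → A n = a n := fun n hn => if_neg hn
  have hb : ∀ n : ℕ, ∑ d ∈ n.divisors, a d =
      (((ArithmeticFunction.zeta : ArithmeticFunction ℕ) : ArithmeticFunction ℤ) * A) n := by
    intro n
    rw [ArithmeticFunction.coe_zeta_mul_apply]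
    apply Finset.sum_congr rfl
    intro d hd
    rw [hAa d (Nat.pos_of_mem_divisors hd).ne']
  have hAm : A.IsMultiplicative := by
    refine ⟨by rw [hAa 1 one_ne_zero, h1], ?_⟩
    intro m n _
    by_cases hm : m = 0
    · rw [hm, zero_mul, ArithmeticFunction.map_zero, zero_mul]
    · by_cases hn : n = 0
      · rw [hn, mul_zero, ArithmeticFunction.map_zero, mul_zero]
      · rw [hAa _ (Nat.mul_ne_zero hm hn), hAa m hm, hAa n hn, hmul]
  have hm := (ArithmeticFunction.isMultiplicative_zeta.natCast (R := ℤ)).mul hAm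
  rw [hb, hb, hb]
  exact hm.map_mul_of_coprime hmn

lemma divsum_nonneg (a : ℕ → ℤ) (hmul : ∀ m n, a (m * n) = a m * a n) (h1 : a 1 = 1)
    (hval : ∀ n, a n = 0 ∨ a n = 1 ∨ a n = -1) (n : ℕ) : 0 ≤ ∑ d ∈ n.divisors, a d := by
  induction n using Nat.recOnPosPrimePosCoprime with
  | prime_pow p k hp hk =>
    rw [Nat.sum_divisors_prime_pow hp]
    have hpow : ∀ i, a (p ^ i) = (a p) ^ i := by
      intro i
      induction i with
      | zero => rw [pow_zero, pow_zero, h1]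
      | succ i ih => rw [pow_succ, pow_succ, hmul, ih]
    simp_rw [hpow]
    rcases hval p with h | h | h
    · refine Finset.sum_nonneg fun i _ => ?_
      rw [h]
      positivity
    · refine Finset.sum_nonneg fun i _ => ?_
      rw [h, one_pow]
      norm_num
    · rw [h, neg_one_geom_sum]
      split_ifs
      exacts [le_rfl, zero_le_one]
  | zero => simp
  | one => simp [h1]
  | coprime m n hm hn hmn ihm ihn =>
    rw [divsum_mul a hmul h1 hmn]
    exact mul_nonneg ihm ihn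

lemma divsum_prod (a : ℕ → ℤ) (hmul : ∀ m n, a (m * n) = a m * a n) (h1 : a 1 = 1)
    (S : Finset ℕ) (hS : ∀ p ∈ S, p.Prime ∧ a p = 1) :
    ∑ d ∈ (∏ p ∈ S, p).divisors, a d = 2 ^ S.card := by
  classical
  induction S using Finset.induction_on with
  | empty => simp [h1]
  | insert q S hq ih =>
    have hS' : ∀ p ∈ S, p.Prime ∧ a p = 1 := fun p hp => hS p (Finset.mem_insert_of_mem hp)
    have hq' := hS q (Finset.mem_insert_self q S)
    have hcop : q.Coprime (∏ p ∈ S, p) := by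
      apply Nat.Coprime.prod_right
      intro p hp
      apply (Nat.coprime_primes hq'.1 (hS' p hp).1).mpr
      rintro rfl
      exact hq hp
    rw [Finset.prod_insert hq, divsum_mul a hmul h1 hcop, ih hS', Finset.card_insert_of_notMem hq,
      Nat.Prime.sum_divisors hq'.1, hq'.2, h1]
    ring

lemma prod_primes_inj (P : Finset ℕ) (hP : ∀ p ∈ P, p.Prime) :
    ∀ S ∈ P.powerset, ∀ S' ∈ P.powerset, ∏ p ∈ S, p = ∏ p ∈ S', p → S = S' := by
  have key : ∀ S ∈ P.powerset, (∏ p ∈ S, p).primeFactors = S := by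
    intro S hS
    rw [Finset.mem_powerset] at hS
    exact Nat.primeFactors_prod fun p hp => hP p (hS hp)
  intro S hS S' hS' h
  rw [← key S hS, ← key S' hS', h]

theorem euler_lower (a : ℕ → ℤ) (hmul : ∀ m n, a (m * n) = a m * a n) (h1 : a 1 = 1)
    (hval : ∀ n, a n = 0 ∨ a n = 1 ∨ a n = -1) (σ : ℝ) (P : Finset ℕ)
    (hP : ∀ p ∈ P, p.Prime ∧ a p = 1) :
    ∃ N : ℕ, ∏ p ∈ P, (1 + 2 * (p : ℝ) ^ (-σ)) ≤
      ∑ n ∈ Icc 1 N, ((∑ d ∈ n.divisors, a d : ℤ) : ℝ) * (n : ℝ) ^ (-σ) := by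
  classical
  refine ⟨∏ p ∈ P, p, ?_⟩
  rw [Finset.prod_one_add]
  have hterm : ∀ S ∈ P.powerset, ∏ p ∈ S, (2 * (p : ℝ) ^ (-σ)) =
      ((∑ d ∈ (∏ p ∈ S, p).divisors, a d : ℤ) : ℝ) * ((∏ p ∈ S, p : ℕ) : ℝ) ^ (-σ) := by
    intro S hS
    rw [Finset.mem_powerset] at hS
    rw [divsum_prod a hmul h1 S fun p hp => hP p (hS hp), Finset.prod_mul_distrib,
      Finset.prod_const]
    push_cast
    rw [Real.finsetProd_rpow _ _ (fun p _ => Nat.cast_nonneg p)]
  rw [Finset.sum_congr rfl hterm]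
  rw [← Finset.sum_image (f := fun n : ℕ => ((∑ d ∈ n.divisors, a d : ℤ) : ℝ) * (n : ℝ) ^ (-σ))
    (g := fun S : Finset ℕ => ∏ p ∈ S, p)
    (fun S hS S' hS' h => prod_primes_inj P (fun p hp => (hP p hp).1) S hS S' hS' h)]
  apply Finset.sum_le_sum_of_subset_of_nonneg
  · intro n hn
    rw [Finset.mem_image] at hn
    obtain ⟨S, hS, rfl⟩ := hn
    rw [Finset.mem_powerset] at hS
    rw [Finset.mem_Icc]
    have hpos : ∀ T ⊆ P, 0 < ∏ p ∈ T, p := fun T hT =>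
      Finset.prod_pos fun p hp => (hP p (hT hp)).1.pos
    exact ⟨hpos S hS, Nat.le_of_dvd (hpos P subset_rfl) (Finset.prod_dvd_prod_of_subset _ _ _ hS)⟩
  · intro n _ _
    have h2 : (0 : ℝ) ≤ ((∑ d ∈ n.divisors, a d : ℤ) : ℝ) := by
      exact_mod_cast divsum_nonneg a hmul h1 hval n
    positivity

lemma sum_inv_sq_le (P : Finset ℕ) (hP : ∀ p ∈ P, 1 ≤ p) : ∑ p ∈ P, 1 / (p : ℝ) ^ 2 ≤ 2 := by
  have h1 : P ⊆ Icc 1 (P.sup id) := by
    intro p hp
    rw [Finset.mem_Icc]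
    exact ⟨hP p hp, Finset.le_sup (f := id) hp⟩
  refine (Finset.sum_le_sum_of_subset_of_nonneg h1 (fun i _ _ => by positivity)).trans ?_
  have h2 := sum_rpow_le 2 (by norm_num) (P.sup id)
  have h3 : ∑ k ∈ Icc 1 (P.sup id), (k : ℝ) ^ (-2 : ℝ) = ∑ k ∈ Icc 1 (P.sup id),
      1 / (k : ℝ) ^ 2 := by
    apply Finset.sum_congr rfl
    intro k _
    rw [Real.rpow_neg (Nat.cast_nonneg k), one_div]
    norm_cast
  rw [h3] at h2
  linarith

theorem dir_bound : ∃ C : ℝ, ∀ (a : ℕ → ℤ) (Q : ℕ), (∀ m n, a (m * n) = a m * a n) → a 1 = 1 →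
    (∀ n, a n = 0 ∨ a n = 1 ∨ a n = -1) → 2 ≤ Q → (∀ N, |∑ n ∈ Icc 1 N, a n| ≤ Q) →
    ∀ x : ℕ, 3 ≤ x →
    ∑ p ∈ (PL x).filter (fun p => a p = 1), (1 : ℝ) / p ≤
      (1 / 2) * Real.log (Real.log x) + (1 / 2) * Real.log (3 + Real.log Q) + C := by
  refine ⟨(1 / 2) * Real.log 2 + 4 + 1 + Real.log 4, ?_⟩
  intro a Q hmul h1 hval hQ hsum x hx
  set P := (PL x).filter (fun p => a p = 1) with hPdef
  have hP : ∀ p ∈ P, p.Prime ∧ a p = 1 := by
    intro p hp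
    rw [hPdef, Finset.mem_filter, mem_PL] at hp
    exact ⟨hp.1.2, hp.2⟩
  have hval' : ∀ n, |a n| ≤ 1 := by
    intro n
    rcases hval n with h | h | h <;> rw [h] <;> norm_num
  have hxR : (3 : ℝ) ≤ x := by exact_mod_cast hx
  have hlogx : 1 ≤ Real.log x := by
    rw [Real.le_log_iff_exp_le (by linarith)]
    have := Real.exp_one_lt_d9
    linarith
  have hlog0 : 0 < Real.log x := by linarith
  set σ : ℝ := 1 + 1 / Real.log x with hσ
  have hσ1 : 1 < σ := by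
    rw [hσ]
    have : 0 < 1 / Real.log x := by positivity
    linarith
  have hL : 0 < 3 + Real.log Q := by
    have : 0 ≤ Real.log Q := Real.log_natCast_nonneg Q
    linarith
  obtain ⟨N, hN⟩ := euler_lower a hmul h1 hval σ P hP
  have hup := hN.trans (conv_upper a Q hQ hval' hsum σ hσ1 N)
  have hs : 1 + 1 / (σ - 1) = 1 + Real.log x := by
    rw [hσ]
    field_simp
    ring
  rw [hs] at hup
  have hprodpos : 0 < ∏ p ∈ P, (1 + 2 * (p : ℝ) ^ (-σ)) :=
    Finset.prod_pos fun p _ => by positivity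
  have hlogle := Real.log_le_log hprodpos hup
  rw [Real.log_mul (by positivity) hL.ne', Real.log_prod (fun p _ => by positivity)] at hlogle
  -- lower bound of the logarithms
  have hlow : ∀ p ∈ P, 2 * (p : ℝ) ^ (-σ) - 4 * (1 / (p : ℝ) ^ 2) ≤
      Real.log (1 + 2 * (p : ℝ) ^ (-σ)) := by
    intro p hp
    have hp1 : 1 ≤ p := (hP p hp).1.one_lt.le
    set u : ℝ := 2 * (p : ℝ) ^ (-σ) with hu
    have hu0 : 0 ≤ u := by positivity
    have h2 := Real.one_sub_inv_le_log_of_pos (show 0 < 1 + u by linarith)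
    have h3 : u - u ^ 2 ≤ 1 - (1 + u)⁻¹ := by
      have : 1 - (1 + u)⁻¹ = u / (1 + u) := by
        field_simp
        ring
      rw [this, le_div_iff₀ (by linarith)]
      nlinarith [pow_nonneg hu0 3]
    have h4 : u ^ 2 ≤ 4 * (1 / (p : ℝ) ^ 2) := by
      have h5 := rpow_neg_le_inv hσ1.le hp1
      have h6 : (0 : ℝ) ≤ (p : ℝ) ^ (-σ) := by positivity
      calc u ^ 2 = 4 * ((p : ℝ) ^ (-σ)) ^ 2 := by rw [hu]; ring
        _ ≤ 4 * (1 / (p : ℝ)) ^ 2 := by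
            have := pow_le_pow_left₀ h6 h5 2
            linarith
        _ = 4 * (1 / (p : ℝ) ^ 2) := by rw [one_div_pow]
    linarith
  have hsumlow := Finset.sum_le_sum hlow
  rw [Finset.sum_sub_distrib, ← Finset.mul_sum, ← Finset.mul_sum] at hsumlow
  have hsq : ∑ p ∈ P, 1 / (p : ℝ) ^ 2 ≤ 2 :=
    sum_inv_sq_le P fun p hp => (hP p hp).1.one_lt.le
  -- comparison of `1 / p` with `p ^ (-σ)`
  have hcmp : ∀ p ∈ P, (1 : ℝ) / p ≤ (p : ℝ) ^ (-σ) + (Real.log p / p) * (1 / Real.log x) := by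
    intro p hp
    have hp0 : (0 : ℝ) < p := by exact_mod_cast (hP p hp).1.pos
    have h2 : (p : ℝ) ^ (-σ) = (1 / p) * Real.exp (-(Real.log p / Real.log x)) := by
      rw [hσ, show -(1 + 1 / Real.log x) = -(1 / Real.log x) - 1 by ring, Real.rpow_sub_one hp0.ne',
        Real.rpow_def_of_pos hp0]
      rw [show Real.log (p : ℝ) * -(1 / Real.log x) = -(Real.log p / Real.log x) by ring]
      ring
    have h3 := Real.add_one_le_exp (-(Real.log p / Real.log x))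
    have h4 : (1 / (p : ℝ)) * (-(Real.log p / Real.log x) + 1) ≤
        (1 / p) * Real.exp (-(Real.log p / Real.log x)) :=
      mul_le_mul_of_nonneg_left h3 (by positivity)
    rw [h2]
    have h5 : (1 / (p : ℝ)) * (-(Real.log p / Real.log x) + 1) =
        1 / p - (Real.log p / p) * (1 / Real.log x) := by ring
    linarith
  have hsumcmp := Finset.sum_le_sum hcmp
  rw [Finset.sum_add_distrib, ← Finset.sum_mul] at hsumcmp
  have hmert : ∑ p ∈ P, Real.log p / p ≤ Real.log x + Real.log 4 := by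
    refine le_trans ?_ (Pool.Agent.Helper10.mertens_upper x (by omega))
    apply Finset.sum_le_sum_of_subset_of_nonneg
    · intro p hp
      exact (Finset.mem_filter.mp hp).1
    · intro p hp _
      have : 0 ≤ Real.log p := Real.log_natCast_nonneg p
      positivity
  have hlog4 : 0 ≤ Real.log 4 := Real.log_nonneg (by norm_num)
  have hm2 : (∑ p ∈ P, Real.log p / p) * (1 / Real.log x) ≤ 1 + Real.log 4 := by
    rw [mul_one_div, div_le_iff₀ hlog0]
    have : Real.log 4 * 1 ≤ Real.log 4 * Real.log x := mul_le_mul_of_nonneg_left hlogx hlog4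
    linarith
  have hll : Real.log (1 + Real.log x) ≤ Real.log 2 + Real.log (Real.log x) := by
    rw [← Real.log_mul (by norm_num) hlog0.ne']
    apply Real.log_le_log (by linarith)
    linarith
  linarith

end Pool.Agent.Helper38.TW
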