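import Mathlib
import Pool.Agent.Helper38.TW.CharPer
import Pool.Agent.Helper38.TW.DirUp

/-!
# TW-D3: Lemma L

`dir_bound` for `a = chi (κ q)`, `Q = 4 |κ| q` (`chi_mul`, `chi_one`, `chi_val`, `chi_sum_le`): for odd primes `p`: `chi (κ q) p = (κ q / p)`. The prime `2` adds at most `1/2`.
`3 + log(4 |κ| q) ≤ (3 + log(4|κ|)) (1 + log q)`.
-/

set_option autoImplicit false

namespace Pool.Agent.Helper38.TW

open Finset Pool.Agent.Helper10.P5

theorem lemmaL (κ : ℤ) (hκ : κ ≠ 0) : ∃ C : ℝ, ∀ q : ℕ, 1 < q → Odd q → Squarefree q →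
    IsCoprime κ (q : ℤ) → ∀ x : ℕ, 3 ≤ x →
    ∑ p ∈ (PL x).filter (fun p => jacobiSym (κ * q) p = 1), (1 : ℝ) / p ≤
      (1 / 2) * Real.log (Real.log x) + (1 / 2) * Real.log (1 + Real.log q) + C := by
  classical
  obtain ⟨C, hC⟩ := dir_bound
  refine ⟨C + 1 / 2 + (1 / 2) * Real.log (3 + Real.log (4 * (κ.natAbs : ℝ))), ?_⟩
  intro q hq hodd hsq hcop x hx
  have hk1 : 1 ≤ κ.natAbs := Int.natAbs_pos.2 hκ
  have hQ2 : 2 ≤ 4 * κ.natAbs * q := by nlinarith
  have hsum : ∀ N, |∑ n ∈ Icc 1 N, chi (κ * q) n| ≤ ((4 * κ.natAbs * q : ℕ) : ℤ) := by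
    intro N
    have h := chi_sum_le κ q hκ hq hodd hsq hcop N
    have h2 : ((4 * κ.natAbs * q : ℕ) : ℤ) = 4 * |κ| * q := by
      push_cast
      rfl
    rw [h2]
    exact h
  have h1 := hC (chi (κ * q)) (4 * κ.natAbs * q) (chi_mul _) (chi_one _) (chi_val _) hQ2 hsum x hx
  have hsub : (PL x).filter (fun p => jacobiSym (κ * q) p = 1) ⊆
      insert 2 ((PL x).filter (fun p => chi (κ * q) p = 1)) := by
    intro p hp
    rw [mem_filter] at hp
    rw [mem_insert, mem_filter]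
    by_cases h2 : p = 2
    · exact Or.inl h2
    · right
      refine ⟨hp.1, ?_⟩
      have hpp : p.Prime := by
        have := hp.1
        unfold PL at this
        exact (mem_filter.1 this).2
      unfold chi
      rw [if_pos (hpp.odd_of_ne_two h2)]
      exact hp.2
  have h3 : ∑ p ∈ (PL x).filter (fun p => jacobiSym (κ * q) p = 1), (1 : ℝ) / p ≤
      1 / 2 + ∑ p ∈ (PL x).filter (fun p => chi (κ * q) p = 1), (1 : ℝ) / p := by
    refine le_trans (sum_le_sum_of_subset_of_nonneg hsub (fun p _ _ => by positivity)) ?_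
    by_cases hm : 2 ∈ (PL x).filter (fun p => chi (κ * q) p = 1)
    · rw [insert_eq_of_mem hm]
      linarith
    · rw [sum_insert hm]
      push_cast
      exact le_rfl
  have hkR : (1 : ℝ) ≤ (κ.natAbs : ℝ) := by exact_mod_cast hk1
  have hqR : (1 : ℝ) ≤ (q : ℝ) := by exact_mod_cast hq.le
  have hL : 0 ≤ Real.log (4 * (κ.natAbs : ℝ)) := Real.log_nonneg (by linarith)
  have hlq : 0 ≤ Real.log (q : ℝ) := Real.log_nonneg hqR
  have h4 : Real.log ((4 * κ.natAbs * q : ℕ) : ℝ) =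
      Real.log (4 * (κ.natAbs : ℝ)) + Real.log q := by
    push_cast
    rw [Real.log_mul (by linarith) (by linarith)]
  have h5 : Real.log (3 + Real.log ((4 * κ.natAbs * q : ℕ) : ℝ)) ≤
      Real.log (3 + Real.log (4 * (κ.natAbs : ℝ))) + Real.log (1 + Real.log q) := by
    rw [← Real.log_mul (by linarith) (by linarith), h4]
    apply Real.log_le_log
    · linarith
    · nlinarith [mul_nonneg hL hlq]
  linarith

end Pool.Agent.Helper38.TW
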