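import Mathlib
import Pool.Agent.Helper38.TW.FDefs

/-!
# TW-F4: the value of `g_k` at the root of a linear factor

`g_i = a X + b₀`, `a ≠ 0`, `a ∣ B`; `k ≠ i`, `d = natDegree g_k`. `N = a^d g_k(-b₀/a) = ∑_j (g_k)_j (-b₀)^j a^{d-j} ∈ ℤ`, `κ = N a^d`. For `p ∤ B` (so `p ∤ a`) and `p ∣ a x + b₀`: `a^d g_k(x) ≡ N` mod `p` (as `a x ≡ -b₀`), so
`(g_k(x)/p) = (a^{2d} g_k(x)/p) = (N a^d/p)`. From `u g_i + v g_k = B` at `X = -b₀/a`: `v(-b₀/a) g_k(-b₀/a) = B`; multiply by `a^{d + d'}` (`d'` = degree of `v`): `N · (integer) = B a^{d+d'}`, so `N ≠ 0` and every prime dividing `N` divides `B a`, hence `B`.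
(If `g_k` has degree `d`; `p` is odd because `2 ∣ B`.)
-/

set_option autoImplicit false

namespace Pool.Agent.Helper38.TW

open Finset Polynomial

variable {f : ℤ[X]} {ι : Type} [Fintype ι] [DecidableEq ι]

private theorem natDeg_one {g : ℤ[X]} (h : g.natDegree = 1) :
    ∃ a b₀ : ℤ, a ≠ 0 ∧ g.leadingCoeff = a ∧ g = C a * X + C b₀ := by
  refine ⟨g.coeff 1, g.coeff 0, ?_, ?_, ?_⟩
  · have h1 : g.leadingCoeff ≠ 0 := by
      rw [Ne, leadingCoeff_eq_zero]
      rintro rfl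
      simp at h
    rwa [leadingCoeff, h] at h1
  · rw [leadingCoeff, h]
  · exact eq_X_add_C_of_natDegree_le_one h.le

theorem lin_char (dt : FData f ι) (i k : ι) (hik : k ≠ i) (hlin : (dt.g i).natDegree = 1) :
    ∃ κ : ℤ, κ ≠ 0 ∧ (∀ p : ℕ, p.Prime → (p : ℤ) ∣ κ → p ∣ dt.B) ∧
      ∀ p : ℕ, p.Prime → ¬ p ∣ dt.B → ∀ x : ℤ, (p : ℤ) ∣ (dt.g i).eval x →
        jacobiSym ((dt.g k).eval x) p = jacobiSym κ p := by
  obtain ⟨a, b₀, ha, hlead, hgi⟩ := natDeg_one hlin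
  have haB : a ∣ (dt.B : ℤ) := hlead ▸ dt.lead_dvd i
  obtain ⟨u, v, huv⟩ := dt.bez i k hik.symm
  set g := dt.g k with hg
  set d := g.natDegree with hd
  set N : ℤ := (scaleRoots g a).eval (-b₀) with hN
  set V : ℤ := (scaleRoots v a).eval (-b₀) with hV
  -- the resultant identity
  have hsc : ∀ q : ℤ[X], ((((scaleRoots q a).eval (-b₀) : ℤ)) : ℚ) =
      (a : ℚ) ^ q.natDegree * q.eval₂ (Int.castRingHom ℚ) (-(b₀ : ℚ) / a) := by
    intro q
    have h1 := scaleRoots_eval₂_mul (p := q) (Int.castRingHom ℚ) (-(b₀ : ℚ) / a) a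
    have h2 : (Int.castRingHom ℚ) a * (-(b₀ : ℚ) / a) = (Int.castRingHom ℚ) (-b₀) := by
      have h3 : (a : ℚ) ≠ 0 := by exact_mod_cast ha
      simp only [eq_intCast, Int.cast_neg]
      field_simp
    rw [h2, eval₂_at_apply] at h1
    simpa using h1
  have hNV : V * N = a ^ (v.natDegree + d) * (dt.B : ℤ) := by
    have h1 := congrArg (fun q : ℤ[X] => q.eval₂ (Int.castRingHom ℚ) (-(b₀ : ℚ) / a)) huv
    simp only [eval₂_add, eval₂_mul, eval₂_C] at h1
    have h2 : (dt.g i).eval₂ (Int.castRingHom ℚ) (-(b₀ : ℚ) / a) = 0 := by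
      have h3 : (a : ℚ) ≠ 0 := by exact_mod_cast ha
      rw [hgi, eval₂_add, eval₂_mul, eval₂_C, eval₂_C, eval₂_X]
      simp only [eq_intCast]
      field_simp
      ring
    rw [h2, mul_zero, zero_add] at h1
    have h4 := hsc v
    have h5 := hsc g
    have h6 : ((V * N : ℤ) : ℚ) = ((a ^ (v.natDegree + d) * (dt.B : ℤ) : ℤ) : ℚ) := by
      push_cast
      rw [hV, hN, h4, h5, pow_add]
      have h7 : ((Int.castRingHom ℚ) ((dt.B : ℕ) : ℤ) : ℚ) = (dt.B : ℚ) := by simp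
      rw [h7] at h1
      rw [← h1]
      ring
    exact_mod_cast h6
  have hB0 : (dt.B : ℤ) ≠ 0 := by exact_mod_cast dt.B_ne
  have hN0 : N ≠ 0 := by
    intro h
    rw [h, mul_zero] at hNV
    exact mul_ne_zero (pow_ne_zero _ ha) hB0 hNV.symm
  refine ⟨N * a ^ d, mul_ne_zero hN0 (pow_ne_zero _ ha), ?_, ?_⟩
  · intro p hp hpd
    have hpZ : Prime (p : ℤ) := Nat.prime_iff_prime_int.1 hp
    have hpa : (p : ℤ) ∣ a → p ∣ dt.B := fun h => by
      exact_mod_cast h.trans haB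
    rcases hpZ.dvd_or_dvd hpd with h | h
    · have h1 : (p : ℤ) ∣ a ^ (v.natDegree + d) * (dt.B : ℤ) := by
        rw [← hNV]
        exact h.mul_left V
      rcases hpZ.dvd_or_dvd h1 with h2 | h2
      · exact hpa (hpZ.dvd_of_dvd_pow h2)
      · exact_mod_cast h2
    · exact hpa (hpZ.dvd_of_dvd_pow h)
  · intro p hp hpB x hx
    have hpZ : Prime (p : ℤ) := Nat.prime_iff_prime_int.1 hp
    have hpa : ¬ (p : ℤ) ∣ a := fun h => hpB (by exact_mod_cast h.trans haB)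
    -- the congruence
    have h1 : (p : ℤ) ∣ a ^ d * g.eval x - N := by
      have h2 : a * x - (-b₀) ∣ (scaleRoots g a).eval (a * x) - (scaleRoots g a).eval (-b₀) :=
        sub_dvd_eval_sub _ _ _
      have h3 : (scaleRoots g a).eval (a * x) = a ^ d * g.eval x := by
        have h4 := scaleRoots_eval₂_mul (p := g) (RingHom.id ℤ) x a
        simpa [eval₂_id] using h4
      have h5 : (dt.g i).eval x = a * x - (-b₀) := by
        rw [hgi]
        simp
      rw [h3, ← h5] at h2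
      exact hx.trans h2
    have h2 : (p : ℤ) ∣ (a ^ d) ^ 2 * g.eval x - N * a ^ d := by
      have h3 : (a ^ d) ^ 2 * g.eval x - N * a ^ d = a ^ d * (a ^ d * g.eval x - N) := by ring
      rw [h3]
      exact h1.mul_left _
    have h3 : jacobiSym ((a ^ d) ^ 2 * g.eval x) p = jacobiSym (N * a ^ d) p :=
      jacobiSym.mod_left' ((Int.emod_emod_of_dvd _ (dvd_refl _)).symm.trans
        ((Int.emod_emod_of_dvd _ (dvd_refl _)).trans (Int.ModEq.symm
          ((Int.modEq_iff_dvd).2 h2))))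
    have hgcd : (a ^ d).gcd (p : ℤ) = 1 := by
      rw [← Int.isCoprime_iff_gcd_eq_one]
      exact ((Prime.coprime_iff_not_dvd hpZ).2 fun h => hpa (hpZ.dvd_of_dvd_pow h)).symm
    rw [← h3, jacobiSym.mul_left, jacobiSym.sq_one' hgcd, one_mul]

end Pool.Agent.Helper38.TW
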