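import Mathlib
import Pool.Agent.Helper38.TW.PartSum
import Pool.Agent.Helper38.TW.IdBounds
import Pool.Agent.Helper38.TW.RootHom

/-!
# TW-N4: the number of roots mod p is 1 on average (upper bound)

`root_primes` gives `K`, `b`, and for `p ∤ b` a set `Q p` of prime ideals of norm `p` with `rootsMod g p ≤ #(Q p)` (choice; `Q p = ∅` for `p ∣ b`). `primes_upper` and `part_upper` (with `a p = #(Q p)`, `K = 1 + ε`): `∑_{p ≤ x} #(Q p)/p ≤ (1+ε) log log x + C`.
The finitely many primes `p ∣ b` contribute at most `#{p ∣ b}` (`rootsMod g p ≤ p`: it is the number of elements of a subset of `ZMod p`).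
-/

set_option autoImplicit false

namespace Pool.Agent.Helper38.TW

open Finset Pool.Agent.Helper10.P5 NumberField Polynomial

theorem roots_mertens (g : ℤ[X]) (hg : Irreducible (g.map (Int.castRingHom ℚ))) (ε : ℝ)
    (hε : 0 < ε) : ∃ C : ℝ, ∀ x : ℕ, 3 ≤ x →
      ∑ p ∈ PL x, (rootsMod g p : ℝ) / p ≤ (1 + ε) * Real.log (Real.log x) + C := by
  classical
  obtain ⟨K, hK1, hK2, b, hb, hQ⟩ := root_primes g hg
  set Q : ℕ → Finset (Ideal (𝓞 K)) := fun p =>
    if h : p.Prime ∧ ¬ p ∣ b then (hQ p h.1 h.2).choose else ∅ with hQdef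
  have hQ1 : ∀ p, p.Prime → ∀ P ∈ Q p, P.IsPrime ∧ Ideal.absNorm P = p := by
    intro p hp P hP
    by_cases hd : p ∣ b
    · have h0 : Q p = ∅ := by
        simp only [hQdef]
        rw [dif_neg]
        exact fun h => h.2 hd
      rw [h0] at hP
      exact absurd hP (Finset.notMem_empty P)
    · have h0 : Q p = (hQ p hp hd).choose := by
        simp only [hQdef]
        rw [dif_pos ⟨hp, hd⟩]
      rw [h0] at hP
      exact (hQ p hp hd).choose_spec.1 P hP
  have hQ2 : ∀ p, p.Prime → ¬ p ∣ b → rootsMod g p ≤ (Q p).card := by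
    intro p hp hd
    have h0 : Q p = (hQ p hp hd).choose := by
      simp only [hQdef]
      rw [dif_pos ⟨hp, hd⟩]
    rw [h0]
    exact (hQ p hp hd).choose_spec.2
  obtain ⟨C1, hC1⟩ := primes_upper K Q hQ1 ε hε
  obtain ⟨C2, hC2⟩ := part_upper (fun p => ((Q p).card : ℝ)) (1 + ε) C1 (by positivity) hC1
  refine ⟨C2 + b.divisors.card, fun x hx => ?_⟩
  have h1 : ∀ p ∈ PL x, (rootsMod g p : ℝ) / p ≤
      ((Q p).card : ℝ) / p + (if p ∣ b then (1 : ℝ) else 0) := by
    intro p hp
    rw [mem_PL] at hp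
    have hp0 : (0 : ℝ) < p := by exact_mod_cast hp.2.pos
    by_cases hd : p ∣ b
    · rw [if_pos hd]
      have h2 : rootsMod g p ≤ p := by
        have : NeZero p := ⟨hp.2.ne_zero⟩
        unfold rootsMod
        refine (Set.ncard_le_ncard (Set.subset_univ _) Set.finite_univ).trans ?_
        rw [Set.ncard_univ, Nat.card_zmod]
      have h3 : (rootsMod g p : ℝ) / p ≤ 1 := by
        rw [div_le_one hp0]
        exact_mod_cast h2
      have h4 : (0 : ℝ) ≤ ((Q p).card : ℝ) / p := by positivity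
      linarith
    · rw [if_neg hd, add_zero]
      refine div_le_div_of_nonneg_right ?_ hp0.le
      exact_mod_cast hQ2 p hp.2 hd
  refine (Finset.sum_le_sum h1).trans ?_
  rw [Finset.sum_add_distrib, ← add_assoc]
  refine add_le_add (hC2 x hx) ?_
  rw [← Finset.sum_filter, Finset.sum_const, nsmul_eq_mul, mul_one]
  have h5 : ((PL x).filter (fun p => p ∣ b)).card ≤ b.divisors.card := by
    refine Finset.card_le_card fun p hp => ?_
    rw [Nat.mem_divisors]
    exact ⟨(Finset.mem_filter.1 hp).2, hb⟩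
  exact_mod_cast h5

end Pool.Agent.Helper38.TW
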