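import Mathlib
import Pool.Agent.Helper38.TW.AlphRoots
import Pool.Agent.Helper38.TW.LinChar
import Pool.Agent.Helper38.TW.FieldL
import Pool.Agent.Helper38.TW.RootsMertens
import Pool.Agent.Helper38.TW.DegOne
import Pool.Agent.Helper38.TW.LemmaL

/-!
# TW-F6: the weight bound

`m = card I ≥ 1`, `s = 2^{m-1}`, `α_i(p) = alph (condI dt τ I E) i p`. `L`, `b₁` from `field_L`, `1_L(p) = 1` if there is a ring hom `𝓞_L → ZMod p` and `p ∤ b₁`, `0` otherwise; `∑_{p ≤ Y} 1_L(p)/p ≥ δ_L log log Y - C` (`deg_one_lower`; the finitely many `p ∣ b₁` cost a constant).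
CASE 1: some `g_{i₀}`, `i₀ ∈ I`, nonlinear (an irreducible polynomial has degree `≥ 1`, so degree `≥ 2`), or `m ≥ 3`. For every prime `p` and `i ∈ I`: `α_i(p) ≤ rootsMod (g_i) p / s` (`alph_le_roots`), and for `i = i₀`: `α_{i₀}(p) ≤ (rootsMod (g_{i₀}) p - 1_L(p))/s`
(if `1_L(p) = 1`: `alph_le_split` gives `α ≤ 1/s ≤ (r - 1)/s`, as `r = natDegree (g_{i₀}) ≥ 2`). With `roots_mertens` (`ε = min(δ_L/4, 1/12)`): `∑_p ∑_i α_i(p)/p ≤ (m (1+ε) - [i₀ exists] δ_L)/s · log log Y + C`: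
`m = 1`: `1 + ε - δ_L ≤ 1 - (3/4) δ_L`; `m = 2`: `1 + ε - δ_L/2 ≤ 1 - δ_L/4`; `m ≥ 3`: `(3/4)(1 + 1/12) = 13/16` (`m/2^{m-1} ≤ 3/4`).
CASE 2: all `g_i`, `i ∈ I`, linear, `m ≤ 2`, and `k ∉ I` with `E_k > 1`. `lin_char` gives `κ_{ik}`; `alph_le_char`: `α_i(p) ≤ (1/s) 1[(τ_k κ_{ik} E_k/p) = 1]`; `lemmaL` with `κ = τ_k κ_{ik}` (its prime factors divide `B` and `E_k` is coprime to `B`, so `IsCoprime κ E_k`) and `q = E_k`:
`∑_p ∑_i α_i(p)/p ≤ (m/s) ((1/2) log log Y + (1/2) log(1 + log E_k) + C)`, `m/s = 1` for `m = 1, 2`, `E_k ≤ z`.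
`δ = min(δ_L/4, 1/8)`. There are finitely many `I`, so the constants may depend on `I` (and on `i`, `k`): take maxima. (`log log Y > 0` for `Y ≥ 3`; `log(1 + log z) ≥ 0` for `z ≥ 1`.)
-/

set_option autoImplicit false

namespace Pool.Agent.Helper38.TW

open Finset Polynomial Pool.Agent.Helper10.P5 NumberField

variable {f : ℤ[X]} {ι : Type} [Fintype ι] [DecidableEq ι]

private lemma f6_card (m : ℕ) (hm : 3 ≤ m) : (m : ℝ) / 2 ^ (m - 1) ≤ 3 / 4 := by
  obtain ⟨j, rfl⟩ := Nat.exists_eq_add_of_le hm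
  have h : ∀ j : ℕ, ((3 + j : ℕ) : ℝ) ≤ 3 * 2 ^ j := by
    intro j
    induction j with
    | zero => norm_num
    | succ j ih =>
      push_cast at ih ⊢
      rw [pow_succ]
      have h1 : (1 : ℝ) ≤ 2 ^ j := one_le_pow₀ (by norm_num)
      linarith
  have h2 : 3 + j - 1 = j + 2 := by omega
  rw [h2, div_le_iff₀ (by positivity), pow_add]
  have := h j
  linarith

open Classical in
private lemma f6_good (L : Type) [Field L] [NumberField L] (b₁ : ℕ) (hb : b₁ ≠ 0) :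
    ∃ δ C : ℝ, 0 < δ ∧ 0 ≤ C ∧ ∀ x : ℕ, 3 ≤ x → δ * Real.log (Real.log x) - C ≤
      ∑ p ∈ (PL x).filter (fun p => Nonempty (𝓞 L →+* ZMod p) ∧ ¬ p ∣ b₁), (1 : ℝ) / p := by
  obtain ⟨δ, C, hδ, h⟩ := deg_one_lower L
  refine ⟨δ, |C| + b₁.primeFactors.card, hδ, by positivity, ?_⟩
  intro x hx
  have h1 := h x hx
  have h2 : ∑ p ∈ (PL x).filter (fun p => Nonempty (𝓞 L →+* ZMod p)), (1 : ℝ) / p ≤
      ∑ p ∈ (PL x).filter (fun p => Nonempty (𝓞 L →+* ZMod p) ∧ ¬ p ∣ b₁), (1 : ℝ) / p +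
        ∑ p ∈ b₁.primeFactors, (1 : ℝ) / p := by
    have h3 : (PL x).filter (fun p => Nonempty (𝓞 L →+* ZMod p)) ⊆
        (PL x).filter (fun p => Nonempty (𝓞 L →+* ZMod p) ∧ ¬ p ∣ b₁) ∪ b₁.primeFactors := by
      intro p hp
      rw [mem_filter, mem_PL] at hp
      rw [mem_union]
      by_cases hd : p ∣ b₁
      · right
        exact Nat.mem_primeFactors.2 ⟨hp.1.2, hd, hb⟩
      · left
        rw [mem_filter, mem_PL]
        exact ⟨hp.1, hp.2, hd⟩
    refine (sum_le_sum_of_subset_of_nonneg h3 (fun _ _ _ => by positivity)).trans ?_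
    rw [← sum_union_inter]
    have : 0 ≤ ∑ p ∈ (PL x).filter (fun p => Nonempty (𝓞 L →+* ZMod p) ∧ ¬ p ∣ b₁) ∩
        b₁.primeFactors, (1 : ℝ) / p := sum_nonneg fun _ _ => by positivity
    linarith
  have h4 : ∑ p ∈ b₁.primeFactors, (1 : ℝ) / p ≤ b₁.primeFactors.card := by
    calc ∑ p ∈ b₁.primeFactors, (1 : ℝ) / p ≤ ∑ _p ∈ b₁.primeFactors, (1 : ℝ) := by
          refine sum_le_sum fun p hp => ?_
          have h5 : (1 : ℝ) ≤ p := by exact_mod_cast (Nat.prime_of_mem_primeFactors hp).one_le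
          rw [div_le_one (by linarith)]
          exact h5
      _ = _ := by simp
  have h6 := le_abs_self C
  linarith

private lemma f6_sum1 (dt : FData f ι) (τ : ι → ℤ) (I : Finset ι) (E : ι → ℕ) (p : ℕ)
    (hp : p.Prime) :
    ∑ i : {i // i ∈ I}, alph (condI dt τ I E) i p ≤
      (∑ i ∈ I, (rootsMod (dt.g i) p : ℝ)) / 2 ^ (I.card - 1) := by
  rw [Finset.sum_div, ← Finset.sum_coe_sort I]
  exact Finset.sum_le_sum fun i _ => alph_le_roots dt τ I E i p hp

private lemma f6_sum2 (dt : FData f ι) (τ : ι → ℤ) (I : Finset ι) (E : ι → ℕ) (p : ℕ)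
    (hp : p.Prime) (i₀ : ι) (hi₀ : i₀ ∈ I) (hd : 2 ≤ (dt.g i₀).natDegree)
    (h1 : rootsMod (dt.g i₀) p = (dt.g i₀).natDegree)
    (h2 : ∀ x : ℤ, (p : ℤ) ∣ (dt.g i₀).eval x → ∀ k, k ≠ i₀ →
      jacobiSym (τ k * (dt.g k).eval x) p ≠ -1) :
    ∑ i : {i // i ∈ I}, alph (condI dt τ I E) i p ≤
      (∑ i ∈ I, (rootsMod (dt.g i) p : ℝ) - 1) / 2 ^ (I.card - 1) := by
  have h3 : ∀ i : {i // i ∈ I}, alph (condI dt τ I E) i p ≤
      ((rootsMod (dt.g i.1) p : ℝ) - if i.1 = i₀ then 1 else 0) / 2 ^ (I.card - 1) := by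
    intro i
    by_cases h : i.1 = i₀
    · rw [if_pos h]
      have h4 := alph_le_split dt τ I E i p hp (by rw [h]; exact h2)
      refine h4.trans (div_le_div_of_nonneg_right ?_ (by positivity))
      rw [h, h1]
      have h5 : (2 : ℝ) ≤ ((dt.g i₀).natDegree : ℝ) := by exact_mod_cast hd
      linarith
    · rw [if_neg h, sub_zero]
      exact alph_le_roots dt τ I E i p hp
  refine (Finset.sum_le_sum fun i _ => h3 i).trans (le_of_eq ?_)
  rw [← Finset.sum_div]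
  congr 1
  have h6 := Finset.sum_coe_sort I (fun i => (rootsMod (dt.g i) p : ℝ) - if i = i₀ then 1 else 0)
  rw [h6, Finset.sum_sub_distrib, Finset.sum_ite_eq' I i₀ (fun _ => (1 : ℝ)), if_pos hi₀]

private lemma f6_pos {Y : ℕ} (hY : 3 ≤ Y) : 0 < Real.log (Real.log Y) := by
  apply Real.log_pos
  have h1 : (3 : ℝ) ≤ Y := by exact_mod_cast hY
  have h2 : Real.log 3 ≤ Real.log Y := Real.log_le_log (by norm_num) h1
  have h3 : (1 : ℝ) < Real.log 3 := by
    rw [Real.lt_log_iff_exp_lt (by norm_num)]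
    exact lt_trans Real.exp_one_lt_d9 (by norm_num)
  linarith

private lemma f6_char (dt : FData f ι) (τ : ι → ℤ) (hτ : ∀ i, τ i ∣ (dt.B : ℤ)) (i k : ι) :
    ∃ C : ℝ, 0 ≤ C ∧ ∀ (I : Finset ι) (E : ι → ℕ) (z : ℕ) (hi : i ∈ I), k ∉ I →
      (dt.g i).natDegree = 1 → Squarefree (E k) → Nat.Coprime (E k) dt.B → E k ≤ z → 1 < E k →
      ∀ Y : ℕ, 3 ≤ Y →
      ∑ p ∈ PL Y, alph (condI dt τ I E) ⟨i, hi⟩ p / p ≤
        (1 / 2 ^ (I.card - 1)) *
          ((1 / 2) * Real.log (Real.log Y) + (1 / 2) * Real.log (1 + Real.log z) + C) := by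
  classical
  by_cases hik : k ≠ i ∧ (dt.g i).natDegree = 1
  · obtain ⟨hki, hlin⟩ := hik
    obtain ⟨κ, hκ0, hκB, hκ⟩ := lin_char dt i k hki hlin
    have hB0 : (dt.B : ℤ) ≠ 0 := by exact_mod_cast dt.B_ne
    have hτ0 : τ k ≠ 0 := by
      intro h
      have := hτ k
      rw [h, zero_dvd_iff] at this
      exact hB0 this
    have hτκ : τ k * κ ≠ 0 := mul_ne_zero hτ0 hκ0
    obtain ⟨C, hC⟩ := lemmaL (τ k * κ) hτκ
    refine ⟨|C|, abs_nonneg _, ?_⟩
    intro I E z hi hk _ hsq hcop hz hE Y hY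
    have hodd : Odd (E k) := by
      rw [← Nat.not_even_iff_odd]
      intro he
      have h2 : 2 ∣ Nat.gcd (E k) dt.B := Nat.dvd_gcd he.two_dvd dt.two_dvd
      rw [hcop] at h2
      omega
    have hic : IsCoprime (τ k * κ) ((E k : ℕ) : ℤ) := by
      rw [Int.isCoprime_iff_gcd_eq_one]
      by_contra hne
      obtain ⟨p, hp, hpd⟩ := Nat.exists_prime_and_dvd hne
      have h1 : (p : ℤ) ∣ τ k * κ := (Int.natCast_dvd_natCast.2 hpd).trans (Int.gcd_dvd_left _ _)
      have h2 : (p : ℤ) ∣ (E k : ℕ) := (Int.natCast_dvd_natCast.2 hpd).trans (Int.gcd_dvd_right _ _)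
      have h3 : p ∣ E k := by exact_mod_cast h2
      have h4 : p ∣ dt.B := by
        rcases (Nat.prime_iff_prime_int.1 hp).dvd_or_dvd h1 with h5 | h5
        · have h6 := h5.trans (hτ k)
          exact_mod_cast h6
        · exact hκB p hp h5
      have h7 : p ∣ Nat.gcd (E k) dt.B := Nat.dvd_gcd h3 h4
      rw [hcop] at h7
      exact hp.one_lt.ne' (Nat.dvd_one.1 h7)
    have h8 := hC (E k) hE hodd hsq hic Y hY
    have h9 : ∑ p ∈ PL Y, alph (condI dt τ I E) ⟨i, hi⟩ p / p ≤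
        (1 / 2 ^ (I.card - 1)) *
          ∑ p ∈ (PL Y).filter (fun p => jacobiSym (τ k * κ * E k) p = 1), (1 : ℝ) / p := by
      rw [Finset.sum_filter, Finset.mul_sum]
      refine Finset.sum_le_sum fun p hp => ?_
      have hpp := ((mem_PL Y p).1 hp).2
      have h10 := alph_le_char dt τ I E ⟨i, hi⟩ p hpp hlin k hk κ
        (fun hB x hx => hκ p hpp hB x hx)
      have h11 : (0 : ℝ) ≤ p := Nat.cast_nonneg p
      refine (div_le_div_of_nonneg_right h10 h11).trans (le_of_eq ?_)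
      by_cases h12 : jacobiSym (τ k * κ * E k) p = 1
      · rw [if_pos h12, if_pos h12]
        ring
      · rw [if_neg h12, if_neg h12]
        ring
    refine h9.trans (mul_le_mul_of_nonneg_left ?_ (by positivity))
    refine h8.trans ?_
    have h13 : (1 : ℝ) < E k := by exact_mod_cast hE
    have h14 : Real.log (E k) ≤ Real.log z :=
      Real.log_le_log (by linarith) (by exact_mod_cast hz)
    have h15 : 0 < Real.log (E k) := Real.log_pos h13
    have h16 : Real.log (1 + Real.log (E k)) ≤ Real.log (1 + Real.log z) :=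
      Real.log_le_log (by linarith) (by linarith)
    have h17 := le_abs_self C
    linarith
  · refine ⟨0, le_rfl, ?_⟩
    intro I E z hi hk hlin _ _ _ _ Y _
    exfalso
    apply hik
    refine ⟨?_, hlin⟩
    rintro rfl
    exact hk hi

theorem weight_bound (dt : FData f ι) (τ : ι → ℤ) (hτ : ∀ i, τ i ∣ (dt.B : ℤ)) :
    ∃ δ C : ℝ, 0 < δ ∧ δ ≤ 1 ∧ 0 < C ∧ ∀ (I : Finset ι) (E : ι → ℕ) (z : ℕ), I.Nonempty → 1 ≤ z →
      (∀ k, k ∉ I → Squarefree (E k) ∧ Nat.Coprime (E k) dt.B ∧ E k ≤ z) →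
      NonDeg dt I E → ∀ Y : ℕ, 3 ≤ Y →
      ∑ p ∈ PL Y, (∑ i : {i // i ∈ I}, alph (condI dt τ I E) i p) / p ≤
        (1 - δ) * Real.log (Real.log Y) + (1 / 2) * Real.log (1 + Real.log z) + C := by
  classical
  obtain ⟨L, iF, iN, b₁, hb₁, _, hL⟩ := field_L dt τ
  obtain ⟨δL, CG, hδL, hCG, hG⟩ := f6_good L b₁ hb₁
  obtain ⟨ε, hε⟩ : ∃ ε, ε = min (δL / 4) (1 / 12) := ⟨_, rfl⟩
  have hε0 : 0 < ε := by
    rw [hε]
    exact lt_min (by linarith) (by norm_num)
  have hε1 : ε ≤ δL / 4 := by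
    rw [hε]
    exact min_le_left _ _
  have hε2 : ε ≤ 1 / 12 := by
    rw [hε]
    exact min_le_right _ _
  have hRM : ∀ i, ∃ C : ℝ, ∀ x : ℕ, 3 ≤ x →
      ∑ p ∈ PL x, (rootsMod (dt.g i) p : ℝ) / p ≤ (1 + ε) * Real.log (Real.log x) + C :=
    fun i => roots_mertens (dt.g i) (dt.irr i) ε hε0
  choose CR hCR using hRM
  have hCH := f6_char dt τ hτ
  choose CC hCC0 hCC using hCH
  obtain ⟨δ, hδ⟩ : ∃ δ, δ = min (δL / 4) (1 / 8) := ⟨_, rfl⟩
  have hδ0 : 0 < δ := by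
    rw [hδ]
    exact lt_min (by linarith) (by norm_num)
  have hδ1 : δ ≤ δL / 4 := by
    rw [hδ]
    exact min_le_left _ _
  have hδ2 : δ ≤ 1 / 8 := by
    rw [hδ]
    exact min_le_right _ _
  have hS1 : 0 ≤ ∑ i, |CR i| := sum_nonneg fun i _ => abs_nonneg _
  have hS2 : 0 ≤ ∑ i, ∑ k, CC i k := sum_nonneg fun i _ => sum_nonneg fun k _ => hCC0 i k
  refine ⟨δ, ∑ i, |CR i| + CG + ∑ i, ∑ k, CC i k + 1, hδ0, by linarith, by linarith, ?_⟩
  intro I E z hI hz hE hND Y hY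
  obtain ⟨D, hD⟩ : ∃ D, D = Real.log (Real.log Y) := ⟨_, rfl⟩
  have hD0 : 0 < D := by
    rw [hD]
    exact f6_pos hY
  obtain ⟨Z, hZ⟩ : ∃ Z, Z = Real.log (1 + Real.log z) := ⟨_, rfl⟩
  have hZ0 : 0 ≤ Z := by
    rw [hZ]
    apply Real.log_nonneg
    have h1 : (1 : ℝ) ≤ z := by exact_mod_cast hz
    have h2 := Real.log_nonneg h1
    linarith
  rw [← hD, ← hZ]
  have hm1 : 1 ≤ I.card := hI.card_pos
  -- the sum of the root numbers
  have hR : ∑ i ∈ I, ∑ p ∈ PL Y, (rootsMod (dt.g i) p : ℝ) / p ≤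
      I.card * ((1 + ε) * D) + ∑ i, |CR i| := by
    calc ∑ i ∈ I, ∑ p ∈ PL Y, (rootsMod (dt.g i) p : ℝ) / p
        ≤ ∑ i ∈ I, ((1 + ε) * D + |CR i|) := by
          refine sum_le_sum fun i _ => ?_
          have h1 := hCR i Y hY
          rw [← hD] at h1
          have h2 := le_abs_self (CR i)
          linarith
      _ = I.card * ((1 + ε) * D) + ∑ i ∈ I, |CR i| := by
          rw [sum_add_distrib, sum_const, nsmul_eq_mul]
      _ ≤ _ := by
          have h1 : ∑ i ∈ I, |CR i| ≤ ∑ i, |CR i| :=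
            sum_le_sum_of_subset_of_nonneg (subset_univ I) (fun _ _ _ => abs_nonneg _)
          linarith
  have hp2 : (1 : ℝ) ≤ 2 ^ (I.card - 1) := one_le_pow₀ (by norm_num)
  have hp0 : (0 : ℝ) < 2 ^ (I.card - 1) := by linarith
  by_cases h3 : 3 ≤ I.card
  · -- `m ≥ 3`
    have hA : ∑ p ∈ PL Y, (∑ i : {i // i ∈ I}, alph (condI dt τ I E) i p) / p ≤
        (∑ i ∈ I, ∑ p ∈ PL Y, (rootsMod (dt.g i) p : ℝ) / p) / 2 ^ (I.card - 1) := by
      rw [Finset.sum_comm, Finset.sum_div]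
      refine sum_le_sum fun p hp => ?_
      have h1 := f6_sum1 dt τ I E p ((mem_PL Y p).1 hp).2
      have h2 : (0 : ℝ) ≤ p := Nat.cast_nonneg p
      refine (div_le_div_of_nonneg_right h1 h2).trans (le_of_eq ?_)
      rw [← Finset.sum_div]
      ring
    refine hA.trans ?_
    have h4 := f6_card I.card h3
    calc (∑ i ∈ I, ∑ p ∈ PL Y, (rootsMod (dt.g i) p : ℝ) / p) / 2 ^ (I.card - 1)
        ≤ (I.card * ((1 + ε) * D) + ∑ i, |CR i|) / 2 ^ (I.card - 1) :=
          div_le_div_of_nonneg_right hR hp0.le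
      _ = ((I.card : ℝ) / 2 ^ (I.card - 1)) * ((1 + ε) * D) +
            (∑ i, |CR i|) / 2 ^ (I.card - 1) := by ring
      _ ≤ (3 / 4) * ((1 + ε) * D) + ∑ i, |CR i| := by
          refine add_le_add (mul_le_mul_of_nonneg_right h4 (by positivity)) ?_
          exact div_le_self hS1 hp2
      _ ≤ (1 - δ) * D + (1 / 2) * Z +
            (∑ i, |CR i| + CG + ∑ i, ∑ k, CC i k + 1) := by
          have h5 : (3 / 4) * (1 + ε) ≤ 1 - δ := by linarith
          have h6 : (3 / 4) * (1 + ε) * D ≤ (1 - δ) * D := mul_le_mul_of_nonneg_right h5 hD0.le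
          linarith
  · by_cases hnl : ∃ i ∈ I, (dt.g i).natDegree ≠ 1
    · -- a nonlinear factor
      obtain ⟨i₀, hi₀, hdeg⟩ := hnl
      have hd2 : 2 ≤ (dt.g i₀).natDegree := by
        have h1 : 0 < ((dt.g i₀).map (Int.castRingHom ℚ)).natDegree := by
          rw [Polynomial.natDegree_pos_iff_degree_pos]
          exact Polynomial.degree_pos_of_irreducible (dt.irr i₀)
        have h2 : ((dt.g i₀).map (Int.castRingHom ℚ)).natDegree ≤ (dt.g i₀).natDegree :=
          Polynomial.natDegree_map_le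
        omega
      have hGY := hG Y hY
      rw [← hD] at hGY
      have hA : ∑ p ∈ PL Y, (∑ i : {i // i ∈ I}, alph (condI dt τ I E) i p) / p ≤
          (∑ i ∈ I, ∑ p ∈ PL Y, (rootsMod (dt.g i) p : ℝ) / p -
            ∑ p ∈ (PL Y).filter (fun p => Nonempty (𝓞 L →+* ZMod p) ∧ ¬ p ∣ b₁),
              (1 : ℝ) / p) / 2 ^ (I.card - 1) := by
        rw [Finset.sum_comm, Finset.sum_filter, ← Finset.sum_sub_distrib, Finset.sum_div]
        refine sum_le_sum fun p hp => ?_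
        have hpp := ((mem_PL Y p).1 hp).2
        have h2 : (0 : ℝ) ≤ p := Nat.cast_nonneg p
        rw [← Finset.sum_div]
        by_cases hgood : Nonempty (𝓞 L →+* ZMod p) ∧ ¬ p ∣ b₁
        · rw [if_pos hgood]
          obtain ⟨h5, h6⟩ := hL p hpp hgood.2 hgood.1 i₀
          have h1 := f6_sum2 dt τ I E p hpp i₀ hi₀ hd2 h5 h6
          refine (div_le_div_of_nonneg_right h1 h2).trans (le_of_eq ?_)
          ring
        · rw [if_neg hgood, sub_zero]
          have h1 := f6_sum1 dt τ I E p hpp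
          refine (div_le_div_of_nonneg_right h1 h2).trans (le_of_eq ?_)
          ring
      refine hA.trans ?_
      have h7 : ∑ i ∈ I, ∑ p ∈ PL Y, (rootsMod (dt.g i) p : ℝ) / p -
            ∑ p ∈ (PL Y).filter (fun p => Nonempty (𝓞 L →+* ZMod p) ∧ ¬ p ∣ b₁),
              (1 : ℝ) / p ≤ I.card * ((1 + ε) * D) - δL * D + (∑ i, |CR i| + CG) := by
        linarith
      refine (div_le_div_of_nonneg_right h7 hp0.le).trans ?_
      have hcard : I.card = 1 ∨ I.card = 2 := by omega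
      have e1 : ε * D ≤ δL / 4 * D := mul_le_mul_of_nonneg_right hε1 hD0.le
      have e2 : δ * D ≤ δL / 4 * D := mul_le_mul_of_nonneg_right hδ1 hD0.le
      have e3 : 0 ≤ δL * D := by positivity
      rcases hcard with hc | hc
      · rw [hc]
        norm_num
        linarith
      · rw [hc]
        norm_num
        linarith
    · -- all factors linear, `m ≤ 2`
      push Not at hnl
      have hk : ∃ k, k ∉ I ∧ 1 < E k := by
        rcases hND with ⟨i, hi, hne⟩ | h | h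
        · exact absurd (hnl i hi) hne
        · exact absurd h h3
        · exact h
      obtain ⟨k, hkI, hk1⟩ := hk
      obtain ⟨hk2, hk3, hk4⟩ := hE k hkI
      have hA : ∑ p ∈ PL Y, (∑ i : {i // i ∈ I}, alph (condI dt τ I E) i p) / p ≤
          ∑ i : {i // i ∈ I}, (1 / 2 ^ (I.card - 1)) *
            ((1 / 2) * D + (1 / 2) * Z + CC i.1 k) := by
        have h1 : ∑ p ∈ PL Y, (∑ i : {i // i ∈ I}, alph (condI dt τ I E) i p) / p =
            ∑ i : {i // i ∈ I}, ∑ p ∈ PL Y, alph (condI dt τ I E) i p / p := by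
          rw [Finset.sum_comm]
          refine sum_congr rfl fun p _ => ?_
          rw [Finset.sum_div]
        rw [h1]
        refine sum_le_sum fun i _ => ?_
        have h2 := hCC i.1 k I E z i.2 hkI (hnl i.1 i.2) hk2 hk3 hk4 hk1 Y hY
        rw [← hD, ← hZ] at h2
        exact h2
      refine hA.trans ?_
      have h5 : ∑ i : {i // i ∈ I}, (1 / 2 ^ (I.card - 1)) *
            ((1 / 2) * D + (1 / 2) * Z + CC i.1 k) =
          (I.card : ℝ) / 2 ^ (I.card - 1) * ((1 / 2) * D + (1 / 2) * Z) +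
            (1 / 2 ^ (I.card - 1)) * ∑ i ∈ I, CC i k := by
        have h6 := Finset.sum_coe_sort I (fun i => (1 / (2 : ℝ) ^ (I.card - 1)) *
            ((1 / 2) * D + (1 / 2) * Z + CC i k))
        rw [h6, ← Finset.mul_sum, Finset.sum_add_distrib, sum_const, nsmul_eq_mul]
        ring
      rw [h5]
      have h7 : ∑ i ∈ I, CC i k ≤ ∑ i, ∑ k, CC i k := by
        calc ∑ i ∈ I, CC i k ≤ ∑ i ∈ I, ∑ k, CC i k :=
              sum_le_sum fun i _ => single_le_sum (f := fun k => CC i k)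
                (fun k _ => hCC0 i k) (mem_univ k)
          _ ≤ _ := sum_le_sum_of_subset_of_nonneg (subset_univ I)
              (fun i _ _ => sum_nonneg fun k _ => hCC0 i k)
      have h8 : 0 ≤ ∑ i ∈ I, CC i k := sum_nonneg fun i _ => hCC0 i k
      have h9 : (1 / (2 : ℝ) ^ (I.card - 1)) * ∑ i ∈ I, CC i k ≤ ∑ i ∈ I, CC i k := by
        rw [one_div, inv_mul_eq_div]
        exact div_le_self h8 hp2
      have hcard : I.card = 1 ∨ I.card = 2 := by omega
      have h10 : (I.card : ℝ) / 2 ^ (I.card - 1) = 1 := by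
        rcases hcard with hc | hc
        · rw [hc]
          norm_num
        · rw [hc]
          norm_num
      rw [h10]
      have e4 : (1 / 2) * D ≤ (1 - δ) * D := mul_le_mul_of_nonneg_right (by linarith) hD0.le
      linarith

end Pool.Agent.Helper38.TW
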