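import Mathlib
import Pool.Agent.Helper38.TW.GDefs
import Pool.Agent.Helper38.TW.FExists
import Pool.Agent.Helper38.TW.Siegel

/-!
# TW-G1: the degenerate twists are finite in number

`D ∈ DegSet`: `I` nonempty, `¬ NonDeg`: all `g_i`, `i ∈ I`, are linear, `card I ≤ 2`, and `E_k ≤ 1`, so `E_k = 1` (`∏ E` squarefree, so `E_k ≠ 0`), for `k ∉ I`. Let `T = ∏_{k ∉ I} τ_k` and `F = C T * ∏_{k ∉ I} g_k`. Then `F(x) = ∏_{k ∉ I} τ_k g_k(x) = (∏_{k ∉ I} τ_k u_k)²`, so `x` is the first coordinate of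
an integral point of `Y² = F(X)`. `F` is squarefree over `ℚ` (`T ≠ 0` because the `τ_k` divide `B ≠ 0`; the `g_k` are irreducible and pairwise coprime over `ℚ` by `bez`), and `deg F = ∑_{k ∉ I} deg g_k = deg f - card I` (`sum_deg`), `card I ≤ min (number of linear g_i) 2 ≤ min l 2` (`card_lin`), so `deg F ≥ 3`.
`siegel`: finitely many `x` for each of the finitely many pairs (`I`, `(τ_k)`) (`τ_k ∣ B`). For given `x`: `y ≠ 0`, `y² = D f(x)`, so `f(x) ≠ 0`, and `D` squarefree gives `D ∣ y`, `y = D y₁`, `D y₁² = f(x)`, `D ∣ f(x)`: finitely many `D`.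
-/

set_option autoImplicit false

namespace Pool.Agent.Helper38.TW

open Finset Polynomial

variable {f : ℤ[X]} {ι : Type} [Fintype ι] [DecidableEq ι]

private theorem g_ne (dt : FData f ι) (i : ι) : dt.g i ≠ 0 := by
  intro h
  have := (dt.irr i).ne_zero
  rw [h] at this
  simp at this

private theorem g_coprime (dt : FData f ι) {i k : ι} (hik : i ≠ k) :
    IsCoprime ((dt.g i).map (Int.castRingHom ℚ)) ((dt.g k).map (Int.castRingHom ℚ)) := by
  obtain ⟨u, v, huv⟩ := dt.bez i k hik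
  have hB : (dt.B : ℚ) ≠ 0 := by exact_mod_cast dt.B_ne
  have h := congrArg (Polynomial.map (Int.castRingHom ℚ)) huv
  simp only [Polynomial.map_add, Polynomial.map_mul, Polynomial.map_C] at h
  refine ⟨C ((dt.B : ℚ)⁻¹) * u.map (Int.castRingHom ℚ), C ((dt.B : ℚ)⁻¹) * v.map (Int.castRingHom ℚ), ?_⟩
  rw [mul_assoc, mul_assoc, ← mul_add, h, ← C_mul]
  simp [hB]

/-- the polynomial of the twists with given `I` and `τ` -/
private noncomputable def FI (dt : FData f ι) (I : Finset ι) (τ : ι → ℤ) : ℤ[X] :=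
  C (∏ k ∈ Iᶜ, τ k) * ∏ k ∈ Iᶜ, dt.g k

private theorem FI_sqf (dt : FData f ι) (I : Finset ι) (τ : ι → ℤ) (hτ : ∀ k, τ k ≠ 0) :
    Squarefree ((FI dt I τ).map (Int.castRingHom ℚ)) := by
  have hT : ((∏ k ∈ Iᶜ, τ k : ℤ) : ℚ) ≠ 0 := by
    exact_mod_cast Finset.prod_ne_zero_iff.mpr (fun k _ => hτ k)
  have h1 : (FI dt I τ).map (Int.castRingHom ℚ) =
      C ((∏ k ∈ Iᶜ, τ k : ℤ) : ℚ) * ∏ k ∈ Iᶜ, (dt.g k).map (Int.castRingHom ℚ) := by
    rw [FI, Polynomial.map_mul, Polynomial.map_C, Polynomial.map_prod]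
    rfl
  rw [h1]
  have hu : IsUnit (C ((∏ k ∈ Iᶜ, τ k : ℤ) : ℚ)) :=
    Polynomial.isUnit_C.mpr (isUnit_iff_ne_zero.mpr hT)
  rw [(associated_unit_mul_left (∏ k ∈ Iᶜ, (dt.g k).map (Int.castRingHom ℚ)) _ hu).squarefree_iff]
  apply Finset.squarefree_prod_of_pairwise_isCoprime
  · intro i _ k _ hik
    exact (g_coprime dt hik).isRelPrime
  · intro i _
    exact (dt.irr i).squarefree

private theorem FI_deg (dt : FData f ι) (I : Finset ι) (τ : ι → ℤ) (hτ : ∀ k, τ k ≠ 0)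
    (hdeg : 3 + min ((f.map (Int.castRingHom ℚ)).roots.toFinset.card) 2 ≤ f.natDegree)
    (hI : ∀ i ∈ I, (dt.g i).natDegree = 1) (hc : I.card ≤ 2) : 3 ≤ (FI dt I τ).natDegree := by
  have h1 : (FI dt I τ).natDegree = ∑ k ∈ Iᶜ, (dt.g k).natDegree := by
    rw [FI, natDegree_C_mul (Finset.prod_ne_zero_iff.mpr (fun k _ => hτ k)),
      natDegree_prod _ _ (fun k _ => g_ne dt k)]
  have h2 : ∑ k ∈ I, (dt.g k).natDegree = I.card := by
    rw [Finset.sum_congr rfl hI]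
    simp
  have h3 : ∑ k ∈ I, (dt.g k).natDegree + ∑ k ∈ Iᶜ, (dt.g k).natDegree = f.natDegree := by
    rw [Finset.sum_add_sum_compl, sum_deg dt]
  have h4 : I.card ≤ (univ.filter (fun i => (dt.g i).natDegree = 1)).card := by
    apply Finset.card_le_card
    intro i hi
    simp [hI i hi]
  have h5 := card_lin dt
  have h6 : I.card ≤ min ((f.map (Int.castRingHom ℚ)).roots.toFinset.card) 2 :=
    le_min (h4.trans h5) hc
  omega

private theorem desc_point (dt : FData f ι) {D x t : ℤ} {E : ι → ℕ} {τ : ι → ℤ}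
    (h : IsDesc dt D x t E τ) {I : Finset ι} (hE : ∀ k, k ∉ I → E k = 1) :
    ∃ y : ℤ, y ^ 2 = (FI dt I τ).eval x := by
  obtain ⟨-, -, -, -, -, hu⟩ := h
  choose u hu0 hu using hu
  refine ⟨∏ k ∈ Iᶜ, τ k * u k, ?_⟩
  rw [FI, eval_mul, eval_C, eval_prod, ← Finset.prod_mul_distrib, ← Finset.prod_pow]
  apply Finset.prod_congr rfl
  intro k hk
  rw [hu k, hE k (Finset.mem_compl.mp hk)]
  push_cast
  ring

/-- the finite set of the possible `x` -/
private theorem xset_finite (dt : FData f ι)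
    (hdeg : 3 + min ((f.map (Int.castRingHom ℚ)).roots.toFinset.card) 2 ≤ f.natDegree) :
    {x : ℤ | ∃ (I : Finset ι) (τ : ι → ℤ), (∀ i ∈ I, (dt.g i).natDegree = 1) ∧ I.card ≤ 2 ∧
      (∀ k, τ k ∈ divB dt) ∧ (∀ k, τ k ≠ 0) ∧ ∃ y : ℤ, y ^ 2 = (FI dt I τ).eval x}.Finite := by
  have h1 : {x : ℤ | ∃ (I : Finset ι) (τ : ι → ℤ), (∀ i ∈ I, (dt.g i).natDegree = 1) ∧ I.card ≤ 2 ∧
      (∀ k, τ k ∈ divB dt) ∧ (∀ k, τ k ≠ 0) ∧ ∃ y : ℤ, y ^ 2 = (FI dt I τ).eval x} ⊆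
      ⋃ I ∈ {I : Finset ι | (∀ i ∈ I, (dt.g i).natDegree = 1) ∧ I.card ≤ 2},
        ⋃ τ ∈ {τ : ι → ℤ | (∀ k, τ k ∈ divB dt) ∧ ∀ k, τ k ≠ 0},
          (Prod.fst '' {P : ℤ × ℤ | P.2 ^ 2 = (FI dt I τ).eval P.1}) := by
    rintro x ⟨I, τ, h1, h2, h3, h4, y, hy⟩
    simp only [Set.mem_iUnion]
    exact ⟨I, ⟨h1, h2⟩, τ, ⟨h3, h4⟩, ⟨(x, y), hy, rfl⟩⟩
  refine Set.Finite.subset ?_ h1
  refine Set.Finite.biUnion (Set.toFinite _) ?_
  rintro I ⟨hI, hc⟩
  refine Set.Finite.biUnion ?_ ?_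
  · refine Set.Finite.subset (Fintype.piFinset (fun _ : ι => divB dt)).finite_toSet ?_
    rintro τ ⟨h, -⟩
    rw [Finset.mem_coe, Fintype.mem_piFinset]
    exact h
  · rintro τ ⟨-, hτ⟩
    exact (siegel (FI dt I τ) (FI_sqf dt I τ hτ) (FI_deg dt I τ hτ hdeg hI hc)).image _

theorem deg_finite (dt : FData f ι)
    (hdeg : 3 + min ((f.map (Int.castRingHom ℚ)).roots.toFinset.card) 2 ≤ f.natDegree) :
    (DegSet dt).Finite := by
  have hB0 : (dt.B : ℤ) ≠ 0 := by exact_mod_cast dt.B_ne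
  refine Set.Finite.subset (Set.Finite.biUnion (xset_finite dt hdeg)
    (t := fun x => Set.Icc (-|f.eval x|) |f.eval x|) (fun x _ => Set.finite_Icc _ _)) ?_
  rintro D ⟨hD, x, y, t, E, τ, I, hy, hyx, hdesc, -, hnd⟩
  simp only [Set.mem_iUnion]
  unfold NonDeg at hnd
  push Not at hnd
  obtain ⟨hI, hc, hE⟩ := hnd
  have hτ : ∀ k, τ k ≠ 0 := by
    intro k h0
    have := hdesc.2.1 k
    rw [h0, zero_dvd_iff] at this
    exact hB0 this
  have hτB : ∀ k, τ k ∈ divB dt := by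
    intro k
    have h1 := hdesc.2.1 k
    have h2 : |τ k| ≤ (dt.B : ℤ) := by
      have := Int.le_of_dvd (by positivity) ((abs_dvd _ _).mpr h1)
      exact this
    rw [divB, Finset.mem_filter, Finset.mem_Icc]
    exact ⟨abs_le.mp h2, h1⟩
  have hprod : (∏ i, E i) ≠ 0 := by
    intro h0
    have := hdesc.2.2.2.1
    rw [h0] at this
    exact not_squarefree_zero this
  have hE1 : ∀ k, k ∉ I → E k = 1 := by
    intro k hk
    have h1 := hE k hk
    have h2 : E k ≠ 0 := fun h => hprod (Finset.prod_eq_zero (Finset.mem_univ k) h)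
    omega
  refine ⟨x, ⟨I, τ, hI, by omega, hτB, hτ, desc_point dt hdesc hE1⟩, ?_⟩
  have hf0 : f.eval x ≠ 0 := by
    intro h0
    rw [h0, mul_zero] at hyx
    exact hy (pow_eq_zero_iff (two_ne_zero)|>.mp hyx)
  have hDy : D ∣ y := (hD.dvd_pow_iff_dvd two_ne_zero).mp ⟨f.eval x, hyx⟩
  obtain ⟨y₁, rfl⟩ := hDy
  have hD0 : D ≠ 0 := hD.ne_zero
  have h1 : D * y₁ ^ 2 = f.eval x := by
    apply mul_left_cancel₀ hD0
    rw [← hyx]
    ring
  have h2 : D ∣ f.eval x := ⟨y₁ ^ 2, h1.symm⟩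
  have h3 : |D| ≤ |f.eval x| := Int.le_of_dvd (abs_pos.mpr hf0) ((abs_dvd_abs _ _).mpr h2)
  exact abs_le.mp h3

end Pool.Agent.Helper38.TW
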