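import Mathlib
import Pool.Agent.Helper38.TW.CountSplit
import Pool.Agent.Helper38.TW.SumAdm
import Pool.Agent.Helper38.TW.DegFin

/-!
# TW-G4: squarefree twists

`dt` from `exists_fdata`. For every `τ ∈ piFinset (divB dt)` take `A₁(τ)` from `sum_adm` (its components divide `B`: `mem_filter`), `A₀` = the maximum, then `C(τ), c(τ), X₀(τ)`; `C` = maximum, `c` = minimum (also `c ≤ 1`), `X₀` = maximum. `z = ⌊(log X)^{A₀}⌋`. `deg_finite`, `count_split`:
`ncard (TwSet f X) ≤ ncard (DegSet) + ncard (TwSet f X \ DegSet) ≤ C₁ + (card divB) (card divB)^n ((z+1)^n + 2^n C X/(log X)^c)`, and `(z + 1)^n ≤ (2 (log X)^{A₀})^n ≤ C₂ X/log X`. For `2 ≤ X < X₀`: `ncard ≤ 2 X + 1 ≤ C₃ X/(log X)^c` with a large constant.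
-/

set_option autoImplicit false

namespace Pool.Agent.Helper38.TW

open Finset Polynomial

theorem count_sf (f : ℤ[X]) (hf : Squarefree (f.map (Int.castRingHom ℚ)))
    (hdeg : 3 + min ((f.map (Int.castRingHom ℚ)).roots.toFinset.card) 2 ≤ f.natDegree) :
    ∃ C c : ℝ, 0 < C ∧ 0 < c ∧ ∀ X : ℕ, 2 ≤ X →
      ((TwSet f X).ncard : ℝ) ≤ C * X / (Real.log X) ^ c := by
  classical
  obtain ⟨n, ⟨dt⟩⟩ := exists_fdata f hf
  obtain ⟨T, hT⟩ : ∃ T, T = Fintype.piFinset (fun _ : Fin n => divB dt) := ⟨_, rfl⟩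
  have hdiv : ∀ τ ∈ T, ∀ i, τ i ∣ (dt.B : ℤ) := by
    intro τ hτ i
    rw [hT, Fintype.mem_piFinset] at hτ
    have := hτ i
    unfold divB at this
    exact (Finset.mem_filter.1 this).2
  -- the exponent
  obtain ⟨A₀, hA₀⟩ : ∃ A₀ : ℕ, ∀ τ ∈ T, ∃ (C c : ℝ) (X₀ : ℕ), 0 < C ∧ 0 < c ∧ 3 ≤ X₀ ∧
      ∀ X : ℕ, X₀ ≤ X → ∀ I : Finset (Fin n), I.Nonempty →
        ∑ E ∈ smallE dt I ⌊(Real.log X) ^ A₀⌋₊,
          ((Adm (condI dt τ I E) ⌊(Real.log X) ^ A₀⌋₊ (X / ∏ k, E k)).ncard : ℝ) ≤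
          C * X / (Real.log X) ^ c := by
    have h1 : ∀ᶠ A₀ : ℕ in Filter.atTop, ∀ τ ∈ T, ∃ (C c : ℝ) (X₀ : ℕ), 0 < C ∧ 0 < c ∧ 3 ≤ X₀ ∧
      ∀ X : ℕ, X₀ ≤ X → ∀ I : Finset (Fin n), I.Nonempty →
        ∑ E ∈ smallE dt I ⌊(Real.log X) ^ A₀⌋₊,
          ((Adm (condI dt τ I E) ⌊(Real.log X) ^ A₀⌋₊ (X / ∏ k, E k)).ncard : ℝ) ≤
          C * X / (Real.log X) ^ c := by
      rw [Filter.eventually_all_finset]
      intro τ hτ
      obtain ⟨A₁, hA₁⟩ := sum_adm dt τ (hdiv τ hτ)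
      exact Filter.eventually_atTop.2 ⟨A₁, hA₁⟩
    exact h1.exists
  choose! C c X₀ hC hc hX₀ hb using hA₀
  obtain ⟨c₀, hc₀, hc₁, hc₂⟩ : ∃ c₀ : ℝ, 0 < c₀ ∧ c₀ ≤ 1 ∧ ∀ τ ∈ T, c₀ ≤ c τ := by
    have h1 : ∀ᶠ x in nhdsWithin (0 : ℝ) (Set.Ioi 0), ∀ τ ∈ T, x ≤ c τ := by
      rw [Filter.eventually_all_finset]
      intro τ hτ
      have := Ioo_mem_nhdsGT (hc τ hτ)
      filter_upwards [this] with x hx
      exact hx.2.le
    have h2 : ∀ᶠ x in nhdsWithin (0 : ℝ) (Set.Ioi 0), x ∈ Set.Ioo (0 : ℝ) 1 :=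
      Ioo_mem_nhdsGT one_pos
    obtain ⟨x, hx1, hx2⟩ := (h1.and h2).exists
    exact ⟨x, hx2.1, hx2.2.le, hx1⟩
  obtain ⟨C₀, hC₀, hC₁⟩ : ∃ C₀ : ℝ, 0 < C₀ ∧ ∀ τ ∈ T, C τ ≤ C₀ := by
    refine ⟨∑ τ ∈ T, C τ + 1, by
      have := Finset.sum_nonneg (fun τ hτ => (hC τ hτ).le); linarith, fun τ hτ => ?_⟩
    have := Finset.single_le_sum (f := C) (fun τ hτ => (hC τ hτ).le) hτ
    linarith
  obtain ⟨M, hM3, hM⟩ : ∃ M : ℕ, 3 ≤ M ∧ ∀ τ ∈ T, X₀ τ ≤ M := by
    refine ⟨∑ τ ∈ T, X₀ τ + 3, by omega, fun τ hτ => ?_⟩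
    have := Finset.single_le_sum (f := X₀) (fun τ hτ => Nat.zero_le _) hτ
    omega
  have hfin := deg_finite dt hdeg
  obtain ⟨N₀, hN₀⟩ : ∃ N₀ : ℕ, N₀ = (DegSet dt).ncard := ⟨_, rfl⟩
  obtain ⟨b, hbB⟩ : ∃ b : ℕ, b = (divB dt).card := ⟨_, rfl⟩
  obtain ⟨k, hk⟩ : ∃ k : ℕ, k = A₀ * n + 1 := ⟨_, rfl⟩
  obtain ⟨G, hG⟩ : ∃ G : ℝ, G = (b : ℝ) * T.card * ((2 : ℝ) ^ n * k.factorial + 2 ^ n * C₀) :=
    ⟨_, rfl⟩
  have hG0 : 0 ≤ G := by rw [hG]; positivity
  refine ⟨G + N₀ + 3 * M + 1, c₀, by positivity, hc₀, fun X hX => ?_⟩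
  have hXpos : (0 : ℝ) < X := by
    have : 0 < X := by omega
    exact_mod_cast this
  have hlogpos : 0 < Real.log X := Real.log_pos (by exact_mod_cast (by omega : 1 < X))
  have hlogle : Real.log X ≤ X := by
    have := Real.log_le_sub_one_of_pos hXpos
    linarith
  have hpp : 0 < (Real.log X) ^ c₀ := Real.rpow_pos_of_pos hlogpos _
  rw [le_div_iff₀ hpp]
  have hsub : TwSet f X ⊆ ((Finset.Icc (-(X : ℤ)) X : Finset ℤ) : Set ℤ) := by
    rintro D ⟨-, hD, -⟩
    rw [Finset.mem_coe, Finset.mem_Icc]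
    exact abs_le.1 hD
  by_cases hXM : X < M
  · -- small X
    have h1 : (TwSet f X).ncard ≤ 2 * X + 1 := by
      have := Set.ncard_le_ncard hsub (Finset.finite_toSet _)
      rw [Set.ncard_coe_finset, Int.card_Icc] at this
      omega
    have h1' : ((TwSet f X).ncard : ℝ) ≤ 3 * X := by
      have h2 : (TwSet f X).ncard ≤ 3 * X := by omega
      exact_mod_cast h2
    have h2 : (Real.log X) ^ c₀ ≤ M := by
      rcases le_or_gt (Real.log X) 1 with h | h
      · have := Real.rpow_le_one hlogpos.le h hc₀.le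
        have h3 : (1 : ℝ) ≤ M := by exact_mod_cast (by omega : 1 ≤ M)
        linarith
      · have h3 := Real.rpow_le_rpow_of_exponent_le h.le hc₁
        rw [Real.rpow_one] at h3
        have h4 : (X : ℝ) ≤ M := by exact_mod_cast hXM.le
        linarith
    calc ((TwSet f X).ncard : ℝ) * (Real.log X) ^ c₀ ≤ (3 * X) * M :=
          mul_le_mul h1' h2 hpp.le (by positivity)
      _ ≤ (G + N₀ + 3 * M + 1) * X := by
          have h5 : (0 : ℝ) ≤ (G + N₀ + 1) * X := by positivity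
          nlinarith
  · -- large X
    push Not at hXM
    have hX3 : 3 ≤ X := by omega
    have hlog1 : 1 ≤ Real.log X := by
      have h1 : Real.exp 1 ≤ X := by
        have h2 : Real.exp 1 < 3 := by
          have := Real.exp_one_lt_d9
          linarith
        have h3 : (3 : ℝ) ≤ X := by exact_mod_cast hX3
        linarith
      rw [Real.le_log_iff_exp_le hXpos]
      exact h1
    obtain ⟨z, hz⟩ : ∃ z : ℕ, z = ⌊(Real.log X) ^ A₀⌋₊ := ⟨_, rfl⟩
    have hzle : (z : ℝ) ≤ (Real.log X) ^ A₀ := by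
      rw [hz]; exact Nat.floor_le (by positivity)
    have hone : (1 : ℝ) ≤ (Real.log X) ^ A₀ := one_le_pow₀ hlog1
    have hcle : (Real.log X) ^ c₀ ≤ Real.log X := by
      have h3 := Real.rpow_le_rpow_of_exponent_le hlog1 hc₁
      rwa [Real.rpow_one] at h3
    have hfac : (Real.log X) ^ k ≤ k.factorial * X := by
      have h1 := Real.pow_div_factorial_le_exp (Real.log X) hlogpos.le k
      rw [Real.exp_log hXpos, div_le_iff₀ (by positivity)] at h1
      linarith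
    have hA : ((z : ℝ) + 1) ^ n * (Real.log X) ^ c₀ ≤ 2 ^ n * k.factorial * X := by
      calc ((z : ℝ) + 1) ^ n * (Real.log X) ^ c₀ ≤
            (2 * (Real.log X) ^ A₀) ^ n * Real.log X := by
            refine mul_le_mul ?_ hcle hpp.le (by positivity)
            exact pow_le_pow_left₀ (by positivity) (by linarith) n
        _ = 2 ^ n * (Real.log X) ^ k := by
            rw [hk, mul_pow, ← pow_mul, pow_succ]
            ring
        _ ≤ 2 ^ n * (k.factorial * X) := by gcongr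
        _ = 2 ^ n * k.factorial * X := by ring
    have hsum := count_split dt X z
    rw [← hT] at hsum
    have hinner : ∀ τ ∈ T, (((z : ℝ) + 1) ^ (Fintype.card (Fin n)) +
          ∑ I ∈ (univ : Finset (Finset (Fin n))).filter (fun I => I.Nonempty),
            ∑ E ∈ smallE dt I z, ((Adm (condI dt τ I E) z (X / ∏ k, E k)).ncard : ℝ)) *
          (Real.log X) ^ c₀ ≤ (2 ^ n * k.factorial + 2 ^ n * C₀) * X := by
      intro τ hτ
      rw [Fintype.card_fin, add_mul]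
      have h1 : (∑ I ∈ (univ : Finset (Finset (Fin n))).filter (fun I => I.Nonempty),
            ∑ E ∈ smallE dt I z, ((Adm (condI dt τ I E) z (X / ∏ k, E k)).ncard : ℝ)) ≤
            2 ^ n * (C₀ * X / (Real.log X) ^ c₀) := by
        have h2 : ∀ I ∈ (univ : Finset (Finset (Fin n))).filter (fun I => I.Nonempty),
            ∑ E ∈ smallE dt I z, ((Adm (condI dt τ I E) z (X / ∏ k, E k)).ncard : ℝ) ≤
            C₀ * X / (Real.log X) ^ c₀ := by
          intro I hI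
          have h3 := hb τ hτ X (le_trans (hM τ hτ) hXM) I (Finset.mem_filter.1 hI).2
          rw [← hz] at h3
          refine h3.trans ?_
          have h4 : (Real.log X) ^ c₀ ≤ (Real.log X) ^ (c τ) :=
            Real.rpow_le_rpow_of_exponent_le hlog1 (hc₂ τ hτ)
          have h5 := hC₁ τ hτ
          have h6 := hC τ hτ
          gcongr
        refine (Finset.sum_le_card_nsmul _ _ _ h2).trans ?_
        rw [nsmul_eq_mul]
        have h7 : (((univ : Finset (Finset (Fin n))).filter (fun I => I.Nonempty)).card : ℝ) ≤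
            2 ^ n := by
          have h8 := Finset.card_filter_le (univ : Finset (Finset (Fin n))) (fun I => I.Nonempty)
          rw [Finset.card_univ, Fintype.card_finset, Fintype.card_fin] at h8
          exact_mod_cast h8
        gcongr
      have h9 : 2 ^ n * (C₀ * X / (Real.log X) ^ c₀) * (Real.log X) ^ c₀ = 2 ^ n * C₀ * X := by
        field_simp
      have h10 := mul_le_mul_of_nonneg_right h1 hpp.le
      rw [h9] at h10
      linarith
    have hdiff : ((TwSet f X \ DegSet dt).ncard : ℝ) * (Real.log X) ^ c₀ ≤ G * X := by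
      have h1 := mul_le_mul_of_nonneg_right hsum hpp.le
      refine h1.trans ?_
      rw [Finset.sum_mul]
      have h2 : ∀ t ∈ divB dt, (∑ τ ∈ T, (((z : ℝ) + 1) ^ (Fintype.card (Fin n)) +
          ∑ I ∈ (univ : Finset (Finset (Fin n))).filter (fun I => I.Nonempty),
            ∑ E ∈ smallE dt I z, ((Adm (condI dt τ I E) z (X / ∏ k, E k)).ncard : ℝ))) *
          (Real.log X) ^ c₀ ≤ T.card * ((2 ^ n * k.factorial + 2 ^ n * C₀) * X) := by
        intro t _
        rw [Finset.sum_mul]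
        refine (Finset.sum_le_card_nsmul _ _ _ hinner).trans ?_
        rw [nsmul_eq_mul]
      refine (Finset.sum_le_card_nsmul _ _ _ h2).trans ?_
      rw [nsmul_eq_mul, hG, ← hbB]
      apply le_of_eq
      ring
    have htot := Set.ncard_le_ncard_sdiff_add_ncard (TwSet f X) (DegSet dt) hfin
    have htot' : ((TwSet f X).ncard : ℝ) ≤ (TwSet f X \ DegSet dt).ncard + N₀ := by
      rw [hN₀]; exact_mod_cast htot
    have hN : (N₀ : ℝ) * (Real.log X) ^ c₀ ≤ N₀ * X := by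
      refine mul_le_mul_of_nonneg_left (hcle.trans hlogle) (by positivity)
    calc ((TwSet f X).ncard : ℝ) * (Real.log X) ^ c₀ ≤
          ((TwSet f X \ DegSet dt).ncard + N₀) * (Real.log X) ^ c₀ :=
          mul_le_mul_of_nonneg_right htot' hpp.le
      _ ≤ G * X + N₀ * X := by rw [add_mul]; linarith
      _ ≤ (G + N₀ + 3 * M + 1) * X := by
          have h5 : (0 : ℝ) ≤ (3 * M + 1) * X := by positivity
          nlinarith

end Pool.Agent.Helper38.TW
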