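import Mathlib
import Pool.Agent.Helper38.TW.Defs3
import Pool.Agent.Helper38.TW.FExists

/-!
# TW-H3: cubics with exactly one rational root

`ι = {i, k}`, `g_i = a X + b₀`, `g_k` an irreducible quadratic, `r = -b₀/a`. `δ = lc(f) f'(r)`. `b f = c g_i g_k`: `b f'(r) = c a g_k(r)`, `b lc(f) = c a lc(g_k)`, `kap = a⁴ g_k(r)`. If `τ kap = s²` then `lc(τ g_k) = (τ a b/(c s))² δ`. So, if `δ < 0` or `δ` is a square, the equations `y² = τ g_k(x)` of the degenerate twists have finitely many solutions (`HQ`).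
-/

set_option autoImplicit false

namespace Pool.Agent.Helper38.TW

open Finset Polynomial

variable {f : ℤ[X]} {ι : Type} [Fintype ι] [DecidableEq ι]

private theorem scale_eval (g : ℤ[X]) (a b₀ : ℤ) (ha : a ≠ 0) :
    (((scaleRoots g a).eval (-b₀) : ℤ) : ℚ) =
      (a : ℚ) ^ g.natDegree * (g.map (Int.castRingHom ℚ)).eval (-(b₀ : ℚ) / a) := by
  have h1 := scaleRoots_eval₂_mul (p := g) (Int.castRingHom ℚ) (-(b₀ : ℚ) / a) a
  have h2 : (Int.castRingHom ℚ) a * (-(b₀ : ℚ) / a) = (Int.castRingHom ℚ) (-b₀) := by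
    have h3 : (a : ℚ) ≠ 0 := by exact_mod_cast ha
    simp only [eq_intCast, Int.cast_neg]
    field_simp
  rw [h2, eval₂_at_apply] at h1
  rw [eval_map]
  simpa using h1

theorem lead_delta (dt : FData f ι) (i k : ι) (hik : i ≠ k) (huniv : (univ : Finset ι) = {i, k})
    (hi : (dt.g i).natDegree = 1) (hk : (dt.g k).natDegree = 2)
    (hr : ∀ r : ℚ, (f.map (Int.castRingHom ℚ)).roots = {r} →
      ((f.leadingCoeff : ℤ) : ℚ) * (derivative (f.map (Int.castRingHom ℚ))).eval r < 0 ∨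
      IsSquare (((f.leadingCoeff : ℤ) : ℚ) * (derivative (f.map (Int.castRingHom ℚ))).eval r))
    (t : ℤ) (ht : t ≠ 0) (hsq : IsSquare (t * kap dt i k)) :
    (C t * dt.g k).leadingCoeff < 0 ∨ IsSquare (((C t * dt.g k).leadingCoeff : ℤ) : ℚ) := by
  obtain ⟨a, b₀, ha, hlead, hgi, hb0⟩ : ∃ a b₀ : ℤ, a ≠ 0 ∧ (dt.g i).leadingCoeff = a ∧
      dt.g i = C a * X + C b₀ ∧ (dt.g i).coeff 0 = b₀ := by
    refine ⟨(dt.g i).coeff 1, (dt.g i).coeff 0, ?_, ?_, eq_X_add_C_of_natDegree_le_one hi.le, rfl⟩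
    · have h1 : (dt.g i).leadingCoeff ≠ 0 := leadingCoeff_ne_zero.2 (dt.f1_g_ne i)
      rwa [leadingCoeff, hi] at h1
    · rw [leadingCoeff, hi]
  have haQ : (a : ℚ) ≠ 0 := by exact_mod_cast ha
  have hbQ : (dt.b : ℚ) ≠ 0 := by exact_mod_cast dt.b_ne
  have hcQ : (dt.c : ℚ) ≠ 0 := by exact_mod_cast dt.c_ne
  have htQ : (t : ℚ) ≠ 0 := by exact_mod_cast ht
  obtain ⟨r, hrdef⟩ : ∃ r : ℚ, r = -(b₀ : ℚ) / a := ⟨_, rfl⟩
  obtain ⟨G, hG⟩ : ∃ G : ℚ[X], G = (dt.g k).map (Int.castRingHom ℚ) := ⟨_, rfl⟩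
  obtain ⟨P, hP⟩ : ∃ P : ℚ[X], P = f.map (Int.castRingHom ℚ) := ⟨_, rfl⟩
  rw [← hP] at hr
  have hGirr : Irreducible G := by
    rw [hG]
    exact dt.irr k
  have hGdeg : G.natDegree = 2 := by
    rw [hG, natDegree_map_eq_of_injective (Int.castRingHom ℚ).injective_int, hk]
  have hG0 : G ≠ 0 := hGirr.ne_zero
  have hGnr : ∀ z : ℚ, G.eval z ≠ 0 := by
    intro z hz
    have h3 := Polynomial.degree_eq_one_of_irreducible_of_root hGirr hz
    rw [degree_eq_natDegree hG0, hGdeg] at h3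
    norm_num at h3
  have hprod : ∏ j, dt.g j = dt.g i * dt.g k := by
    rw [huniv, Finset.prod_pair hik]
  -- `b P = c g_i G`
  have hfac : C (dt.b : ℚ) * P = C (dt.c : ℚ) * ((C (a : ℚ) * X + C (b₀ : ℚ)) * G) := by
    have h1 := congrArg (Polynomial.map (Int.castRingHom ℚ)) dt.fac
    rw [hprod, hgi, Polynomial.map_mul, Polynomial.map_mul, Polynomial.map_mul,
      Polynomial.map_add, Polynomial.map_mul, Polynomial.map_X, Polynomial.map_C,
      Polynomial.map_C, Polynomial.map_C, Polynomial.map_C, ← hG, ← hP] at h1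
    exact h1
  have hlin : (C (a : ℚ) * X + C (b₀ : ℚ)) = C (a : ℚ) * (X - C r) := by
    rw [hrdef, mul_sub, ← C_mul]
    have h4 : (a : ℚ) * (-(b₀ : ℚ) / a) = -b₀ := by field_simp
    rw [h4, C_neg, sub_neg_eq_add]
  have hP2 : P = C ((dt.c : ℚ) * a / dt.b) * ((X - C r) * G) := by
    have h1 : C (dt.b : ℚ) * P = C (dt.b : ℚ) * (C ((dt.c : ℚ) * a / dt.b) * ((X - C r) * G)) := by
      rw [hfac, hlin, ← mul_assoc (C (dt.b : ℚ)), ← C_mul]
      have h2 : (dt.b : ℚ) * ((dt.c : ℚ) * a / dt.b) = dt.c * a := by field_simp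
      rw [h2, C_mul]
      ring
    exact mul_left_cancel₀ (C_ne_zero.2 hbQ) h1
  have hroots : P.roots = {r} := by
    have h1 : (dt.c : ℚ) * a / dt.b ≠ 0 := div_ne_zero (mul_ne_zero hcQ haQ) hbQ
    rw [hP2, roots_C_mul _ h1, roots_mul (mul_ne_zero (X_sub_C_ne_zero r) hG0), roots_X_sub_C]
    have h2 : G.roots = 0 := by
      rw [Multiset.eq_zero_iff_forall_notMem]
      intro z hz
      exact hGnr z ((mem_roots hG0).1 hz)
    rw [h2, add_zero]
  have hder : (derivative P).eval r = (dt.c : ℚ) * a / dt.b * G.eval r := by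
    rw [hP2]
    simp
  have hlf : ((f.leadingCoeff : ℤ) : ℚ) = (dt.c : ℚ) * a / dt.b * G.leadingCoeff := by
    have h1 : P.leadingCoeff = ((f.leadingCoeff : ℤ) : ℚ) := by
      rw [hP, leadingCoeff_map_of_injective (Int.castRingHom ℚ).injective_int]
      rfl
    rw [← h1, hP2, leadingCoeff_mul, leadingCoeff_C, leadingCoeff_mul, leadingCoeff_X_sub_C,
      one_mul]
  have hGl : G.leadingCoeff = (((dt.g k).leadingCoeff : ℤ) : ℚ) := by
    rw [hG, leadingCoeff_map_of_injective (Int.castRingHom ℚ).injective_int]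
    rfl
  have hδ := hr r hroots
  rw [hder, hlf] at hδ
  -- the square
  obtain ⟨s, hs⟩ := hsq
  have hkap : ((kap dt i k : ℤ) : ℚ) = (a : ℚ) ^ 4 * G.eval r := by
    unfold kap
    rw [hlead, hb0, hk, Int.cast_mul, scale_eval _ _ _ ha, hk, ← hG, ← hrdef]
    push_cast
    ring
  have hsQ : (t : ℚ) * ((a : ℚ) ^ 4 * G.eval r) = s ^ 2 := by
    rw [← hkap]
    have h1 : ((t * kap dt i k : ℤ) : ℚ) = ((s * s : ℤ) : ℚ) := by rw [hs]
    push_cast at h1
    rw [h1]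
    ring
  have hs0 : (s : ℚ) ≠ 0 := by
    intro h0
    rw [h0] at hsQ
    have h1 : (t : ℚ) * ((a : ℚ) ^ 4 * G.eval r) ≠ 0 :=
      mul_ne_zero htQ (mul_ne_zero (pow_ne_zero 4 haQ) (hGnr r))
    apply h1
    rw [hsQ]
    ring
  obtain ⟨q, hq⟩ : ∃ q : ℚ, q = t * a * dt.b / (dt.c * s) := ⟨_, rfl⟩
  have hq0 : q ≠ 0 := by
    rw [hq]
    exact div_ne_zero (mul_ne_zero (mul_ne_zero htQ haQ) hbQ) (mul_ne_zero hcQ hs0)
  have hlc : (((C t * dt.g k).leadingCoeff : ℤ) : ℚ) =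
      q ^ 2 * (((dt.c : ℚ) * a / dt.b * G.leadingCoeff) * ((dt.c : ℚ) * a / dt.b * G.eval r)) := by
    rw [leadingCoeff_mul, leadingCoeff_C, Int.cast_mul, ← hGl, hq]
    have h1 : G.eval r = s ^ 2 / (t * (a : ℚ) ^ 4) := by
      rw [eq_div_iff (mul_ne_zero htQ (pow_ne_zero 4 haQ)), ← hsQ]
      ring
    rw [h1]
    field_simp
  rcases hδ with h | ⟨w, hw⟩
  · left
    have h1 : (((C t * dt.g k).leadingCoeff : ℤ) : ℚ) < 0 := by
      rw [hlc]
      exact mul_neg_of_pos_of_neg (by positivity) h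
    exact_mod_cast h1
  · right
    refine ⟨q * w, ?_⟩
    rw [hlc, hw]
    ring

theorem deg3_one (dt : FData f ι) (i k : ι) (hik : i ≠ k) (huniv : (univ : Finset ι) = {i, k})
    (hi : (dt.g i).natDegree = 1) (hk : (dt.g k).natDegree = 2)
    (hr : ∀ r : ℚ, (f.map (Int.castRingHom ℚ)).roots = {r} →
      ((f.leadingCoeff : ℤ) : ℚ) * (derivative (f.map (Int.castRingHom ℚ))).eval r < 0 ∨
      IsSquare (((f.leadingCoeff : ℤ) : ℚ) * (derivative (f.map (Int.castRingHom ℚ))).eval r))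
    (HQ : ∀ F : ℤ[X], F.natDegree = 2 → Squarefree (F.map (Int.castRingHom ℚ)) →
      (F.leadingCoeff < 0 ∨ IsSquare ((F.leadingCoeff : ℤ) : ℚ)) →
      {x : ℤ | ∃ y : ℤ, y ^ 2 = F.eval x}.Finite) :
    (DegSet3 dt).Finite := by
  classical
  have hB0 : (dt.B : ℤ) ≠ 0 := by exact_mod_cast dt.B_ne
  -- the finite set of the `x`
  have hX : {x : ℤ | ∃ t ∈ divB dt, t ≠ 0 ∧ IsSquare (t * kap dt i k) ∧
      ∃ y : ℤ, y ^ 2 = (C t * dt.g k).eval x}.Finite := by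
    have h1 : {x : ℤ | ∃ t ∈ divB dt, t ≠ 0 ∧ IsSquare (t * kap dt i k) ∧
        ∃ y : ℤ, y ^ 2 = (C t * dt.g k).eval x} ⊆
        ⋃ t ∈ {t : ℤ | t ∈ divB dt ∧ t ≠ 0 ∧ IsSquare (t * kap dt i k)},
          {x : ℤ | ∃ y : ℤ, y ^ 2 = (C t * dt.g k).eval x} := by
      rintro x ⟨t, h2, h3, h4, h5⟩
      rw [Set.mem_iUnion₂]
      exact ⟨t, ⟨h2, h3, h4⟩, h5⟩
    refine Set.Finite.subset (Set.Finite.biUnion ((divB dt).finite_toSet.subset ?_) ?_) h1
    · rintro t ⟨h2, -⟩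
      exact h2
    · rintro t ⟨-, h3, h4⟩
      refine HQ (C t * dt.g k) (by rw [natDegree_C_mul h3, hk]) ?_
        (lead_delta dt i k hik huniv hi hk hr t h3 h4)
      have h5 : (C t * dt.g k).map (Int.castRingHom ℚ) =
          C (t : ℚ) * (dt.g k).map (Int.castRingHom ℚ) := by
        rw [Polynomial.map_mul, Polynomial.map_C]
        rfl
      have h6 : IsUnit (C (t : ℚ)) :=
        Polynomial.isUnit_C.mpr (isUnit_iff_ne_zero.mpr (by exact_mod_cast h3))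
      rw [h5, (associated_unit_mul_left _ _ h6).squarefree_iff]
      exact (dt.irr k).squarefree
  refine Set.Finite.subset (Set.Finite.biUnion hX
    (t := fun x => Set.Icc (-|f.eval x|) |f.eval x|) (fun x _ => Set.finite_Icc _ _)) ?_
  rintro D ⟨hD, x, y, t, E, τ, I, hy, hyx, hdesc, hI, hnd⟩
  simp only [Set.mem_iUnion]
  unfold NonDeg3 NonDeg at hnd
  push Not at hnd
  obtain ⟨⟨hlin, hc, hE⟩, h2⟩ := hnd
  have hkI : k ∉ I := by
    intro h
    have h3 := hlin k h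
    rw [hk] at h3
    norm_num at h3
  have hIi : I = {i} := by
    obtain ⟨j, hj⟩ := hI
    have h3 : ∀ j ∈ I, j = i := by
      intro j hj
      have h4 : j ∈ ({i, k} : Finset ι) := by
        rw [← huniv]
        exact Finset.mem_univ j
      rcases Finset.mem_insert.1 h4 with h5 | h5
      · exact h5
      · rw [Finset.mem_singleton.1 h5] at hj
        exact absurd hj hkI
    exact Finset.eq_singleton_iff_unique_mem.2 ⟨by rw [← h3 j hj]; exact hj, h3⟩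
  have hτ : τ k ≠ 0 := by
    intro h0
    have := hdesc.2.1 k
    rw [h0, zero_dvd_iff] at this
    exact hB0 this
  have hτB : τ k ∈ divB dt := by
    have h1 := hdesc.2.1 k
    have h2 : |τ k| ≤ (dt.B : ℤ) := Int.le_of_dvd (by positivity) ((abs_dvd _ _).mpr h1)
    rw [divB, Finset.mem_filter, Finset.mem_Icc]
    exact ⟨abs_le.mp h2, h1⟩
  have hEk : E k = 1 := by
    have h3 := hE k hkI
    have h4 : E k ≠ 0 := Finset.prod_ne_zero_iff.1 hdesc.2.2.2.1.ne_zero k (Finset.mem_univ k)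
    omega
  have hsq : IsSquare (τ k * kap dt i k) :=
    h2 (by rw [hIi, Finset.card_singleton]) i (by rw [hIi]; exact Finset.mem_singleton_self i) k hkI
  obtain ⟨u, -, hu⟩ := hdesc.2.2.2.2.2 k
  refine ⟨x, ⟨τ k, hτB, hτ, hsq, τ k * u, ?_⟩, ?_⟩
  · rw [eval_mul, eval_C, hu, hEk]
    push_cast
    ring
  have hf0 : f.eval x ≠ 0 := by
    intro h0
    rw [h0, mul_zero] at hyx
    exact hy (pow_eq_zero_iff (two_ne_zero)|>.mp hyx)
  have hDy : D ∣ y := (hD.dvd_pow_iff_dvd two_ne_zero).mp ⟨f.eval x, hyx⟩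
  obtain ⟨y₁, rfl⟩ := hDy
  have hD0 : D ≠ 0 := hD.ne_zero
  have h1 : D * y₁ ^ 2 = f.eval x := by
    apply mul_left_cancel₀ hD0
    rw [← hyx]
    ring
  have h4 : D ∣ f.eval x := ⟨y₁ ^ 2, h1.symm⟩
  have h3 : |D| ≤ |f.eval x| := Int.le_of_dvd (abs_pos.mpr hf0) ((abs_dvd_abs _ _).mpr h4)
  exact abs_le.mp h3

end Pool.Agent.Helper38.TW
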