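import Mathlib
import Pool.Agent.Helper38.TW.GDefs
import Pool.Agent.Helper38.TW.FExists
import Pool.Agent.Helper38.TW.Siegel
import Pool.Agent.Helper38.TW.SqCard

/-!
# TW-Q3: counting the degenerate twists, `deg f ≥ 4`

`D ∈ DegSet`, `|D| ≤ X`: `I` nonempty, all `g_i`, `i ∈ I`, linear, `card I ≤ 2`, `E_k = 1` for `k ∉ I`. If the degree `deg f - card I` of `∏_{k ∉ I} g_k` is at least `3`: finitely many `x` by `siegel`. Otherwise `deg f = 4`, `I = {a, b}`, `E_a E_b ≤ X`, so `E_a ≤ √X` or `E_b ≤ √X`, say `A = E_a ≤ √X`.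
The integers `x` with `g_a(x) = τ_a A u²`, `g_k(x) = τ_k u_k²` (`k ≠ a, b`) fall into a bounded number of classes modulo squares of `ℚ[X]/(h)`, `h = g_a ∏_{k ≠ a, b} g_k` a cubic; every class is bounded (`sqmod_card`), so there are `O(√X)` such `x`, and `x` determines the squarefree `D`.
-/

set_option autoImplicit false

namespace Pool.Agent.Helper38.TW

open Finset Polynomial

variable {f : ℤ[X]} {ι : Type} [Fintype ι] [DecidableEq ι]

private theorem g_ne (dt : FData f ι) (i : ι) : dt.g i ≠ 0 := by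
  intro h
  have := (dt.irr i).ne_zero
  rw [h] at this
  simp at this

private theorem g_coprime (dt : FData f ι) {i k : ι} (hik : i ≠ k) :
    IsCoprime ((dt.g i).map (Int.castRingHom ℚ)) ((dt.g k).map (Int.castRingHom ℚ)) := by
  obtain ⟨u, v, huv⟩ := dt.bez i k hik
  have hB : (dt.B : ℚ) ≠ 0 := by exact_mod_cast dt.B_ne
  have h := congrArg (Polynomial.map (Int.castRingHom ℚ)) huv
  simp only [Polynomial.map_add, Polynomial.map_mul, Polynomial.map_C] at h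
  refine ⟨C ((dt.B : ℚ)⁻¹) * u.map (Int.castRingHom ℚ), C ((dt.B : ℚ)⁻¹) * v.map (Int.castRingHom ℚ), ?_⟩
  rw [mul_assoc, mul_assoc, ← mul_add, h, ← C_mul]
  simp [hB]

/-- the polynomial of the twists with given `I` and `τ` -/
private noncomputable def FI (dt : FData f ι) (I : Finset ι) (τ : ι → ℤ) : ℤ[X] :=
  C (∏ k ∈ Iᶜ, τ k) * ∏ k ∈ Iᶜ, dt.g k

private theorem prod_sqf (dt : FData f ι) (s : Finset ι) :
    Squarefree (∏ k ∈ s, (dt.g k).map (Int.castRingHom ℚ)) := by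
  apply Finset.squarefree_prod_of_pairwise_isCoprime
  · intro i _ k _ hik
    exact (g_coprime dt hik).isRelPrime
  · intro i _
    exact (dt.irr i).squarefree

private theorem FI_sqf (dt : FData f ι) (I : Finset ι) (τ : ι → ℤ) (hτ : ∀ k, τ k ≠ 0) :
    Squarefree ((FI dt I τ).map (Int.castRingHom ℚ)) := by
  have hT : ((∏ k ∈ Iᶜ, τ k : ℤ) : ℚ) ≠ 0 := by
    exact_mod_cast Finset.prod_ne_zero_iff.mpr (fun k _ => hτ k)
  have h1 : (FI dt I τ).map (Int.castRingHom ℚ) =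
      C ((∏ k ∈ Iᶜ, τ k : ℤ) : ℚ) * ∏ k ∈ Iᶜ, (dt.g k).map (Int.castRingHom ℚ) := by
    rw [FI, Polynomial.map_mul, Polynomial.map_C, Polynomial.map_prod]
    rfl
  rw [h1]
  have hu : IsUnit (C ((∏ k ∈ Iᶜ, τ k : ℤ) : ℚ)) :=
    Polynomial.isUnit_C.mpr (isUnit_iff_ne_zero.mpr hT)
  rw [(associated_unit_mul_left (∏ k ∈ Iᶜ, (dt.g k).map (Int.castRingHom ℚ)) _ hu).squarefree_iff]
  exact prod_sqf dt Iᶜ

private theorem FI_deg (dt : FData f ι) (I : Finset ι) (τ : ι → ℤ) (hτ : ∀ k, τ k ≠ 0)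
    (hI : ∀ i ∈ I, (dt.g i).natDegree = 1) : (FI dt I τ).natDegree + I.card = f.natDegree := by
  have h1 : (FI dt I τ).natDegree = ∑ k ∈ Iᶜ, (dt.g k).natDegree := by
    rw [FI, natDegree_C_mul (Finset.prod_ne_zero_iff.mpr (fun k _ => hτ k)),
      natDegree_prod _ _ (fun k _ => g_ne dt k)]
  have h2 : ∑ k ∈ I, (dt.g k).natDegree = I.card := by
    rw [Finset.sum_congr rfl hI]
    simp
  have h3 : ∑ k ∈ I, (dt.g k).natDegree + ∑ k ∈ Iᶜ, (dt.g k).natDegree = f.natDegree := by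
    rw [Finset.sum_add_sum_compl, sum_deg dt]
  omega

private theorem desc_point (dt : FData f ι) {D x t : ℤ} {E : ι → ℕ} {τ : ι → ℤ}
    (h : IsDesc dt D x t E τ) {I : Finset ι} (hE : ∀ k, k ∉ I → E k = 1) :
    ∃ y : ℤ, y ^ 2 = (FI dt I τ).eval x := by
  obtain ⟨-, -, -, -, -, hu⟩ := h
  choose u hu0 hu using hu
  refine ⟨∏ k ∈ Iᶜ, τ k * u k, ?_⟩
  rw [FI, eval_mul, eval_C, eval_prod, ← Finset.prod_mul_distrib, ← Finset.prod_pow]
  apply Finset.prod_congr rfl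
  intro k hk
  rw [hu k, hE k (Finset.mem_compl.mp hk)]
  push_cast
  ring

/-- the `x` of the case of degree at least `3` -/
private def Z1 (dt : FData f ι) : Set ℤ :=
  {x : ℤ | ∃ (I : Finset ι) (τ : ι → ℤ), (∀ k, τ k ∈ divB dt) ∧ (∀ k, τ k ≠ 0) ∧
    3 ≤ (FI dt I τ).natDegree ∧ ∃ y : ℤ, y ^ 2 = (FI dt I τ).eval x}

private theorem Z1_finite (dt : FData f ι) : (Z1 dt).Finite := by
  have h1 : Z1 dt ⊆
      ⋃ I ∈ (Set.univ : Set (Finset ι)),
        ⋃ τ ∈ {τ : ι → ℤ | (∀ k, τ k ∈ divB dt) ∧ (∀ k, τ k ≠ 0) ∧ 3 ≤ (FI dt I τ).natDegree},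
          (Prod.fst '' {P : ℤ × ℤ | P.2 ^ 2 = (FI dt I τ).eval P.1}) := by
    rintro x ⟨I, τ, h2, h3, h4, y, hy⟩
    simp only [Set.mem_iUnion]
    exact ⟨I, Set.mem_univ _, τ, ⟨h2, h3, h4⟩, ⟨(x, y), hy, rfl⟩⟩
  refine Set.Finite.subset ?_ h1
  refine Set.Finite.biUnion (Set.toFinite _) ?_
  rintro I -
  refine Set.Finite.biUnion ?_ ?_
  · refine Set.Finite.subset (Fintype.piFinset (fun _ : ι => divB dt)).finite_toSet ?_
    rintro τ ⟨h, -⟩
    rw [Finset.mem_coe, Fintype.mem_piFinset]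
    exact h
  · rintro τ ⟨-, hτ, h3⟩
    exact (siegel (FI dt I τ) (FI_sqf dt I τ hτ) h3).image _

/-- the `x` of a class -/
private def Z2 (dt : FData f ι) (a b : ι) (τ : ι → ℤ) (m : ℤ) : Set ℤ :=
  {x : ℤ | (∃ u : ℤ, (dt.g a).eval x = m * u ^ 2) ∧
    ∀ k ∈ ({a, b} : Finset ι)ᶜ, ∃ u : ℤ, u ≠ 0 ∧ (dt.g k).eval x = τ k * u ^ 2}

/-- the good triples `(a, b, τ)` -/
private def Suit (dt : FData f ι) (a b : ι) (τ : ι → ℤ) : Prop :=
  (dt.g a).natDegree = 1 ∧ ∑ k ∈ ({a, b} : Finset ι)ᶜ, (dt.g k).natDegree = 2 ∧ ∀ k, τ k ≠ 0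

private theorem color (dt : FData f ι) (k : ι) (hk : (dt.g k).natDegree ≤ 2) (t : ℤ) (ht : t ≠ 0) :
    ∃ (n : ℕ) (col : ℤ → ℕ), (∀ x, col x < n) ∧ ∀ x x' : ℤ,
      (∃ u : ℤ, u ≠ 0 ∧ (dt.g k).eval x = t * u ^ 2) →
      (∃ u : ℤ, u ≠ 0 ∧ (dt.g k).eval x' = t * u ^ 2) →
      col x = col x' → SqMod ((dt.g k).map (Int.castRingHom ℚ)) x x' := by
  have hpos : 0 < (dt.g k).natDegree := by
    have h1 := (dt.irr k).natDegree_pos
    rwa [natDegree_map_eq_of_injective (Int.castRingHom ℚ).injective_int] at h1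
  have h12 : (dt.g k).natDegree = 1 ∨ (dt.g k).natDegree = 2 := by omega
  rcases h12 with h1 | h2
  · refine ⟨1, fun _ => 0, fun _ => Nat.one_pos, ?_⟩
    rintro x x' ⟨u, -, hu⟩ ⟨u', -, hu'⟩ -
    exact sqmod_lin h1 hu hu'
  · exact sqmod_quad h2 (dt.irr k) t ht

private theorem class_bound (dt : FData f ι) (a b : ι) (τ : ι → ℤ) (hs : Suit dt a b τ) :
    ∃ N : ℕ, ∀ m : ℤ, ∀ S : Finset ℤ, (↑S : Set ℤ) ⊆ Z2 dt a b τ m → S.card ≤ N := by
  classical
  obtain ⟨ha, hR, hτ⟩ := hs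
  obtain ⟨R, hRdef⟩ : ∃ R : Finset ι, R = ({a, b} : Finset ι)ᶜ := ⟨_, rfl⟩
  have haR : a ∉ R := by
    rw [hRdef, Finset.mem_compl]
    simp
  rw [← hRdef] at hR
  -- the cubic
  obtain ⟨h, hh⟩ : ∃ h : ℤ[X], h = ∏ k ∈ insert a R, dt.g k := ⟨_, rfl⟩
  have hmap : h.map (Int.castRingHom ℚ) = ∏ k ∈ insert a R, (dt.g k).map (Int.castRingHom ℚ) := by
    rw [hh, Polynomial.map_prod]
  have hdeg : h.natDegree = 3 := by
    rw [hh, natDegree_prod _ _ (fun k _ => g_ne dt k), Finset.sum_insert haR, ha, hR]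
  have hsep : (h.map (Int.castRingHom ℚ)).Separable := by
    rw [PerfectField.separable_iff_squarefree, hmap]
    exact prod_sqf dt _
  obtain ⟨N, hN⟩ := sqmod_card h hdeg hsep
  -- the colours
  have hex : ∀ k : ι, ∃ (n : ℕ) (col : ℤ → ℕ), (∀ x, col x < n) ∧ (k ∈ R → ∀ x x' : ℤ,
      (∃ u : ℤ, u ≠ 0 ∧ (dt.g k).eval x = τ k * u ^ 2) →
      (∃ u : ℤ, u ≠ 0 ∧ (dt.g k).eval x' = τ k * u ^ 2) →
      col x = col x' → SqMod ((dt.g k).map (Int.castRingHom ℚ)) x x') := by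
    intro k
    by_cases hk : k ∈ R
    · have h1 : (dt.g k).natDegree ≤ 2 := by
        rw [← hR]
        exact Finset.single_le_sum (f := fun k => (dt.g k).natDegree) (fun _ _ => Nat.zero_le _) hk
      obtain ⟨n, col, h2, h3⟩ := color dt k h1 (τ k) (hτ k)
      exact ⟨n, col, h2, fun _ => h3⟩
    · exact ⟨1, fun _ => 0, fun _ => Nat.one_pos, fun h' => absurd h' hk⟩
  choose n col hcol hsq using hex
  refine ⟨N * ∏ k, n k, fun m S hS => ?_⟩
  have h1 : S.card ≤ N * (S.image (fun x k => col k x)).card := by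
    refine Finset.card_le_mul_card_image S N ?_
    intro v _
    refine hN _ ?_
    intro x hx x' hx'
    obtain ⟨hx1, hx2⟩ := Finset.mem_filter.1 hx
    obtain ⟨hx1', hx2'⟩ := Finset.mem_filter.1 hx'
    obtain ⟨⟨u, hu⟩, hk⟩ := hS (Finset.mem_coe.2 hx1)
    obtain ⟨⟨u', hu'⟩, hk'⟩ := hS (Finset.mem_coe.2 hx1')
    rw [← hRdef] at hk hk'
    rw [hmap]
    refine sqmod_prod _ _ (fun i _ k _ hik => g_coprime dt hik) ?_
    intro k hkm
    rcases Finset.mem_insert.1 hkm with rfl | hkR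
    · exact sqmod_lin ha hu hu'
    · exact hsq k hkR x x' (hk k hkR) (hk' k hkR) (congrFun (hx2.trans hx2'.symm) k)
  have h2 : (S.image (fun x k => col k x)).card ≤ ∏ k, n k := by
    have h3 : S.image (fun x k => col k x) ⊆ Fintype.piFinset (fun k => range (n k)) := by
      intro v hv
      obtain ⟨x, -, rfl⟩ := Finset.mem_image.1 hv
      rw [Fintype.mem_piFinset]
      exact fun k => Finset.mem_range.2 (hcol k x)
    refine (Finset.card_le_card h3).trans ?_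
    rw [Fintype.card_piFinset]
    simp
  exact h1.trans (Nat.mul_le_mul_left N h2)

private theorem class_fin (dt : FData f ι) (p : (ι × ι) × (ι → ℤ)) :
    ∃ N : ℕ, Suit dt p.1.1 p.1.2 p.2 → ∀ m : ℤ, (Z2 dt p.1.1 p.1.2 p.2 m).Finite ∧
      (Z2 dt p.1.1 p.1.2 p.2 m).ncard ≤ N := by
  by_cases hs : Suit dt p.1.1 p.1.2 p.2
  · obtain ⟨N, hN⟩ := class_bound dt p.1.1 p.1.2 p.2 hs
    refine ⟨N, fun _ m => ?_⟩
    have h1 := Pool.Agent.Helper5.FM.fin_of_bdd (Z2 dt p.1.1 p.1.2 p.2 m) (N : ℝ) (fun S hS => by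
      exact_mod_cast hN m S hS)
    exact ⟨h1.1, by exact_mod_cast h1.2⟩
  · exact ⟨0, fun h => absurd h hs⟩

/-- `x` determines the squarefree twist -/
private theorem twist_unique {D D' x y y' : ℤ} (hD : Squarefree D) (hD' : Squarefree D')
    (hy : y ≠ 0) (h : y ^ 2 = D * f.eval x) (h' : y' ^ 2 = D' * f.eval x) : D = D' := by
  have hD0 : D ≠ 0 := hD.ne_zero
  have hf0 : f.eval x ≠ 0 := by
    intro h0
    rw [h0, mul_zero] at h
    exact hy (pow_eq_zero_iff two_ne_zero |>.mp h)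
  -- `D D' = w²`
  have h1 : (f.eval x) ^ 2 ∣ (y * y') ^ 2 := by
    refine ⟨D * D', ?_⟩
    rw [mul_pow, h, h']
    ring
  obtain ⟨w, hw⟩ := (Int.pow_dvd_pow_iff two_ne_zero).1 h1
  have h2 : D * D' = w ^ 2 := by
    have h3 : (f.eval x) ^ 2 * (D * D') = (f.eval x) ^ 2 * w ^ 2 := by
      rw [← mul_pow, ← hw, mul_pow, h, h']
      ring
    exact mul_left_cancel₀ (pow_ne_zero 2 hf0) h3
  have h3 : D ∣ w := (hD.dvd_pow_iff_dvd two_ne_zero).mp ⟨D', h2.symm⟩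
  obtain ⟨v, rfl⟩ := h3
  have h4 : D' = D * v ^ 2 := by
    apply mul_left_cancel₀ hD0
    rw [h2]
    ring
  have h5 : IsUnit v := hD' v ⟨D, by rw [h4]; ring⟩
  rcases Int.isUnit_iff.1 h5 with h6 | h6 <;> rw [h4, h6] <;> ring

theorem deg_count (dt : FData f ι) (hd : 4 ≤ f.natDegree) :
    ∃ C : ℕ, ∀ X : ℕ, (DegSet dt ∩ {D : ℤ | |D| ≤ (X : ℤ)}).Finite ∧
      (DegSet dt ∩ {D : ℤ | |D| ≤ (X : ℤ)}).ncard ≤ C * (Nat.sqrt X + 1) := by
  classical
  have hB0 : (dt.B : ℤ) ≠ 0 := by exact_mod_cast dt.B_ne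
  choose N hN using class_fin dt
  obtain ⟨Ω, hΩ⟩ : ∃ Ω : Finset ((ι × ι) × (ι → ℤ)), Ω =
      ((univ : Finset (ι × ι)) ×ˢ Fintype.piFinset (fun _ : ι => divB dt)).filter
        (fun p => Suit dt p.1.1 p.1.2 p.2) := ⟨_, rfl⟩
  refine ⟨(Z1 dt).ncard + ∑ p ∈ Ω, N p, fun X => ?_⟩
  obtain ⟨s, hsdef⟩ : ∃ s : ℕ, s = Nat.sqrt X := ⟨_, rfl⟩
  rw [← hsdef]
  -- the set of the `x`
  obtain ⟨Z, hZ⟩ : ∃ Z : Set ℤ, Z = Z1 dt ∪ ⋃ p ∈ Ω, ⋃ A ∈ Finset.Icc 1 s,
      Z2 dt p.1.1 p.1.2 p.2 (p.2 p.1.1 * (A : ℤ)) := ⟨_, rfl⟩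
  have hsuit : ∀ p ∈ Ω, Suit dt p.1.1 p.1.2 p.2 := by
    intro p hp
    rw [hΩ] at hp
    exact (Finset.mem_filter.1 hp).2
  have hZfin : Z.Finite := by
    rw [hZ]
    refine (Z1_finite dt).union (Set.Finite.biUnion (Finset.finite_toSet _) fun p hp =>
      Set.Finite.biUnion (Finset.finite_toSet _) fun A _ => ?_)
    exact (hN p (hsuit p hp) _).1
  have hZcard : Z.ncard ≤ ((Z1 dt).ncard + ∑ p ∈ Ω, N p) * (s + 1) := by
    rw [hZ]
    have h1 : (⋃ p ∈ Ω, ⋃ A ∈ Finset.Icc 1 s,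
        Z2 dt p.1.1 p.1.2 p.2 (p.2 p.1.1 * (A : ℤ))).ncard ≤ ∑ p ∈ Ω, s * N p := by
      refine (Finset.set_ncard_biUnion_le _ _).trans (Finset.sum_le_sum fun p hp => ?_)
      refine (Finset.set_ncard_biUnion_le _ _).trans ?_
      refine (Finset.sum_le_card_nsmul _ _ (N p) fun A _ => (hN p (hsuit p hp) _).2).trans ?_
      rw [Nat.card_Icc, smul_eq_mul, Nat.add_sub_cancel]
    refine (Set.ncard_union_le _ _).trans ?_
    rw [← Finset.mul_sum] at h1
    nlinarith [Nat.zero_le ((Z1 dt).ncard * s), Nat.zero_le (∑ p ∈ Ω, N p)]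
  -- the point of a twist
  have hpt : ∀ D ∈ DegSet dt ∩ {D : ℤ | |D| ≤ (X : ℤ)}, ∃ x ∈ Z, ∃ y : ℤ, y ≠ 0 ∧
      y ^ 2 = D * f.eval x := by
    rintro D ⟨⟨hD, x, y, t, E, τ, I, hy, hyx, hdesc, -, hnd⟩, hDX⟩
    refine ⟨x, ?_, y, hy, hyx⟩
    unfold NonDeg at hnd
    push Not at hnd
    obtain ⟨hI, hc, hE⟩ := hnd
    have hτ : ∀ k, τ k ≠ 0 := by
      intro k h0
      have := hdesc.2.1 k
      rw [h0, zero_dvd_iff] at this
      exact hB0 this
    have hτB : ∀ k, τ k ∈ divB dt := by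
      intro k
      have h1 := hdesc.2.1 k
      have h2 : |τ k| ≤ (dt.B : ℤ) := Int.le_of_dvd (by positivity) ((abs_dvd _ _).mpr h1)
      rw [divB, Finset.mem_filter, Finset.mem_Icc]
      exact ⟨abs_le.mp h2, h1⟩
    have hprod : (∏ i, E i) ≠ 0 := hdesc.2.2.2.1.ne_zero
    have hEne : ∀ k, E k ≠ 0 := fun k => Finset.prod_ne_zero_iff.1 hprod k (Finset.mem_univ k)
    have hE1 : ∀ k, k ∉ I → E k = 1 := by
      intro k hk
      have h1 := hE k hk
      have h2 := hEne k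
      omega
    have hFd := FI_deg dt I τ hτ hI
    rw [hZ]
    by_cases h3 : 3 ≤ (FI dt I τ).natDegree
    · exact Or.inl ⟨I, τ, hτB, hτ, h3, desc_point dt hdesc hE1⟩
    · right
      have hIc : I.card = 2 := by omega
      have hR2 : ∑ k ∈ Iᶜ, (dt.g k).natDegree = 2 := by
        have h4 : ∑ k ∈ I, (dt.g k).natDegree = I.card := by
          rw [Finset.sum_congr rfl hI]
          simp
        have h5 : ∑ k ∈ I, (dt.g k).natDegree + ∑ k ∈ Iᶜ, (dt.g k).natDegree = f.natDegree := by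
          rw [Finset.sum_add_sum_compl, sum_deg dt]
        omega
      obtain ⟨a, b, hab, rfl⟩ := Finset.card_eq_two.1 hIc
      -- `E a * E b ≤ X`
      have hEX : E a * E b ≤ X := by
        have h4 : ∏ i, E i = E a * E b := by
          rw [← Finset.prod_mul_prod_compl ({a, b} : Finset ι) E, Finset.prod_pair hab,
            Finset.prod_congr rfl (fun k hk => hE1 k (Finset.mem_compl.1 hk)), Finset.prod_const_one,
            mul_one]
        have h5 : |D| = |t| * ((∏ i, E i : ℕ) : ℤ) := by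
          rw [hdesc.2.2.1, abs_mul, Nat.abs_cast]
        have ht0 : t ≠ 0 := by
          rintro rfl
          have := hdesc.1
          rw [zero_dvd_iff] at this
          exact hB0 this
        have h6 : (1 : ℤ) ≤ |t| := Int.one_le_abs ht0
        have h7 : ((∏ i, E i : ℕ) : ℤ) ≤ X := by
          have h8 : |D| ≤ (X : ℤ) := hDX
          rw [h5] at h8
          have h9 : (0 : ℤ) ≤ ((∏ i, E i : ℕ) : ℤ) := Int.natCast_nonneg _
          nlinarith
        rw [← h4]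
        exact_mod_cast h7
      have hsel : E a ≤ s ∨ E b ≤ s := by
        by_contra hcon
        push Not at hcon
        have h4 : (s + 1) * (s + 1) ≤ E a * E b := Nat.mul_le_mul hcon.1 hcon.2
        have h5 : X < (s + 1) * (s + 1) := by
          rw [hsdef]
          exact Nat.lt_succ_sqrt X
        omega
      have hmem : ∀ a' b' : ι, ({a', b'} : Finset ι) = {a, b} → E a' ≤ s →
          x ∈ ⋃ p ∈ Ω, ⋃ A ∈ Finset.Icc 1 s, Z2 dt p.1.1 p.1.2 p.2 (p.2 p.1.1 * (A : ℤ)) := by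
        intro a' b' hab' hle
        have ha' : a' ∈ ({a, b} : Finset ι) := by
          rw [← hab']
          simp
        rw [Set.mem_iUnion₂]
        refine ⟨((a', b'), τ), ?_, ?_⟩
        · rw [hΩ, Finset.mem_filter, Finset.mem_product]
          refine ⟨⟨Finset.mem_univ _, Fintype.mem_piFinset.2 hτB⟩, hI a' ha', ?_, hτ⟩
          change ∑ k ∈ ({a', b'} : Finset ι)ᶜ, (dt.g k).natDegree = 2
          rw [hab']
          exact hR2
        · rw [Set.mem_iUnion₂]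
          refine ⟨E a', Finset.mem_Icc.2 ⟨Nat.one_le_iff_ne_zero.2 (hEne a'), hle⟩, ?_, ?_⟩
          · obtain ⟨u, -, hu⟩ := hdesc.2.2.2.2.2 a'
            exact ⟨u, hu⟩
          · intro k hk
            change k ∈ ({a', b'} : Finset ι)ᶜ at hk
            rw [hab', Finset.mem_compl] at hk
            obtain ⟨u, hu0, hu⟩ := hdesc.2.2.2.2.2 k
            refine ⟨u, hu0, ?_⟩
            rw [hu, hE1 k hk]
            push_cast
            ring
      rcases hsel with h4 | h4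
      · exact hmem a b rfl h4
      · exact hmem b a (Finset.pair_comm b a) h4
  choose! xx hxZ yy hyy hxy using hpt
  have hinj : Set.InjOn xx (DegSet dt ∩ {D : ℤ | |D| ≤ (X : ℤ)}) := by
    intro D hD D' hD' h
    refine twist_unique (f := f) (x := xx D) (y := yy D) (y' := yy D') hD.1.1 hD'.1.1 (hyy D hD)
      (hxy D hD) ?_
    rw [h]
    exact hxy D' hD'
  refine ⟨Set.Finite.of_finite_image (hZfin.subset ?_) hinj, ?_⟩
  · rintro _ ⟨D, hD, rfl⟩
    exact hxZ D hD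
  · exact (Set.ncard_le_ncard_of_injOn xx (fun D hD => hxZ D hD) hinj hZfin).trans hZcard

end Pool.Agent.Helper38.TW
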