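import Mathlib
import Pool.Agent.Helper38.TW.DegCount
import Pool.Agent.Helper38.TW.Deg3One

/-!
# TW-H4: the bound for the degenerate twists, all degrees `≥ 3`

`deg f ≥ 4`: `deg_count`. `deg f = 3`: no linear factor: `DegSet` is empty; all factors linear: hypothesis `HS`; otherwise one linear and one quadratic factor: `deg3_one`.
-/

set_option autoImplicit false

namespace Pool.Agent.Helper38.TW

open Finset Polynomial

variable {f : ℤ[X]} {ι : Type} [Fintype ι] [DecidableEq ι]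

private theorem fin_bound (S : Set ℤ) (N : ℕ) (hN : ∀ X : ℕ, (S ∩ {D : ℤ | |D| ≤ (X : ℤ)}).ncard ≤ N) :
    ∃ C c : ℝ, 0 < C ∧ 0 < c ∧ ∀ X : ℕ, 2 ≤ X →
      ((S ∩ {D : ℤ | |D| ≤ (X : ℤ)}).ncard : ℝ) ≤ C * X / (Real.log X) ^ c := by
  refine ⟨N + 1, 1, by positivity, one_pos, fun X hX => ?_⟩
  have hXpos : (0 : ℝ) < X := by
    have : 0 < X := by omega
    exact_mod_cast this
  have hlog : 0 < Real.log X := Real.log_pos (by exact_mod_cast (by omega : 1 < X))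
  have hle : Real.log X ≤ X := by
    have := Real.log_le_sub_one_of_pos hXpos
    linarith
  rw [Real.rpow_one, le_div_iff₀ hlog]
  have h1 : ((S ∩ {D : ℤ | |D| ≤ (X : ℤ)}).ncard : ℝ) ≤ N := by exact_mod_cast hN X
  have h2 : (0 : ℝ) ≤ N := Nat.cast_nonneg N
  calc ((S ∩ {D : ℤ | |D| ≤ (X : ℤ)}).ncard : ℝ) * Real.log X ≤ N * X :=
        mul_le_mul h1 hle hlog.le h2
    _ ≤ (N + 1) * X := by linarith

private theorem four_bound (dt : FData f ι) (hd : 4 ≤ f.natDegree) :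
    ∃ C c : ℝ, 0 < C ∧ 0 < c ∧ ∀ X : ℕ, 2 ≤ X →
      ((DegSet3 dt ∩ {D : ℤ | |D| ≤ (X : ℤ)}).ncard : ℝ) ≤ C * X / (Real.log X) ^ c := by
  obtain ⟨C, hC⟩ := deg_count dt hd
  refine ⟨4 * C + 1, 1, by positivity, one_pos, fun X hX => ?_⟩
  obtain ⟨hfin, hcard⟩ := hC X
  have hXpos : (0 : ℝ) < X := by
    have : 0 < X := by omega
    exact_mod_cast this
  have hX1 : (1 : ℝ) ≤ X := by exact_mod_cast (by omega : 1 ≤ X)
  have hlog : 0 < Real.log X := Real.log_pos (by exact_mod_cast (by omega : 1 < X))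
  have h1 : (DegSet3 dt ∩ {D : ℤ | |D| ≤ (X : ℤ)}).ncard ≤
      (DegSet dt ∩ {D : ℤ | |D| ≤ (X : ℤ)}).ncard :=
    Set.ncard_le_ncard (Set.inter_subset_inter_left _ (degSet3_sub dt)) hfin
  have h2 : ((DegSet3 dt ∩ {D : ℤ | |D| ≤ (X : ℤ)}).ncard : ℝ) ≤ C * (Nat.sqrt X + 1) := by
    exact_mod_cast h1.trans hcard
  obtain ⟨s, hs⟩ : ∃ s : ℝ, s = Real.sqrt X := ⟨_, rfl⟩
  have hs1 : 1 ≤ s := by
    rw [hs]
    exact Real.one_le_sqrt.2 hX1
  have hs2 : s * s = X := by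
    rw [hs]
    exact Real.mul_self_sqrt hXpos.le
  have hs3 : (Nat.sqrt X : ℝ) ≤ s := by
    rw [hs]
    exact Real.nat_sqrt_le_real_sqrt
  have hlogs : Real.log X ≤ 2 * s := by
    rw [← hs2, Real.log_mul (by linarith) (by linarith)]
    have := Real.log_le_sub_one_of_pos (by linarith : 0 < s)
    linarith
  rw [Real.rpow_one, le_div_iff₀ hlog]
  have hC0 : (0 : ℝ) ≤ C := Nat.cast_nonneg C
  calc ((DegSet3 dt ∩ {D : ℤ | |D| ≤ (X : ℤ)}).ncard : ℝ) * Real.log X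
      ≤ (C * (s + 1)) * (2 * s) := by
        refine mul_le_mul (h2.trans ?_) hlogs hlog.le (by positivity)
        exact mul_le_mul_of_nonneg_left (by linarith) hC0
    _ ≤ (4 * C) * X := by
        rw [← hs2]
        nlinarith [mul_nonneg hC0 (mul_nonneg (by linarith : (0 : ℝ) ≤ s) (by linarith : (0 : ℝ) ≤ s - 1))]
    _ ≤ (4 * C + 1) * X := by linarith

theorem deg3_bound (dt : FData f ι) (hd : 3 ≤ f.natDegree)
    (hr : f.natDegree = 3 → ∀ r : ℚ, (f.map (Int.castRingHom ℚ)).roots = {r} →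
      ((f.leadingCoeff : ℤ) : ℚ) * (derivative (f.map (Int.castRingHom ℚ))).eval r < 0 ∨
      IsSquare (((f.leadingCoeff : ℤ) : ℚ) * (derivative (f.map (Int.castRingHom ℚ))).eval r))
    (HQ : ∀ F : ℤ[X], F.natDegree = 2 → Squarefree (F.map (Int.castRingHom ℚ)) →
      (F.leadingCoeff < 0 ∨ IsSquare ((F.leadingCoeff : ℤ) : ℚ)) →
      {x : ℤ | ∃ y : ℤ, y ^ 2 = F.eval x}.Finite)
    (HS : f.natDegree = 3 → (∀ i, (dt.g i).natDegree = 1) →
      ∃ C c : ℝ, 0 < C ∧ 0 < c ∧ ∀ X : ℕ, 2 ≤ X →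
        ((DegSet dt ∩ {D : ℤ | |D| ≤ (X : ℤ)}).ncard : ℝ) ≤ C * X / (Real.log X) ^ c) :
    ∃ C c : ℝ, 0 < C ∧ 0 < c ∧ ∀ X : ℕ, 2 ≤ X →
      ((DegSet3 dt ∩ {D : ℤ | |D| ≤ (X : ℤ)}).ncard : ℝ) ≤ C * X / (Real.log X) ^ c := by
  classical
  by_cases h4 : 4 ≤ f.natDegree
  · exact four_bound dt h4
  have h3 : f.natDegree = 3 := by omega
  have hpos : ∀ k, 0 < (dt.g k).natDegree := by
    intro k
    have h1 := (dt.irr k).natDegree_pos
    rwa [natDegree_map_eq_of_injective (Int.castRingHom ℚ).injective_int] at h1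
  by_cases hno : ∀ i, (dt.g i).natDegree ≠ 1
  · refine fin_bound _ 0 fun X => ?_
    have h5 : DegSet3 dt ∩ {D : ℤ | |D| ≤ (X : ℤ)} = ∅ := by
      rw [Set.eq_empty_iff_forall_notMem]
      rintro D ⟨⟨hD, x, y, t, E, τ, I, hy, hyx, hdesc, ⟨i, hi⟩, hnd⟩, -⟩
      exact hnd (Or.inl (Or.inl ⟨i, hi, hno i⟩))
    rw [h5, Set.ncard_empty]
  by_cases hall : ∀ i, (dt.g i).natDegree = 1
  · obtain ⟨C, c, hC, hc, h⟩ := HS h3 hall
    refine ⟨C, c, hC, hc, fun X hX => le_trans ?_ (h X hX)⟩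
    have hfin : (DegSet dt ∩ {D : ℤ | |D| ≤ (X : ℤ)}).Finite := by
      refine (Set.finite_Icc (-(X : ℤ)) X).subset ?_
      rintro D ⟨-, h2⟩
      exact Set.mem_Icc.2 (abs_le.1 h2)
    exact Nat.cast_le.2 (Set.ncard_le_ncard
      (Set.inter_subset_inter_left _ (degSet3_sub dt)) hfin)
  · push Not at hno hall
    obtain ⟨i, hi⟩ := hno
    obtain ⟨k, hk⟩ := hall
    have hik : i ≠ k := by
      rintro rfl
      exact hk hi
    have hk2 : 2 ≤ (dt.g k).natDegree := by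
      have := hpos k
      omega
    have hsum := sum_deg dt
    rw [h3] at hsum
    have hsplit : ∑ j, (dt.g j).natDegree = ((dt.g i).natDegree + (dt.g k).natDegree) +
        ∑ j ∈ ({i, k} : Finset ι)ᶜ, (dt.g j).natDegree := by
      rw [← Finset.sum_add_sum_compl ({i, k} : Finset ι), Finset.sum_pair hik]
    have hcompl : ({i, k} : Finset ι)ᶜ = ∅ := by
      rw [Finset.eq_empty_iff_forall_notMem]
      intro j hj
      have h5 : (dt.g j).natDegree ≤ ∑ j ∈ ({i, k} : Finset ι)ᶜ, (dt.g j).natDegree :=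
        Finset.single_le_sum (f := fun j => (dt.g j).natDegree) (fun _ _ => Nat.zero_le _) hj
      have h6 := hpos j
      omega
    have huniv : (univ : Finset ι) = {i, k} := by
      rw [← compl_compl ({i, k} : Finset ι), hcompl, Finset.compl_empty]
    rw [hcompl, Finset.sum_empty, add_zero] at hsplit
    have hk2' : (dt.g k).natDegree = 2 := by omega
    have hfin := deg3_one dt i k hik huniv hi hk2' (hr h3) HQ
    exact fin_bound _ (DegSet3 dt).ncard fun X =>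
      Set.ncard_le_ncard Set.inter_subset_left hfin

end Pool.Agent.Helper38.TW
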