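import Mathlib
import Pool.Agent.Helper38.TW.Weight
import Pool.Agent.Helper38.TW.Defs3

/-!
# TW-H1: the weight bound for `NonDeg3`

`lin_char3`: `lin_char` with the explicit number `kap`. `nonsq_primes`: `m` not a square: `∑_{p ≤ x, (m/p) = 1} 1/p ≤ (3/4) log log x + C` (`roots_mertens` for `X² - m`, two roots modulo `p`). The new case: `I = {i}`, `g_i` linear, `E_k = 1`, `τ_k kap i k` not a square: `α_i(p) ≤ 1[(τ_k κ/p) = 1]` (`alph_le_char`).
-/

set_option autoImplicit false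

namespace Pool.Agent.Helper38.TW

open Finset Polynomial Pool.Agent.Helper10.P5

variable {f : ℤ[X]} {ι : Type} [Fintype ι] [DecidableEq ι]

private theorem natDeg_one {g : ℤ[X]} (h : g.natDegree = 1) :
    ∃ a b₀ : ℤ, a ≠ 0 ∧ g.leadingCoeff = a ∧ g = C a * X + C b₀ := by
  refine ⟨g.coeff 1, g.coeff 0, ?_, ?_, ?_⟩
  · have h1 : g.leadingCoeff ≠ 0 := by
      rw [Ne, leadingCoeff_eq_zero]
      rintro rfl
      simp at h
    rwa [leadingCoeff, h] at h1
  · rw [leadingCoeff, h]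
  · exact eq_X_add_C_of_natDegree_le_one h.le

theorem lin_char3 (dt : FData f ι) (i k : ι) (hik : k ≠ i) (hlin : (dt.g i).natDegree = 1) :
    kap dt i k ≠ 0 ∧ (∀ p : ℕ, p.Prime → (p : ℤ) ∣ kap dt i k → p ∣ dt.B) ∧
      ∀ p : ℕ, p.Prime → ¬ p ∣ dt.B → ∀ x : ℤ, (p : ℤ) ∣ (dt.g i).eval x →
        jacobiSym ((dt.g k).eval x) p = jacobiSym (kap dt i k) p := by
  obtain ⟨a, b₀, ha, hlead, hgi⟩ := natDeg_one hlin
  have hb0 : (dt.g i).coeff 0 = b₀ := by
    rw [hgi]
    simp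
  unfold kap
  rw [hlead, hb0]
  have haB : a ∣ (dt.B : ℤ) := hlead ▸ dt.lead_dvd i
  obtain ⟨u, v, huv⟩ := dt.bez i k hik.symm
  set g := dt.g k with hg
  set d := g.natDegree with hd
  set N : ℤ := (scaleRoots g a).eval (-b₀) with hN
  set V : ℤ := (scaleRoots v a).eval (-b₀) with hV
  -- the resultant identity
  have hsc : ∀ q : ℤ[X], ((((scaleRoots q a).eval (-b₀) : ℤ)) : ℚ) =
      (a : ℚ) ^ q.natDegree * q.eval₂ (Int.castRingHom ℚ) (-(b₀ : ℚ) / a) := by
    intro q
    have h1 := scaleRoots_eval₂_mul (p := q) (Int.castRingHom ℚ) (-(b₀ : ℚ) / a) a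
    have h2 : (Int.castRingHom ℚ) a * (-(b₀ : ℚ) / a) = (Int.castRingHom ℚ) (-b₀) := by
      have h3 : (a : ℚ) ≠ 0 := by exact_mod_cast ha
      simp only [eq_intCast, Int.cast_neg]
      field_simp
    rw [h2, eval₂_at_apply] at h1
    simpa using h1
  have hNV : V * N = a ^ (v.natDegree + d) * (dt.B : ℤ) := by
    have h1 := congrArg (fun q : ℤ[X] => q.eval₂ (Int.castRingHom ℚ) (-(b₀ : ℚ) / a)) huv
    simp only [eval₂_add, eval₂_mul, eval₂_C] at h1
    have h2 : (dt.g i).eval₂ (Int.castRingHom ℚ) (-(b₀ : ℚ) / a) = 0 := by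
      have h3 : (a : ℚ) ≠ 0 := by exact_mod_cast ha
      rw [hgi, eval₂_add, eval₂_mul, eval₂_C, eval₂_C, eval₂_X]
      simp only [eq_intCast]
      field_simp
      ring
    rw [h2, mul_zero, zero_add] at h1
    have h4 := hsc v
    have h5 := hsc g
    have h6 : ((V * N : ℤ) : ℚ) = ((a ^ (v.natDegree + d) * (dt.B : ℤ) : ℤ) : ℚ) := by
      push_cast
      rw [hV, hN, h4, h5, pow_add]
      have h7 : ((Int.castRingHom ℚ) ((dt.B : ℕ) : ℤ) : ℚ) = (dt.B : ℚ) := by simp
      rw [h7] at h1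
      rw [← h1]
      ring
    exact_mod_cast h6
  have hB0 : (dt.B : ℤ) ≠ 0 := by exact_mod_cast dt.B_ne
  have hN0 : N ≠ 0 := by
    intro h
    rw [h, mul_zero] at hNV
    exact mul_ne_zero (pow_ne_zero _ ha) hB0 hNV.symm
  refine ⟨mul_ne_zero hN0 (pow_ne_zero _ ha), ?_, ?_⟩
  · intro p hp hpd
    have hpZ : Prime (p : ℤ) := Nat.prime_iff_prime_int.1 hp
    have hpa : (p : ℤ) ∣ a → p ∣ dt.B := fun h => by
      exact_mod_cast h.trans haB
    rcases hpZ.dvd_or_dvd hpd with h | h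
    · have h1 : (p : ℤ) ∣ a ^ (v.natDegree + d) * (dt.B : ℤ) := by
        rw [← hNV]
        exact h.mul_left V
      rcases hpZ.dvd_or_dvd h1 with h2 | h2
      · exact hpa (hpZ.dvd_of_dvd_pow h2)
      · exact_mod_cast h2
    · exact hpa (hpZ.dvd_of_dvd_pow h)
  · intro p hp hpB x hx
    have hpZ : Prime (p : ℤ) := Nat.prime_iff_prime_int.1 hp
    have hpa : ¬ (p : ℤ) ∣ a := fun h => hpB (by exact_mod_cast h.trans haB)
    -- the congruence
    have h1 : (p : ℤ) ∣ a ^ d * g.eval x - N := by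
      have h2 : a * x - (-b₀) ∣ (scaleRoots g a).eval (a * x) - (scaleRoots g a).eval (-b₀) :=
        sub_dvd_eval_sub _ _ _
      have h3 : (scaleRoots g a).eval (a * x) = a ^ d * g.eval x := by
        have h4 := scaleRoots_eval₂_mul (p := g) (RingHom.id ℤ) x a
        simpa [eval₂_id] using h4
      have h5 : (dt.g i).eval x = a * x - (-b₀) := by
        rw [hgi]
        simp
      rw [h3, ← h5] at h2
      exact hx.trans h2
    have h2 : (p : ℤ) ∣ (a ^ d) ^ 2 * g.eval x - N * a ^ d := by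
      have h3 : (a ^ d) ^ 2 * g.eval x - N * a ^ d = a ^ d * (a ^ d * g.eval x - N) := by ring
      rw [h3]
      exact h1.mul_left _
    have h3 : jacobiSym ((a ^ d) ^ 2 * g.eval x) p = jacobiSym (N * a ^ d) p :=
      jacobiSym.mod_left' ((Int.emod_emod_of_dvd _ (dvd_refl _)).symm.trans
        ((Int.emod_emod_of_dvd _ (dvd_refl _)).trans (Int.ModEq.symm
          ((Int.modEq_iff_dvd).2 h2))))
    have hgcd : (a ^ d).gcd (p : ℤ) = 1 := by
      rw [← Int.isCoprime_iff_gcd_eq_one]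
      exact ((Prime.coprime_iff_not_dvd hpZ).2 fun h => hpa (hpZ.dvd_of_dvd_pow h)).symm
    rw [← h3, jacobiSym.mul_left, jacobiSym.sq_one' hgcd, one_mul]


theorem nonsq_primes (m : ℤ) (_hm0 : m ≠ 0) (hm : ¬ IsSquare m) :
    ∃ C : ℝ, ∀ x : ℕ, 3 ≤ x →
      ∑ p ∈ (PL x).filter (fun p => jacobiSym m p = 1), (1 : ℝ) / p ≤
        (3 / 4) * Real.log (Real.log x) + C := by
  classical
  obtain ⟨g, hg⟩ : ∃ g : ℤ[X], g = X ^ 2 - C m := ⟨_, rfl⟩
  have hirr : Irreducible (g.map (Int.castRingHom ℚ)) := by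
    have h1 : g.map (Int.castRingHom ℚ) = X ^ 2 - C (m : ℚ) := by
      rw [hg]
      simp
    rw [h1]
    refine X_pow_sub_C_irreducible_of_prime Nat.prime_two fun b hb => hm ?_
    have h2 : IsSquare (m : ℚ) := ⟨b, by rw [← hb]; ring⟩
    exact Rat.isSquare_intCast_iff.1 h2
  obtain ⟨C, hC⟩ := roots_mertens g hirr (1 / 2) (by norm_num)
  refine ⟨(1 / 2) * C + 1 / 2, fun x hx => ?_⟩
  have h1 := hC x hx
  have h2 : ∑ p ∈ (PL x).filter (fun p => jacobiSym m p = 1), (1 : ℝ) / p ≤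
      ∑ p ∈ PL x, ((1 / 2) * ((rootsMod g p : ℝ) / p) + if p = 2 then (1 / 2 : ℝ) else 0) := by
    rw [Finset.sum_filter]
    refine Finset.sum_le_sum fun p hp => ?_
    have hpp := ((mem_PL x p).1 hp).2
    have hp0 : (0 : ℝ) < p := by exact_mod_cast hpp.pos
    have hr0 : (0 : ℝ) ≤ (rootsMod g p : ℝ) / p := by positivity
    split_ifs with h3 h4
    · rw [h4]
      have : (0 : ℝ) ≤ (rootsMod g 2 : ℝ) / (2 : ℕ) := by positivity
      push_cast at this ⊢
      linarith
    · have h5 : 2 ≤ rootsMod g p := by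
        have : Fact p.Prime := ⟨hpp⟩
        have : NeZero p := ⟨hpp.ne_zero⟩
        rw [← jacobiSym.legendreSym.to_jacobiSym] at h3
        have hm0' : ((m : ℤ) : ZMod p) ≠ 0 := by
          intro h0
          rw [(legendreSym.eq_zero_iff p m).2 h0] at h3
          exact zero_ne_one h3
        obtain ⟨r, hr⟩ := (legendreSym.eq_one_iff p hm0').1 h3
        have hr0 : r ≠ 0 := by
          rintro rfl
          exact hm0' (by rw [hr, mul_zero])
        have hne : r ≠ -r := by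
          intro h0
          have h7 : (2 : ZMod p) * r = 0 := by linear_combination h0
          rcases mul_eq_zero.1 h7 with h8 | h8
          · have h9 : ((2 : ℕ) : ZMod p) = 0 := by exact_mod_cast h8
            rw [ZMod.natCast_eq_zero_iff] at h9
            exact h4 ((Nat.prime_dvd_prime_iff_eq hpp Nat.prime_two).1 h9)
          · exact hr0 h8
        have hsub : ({r, -r} : Set (ZMod p)) ⊆
            {x : ZMod p | (g.map (Int.castRingHom (ZMod p))).eval x = 0} := by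
          intro z hz
          have hz2 : z ^ 2 = (m : ZMod p) := by
            rcases hz with rfl | rfl
            · rw [hr]
              ring
            · rw [hr]
              ring
          change (g.map (Int.castRingHom (ZMod p))).eval z = 0
          rw [hg]
          simp [hz2]
        have h10 := Set.ncard_le_ncard hsub (Set.toFinite _)
        rw [Set.ncard_pair hne] at h10
        exact h10
      have h6 : (2 : ℝ) ≤ rootsMod g p := by exact_mod_cast h5
      have h7 : (1 : ℝ) / p ≤ (1 / 2) * ((rootsMod g p : ℝ) / p) := by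
        rw [← mul_div_assoc]
        exact div_le_div_of_nonneg_right (by linarith) hp0.le
      linarith
    · positivity
    · positivity
  rw [Finset.sum_add_distrib, ← Finset.mul_sum] at h2
  have h3 : ∑ p ∈ PL x, (if p = 2 then (1 / 2 : ℝ) else 0) ≤ 1 / 2 := by
    rw [Finset.sum_ite_eq']
    split_ifs <;> norm_num
  linarith

private lemma w3_char (dt : FData f ι) (τ : ι → ℤ) (hτ : ∀ i, τ i ∣ (dt.B : ℤ)) (i k : ι) :
    ∃ C : ℝ, 0 ≤ C ∧ ∀ (I : Finset ι) (E : ι → ℕ) (hi : i ∈ I), k ∉ I → I.card = 1 →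
      (dt.g i).natDegree = 1 → E k = 1 → ¬ IsSquare (τ k * kap dt i k) → ∀ Y : ℕ, 3 ≤ Y →
      ∑ p ∈ PL Y, alph (condI dt τ I E) ⟨i, hi⟩ p / p ≤
        (3 / 4) * Real.log (Real.log Y) + C := by
  classical
  by_cases h : k ≠ i ∧ (dt.g i).natDegree = 1 ∧ ¬ IsSquare (τ k * kap dt i k)
  · obtain ⟨hki, hlin, hsq⟩ := h
    obtain ⟨hκ0, -, hκ⟩ := lin_char3 dt i k hki hlin
    have hB0 : (dt.B : ℤ) ≠ 0 := by exact_mod_cast dt.B_ne
    have hτ0 : τ k ≠ 0 := by
      intro h
      have := hτ k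
      rw [h, zero_dvd_iff] at this
      exact hB0 this
    obtain ⟨C, hC⟩ := nonsq_primes (τ k * kap dt i k) (mul_ne_zero hτ0 hκ0) hsq
    refine ⟨|C|, abs_nonneg _, ?_⟩
    intro I E hi hk hI _ hE _ Y hY
    have h1 : ∑ p ∈ PL Y, alph (condI dt τ I E) ⟨i, hi⟩ p / p ≤
        ∑ p ∈ (PL Y).filter (fun p => jacobiSym (τ k * kap dt i k) p = 1), (1 : ℝ) / p := by
      rw [Finset.sum_filter]
      refine Finset.sum_le_sum fun p hp => ?_
      have hpp := ((mem_PL Y p).1 hp).2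
      have h2 := alph_le_char dt τ I E ⟨i, hi⟩ p hpp hlin k hk (kap dt i k)
        (fun hB x hx => hκ p hpp hB x hx)
      rw [hI, hE] at h2
      have h3 : (τ k * kap dt i k * ((1 : ℕ) : ℤ)) = τ k * kap dt i k := by
        push_cast
        ring
      rw [h3, Nat.sub_self, pow_zero, div_one] at h2
      have h4 : (0 : ℝ) ≤ p := Nat.cast_nonneg p
      refine (div_le_div_of_nonneg_right h2 h4).trans (le_of_eq ?_)
      split_ifs
      · rfl
      · rw [zero_div]
    have h5 := hC Y hY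
    have h6 := le_abs_self C
    linarith
  · refine ⟨0, le_rfl, ?_⟩
    intro I E hi hk _ hlin _ hsq Y _
    exfalso
    refine h ⟨?_, hlin, hsq⟩
    rintro rfl
    exact hk hi

theorem weight_bound3 (dt : FData f ι) (τ : ι → ℤ) (hτ : ∀ i, τ i ∣ (dt.B : ℤ)) :
    ∃ δ C : ℝ, 0 < δ ∧ δ ≤ 1 ∧ 0 < C ∧ ∀ (I : Finset ι) (E : ι → ℕ) (z : ℕ), I.Nonempty → 1 ≤ z →
      (∀ k, k ∉ I → Squarefree (E k) ∧ Nat.Coprime (E k) dt.B ∧ E k ≤ z) →
      NonDeg3 dt τ I E → ∀ Y : ℕ, 3 ≤ Y →
      ∑ p ∈ PL Y, (∑ i : {i // i ∈ I}, alph (condI dt τ I E) i p) / p ≤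
        (1 - δ) * Real.log (Real.log Y) + (1 / 2) * Real.log (1 + Real.log z) + C := by
  classical
  obtain ⟨δ₀, C₀, hδ₀, -, hC₀, hW⟩ := weight_bound dt τ hτ
  choose CC hCC0 hCC using w3_char dt τ hτ
  have hS : 0 ≤ ∑ i, ∑ k, CC i k := sum_nonneg fun i _ => sum_nonneg fun k _ => hCC0 i k
  obtain ⟨δ, hδ⟩ : ∃ δ, δ = min δ₀ (1 / 4) := ⟨_, rfl⟩
  have hδ0 : 0 < δ := by
    rw [hδ]
    exact lt_min hδ₀ (by norm_num)
  have hδ1 : δ ≤ δ₀ := by
    rw [hδ]
    exact min_le_left _ _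
  have hδ2 : δ ≤ 1 / 4 := by
    rw [hδ]
    exact min_le_right _ _
  refine ⟨δ, C₀ + ∑ i, ∑ k, CC i k, hδ0, by linarith, by linarith, ?_⟩
  intro I E z hI hz hE hND Y hY
  have hD0 : 0 < Real.log (Real.log Y) := by
    apply Real.log_pos
    have h1 : (3 : ℝ) ≤ Y := by exact_mod_cast hY
    have h2 : Real.log 3 ≤ Real.log Y := Real.log_le_log (by norm_num) h1
    have h3 : (1 : ℝ) < Real.log 3 := by
      rw [Real.lt_log_iff_exp_lt (by norm_num)]
      exact lt_trans Real.exp_one_lt_d9 (by norm_num)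
    linarith
  have hZ0 : 0 ≤ Real.log (1 + Real.log z) := by
    apply Real.log_nonneg
    have h1 : (1 : ℝ) ≤ z := by exact_mod_cast hz
    have h2 := Real.log_nonneg h1
    linarith
  by_cases hN : NonDeg dt I E
  · have h1 := hW I E z hI hz hE hN Y hY
    have h2 : (1 - δ₀) * Real.log (Real.log Y) ≤ (1 - δ) * Real.log (Real.log Y) :=
      mul_le_mul_of_nonneg_right (by linarith) hD0.le
    linarith
  · rcases hND with h | ⟨hc, i, hi, k, hk, hsq⟩
    · exact absurd h hN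
    unfold NonDeg at hN
    push Not at hN
    obtain ⟨hlin, -, hE1⟩ := hN
    have hEk : E k = 1 := by
      have h1 := hE1 k hk
      have h2 : E k ≠ 0 := (hE k hk).1.ne_zero
      omega
    obtain ⟨i', rfl⟩ := Finset.card_eq_one.1 hc
    have hi' : i = i' := Finset.mem_singleton.1 hi
    subst hi'
    have h3 := hCC i k {i} E (Finset.mem_singleton_self i) hk hc (hlin i hi) hEk hsq Y hY
    have h4 : ∑ p ∈ PL Y, (∑ j : {j // j ∈ ({i} : Finset ι)}, alph (condI dt τ {i} E) j p) / p =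
        ∑ p ∈ PL Y, alph (condI dt τ {i} E) ⟨i, Finset.mem_singleton_self i⟩ p / p := by
      refine Finset.sum_congr rfl fun p _ => ?_
      congr 1
      refine Finset.sum_eq_single_of_mem _ (Finset.mem_univ _) ?_
      intro j _ hj
      exact absurd (Subtype.ext (Finset.mem_singleton.1 j.2)) hj
    rw [h4]
    have h5 : (3 / 4) * Real.log (Real.log Y) ≤ (1 - δ) * Real.log (Real.log Y) :=
      mul_le_mul_of_nonneg_right (by linarith) hD0.le
    have h6 : CC i k ≤ ∑ i, ∑ k, CC i k :=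
      (single_le_sum (f := fun k => CC i k) (fun k _ => hCC0 i k) (mem_univ k)).trans
        (single_le_sum (f := fun i => ∑ k, CC i k)
          (fun i _ => sum_nonneg fun k _ => hCC0 i k) (mem_univ i))
    linarith

end Pool.Agent.Helper38.TW
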