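import Mathlib
import Pool.Agent.Helper38.TW.GDefs
import Pool.Agent.Helper38.TW.Weight3
import Pool.Agent.Helper38.TW.TheoremM

/-!
# TW-G3: the sum of the bounds of Theorem M

Fix `τ`. `n = card ι`. `theoremM` for the index types `{i // i ∈ I}` (finitely many `I`): common constants `A, C, c` (the statement of `theoremM` stays true if `A`, `C` are increased and `c` is decreased, for `z ≥ 1`, `Y ≥ 3`). `δ, C'` from `weight_bound`.
`A₁` with `c A₁ ≥ A + 1`. Let `A₀ ≥ A₁`, `z = ⌊(log X)^{A₀}⌋`. For `X ≥ X₀` (`X₀` depends on `A₀`): `A ≤ z`, `z ≥ 2`, `z ≥ (log X)^{A₀}/2`, `2 z^{A+n+1} ≤ X`, `4 z^{2n} ≤ X`. `E ∈ smallE3 dt τ I z`, `∏ E ≤ z^n`, `Y = X / ∏ E` (natural division) `≥ X/(2 z^n) ≥ √X` and `z^A ≤ Y`, so `log Y ≥ (1/2) log X`, `Y ≤ X`.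
`theoremM` + `weight_bound` (for `k ∉ I`: `E k ≤ z`, squarefree, coprime to `B`): with `exp((1-δ) log log Y + (1/2) log(1+log z) + C') ≤ e^{C'} (log Y)^{1-δ} (1 + log z)`:
`ncard ≤ C e^{C'} Y (log Y)^{-δ} (1 + log z)^{A+1} + C Y (1 + log Y)^A z^{-c} ≤ C'' Y ((log X)^{-δ} (1 + log z)^{A+1} + (log X)^{-1})`
(`(1 + log X)^A z^{-c} ≤ 2^A (log X)^A 2^c (log X)^{-c A₀}`). Sum over `E`: `∑_E Y ≤ X ∑_E 1/∏ E ≤ X (1 + log z)^n`. As `1 + log z ≤ 1 + A₀ log log X`, every power of it is `≤ C (log X)^{δ/2}` (`δ ≤ 1`). Total `≤ C X (log X)^{-δ/2}`.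
-/

set_option autoImplicit false

namespace Pool.Agent.Helper38.TW

open Finset Polynomial

variable {f : ℤ[X]} {ι : Type} [Fintype ι] [DecidableEq ι]

private lemma g3_M (ι : Type) [Fintype ι] [DecidableEq ι] : ∃ (A : ℕ) (C c : ℝ), 0 < C ∧ 0 < c ∧
    ∀ (I : Finset ι) (φ : {i // i ∈ I} → ℕ → Finset {i // i ∈ I} → Prop) (z Y : ℕ),
      1 ≤ z → 3 ≤ Y → A ≤ z → z ^ A ≤ Y →
    ((Adm φ z Y).ncard : ℝ) ≤
      C * (Y / Real.log Y) * (1 + Real.log z) ^ A *
        Real.exp (∑ p ∈ Pool.Agent.Helper10.P5.PL Y, (∑ i, alph φ i p) / p) +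
      C * Y * (1 + Real.log Y) ^ A * (z : ℝ) ^ (-c) := by
  classical
  have h := fun I : Finset ι => theoremM {i // i ∈ I}
  choose A C c hC hc h using h
  have hAle : ∀ I, A I ≤ ∑ J : Finset ι, A J := fun I =>
    Finset.single_le_sum (fun _ _ => Nat.zero_le _) (Finset.mem_univ I)
  have hCle : ∀ I, C I ≤ ∑ J : Finset ι, C J := fun I =>
    Finset.single_le_sum (fun J _ => (hC J).le) (Finset.mem_univ I)
  have hcle : ∀ I, Finset.univ.inf' (Finset.univ_nonempty (α := Finset ι)) c ≤ c I := fun I =>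
    Finset.inf'_le _ (Finset.mem_univ I)
  refine ⟨∑ I, A I, ∑ I, C I, Finset.univ.inf' (Finset.univ_nonempty (α := Finset ι)) c,
    lt_of_lt_of_le (hC ∅) (hCle ∅), ?_, ?_⟩
  · rw [Finset.lt_inf'_iff]
    exact fun I _ => hc I
  intro I φ z Y hz hY hA hzA
  have hzr : (1 : ℝ) ≤ z := by exact_mod_cast hz
  have hYr : (3 : ℝ) ≤ Y := by exact_mod_cast hY
  have hlz : 0 ≤ Real.log z := Real.log_nonneg hzr
  have hlY : 0 < Real.log Y := Real.log_pos (by linarith)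
  have h1 := h I φ z Y ((hAle I).trans hA) ((Nat.pow_le_pow_right hz (hAle I)).trans hzA)
  refine h1.trans (add_le_add ?_ ?_)
  · refine mul_le_mul_of_nonneg_right ?_ (Real.exp_pos _).le
    refine mul_le_mul ?_ (pow_le_pow_right₀ (by linarith) (hAle I)) (by positivity) ?_
    · exact mul_le_mul_of_nonneg_right (hCle I) (by positivity)
    · exact mul_nonneg ((hC ∅).le.trans (hCle ∅)) (by positivity)
  · refine mul_le_mul ?_ ?_ (by positivity) ?_
    · refine mul_le_mul ?_ (pow_le_pow_right₀ (by linarith) (hAle I)) (by positivity) ?_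
      · exact mul_le_mul_of_nonneg_right (hCle I) (by positivity)
      · exact mul_nonneg ((hC ∅).le.trans (hCle ∅)) (by positivity)
    · exact Real.rpow_le_rpow_of_exponent_le hzr (neg_le_neg (hcle I))
    · refine mul_nonneg (mul_nonneg ((hC ∅).le.trans (hCle ∅)) (by positivity)) (by positivity)

private lemma g3_ev (A n A₀ : ℕ) (hA₀ : 1 ≤ A₀) (δ : ℝ) (hδ : 0 < δ) :
    ∃ X₀ : ℕ, 3 ≤ X₀ ∧ ∀ X : ℕ, X₀ ≤ X →
      1 ≤ Real.log X ∧ ((A : ℝ) + 4 ≤ (Real.log X) ^ A₀) ∧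
      4 * ((Real.log X) ^ A₀) ^ (A + 2 * n + 1) ≤ X ∧
      (1 + A₀ * Real.log (Real.log X)) ^ (n + A + 1) ≤ (Real.log X) ^ (δ / 2) := by
  have hA₀r : (1 : ℝ) ≤ A₀ := by exact_mod_cast hA₀
  have hlog : Filter.Tendsto (fun x : ℝ => Real.log x) Filter.atTop Filter.atTop :=
    Real.tendsto_log_atTop
  have h1 : ∀ᶠ x : ℝ in Filter.atTop, 1 ≤ Real.log x := hlog.eventually_ge_atTop 1
  have h2 : ∀ᶠ x : ℝ in Filter.atTop, (A : ℝ) + 4 ≤ (Real.log x) ^ A₀ := by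
    filter_upwards [hlog.eventually_ge_atTop ((A : ℝ) + 4)] with x hx
    have h3 : (1 : ℝ) ≤ Real.log x := by
      have : (0 : ℝ) ≤ A := Nat.cast_nonneg A
      linarith
    calc (A : ℝ) + 4 ≤ Real.log x := hx
      _ = (Real.log x) ^ 1 := (pow_one _).symm
      _ ≤ (Real.log x) ^ A₀ := pow_le_pow_right₀ h3 hA₀
  have h3 : ∀ᶠ x : ℝ in Filter.atTop, 4 * ((Real.log x) ^ A₀) ^ (A + 2 * n + 1) ≤ x := by
    have h4 := (Real.isLittleO_pow_log_id_atTop (n := A₀ * (A + 2 * n + 1))).def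
      (show (0 : ℝ) < 1 / 4 by norm_num)
    filter_upwards [h4, Filter.eventually_ge_atTop (0 : ℝ)] with x hx hx0
    rw [← pow_mul]
    have h5 := (le_abs_self _).trans hx
    simp only [id, Real.norm_eq_abs, abs_of_nonneg hx0] at h5
    linarith
  have h4 : ∀ᶠ y : ℝ in Filter.atTop,
      (1 + A₀ * Real.log y) ^ (n + A + 1) ≤ y ^ (δ / 2) := by
    obtain ⟨s, hs⟩ : ∃ s : ℝ, s = δ / (2 * ((n + A + 1 : ℕ) : ℝ)) := ⟨_, rfl⟩
    have hK : (0 : ℝ) < ((n + A + 1 : ℕ) : ℝ) := by positivity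
    have hs0 : 0 < s := by
      rw [hs]
      positivity
    have h5 := (isLittleO_log_rpow_atTop hs0).def (show (0 : ℝ) < 1 / (2 * A₀) by positivity)
    have h6 : ∀ᶠ y : ℝ in Filter.atTop, 2 ≤ y ^ s :=
      (tendsto_rpow_atTop hs0).eventually_ge_atTop 2
    filter_upwards [h5, h6, Filter.eventually_ge_atTop (1 : ℝ)] with y hy1 hy2 hy3
    have h7 : 0 ≤ y ^ s := by positivity
    have h8 : Real.log y ≤ 1 / (2 * A₀) * y ^ s := by
      have h9 := (le_abs_self _).trans hy1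
      rwa [Real.norm_eq_abs, abs_of_nonneg h7] at h9
    have h9 : 0 ≤ Real.log y := Real.log_nonneg hy3
    have h10 : 1 + A₀ * Real.log y ≤ y ^ s := by
      have h11 : (A₀ : ℝ) * Real.log y ≤ A₀ * (1 / (2 * A₀) * y ^ s) :=
        mul_le_mul_of_nonneg_left h8 (by linarith)
      have h12 : (A₀ : ℝ) * (1 / (2 * A₀) * y ^ s) = y ^ s / 2 := by
        field_simp
      linarith
    calc (1 + A₀ * Real.log y) ^ (n + A + 1) ≤ (y ^ s) ^ (n + A + 1) :=
          pow_le_pow_left₀ (by positivity) h10 _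
      _ = y ^ (δ / 2) := by
          rw [← Real.rpow_natCast, ← Real.rpow_mul (by linarith)]
          congr 1
          rw [hs]
          field_simp
  have h5 : ∀ᶠ x : ℝ in Filter.atTop,
      (1 + A₀ * Real.log (Real.log x)) ^ (n + A + 1) ≤ (Real.log x) ^ (δ / 2) :=
    hlog.eventually h4
  have h6 := ((h1.and (h2.and (h3.and h5)))).natCast_atTop
  obtain ⟨N, hN⟩ := Filter.eventually_atTop.1 h6
  refine ⟨max N 3, le_max_right _ _, fun X hX => hN X ((le_max_left _ _).trans hX)⟩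

private lemma g3_mem (dt : FData f ι) (τ : ι → ℤ) (I : Finset ι) (z : ℕ) (E : ι → ℕ) (hE : E ∈ smallE3 dt τ I z) :
    (∀ k, k ∈ I → E k = 1) ∧ (∀ k, k ∉ I → 1 ≤ E k ∧ E k ≤ z) ∧ NonDeg3 dt τ I E ∧
      ∀ k, k ∉ I → Squarefree (E k) ∧ Nat.Coprime (E k) dt.B := by
  classical
  simp only [smallE3, Finset.mem_filter, Fintype.mem_piFinset] at hE
  obtain ⟨h1, h2, h3⟩ := hE
  refine ⟨fun k hk => ?_, fun k hk => ?_, h2, h3⟩
  · have h4 := h1 k
    rw [if_pos hk, Finset.mem_singleton] at h4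
    exact h4
  · have h4 := h1 k
    rw [if_neg hk, Finset.mem_Icc] at h4
    exact h4

private lemma g3_harm (z : ℕ) : ∑ m ∈ Icc 1 z, (1 : ℝ) / (m : ℝ) ≤ 1 + Real.log z := by
  have h := harmonic_le_one_add_log z
  rw [harmonic_eq_sum_Icc] at h
  push_cast at h
  refine le_trans (le_of_eq ?_) h
  exact Finset.sum_congr rfl fun m _ => one_div _

private lemma g3_sumE (dt : FData f ι) (τ : ι → ℤ) (I : Finset ι) (z : ℕ) :
    ∑ E ∈ smallE3 dt τ I z, (1 : ℝ) / ((∏ k, E k : ℕ) : ℝ) ≤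
      (1 + Real.log z) ^ (Fintype.card ι) := by
  classical
  have hlz : 0 ≤ Real.log z := Real.log_natCast_nonneg z
  have hsub : smallE3 dt τ I z ⊆
      Fintype.piFinset (fun k => if k ∈ I then ({1} : Finset ℕ) else Icc 1 z) := by
    intro E hE
    obtain ⟨h1, h2, -, -⟩ := g3_mem dt τ I z E hE
    rw [Fintype.mem_piFinset]
    intro k
    by_cases hk : k ∈ I
    · rw [if_pos hk, Finset.mem_singleton]
      exact h1 k hk
    · rw [if_neg hk, Finset.mem_Icc]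
      exact h2 k hk
  calc ∑ E ∈ smallE3 dt τ I z, (1 : ℝ) / ((∏ k, E k : ℕ) : ℝ)
      = ∑ E ∈ smallE3 dt τ I z, ∏ k, (1 : ℝ) / (E k : ℝ) := by
        refine Finset.sum_congr rfl fun E _ => ?_
        rw [Finset.prod_div_distrib, Finset.prod_const_one]
        push_cast
        rfl
    _ ≤ ∑ E ∈ Fintype.piFinset (fun k => if k ∈ I then ({1} : Finset ℕ) else Icc 1 z),
          ∏ k, (1 : ℝ) / (E k : ℝ) :=
        Finset.sum_le_sum_of_subset_of_nonneg hsub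
          (fun _ _ _ => Finset.prod_nonneg fun _ _ => by positivity)
    _ = ∏ k, ∑ m ∈ (if k ∈ I then ({1} : Finset ℕ) else Icc 1 z), (1 : ℝ) / (m : ℝ) :=
        (Finset.prod_univ_sum (fun k => if k ∈ I then ({1} : Finset ℕ) else Icc 1 z)
          (fun _ m => (1 : ℝ) / (m : ℝ))).symm
    _ ≤ ∏ _k : ι, (1 + Real.log z) := by
        refine Finset.prod_le_prod (fun k _ => Finset.sum_nonneg fun _ _ => by positivity)
          fun k _ => ?_
        by_cases hk : k ∈ I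
        · rw [if_pos hk, Finset.sum_singleton]
          simp only [Nat.cast_one, div_one]
          linarith
        · rw [if_neg hk]
          exact g3_harm z
    _ = (1 + Real.log z) ^ (Fintype.card ι) := by
        rw [Finset.prod_const, Finset.card_univ]

/-- the elementary facts on `Y = X / P` -/
private lemma g3_Y (A n z P X : ℕ) (hz : 3 ≤ z) (hP1 : 1 ≤ P) (hP : P ≤ z ^ n)
    (hX : 4 * z ^ (A + 2 * n + 1) ≤ X) :
    z ^ A ≤ X / P ∧ 3 ≤ X / P ∧ X ≤ (X / P) ^ 2 := by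
  obtain ⟨Y, hY⟩ : ∃ Y, Y = X / P := ⟨_, rfl⟩
  rw [← hY]
  have hzn : 1 ≤ z ^ n := Nat.one_le_pow _ _ (by omega)
  have h1 : X < P * (Y + 1) := by
    rw [hY]
    exact Nat.lt_mul_div_succ X (by omega)
  have h2 : z ^ (A + 2 * n + 1) = z ^ (A + 1) * z ^ n * z ^ n := by
    rw [← pow_add, ← pow_add]
    congr 1
    omega
  have hzA : 1 ≤ z ^ (A + 1) := Nat.one_le_pow _ _ (by omega)
  have hPX : P ≤ X := by
    calc P ≤ z ^ n := hP
      _ = 1 * z ^ n := (one_mul _).symm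
      _ ≤ (4 * (z ^ (A + 1) * z ^ n)) * z ^ n :=
          Nat.mul_le_mul_right _ (by nlinarith [Nat.mul_le_mul hzA hzn])
      _ = 4 * z ^ (A + 2 * n + 1) := by rw [h2]; ring
      _ ≤ X := hX
  have hY1 : 1 ≤ Y := by
    rw [hY]
    exact Nat.div_pos hPX (by omega)
  have h3 : X ≤ P * (2 * Y) := by
    have : P * (Y + 1) ≤ P * (2 * Y) := Nat.mul_le_mul_left _ (by omega)
    omega
  have h4 : 2 * z ^ (A + 1) ≤ Y := by
    have h5 : P * (2 * (2 * z ^ (A + 1))) ≤ P * (2 * Y) := by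
      calc P * (2 * (2 * z ^ (A + 1))) = (4 * z ^ (A + 1)) * P * 1 := by ring
        _ ≤ (4 * z ^ (A + 1)) * z ^ n * z ^ n :=
            Nat.mul_le_mul (Nat.mul_le_mul_left _ hP) hzn
        _ = 4 * z ^ (A + 2 * n + 1) := by rw [h2]; ring
        _ ≤ X := hX
        _ ≤ P * (2 * Y) := h3
    have h6 := Nat.le_of_mul_le_mul_left h5 (by omega)
    omega
  have h5 : z ^ A * z = z ^ (A + 1) := (pow_succ z A).symm
  have hzA1 : 1 ≤ z ^ A := Nat.one_le_pow _ _ (by omega)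
  have h6 : z ^ A ≤ z ^ (A + 1) := Nat.pow_le_pow_right (by omega) (by omega)
  have h7 : z ≤ z ^ (A + 1) := by
    rw [← h5]
    nlinarith
  refine ⟨by omega, by omega, ?_⟩
  -- the square
  have h8 : 4 * P ^ 2 * X ≤ 4 * P ^ 2 * Y ^ 2 := by
    calc 4 * P ^ 2 * X ≤ 4 * (z ^ n) ^ 2 * X :=
          Nat.mul_le_mul_right _ (Nat.mul_le_mul_left _ (Nat.pow_le_pow_left hP 2))
      _ ≤ X * X := by
          refine Nat.mul_le_mul_right _ ?_
          calc 4 * (z ^ n) ^ 2 = 4 * (1 * z ^ n * z ^ n) := by ring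
            _ ≤ 4 * (z ^ (A + 1) * z ^ n * z ^ n) :=
                Nat.mul_le_mul_left _ (Nat.mul_le_mul_right _ (Nat.mul_le_mul_right _ hzA))
            _ = 4 * z ^ (A + 2 * n + 1) := by rw [h2]
            _ ≤ X := hX
      _ ≤ (P * (2 * Y)) * (P * (2 * Y)) := Nat.mul_le_mul h3 h3
      _ = 4 * P ^ 2 * Y ^ 2 := by ring
  exact Nat.le_of_mul_le_mul_left h8 (by positivity)

/-- the exponential factor -/
private lemma g3_exp (S δ C' l u : ℝ) (hl : 0 < l) (hu : 1 ≤ u) (hS : S ≤ (1 - δ) * Real.log l + (1 / 2) * Real.log u + C') :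
    1 / l * Real.exp S ≤ Real.exp C' * l ^ (-δ) * u := by
  have hlu : 0 ≤ Real.log u := Real.log_nonneg hu
  have h1 : Real.exp S ≤ l ^ (1 - δ) * u * Real.exp C' := by
    calc Real.exp S ≤ Real.exp (Real.log l * (1 - δ) + Real.log u + C') := by
          apply Real.exp_le_exp.2
          linarith
      _ = l ^ (1 - δ) * u * Real.exp C' := by
          rw [Real.exp_add, Real.exp_add, Real.exp_log (by linarith), ← Real.rpow_def_of_pos hl]
  have h2 : 1 / l * l ^ (1 - δ) = l ^ (-δ) := by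
    rw [show (1 - δ) = (-δ) + 1 by ring, Real.rpow_add hl, Real.rpow_one]
    field_simp
  calc 1 / l * Real.exp S ≤ 1 / l * (l ^ (1 - δ) * u * Real.exp C') :=
        mul_le_mul_of_nonneg_left h1 (by positivity)
    _ = (1 / l * l ^ (1 - δ)) * u * Real.exp C' := by ring
    _ = Real.exp C' * l ^ (-δ) * u := by rw [h2]; ring

theorem sum_adm3 (dt : FData f ι) (τ : ι → ℤ) (hτ : ∀ i, τ i ∣ (dt.B : ℤ)) :
    ∃ A₁ : ℕ, ∀ A₀ : ℕ, A₁ ≤ A₀ → ∃ (C c : ℝ) (X₀ : ℕ), 0 < C ∧ 0 < c ∧ 3 ≤ X₀ ∧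
      ∀ X : ℕ, X₀ ≤ X → ∀ I : Finset ι, I.Nonempty →
        ∑ E ∈ smallE3 dt τ I ⌊(Real.log X) ^ A₀⌋₊,
          ((Adm (condI dt τ I E) ⌊(Real.log X) ^ A₀⌋₊ (X / ∏ k, E k)).ncard : ℝ) ≤
          C * X / (Real.log X) ^ c := by
  classical
  obtain ⟨A, C, c, hC, hc, hM⟩ := g3_M ι
  obtain ⟨δ, C', hδ, hδ1, hC', hW⟩ := weight_bound3 dt τ hτ
  obtain ⟨A₁, hA₁⟩ := exists_nat_ge (((A : ℝ) + 1) / c)
  refine ⟨A₁, fun A₀ hA₀ => ?_⟩
  have hA₀r : (A₁ : ℝ) ≤ A₀ := by exact_mod_cast hA₀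
  have hcA : (A : ℝ) + 1 ≤ c * A₀ := by
    rw [div_le_iff₀ hc] at hA₁
    nlinarith
  have hA0 : (0 : ℝ) ≤ A := Nat.cast_nonneg A
  have hA₀1 : 1 ≤ A₀ := by
    by_contra hlt
    have h0 : A₀ = 0 := by omega
    rw [h0, Nat.cast_zero, mul_zero] at hcA
    linarith
  obtain ⟨n, hn⟩ : ∃ n, n = Fintype.card ι := ⟨_, rfl⟩
  obtain ⟨X₀, hX₀3, hX₀⟩ := g3_ev A n A₀ hA₀1 δ hδ
  refine ⟨C * Real.exp C' * 2 + C * (2 ^ A * 2 ^ c), δ / 2, X₀, by positivity, by positivity,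
    hX₀3, ?_⟩
  intro X hX I hI
  obtain ⟨hL1, hz4, hX4, hlog⟩ := hX₀ X hX
  obtain ⟨L, hL⟩ : ∃ L, L = Real.log X := ⟨_, rfl⟩
  rw [← hL] at hL1 hz4 hX4 hlog ⊢
  obtain ⟨z, hz⟩ : ∃ z, z = ⌊L ^ A₀⌋₊ := ⟨_, rfl⟩
  rw [← hz]
  have hL0 : 0 < L := by linarith
  have hLA : 0 ≤ L ^ A₀ := by positivity
  have hzle : (z : ℝ) ≤ L ^ A₀ := by
    rw [hz]
    exact Nat.floor_le hLA
  have hzge : L ^ A₀ / 2 ≤ z := by
    have h1 := Nat.lt_floor_add_one (L ^ A₀)
    rw [← hz] at h1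
    linarith
  have hzA : A + 4 ≤ z := by
    rw [hz]
    apply Nat.le_floor
    push_cast
    exact hz4
  have hz3 : 3 ≤ z := by omega
  have hzr : (3 : ℝ) ≤ z := by exact_mod_cast hz3
  have hX4' : 4 * z ^ (A + 2 * n + 1) ≤ X := by
    have h1 : (4 : ℝ) * (z : ℝ) ^ (A + 2 * n + 1) ≤ X := by
      refine le_trans ?_ hX4
      have := pow_le_pow_left₀ (by positivity : (0 : ℝ) ≤ z) hzle (A + 2 * n + 1)
      linarith
    exact_mod_cast h1
  obtain ⟨u, hu⟩ : ∃ u, u = 1 + Real.log z := ⟨_, rfl⟩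
  have hlz : 0 ≤ Real.log z := Real.log_nonneg (by linarith)
  have hu1 : 1 ≤ u := by linarith
  have hu2 : u ≤ 1 + A₀ * Real.log L := by
    have h1 : Real.log z ≤ Real.log (L ^ A₀) := Real.log_le_log (by linarith) hzle
    rw [Real.log_pow] at h1
    linarith
  have hu3 : u ^ (n + A + 1) ≤ L ^ (δ / 2) :=
    (pow_le_pow_left₀ (by linarith) hu2 _).trans hlog
  have hXpos : (0 : ℝ) ≤ X := Nat.cast_nonneg X
  -- one `E`
  have hone : ∀ E ∈ smallE3 dt τ I z,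
      ((Adm (condI dt τ I E) z (X / ∏ k, E k)).ncard : ℝ) ≤
        (C * Real.exp C' * 2 * (L ^ (-δ) * u ^ (A + 1)) + C * (2 ^ A * 2 ^ c) * L ^ (-1 : ℝ)) *
          (X * (1 / ((∏ k, E k : ℕ) : ℝ))) := by
    intro E hE
    obtain ⟨he1, he2, he3, he4⟩ := g3_mem dt τ I z E hE
    obtain ⟨P, hP⟩ : ∃ P, P = ∏ k, E k := ⟨_, rfl⟩
    have hEk : ∀ k, 1 ≤ E k ∧ E k ≤ z := by
      intro k
      by_cases hk : k ∈ I
      · rw [he1 k hk]
        omega
      · exact he2 k hk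
    have hP1 : 1 ≤ P := by
      rw [hP]
      exact Finset.one_le_prod' fun k _ => (hEk k).1
    have hPz : P ≤ z ^ n := by
      rw [hP, hn]
      calc ∏ k, E k ≤ ∏ _k : ι, z := Finset.prod_le_prod' fun k _ => (hEk k).2
        _ = z ^ (Fintype.card ι) := by rw [Finset.prod_const, Finset.card_univ]
    obtain ⟨hY1, hY2, hY3⟩ := g3_Y A n z P X hz3 hP1 hPz hX4'
    rw [← hP]
    obtain ⟨Y, hY⟩ : ∃ Y, Y = X / P := ⟨_, rfl⟩
    rw [← hY] at hY1 hY2 hY3 ⊢
    have hYr : (3 : ℝ) ≤ Y := by exact_mod_cast hY2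
    have hYX : Y ≤ X := by
      rw [hY]
      exact Nat.div_le_self X P
    have hYXr : (Y : ℝ) ≤ X := by exact_mod_cast hYX
    have hYP : (Y : ℝ) ≤ X * (1 / (P : ℝ)) := by
      rw [hY, mul_one_div]
      exact Nat.cast_div_le
    have hlY1 : Real.log Y ≤ L := by
      rw [hL]
      exact Real.log_le_log (by linarith) hYXr
    have hlY2 : L / 2 ≤ Real.log Y := by
      have h1 : (X : ℝ) ≤ (Y : ℝ) ^ 2 := by exact_mod_cast hY3
      have h2 : Real.log X ≤ Real.log ((Y : ℝ) ^ 2) := Real.log_le_log (by linarith) h1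
      rw [Real.log_pow, ← hL] at h2
      push_cast at h2
      linarith
    have hlY0 : 0 < Real.log Y := by linarith
    have h1 := hM I (condI dt τ I E) z Y (by omega) hY2 (by omega) hY1
    have h2 := hW I E z hI (by omega)
      (fun k hk => ⟨(he4 k hk).1, (he4 k hk).2, (he2 k hk).2⟩) he3 Y hY2
    rw [← hu] at h1 h2
    have h3 := g3_exp _ δ C' (Real.log Y) u hlY0 hu1 h2
    have h4 : (Real.log Y) ^ (-δ) ≤ 2 * L ^ (-δ) := by
      calc (Real.log Y) ^ (-δ) ≤ (L / 2) ^ (-δ) :=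
            Real.rpow_le_rpow_of_nonpos (by positivity) hlY2 (by linarith)
        _ = (2 : ℝ) ^ δ * L ^ (-δ) := by
            rw [Real.div_rpow hL0.le (by norm_num), Real.rpow_neg (by norm_num : (0:ℝ) ≤ 2)]
            field_simp
        _ ≤ 2 * L ^ (-δ) := by
            refine mul_le_mul_of_nonneg_right ?_ (by positivity)
            calc (2 : ℝ) ^ δ ≤ 2 ^ (1 : ℝ) :=
                  Real.rpow_le_rpow_of_exponent_le (by norm_num) hδ1
              _ = 2 := Real.rpow_one 2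
    have hfirst : C * (Y / Real.log Y) * u ^ A * Real.exp (∑ p ∈ Pool.Agent.Helper10.P5.PL Y,
        (∑ i, alph (condI dt τ I E) i p) / p) ≤
        C * Real.exp C' * 2 * (L ^ (-δ) * u ^ (A + 1)) * Y := by
      calc C * (Y / Real.log Y) * u ^ A * Real.exp (∑ p ∈ Pool.Agent.Helper10.P5.PL Y,
          (∑ i, alph (condI dt τ I E) i p) / p)
          = C * Y * u ^ A * (1 / Real.log Y * Real.exp (∑ p ∈ Pool.Agent.Helper10.P5.PL Y,
          (∑ i, alph (condI dt τ I E) i p) / p)) := by ring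
        _ ≤ C * Y * u ^ A * (Real.exp C' * (Real.log Y) ^ (-δ) * u) :=
            mul_le_mul_of_nonneg_left h3 (by positivity)
        _ ≤ C * Y * u ^ A * (Real.exp C' * (2 * L ^ (-δ)) * u) := by
            refine mul_le_mul_of_nonneg_left ?_ (by positivity)
            refine mul_le_mul_of_nonneg_right ?_ (by linarith)
            exact mul_le_mul_of_nonneg_left h4 (Real.exp_pos _).le
        _ = C * Real.exp C' * 2 * (L ^ (-δ) * u ^ (A + 1)) * Y := by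
            rw [pow_succ]
            ring
    have hsecond : C * Y * (1 + Real.log Y) ^ A * (z : ℝ) ^ (-c) ≤
        C * (2 ^ A * 2 ^ c) * L ^ (-1 : ℝ) * Y := by
      have h5 : (1 + Real.log Y) ^ A ≤ 2 ^ A * L ^ A := by
        rw [← mul_pow]
        exact pow_le_pow_left₀ (by linarith) (by linarith) _
      have h6 : (z : ℝ) ^ (-c) ≤ 2 ^ c * L ^ (-(c * A₀)) := by
        calc (z : ℝ) ^ (-c) ≤ (L ^ A₀ / 2) ^ (-c) :=
              Real.rpow_le_rpow_of_nonpos (by positivity) hzge (by linarith)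
          _ = 2 ^ c * L ^ (-(c * A₀)) := by
              rw [Real.div_rpow hLA (by norm_num), Real.rpow_neg (by norm_num : (0:ℝ) ≤ 2),
                ← Real.rpow_natCast, ← Real.rpow_mul hL0.le]
              rw [show (A₀ : ℝ) * -c = -(c * A₀) by ring]
              field_simp
      have h7 : L ^ A * L ^ (-(c * A₀)) ≤ L ^ (-1 : ℝ) := by
        rw [← Real.rpow_natCast, ← Real.rpow_add hL0]
        exact Real.rpow_le_rpow_of_exponent_le hL1 (by linarith)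
      calc C * Y * (1 + Real.log Y) ^ A * (z : ℝ) ^ (-c)
          ≤ C * Y * (2 ^ A * L ^ A) * (2 ^ c * L ^ (-(c * A₀))) := by
            refine mul_le_mul ?_ h6 (by positivity) (by positivity)
            exact mul_le_mul_of_nonneg_left h5 (by positivity)
        _ = C * (2 ^ A * 2 ^ c) * Y * (L ^ A * L ^ (-(c * A₀))) := by ring
        _ ≤ C * (2 ^ A * 2 ^ c) * Y * L ^ (-1 : ℝ) :=
            mul_le_mul_of_nonneg_left h7 (by positivity)
        _ = C * (2 ^ A * 2 ^ c) * L ^ (-1 : ℝ) * Y := by ring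
    calc ((Adm (condI dt τ I E) z Y).ncard : ℝ)
        ≤ C * Real.exp C' * 2 * (L ^ (-δ) * u ^ (A + 1)) * Y +
            C * (2 ^ A * 2 ^ c) * L ^ (-1 : ℝ) * Y := h1.trans (add_le_add hfirst hsecond)
      _ = (C * Real.exp C' * 2 * (L ^ (-δ) * u ^ (A + 1)) +
            C * (2 ^ A * 2 ^ c) * L ^ (-1 : ℝ)) * Y := by ring
      _ ≤ _ := mul_le_mul_of_nonneg_left hYP (by positivity)
  refine (Finset.sum_le_sum hone).trans ?_
  rw [← Finset.mul_sum, ← Finset.mul_sum]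
  have hsum := g3_sumE dt τ I z
  rw [← hu, ← hn] at hsum
  have hK0 : 0 ≤ C * Real.exp C' * 2 * (L ^ (-δ) * u ^ (A + 1)) +
      C * (2 ^ A * 2 ^ c) * L ^ (-1 : ℝ) := by positivity
  have hun : u ^ n ≤ L ^ (δ / 2) :=
    (pow_le_pow_right₀ hu1 (by omega)).trans hu3
  have hu4 : u ^ (A + 1) * u ^ n ≤ L ^ (δ / 2) := by
    rw [← pow_add, show A + 1 + n = n + A + 1 by ring]
    exact hu3
  have e1 : L ^ (-δ) * L ^ (δ / 2) = L ^ (-(δ / 2)) := by
    rw [← Real.rpow_add hL0]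
    congr 1
    ring
  have e2 : L ^ (-1 : ℝ) * L ^ (δ / 2) ≤ L ^ (-(δ / 2)) := by
    rw [← Real.rpow_add hL0]
    exact Real.rpow_le_rpow_of_exponent_le hL1 (by linarith)
  calc (C * Real.exp C' * 2 * (L ^ (-δ) * u ^ (A + 1)) + C * (2 ^ A * 2 ^ c) * L ^ (-1 : ℝ)) *
        (X * ∑ E ∈ smallE3 dt τ I z, 1 / ((∏ k, E k : ℕ) : ℝ))
      ≤ (C * Real.exp C' * 2 * (L ^ (-δ) * u ^ (A + 1)) + C * (2 ^ A * 2 ^ c) * L ^ (-1 : ℝ)) *
        (X * u ^ n) :=
        mul_le_mul_of_nonneg_left (mul_le_mul_of_nonneg_left hsum hXpos) hK0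
    _ = X * (C * Real.exp C' * 2 * (L ^ (-δ) * (u ^ (A + 1) * u ^ n)) +
          C * (2 ^ A * 2 ^ c) * (L ^ (-1 : ℝ) * u ^ n)) := by ring
    _ ≤ X * (C * Real.exp C' * 2 * (L ^ (-δ) * L ^ (δ / 2)) +
          C * (2 ^ A * 2 ^ c) * (L ^ (-1 : ℝ) * L ^ (δ / 2))) := by
        refine mul_le_mul_of_nonneg_left (add_le_add ?_ ?_) hXpos
        · exact mul_le_mul_of_nonneg_left (mul_le_mul_of_nonneg_left hu4 (by positivity))
            (by positivity)
        · exact mul_le_mul_of_nonneg_left (mul_le_mul_of_nonneg_left hun (by positivity))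
            (by positivity)
    _ ≤ X * (C * Real.exp C' * 2 * L ^ (-(δ / 2)) + C * (2 ^ A * 2 ^ c) * L ^ (-(δ / 2))) := by
        refine mul_le_mul_of_nonneg_left (add_le_add (le_of_eq (by rw [e1])) ?_) hXpos
        exact mul_le_mul_of_nonneg_left e2 (by positivity)
    _ = (C * Real.exp C' * 2 + C * (2 ^ A * 2 ^ c)) * X / L ^ (δ / 2) := by
        rw [Real.rpow_neg hL0.le]
        ring

end Pool.Agent.Helper38.TW
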